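import Pool.Agent.Lib.MP_7d5495_lc.Ring

/-!
# Gluing a box along a full side
-/

set_option autoImplicit false

namespace Pool.Agent.Lib.MP_7d5495_lc

namespace Attach

open RingBd

lemma boxCells_append (prev : List (Bx × ℕ)) (Rs : Bx × ℕ) (a b : ℤ) :
    boxCells (prev ++ [Rs]) a b ↔ boxCells prev a b ∨ InR Rs.1 a b := by
  unfold boxCells InR
  constructor
  · rintro ⟨Q, hQ, h⟩
    rcases List.mem_append.1 hQ with h1 | h1
    · exact Or.inl ⟨Q, h1, h⟩
    · rw [List.mem_singleton.1 h1] at h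
      exact Or.inr h
  · rintro (⟨Q, hQ, h⟩ | h)
    · exact ⟨Q, List.mem_append.2 (Or.inl hQ), h⟩
    · exact ⟨Rs, List.mem_append.2 (Or.inr (List.mem_singleton.2 rfl)), h⟩

lemma disj {prev : List (Bx × ℕ)} {Rs : Bx × ℕ} (h : OkAtt prev Rs) {a b : ℤ}
    (h1 : boxCells prev a b) (h2 : InR Rs.1 a b) : False := by
  obtain ⟨Q, hQ, q1, q2, q3, q4⟩ := h1
  obtain ⟨r1, r2, r3, r4⟩ := h2
  rcases h.2.1 Q hQ with hb | hb
  · rcases hb with ⟨-, hb⟩ | ⟨-, hb⟩ | ⟨-, hb⟩ | ⟨-, hb⟩ <;> omega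
  · rcases hb with hb | hb | hb | hb <;> omega

lemma adj {prev : List (Bx × ℕ)} {R : Bx} {s : ℕ} (h : OkAtt prev (R, s)) {p q : ℕ × ℕ}
    (hu : isU p q) (h1 : boxCells prev (lc p q).1 (lc p q).2)
    (h2 : InR R (lc q p).1 (lc q p).2) :
    ∃ i, i < len R s ∧ p = pt R s (i + 1) ∧ q = pt R s i := by
  obtain ⟨⟨n1, n2⟩, hsep, -⟩ := h
  obtain ⟨Q, hQ, q1, q2, q3, q4⟩ := h1
  obtain ⟨r1, r2, r3, r4⟩ := h2
  obtain ⟨p1, p2⟩ := p
  obtain ⟨u1, u2⟩ := q
  have hQs : Beyond s R Q.1 ∨ Apart R Q.1 := hsep Q hQ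
  simp only at n1 n2
  unfold isU at hu
  simp only at hu
  rcases hu with ⟨rfl, rfl⟩ | ⟨rfl, rfl⟩ | ⟨rfl, rfl⟩ | ⟨rfl, rfl⟩
  · have e1 : lc (p1, u2) (p1 + 1, u2) = ((p1 : ℤ), (u2 : ℤ)) := by simp [lc]
    have e2 : lc (p1 + 1, u2) (p1, u2) = ((p1 : ℤ), (u2 : ℤ) - 1) := by
      have : ¬ (p1 = p1 + 1 + 1) := by omega
      simp [lc, this]
    rw [e1] at q1 q2 q3 q4
    rw [e2] at r1 r2 r3 r4
    simp only at q1 q2 q3 q4 r1 r2 r3 r4
    rcases hQs with hb | hb
    · rcases hb with ⟨-, hb⟩ | ⟨-, hb⟩ | ⟨hs, hb⟩ | ⟨-, hb⟩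
      · omega
      · omega
      · refine ⟨R.1.2 - (p1 + 1), ?_, ?_, ?_⟩
        · simp [len, hs]; omega
        · simp [pt, hs]; omega
        · simp [pt, hs]; omega
      · omega
    · rcases hb with hb | hb | hb | hb <;> omega
  · have e1 : lc (u1, p2) (u1, p2 + 1) = ((u1 : ℤ) - 1, (p2 : ℤ)) := by
      have : ¬ (u1 = u1 + 1) := by omega
      simp [lc, this]
    have e2 : lc (u1, p2 + 1) (u1, p2) = ((u1 : ℤ), (p2 : ℤ)) := by
      have h5 : ¬ (u1 = u1 + 1) := by omega
      have h6 : ¬ (p2 = p2 + 1 + 1) := by omega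
      simp [lc, h5, h6]
    rw [e1] at q1 q2 q3 q4
    rw [e2] at r1 r2 r3 r4
    simp only at q1 q2 q3 q4 r1 r2 r3 r4
    rcases hQs with hb | hb
    · rcases hb with ⟨-, hb⟩ | ⟨-, hb⟩ | ⟨-, hb⟩ | ⟨hs, hb⟩
      · omega
      · omega
      · omega
      · refine ⟨R.2.2 - (p2 + 1), ?_, ?_, ?_⟩
        · simp [len, hs]; omega
        · simp [pt, hs]; omega
        · simp [pt, hs]; omega
    · rcases hb with hb | hb | hb | hb <;> omega
  · have e1 : lc (u1 + 1, u2) (u1, u2) = ((u1 : ℤ), (u2 : ℤ) - 1) := by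
      have : ¬ (u1 = u1 + 1 + 1) := by omega
      simp [lc, this]
    have e2 : lc (u1, u2) (u1 + 1, u2) = ((u1 : ℤ), (u2 : ℤ)) := by simp [lc]
    rw [e1] at q1 q2 q3 q4
    rw [e2] at r1 r2 r3 r4
    simp only at q1 q2 q3 q4 r1 r2 r3 r4
    rcases hQs with hb | hb
    · rcases hb with ⟨hs, hb⟩ | ⟨-, hb⟩ | ⟨-, hb⟩ | ⟨-, hb⟩
      · refine ⟨u1 - R.1.1, ?_, ?_, ?_⟩
        · simp [len, hs]; omega
        · simp [pt, hs]; omega
        · simp [pt, hs]; omega
      · omega
      · omega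
      · omega
    · rcases hb with hb | hb | hb | hb <;> omega
  · have e1 : lc (u1, u2 + 1) (u1, u2) = ((u1 : ℤ), (u2 : ℤ)) := by
      have h5 : ¬ (u1 = u1 + 1) := by omega
      have h6 : ¬ (u2 = u2 + 1 + 1) := by omega
      simp [lc, h5, h6]
    have e2 : lc (u1, u2) (u1, u2 + 1) = ((u1 : ℤ) - 1, (u2 : ℤ)) := by
      have : ¬ (u1 = u1 + 1) := by omega
      simp [lc, this]
    rw [e1] at q1 q2 q3 q4
    rw [e2] at r1 r2 r3 r4
    simp only at q1 q2 q3 q4 r1 r2 r3 r4
    rcases hQs with hb | hb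
    · rcases hb with ⟨-, hb⟩ | ⟨hs, hb⟩ | ⟨-, hb⟩ | ⟨-, hb⟩
      · omega
      · refine ⟨u2 - R.2.1, ?_, ?_, ?_⟩
        · simp [len, hs]; omega
        · simp [pt, hs]; omega
        · simp [pt, hs]; omega
      · omega
      · omega
    · rcases hb with hb | hb | hb | hb <;> omega

lemma door {prev : List (Bx × ℕ)} {R : Bx} {s : ℕ} (h : OkAtt prev (R, s)) {i : ℕ}
    (hi : i < len R s) : isU (pt R s (i + 1)) (pt R s i) ∧
      boxCells prev (lc (pt R s (i + 1)) (pt R s i)).1 (lc (pt R s (i + 1)) (pt R s i)).2 ∧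
      InR R (lc (pt R s i) (pt R s (i + 1))).1 (lc (pt R s i) (pt R s (i + 1))).2 := by
  obtain ⟨⟨n1, n2⟩, -, hb⟩ := h
  simp only at n1 n2
  obtain ⟨b0, b1, b2, b3⟩ := hb
  simp only at b0 b1 b2 b3
  rcases mod4 s with hs | hs | hs | hs
  · have e : ∀ j, pt R s j = (R.1.1 + j, R.2.1) := fun j => by simp [pt, hs]
    have hl : len R s = R.1.2 - R.1.1 := by simp [len, hs]
    rw [hl] at hi
    rw [e, e]
    have e1 : lc (R.1.1 + (i + 1), R.2.1) (R.1.1 + i, R.2.1) =
        (((R.1.1 + i : ℕ) : ℤ), (R.2.1 : ℤ) - 1) := by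
      have h5 : ¬ (R.1.1 + i = R.1.1 + (i + 1) + 1) := by omega
      have h7 : ¬ (R.2.1 = R.2.1 + 1) := by omega
      have h6 : R.1.1 + (i + 1) = R.1.1 + i + 1 := by omega
      unfold lc
      dsimp only
      rw [if_neg h5, if_neg h7, if_pos h6]
    have e2 : lc (R.1.1 + i, R.2.1) (R.1.1 + (i + 1), R.2.1) =
        (((R.1.1 + i : ℕ) : ℤ), (R.2.1 : ℤ)) := by
      have h6 : R.1.1 + (i + 1) = R.1.1 + i + 1 := by omega
      simp [lc, h6]
    rw [e1, e2]
    refine ⟨by unfold isU; dsimp only; omega, b0 hs _ (by omega) (by omega), ?_⟩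
    unfold InR
    simp only
    omega
  · have e : ∀ j, pt R s j = (R.1.2, R.2.1 + j) := fun j => by simp [pt, hs]
    have hl : len R s = R.2.2 - R.2.1 := by simp [len, hs]
    rw [hl] at hi
    rw [e, e]
    have e1 : lc (R.1.2, R.2.1 + (i + 1)) (R.1.2, R.2.1 + i) =
        ((R.1.2 : ℤ), ((R.2.1 + i : ℕ) : ℤ)) := by
      have h5 : ¬ (R.1.2 = R.1.2 + 1) := by omega
      have h6 : ¬ (R.2.1 + i = R.2.1 + (i + 1) + 1) := by omega
      simp only [lc, h5, h6, if_false]
    have e2 : lc (R.1.2, R.2.1 + i) (R.1.2, R.2.1 + (i + 1)) =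
        ((R.1.2 : ℤ) - 1, ((R.2.1 + i : ℕ) : ℤ)) := by
      have h5 : ¬ (R.1.2 = R.1.2 + 1) := by omega
      have h6 : R.2.1 + (i + 1) = R.2.1 + i + 1 := by omega
      simp only [lc, h5, if_false, h6, if_true]
    rw [e1, e2]
    refine ⟨by unfold isU; dsimp only; omega, b1 hs _ (by omega) (by omega), ?_⟩
    unfold InR
    simp only
    omega
  · have e : ∀ j, pt R s j = (R.1.2 - j, R.2.2) := fun j => by simp [pt, hs]
    have hl : len R s = R.1.2 - R.1.1 := by simp [len, hs]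
    rw [hl] at hi
    rw [e, e]
    have e1 : lc (R.1.2 - (i + 1), R.2.2) (R.1.2 - i, R.2.2) =
        (((R.1.2 - (i + 1) : ℕ) : ℤ), (R.2.2 : ℤ)) := by
      have h5 : R.1.2 - i = R.1.2 - (i + 1) + 1 := by omega
      simp only [lc, h5, if_true]
    have e2 : lc (R.1.2 - i, R.2.2) (R.1.2 - (i + 1), R.2.2) =
        (((R.1.2 - (i + 1) : ℕ) : ℤ), (R.2.2 : ℤ) - 1) := by
      have h5 : ¬ (R.1.2 - (i + 1) = R.1.2 - i + 1) := by omega
      have h6 : ¬ (R.2.2 = R.2.2 + 1) := by omega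
      have h7 : R.1.2 - i = R.1.2 - (i + 1) + 1 := by omega
      simp only [lc, h5, h6, if_false]
      rw [if_pos h7]
    rw [e1, e2]
    refine ⟨by unfold isU; dsimp only; omega, b2 hs _ (by omega) (by omega), ?_⟩
    unfold InR
    simp only
    omega
  · have e : ∀ j, pt R s j = (R.1.1, R.2.2 - j) := fun j => by simp [pt, hs]
    have hl : len R s = R.2.2 - R.2.1 := by simp [len, hs]
    rw [hl] at hi
    rw [e, e]
    have e1 : lc (R.1.1, R.2.2 - (i + 1)) (R.1.1, R.2.2 - i) =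
        ((R.1.1 : ℤ) - 1, ((R.2.2 - (i + 1) : ℕ) : ℤ)) := by
      have h5 : ¬ (R.1.1 = R.1.1 + 1) := by omega
      have h6 : R.2.2 - i = R.2.2 - (i + 1) + 1 := by omega
      simp only [lc, h5, if_false]
      rw [if_pos h6]
    have e2 : lc (R.1.1, R.2.2 - i) (R.1.1, R.2.2 - (i + 1)) =
        ((R.1.1 : ℤ), ((R.2.2 - (i + 1) : ℕ) : ℤ)) := by
      have h5 : ¬ (R.1.1 = R.1.1 + 1) := by omega
      have h6 : ¬ (R.2.2 - (i + 1) = R.2.2 - i + 1) := by omega
      simp only [lc, h5, h6, if_false]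
    rw [e1, e2]
    refine ⟨by unfold isU; dsimp only; omega, b3 hs _ (by omega) (by omega), ?_⟩
    unfold InR
    simp only
    omega

lemma lc_corner {p q : ℕ × ℕ} (hu : isU p q) : (lc p q).1 ≤ p.1 ∧ (p.1 : ℤ) ≤ (lc p q).1 + 1 ∧
    (lc p q).2 ≤ p.2 ∧ (p.2 : ℤ) ≤ (lc p q).2 + 1 := by
  unfold isU at hu
  unfold lc
  split_ifs <;> simp only <;> omega

/-- points of the old boundary in the closed new box are on the door -/
lemma corner {prev : List (Bx × ℕ)} {R : Bx} {s : ℕ} (h : OkAtt prev (R, s)) {p q : ℕ × ℕ}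
    (hu : isU p q) (h1 : boxCells prev (lc p q).1 (lc p q).2)
    (h2 : R.1.1 ≤ p.1 ∧ p.1 ≤ R.1.2 ∧ R.2.1 ≤ p.2 ∧ p.2 ≤ R.2.2) :
    ∃ i ≤ len R s, p = pt R s i := by
  obtain ⟨⟨n1, n2⟩, hsep, -⟩ := h
  obtain ⟨Q, hQ, q1, q2, q3, q4⟩ := h1
  obtain ⟨c1, c2, c3, c4⟩ := lc_corner hu
  have hQs : Beyond s R Q.1 ∨ Apart R Q.1 := hsep Q hQ
  simp only at n1 n2
  obtain ⟨p1, p2⟩ := p
  simp only at *
  rcases hQs with hb | hb
  · rcases hb with ⟨hs, hb⟩ | ⟨hs, hb⟩ | ⟨hs, hb⟩ | ⟨hs, hb⟩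
    · refine ⟨p1 - R.1.1, ?_, ?_⟩
      · simp [len, hs]; omega
      · simp [pt, hs]; omega
    · refine ⟨p2 - R.2.1, ?_, ?_⟩
      · simp [len, hs]; omega
      · simp [pt, hs]; omega
    · refine ⟨R.1.2 - p1, ?_, ?_⟩
      · simp [len, hs]; omega
      · simp [pt, hs]; omega
    · refine ⟨R.2.2 - p2, ?_, ?_⟩
      · simp [len, hs]; omega
      · simp [pt, hs]; omega
  · rcases hb with hb | hb | hb | hb <;> omega

/-- the ring, starting with the side `s` -/
lemma ring_from (R : Bx) (hR : NonE R) (s : ℕ) :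
    PathOf (InR R) (side R s ++ (side R (s + 1) ++ side R (s + 2) ++ side R (s + 3))) := by
  have h0 := pathOf_ring hR
  rw [boxCells_single] at h0
  refine pathOf_rotate ?_ h0
  rw [side_mod R s, side_mod R (s + 1), side_mod R (s + 2), side_mod R (s + 3)]
  rcases mod4 s with hs | hs | hs | hs
  · have e1 : (s + 1) % 4 = 1 := by omega
    have e2 : (s + 2) % 4 = 2 := by omega
    have e3 : (s + 3) % 4 = 3 := by omega
    rw [hs, e1, e2, e3]
    simp only [List.append_assoc]
    exact List.IsRotated.refl _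
  · have e1 : (s + 1) % 4 = 2 := by omega
    have e2 : (s + 2) % 4 = 3 := by omega
    have e3 : (s + 3) % 4 = 0 := by omega
    rw [hs, e1, e2, e3]
    have := List.isRotated_append (l := side R 0) (l' := side R 1 ++ side R 2 ++ side R 3)
    simpa [List.append_assoc] using this
  · have e1 : (s + 1) % 4 = 3 := by omega
    have e2 : (s + 2) % 4 = 0 := by omega
    have e3 : (s + 3) % 4 = 1 := by omega
    rw [hs, e1, e2, e3]
    have := List.isRotated_append (l := side R 0 ++ side R 1) (l' := side R 2 ++ side R 3)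
    simpa [List.append_assoc] using this
  · have e1 : (s + 1) % 4 = 0 := by omega
    have e2 : (s + 2) % 4 = 1 := by omega
    have e3 : (s + 3) % 4 = 2 := by omega
    rw [hs, e1, e2, e3]
    have := List.isRotated_append (l := side R 0 ++ side R 1 ++ side R 2) (l' := side R 3)
    simpa [List.append_assoc] using this

/-- the detour -/
def det (R : Bx) (s : ℕ) : List (ℕ × ℕ) := side R (s + 1) ++ side R (s + 2) ++ side R (s + 3)

lemma det_cons (R : Bx) (hR : NonE R) (s : ℕ) : ∃ t, det R s = cor R (s + 1) :: t := by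
  unfold det
  rw [side_cons R hR (s + 1)]
  exact ⟨_, rfl⟩

lemma det_closed (R : Bx) (hR : NonE R) (s : ℕ) {p : ℕ × ℕ} (hp : p ∈ det R s) :
    R.1.1 ≤ p.1 ∧ p.1 ≤ R.1.2 ∧ R.2.1 ≤ p.2 ∧ p.2 ≤ R.2.2 := by
  unfold det at hp
  rw [List.mem_append, List.mem_append] at hp
  rcases hp with (hp | hp) | hp <;>
  · obtain ⟨i, hi, rfl⟩ := (mem_side R _ p).1 hp
    exact pt_closed R hR _ i hi.le

/-- boundary of the union -/
lemma isBd_union {prev : List (Bx × ℕ)} {R : Bx} {s : ℕ} (h : OkAtt prev (R, s)) (p q : ℕ × ℕ) :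
    IsBd (boxCells (prev ++ [(R, s)])) p q ↔
      (IsBd (boxCells prev) p q ∧ ¬ ∃ i < len R s, p = pt R s (i + 1) ∧ q = pt R s i) ∨
      (IsBd (InR R) p q ∧ ¬ ∃ i < len R s, q = pt R s (i + 1) ∧ p = pt R s i) := by
  rw [isBd_iff, isBd_iff, isBd_iff]
  rw [boxCells_append, boxCells_append]
  constructor
  · rintro ⟨hu, hl, hr⟩
    have hr1 : ¬ boxCells prev (lc q p).1 (lc q p).2 := fun h1 => hr (Or.inl h1)
    have hr2 : ¬ InR R (lc q p).1 (lc q p).2 := fun h1 => hr (Or.inr h1)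
    rcases hl with hl | hl
    · left
      refine ⟨⟨hu, hl, hr1⟩, ?_⟩
      rintro ⟨i, hi, rfl, rfl⟩
      exact hr2 (door h hi).2.2
    · right
      refine ⟨⟨hu, hl, hr2⟩, ?_⟩
      rintro ⟨i, hi, rfl, rfl⟩
      exact hr1 (door h hi).2.1
  · rintro (⟨⟨hu, hl, hr⟩, hd⟩ | ⟨⟨hu, hl, hr⟩, hd⟩)
    · refine ⟨hu, Or.inl hl, ?_⟩
      rintro (h1 | h1)
      · exact hr h1
      · exact hd (adj h hu hl h1)
    · refine ⟨hu, Or.inr hl, ?_⟩
      rintro (h1 | h1)
      · exact hd (adj h (isU_symm hu) h1 hl)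
      · exact hr h1

end Attach

open RingBd Attach in
/-- **D2.** -/
theorem pathOf_attach {prev : List (Bx × ℕ)} {l : List (ℕ × ℕ)} (hl : PathOf (boxCells prev) l)
    {Rs : Bx × ℕ} (h : OkAtt prev Rs) : PathOf (boxCells (prev ++ [Rs])) (attach l Rs) := by
  obtain ⟨R, s⟩ := Rs
  have hR : NonE R := h.1
  set n := len R s with hn
  have hn1 : 1 ≤ n := len_pos R hR s
  -- the door is a chain of the old boundary
  set f : ℕ → ℕ × ℕ := fun i => pt R s (n - i) with hf
  have hfinj : ∀ i ≤ n, ∀ j ≤ n, f i = f j → i = j := by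
    intro i hi j hj hij
    have := pt_inj R hR s (n - i) (by omega) (n - j) (by omega) hij
    omega
  have hchain : ∀ i < n, (f i, f (i + 1)) ∈ cyc l := by
    intro i hi
    rw [hl.bd, isBd_iff]
    have hd := door h (i := n - (i + 1)) (by omega)
    have e : n - (i + 1) + 1 = n - i := by omega
    rw [e] at hd
    exact ⟨hd.1, hd.2.1, fun h1 => disj h h1 hd.2.2⟩
  obtain ⟨E, hE⟩ := rotate_to_chain hl.nodup f n hn1 hfinj hchain
  -- work with the rotated list
  suffices hmain : PathOf (boxCells (prev ++ [(R, s)]))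
      (attach ((List.range n).map f ++ f n :: E) (R, s)) by
    exact pathOf_rotate (flatMap_rotate _ hE).symm hmain
  have hl' := pathOf_rotate hE hl
  clear hchain hE hl
  set D : List (ℕ × ℕ) := (List.range n).map f with hD
  have hf0 : f 0 = cor R (s + 1) := by
    rw [hf]
    simp only [Nat.sub_zero]
    exact pt_len R hR s
  have hfn : f n = cor R s := by
    rw [hf]
    simp only [Nat.sub_self]
    exact pt_zero R s
  obtain ⟨D', hD'⟩ : ∃ D', D = cor R (s + 1) :: D' := by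
    obtain ⟨m, hm⟩ : ∃ m, n = m + 1 := ⟨n - 1, by omega⟩
    rw [hD, hm, List.range_succ_eq_map, List.map_cons, hf0]
    exact ⟨_, rfl⟩
  have hnd := hl'.nodup
  rw [List.nodup_append] at hnd
  obtain ⟨hDn, hEn, hDE⟩ := hnd
  have hmemD : ∀ p, p ∈ D ↔ ∃ j, 1 ≤ j ∧ j ≤ n ∧ pt R s j = p := by
    intro p
    rw [hD, List.mem_map]
    constructor
    · rintro ⟨i, hi, rfl⟩
      have := List.mem_range.1 hi
      exact ⟨n - i, by omega, by omega, rfl⟩
    · rintro ⟨j, h1, h2, rfl⟩
      refine ⟨n - j, List.mem_range.2 (by omega), ?_⟩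
      rw [hf]
      simp only
      congr 1
      omega
  have htail : ∀ p, p ∈ (side R s).tail ↔ ∃ j, 1 ≤ j ∧ j < n ∧ pt R s j = p := by
    intro p
    rw [side_eq]
    exact mem_tail_range_map (pt R s) n p
  -- the new list
  have hatt : attach (D ++ f n :: E) (R, s) = det R s ++ cor R s :: E := by
    unfold attach
    rw [List.flatMap_append]
    congr 1
    · rw [hD', List.flatMap_cons]
      dsimp only
      rw [if_pos rfl]
      have h0 : D'.flatMap (fun p => if p = cor R (s + 1) then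
          side R (s + 1) ++ side R (s + 2) ++ side R (s + 3)
          else if p ∈ (side R s).tail then [] else [p]) = [] := by
        rw [List.flatMap_eq_nil_iff]
        intro p hp
        have hpne : p ≠ cor R (s + 1) := by
          rintro rfl
          rw [hD', List.nodup_cons] at hDn
          exact hDn.1 hp
        rw [if_neg hpne, if_pos]
        have hpD : p ∈ D := by rw [hD']; exact List.mem_cons_of_mem _ hp
        obtain ⟨j, h1, h2, h3⟩ := (hmemD p).1 hpD
        refine (htail p).2 ⟨j, h1, ?_, h3⟩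
        rcases Nat.lt_or_ge j n with h4 | h4
        · exact h4
        · exfalso
          apply hpne
          have : j = n := by omega
          rw [← h3, this]
          exact pt_len R hR s
      rw [h0, List.append_nil]
      rfl
    · rw [← hfn]
      have h0 : ∀ p ∈ (f n :: E), (if p = cor R (s + 1) then
          side R (s + 1) ++ side R (s + 2) ++ side R (s + 3)
          else if p ∈ (side R s).tail then [] else [p]) = [p] := by
        intro p hp
        have hpD : p ∉ D := fun hpD => hDE p hpD p hp rfl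
        rw [if_neg, if_neg]
        · intro h1
          obtain ⟨j, h2, h3, h4⟩ := (htail p).1 h1
          exact hpD ((hmemD p).2 ⟨j, h2, h3.le, h4⟩)
        · rintro rfl
          exact hpD (by rw [hD']; exact List.mem_cons_self)
      have h1 : (f n :: E).flatMap (fun p => if p = cor R (s + 1) then
          side R (s + 1) ++ side R (s + 2) ++ side R (s + 3)
          else if p ∈ (side R s).tail then [] else [p]) = (f n :: E).flatMap (fun p => [p]) :=
        List.flatMap_congr h0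
      dsimp only
      rw [h1]
      simp
  rw [hatt]
  -- the ring of the new box
  have hring := ring_from R hR s
  have hring' : side R s ++ (side R (s + 1) ++ side R (s + 2) ++ side R (s + 3)) =
      side R s ++ det R s := rfl
  rw [hring'] at hring
  obtain ⟨T, hT⟩ := det_cons R hR s
  have hrn := hring.nodup
  rw [List.nodup_append] at hrn
  obtain ⟨hsn, hdn, hsd⟩ := hrn
  rw [hfn] at hEn hDE hl'
  -- cyclic pairs
  have hpD : pairsTo D (cor R s) = (List.range n).map fun i => (f i, f (i + 1)) := by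
    rw [← hfn, hD, pairsTo_range]
  have hmemDoor : ∀ p q, (p, q) ∈ pairsTo D (cor R s) ↔
      ∃ i < len R s, p = pt R s (i + 1) ∧ q = pt R s i := by
    intro p q
    rw [hpD, List.mem_map]
    constructor
    · rintro ⟨i, hi, he⟩
      have h1 := List.mem_range.1 hi
      have he1 : f i = p := congrArg Prod.fst he
      have he2 : f (i + 1) = q := congrArg Prod.snd he
      refine ⟨n - (i + 1), by omega, ?_, ?_⟩
      · rw [← he1]
        simp only [hf]
        congr 1
        omega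
      · rw [← he2]
    · rintro ⟨i, hi, rfl, rfl⟩
      refine ⟨n - (i + 1), List.mem_range.2 (by omega), ?_⟩
      simp only [hf, Prod.mk.injEq]
      constructor
      · congr 1
        omega
      · congr 1
        omega
  have hmemSide : ∀ p q, (p, q) ∈ pairsTo (side R s) (cor R (s + 1)) ↔
      ∃ i < len R s, q = pt R s (i + 1) ∧ p = pt R s i := by
    intro p q
    rw [pairsTo_side R hR s, List.mem_map]
    constructor
    · rintro ⟨i, hi, he⟩
      exact ⟨i, List.mem_range.1 hi, (congrArg Prod.snd he).symm, (congrArg Prod.fst he).symm⟩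
    · rintro ⟨i, hi, rfl, rfl⟩
      exact ⟨i, List.mem_range.2 hi, rfl⟩
  have hc1 : ∀ p q, (p, q) ∈ cyc (D ++ cor R s :: E) ↔
      (p, q) ∈ pairsTo D (cor R s) ∨ (p, q) ∈ pairsTo (cor R s :: E) (cor R (s + 1)) := by
    intro p q
    have : cyc (D ++ cor R s :: E) = pairsTo (D ++ cor R s :: E) (cor R (s + 1)) := by
      rw [hD', List.cons_append, cyc_cons]
    rw [this, pairsTo_append, List.mem_append]
  have hc2 : ∀ p q, (p, q) ∈ cyc (det R s ++ cor R s :: E) ↔
      (p, q) ∈ pairsTo (det R s) (cor R s) ∨ (p, q) ∈ pairsTo (cor R s :: E) (cor R (s + 1)) := by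
    intro p q
    have : cyc (det R s ++ cor R s :: E) = pairsTo (det R s ++ cor R s :: E) (cor R (s + 1)) := by
      rw [hT, List.cons_append, cyc_cons]
    rw [this, pairsTo_append, List.mem_append]
  have hc3 : ∀ p q, (p, q) ∈ cyc (side R s ++ det R s) ↔
      (p, q) ∈ pairsTo (side R s) (cor R (s + 1)) ∨ (p, q) ∈ pairsTo (det R s) (cor R s) := by
    intro p q
    have h1 : cyc (side R s ++ det R s) = pairsTo (side R s ++ det R s) (cor R s) := by
      rw [side_cons R hR s, List.cons_append, cyc_cons]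
    rw [h1, hT, pairsTo_append, List.mem_append]
  refine ⟨?_, ?_, ?_⟩
  · -- nodup
    rw [List.nodup_append]
    refine ⟨hdn, hEn, ?_⟩
    intro p hp q hq hpq
    subst hpq
    -- `p` is on the old boundary
    have hpl : p ∈ D ++ cor R s :: E := List.mem_append.2 (Or.inr hq)
    obtain ⟨q', hq'⟩ := exists_mem_cyc hpl
    rw [hl'.bd, isBd_iff] at hq'
    obtain ⟨hu, hlc, -⟩ := hq'
    obtain ⟨i, hi, hpi⟩ := corner h hu hlc (det_closed R hR s hp)
    rcases Nat.lt_or_ge i n with h1 | h1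
    · have : p ∈ side R s := (mem_side R s p).2 ⟨i, h1, hpi.symm⟩
      exact hsd p this p hp rfl
    · have h2 : i = n := by omega
      have : p ∈ D := (hmemD p).2 ⟨n, hn1, le_refl _, by rw [hpi, h2]⟩
      exact hDE p this p hq rfl
  · intro h0
    rw [hT] at h0
    simp at h0
  · intro p q
    rw [isBd_union h, ← hl'.bd, ← hring.bd, hc1, hc2, hc3, ← hmemDoor, ← hmemSide]
    constructor
    · rintro (h1 | h1)
      · right
        refine ⟨Or.inr h1, fun h2 => ?_⟩
        exact hsd p (mem_pairsTo_left h2) p (mem_pairsTo_left h1) rfl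
      · left
        refine ⟨Or.inr h1, fun h2 => ?_⟩
        exact hDE p (mem_pairsTo_left h2) p (mem_pairsTo_left h1) rfl
    · rintro (⟨h1 | h1, h2⟩ | ⟨h1 | h1, h2⟩)
      · exact absurd h1 h2
      · exact Or.inr h1
      · exact absurd h1 h2
      · exact Or.inl h1

theorem pathOf_bdry {rs : List (Bx × ℕ)} (h : Good rs) : PathOf (boxCells rs) (bdry rs) := by
  have key : ∀ (rs prev : List (Bx × ℕ)) (l : List (ℕ × ℕ)), GoodFrom prev rs →
      PathOf (boxCells prev) l → PathOf (boxCells (prev ++ rs)) (rs.foldl attach l) := by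
    intro rs
    induction rs with
    | nil =>
      intro prev l _ hl
      simpa using hl
    | cons Rs rs ih =>
      intro prev l hg hl
      obtain ⟨h1, h2⟩ := hg
      have := ih (prev ++ [Rs]) (attach l Rs) h2 (pathOf_attach hl h1)
      simpa using this
  cases rs with
  | nil => exact absurd h (by simp [Good])
  | cons Rs rs =>
    obtain ⟨h1, h2⟩ := h
    have h0 := pathOf_ring h1
    have e : boxCells [(Rs.1, 0)] = boxCells [Rs] := by
      funext a b
      simp [boxCells]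
    rw [e] at h0
    exact key rs [Rs] _ h2 h0

end Pool.Agent.Lib.MP_7d5495_lc
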