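import Pool.Agent.Lib.MP_7d5495_lc.Fam

/-!
# The tiles of the partition built from a solution of the chain problem
-/

namespace Pool.Agent.Lib.MP_7d5495_lc

/-- a rectangle with integer coordinates -/
structure ZR where
  /-- left side -/
  x₁ : ℤ
  /-- right side -/
  x₂ : ℤ
  /-- lower side -/
  y₁ : ℤ
  /-- upper side -/
  y₂ : ℤ
  deriving DecidableEq

namespace ZR

/-- `R` contains the cell `(a, b)` -/
def Has (R : ZR) (a b : ℤ) : Prop := R.x₁ ≤ a ∧ a < R.x₂ ∧ R.y₁ ≤ b ∧ b < R.y₂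

/-- from the coordinates of the frame `t + 1` to the coordinates of the frame `t`, where
`l = lam (t + 1)` -/
def unrot (l : ℤ) (R : ZR) : ZR := ⟨R.y₁, R.y₂, -l - R.x₂, -l - R.x₁⟩

/-- from the coordinates of the frame `t` to the coordinates of the frame `t + 1`, where
`l = lam (t + 1)` -/
def rot (l : ℤ) (R : ZR) : ZR := ⟨-l - R.y₂, -l - R.y₁, R.x₁, R.x₂⟩

theorem unrot_rot (l : ℤ) (R : ZR) : (R.rot l).unrot l = R := by
  cases R; simp [rot, unrot]

theorem rot_unrot (l : ℤ) (R : ZR) : (R.unrot l).rot l = R := by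
  cases R; simp [rot, unrot]

/-- the reflection `x ↦ c - x` -/
def flipX (c : ℤ) (R : ZR) : ZR := ⟨c - R.x₂, c - R.x₁, R.y₁, R.y₂⟩

/-- the reflection `y ↦ c - y` -/
def flipY (c : ℤ) (R : ZR) : ZR := ⟨R.x₁, R.x₂, c - R.y₂, c - R.y₁⟩

end ZR

namespace BT

/-- number of nodes on the rightmost path -/
def bot : BT → ℕ
  | nil => 0
  | node _ r => bot r + 1

/-- number of nodes on the leftmost path -/
def lft : BT → ℕ
  | nil => 0
  | node l _ => lft l + 1

/-- maximal number of tiles of the staircase of the tree that a closed horizontal line meets -/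
def RH : BT → ℕ
  | nil => 0
  | node l r => max (RH l) (max (RH r + 1) (bot l + 1))

/-- maximal number of tiles of the staircase of the tree that a closed vertical line meets -/
def RV : BT → ℕ
  | nil => 0
  | node l r => max (RV r) (max (RV l + 1) (lft r + 1))

end BT

/-- The tiles of the staircase of the tree `T`: lower left corner `(x, y)`, steps of size `g`, the
column `i` is `x + i * g ≤ p ≤ x + (i + 1) * g`, `y ≤ q ≤ y + (T.size - i) * g`. -/
def stair : BT → ℤ → ℤ → ℤ → List ZR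
  | .nil, _, _, _ => []
  | .node l r, x, y, g => ⟨x, x + (l.size + 1) * g, y, y + (r.size + 1) * g⟩ ::
      (stair l x (y + (r.size + 1) * g) g ++ stair r (x + (l.size + 1) * g) y g)

/-- The trees that describe the partition: `S t` for the corner of the bend `t`, `W` for the wall
pockets, `E t i` for the end pockets. -/
structure Fill where
  /-- trees of the corners -/
  S : ℕ → BT
  /-- tree of the wall pockets -/
  W : BT
  /-- trees of the end pockets -/
  E : ℕ → ℕ → BT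

/-- Conditions for the trees. -/
structure FillOk (P : Par) (κ : ℕ) (Q : Fill) : Prop where
  sol : P.GeoSol κ Q.S
  W_size : Q.W.size + 1 = P.w
  W_RH : Q.W.RH ≤ P.k
  W_RV : Q.W.RV + 1 ≤ P.k
  W_bot : Q.W.bot + 1 ≤ P.k
  E_size : ∀ t i, (Q.E t i).size = P.h t i
  E_RH : ∀ t i, (Q.E t i).RH ≤ P.e t i
  E_RV : ∀ t i, (Q.E t i).RV ≤ P.k
  E_lft : ∀ t i, (Q.E t i).lft + 1 ≤ P.k

namespace Par

variable (P : Par)

/-- the tile between the outgoing wall of the bend `t - 1` and the incoming wall of the bend `t` -/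
def tM (t : ℕ) : ZR := ⟨if t = 0 then 0 else -(P.lam t : ℤ) - (P.D - P.w), P.D - P.w, P.D,
  P.D + P.B⟩

/-- the incoming wall -/
def tIW : ZR := ⟨P.D - P.w, P.D, P.D, P.D + P.B + 1⟩

/-- the outgoing wall -/
def tOW : ZR := ⟨P.D, P.D + P.B + 1, P.D - P.w, P.D⟩

/-- the tile at the end of the corridor (in the last frame) -/
def tEnd : ZR := ⟨P.D, P.D + P.B, 0, P.D - P.w⟩

/-- the wall of the finger `i` -/
def tFW (t i : ℕ) : ZR := ⟨P.X i, P.X i + P.w, P.Y i - P.h t i, P.Y i + 1⟩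

/-- the tiles of the incoming pocket -/
def sIT (W : BT) : List ZR := (stair W 0 (P.D + P.B + 1) 1).map (ZR.flipX P.D)

/-- the tiles of the outgoing pocket -/
def sOT (W : BT) : List ZR := (stair W.mirror (P.D + P.B + 1) 0 1).map (ZR.flipY P.D)

/-- the tiles of the corner -/
def sC (S : BT) : List ZR := stair S P.D P.D P.D

/-- the tiles of the pocket of the finger `i` -/
def sFT (W : BT) (i : ℕ) : List ZR := stair W (P.X i) (P.Y i + 1) 1

/-- the tiles of the end pocket of the finger `i` -/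
def sFE (E : BT) (t i : ℕ) : List ZR := stair E (P.X i + P.w) (P.Y i - P.h t i) 1

/-- the tiles of the finger `i` -/
def fingerTiles (Q : Fill) (t i : ℕ) : List ZR :=
  P.tFW t i :: (P.sFT Q.W i ++ P.sFE (Q.E t i) t i)

/-- the tiles of the bend `t` in the coordinates of the frame `t` -/
def frameTiles (Q : Fill) (t : ℕ) : List ZR :=
  [P.tM t, P.tIW, P.tOW] ++ P.sIT Q.W ++ P.sOT Q.W ++ P.sC (Q.S t) ++
    (List.range P.m).flatMap (fun i => P.fingerTiles Q t i) ++
    if t + 1 = P.N then [P.tEnd] else []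

/-- from the coordinates of the frame `t` to the coordinates of the frame `0` -/
def toZero : ℕ → ZR → ZR
  | 0, R => R
  | t + 1, R => toZero t (R.unrot (P.lam (t + 1)))

/-- from the cells of the frame `t` to the cells of the frame `0` -/
def conv : ℕ → ℤ × ℤ → ℤ × ℤ
  | 0, p => p
  | t + 1, p => conv t (p.2, -(P.lam (t + 1) : ℤ) - p.1 - 1)

/-- `R` is a tile in the coordinates of the frame `t` -/
def tile (Q : Fill) (t : ℕ) (R : ZR) : Prop :=
  ∃ s < P.N, ∃ R' ∈ P.frameTiles Q s, P.toZero s R' = P.toZero t R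

/-- the cell `(a, b)` belongs to the region of the frame `t` -/
def InE (t : ℕ) (a b : ℤ) : Prop := -(P.lam t : ℤ) ≤ a ∧ a < P.Δ ∧ 0 ≤ b ∧ b < P.Δ

end Par

section tiles

variable {P : Par} {Q : Fill} {t : ℕ} {R : ZR}

theorem tile_of_frame (ht : t < P.N) (h : R ∈ P.frameTiles Q t) : P.tile Q t R :=
  ⟨t, ht, R, h, rfl⟩

theorem tile_succ : P.tile Q (t + 1) R ↔ P.tile Q t (R.unrot (P.lam (t + 1))) := Iff.rfl

theorem tile_rot : P.tile Q (t + 1) (R.rot (P.lam (t + 1))) ↔ P.tile Q t R := by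
  rw [tile_succ, ZR.unrot_rot]

theorem tM_mem : P.tM t ∈ P.frameTiles Q t := by simp [Par.frameTiles]

theorem tIW_mem : P.tIW ∈ P.frameTiles Q t := by simp [Par.frameTiles]

theorem tOW_mem : P.tOW ∈ P.frameTiles Q t := by simp [Par.frameTiles]

theorem sIT_mem (h : R ∈ P.sIT Q.W) : R ∈ P.frameTiles Q t := by simp [Par.frameTiles, h]

theorem sOT_mem (h : R ∈ P.sOT Q.W) : R ∈ P.frameTiles Q t := by simp [Par.frameTiles, h]

theorem sC_mem (h : R ∈ P.sC (Q.S t)) : R ∈ P.frameTiles Q t := by simp [Par.frameTiles, h]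

theorem tFW_mem {i : ℕ} (hi : i < P.m) : P.tFW t i ∈ P.frameTiles Q t := by
  simp only [Par.frameTiles, List.mem_append, List.mem_flatMap]
  left; right
  exact ⟨i, List.mem_range.2 hi, by simp [Par.fingerTiles]⟩

theorem sFT_mem {i : ℕ} (hi : i < P.m) (h : R ∈ P.sFT Q.W i) : R ∈ P.frameTiles Q t := by
  simp only [Par.frameTiles, List.mem_append, List.mem_flatMap]
  left; right
  exact ⟨i, List.mem_range.2 hi, by simp [Par.fingerTiles, h]⟩

theorem sFE_mem {i : ℕ} (hi : i < P.m) (h : R ∈ P.sFE (Q.E t i) t i) :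
    R ∈ P.frameTiles Q t := by
  simp only [Par.frameTiles, List.mem_append, List.mem_flatMap]
  left; right
  exact ⟨i, List.mem_range.2 hi, by simp [Par.fingerTiles, h]⟩

theorem tEnd_mem (ht : t + 1 = P.N) : P.tEnd ∈ P.frameTiles Q t := by
  simp [Par.frameTiles, ht]

/-- the tiles of a frame, one after the other -/
theorem mem_frameTiles : R ∈ P.frameTiles Q t ↔ R = P.tM t ∨ R = P.tIW ∨ R = P.tOW ∨
    R ∈ P.sIT Q.W ∨ R ∈ P.sOT Q.W ∨ R ∈ P.sC (Q.S t) ∨
    (∃ i < P.m, R = P.tFW t i ∨ R ∈ P.sFT Q.W i ∨ R ∈ P.sFE (Q.E t i) t i) ∨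
    (t + 1 = P.N ∧ R = P.tEnd) := by
  simp only [Par.frameTiles, List.mem_append, List.mem_flatMap, List.mem_cons, List.not_mem_nil,
    or_false, List.mem_range, Par.fingerTiles]
  have h : R ∈ (if t + 1 = P.N then [P.tEnd] else []) ↔ (t + 1 = P.N ∧ R = P.tEnd) := by
    split_ifs with h <;> simp [h]
  rw [h]
  simp only [or_assoc]

end tiles

/-- The tiles form a partition of the polygon. -/
structure Tiling (P : Par) (Q : Fill) (cell : ℕ → ℤ → ℤ → Prop) : Prop where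
  sub : ∀ t R, P.tile Q t R → ∀ a b, R.Has a b → cell t a b
  pos : ∀ t R, P.tile Q t R → R.x₁ < R.x₂ ∧ R.y₁ < R.y₂
  uniq : ∀ t R R', P.tile Q t R → P.tile Q t R' → ∀ a b, R.Has a b → R'.Has a b → R = R'
  own : ∀ t a b, cell t a b → ∃ R, P.tile Q t R ∧ R.Has a b

/-- Certificate for a horizontal line of the frame `t`: `y` is twice the level of the line (`y` is
even for a line through lattice points, odd for a line through the interiors of cells; the cells
`(a, b)` with `2 * b ≤ y ≤ 2 * b + 2` are incident with the line).  The columns `A₁ - 1` and `A₂`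
contain a cell incident with the line that is not in the polygon, and at most `k` tiles own all
cells of the polygon incident with the line in the columns `A₁ ≤ a < A₂`. -/
def RowCert (P : Par) (Q : Fill) (cell : ℕ → ℤ → ℤ → Prop) (t : ℕ) (y A₁ A₂ : ℤ) : Prop :=
  ∃ L : List ZR, L.length ≤ P.k ∧ (∀ R ∈ L, P.tile Q t R) ∧
    (∀ a b : ℤ, A₁ ≤ a → a < A₂ → 2 * b ≤ y → y ≤ 2 * b + 2 → cell t a b →
      ∃ R ∈ L, R.Has a b) ∧
    (∃ b : ℤ, 2 * b ≤ y ∧ y ≤ 2 * b + 2 ∧ ¬ cell t (A₁ - 1) b) ∧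
    (∃ b : ℤ, 2 * b ≤ y ∧ y ≤ 2 * b + 2 ∧ ¬ cell t A₂ b)

/-- Certificate for a vertical line of the frame `t`. -/
def ColCert (P : Par) (Q : Fill) (cell : ℕ → ℤ → ℤ → Prop) (t : ℕ) (x B₁ B₂ : ℤ) : Prop :=
  ∃ L : List ZR, L.length ≤ P.k ∧ (∀ R ∈ L, P.tile Q t R) ∧
    (∀ a b : ℤ, B₁ ≤ b → b < B₂ → 2 * a ≤ x → x ≤ 2 * a + 2 → cell t a b →
      ∃ R ∈ L, R.Has a b) ∧
    (∃ a : ℤ, 2 * a ≤ x ∧ x ≤ 2 * a + 2 ∧ ¬ cell t a (B₁ - 1)) ∧
    (∃ a : ℤ, 2 * a ≤ x ∧ x ≤ 2 * a + 2 ∧ ¬ cell t a B₂)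

/-- Every horizontal line through the cell `(a, b)` of the frame `t` has a certificate. -/
def Rows (P : Par) (Q : Fill) (cell : ℕ → ℤ → ℤ → Prop) (t : ℕ) (a b : ℤ) : Prop :=
  ∀ y : ℤ, 2 * b ≤ y → y ≤ 2 * b + 2 → (∀ b' : ℤ, 2 * b' ≤ y → y ≤ 2 * b' + 2 → cell t a b') →
    ∃ A₁ A₂ : ℤ, A₁ ≤ a ∧ a < A₂ ∧ RowCert P Q cell t y A₁ A₂

/-- Every vertical line through the cell `(a, b)` of the frame `t` has a certificate. -/
def Cols (P : Par) (Q : Fill) (cell : ℕ → ℤ → ℤ → Prop) (t : ℕ) (a b : ℤ) : Prop :=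
  ∀ x : ℤ, 2 * a ≤ x → x ≤ 2 * a + 2 → (∀ a' : ℤ, 2 * a' ≤ x → x ≤ 2 * a' + 2 → cell t a' b) →
    ∃ B₁ B₂ : ℤ, B₁ ≤ b ∧ b < B₂ ∧ ColCert P Q cell t x B₁ B₂

/-- the tiles of a list met by the horizontal line with twice the level `y` -/
def onRow (l : List ZR) (y : ℤ) : List ZR := l.filter fun R => 2 * R.y₁ ≤ y ∧ y ≤ 2 * R.y₂

/-- the tiles of a list met by the vertical line with twice the coordinate `x` -/
def onCol (l : List ZR) (x : ℤ) : List ZR := l.filter fun R => 2 * R.x₁ ≤ x ∧ x ≤ 2 * R.x₂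

end Pool.Agent.Lib.MP_7d5495_lc
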