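import Pool.Agent.Lib.MP_7d5495_lc.PathDefs
import Pool.Agent.Lib.MP_7d5495_lc.Tiles

/-!
# The boxes of the frames: definitions (verbatim from the stubs file)
-/

namespace Pool.Agent.Lib.MP_7d5495_lc

/-- the boxes of the bend `t` in the coordinates `(p + lam t, q)` -/
def Par.bendAt (P : Par) (t : ℕ) : List (Bx × ℕ) := bend (P.lam t) P.D P.m P.w (P.h t)

/-- a box of the bend `t` in the coordinates of the frame `t` -/
def Par.zbox (P : Par) (t : ℕ) (R : Bx) : ZR :=
  ⟨(R.1.1 : ℤ) - P.lam t, (R.1.2 : ℤ) - P.lam t, R.2.1, R.2.2⟩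

/-- placing a box of the bend `t` into the plane -/
def Par.pl (P : Par) (t : ℕ) : Bx × ℕ → Bx × ℕ := place ((P.N + 4) * P.Δ) P.Δ t

theorem rects_eq (P : Par) :
    P.rects = (List.range P.N).flatMap fun t => (P.bendAt t).map (P.pl t) := rfl

end Pool.Agent.Lib.MP_7d5495_lc
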