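import Pool.Agent.Lib.MP_7d5495_lc.Fam

/-!
# A staircase corner is a binary search tree
-/

set_option autoImplicit false

namespace Pool.Agent.Lib.MP_7d5495_lc

open Filter Topology in
/-- the tile which contains points immediately to the right of `x₀` -/
theorem bst_germ {ι : Type} [Finite ι] (u v : ι → ℝ) (x₀ x' : ℝ) (h : x₀ < x') (P : ι → Prop)
    (hc : ∀ x, x₀ < x → x < x' → ∃ i, u i ≤ x ∧ x ≤ v i ∧ P i) :
    ∃ i, u i ≤ x₀ ∧ x₀ < v i ∧ P i := by
  have h1 : ∀ᶠ x in 𝓝[>] x₀, ∀ i, x₀ < u i → x < u i := by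
    rw [eventually_all]
    intro i
    by_cases hi : x₀ < u i
    · filter_upwards [Ioo_mem_nhdsGT hi] with x hx _
      exact hx.2
    · exact Eventually.of_forall fun x hx => absurd hx hi
  obtain ⟨x, hx1, hx2⟩ := (h1.and (Ioo_mem_nhdsGT h)).exists
  obtain ⟨i, hi1, hi2, hi3⟩ := hc x hx2.1 hx2.2
  refine ⟨i, ?_, hx2.1.trans_le hi2, hi3⟩
  by_contra hcon
  have := hx1 i (not_le.mp hcon)
  linarith

theorem bst_mono (n : ℕ) (ξ ox : ℕ → ℝ) (h1 : ∀ j, j + 1 < n → ξ j < ox j ∧ ox j < ξ (j + 1)) :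
    ∀ a b, a ≤ b → b < n → ξ a ≤ ξ b := by
  intro a b hab
  induction b, hab using Nat.le_induction with
  | base => intro _; exact le_rfl
  | succ b hab ih =>
    intro hb
    have := h1 b hb
    have := ih (by omega)
    linarith

/-- **L3. BST lemma.** -/
theorem Fam.bst {ι : Type} [Finite ι] (F : Fam ι) (n : ℕ) (ξ η ox oy : ℕ → ℝ) (x₀ y₀ X Y : ℝ)
    (h1 : ∀ j, j + 1 < n → ξ j < ox j ∧ ox j < ξ (j + 1))
    (h2 : ∀ j, j + 1 < n → η (j + 1) < oy j ∧ oy j < η j)
    (h3 : ∀ j < n, x₀ < ξ j ∧ ξ j < X ∧ y₀ < η j ∧ η j < Y)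
    (obst : ∀ i, ∀ j, j + 1 < n →
      ¬ (F.x₁ i ≤ ox j ∧ ox j < F.x₂ i ∧ F.y₁ i ≤ oy j ∧ oy j < F.y₂ i))
    (cover : ∀ x y, x₀ < x → x < X → y₀ < y → y < Y → (∀ j, j + 1 < n → x < ox j ∨ y < oy j) →
      ∃ i, F.x₁ i ≤ x ∧ x ≤ F.x₂ i ∧ F.y₁ i ≤ y ∧ y ≤ F.y₂ i) :
    ∃ T : BT, T.size = n ∧ ∀ j < n,
      T.U j + 1 ≤ (F.H x₀ (if j + 1 < n then ox j else X) (η j)).ncard ∧
      T.L j + 1 ≤ (F.V y₀ (if j = 0 then Y else oy (j - 1)) (ξ j)).ncard := by
  induction n using Nat.strong_induction_on generalizing ξ η ox oy x₀ y₀ X Y with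
  | _ n ih =>
  rcases Nat.eq_zero_or_pos n with rfl | hn
  · exact ⟨.nil, rfl, fun j hj => absurd hj (Nat.not_lt_zero j)⟩
  have mξ := bst_mono n ξ ox h1
  have mη : ∀ a b, a ≤ b → b < n → η b ≤ η a := by
    intro a b hab hb
    have := bst_mono n (fun j => -η j) (fun j => -oy j)
      (fun j hj => ⟨neg_lt_neg (h2 j hj).2, neg_lt_neg (h2 j hj).1⟩) a b hab hb
    linarith
  have mox : ∀ a b, a ≤ b → b + 1 < n → ox a ≤ ox b := by
    intro a b hab hb
    rcases Nat.eq_or_lt_of_le hab with rfl | hlt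
    · exact le_rfl
    · have e1 := (h1 a (by omega)).2
      have e2 := mξ (a + 1) b hlt (by omega)
      have e3 := (h1 b hb).1
      linarith
  have moy : ∀ a b, a < b → b + 1 < n → oy b < oy a := by
    intro a b hlt hb
    have e1 := (h2 a (by omega)).1
    have e2 := mη (a + 1) b hlt (by omega)
    have e3 := (h2 b hb).2
    linarith
  -- the claim
  have AB : ∀ j, j + 1 < n →
      (¬ ∀ y, y₀ < y → y < oy j → ∃ i, F.y₁ i ≤ y ∧ y ≤ F.y₂ i ∧ x₀ < F.x₂ i ∧ F.x₂ i ≤ ox j) →
      ∀ x, x₀ < x → x < ox j → ∃ i, F.x₁ i ≤ x ∧ x ≤ F.x₂ i ∧ y₀ < F.y₂ i ∧ F.y₂ i ≤ oy j := by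
    intro j hj hA x hx1 hx2
    push Not at hA
    obtain ⟨y, hy1, hy2, hy3⟩ := hA
    obtain ⟨i, hi1, hi2, hi3, hi4⟩ := bst_germ F.x₁ F.x₂ x₀ (ξ 0) (h3 0 hn).1
      (fun i => F.y₁ i ≤ y ∧ y ≤ F.y₂ i) (fun x hx hx' => by
        refine cover x y hx (hx'.trans (h3 0 hn).2.1) hy1 ?_ fun k hk => Or.inl ?_
        · have := (h2 j hj).2
          have := (h3 j (by omega)).2.2.2
          linarith
        · have := mξ 0 k (Nat.zero_le _) (by omega)
          have := (h1 k hk).1
          linarith)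
    have hi5 := hy3 i hi3 hi4 hi2
    have hi6 : F.y₂ i ≤ oy j := by
      by_contra hcon
      exact obst i j hj ⟨by linarith, hi5, by linarith, not_le.mp hcon⟩
    exact ⟨i, by linarith, by linarith, by linarith, hi6⟩
  obtain ⟨r, hr, hrB, hrA⟩ : ∃ r, r + 1 ≤ n ∧
      (∀ j < r, ∀ x, x₀ < x → x < ox j →
        ∃ i, F.x₁ i ≤ x ∧ x ≤ F.x₂ i ∧ y₀ < F.y₂ i ∧ F.y₂ i ≤ oy j) ∧
      (r + 1 < n → ∀ y, y₀ < y → y < oy r →
        ∃ i, F.y₁ i ≤ y ∧ y ≤ F.y₂ i ∧ x₀ < F.x₂ i ∧ F.x₂ i ≤ ox r) := by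
    classical
    by_cases h : ∃ j, j + 1 < n ∧ ¬ ∀ x, x₀ < x → x < ox j →
        ∃ i, F.x₁ i ≤ x ∧ x ≤ F.x₂ i ∧ y₀ < F.y₂ i ∧ F.y₂ i ≤ oy j
    · refine ⟨Nat.find h, le_of_lt (Nat.find_spec h).1, fun j hj => ?_, fun _ => ?_⟩
      · have h4 := Nat.find_min h hj
        by_contra hB
        exact h4 ⟨by have := (Nat.find_spec h).1; omega, hB⟩
      · by_contra hA
        exact (Nat.find_spec h).2 (AB _ (Nat.find_spec h).1 hA)
    · refine ⟨n - 1, by omega, fun j hj => ?_, fun h' => by omega⟩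
      by_contra hB
      exact h ⟨j, by omega, hB⟩
  -- the left subtree
  obtain ⟨Tl, hTl, hl⟩ : ∃ T : BT, T.size = r ∧ ∀ j < r,
      T.U j + 1 ≤ (F.H x₀ (ox j) (η j)).ncard ∧
      T.L j + 2 ≤ (F.V y₀ (if j = 0 then Y else oy (j - 1)) (ξ j)).ncard := by
    rcases Nat.eq_zero_or_pos r with rfl | hr0
    · exact ⟨.nil, rfl, fun j hj => absurd hj (Nat.not_lt_zero j)⟩
    have hr1 : r - 1 + 1 < n := by omega
    obtain ⟨T, hT, h⟩ := ih r (by omega) ξ η ox oy x₀ (oy (r - 1)) (ox (r - 1)) Y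
      (fun j hj => h1 j (by omega)) (fun j hj => h2 j (by omega))
      (fun j hj => by
        have e1 := h3 j (by omega)
        have e2 := mξ j (r - 1) (by omega) (by omega)
        have e3 := (h1 (r - 1) hr1).1
        have e4 := mη j (r - 1) (by omega) (by omega)
        have e5 := (h2 (r - 1) hr1).2
        exact ⟨e1.1, by linarith, by linarith, e1.2.2.2⟩)
      (fun i j hj => obst i j (by omega))
      (fun x y hx1 hx2 hy1 hy2 hxy => by
        have e1 := (h1 (r - 1) hr1).2
        have e2 := h3 (r - 1 + 1) hr1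
        have e3 := (h2 (r - 1) hr1).1
        refine cover x y hx1 (by linarith) (by linarith) hy2 fun j hj => ?_
        by_cases hjr : j + 1 < r
        · exact hxy j hjr
        · have := mox (r - 1) j (by omega) hj
          exact Or.inl (by linarith))
    refine ⟨T, hT, fun j hj => ⟨?_, ?_⟩⟩
    · have h4 := (h j hj).1
      by_cases hjr : j + 1 < r
      · rwa [if_pos hjr] at h4
      · have : j = r - 1 := by omega
        rw [if_neg hjr] at h4
        rw [this] at h4 ⊢
        exact h4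
    · have h4 := (h j hj).2
      have hτ : oy (r - 1) < (if j = 0 then Y else oy (j - 1)) := by
        split_ifs with hj0
        · have e1 := (h2 (r - 1) hr1).2
          have e2 := (h3 (r - 1) (by omega)).2.2.2
          linarith
        · exact moy (j - 1) (r - 1) (by omega) hr1
      have hξ : ξ j < ox (r - 1) := by
        have e2 := mξ j (r - 1) (by omega) (by omega)
        have e3 := (h1 (r - 1) hr1).1
        linarith
      obtain ⟨i, hi1, hi2, hi3, hi4⟩ := hrB (r - 1) (by omega) (ξ j) (h3 j (by omega)).1 hξ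
      have hy := F.hy i
      have hlt : (F.V (oy (r - 1)) (if j = 0 then Y else oy (j - 1)) (ξ j)).ncard <
          (F.V y₀ (if j = 0 then Y else oy (j - 1)) (ξ j)).ncard := by
        refine Set.ncard_lt_ncard ?_ (Set.toFinite _)
        refine (Set.ssubset_iff_of_subset ?_).2 ⟨i, ⟨hi1, hi2, by linarith, hi3⟩, fun hc => ?_⟩
        · rintro k ⟨hk1, hk2, hk3, hk4⟩
          have e3 := (h2 (r - 1) hr1).1
          have e2 := h3 (r - 1 + 1) hr1
          exact ⟨hk1, hk2, hk3, by linarith⟩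
        · have := hc.2.2.2
          linarith
      omega
  -- the right subtree
  obtain ⟨Tr, hTr, hrr⟩ : ∃ T : BT, T.size = n - 1 - r ∧ ∀ j, r + 1 + j < n →
      T.U j + 2 ≤ (F.H x₀ (if r + 1 + j + 1 < n then ox (r + 1 + j) else X)
        (η (r + 1 + j))).ncard ∧
      T.L j + 1 ≤ (F.V y₀ (oy (r + j)) (ξ (r + 1 + j))).ncard := by
    by_cases hr1 : r + 1 < n
    swap
    · exact ⟨.nil, by simp; omega, fun j hj => by omega⟩
    obtain ⟨T, hT, h⟩ := ih (n - 1 - r) (by omega) (fun j => ξ (r + 1 + j))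
      (fun j => η (r + 1 + j)) (fun j => ox (r + 1 + j)) (fun j => oy (r + 1 + j))
      (ox r) y₀ X (oy r)
      (fun j hj => h1 (r + 1 + j) (by omega)) (fun j hj => h2 (r + 1 + j) (by omega))
      (fun j hj => by
        have e1 := h3 (r + 1 + j) (by omega)
        have e2 := mξ (r + 1) (r + 1 + j) (by omega) (by omega)
        have e3 := (h1 r hr1).2
        have e4 := mη (r + 1) (r + 1 + j) (by omega) (by omega)
        have e5 := (h2 r hr1).1
        exact ⟨by linarith, e1.2.1, e1.2.2.1, by linarith⟩)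
      (fun i j hj => obst i (r + 1 + j) (by omega))
      (fun x y hx1 hx2 hy1 hy2 hxy => by
        have e1 := (h1 r hr1).1
        have e2 := h3 r (by omega)
        have e3 := (h2 r hr1).2
        refine cover x y (by linarith) hx2 hy1 (by linarith) fun j hj => ?_
        rcases Nat.lt_or_ge r j with hjr | hjr
        · obtain ⟨k, rfl⟩ : ∃ k, j = r + 1 + k := ⟨j - (r + 1), by omega⟩
          exact hxy k (by omega)
        · right
          rcases Nat.eq_or_lt_of_le hjr with rfl | hlt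
          · exact hy2
          · have := moy j r hlt hr1
            linarith)
    refine ⟨T, hT, fun j hj => ⟨?_, ?_⟩⟩
    · have h4 := (h j (by omega)).1
      have e0 : (j + 1 < n - 1 - r) ↔ (r + 1 + j + 1 < n) := by omega
      simp only [e0] at h4
      have hσ : ox r < (if r + 1 + j + 1 < n then ox (r + 1 + j) else X) := by
        split_ifs with hj0
        · have e1 := (h1 r hr1).2
          have e2 := mξ (r + 1) (r + 1 + j) (by omega) (by omega)
          have e3 := (h1 (r + 1 + j) hj0).1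
          linarith
        · have e1 := (h1 r hr1).2
          have e2 := (h3 (r + 1) hr1).2.1
          linarith
      have hη : η (r + 1 + j) < oy r := by
        have e4 := mη (r + 1) (r + 1 + j) (by omega) (by omega)
        have e5 := (h2 r hr1).1
        linarith
      obtain ⟨i, hi1, hi2, hi3, hi4⟩ := hrA hr1 (η (r + 1 + j)) (h3 (r + 1 + j) hj).2.2.1 hη
      have hx := F.hx i
      have hlt : (F.H (ox r) (if r + 1 + j + 1 < n then ox (r + 1 + j) else X)
          (η (r + 1 + j))).ncard <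
          (F.H x₀ (if r + 1 + j + 1 < n then ox (r + 1 + j) else X) (η (r + 1 + j))).ncard := by
        refine Set.ncard_lt_ncard ?_ (Set.toFinite _)
        refine (Set.ssubset_iff_of_subset ?_).2 ⟨i, ⟨hi1, hi2, by linarith, hi3⟩, fun hc => ?_⟩
        · rintro k ⟨hk1, hk2, hk3, hk4⟩
          have e1 := (h1 r hr1).1
          have e2 := h3 r (by omega)
          exact ⟨hk1, hk2, hk3, by linarith⟩
        · have := hc.2.2.2
          linarith
      omega
    · have h4 := (h j (by omega)).2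
      rcases Nat.eq_zero_or_pos j with rfl | hj0
      · simpa using h4
      · rw [if_neg (by omega)] at h4
        have e0 : r + 1 + (j - 1) = r + j := by omega
        rw [e0] at h4
        exact h4
  -- the root
  have hpt : ∃ i, F.x₁ i ≤ ξ r ∧ ξ r ≤ F.x₂ i ∧ F.y₁ i ≤ η r ∧ η r ≤ F.y₂ i := by
    have e1 := h3 r (by omega)
    refine cover (ξ r) (η r) e1.1 e1.2.1 e1.2.2.1 e1.2.2.2 fun j hj => ?_
    rcases Nat.lt_or_ge j r with hjr | hjr
    · right
      have e2 := mη (j + 1) r hjr (by omega)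
      have e3 := (h2 j hj).1
      linarith
    · left
      have e2 := mξ r j hjr (by omega)
      have e3 := (h1 j hj).1
      linarith
  obtain ⟨i, hi1, hi2, hi3, hi4⟩ := hpt
  refine ⟨.node Tl Tr, by simp only [BT.size_node, hTl, hTr]; omega, fun j hj => ?_⟩
  rcases lt_trichotomy j r with hjr | hjr | hjr
  · rw [BT.U_left (by omega), BT.L_left (by omega), if_pos (show j + 1 < n by omega)]
    have := hl j hjr
    exact ⟨this.1, by omega⟩
  · subst hjr
    have e1 := h3 j hj
    have eU : (BT.node Tl Tr).U j = 0 := by rw [← hTl]; exact BT.U_root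
    have eL : (BT.node Tl Tr).L j = 0 := by rw [← hTl]; exact BT.L_root
    rw [eU, eL]
    constructor
    · have : 0 < (F.H x₀ (if j + 1 < n then ox j else X) (η j)).ncard := by
        rw [Set.ncard_pos (Set.toFinite _)]
        refine ⟨i, hi3, hi4, ?_, by linarith⟩
        split_ifs with hj1
        · have := (h1 j hj1).1
          linarith
        · linarith
      omega
    · have : 0 < (F.V y₀ (if j = 0 then Y else oy (j - 1)) (ξ j)).ncard := by
        rw [Set.ncard_pos (Set.toFinite _)]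
        refine ⟨i, hi1, hi2, ?_, by linarith⟩
        split_ifs with hj1
        · linarith
        · have := (h2 (j - 1) (by omega)).1
          have e0 : j - 1 + 1 = j := by omega
          rw [e0] at this
          linarith
      omega
  · rw [BT.U_right (by omega), BT.L_right (by omega), hTl]
    obtain ⟨k, rfl⟩ : ∃ k, j = r + 1 + k := ⟨j - (r + 1), by omega⟩
    have e0 : r + 1 + k - r - 1 = k := by omega
    rw [e0, if_neg (show ¬ r + 1 + k = 0 by omega)]
    have e1 : r + 1 + k - 1 = r + k := by omega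
    rw [e1]
    have := hrr k hj
    exact ⟨by omega, this.2⟩

end Pool.Agent.Lib.MP_7d5495_lc
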