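import Pool.Agent.Lib.MP_7d5495_lc.Tree

/-!
# The tree of a tiling of a staircase

The cells of the staircase are the pairs `(a, b)` (column, row) with `a ≤ b`.  A tiling by
rectangles is given by a function `τ` on the cells whose fibres are products of intervals.  There
is a binary search tree whose loads are bounded by the numbers of tiles in the rows and columns.
-/

namespace Pool.Agent.Lib.MP_7d5495_lc

/-- the fibres of `τ` on the cells `(a, b)`, `lo ≤ a ≤ b < hi`, are rectangles -/
def RectTiling {ι : Type*} (lo hi : ℕ) (τ : ℕ → ℕ → ι) : Prop :=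
  ∀ a b a' b', lo ≤ a → a ≤ b → b < hi → lo ≤ a' → a' ≤ b' → b' < hi → τ a b = τ a' b' →
    a ≤ b' ∧ a' ≤ b ∧ ∀ x y, min a a' ≤ x → x ≤ max a a' → min b b' ≤ y → y ≤ max b b' →
      τ x y = τ a b

theorem RectTiling.mono {ι : Type*} {lo hi lo' hi' : ℕ} {τ : ℕ → ℕ → ι}
    (h : RectTiling lo hi τ) (h1 : lo ≤ lo') (h2 : hi' ≤ hi) : RectTiling lo' hi' τ := by
  intro a b a' b' h3 h4 h5 h6 h7 h8 h9
  exact h a b a' b' (by omega) h4 (by omega) (by omega) h7 (by omega) h9

theorem bst_aux {ι : Type*} [DecidableEq ι] (τ : ℕ → ℕ → ι) (n : ℕ) : ∀ lo hi, hi = lo + n →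
    RectTiling lo hi τ → ∃ T : BT, T.size = n ∧ ∀ j < n,
      T.U j + 1 ≤ ((Finset.Ico lo (lo + j + 1)).image (fun a => τ a (lo + j))).card ∧
      T.L j + 1 ≤ ((Finset.Ico (lo + j) hi).image (fun b => τ (lo + j) b)).card := by
  induction n using Nat.strong_induction_on with
  | _ n ih =>
    intro lo hi hhi hτ
    rcases Nat.eq_zero_or_pos n with h0 | h0
    · exact ⟨BT.nil, by simp [h0], fun j hj => by omega⟩
    -- the root
    let A : ℕ → Prop := fun c => ∀ a b, lo ≤ a → a ≤ b → b < c → τ a b ≠ τ a (hi-1)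
    have hA : ∃ r, lo ≤ r ∧ r < hi ∧ A r ∧ ∀ c, r < c → c < hi → ¬ A c := by
      classical
      have hne : ((Finset.Ico lo hi).filter A).Nonempty := by
        refine ⟨lo, ?_⟩
        rw [Finset.mem_filter, Finset.mem_Ico]
        refine ⟨by omega, ?_⟩
        intro a b h1 h2 h3
        omega
      have hm := Finset.max'_mem _ hne
      rw [Finset.mem_filter, Finset.mem_Ico] at hm
      refine ⟨_, hm.1.1, hm.1.2, hm.2, fun c h1 h2 h3 => ?_⟩
      have := Finset.le_max' ((Finset.Ico lo hi).filter A) c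
        (by rw [Finset.mem_filter, Finset.mem_Ico]; exact ⟨⟨by omega, h2⟩, h3⟩)
      omega
    obtain ⟨r, hr1, hr2, hr3, hr4⟩ := hA
    have hB : ∀ b, r < b → b < hi → ∀ a, r < a → a ≤ b → τ a b ≠ τ lo b := by
      intro b hb1 hb2 a ha1 ha2 heq
      refine hr4 a ha1 (by omega) ?_
      intro a' b' h1 h2 h3 h4
      -- the tile of (lo, b) and (a, b)
      have h5 := (hτ a b lo b (by omega) ha2 hb2 le_rfl (by omega) hb2 heq).2.2 a' b
        (by omega) (by omega) (by omega) (by omega)
      have h6 := (hτ a' b' a' (hi-1) h1 h2 (by omega) h1 (by omega) (by omega) h4).2.2 a' b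
        (by omega) (by omega) (by omega) (by omega)
      have h7 := (hτ a b a' b' (by omega) ha2 hb2 h1 h2 (by omega)
        (by rw [← h5, h6])).1
      omega
    obtain ⟨Tl, hl1, hl2⟩ := ih (r - lo) (by omega) lo r (by omega)
      (hτ.mono le_rfl (by omega))
    obtain ⟨Tr, hr5, hr6⟩ := ih (hi - r - 1) (by omega) (r+1) hi (by omega)
      (hτ.mono (by omega) le_rfl)
    refine ⟨BT.node Tl Tr, by rw [BT.size_node]; omega, fun j hj => ?_⟩
    rcases lt_trichotomy j Tl.size with h1 | h1 | h1
    · -- left subtree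
      obtain ⟨h2, h3⟩ := hl2 j (by omega)
      rw [BT.U_left h1, BT.L_left h1]
      refine ⟨h2, ?_⟩
      have h4 : insert (τ (lo+j) (hi-1)) ((Finset.Ico (lo + j) r).image (fun b => τ (lo + j) b)) ⊆
          (Finset.Ico (lo + j) hi).image (fun b => τ (lo + j) b) := by
        intro x hx
        rw [Finset.mem_insert, Finset.mem_image] at hx
        rw [Finset.mem_image]
        rcases hx with rfl | ⟨b, hb, rfl⟩
        · exact ⟨hi-1, by rw [Finset.mem_Ico]; omega, rfl⟩
        · rw [Finset.mem_Ico] at hb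
          exact ⟨b, by rw [Finset.mem_Ico]; omega, rfl⟩
      have h5 : τ (lo+j) (hi-1) ∉ (Finset.Ico (lo + j) r).image (fun b => τ (lo + j) b) := by
        rw [Finset.mem_image]
        rintro ⟨b, hb, hb'⟩
        rw [Finset.mem_Ico] at hb
        exact hr3 (lo+j) b (by omega) hb.1 hb.2 hb'
      have h6 := Finset.card_le_card h4
      rw [Finset.card_insert_of_notMem h5] at h6
      omega
    · -- the root
      subst h1
      rw [BT.U_root, BT.L_root]
      refine ⟨Finset.card_pos.2 ?_, Finset.card_pos.2 ?_⟩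
      · exact ⟨_, Finset.mem_image_of_mem _ (Finset.mem_Ico.2 ⟨le_rfl, by omega⟩)⟩
      · exact ⟨_, Finset.mem_image_of_mem _ (Finset.mem_Ico.2 ⟨le_rfl, by omega⟩)⟩
    · -- right subtree
      obtain ⟨h2, h3⟩ := hr6 (j - Tl.size - 1) (by omega)
      rw [BT.U_right h1, BT.L_right h1]
      have e : r + 1 + (j - Tl.size - 1) = lo + j := by omega
      rw [e] at h2 h3
      refine ⟨?_, h3⟩
      have h4 : insert (τ lo (lo+j)) ((Finset.Ico (r+1) (lo+j+1)).image (fun a => τ a (lo+j))) ⊆
          (Finset.Ico lo (lo+j+1)).image (fun a => τ a (lo+j)) := by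
        intro x hx
        rw [Finset.mem_insert, Finset.mem_image] at hx
        rw [Finset.mem_image]
        rcases hx with rfl | ⟨b, hb, rfl⟩
        · exact ⟨lo, by rw [Finset.mem_Ico]; omega, rfl⟩
        · rw [Finset.mem_Ico] at hb
          exact ⟨b, by rw [Finset.mem_Ico]; omega, rfl⟩
      have h5 : τ lo (lo+j) ∉ (Finset.Ico (r+1) (lo+j+1)).image (fun a => τ a (lo+j)) := by
        rw [Finset.mem_image]
        rintro ⟨a, ha, ha'⟩
        rw [Finset.mem_Ico] at ha
        exact hB (lo+j) (by omega) (by omega) a (by omega) (by omega) ha'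
      have h6 := Finset.card_le_card h4
      rw [Finset.card_insert_of_notMem h5] at h6
      omega

/-- **the tree of a tiling of a staircase** -/
theorem bst_of_tiling {ι : Type*} [DecidableEq ι] (m : ℕ) (τ : ℕ → ℕ → ι)
    (hτ : RectTiling 0 m τ) : ∃ T : BT, T.size = m ∧ ∀ j < m,
      T.U j + 1 ≤ ((Finset.range (j + 1)).image (fun a => τ a j)).card ∧
      T.L j + 1 ≤ ((Finset.Ico j m).image (fun b => τ j b)).card := by
  obtain ⟨T, h1, h2⟩ := bst_aux τ m 0 m (by omega) hτ
  refine ⟨T, h1, fun j hj => ?_⟩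
  have := h2 j hj
  simp only [zero_add] at this
  rw [Finset.range_eq_Ico]
  exact this

end Pool.Agent.Lib.MP_7d5495_lc
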