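import Pool.Agent.Lib.MP_7d5495_lc.Fam

/-!
# The capacity lemma

A staircase region with `q` reflex corners that is tiled such that every horizontal line meets at
most `a` tiles and every vertical line meets at most `b` tiles has `q ≤ beta a b`.
-/

namespace Pool.Agent.Lib.MP_7d5495_lc

open Set Filter Topology

namespace Capacity

variable {ι : Type}

/-- a tile that contains points arbitrarily close to the line `x = x₀` on the right -/
theorem germ [Finite ι] (F : Fam ι) {x₀ X' : ℝ} (h : x₀ < X') (p : ι → Prop)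
    (hc : ∀ x, x₀ < x → x < X' → ∃ i, F.x₁ i ≤ x ∧ x ≤ F.x₂ i ∧ p i) :
    ∃ i, F.x₁ i ≤ x₀ ∧ x₀ < F.x₂ i ∧ p i := by
  have h1 : ∀ᶠ x in 𝓝[>] x₀, ∀ i, x₀ < F.x₁ i → x < F.x₁ i := by
    rw [eventually_all]
    intro i
    by_cases hi : x₀ < F.x₁ i
    · filter_upwards [Ioo_mem_nhdsGT hi] with x hx _ using hx.2
    · exact Eventually.of_forall fun x h' => absurd h' hi
  have h2 : ∀ᶠ x in 𝓝[>] x₀, x ∈ Ioo x₀ X' := Ioo_mem_nhdsGT h
  obtain ⟨x, hx, hx1, hx2⟩ := (h1.and h2).exists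
  obtain ⟨i, hi1, hi2, hi3⟩ := hc x hx1 hx2
  refine ⟨i, ?_, by linarith, hi3⟩
  by_contra hlt
  exact absurd (hx i (not_le.1 hlt)) (not_lt.2 hi1)

/-- the hypotheses of the capacity lemma -/
structure Cap (F : Fam ι) (a b q : ℕ) (ox oy : ℕ → ℝ) (x₀ y₀ X Y : ℝ) : Prop where
  hox : ∀ i j, i < j → j < q → ox i < ox j
  hoy : ∀ i j, i < j → j < q → oy j < oy i
  hx₀ : ∀ j < q, x₀ ≤ ox j
  hy₀ : ∀ j < q, y₀ ≤ oy j
  hX : ∀ j < q, ox j < X
  hY : ∀ j < q, oy j < Y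
  obst : ∀ i, ∀ j < q, ¬ (F.x₁ i ≤ ox j ∧ ox j < F.x₂ i ∧ F.y₁ i ≤ oy j ∧ oy j < F.y₂ i)
  cover : ∀ x y, x₀ < x → x < X → y₀ < y → y < Y → (∀ j < q, x < ox j ∨ y < oy j) →
    ∃ i, F.x₁ i ≤ x ∧ x ≤ F.x₂ i ∧ F.y₁ i ≤ y ∧ y ≤ F.y₂ i
  ver : ∀ x τ, x₀ < x → (∃ j < q, x < ox j) → y₀ < τ → τ ≤ Y →
    (∀ j < q, x < ox j ∨ τ ≤ oy j) → (F.V y₀ τ x).ncard ≤ b
  hor : ∀ y σ, y₀ < y → (∃ j < q, y < oy j) → x₀ < σ → σ ≤ X →
    (∀ j < q, y < oy j ∨ σ ≤ ox j) → (F.H x₀ σ y).ncard ≤ a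
  verF : 2 ≤ q → x₀ = ox 0 → ∀ τ, y₀ < τ → τ ≤ oy 0 →
    {i | i ∈ F.V y₀ τ x₀ ∧ x₀ < F.x₂ i}.ncard + 1 ≤ b
  horF : 2 ≤ q → y₀ = oy (q - 1) → ∀ σ, x₀ < σ → σ ≤ ox (q - 1) →
    {i | i ∈ F.H x₀ σ y₀ ∧ y₀ < F.y₂ i}.ncard + 1 ≤ a

variable {F : Fam ι} {a b q : ℕ} {ox oy : ℕ → ℝ} {x₀ y₀ X Y : ℝ}

theorem Cap.swap (h : Cap F a b q ox oy x₀ y₀ X Y) :
    Cap F.swap b a q (fun j => oy (q - 1 - j)) (fun j => ox (q - 1 - j)) y₀ x₀ Y X where
  hox i j hij hj := h.hoy _ _ (by omega) (by omega)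
  hoy i j hij hj := h.hox _ _ (by omega) (by omega)
  hx₀ j hj := h.hy₀ _ (by omega)
  hy₀ j hj := h.hx₀ _ (by omega)
  hX j hj := h.hY _ (by omega)
  hY j hj := h.hX _ (by omega)
  obst i j hj := fun ⟨h1, h2, h3, h4⟩ => h.obst i (q - 1 - j) (by omega) ⟨h3, h4, h1, h2⟩
  cover x y h1 h2 h3 h4 h5 := by
    obtain ⟨i, hi⟩ := h.cover y x h3 h4 h1 h2 fun j hj => by
      have := h5 (q - 1 - j) (by omega)
      rw [show q - 1 - (q - 1 - j) = j by omega] at this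
      exact this.symm
    exact ⟨i, hi.2.2.1, hi.2.2.2, hi.1, hi.2.1⟩
  ver x τ h1 h2 h3 h4 h5 := by
    obtain ⟨j, hj, hj2⟩ := h2
    refine h.hor x τ h1 ⟨q - 1 - j, by omega, hj2⟩ h3 h4 fun j hj => ?_
    have := h5 (q - 1 - j) (by omega)
    rw [show q - 1 - (q - 1 - j) = j by omega] at this
    exact this
  hor y σ h1 h2 h3 h4 h5 := by
    obtain ⟨j, hj, hj2⟩ := h2
    refine h.ver y σ h1 ⟨q - 1 - j, by omega, hj2⟩ h3 h4 fun j hj => ?_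
    have := h5 (q - 1 - j) (by omega)
    rw [show q - 1 - (q - 1 - j) = j by omega] at this
    exact this
  verF h1 h2 τ h3 h4 := h.horF h1 (by simpa using h2) τ h3 (by simpa using h4)
  horF h1 h2 σ h3 h4 := by
    simp only [Nat.sub_self] at h2 h4
    exact h.verF h1 h2 σ h3 h4

/-- every vertical line to the left of the obstacle `j` meets a tile below the obstacle -/
def Bp (F : Fam ι) (ox oy : ℕ → ℝ) (x₀ y₀ : ℝ) (j : ℕ) : Prop :=
  (∀ x, x₀ < x → x < ox j → ∃ i, F.x₁ i ≤ x ∧ x ≤ F.x₂ i ∧ y₀ < F.y₂ i ∧ F.y₂ i ≤ oy j) ∧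
  (x₀ = ox 0 → ∃ i, F.x₁ i ≤ x₀ ∧ x₀ < F.x₂ i ∧ y₀ < F.y₂ i ∧ F.y₂ i ≤ oy j)

theorem Cap.dich [Finite ι] (h : Cap F a b q ox oy x₀ y₀ X Y) (hq : 2 ≤ q) {j : ℕ} (hj : j < q) :
    Bp F ox oy x₀ y₀ j ∨
      Bp F.swap (fun j => oy (q - 1 - j)) (fun j => ox (q - 1 - j)) y₀ x₀ (q - 1 - j) := by
  -- a tile that spans from the origin line beyond the obstacle
  have key : ∀ i, F.x₁ i ≤ x₀ → ox j < F.x₂ i → F.y₁ i ≤ oy j → y₀ < F.y₂ i →
      Bp F ox oy x₀ y₀ j := by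
    intro i h1 h2 h3 h4
    have h5 : F.y₂ i ≤ oy j := by
      by_contra h6
      exact h.obst i j hj ⟨h1.trans (h.hx₀ j hj), h2, h3, not_le.1 h6⟩
    exact ⟨fun x hx1 hx2 => ⟨i, h1.trans hx1.le, (hx2.trans h2).le, h4, h5⟩,
      fun _ => ⟨i, h1, (h.hx₀ j hj).trans_lt h2, h4, h5⟩⟩
  by_contra hcon
  rw [not_or] at hcon
  obtain ⟨hB, hA⟩ := hcon
  apply hA
  have e1 : q - 1 - (q - 1 - j) = j := by omega
  constructor
  · intro y hy1 hy2
    simp only [e1] at hy2 ⊢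
    by_contra hno
    have hno' : ∀ i, F.y₁ i ≤ y → y ≤ F.y₂ i → x₀ < F.x₂ i → ox j < F.x₂ i := by
      intro i h1 h2 h3
      by_contra h4
      exact hno ⟨i, h1, h2, h3, not_lt.1 h4⟩
    obtain ⟨nx, hn1, hn2, hn3⟩ : ∃ nx, x₀ < nx ∧ nx ≤ X ∧ ∀ l, j < l → l < q → nx ≤ ox l := by
      by_cases hjq : j + 1 < q
      · refine ⟨ox (j + 1), (h.hx₀ j hj).trans_lt (h.hox _ _ (by omega) hjq), (h.hX _ hjq).le, ?_⟩
        intro l hl hlq
        rcases Nat.eq_or_lt_of_le (show j + 1 ≤ l from hl) with h1 | h1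
        · rw [h1]
        · exact (h.hox _ _ h1 hlq).le
      · exact ⟨X, (h.hx₀ j hj).trans_lt (h.hX j hj), le_rfl, fun l hl hlq => by omega⟩
    obtain ⟨i, hi1, hi2, hi3, hi4⟩ := germ F hn1 (fun i => F.y₁ i ≤ y ∧ y ≤ F.y₂ i)
      fun x hx1 hx2 => h.cover x y hx1 (hx2.trans_le hn2) hy1 (hy2.trans (h.hY j hj))
        fun l hl => by
          rcases lt_or_ge j l with hjl | hjl
          · left; exact hx2.trans_le (hn3 l hjl hl)
          · right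
            rcases Nat.eq_or_lt_of_le hjl with h1 | h1
            · rw [h1]; exact hy2
            · exact hy2.trans (h.hoy _ _ h1 hj)
    exact hB (key i hi1 (hno' i hi3 hi4 hi2) (hi3.trans hy2.le) (hy1.trans_le hi4))
  · intro hy
    simp only [Nat.sub_zero] at hy
    simp only [e1]
    by_contra hno
    have hno' : ∀ i, F.y₁ i ≤ y₀ → y₀ < F.y₂ i → x₀ < F.x₂ i → ox j < F.x₂ i := by
      intro i h1 h2 h3
      by_contra h4
      exact hno ⟨i, h1, h2, h3, not_lt.1 h4⟩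
    have h01 : x₀ < ox (q - 1) := (h.hx₀ 0 (by omega)).trans_lt (h.hox _ _ (by omega) (by omega))
    have h02 : y₀ < oy (q - 2) := by rw [hy]; exact h.hoy _ _ (by omega) (by omega)
    obtain ⟨i, hi1, hi2, hi3, hi4⟩ := germ F h01 (fun i => F.y₁ i ≤ y₀ ∧ y₀ < F.y₂ i)
      fun x hx1 hx2 => by
        obtain ⟨i, hi1, hi2, hi3, hi4⟩ := germ F.swap h02 (fun i => F.x₁ i ≤ x ∧ x ≤ F.x₂ i)
          fun y hy1 hy2 => by
            obtain ⟨i, hi⟩ := h.cover x y hx1 (hx2.trans (h.hX _ (by omega))) hy1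
              (hy2.trans (h.hY _ (by omega))) fun l hl => by
                rcases Nat.eq_or_lt_of_le (show l ≤ q - 1 by omega) with h1 | h1
                · left; rw [h1]; exact hx2
                · right
                  rcases Nat.eq_or_lt_of_le (show l ≤ q - 2 by omega) with h2 | h2
                  · rw [h2]; exact hy2
                  · exact hy2.trans (h.hoy _ _ h2 (by omega))
            exact ⟨i, hi.2.2.1, hi.2.2.2, hi.1, hi.2.1⟩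
        exact ⟨i, hi3, hi4, hi1, hi2⟩
    exact hB (key i hi1 (hno' i hi3 hi4 hi2) (hi3.trans (h.hy₀ j hj)) hi4)

/-- one of the two recursion steps -/
theorem Cap.upper [Finite ι] (h : Cap F a b q ox oy x₀ y₀ X Y) (ha : 1 ≤ a) (hq : 2 ≤ q)
    (IH : 1 ≤ b - 1 → ∀ (q : ℕ) (ox oy : ℕ → ℝ) (x₀ y₀ X Y : ℝ),
      Cap F a (b - 1) q ox oy x₀ y₀ X Y → q ≤ beta a (b - 1))
    {s : ℕ} (hs1 : 1 ≤ s) (hsq : s ≤ q) (hB : Bp F ox oy x₀ y₀ (s - 1)) :
    2 ≤ b ∧ s ≤ beta a (b - 1) := by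
  have hmono : ∀ l, l < s - 1 → ox l < ox (s - 1) := fun l hl => h.hox _ _ hl (by omega)
  have hx0 : x₀ ≤ ox (s - 1) := h.hx₀ _ (by omega)
  have hb : 2 ≤ b := by
    rcases hx0.lt_or_eq with hlt | heq
    · obtain ⟨top, ht1, ht2, ht3⟩ : ∃ top, oy (s - 1) < top ∧ top ≤ Y ∧
          ∀ l, l < s - 1 → top ≤ oy l := by
        rcases Nat.eq_or_lt_of_le hs1 with h1 | h1
        · exact ⟨Y, h.hY _ (by omega), le_rfl, fun l hl => by omega⟩
        · refine ⟨oy (s - 2), h.hoy _ _ (by omega) (by omega), (h.hY _ (by omega)).le, ?_⟩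
          intro l hl
          rcases Nat.eq_or_lt_of_le (show l ≤ s - 2 by omega) with h2 | h2
          · rw [h2]
          · exact (h.hoy _ _ h2 (by omega)).le
      obtain ⟨x, hx1, hx2⟩ := exists_between hlt
      obtain ⟨y, hy1, hy2⟩ := exists_between ht1
      have hy0 : y₀ < y := (h.hy₀ _ (by omega)).trans_lt hy1
      obtain ⟨i, hi1, hi2, hi3, hi4⟩ := hB.1 x hx1 hx2
      obtain ⟨i', hi1', hi2', hi3', hi4'⟩ := h.cover x y hx1 (hx2.trans (h.hX _ (by omega))) hy0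
        (hy2.trans_le ht2) fun l hl => by
          rcases lt_or_ge l (s - 1) with h1 | h1
          · right; exact hy2.trans_le (ht3 l h1)
          · left
            rcases Nat.eq_or_lt_of_le h1 with h2 | h2
            · rw [← h2]; exact hx2
            · exact hx2.trans (h.hox _ _ h2 hl)
      have hle := h.ver x top hx1 ⟨s - 1, by omega, hx2⟩ (hy0.trans hy2) ht2 fun l hl => by
          rcases lt_or_ge l (s - 1) with h1 | h1
          · right; exact ht3 l h1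
          · left
            rcases Nat.eq_or_lt_of_le h1 with h2 | h2
            · rw [← h2]; exact hx2
            · exact hx2.trans (h.hox _ _ h2 hl)
      have h2 : 1 < (F.V y₀ top x).ncard := by
        rw [Set.one_lt_ncard (Set.toFinite _)]
        refine ⟨i, ⟨hi1, hi2, ((F.hy i).trans_le hi4).trans ht1, hi3⟩, i',
          ⟨hi1', hi2', hi3'.trans_lt hy2, hy0.trans_le hi4'⟩, ?_⟩
        rintro rfl
        linarith
      omega
    · have hs : s = 1 := by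
        by_contra hs
        have h1 := hmono 0 (by omega)
        have h2 := h.hx₀ 0 (by omega)
        linarith
      subst hs
      obtain ⟨i, hi1, hi2, hi3, hi4⟩ := hB.2 heq
      have hle := h.verF hq heq (oy 0) (hi3.trans_le hi4) le_rfl
      have h2 : 0 < {i | i ∈ F.V y₀ (oy 0) x₀ ∧ x₀ < F.x₂ i}.ncard := by
        rw [Set.ncard_pos (Set.toFinite _)]
        exact ⟨i, ⟨hi1, hi2.le, (F.hy i).trans_le hi4, hi3⟩, hi2⟩
      omega
  refine ⟨hb, ?_⟩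
  rcases Nat.eq_or_lt_of_le hs1 with h1 | hs2
  · rw [← h1]; exact beta_pos ha (by omega)
  have hlt : x₀ < ox (s - 1) := (h.hx₀ 0 (by omega)).trans_lt (hmono 0 (by omega))
  -- the level `d`
  obtain ⟨i₀, hi₀, hmax⟩ : ∃ i₀ ∈ {i | y₀ < F.y₂ i ∧ F.y₂ i ≤ oy (s - 1) ∧ F.x₁ i < ox (s - 1) ∧
      x₀ < F.x₂ i}, ∀ i ∈ {i | y₀ < F.y₂ i ∧ F.y₂ i ≤ oy (s - 1) ∧ F.x₁ i < ox (s - 1) ∧
      x₀ < F.x₂ i}, F.y₂ i ≤ F.y₂ i₀ := by
    refine Set.exists_max_image _ F.y₂ (Set.toFinite _) ?_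
    obtain ⟨x, hx1, hx2⟩ := exists_between hlt
    obtain ⟨i, hi1, hi2, hi3, hi4⟩ := hB.1 x hx1 hx2
    exact ⟨i, hi3, hi4, hi1.trans_lt hx2, hx1.trans_le hi2⟩
  obtain ⟨hd0, hd1, hi₁, hi₂⟩ := hi₀
  have hmax' : ∀ i, y₀ < F.y₂ i → F.y₂ i ≤ oy (s - 1) → F.x₁ i < ox (s - 1) → x₀ < F.x₂ i →
      F.y₂ i ≤ F.y₂ i₀ := fun i h1 h2 h3 h4 => hmax i ⟨h1, h2, h3, h4⟩
  clear hmax
  generalize hd : F.y₂ i₀ = d at hd0 hd1 hmax'
  obtain ⟨nx, hn1, hn2, hn3⟩ : ∃ nx, ox (s - 1) < nx ∧ nx ≤ X ∧ ∀ l, s ≤ l → l < q → nx ≤ ox l := by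
    rcases Nat.eq_or_lt_of_le hsq with h1 | h1
    · exact ⟨X, h.hX _ (by omega), le_rfl, fun l hl hlq => by omega⟩
    · refine ⟨ox s, h.hox _ _ (by omega) h1, (h.hX _ h1).le, ?_⟩
      intro l hl hlq
      rcases Nat.eq_or_lt_of_le hl with h1 | h1
      · rw [h1]
      · exact (h.hox _ _ h1 hlq).le
  have hoyle : ∀ j < s, oy (s - 1) ≤ oy j := by
    intro j hj
    rcases Nat.eq_or_lt_of_le (show j ≤ s - 1 by omega) with h1 | h1
    · rw [h1]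
    · exact (h.hoy _ _ h1 (by omega)).le
  have hoxle : ∀ j < s, ox j ≤ ox (s - 1) := by
    intro j hj
    rcases Nat.eq_or_lt_of_le (show j ≤ s - 1 by omega) with h1 | h1
    · rw [h1]
    · exact (hmono j h1).le
  refine IH (by omega) s ox oy x₀ d nx Y ?_
  refine ⟨fun i j hij hj => h.hox i j hij (by omega), fun i j hij hj => h.hoy i j hij (by omega),
    fun j hj => h.hx₀ j (by omega), fun j hj => hd1.trans (hoyle j hj),
    fun j hj => (hoxle j hj).trans_lt hn1, fun j hj => h.hY j (by omega),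
    fun i j hj => h.obst i j (by omega), ?_, ?_, ?_, ?_, ?_⟩
  · intro x y h1 h2 h3 h4 h5
    refine h.cover x y h1 (h2.trans_le hn2) (hd0.trans h3) h4 fun l hl => ?_
    rcases lt_or_ge l s with h6 | h6
    · exact h5 l h6
    · left; exact h2.trans_le (hn3 l h6 hl)
  · intro x τ h1 h2 h3 h4 h5
    obtain ⟨j, hj, hxj⟩ := h2
    have hxs : x < ox (s - 1) := hxj.trans_le (hoxle j hj)
    have hle := h.ver x τ h1 ⟨j, by omega, hxj⟩ (hd0.trans h3) h4 fun l hl => by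
      rcases lt_or_ge l s with h6 | h6
      · exact h5 l h6
      · left; exact (hxs.trans hn1).trans_le (hn3 l h6 hl)
    obtain ⟨i, hi1, hi2, hi3, hi4⟩ := hB.1 x h1 hxs
    have hid := hmax' i hi3 hi4 (hi1.trans_lt hxs) (h1.trans_le hi2)
    have hsub : insert i (F.V d τ x) ⊆ F.V y₀ τ x := by
      intro j hj
      rcases Set.mem_insert_iff.1 hj with rfl | hj
      · exact ⟨hi1, hi2, ((F.hy j).trans_le hid).trans h3, hi3⟩
      · exact ⟨hj.1, hj.2.1, hj.2.2.1, hd0.trans hj.2.2.2⟩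
    have hni : i ∉ F.V d τ x := fun hj => absurd hj.2.2.2 (not_lt.2 hid)
    have hc := Set.ncard_le_ncard hsub (Set.toFinite _)
    rw [Set.ncard_insert_of_notMem hni (Set.toFinite _)] at hc
    omega
  · intro y σ h1 h2 h3 h4 h5
    obtain ⟨j, hj, hyj⟩ := h2
    refine h.hor y σ (hd0.trans h1) ⟨j, by omega, hyj⟩ h3 (h4.trans hn2) fun l hl => ?_
    rcases lt_or_ge l s with h6 | h6
    · exact h5 l h6
    · right; exact h4.trans (hn3 l h6 hl)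
  · intro _ hx τ h3 h4
    have hle := h.verF hq hx τ (hd0.trans h3) h4
    obtain ⟨i, hi1, hi2, hi3, hi4⟩ := hB.2 hx
    have hid := hmax' i hi3 hi4 (hi1.trans_lt hlt) hi2
    have hsub : insert i {i | i ∈ F.V d τ x₀ ∧ x₀ < F.x₂ i} ⊆
        {i | i ∈ F.V y₀ τ x₀ ∧ x₀ < F.x₂ i} := by
      intro j hj
      rcases Set.mem_insert_iff.1 hj with rfl | hj
      · exact ⟨⟨hi1, hi2.le, ((F.hy j).trans_le hid).trans h3, hi3⟩, hi2⟩
      · exact ⟨⟨hj.1.1, hj.1.2.1, hj.1.2.2.1, hd0.trans hj.1.2.2.2⟩, hj.2⟩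
    have hni : i ∉ {i | i ∈ F.V d τ x₀ ∧ x₀ < F.x₂ i} :=
      fun hj => absurd hj.1.2.2.2 (not_lt.2 hid)
    have hc := Set.ncard_le_ncard hsub (Set.toFinite _)
    rw [Set.ncard_insert_of_notMem hni (Set.toFinite _)] at hc
    omega
  · intro _ hy σ h3 h4
    have hle := h.hor d (ox (s - 1)) hd0 ⟨0, by omega, by
        rw [hy]; exact h.hoy _ _ (by omega) (by omega)⟩ hlt (h.hX _ (by omega)).le
      fun l hl => by
        rcases lt_or_ge l (s - 1) with h6 | h6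
        · left; rw [hy]; exact h.hoy _ _ h6 (by omega)
        · right
          rcases Nat.eq_or_lt_of_le h6 with h7 | h7
          · rw [← h7]
          · exact (h.hox _ _ h7 hl).le
    have hsub : insert i₀ {i | i ∈ F.H x₀ σ d ∧ d < F.y₂ i} ⊆ F.H x₀ (ox (s - 1)) d := by
      intro j hj
      rcases Set.mem_insert_iff.1 hj with rfl | hj
      · exact ⟨by rw [← hd]; exact (F.hy j).le, hd.ge, hi₁, hi₂⟩
      · exact ⟨hj.1.1, hj.1.2.1, hj.1.2.2.1.trans_le h4, hj.1.2.2.2⟩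
    have hni : i₀ ∉ {i | i ∈ F.H x₀ σ d ∧ d < F.y₂ i} := fun hj => absurd hj.2 (by rw [hd]; simp)
    have hc := Set.ncard_le_ncard hsub (Set.toFinite _)
    rw [Set.ncard_insert_of_notMem hni (Set.toFinite _)] at hc
    omega

theorem main [Finite ι] (n : ℕ) : ∀ (F : Fam ι) (a b : ℕ), a + b = n → 1 ≤ a → 1 ≤ b →
    ∀ (q : ℕ) (ox oy : ℕ → ℝ) (x₀ y₀ X Y : ℝ), Cap F a b q ox oy x₀ y₀ X Y → q ≤ beta a b := by
  induction n using Nat.strong_induction_on with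
  | _ n ih =>
  intro F a b hab ha hb q ox oy x₀ y₀ X Y h
  by_cases hq : 2 ≤ q
  swap
  · have := beta_pos ha hb; omega
  have hup : ∀ s, 1 ≤ s → s ≤ q → Bp F ox oy x₀ y₀ (s - 1) → 2 ≤ b ∧ s ≤ beta a (b - 1) :=
    fun s h1 h2 h3 => h.upper ha hq
      (fun hb' => ih (a + (b - 1)) (by omega) F a (b - 1) rfl ha hb') h1 h2 h3
  have hrt : ∀ s, 1 ≤ s → s ≤ q →
      Bp F.swap (fun j => oy (q - 1 - j)) (fun j => ox (q - 1 - j)) y₀ x₀ (s - 1) →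
      2 ≤ a ∧ s ≤ beta b (a - 1) :=
    fun s h1 h2 h3 => h.swap.upper hb hq
      (fun ha' => ih (b + (a - 1)) (by omega) F.swap b (a - 1) rfl hb ha') h1 h2 h3
  by_cases hall : ∀ j < q, Bp F ox oy x₀ y₀ j
  · obtain ⟨h1, h2⟩ := hup q (by omega) le_rfl (hall _ (by omega))
    exact h2.trans (beta_mono_right (by omega))
  · push Not at hall
    classical
    let j := Nat.find hall
    obtain ⟨hj1, hj2⟩ : j < q ∧ ¬ Bp F ox oy x₀ y₀ j := Nat.find_spec hall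
    have hmin : ∀ l < j, Bp F ox oy x₀ y₀ l := by
      intro l hl
      by_contra hl2
      exact Nat.find_min hall hl ⟨by omega, hl2⟩
    have hA := (h.dich hq hj1).resolve_left hj2
    obtain ⟨h1, h2⟩ := hrt (q - j) (by omega) (by omega)
      (by rw [show q - j - 1 = q - 1 - j by omega]; exact hA)
    rw [beta_comm] at h2
    rcases Nat.eq_zero_or_pos j with h0 | h0
    · have := h2.trans (beta_mono_left (show a - 1 ≤ a by omega))
      omega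
    · obtain ⟨h3, h4⟩ := hup j h0 hj1.le (hmin _ (by omega))
      rw [beta_rec h1 h3]
      omega

end Capacity

/-- **Capacity lemma.** -/
theorem Fam.capacity {ι : Type} [Finite ι] (F : Fam ι) (a b q : ℕ) (ha : 1 ≤ a) (hb : 1 ≤ b)
    (ox oy : ℕ → ℝ) (x₀ y₀ X Y : ℝ)
    (hox : ∀ i j, i < j → j < q → ox i < ox j) (hoy : ∀ i j, i < j → j < q → oy j < oy i)
    (hx₀ : ∀ j < q, x₀ ≤ ox j) (hy₀ : ∀ j < q, y₀ ≤ oy j)
    (hX : ∀ j < q, ox j < X) (hY : ∀ j < q, oy j < Y)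
    (obst : ∀ i, ∀ j < q, ¬ (F.x₁ i ≤ ox j ∧ ox j < F.x₂ i ∧ F.y₁ i ≤ oy j ∧ oy j < F.y₂ i))
    (cover : ∀ x y, x₀ < x → x < X → y₀ < y → y < Y → (∀ j < q, x < ox j ∨ y < oy j) →
      ∃ i, F.x₁ i ≤ x ∧ x ≤ F.x₂ i ∧ F.y₁ i ≤ y ∧ y ≤ F.y₂ i)
    (ver : ∀ x τ, x₀ < x → (∃ j < q, x < ox j) → y₀ < τ → τ ≤ Y →
      (∀ j < q, x < ox j ∨ τ ≤ oy j) → (F.V y₀ τ x).ncard ≤ b)
    (hor : ∀ y σ, y₀ < y → (∃ j < q, y < oy j) → x₀ < σ → σ ≤ X →
      (∀ j < q, y < oy j ∨ σ ≤ ox j) → (F.H x₀ σ y).ncard ≤ a)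
    (verF : 2 ≤ q → x₀ = ox 0 → ∀ τ, y₀ < τ → τ ≤ oy 0 →
      {i | i ∈ F.V y₀ τ x₀ ∧ x₀ < F.x₂ i}.ncard + 1 ≤ b)
    (horF : 2 ≤ q → y₀ = oy (q - 1) → ∀ σ, x₀ < σ → σ ≤ ox (q - 1) →
      {i | i ∈ F.H x₀ σ y₀ ∧ y₀ < F.y₂ i}.ncard + 1 ≤ a) :
    q ≤ beta a b :=
  Capacity.main (a + b) F a b rfl ha hb q ox oy x₀ y₀ X Y
    ⟨hox, hoy, hx₀, hy₀, hX, hY, obst, cover, ver, hor, verF, horF⟩

end Pool.Agent.Lib.MP_7d5495_lc
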