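import Pool.Agent.Lib.MP_7d5495_lc.Tiles

/-!
# Transport of certificates from one frame to the previous one
-/

set_option autoImplicit false

namespace Pool.Agent.Lib.MP_7d5495_lc

/-- A row certificate of the frame `t + 1` is a column certificate of the frame `t`. -/
theorem RowCert.rot {P : Par} {cell : ℕ → ℤ → ℤ → Prop} (hz : Zones P cell) {Q : Fill}
    {t : ℕ} {y A₁ A₂ : ℤ} (h : RowCert P Q cell (t + 1) y A₁ A₂) :
    ColCert P Q cell t y (-(P.lam (t + 1) : ℤ) - A₂) (-(P.lam (t + 1) : ℤ) - A₁) := by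
  obtain ⟨L, hL, hT, hO, ⟨b₁, h1, h2, h3⟩, ⟨b₂, h4, h5, h6⟩⟩ := h
  refine ⟨L.map (ZR.unrot (P.lam (t + 1))), by rw [List.length_map]; exact hL, ?_, ?_, ?_, ?_⟩
  · intro R hR
    obtain ⟨R', hR', rfl⟩ := List.mem_map.1 hR
    exact tile_succ.1 (hT R' hR')
  · intro a b g1 g2 g3 g4 g5
    have g6 : cell (t + 1) (-(P.lam (t + 1) : ℤ) - b - 1) a := by
      rw [hz.rot]
      have : -(P.lam (t + 1) : ℤ) - (-(P.lam (t + 1) : ℤ) - b - 1) - 1 = b := by ring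
      rw [this]; exact g5
    obtain ⟨R, hR, k1, k2, k3, k4⟩ := hO _ _ (by omega) (by omega) g3 g4 g6
    exact ⟨R.unrot (P.lam (t + 1)), List.mem_map.2 ⟨R, hR, rfl⟩, k3, k4,
      by simp only [ZR.unrot]; omega, by simp only [ZR.unrot]; omega⟩
  · refine ⟨b₂, h4, h5, fun g => h6 ?_⟩
    rw [hz.rot]
    exact g
  · refine ⟨b₁, h1, h2, fun g => h3 ?_⟩
    rw [hz.rot]
    have : -(P.lam (t + 1) : ℤ) - (A₁ - 1) - 1 = -(P.lam (t + 1) : ℤ) - A₁ := by ring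
    rw [this]; exact g

/-- A column certificate of the frame `t + 1` is a row certificate of the frame `t`. -/
theorem ColCert.rot {P : Par} {cell : ℕ → ℤ → ℤ → Prop} (hz : Zones P cell) {Q : Fill}
    {t : ℕ} {x B₁ B₂ : ℤ} (h : ColCert P Q cell (t + 1) x B₁ B₂) :
    RowCert P Q cell t (-2 * (P.lam (t + 1) : ℤ) - x) B₁ B₂ := by
  obtain ⟨L, hL, hT, hO, ⟨a₁, h1, h2, h3⟩, ⟨a₂, h4, h5, h6⟩⟩ := h
  refine ⟨L.map (ZR.unrot (P.lam (t + 1))), by rw [List.length_map]; exact hL, ?_, ?_, ?_, ?_⟩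
  · intro R hR
    obtain ⟨R', hR', rfl⟩ := List.mem_map.1 hR
    exact tile_succ.1 (hT R' hR')
  · intro a b g1 g2 g3 g4 g5
    have g6 : cell (t + 1) (-(P.lam (t + 1) : ℤ) - b - 1) a := by
      rw [hz.rot]
      have : -(P.lam (t + 1) : ℤ) - (-(P.lam (t + 1) : ℤ) - b - 1) - 1 = b := by ring
      rw [this]; exact g5
    obtain ⟨R, hR, k1, k2, k3, k4⟩ := hO _ _ g1 g2 (by omega) (by omega) g6
    exact ⟨R.unrot (P.lam (t + 1)), List.mem_map.2 ⟨R, hR, rfl⟩, k3, k4,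
      by simp only [ZR.unrot]; omega, by simp only [ZR.unrot]; omega⟩
  · refine ⟨-(P.lam (t + 1) : ℤ) - a₁ - 1, by omega, by omega, fun g => h3 ?_⟩
    rw [hz.rot]
    exact g
  · refine ⟨-(P.lam (t + 1) : ℤ) - a₂ - 1, by omega, by omega, fun g => h6 ?_⟩
    rw [hz.rot]
    exact g

end Pool.Agent.Lib.MP_7d5495_lc
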