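import Pool.Agent.Lib.MP_7d5495_lc.StairCells

/-!
# The number of tiles of a staircase on a line
-/

namespace Pool.Agent.Lib.MP_7d5495_lc

namespace StairLines

/-- the tiles of a staircase lie above its lower side and below its upper side -/
theorem bounds (T : BT) (x y g : ℤ) (hg : 0 < g) {R : ZR} (hR : R ∈ stair T x y g) :
    x ≤ R.x₁ ∧ R.x₂ ≤ x + T.size * g ∧ y ≤ R.y₁ ∧ R.y₂ ≤ y + T.size * g := by
  induction T generalizing x y with
  | nil => simp [stair] at hR
  | node l r ihl ihr =>
    simp only [stair, List.mem_cons, List.mem_append] at hR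
    have hl : (0 : ℤ) ≤ l.size := by positivity
    have hr : (0 : ℤ) ≤ r.size := by positivity
    have h1 : 0 ≤ (l.size : ℤ) * g := by positivity
    have h2 : 0 ≤ (r.size : ℤ) * g := by positivity
    simp only [BT.size_node, Nat.cast_add, Nat.cast_one]
    rcases hR with rfl | h | h
    · refine ⟨le_rfl, ?_, le_rfl, ?_⟩ <;> simp only <;> linarith
    · obtain ⟨h3, h4, h5, h6⟩ := ihl _ _ h
      refine ⟨h3, ?_, ?_, ?_⟩ <;> linarith
    · obtain ⟨h3, h4, h5, h6⟩ := ihr _ _ h
      refine ⟨?_, ?_, ?_, ?_⟩ <;> linarith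

theorem onRow_nil (v : ℤ) : onRow [] v = [] := rfl

theorem onRow_append (l l' : List ZR) (v : ℤ) : onRow (l ++ l') v = onRow l v ++ onRow l' v := by
  simp [onRow]

theorem onCol_append (l l' : List ZR) (v : ℤ) : onCol (l ++ l') v = onCol l v ++ onCol l' v := by
  simp [onCol]

theorem onRow_eq_nil {l : List ZR} {v : ℤ} (h : ∀ R ∈ l, v < 2 * R.y₁ ∨ 2 * R.y₂ < v) :
    onRow l v = [] := by
  unfold onRow
  rw [List.filter_eq_nil_iff]
  intro R hR
  simp only [decide_eq_true_eq]
  rcases h R hR with h | h <;> omega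

theorem onCol_eq_nil {l : List ZR} {v : ℤ} (h : ∀ R ∈ l, v < 2 * R.x₁ ∨ 2 * R.x₂ < v) :
    onCol l v = [] := by
  unfold onCol
  rw [List.filter_eq_nil_iff]
  intro R hR
  simp only [decide_eq_true_eq]
  rcases h R hR with h | h <;> omega

theorem onRow_cons_le (R : ZR) (l : List ZR) (v : ℤ) :
    (onRow (R :: l) v).length ≤ 1 + (onRow l v).length := by
  unfold onRow
  rw [List.filter_cons]
  split_ifs <;> simp <;> omega

theorem onCol_cons_le (R : ZR) (l : List ZR) (v : ℤ) :
    (onCol (R :: l) v).length ≤ 1 + (onCol l v).length := by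
  unfold onCol
  rw [List.filter_cons]
  split_ifs <;> simp <;> omega

theorem onRow_cons_of_not {R : ZR} {l : List ZR} {v : ℤ} (h : v < 2 * R.y₁ ∨ 2 * R.y₂ < v) :
    onRow (R :: l) v = onRow l v := by
  unfold onRow
  rw [List.filter_cons_of_neg]
  simp only [decide_eq_true_eq]
  rcases h with h | h <;> omega

theorem onCol_cons_of_not {R : ZR} {l : List ZR} {v : ℤ} (h : v < 2 * R.x₁ ∨ 2 * R.x₂ < v) :
    onCol (R :: l) v = onCol l v := by
  unfold onCol
  rw [List.filter_cons_of_neg]
  simp only [decide_eq_true_eq]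
  rcases h with h | h <;> omega

/-- the tiles of a line through a node, by the position of the line -/
theorem row_cases (l r : BT) (x y g : ℤ) (hg : 0 < g) (v : ℤ) :
    (2 * (y + (r.size + 1) * g) < v ∧
      onRow (stair (.node l r) x y g) v = onRow (stair l x (y + (r.size + 1) * g) g) v) ∨
    (v ≤ 2 * (y + (r.size + 1) * g) ∧ 2 * (y + r.size * g) < v ∧
      (onRow (stair (.node l r) x y g) v).length ≤
        1 + (onRow (stair l x (y + (r.size + 1) * g) g) v).length) ∨
    (v ≤ 2 * (y + r.size * g) ∧
      (onRow (stair (.node l r) x y g) v).length ≤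
        1 + (onRow (stair r (x + (l.size + 1) * g) y g) v).length ∧
      (v < 2 * y → onRow (stair (.node l r) x y g) v =
        onRow (stair r (x + (l.size + 1) * g) y g) v)) := by
  have e : stair (.node l r) x y g = ⟨x, x + (l.size + 1) * g, y, y + (r.size + 1) * g⟩ ::
      (stair l x (y + (r.size + 1) * g) g ++ stair r (x + (l.size + 1) * g) y g) := rfl
  have hr : 0 ≤ (r.size : ℤ) * g := by positivity
  rcases lt_or_ge (2 * (y + (r.size + 1) * g)) v with h1 | h1
  · left
    refine ⟨h1, ?_⟩
    rw [e, onRow_cons_of_not (Or.inr h1), onRow_append, onRow_eq_nil (l := stair r _ _ _),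
      List.append_nil]
    intro R hR
    have := (bounds r _ _ g hg hR).2.2.2
    right; linarith
  · rcases lt_or_ge (2 * (y + r.size * g)) v with h2 | h2
    · right; left
      refine ⟨h1, h2, ?_⟩
      rw [e]
      refine (onRow_cons_le _ _ _).trans ?_
      rw [onRow_append, onRow_eq_nil (l := stair r _ _ _), List.append_nil]
      intro R hR
      have := (bounds r _ _ g hg hR).2.2.2
      right; linarith
    · right; right
      have h3 : onRow (stair l x (y + (r.size + 1) * g) g) v = [] := by
        refine onRow_eq_nil fun R hR => ?_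
        have := (bounds l _ _ g hg hR).2.2.1
        left; linarith
      refine ⟨h2, ?_, ?_⟩
      · rw [e]
        refine (onRow_cons_le _ _ _).trans ?_
        rw [onRow_append, h3, List.nil_append]
      · intro h4
        rw [e, onRow_cons_of_not (Or.inl h4), onRow_append, h3, List.nil_append]

theorem col_cases (l r : BT) (x y g : ℤ) (hg : 0 < g) (v : ℤ) :
    (2 * (x + (l.size + 1) * g) < v ∧
      onCol (stair (.node l r) x y g) v = onCol (stair r (x + (l.size + 1) * g) y g) v) ∨
    (v ≤ 2 * (x + (l.size + 1) * g) ∧ 2 * (x + l.size * g) < v ∧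
      (onCol (stair (.node l r) x y g) v).length ≤
        1 + (onCol (stair r (x + (l.size + 1) * g) y g) v).length) ∨
    (v ≤ 2 * (x + l.size * g) ∧
      (onCol (stair (.node l r) x y g) v).length ≤
        1 + (onCol (stair l x (y + (r.size + 1) * g) g) v).length ∧
      (v < 2 * x → onCol (stair (.node l r) x y g) v =
        onCol (stair l x (y + (r.size + 1) * g) g) v)) := by
  have e : stair (.node l r) x y g = ⟨x, x + (l.size + 1) * g, y, y + (r.size + 1) * g⟩ ::
      (stair l x (y + (r.size + 1) * g) g ++ stair r (x + (l.size + 1) * g) y g) := rfl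
  have hr : 0 ≤ (l.size : ℤ) * g := by positivity
  rcases lt_or_ge (2 * (x + (l.size + 1) * g)) v with h1 | h1
  · left
    refine ⟨h1, ?_⟩
    rw [e, onCol_cons_of_not (Or.inr h1), onCol_append, onCol_eq_nil (l := stair l _ _ _),
      List.nil_append]
    intro R hR
    have := (bounds l _ _ g hg hR).2.1
    right; linarith
  · rcases lt_or_ge (2 * (x + l.size * g)) v with h2 | h2
    · right; left
      refine ⟨h1, h2, ?_⟩
      rw [e]
      refine (onCol_cons_le _ _ _).trans ?_
      rw [onCol_append, onCol_eq_nil (l := stair l _ _ _), List.nil_append]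
      intro R hR
      have := (bounds l _ _ g hg hR).2.1
      right; linarith
    · right; right
      have h3 : onCol (stair r (x + (l.size + 1) * g) y g) v = [] := by
        refine onCol_eq_nil fun R hR => ?_
        have := (bounds r _ _ g hg hR).1
        left; linarith
      refine ⟨h2, ?_, ?_⟩
      · rw [e]
        refine (onCol_cons_le _ _ _).trans ?_
        rw [onCol_append, h3, List.append_nil]
      · intro h4
        rw [e, onCol_cons_of_not (Or.inl h4), onCol_append, h3, List.append_nil]

end StairLines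

open StairLines

theorem onRow_stair_bot (T : BT) (x y g : ℤ) (hg : 0 < g) (v : ℤ) (hv : v ≤ 2 * y) :
    (onRow (stair T x y g) v).length ≤ T.bot := by
  induction T generalizing x y with
  | nil => simp [stair, onRow]
  | node l r ihl ihr =>
    have hr : 0 ≤ (r.size : ℤ) * g := by positivity
    rcases row_cases l r x y g hg v with ⟨h1, h2⟩ | ⟨h1, h2, h3⟩ | ⟨h1, h2, h3⟩
    · linarith
    · linarith
    · refine h2.trans ?_
      have := ihr (x + (l.size + 1) * g) y hv
      show _ ≤ r.bot + 1
      omega

theorem onCol_stair_lft (T : BT) (x y g : ℤ) (hg : 0 < g) (v : ℤ) (hv : v ≤ 2 * x) :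
    (onCol (stair T x y g) v).length ≤ T.lft := by
  induction T generalizing x y with
  | nil => simp [stair, onCol]
  | node l r ihl ihr =>
    have hr : 0 ≤ (l.size : ℤ) * g := by positivity
    rcases col_cases l r x y g hg v with ⟨h1, h2⟩ | ⟨h1, h2, h3⟩ | ⟨h1, h2, h3⟩
    · linarith
    · linarith
    · refine h2.trans ?_
      have := ihl x (y + (r.size + 1) * g) hv
      show _ ≤ l.lft + 1
      omega

theorem onRow_stair (T : BT) (x y g : ℤ) (hg : 0 < g) (v : ℤ) :
    (onRow (stair T x y g) v).length ≤ T.RH := by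
  induction T generalizing x y with
  | nil => simp [stair, onRow]
  | node l r ihl ihr =>
    show _ ≤ max (BT.RH l) (max (BT.RH r + 1) (BT.bot l + 1))
    rcases row_cases l r x y g hg v with ⟨h1, h2⟩ | ⟨h1, h2, h3⟩ | ⟨h1, h2, h3⟩
    · rw [h2]
      exact (ihl _ _).trans (le_max_left _ _)
    · have := onRow_stair_bot l x (y + (r.size + 1) * g) g hg v h1
      refine h3.trans (le_trans ?_ (le_max_right _ _))
      refine le_trans ?_ (le_max_right _ _)
      omega
    · have := ihr (x + (l.size + 1) * g) y
      refine h2.trans (le_trans ?_ (le_max_right _ _))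
      refine le_trans ?_ (le_max_left _ _)
      omega

theorem onCol_stair (T : BT) (x y g : ℤ) (hg : 0 < g) (v : ℤ) :
    (onCol (stair T x y g) v).length ≤ T.RV := by
  induction T generalizing x y with
  | nil => simp [stair, onCol]
  | node l r ihl ihr =>
    show _ ≤ max (BT.RV r) (max (BT.RV l + 1) (BT.lft r + 1))
    rcases col_cases l r x y g hg v with ⟨h1, h2⟩ | ⟨h1, h2, h3⟩ | ⟨h1, h2, h3⟩
    · rw [h2]
      exact (ihr _ _).trans (le_max_left _ _)
    · have := onCol_stair_lft r (x + (l.size + 1) * g) y g hg v h1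
      refine h3.trans (le_trans ?_ (le_max_right _ _))
      refine le_trans ?_ (le_max_right _ _)
      omega
    · have := ihl x (y + (r.size + 1) * g)
      refine h2.trans (le_trans ?_ (le_max_right _ _))
      refine le_trans ?_ (le_max_left _ _)
      omega

theorem onRow_stair_key (T : BT) (x y g : ℤ) (hg : 0 < g) (v : ℤ) {i : ℕ} (hi : i < T.size)
    (h1 : 2 * (y + (T.size - 1 - i) * g) < v) (h2 : v < 2 * (y + (T.size - i) * g)) :
    (onRow (stair T x y g) v).length ≤ T.U i + 1 := by
  induction T generalizing x y i with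
  | nil => simp at hi
  | node l r ihl ihr =>
    simp only [BT.size_node, Nat.cast_add, Nat.cast_one] at hi h1 h2
    rcases lt_trichotomy i l.size with hlt | heq | hgt
    · -- the key is in the left subtree
      have hz : (0 : ℤ) ≤ (l.size : ℤ) - 1 - i := by omega
      have hz2 : 0 ≤ ((l.size : ℤ) - 1 - i) * g := mul_nonneg hz hg.le
      rw [BT.U_left hlt]
      rcases row_cases l r x y g hg v with ⟨h3, h4⟩ | ⟨h3, h4, h5⟩ | ⟨h3, h4, h5⟩
      · rw [h4]
        refine ihl x (y + (r.size + 1) * g) hlt ?_ ?_ <;> linarith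
      · nlinarith
      · nlinarith
    · subst heq
      rw [BT.U_root]
      rcases row_cases l r x y g hg v with ⟨h3, h4⟩ | ⟨h3, h4, h5⟩ | ⟨h3, h4, h5⟩
      · nlinarith
      · have h6 : onRow (stair l x (y + (r.size + 1) * g) g) v = [] := by
          refine onRow_eq_nil fun R hR => ?_
          have := (bounds l _ _ g hg hR).2.2.1
          left; linarith
        rw [h6] at h5
        simpa using h5
      · nlinarith
    · have hz : (0 : ℤ) ≤ (i : ℤ) - l.size - 1 := by omega
      have hz2 : 0 ≤ ((i : ℤ) - l.size - 1) * g := mul_nonneg hz hg.le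
      rw [BT.U_right hgt]
      rcases row_cases l r x y g hg v with ⟨h3, h4⟩ | ⟨h3, h4, h5⟩ | ⟨h3, h4, h5⟩
      · nlinarith
      · nlinarith
      · have hc : (((i - l.size - 1 : ℕ)) : ℤ) = (i : ℤ) - l.size - 1 := by omega
        have := ihr (x + (l.size + 1) * g) y (i := i - l.size - 1) (by omega)
          (by rw [hc]; linarith) (by rw [hc]; linarith)
        omega

theorem onCol_stair_key (T : BT) (x y g : ℤ) (hg : 0 < g) (v : ℤ) {i : ℕ} (hi : i < T.size)
    (h1 : 2 * (x + i * g) < v) (h2 : v < 2 * (x + (i + 1) * g)) :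
    (onCol (stair T x y g) v).length ≤ T.L i + 1 := by
  induction T generalizing x y i with
  | nil => simp at hi
  | node l r ihl ihr =>
    simp only [BT.size_node] at hi
    rcases lt_trichotomy i l.size with hlt | heq | hgt
    · have hz : (0 : ℤ) ≤ (l.size : ℤ) - 1 - i := by omega
      have hz2 : 0 ≤ ((l.size : ℤ) - 1 - i) * g := mul_nonneg hz hg.le
      rw [BT.L_left hlt]
      rcases col_cases l r x y g hg v with ⟨h3, h4⟩ | ⟨h3, h4, h5⟩ | ⟨h3, h4, h5⟩
      · nlinarith
      · nlinarith
      · have := ihl x (y + (r.size + 1) * g) hlt h1 h2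
        omega
    · subst heq
      rw [BT.L_root]
      rcases col_cases l r x y g hg v with ⟨h3, h4⟩ | ⟨h3, h4, h5⟩ | ⟨h3, h4, h5⟩
      · linarith
      · have h6 : onCol (stair r (x + (l.size + 1) * g) y g) v = [] := by
          refine onCol_eq_nil fun R hR => ?_
          have := (bounds r _ _ g hg hR).1
          left; linarith
        rw [h6] at h5
        simpa using h5
      · linarith
    · have hz : (0 : ℤ) ≤ (i : ℤ) - l.size - 1 := by omega
      have hz2 : 0 ≤ ((i : ℤ) - l.size - 1) * g := mul_nonneg hz hg.le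
      rw [BT.L_right hgt]
      have hc : (((i - l.size - 1 : ℕ)) : ℤ) = (i : ℤ) - l.size - 1 := by omega
      rcases col_cases l r x y g hg v with ⟨h3, h4⟩ | ⟨h3, h4, h5⟩ | ⟨h3, h4, h5⟩
      · rw [h4]
        refine ihr (x + (l.size + 1) * g) y (i := i - l.size - 1) (by omega) ?_ ?_ <;>
          rw [hc] <;> linarith
      · nlinarith
      · nlinarith

end Pool.Agent.Lib.MP_7d5495_lc
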