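import Pool.Agent.Lib.MP_7d5495_lc.Tiles

/-!
# The trees of the pockets
-/

set_option autoImplicit false

namespace Pool.Agent.Lib.MP_7d5495_lc

theorem treeStats_aux (n : ℕ) : ∀ {a b : ℕ}, a + b = n → 1 ≤ a → 1 ≤ b →
    ∃ T : BT, T.size + 1 = beta a b ∧ T.RH ≤ a ∧ T.bot + 1 ≤ a ∧ T.RV ≤ b ∧ T.lft + 1 ≤ b := by
  induction n using Nat.strong_induction_on with
  | _ n ih =>
    intro a b hn ha hb
    rcases Nat.lt_or_ge a 2 with h | h
    · have ha1 : a = 1 := by omega
      subst ha1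
      refine ⟨.nil, ?_, ?_, ?_, ?_, ?_⟩
      · rw [beta_one_left hb]; rfl
      · exact Nat.zero_le _
      · exact le_rfl
      · exact Nat.zero_le _
      · exact hb
    rcases Nat.lt_or_ge b 2 with h' | h'
    · have hb1 : b = 1 := by omega
      subst hb1
      refine ⟨.nil, ?_, ?_, ?_, ?_, ?_⟩
      · rw [beta_one_right ha]; rfl
      · exact Nat.zero_le _
      · exact ha
      · exact Nat.zero_le _
      · exact le_rfl
    obtain ⟨l, l1, l2, l3, l4, l5⟩ := ih (a + (b - 1)) (by omega) (a := a) (b := b - 1) rfl ha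
      (by omega)
    obtain ⟨r, r1, r2, r3, r4, r5⟩ := ih (a - 1 + b) (by omega) (a := a - 1) (b := b) rfl
      (by omega) hb
    refine ⟨.node l r, ?_, ?_, ?_, ?_, ?_⟩
    · rw [beta_rec h h', ← l1, ← r1, BT.size_node]
      omega
    · show max (BT.RH l) (max (BT.RH r + 1) (BT.bot l + 1)) ≤ a
      omega
    · show BT.bot r + 1 + 1 ≤ a
      omega
    · show max (BT.RV r) (max (BT.RV l + 1) (BT.lft r + 1)) ≤ b
      omega
    · show BT.lft l + 1 + 1 ≤ b
      omega

/-- **U1. The pocket trees.** -/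
theorem BT.exists_pocket {a b : ℕ} (ha : 2 ≤ a) (hb : 1 ≤ b) :
    ∃ T : BT, T.size = beta a b ∧ T.RH ≤ a ∧ T.bot + 1 ≤ a ∧ T.RV ≤ b := by
  induction b, hb using Nat.le_induction with
  | base =>
    refine ⟨.node .nil .nil, ?_, ?_, ?_, ?_⟩
    · rw [beta_one_right (by omega)]; rfl
    · show max (BT.RH .nil) (max (BT.RH .nil + 1) (BT.bot .nil + 1)) ≤ a
      show max 0 (max (0 + 1) (0 + 1)) ≤ a
      omega
    · show BT.bot .nil + 1 + 1 ≤ a
      show 0 + 1 + 1 ≤ a
      omega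
    · show max 0 (max (0 + 1) (0 + 1)) ≤ 1
      omega
  | succ b hb ih =>
    obtain ⟨l, l1, l2, l3, l4⟩ := ih
    obtain ⟨r, r1, r2, r3, r4, r5⟩ := treeStats_aux (a - 1 + (b + 1)) (a := a - 1) (b := b + 1) rfl
      (by omega) (by omega)
    refine ⟨.node l r, ?_, ?_, ?_, ?_⟩
    · rw [beta_rec ha (by omega), ← r1, BT.size_node, l1, Nat.add_sub_cancel]
      omega
    · show max (BT.RH l) (max (BT.RH r + 1) (BT.bot l + 1)) ≤ a
      omega
    · show BT.bot r + 1 + 1 ≤ a
      omega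
    · show max (BT.RV r) (max (BT.RV l + 1) (BT.lft r + 1)) ≤ b + 1
      omega

theorem BT.mirror_stats (T : BT) : T.mirror.RH = T.RV ∧ T.mirror.RV = T.RH ∧
    T.mirror.bot = T.lft ∧ T.mirror.lft = T.bot := by
  induction T with
  | nil => exact ⟨rfl, rfl, rfl, rfl⟩
  | node l r ihl ihr =>
    obtain ⟨l1, l2, l3, l4⟩ := ihl
    obtain ⟨r1, r2, r3, r4⟩ := ihr
    refine ⟨?_, ?_, ?_, ?_⟩
    · show max (BT.RH r.mirror) (max (BT.RH l.mirror + 1) (BT.bot r.mirror + 1)) =
        max (BT.RV r) (max (BT.RV l + 1) (BT.lft r + 1))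
      rw [r1, l1, r3]
    · show max (BT.RV l.mirror) (max (BT.RV r.mirror + 1) (BT.lft l.mirror + 1)) =
        max (BT.RH l) (max (BT.RH r + 1) (BT.bot l + 1))
      rw [r2, l2, l4]
    · show BT.bot l.mirror + 1 = BT.lft l + 1
      rw [l3]
    · show BT.lft r.mirror + 1 = BT.bot r + 1
      rw [r4]

theorem treeStats_U {l r : BT} {d : ℕ} (h : ∀ i < (BT.node l r).size, (BT.node l r).U i ≤ d) :
    (∀ i < l.size, l.U i ≤ d) ∧ (r = .nil ∨ (1 ≤ d ∧ ∀ i < r.size, r.U i ≤ d - 1)) := by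
  constructor
  · intro i hi
    have := h i (by rw [BT.size_node]; omega)
    rwa [BT.U_left hi] at this
  · have h1 : ∀ i < r.size, r.U i + 1 ≤ d := by
      intro i hi
      have := h (l.size + 1 + i) (by rw [BT.size_node]; omega)
      rw [BT.U_right (by omega)] at this
      have e : l.size + 1 + i - l.size - 1 = i := by omega
      rwa [e] at this
    cases r with
    | nil => exact Or.inl rfl
    | node l' r' =>
      right
      have h2 := h1 0 (by rw [BT.size_node]; omega)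
      refine ⟨by omega, fun i hi => ?_⟩
      have := h1 i hi
      omega

theorem treeStats_bot (T : BT) (d : ℕ) (h : ∀ i < T.size, T.U i ≤ d) : T.bot ≤ d + 1 := by
  induction T generalizing d with
  | nil => exact Nat.zero_le _
  | node l r ihl ihr =>
    obtain ⟨h1, h2⟩ := treeStats_U h
    show BT.bot r + 1 ≤ d + 1
    rcases h2 with rfl | ⟨h2, h3⟩
    · show 0 + 1 ≤ d + 1
      omega
    · have := ihr (d - 1) h3
      omega

theorem BT.RH_le (T : BT) (d : ℕ) (h : ∀ i < T.size, T.U i ≤ d) : T.RH ≤ d + 2 := by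
  induction T generalizing d with
  | nil => exact Nat.zero_le _
  | node l r ihl ihr =>
    obtain ⟨h1, h2⟩ := treeStats_U h
    have h3 := ihl d h1
    have h4 := treeStats_bot l d h1
    have h5 : BT.RH r + 1 ≤ d + 2 := by
      rcases h2 with rfl | ⟨h2, h5⟩
      · show 0 + 1 ≤ d + 2
        omega
      · have := ihr (d - 1) h5
        omega
    show max (BT.RH l) (max (BT.RH r + 1) (BT.bot l + 1)) ≤ d + 2
    omega

theorem BT.RV_le (T : BT) (d : ℕ) (h : ∀ i < T.size, T.L i ≤ d) : T.RV ≤ d + 2 := by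
  rw [← (BT.mirror_stats T).1]
  apply BT.RH_le
  intro i hi
  rw [BT.size_mirror] at hi
  have h1 := BT.U_mirror T (j := T.size - 1 - i) (by omega)
  have e : T.size - 1 - (T.size - 1 - i) = i := by omega
  rw [e] at h1
  rw [h1]
  exact h _ (by omega)

theorem exists_fill {P : Par} {κ : ℕ} (hP : P.Ok κ) {S : ℕ → BT} (hS : P.GeoSol κ S) :
    ∃ Q : Fill, FillOk P κ Q := by
  have hk := hP.k_ge
  obtain ⟨W, w1, w2, w3, w4⟩ := BT.exists_pocket (a := P.k) (b := P.k - 1) (by omega) (by omega)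
  have hE : ∀ t i, ∃ E : BT, E.size = P.h t i ∧ E.RH ≤ P.e t i ∧ E.RV ≤ P.k ∧
      E.lft + 1 ≤ P.k := by
    intro t i
    have he := hP.e_ge t i
    obtain ⟨T, t1, t2, t3, t4⟩ := BT.exists_pocket (a := P.k) (b := P.e t i) (by omega) (by omega)
    obtain ⟨m1, m2, m3, m4⟩ := BT.mirror_stats T
    refine ⟨T.mirror, ?_, ?_, ?_, ?_⟩
    · rw [BT.size_mirror, t1, beta_comm]; rfl
    · rw [m1]; exact t4
    · rw [m2]; exact t2
    · rw [m4]; exact t3
  choose E e1 e2 e3 e4 using hE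
  exact ⟨⟨S, W, E⟩, hS, by show W.size + 1 = P.w; rw [w1]; rfl, w2,
    by show W.RV + 1 ≤ P.k; omega, w3, e1, e2, e3, e4⟩

end Pool.Agent.Lib.MP_7d5495_lc
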