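import Pool.Agent.Lib.MP_7d5495_lc.StairCells
import Pool.Agent.Lib.MP_7d5495_lc.StairLines
import Pool.Agent.Lib.MP_7d5495_lc.TreeStats

/-!
# Certificates: the main columns of the last frame and the rows of the outgoing arm
-/

set_option autoImplicit false

namespace Pool.Agent.Lib.MP_7d5495_lc

namespace ColLast

theorem mem_onRow {l : List ZR} {R : ZR} {a b y : ℤ} (hR : R ∈ l) (h : R.Has a b)
    (h1 : 2 * b ≤ y) (h2 : y ≤ 2 * b + 2) : R ∈ onRow l y := by
  unfold onRow
  rw [List.mem_filter]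
  refine ⟨hR, ?_⟩
  obtain ⟨_, _, h3, h4⟩ := h
  rw [decide_eq_true_eq]
  omega

theorem mem_onCol {l : List ZR} {R : ZR} {a b x : ℤ} (hR : R ∈ l) (h : R.Has a b)
    (h1 : 2 * a ≤ x) (h2 : x ≤ 2 * a + 2) : R ∈ onCol l x := by
  unfold onCol
  rw [List.mem_filter]
  refine ⟨hR, ?_⟩
  obtain ⟨h3, h4, _, _⟩ := h
  rw [decide_eq_true_eq]
  omega

theorem of_onRow {l : List ZR} {R : ZR} {y : ℤ} (h : R ∈ onRow l y) : R ∈ l :=
  List.mem_of_mem_filter h

theorem of_onCol {l : List ZR} {R : ZR} {x : ℤ} (h : R ∈ onCol l x) : R ∈ l :=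
  List.mem_of_mem_filter h

/-- rows of a reflected list -/
theorem onRow_flipY (l : List ZR) (c y : ℤ) :
    onRow (l.map (ZR.flipY c)) y = (onRow l (2 * c - y)).map (ZR.flipY c) := by
  unfold onRow
  rw [List.filter_map]
  congr 1
  refine List.filter_congr fun R _ => ?_
  simp only [Function.comp, ZR.flipY, decide_eq_decide]
  constructor <;> rintro ⟨h1, h2⟩ <;> constructor <;> linarith

variable {P : Par} {κ : ℕ} {cell : ℕ → ℤ → ℤ → Prop} {Q : Fill}

/-- the cells of the macro column `i` of the corner are owned by the tiles of the corner -/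
theorem corner_own (hQ : FillOk P κ Q) {t : ℕ} (ht : t < P.N) {i : ℕ} (hi : i < P.m) {a b : ℤ}
    (h1 : P.X i - P.D ≤ a) (h2 : a < P.X i) (h3 : (P.D : ℤ) ≤ b) (h4 : b < P.Y i) :
    ∃ R ∈ P.sC (Q.S t), R.Has a b := by
  have hD := Par.D_pos (P := P)
  unfold Par.sC
  rw [stair_has _ _ _ _ hD, hQ.sol.1.1 t ht]
  have hX : P.X i = ((i : ℤ) + 2) * P.D := rfl
  have hY : P.Y i = ((P.m : ℤ) + 1 - i) * P.D := rfl
  refine ⟨?_, h3, ?_⟩
  · have : (0 : ℤ) ≤ i * P.D := by positivity
    nlinarith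
  · have e1 : (a - P.D) / P.D < (i : ℤ) + 1 := by
      rw [Int.ediv_lt_iff_lt_mul hD]; nlinarith
    have e2 : (b - P.D) / P.D < (P.m : ℤ) - i := by
      rw [Int.ediv_lt_iff_lt_mul hD]; nlinarith
    omega

/-- the cell on top of the macro column `i` of the corner -/
theorem top_barrier (hP : P.Ok κ) (hz : Zones P cell) {t : ℕ} (ht : t < P.N) {i : ℕ}
    (hi : i < P.m) {a : ℤ} (h1 : P.X i - P.D ≤ a) (h2 : a < P.X i) : ¬ cell t a (P.Y i) := by
  have hD := Par.D_pos (P := P)
  have hΔ := Par.Δ_eq (P := P)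
  have hY1 := Par.Y_le (P := P) i
  have hY2 := Par.le_Y hi
  rcases i with _ | j
  · rw [Par.X_zero] at h1 h2
    rw [hz.first t ht a _ (by omega) h2 (by omega) (by omega), Par.Y_zero]
    omega
  · rw [Par.X_succ] at h1 h2
    rw [hz.fing t ht j (by omega) a _ (by omega) (by omega) (by omega) (by omega), Par.Y_succ]
    have h3 := hP.h_lt t j
    have h4 := Par.D_eq (P := P)
    omega

end ColLast

open ColLast

section certs

variable {P : Par} {κ : ℕ} (hP : P.Ok κ) {cell : ℕ → ℤ → ℤ → Prop} (hz : Zones P cell)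
  {Q : Fill} (hQ : FillOk P κ Q)

include hP hz hQ

theorem colLast {i : ℕ} (hi : i < P.m) {x : ℤ} (h1 : 2 * (P.X i - P.D) < x) (h2 : x < 2 * P.X i) :
    ColCert P Q cell (P.N - 1) x 0 (P.Y i) := by
  have hN := hP.N_pos
  have ht : P.N - 1 < P.N := by omega
  have ht' : P.N - 1 + 1 = P.N := by omega
  have hD := Par.D_pos (P := P)
  have hDe := Par.D_eq (P := P)
  have hΔ := Par.Δ_eq (P := P)
  have hX1 := Par.X_le hi
  have hX2 := Par.le_X (P := P) i
  have hk := hP.k_ge
  have hkey : (onCol (P.sC (Q.S (P.N - 1))) x).length ≤ (Q.S (P.N - 1)).L i + 1 := by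
    refine onCol_stair_key _ _ _ _ hD x ?_ ?_ ?_
    · rw [hQ.sol.1.1 _ ht]; exact hi
    · have : P.X i = ((i : ℤ) + 2) * P.D := rfl
      nlinarith
    · have : P.X i = ((i : ℤ) + 2) * P.D := rfl
      nlinarith
  have hL := (hQ.sol.2 _ ht i hi).1
  refine ⟨onCol (P.sC (Q.S (P.N - 1))) x ++ [P.tOW, P.tEnd], ?_, ?_, ?_, ?_, ?_⟩
  · rw [List.length_append]; simp only [List.length_cons, List.length_nil]; omega
  · intro R hR
    rw [List.mem_append, List.mem_cons, List.mem_cons] at hR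
    rcases hR with hR | rfl | rfl | hR
    · exact tile_of_frame ht (sC_mem (of_onCol hR))
    · exact tile_of_frame ht tOW_mem
    · exact tile_of_frame ht (tEnd_mem ht')
    · simp at hR
  · intro a b hb1 hb2 ha1 ha2 _
    have ha3 : P.X i - P.D ≤ a := by omega
    have ha4 : a < P.X i := by omega
    rcases le_or_gt (P.D : ℤ) b with hb | hb
    · obtain ⟨R, hR, hRh⟩ := corner_own hQ ht hi ha3 ha4 hb hb2
      exact ⟨R, List.mem_append_left _ (mem_onCol hR hRh ha1 ha2), hRh⟩
    · rcases le_or_gt ((P.D : ℤ) - P.w) b with hb' | hb'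
      · exact ⟨P.tOW, by simp, by simp only [ZR.Has, Par.tOW]; omega⟩
      · exact ⟨P.tEnd, by simp, by simp only [ZR.Has, Par.tEnd]; omega⟩
  · exact ⟨x / 2, by omega, by omega, hz.stop _ (by omega) (by omega)⟩
  · exact ⟨x / 2, by omega, by omega, top_barrier hP hz ht hi (by omega) (by omega)⟩

theorem colLast_border {i : ℕ} (hi : i + 1 < P.m) :
    ColCert P Q cell (P.N - 1) (2 * P.X i) 0 (P.Y (i + 1)) := by
  have hN := hP.N_pos
  have ht : P.N - 1 < P.N := by omega
  have ht' : P.N - 1 + 1 = P.N := by omega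
  have hD := Par.D_pos (P := P)
  have hDe := Par.D_eq (P := P)
  have hΔ := Par.Δ_eq (P := P)
  have hX1 := Par.X_le (P := P) (i := i + 1) hi
  have hX2 := Par.le_X (P := P) i
  have hX3 := Par.X_succ (P := P) i
  have hY3 := Par.Y_succ (P := P) i
  have hk := hP.k_ge
  have hkey : (onCol (P.sC (Q.S (P.N - 1))) (2 * P.X i)).length ≤ κ + 2 :=
    (onCol_stair _ _ _ _ hD _).trans (BT.RV_le _ _ fun j hj =>
      (hQ.sol.2 _ ht j (by rwa [hQ.sol.1.1 _ ht] at hj)).1)
  refine ⟨onCol (P.sC (Q.S (P.N - 1))) (2 * P.X i) ++ [P.tOW, P.tEnd], ?_, ?_, ?_, ?_, ?_⟩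
  · rw [List.length_append]; simp only [List.length_cons, List.length_nil]; omega
  · intro R hR
    rw [List.mem_append, List.mem_cons, List.mem_cons] at hR
    rcases hR with hR | rfl | rfl | hR
    · exact tile_of_frame ht (sC_mem (of_onCol hR))
    · exact tile_of_frame ht tOW_mem
    · exact tile_of_frame ht (tEnd_mem ht')
    · simp at hR
  · intro a b hb1 hb2 ha1 ha2 _
    rcases le_or_gt (P.D : ℤ) b with hb | hb
    · have : ∃ R ∈ P.sC (Q.S (P.N - 1)), R.Has a b := by
        rcases lt_or_ge a (P.X i) with ha | ha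
        · exact corner_own hQ ht (i := i) (by omega) (by omega) ha hb (by omega)
        · exact corner_own hQ ht (i := i + 1) hi (by omega) (by omega) hb hb2
      obtain ⟨R, hR, hRh⟩ := this
      exact ⟨R, List.mem_append_left _ (mem_onCol hR hRh ha1 ha2), hRh⟩
    · rcases le_or_gt ((P.D : ℤ) - P.w) b with hb' | hb'
      · exact ⟨P.tOW, by simp, by simp only [ZR.Has, Par.tOW]; omega⟩
      · exact ⟨P.tEnd, by simp, by simp only [ZR.Has, Par.tEnd]; omega⟩
  · exact ⟨P.X i, by omega, by omega, hz.stop _ (by omega) (by omega)⟩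
  · exact ⟨P.X i, by omega, by omega, top_barrier hP hz ht hi (by omega) (by omega)⟩

theorem row_outLow {t : ℕ} (ht : t < P.N) {y : ℤ} (h1 : 0 ≤ y) (h2 : y ≤ 2 * ((P.D : ℤ) - P.w)) :
    RowCert P Q cell t y P.D (P.D + P.B) := by
  have hD := Par.D_pos (P := P)
  have hDe := Par.D_eq (P := P)
  have hΔ := Par.Δ_eq (P := P)
  have hB := Par.D_le_B hP.m_pos
  have hw := hP.w_ge
  have hk := hP.k_ge
  -- the tile below the outgoing wall
  obtain ⟨T, hT, hTh⟩ : ∃ T : ZR, P.tile Q t T ∧ ∀ a b : ℤ, (P.D : ℤ) ≤ a → a < P.D + P.B →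
      -1 ≤ b → b < P.D - P.w → cell t a b → T.Has a b := by
    rcases Nat.lt_or_ge (t + 1) P.N with h | h
    · refine ⟨(P.tM (t + 1)).unrot (P.lam (t + 1)), ?_, ?_⟩
      · exact tile_succ.1 (tile_of_frame h tM_mem)
      · intro a b ha1 ha2 hb1 hb2 _
        simp only [ZR.Has, ZR.unrot, Par.tM, if_neg (Nat.succ_ne_zero t)]
        omega
    · have ht' : t + 1 = P.N := by omega
      refine ⟨P.tEnd, tile_of_frame ht (tEnd_mem ht'), ?_⟩
      intro a b ha1 ha2 hb1 hb2 hc
      simp only [ZR.Has, Par.tEnd]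
      rcases eq_or_lt_of_le hb1 with hb | hb
      · exfalso
        have e : t = P.N - 1 := by omega
        rw [← hb, e] at hc
        exact hz.stop a (by omega) (by omega) hc
      · omega
  refine ⟨[T, P.tOW], ?_, ?_, ?_, ?_, ?_⟩
  · simp only [List.length_cons, List.length_nil]; omega
  · intro R hR
    rw [List.mem_cons, List.mem_cons] at hR
    rcases hR with rfl | rfl | hR
    · exact hT
    · exact tile_of_frame ht tOW_mem
    · simp at hR
  · intro a b ha1 ha2 hb1 hb2 hc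
    rcases lt_or_ge b (P.D - P.w) with hb | hb
    · exact ⟨T, by simp, hTh a b ha1 ha2 (by omega) hb hc⟩
    · exact ⟨P.tOW, by simp, by simp only [ZR.Has, Par.tOW]; omega⟩
  · refine ⟨y / 2, by omega, by omega, ?_⟩
    rw [hz.arm t ht _ _ (by omega) (by omega) (by omega) (by omega)]
    omega
  · rcases eq_or_lt_of_le h1 with hy | hy
    · refine ⟨0, by omega, by omega, ?_⟩
      rw [hz.out t ht _ _ (by omega) (by omega) (by omega) (by omega)]
      omega
    · refine ⟨(y - 1) / 2, by omega, by omega, ?_⟩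
      rw [hz.out t ht _ _ (by omega) (by omega) (by omega) (by omega)]
      omega

theorem row_outHigh {t : ℕ} (ht : t < P.N) {y : ℤ} (h1 : 2 * ((P.D : ℤ) - P.w) < y)
    (h2 : y < 2 * P.D) :
    RowCert P Q cell t y P.D (P.D + P.B + (P.w - (P.D - 1 - (y - 1) / 2))) := by
  have hD := Par.D_pos (P := P)
  have hDe := Par.D_eq (P := P)
  have hΔ := Par.Δ_eq (P := P)
  have hB := Par.D_le_B hP.m_pos
  have hw := hP.w_ge
  have hk := hP.k_ge
  have hW := hQ.W_size
  have hlen : (onRow (P.sOT Q.W) y).length ≤ Q.W.RV := by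
    unfold Par.sOT
    rw [onRow_flipY, List.length_map, ← (BT.mirror_stats Q.W).1]
    exact onRow_stair _ _ _ _ one_pos _
  refine ⟨P.tOW :: onRow (P.sOT Q.W) y, ?_, ?_, ?_, ?_, ?_⟩
  · rw [List.length_cons]
    have := hQ.W_RV
    omega
  · intro R hR
    rw [List.mem_cons] at hR
    rcases hR with rfl | hR
    · exact tile_of_frame ht tOW_mem
    · exact tile_of_frame ht (sOT_mem (of_onRow hR))
  · intro a b ha1 ha2 hb1 hb2 hc
    have hb3 : (P.D : ℤ) - P.w ≤ b := by omega
    have hb4 : b < P.D := by omega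
    rcases lt_or_ge a ((P.D : ℤ) + P.B + 1) with ha | ha
    · exact ⟨P.tOW, by simp, by simp only [ZR.Has, Par.tOW]; omega⟩
    · rw [hz.out t ht _ _ (by omega) (by omega) (by omega) (by omega)] at hc
      obtain ⟨R, hR, hRh⟩ := (stair_has Q.W.mirror ((P.D : ℤ) + P.B + 1) 0 1 one_pos a
        (P.D - 1 - b)).2 ⟨by omega, by omega, by
          rw [BT.size_mirror]; simp only [Int.ediv_one]; omega⟩
      have hRh' : (ZR.flipY P.D R).Has a b := by
        obtain ⟨g1, g2, g3, g4⟩ := hRh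
        simp only [ZR.Has, ZR.flipY]
        omega
      refine ⟨ZR.flipY P.D R, List.mem_cons_of_mem _ (mem_onRow ?_ hRh' hb1 hb2), hRh'⟩
      exact List.mem_map_of_mem hR
  · refine ⟨y / 2, by omega, by omega, ?_⟩
    rw [hz.arm t ht _ _ (by omega) (by omega) (by omega) (by omega)]
    omega
  · refine ⟨(y - 1) / 2, by omega, by omega, ?_⟩
    rw [hz.out t ht _ _ (by omega) (by omega) (by omega) (by omega)]
    omega

theorem row_outTop {t : ℕ} (ht : t < P.N) : RowCert P Q cell t (2 * P.D) P.D (P.D + P.B) := by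
  have hD := Par.D_pos (P := P)
  have hDe := Par.D_eq (P := P)
  have hΔ := Par.Δ_eq (P := P)
  have hB := Par.D_le_B hP.m_pos
  have hw := hP.w_ge
  have hk := hP.k_ge
  have hm := hP.m_pos
  have hlen : (onRow (P.sC (Q.S t)) (2 * P.D)).length ≤ κ + 2 :=
    (onRow_stair _ _ _ _ hD _).trans (BT.RH_le _ _ fun j hj =>
      (hQ.sol.2 _ ht j (by rwa [hQ.sol.1.1 _ ht] at hj)).2)
  refine ⟨P.tOW :: onRow (P.sC (Q.S t)) (2 * P.D), ?_, ?_, ?_, ?_, ?_⟩
  · rw [List.length_cons]; omega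
  · intro R hR
    rw [List.mem_cons] at hR
    rcases hR with rfl | hR
    · exact tile_of_frame ht tOW_mem
    · exact tile_of_frame ht (sC_mem (of_onRow hR))
  · intro a b ha1 ha2 hb1 hb2 hc
    rcases lt_or_ge b P.D with hb | hb
    · exact ⟨P.tOW, by simp, by simp only [ZR.Has, Par.tOW]; omega⟩
    · obtain ⟨i, hi, hi1, hi2⟩ := Par.exists_X' ha1 ha2
      have hY := Par.le_Y hi
      obtain ⟨R, hR, hRh⟩ := corner_own hQ ht hi hi1 hi2 hb (by omega)
      exact ⟨R, List.mem_cons_of_mem _ (mem_onRow hR hRh hb1 hb2), hRh⟩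
  · refine ⟨P.D - 1, by omega, by omega, ?_⟩
    rw [hz.arm t ht _ _ (by omega) (by omega) (by omega) (by omega)]
    omega
  · refine ⟨P.D, by omega, by omega, ?_⟩
    have hX := Par.X_last (P := P) hm
    have hY : P.Y (P.m - 1) = 2 * P.D := by
      have := Par.Y_rev (P := P) (i := 0) (by omega)
      rw [Nat.sub_zero] at this
      rw [this, Par.X_zero]
    have hh := hP.h_lt t (P.m - 1)
    rw [hz.fing t ht (P.m - 1) (by omega) _ _ (by omega) (by omega) (by omega) (by omega), hY]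
    omega

end certs

end Pool.Agent.Lib.MP_7d5495_lc
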