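import Pool.Agent.Lib.MP_7d5495_lc.StairCells
import Pool.Agent.Lib.MP_7d5495_lc.StairLines
import Pool.Agent.Lib.MP_7d5495_lc.TreeStats

/-!
# Local columns: certificates for the vertical lines in the outgoing pocket and in the fingers
-/

set_option autoImplicit false

namespace Pool.Agent.Lib.MP_7d5495_lc

open Set

namespace ColLocal

theorem mem_onCol {l : List ZR} {R : ZR} {v a b : ℤ} (hR : R ∈ l) (h : R.Has a b)
    (h1 : 2 * a ≤ v) (h2 : v ≤ 2 * a + 2) : R ∈ onCol l v := by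
  unfold onCol
  rw [List.mem_filter, decide_eq_true_eq]
  obtain ⟨e1, e2, e3, e4⟩ := h
  exact ⟨hR, by omega, by omega⟩

theorem of_onCol {l : List ZR} {R : ZR} {v : ℤ} (h : R ∈ onCol l v) : R ∈ l := by
  unfold onCol at h
  exact (List.mem_filter.1 h).1

theorem stair_has_one (T : BT) (x y a b : ℤ) :
    (∃ R ∈ stair T x y 1, R.Has a b) ↔ x ≤ a ∧ y ≤ b ∧ (a - x) + (b - y) < T.size := by
  rw [stair_has T x y 1 one_pos a b, Int.ediv_one, Int.ediv_one]

end ColLocal

section certs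

variable {P : Par} {κ : ℕ} (hP : P.Ok κ) {cell : ℕ → ℤ → ℤ → Prop} (hz : Zones P cell)
  {Q : Fill} (hQ : FillOk P κ Q)

include hP hz hQ

theorem col_outPocket {t : ℕ} (ht : t < P.N) {x : ℤ} (h1 : 2 * ((P.D : ℤ) + P.B) ≤ x)
    (h2 : x < 2 * (P.D + P.B + P.w)) :
    ColCert P Q cell t x (P.D - P.w + (x / 2 - (P.D + P.B))) P.D := by
  have hD := P.D_eq
  have hΔ := P.Δ_eq
  have hw := hP.w_ge
  have hDB := P.D_le_B hP.m_pos
  have hm := hP.m_pos
  have hWs := hQ.W_size
  have hk := hP.k_ge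
  obtain ⟨j, hj⟩ : ∃ j : ℤ, x / 2 = P.D + P.B + j := ⟨x / 2 - (P.D + P.B), by ring⟩
  have hj0 : 0 ≤ j := by omega
  have hjw : j < P.w := by omega
  have hB1 : (P.D : ℤ) - P.w + (x / 2 - (P.D + P.B)) = P.D - P.w + j := by rw [hj]; ring
  rw [hB1]
  obtain ⟨m1, m2, m3, m4⟩ := BT.mirror_stats Q.W
  refine ⟨(if x ≤ 2 * ((P.D : ℤ) + P.B + 1) then [P.tOW] else []) ++
    (onCol (stair Q.W.mirror (P.D + P.B + 1) 0 1) x).map (ZR.flipY P.D), ?_, ?_, ?_, ?_, ?_⟩
  · rw [List.length_append, List.length_map]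
    split_ifs with hx
    · have := onCol_stair_lft Q.W.mirror ((P.D : ℤ) + P.B + 1) 0 1 one_pos x hx
      have h3 := hQ.W_bot
      simp only [List.length_cons, List.length_nil]
      omega
    · have := onCol_stair Q.W.mirror ((P.D : ℤ) + P.B + 1) 0 1 one_pos x
      have h3 := hQ.W_RH
      simp only [List.length_nil]
      omega
  · intro R hR
    rw [List.mem_append] at hR
    rcases hR with hR | hR
    · split_ifs at hR with hx
      · rw [List.mem_singleton] at hR
        rw [hR]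
        exact tile_of_frame ht tOW_mem
      · simp at hR
    · obtain ⟨R', hR', rfl⟩ := List.mem_map.1 hR
      refine tile_of_frame ht (sOT_mem ?_)
      exact List.mem_map.2 ⟨R', ColLocal.of_onCol hR', rfl⟩
  · intro a b hb1 hb2 ha1 ha2 hc
    by_cases hab : a < P.D + P.B + 1
    · refine ⟨P.tOW, ?_, ?_⟩
      · rw [List.mem_append]
        left
        rw [if_pos (by omega)]
        exact List.mem_singleton.2 rfl
      · show (P.D : ℤ) ≤ a ∧ a < P.D + P.B + 1 ∧ (P.D : ℤ) - P.w ≤ b ∧ b < P.D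
        omega
    · rw [hz.out t ht a b (by omega) (by omega) (by omega) (by omega)] at hc
      have hc' : (a - (P.D + P.B)) + (P.D - 1 - b) < P.w := by
        rcases hc with hc | hc
        · omega
        · exact hc
      obtain ⟨R, hR, hRh⟩ := (ColLocal.stair_has_one Q.W.mirror (P.D + P.B + 1) 0 a
        (P.D - 1 - b)).2 ⟨by omega, by omega, by rw [BT.size_mirror]; omega⟩
      refine ⟨R.flipY P.D, ?_, ?_⟩
      · rw [List.mem_append]
        right
        exact List.mem_map.2 ⟨R, ColLocal.mem_onCol hR hRh ha1 ha2, rfl⟩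
      · obtain ⟨e1, e2, e3, e4⟩ := hRh
        show R.x₁ ≤ a ∧ a < R.x₂ ∧ P.D - R.y₂ ≤ b ∧ b < P.D - R.y₁
        omega
  · refine ⟨x / 2, by omega, by omega, ?_⟩
    rw [hz.out t ht _ _ (by omega) (by omega) (by omega) (by omega)]
    omega
  · refine ⟨x / 2, by omega, by omega, ?_⟩
    have hX := P.X_last hm
    have hXY := P.X_add_Y (P.m - 1)
    have hh := hP.h_lt t (P.m - 1)
    rw [hz.fing t ht (P.m - 1) (by omega) _ _ (by omega) (by omega) (by omega) (by omega)]
    omega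

theorem col_fingLeft {t : ℕ} (ht : t < P.N) {i : ℕ} (hi : i < P.m) :
    ColCert P Q cell t (2 * P.X i) (P.Y i - P.h t i) (P.Y i) := by
  have hD := P.D_eq
  have hΔ := P.Δ_eq
  have hw := hP.w_ge
  have hm := hP.m_pos
  have hk := hP.k_ge
  have hX1 := P.X_le hi
  have hX2 := P.le_X i
  have hY1 := P.le_Y hi
  have hY2 := P.Y_le i
  have hXY := P.X_add_Y i
  have hh := hP.h_lt t i
  have hDB := P.D_le_B hP.m_pos
  refine ⟨P.tFW t i :: onCol (P.sC (Q.S t)) (2 * P.X i), ?_, ?_, ?_, ?_, ?_⟩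
  · have e1 := onCol_stair (Q.S t) P.D P.D P.D P.D_pos (2 * P.X i)
    have e2 := BT.RV_le (Q.S t) κ (fun j hj => (hQ.sol.2 t ht j (by
      rw [← hQ.sol.1.1 t ht]; exact hj)).1)
    rw [List.length_cons]
    show (onCol (stair (Q.S t) P.D P.D P.D) (2 * P.X i)).length + 1 ≤ P.k
    omega
  · intro R hR
    rw [List.mem_cons] at hR
    rcases hR with rfl | hR
    · exact tile_of_frame ht (tFW_mem hi)
    · exact tile_of_frame ht (sC_mem (ColLocal.of_onCol hR))
  · intro a b hb1 hb2 ha1 ha2 hc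
    by_cases hab : P.X i ≤ a
    · refine ⟨P.tFW t i, List.mem_cons_self, ?_⟩
      show P.X i ≤ a ∧ a < P.X i + P.w ∧ P.Y i - P.h t i ≤ b ∧ b < P.Y i + 1
      omega
    · have ha : a = P.X i - 1 := by omega
      have hsize := hQ.sol.1.1 t ht
      have f1 : (a - P.D) / P.D = i := by
        have hu : a - P.D = (i : ℤ) * P.D + (P.D - 1) := by
          rw [ha]; unfold Par.X; ring
        rw [hu, add_comm, Int.add_mul_ediv_right _ _ P.D_pos.ne',
          Int.ediv_eq_zero_of_lt (by omega) (by omega)]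
        ring
      have f2 : (b - P.D) / P.D = P.m - 1 - i := by
        have hu : b - P.D = ((P.m : ℤ) - 1 - i) * P.D + (b - (P.Y i - P.D)) := by
          unfold Par.Y; ring
        rw [hu, add_comm, Int.add_mul_ediv_right _ _ P.D_pos.ne',
          Int.ediv_eq_zero_of_lt (by omega) (by omega)]
        ring
      obtain ⟨R, hR, hRh⟩ := (stair_has (Q.S t) P.D P.D P.D P.D_pos a b).2
        ⟨by omega, by omega, by rw [f1, f2, hsize]; omega⟩
      exact ⟨R, List.mem_cons_of_mem _ (ColLocal.mem_onCol hR hRh ha1 ha2), hRh⟩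
  · refine ⟨P.X i, by omega, by omega, ?_⟩
    rw [hz.fing t ht i hi _ _ (by omega) (by omega) (by omega) (by omega)]
    omega
  · refine ⟨P.X i - 1, by omega, by omega, ?_⟩
    rcases Nat.eq_zero_or_pos i with h0 | h0
    · subst h0
      have hX0 := P.X_zero
      have hY0 := P.Y_zero
      rw [hz.first t ht _ _ (by omega) (by omega) (by omega) (by omega)]
      omega
    · obtain ⟨j, rfl⟩ : ∃ j, i = j + 1 := ⟨i - 1, by omega⟩
      have e1 := P.X_succ j
      have e2 := P.Y_succ j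
      have e3 := hP.h_lt t j
      rw [hz.fing t ht j (by omega) _ _ (by omega) (by omega) (by omega) (by omega)]
      omega

theorem col_fingWall {t : ℕ} (ht : t < P.N) {i : ℕ} (hi : i < P.m) {x : ℤ}
    (h1 : 2 * P.X i < x) (h2 : x ≤ 2 * (P.X i + P.w)) :
    ColCert P Q cell t x (P.Y i - P.h t i) (P.Y i + (P.w - (x / 2 - P.X i))) := by
  have hD := P.D_eq
  have hΔ := P.Δ_eq
  have hw := hP.w_ge
  have hm := hP.m_pos
  have hk := hP.k_ge
  have hX1 := P.X_le hi
  have hX2 := P.le_X i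
  have hY1 := P.le_Y hi
  have hY2 := P.Y_le i
  have hXY := P.X_add_Y i
  have hh := hP.h_lt t i
  have hDB := P.D_le_B hP.m_pos
  have hWs := hQ.W_size
  obtain ⟨c, hc⟩ : ∃ c : ℤ, x / 2 = P.X i + c := ⟨x / 2 - P.X i, by ring⟩
  have hc0 : 0 ≤ c := by omega
  have hcw : c ≤ P.w := by omega
  have hB : P.Y i + (P.w - (x / 2 - P.X i)) = P.Y i + (P.w - c) := by rw [hc]; ring
  rw [hB]
  have bar1 : ∃ a : ℤ, 2 * a ≤ x ∧ x ≤ 2 * a + 2 ∧ ¬ cell t a (P.Y i - P.h t i - 1) := by
    refine ⟨x / 2, by omega, by omega, ?_⟩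
    rw [hz.fing t ht i hi _ _ (by omega) (by omega) (by omega) (by omega)]
    omega
  have bar2 : ∃ a : ℤ, 2 * a ≤ x ∧ x ≤ 2 * a + 2 ∧ ¬ cell t a (P.Y i + (P.w - c)) := by
    refine ⟨x / 2, by omega, by omega, ?_⟩
    rw [hz.fing t ht i hi _ _ (by omega) (by omega) (by omega) (by omega)]
    omega
  by_cases hx : x = 2 * (P.X i + P.w)
  · have hcw' : c = P.w := by omega
    refine ⟨P.tFW t i :: onCol (P.sFE (Q.E t i) t i) x, ?_, ?_, ?_, bar1, bar2⟩
    · have e1 := onCol_stair_lft (Q.E t i) (P.X i + P.w) (P.Y i - P.h t i) 1 one_pos x (by omega)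
      have e2 := hQ.E_lft t i
      rw [List.length_cons]
      show (onCol (stair (Q.E t i) (P.X i + P.w) (P.Y i - P.h t i) 1) x).length + 1 ≤ P.k
      omega
    · intro R hR
      rw [List.mem_cons] at hR
      rcases hR with rfl | hR
      · exact tile_of_frame ht (tFW_mem hi)
      · exact tile_of_frame ht (sFE_mem hi (ColLocal.of_onCol hR))
    · intro a b hb1 hb2 ha1 ha2 hcell
      by_cases hab : a < P.X i + P.w
      · refine ⟨P.tFW t i, List.mem_cons_self, ?_⟩
        show P.X i ≤ a ∧ a < P.X i + P.w ∧ P.Y i - P.h t i ≤ b ∧ b < P.Y i + 1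
        omega
      · rw [hz.fing t ht i hi _ _ (by omega) (by omega) (by omega) (by omega)] at hcell
        have hEs := hQ.E_size t i
        obtain ⟨R, hR, hRh⟩ := (ColLocal.stair_has_one (Q.E t i) (P.X i + P.w)
          (P.Y i - P.h t i) a b).2 ⟨by omega, by omega, by rw [hEs]; omega⟩
        exact ⟨R, List.mem_cons_of_mem _ (ColLocal.mem_onCol hR hRh ha1 ha2), hRh⟩
  · refine ⟨P.tFW t i :: onCol (P.sFT Q.W i) x, ?_, ?_, ?_, bar1, bar2⟩
    · have e1 := onCol_stair Q.W (P.X i) (P.Y i + 1) 1 one_pos x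
      have e2 := hQ.W_RV
      rw [List.length_cons]
      show (onCol (stair Q.W (P.X i) (P.Y i + 1) 1) x).length + 1 ≤ P.k
      omega
    · intro R hR
      rw [List.mem_cons] at hR
      rcases hR with rfl | hR
      · exact tile_of_frame ht (tFW_mem hi)
      · exact tile_of_frame ht (sFT_mem hi (ColLocal.of_onCol hR))
    · intro a b hb1 hb2 ha1 ha2 hcell
      by_cases hab : b < P.Y i + 1
      · refine ⟨P.tFW t i, List.mem_cons_self, ?_⟩
        show P.X i ≤ a ∧ a < P.X i + P.w ∧ P.Y i - P.h t i ≤ b ∧ b < P.Y i + 1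
        omega
      · rw [hz.fing t ht i hi _ _ (by omega) (by omega) (by omega) (by omega)] at hcell
        obtain ⟨R, hR, hRh⟩ := (ColLocal.stair_has_one Q.W (P.X i) (P.Y i + 1) a b).2
          ⟨by omega, by omega, by omega⟩
        exact ⟨R, List.mem_cons_of_mem _ (ColLocal.mem_onCol hR hRh ha1 ha2), hRh⟩

theorem col_fingEnd {t : ℕ} (ht : t < P.N) {i : ℕ} (hi : i < P.m) {x : ℤ}
    (h1 : 2 * (P.X i + P.w) < x) (h2 : x < 2 * (P.X i + P.w + P.h t i)) :
    ColCert P Q cell t x (P.Y i - P.h t i)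
      (P.Y i - P.h t i + (P.h t i - (x / 2 - (P.X i + P.w)))) := by
  have hD := P.D_eq
  have hΔ := P.Δ_eq
  have hw := hP.w_ge
  have hm := hP.m_pos
  have hk := hP.k_ge
  have hX1 := P.X_le hi
  have hX2 := P.le_X i
  have hY1 := P.le_Y hi
  have hY2 := P.Y_le i
  have hXY := P.X_add_Y i
  have hh := hP.h_lt t i
  have hDB := P.D_le_B hP.m_pos
  have hEs := hQ.E_size t i
  obtain ⟨c, hc⟩ : ∃ c : ℤ, x / 2 = P.X i + P.w + c := ⟨x / 2 - (P.X i + P.w), by ring⟩
  have hc0 : 0 ≤ c := by omega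
  have hcw : c < P.h t i := by omega
  have hB : P.Y i - P.h t i + (P.h t i - (x / 2 - (P.X i + P.w))) = P.Y i - c := by rw [hc]; ring
  rw [hB]
  refine ⟨onCol (P.sFE (Q.E t i) t i) x, ?_, ?_, ?_, ?_, ?_⟩
  · have e1 := onCol_stair (Q.E t i) (P.X i + P.w) (P.Y i - P.h t i) 1 one_pos x
    exact e1.trans (hQ.E_RV t i)
  · intro R hR
    exact tile_of_frame ht (sFE_mem hi (ColLocal.of_onCol hR))
  · intro a b hb1 hb2 ha1 ha2 hcell
    rw [hz.fing t ht i hi _ _ (by omega) (by omega) (by omega) (by omega)] at hcell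
    obtain ⟨R, hR, hRh⟩ := (ColLocal.stair_has_one (Q.E t i) (P.X i + P.w)
      (P.Y i - P.h t i) a b).2 ⟨by omega, by omega, by rw [hEs]; omega⟩
    exact ⟨R, ColLocal.mem_onCol hR hRh ha1 ha2, hRh⟩
  · refine ⟨x / 2, by omega, by omega, ?_⟩
    rw [hz.fing t ht i hi _ _ (by omega) (by omega) (by omega) (by omega)]
    omega
  · refine ⟨x / 2, by omega, by omega, ?_⟩
    rw [hz.fing t ht i hi _ _ (by omega) (by omega) (by omega) (by omega)]
    omega

end certs

end Pool.Agent.Lib.MP_7d5495_lc
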