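import Pool.Agent.Lib.MP_7d5495_lc.StairLines
import Pool.Agent.Lib.MP_7d5495_lc.TreeStats

/-!
# Certificates for local rows and columns (arm, in-pocket, finger pockets)
-/

namespace Pool.Agent.Lib.MP_7d5495_lc

namespace RowLocal

theorem has_flipX {c a b : ℤ} {R : ZR} : (R.flipX c).Has a b ↔ R.Has (c - 1 - a) b := by
  unfold ZR.Has ZR.flipX
  constructor <;> rintro ⟨h1, h2, h3, h4⟩ <;> refine ⟨?_, ?_, h3, h4⟩ <;> simp only at * <;> omega

theorem onRow_flipX (c : ℤ) (l : List ZR) (v : ℤ) :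
    onRow (l.map (ZR.flipX c)) v = (onRow l v).map (ZR.flipX c) := by
  unfold onRow
  rw [List.filter_map]
  rfl

theorem onCol_flipX (c : ℤ) (l : List ZR) (v : ℤ) :
    onCol (l.map (ZR.flipX c)) v = (onCol l (2 * c - v)).map (ZR.flipX c) := by
  unfold onCol
  rw [List.filter_map]
  congr 1
  refine List.filter_congr fun R _ => ?_
  simp only [Function.comp, ZR.flipX]
  congr 1
  simp only [eq_iff_iff]
  constructor <;> rintro ⟨h1, h2⟩ <;> constructor <;> omega

theorem mem_onRow {l : List ZR} {v : ℤ} {R : ZR} (hR : R ∈ l) {a b : ℤ} (h : R.Has a b)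
    (h1 : 2 * b ≤ v) (h2 : v ≤ 2 * b + 2) : R ∈ onRow l v := by
  unfold onRow
  rw [List.mem_filter]
  refine ⟨hR, ?_⟩
  simp only [decide_eq_true_eq]
  obtain ⟨_, _, h3, h4⟩ := h
  constructor <;> omega

theorem mem_onCol {l : List ZR} {v : ℤ} {R : ZR} (hR : R ∈ l) {a b : ℤ} (h : R.Has a b)
    (h1 : 2 * a ≤ v) (h2 : v ≤ 2 * a + 2) : R ∈ onCol l v := by
  unfold onCol
  rw [List.mem_filter]
  refine ⟨hR, ?_⟩
  simp only [decide_eq_true_eq]
  obtain ⟨h3, h4, _, _⟩ := h
  constructor <;> omega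

theorem onRow_sub {l : List ZR} {v : ℤ} {R : ZR} (h : R ∈ onRow l v) : R ∈ l :=
  List.mem_of_mem_filter h

theorem onCol_sub {l : List ZR} {v : ℤ} {R : ZR} (h : R ∈ onCol l v) : R ∈ l :=
  List.mem_of_mem_filter h

variable {P : Par} {κ : ℕ} {Q : Fill}

theorem sIT_has (hQ : FillOk P κ Q) {a b : ℤ} (h1 : a < P.D) (h2 : (P.D : ℤ) + P.B + 1 ≤ b)
    (h3 : (b - (P.D + P.B)) + (P.D - 1 - a) < P.w) : ∃ R ∈ P.sIT Q.W, R.Has a b := by
  have hW := hQ.W_size
  obtain ⟨R, hR, hH⟩ := (stair_has Q.W 0 (P.D + P.B + 1) 1 one_pos (P.D - 1 - a) b).2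
    ⟨by omega, by omega, by rw [Int.ediv_one, Int.ediv_one]; omega⟩
  exact ⟨R.flipX P.D, List.mem_map.2 ⟨R, hR, rfl⟩, has_flipX.2 hH⟩

theorem sFT_has (hQ : FillOk P κ Q) {i : ℕ} {a b : ℤ} (h1 : P.X i ≤ a) (h2 : P.Y i + 1 ≤ b)
    (h3 : (a - P.X i) + (b - P.Y i) < P.w) : ∃ R ∈ P.sFT Q.W i, R.Has a b := by
  have hW := hQ.W_size
  exact (stair_has Q.W (P.X i) (P.Y i + 1) 1 one_pos a b).2
    ⟨by omega, by omega, by rw [Int.ediv_one, Int.ediv_one]; omega⟩

theorem Y_add_lt {i : ℕ} : P.Y i + P.D ≤ P.Δ := by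
  have := P.Y_le i
  have := P.Δ_eq
  have := P.X_add_Y i
  have := P.le_X i
  omega

theorem X_add_lt {i : ℕ} (hi : i < P.m) : P.X i + P.D ≤ P.Δ := by
  have := P.X_le hi
  have := P.Δ_eq
  omega

end RowLocal

open RowLocal

section

variable {P : Par} {κ : ℕ} (hP : P.Ok κ) {cell : ℕ → ℤ → ℤ → Prop} (hz : Zones P cell)
  {Q : Fill} (hQ : FillOk P κ Q)

include hP hz hQ

theorem row_inPocket {t : ℕ} (ht : t < P.N) {y : ℤ} (h1 : 2 * ((P.D : ℤ) + P.B) ≤ y)
    (h2 : y < 2 * (P.D + P.B + P.w)) :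
    RowCert P Q cell t y (P.D - P.w + (y / 2 - (P.D + P.B))) P.D := by
  have hD := P.D_eq
  have hΔ := P.Δ_eq
  have hB := P.D_le_B hP.m_pos
  have hk := hP.k_ge
  have hw := hP.w_ge
  have hlam : (0 : ℤ) ≤ P.lam t := by positivity
  refine ⟨(if y ≤ 2 * ((P.D : ℤ) + P.B + 1) then [P.tIW] else []) ++ onRow (P.sIT Q.W) y,
    ?_, ?_, ?_, ⟨y / 2, by omega, by omega, ?_⟩, ⟨y / 2, by omega, by omega, ?_⟩⟩
  · rw [List.length_append]
    unfold Par.sIT
    rw [onRow_flipX, List.length_map]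
    split_ifs with h
    · rcases h.lt_or_eq with h' | h'
      · rw [StairLines.onRow_eq_nil]
        · simp; omega
        · intro R hR
          have := (StairLines.bounds Q.W _ _ _ one_pos hR).2.2.1
          left; omega
      · have := onRow_stair_bot Q.W 0 (P.D + P.B + 1) 1 one_pos y (by omega)
        have := hQ.W_bot
        simp only [List.length_singleton]
        omega
    · have := onRow_stair Q.W 0 (P.D + P.B + 1) 1 one_pos y
      have := hQ.W_RH
      simp only [List.length_nil]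
      omega
  · intro R hR
    rcases List.mem_append.1 hR with h | h
    · split_ifs at h
      · rw [List.mem_singleton] at h
        subst h
        exact tile_of_frame ht tIW_mem
      · simp at h
    · exact tile_of_frame ht (sIT_mem (onRow_sub h))
  · intro a b ha1 ha2 hb1 hb2 hc
    rcases le_or_gt b (P.D + P.B) with h | h
    · refine ⟨P.tIW, ?_, ?_, ha2, ?_, ?_⟩
      · rw [if_pos (by omega)]; simp
      · show (P.D : ℤ) - P.w ≤ a; omega
      · show (P.D : ℤ) ≤ b; omega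
      · show b < (P.D : ℤ) + P.B + 1; omega
    · rw [hz.arm t ht a b (by omega) ha2 (by omega) (by omega)] at hc
      obtain ⟨R, hR, hH⟩ := sIT_has (a := a) (b := b) hQ ha2 (by omega) (by omega)
      exact ⟨R, List.mem_append.2 (Or.inr (mem_onRow hR hH hb1 hb2)), hH⟩
  · rw [hz.arm t ht _ _ (by omega) (by omega) (by omega) (by omega)]
    omega
  · rw [hz.first t ht _ _ (by omega) (by omega) (by omega) (by omega)]
    omega

theorem row_fingPocket {t : ℕ} (ht : t < P.N) {i : ℕ} (hi : i < P.m) {y : ℤ}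
    (h1 : 2 * P.Y i ≤ y) (h2 : y < 2 * (P.Y i + P.w)) :
    RowCert P Q cell t y (P.X i) (P.X i + P.w - (y / 2 - P.Y i)) := by
  have hD := P.D_eq
  have hΔ := P.Δ_eq
  have hB := P.D_le_B hP.m_pos
  have hk := hP.k_ge
  have hw := hP.w_ge
  have hh := hP.h_lt t i
  have hh1 := hP.h_pos t i
  have hX := P.le_X i
  have hX2 := X_add_lt hi
  have hY := P.le_Y hi
  have hY2 := Y_add_lt (P := P) (i := i)
  refine ⟨(if y ≤ 2 * (P.Y i + 1) then [P.tFW t i] else []) ++ onRow (P.sFT Q.W i) y,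
    ?_, ?_, ?_, ⟨y / 2, by omega, by omega, ?_⟩, ⟨y / 2, by omega, by omega, ?_⟩⟩
  · rw [List.length_append]
    unfold Par.sFT
    split_ifs with h
    · rcases h.lt_or_eq with h' | h'
      · rw [StairLines.onRow_eq_nil]
        · simp; omega
        · intro R hR
          have := (StairLines.bounds Q.W _ _ _ one_pos hR).2.2.1
          left; omega
      · have := onRow_stair_bot Q.W (P.X i) (P.Y i + 1) 1 one_pos y (by omega)
        have := hQ.W_bot
        simp only [List.length_singleton]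
        omega
    · have := onRow_stair Q.W (P.X i) (P.Y i + 1) 1 one_pos y
      have := hQ.W_RH
      simp only [List.length_nil]
      omega
  · intro R hR
    rcases List.mem_append.1 hR with h | h
    · split_ifs at h
      · rw [List.mem_singleton] at h
        subst h
        exact tile_of_frame ht (tFW_mem hi)
      · simp at h
    · exact tile_of_frame ht (sFT_mem hi (onRow_sub h))
  · intro a b ha1 ha2 hb1 hb2 hc
    rcases le_or_gt b (P.Y i) with h | h
    · refine ⟨P.tFW t i, ?_, ha1, ?_, ?_, ?_⟩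
      · rw [if_pos (by omega)]; simp
      · show a < P.X i + P.w; omega
      · show P.Y i - P.h t i ≤ b; omega
      · show b < P.Y i + 1; omega
    · rw [hz.fing t ht i hi a b ha1 (by omega) (by omega) (by omega)] at hc
      obtain ⟨R, hR, hH⟩ := sFT_has (i := i) (a := a) (b := b) hQ ha1 (by omega) (by omega)
      exact ⟨R, List.mem_append.2 (Or.inr (mem_onRow hR hH hb1 hb2)), hH⟩
  · rcases Nat.eq_zero_or_pos i with h0 | h0
    · subst h0
      have e1 := P.X_zero
      have e2 := P.Y_zero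
      rw [hz.first t ht _ _ (by omega) (by omega) (by omega) (by omega)]
      omega
    · obtain ⟨j, rfl⟩ : ∃ j, i = j + 1 := ⟨i - 1, by omega⟩
      have e1 := P.X_succ j
      have e2 := P.Y_succ j
      have hh2 := hP.h_lt t j
      rw [hz.fing t ht j (by omega) _ _ (by omega) (by omega) (by omega) (by omega)]
      omega
  · rw [hz.fing t ht i hi _ _ (by omega) (by omega) (by omega) (by omega)]
    omega

theorem col_inLow {t : ℕ} (ht : t < P.N) {x : ℤ} (h1 : -2 * (P.lam t : ℤ) ≤ x)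
    (h2 : x ≤ 2 * ((P.D : ℤ) - P.w)) : ColCert P Q cell t x P.D (P.D + P.B) := by
  have hD := P.D_eq
  have hΔ := P.Δ_eq
  have hB := P.D_le_B hP.m_pos
  have hk := hP.k_ge
  have hw := hP.w_ge
  have hlam : (0 : ℤ) ≤ P.lam t := by positivity
  obtain ⟨a₀, ha1, ha2, ha3, ha4⟩ : ∃ a₀ : ℤ, 2 * a₀ ≤ x ∧ x ≤ 2 * a₀ + 2 ∧
      -(P.lam t : ℤ) ≤ a₀ ∧ a₀ < P.D - P.w := by
    by_cases hx : x = -2 * (P.lam t : ℤ)
    · exact ⟨-(P.lam t : ℤ), by omega, by omega, by omega, by omega⟩
    · exact ⟨(x - 1) / 2, by omega, by omega, by omega, by omega⟩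
  refine ⟨P.tM t :: (if x = 2 * ((P.D : ℤ) - P.w) then [P.tIW] else []),
    ?_, ?_, ?_, ⟨a₀, ha1, ha2, ?_⟩, ⟨a₀, ha1, ha2, ?_⟩⟩
  · split_ifs <;> simp <;> omega
  · intro R hR
    rcases List.mem_cons.1 hR with rfl | h
    · exact tile_of_frame ht tM_mem
    · split_ifs at h
      · rw [List.mem_singleton] at h
        subst h
        exact tile_of_frame ht tIW_mem
      · simp at h
  · intro a b hb1 hb2 ha1 ha2 hc
    by_cases h : a < P.D - P.w
    · refine ⟨P.tM t, List.mem_cons_self, ?_, h, hb1, hb2⟩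
      show (if t = 0 then 0 else -(P.lam t : ℤ) - (P.D - P.w)) ≤ a
      split_ifs with h0
      · subst h0
        rw [P.lam_zero] at h1
        by_contra hneg
        have ha : a = -1 := by omega
        subst ha
        exact hz.start b (by omega) (by omega) hc
      · omega
    · have ha : a = P.D - P.w := by omega
      refine ⟨P.tIW, ?_, ?_, ?_, hb1, ?_⟩
      · rw [if_pos (by omega)]; simp
      · show (P.D : ℤ) - P.w ≤ a; omega
      · show a < P.D; omega
      · show b < (P.D : ℤ) + P.B + 1; omega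
  · rw [hz.arm t ht _ _ (by omega) (by omega) (by omega) (by omega)]
    omega
  · rw [hz.arm t ht _ _ (by omega) (by omega) (by omega) (by omega)]
    omega

theorem col_inHigh {t : ℕ} (ht : t < P.N) {x : ℤ} (h1 : 2 * ((P.D : ℤ) - P.w) < x)
    (h2 : x < 2 * P.D) :
    ColCert P Q cell t x P.D (P.D + P.B + (P.w - (P.D - 1 - (x - 1) / 2))) := by
  have hD := P.D_eq
  have hΔ := P.Δ_eq
  have hB := P.D_le_B hP.m_pos
  have hk := hP.k_ge
  have hw := hP.w_ge
  have hlam : (0 : ℤ) ≤ P.lam t := by positivity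
  refine ⟨P.tIW :: onCol (P.sIT Q.W) x,
    ?_, ?_, ?_, ⟨(x - 1) / 2, by omega, by omega, ?_⟩, ⟨(x - 1) / 2, by omega, by omega, ?_⟩⟩
  · rw [List.length_cons]
    unfold Par.sIT
    rw [onCol_flipX, List.length_map]
    have := onCol_stair Q.W 0 (P.D + P.B + 1) 1 one_pos (2 * (P.D : ℤ) - x)
    have := hQ.W_RV
    omega
  · intro R hR
    rcases List.mem_cons.1 hR with rfl | h
    · exact tile_of_frame ht tIW_mem
    · exact tile_of_frame ht (sIT_mem (onCol_sub h))
  · intro a b hb1 hb2 ha1 ha2 hc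
    rcases le_or_gt b (P.D + P.B) with h | h
    · refine ⟨P.tIW, List.mem_cons_self, ?_, ?_, hb1, ?_⟩
      · show (P.D : ℤ) - P.w ≤ a; omega
      · show a < P.D; omega
      · show b < (P.D : ℤ) + P.B + 1; omega
    · rw [hz.arm t ht a b (by omega) (by omega) (by omega) (by omega)] at hc
      obtain ⟨R, hR, hH⟩ := sIT_has (a := a) (b := b) hQ (by omega) (by omega) (by omega)
      exact ⟨R, List.mem_cons_of_mem _ (mem_onCol hR hH ha1 ha2), hH⟩
  · rw [hz.arm t ht _ _ (by omega) (by omega) (by omega) (by omega)]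
    omega
  · rw [hz.arm t ht _ _ (by omega) (by omega) (by omega) (by omega)]
    omega

theorem col_inTop {t : ℕ} (ht : t < P.N) : ColCert P Q cell t (2 * P.D) P.D (P.D + P.B) := by
  have hD := P.D_eq
  have hΔ := P.Δ_eq
  have hB := P.D_le_B hP.m_pos
  have hk := hP.k_ge
  have hw := hP.w_ge
  have hDp := P.D_pos
  have hlam : (0 : ℤ) ≤ P.lam t := by positivity
  have hS := (hQ.sol.1.1 t ht)
  refine ⟨P.tIW :: onCol (P.sC (Q.S t)) (2 * P.D),
    ?_, ?_, ?_, ⟨P.D - 1, by omega, by omega, ?_⟩, ⟨P.D, by omega, by omega, ?_⟩⟩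
  · rw [List.length_cons]
    unfold Par.sC
    have h3 := onCol_stair (Q.S t) P.D P.D P.D hDp (2 * (P.D : ℤ))
    have h4 := BT.RV_le (Q.S t) κ fun i hi => ((hQ.sol.2 t ht i (by rw [← hS]; exact hi))).1
    omega
  · intro R hR
    rcases List.mem_cons.1 hR with rfl | h
    · exact tile_of_frame ht tIW_mem
    · exact tile_of_frame ht (sC_mem (onCol_sub h))
  · intro a b hb1 hb2 ha1 ha2 hc
    rcases lt_or_ge a (P.D : ℤ) with h | h
    · refine ⟨P.tIW, List.mem_cons_self, ?_, ?_, hb1, ?_⟩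
      · show (P.D : ℤ) - P.w ≤ a; omega
      · show a < P.D; omega
      · show b < (P.D : ℤ) + P.B + 1; omega
    · have ha : a = P.D := by omega
      subst ha
      obtain ⟨R, hR, hH⟩ := (stair_has (Q.S t) P.D P.D P.D hDp P.D b).2 ⟨le_rfl, hb1, by
        rw [hS, sub_self, Int.zero_ediv, zero_add, Int.ediv_lt_iff_lt_mul hDp, ← P.B_eq]
        omega⟩
      exact ⟨R, List.mem_cons_of_mem _ (mem_onCol hR hH ha1 ha2), hH⟩
  · rw [hz.arm t ht _ _ (by omega) (by omega) (by omega) (by omega)]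
    omega
  · rw [hz.first t ht _ _ (by omega) (by omega) (by omega) (by omega)]
    omega

end

end Pool.Agent.Lib.MP_7d5495_lc
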