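import Pool.Agent.Lib.MP_7d5495_lc.RowMain
import Pool.Agent.Lib.MP_7d5495_lc.ColLast
import Pool.Agent.Lib.MP_7d5495_lc.RowLocal
import Pool.Agent.Lib.MP_7d5495_lc.ColLocal
import Pool.Agent.Lib.MP_7d5495_lc.CertRot

/-!
# All columns of a frame have certificates (piece G25, helper99)
-/

set_option autoImplicit false

namespace Pool.Agent.Lib.MP_7d5495_lc

namespace ColsAll

variable {P : Par} {κ : ℕ} (hP : P.Ok κ) {cell : ℕ → ℤ → ℤ → Prop} (hz : Zones P cell)
  {Q : Fill} (hQ : FillOk P κ Q)

include hP hz hQ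

theorem mainCol {t : ℕ} (ht : t < P.N) {i : ℕ} (hi : i < P.m) {x : ℤ}
    (h1 : 2 * (P.X i - P.D) < x) (h2 : x < 2 * P.X i) :
    ∃ B₁ : ℤ, B₁ ≤ 0 ∧ ColCert P Q cell t x B₁ (P.Y i) := by
  rcases Nat.lt_or_ge (t + 1) P.N with h | h
  · have hi' : P.m - 1 - i < P.m := by omega
    have e1 : P.Y (P.m - 1 - i) = P.X i := Par.Y_rev hi
    have e2 : P.X (P.m - 1 - i) = P.Y i := Par.X_rev hi
    have hY := Par.le_Y (P := P) hi
    have e3 : (-(P.lam (t + 1) : ℤ) - P.lft (t + 1) (P.Y i)) = P.Y i := by
      unfold Par.lft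
      rw [if_neg (by omega)]
      ring
    rcases lt_or_ge (2 * (P.Y (P.m - 1 - i) - P.h (t + 1) (P.m - 1 - i))) x with h3 | h3
    · have hc := RowCert.rot hz (rowMain_finger hP hz hQ h hi' h3 (by rw [e1]; exact h2))
      rw [e1, e2, e3] at hc
      exact ⟨_, by omega, hc⟩
    · have hc := RowCert.rot hz (rowMain_plain hP hz hQ h hi' (by rw [e1]; exact h1) h3)
      rw [e2, e3] at hc
      exact ⟨_, by omega, hc⟩
  · have e : P.N - 1 = t := by omega
    refine ⟨0, le_rfl, ?_⟩
    rw [← e]
    exact colLast hP hz hQ hi h1 h2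

theorem mainBorder {t : ℕ} (ht : t < P.N) {i : ℕ} (hi : i + 1 < P.m) :
    ∃ B₁ : ℤ, B₁ ≤ 0 ∧ ColCert P Q cell t (2 * P.X i) B₁ (P.Y (i + 1)) := by
  rcases Nat.lt_or_ge (t + 1) P.N with h | h
  · have hi' : (P.m - 2 - i) + 1 < P.m := by omega
    have e0 : P.m - 2 - i + 1 = P.m - 1 - i := by omega
    have e1 : P.Y (P.m - 2 - i + 1) = P.X i := by rw [e0]; exact Par.Y_rev (by omega)
    have e2 : P.X (P.m - 2 - i) = P.Y (i + 1) := by
      have : P.m - 2 - i = P.m - 1 - (i + 1) := by omega
      rw [this]; exact Par.X_rev hi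
    have hY := Par.le_Y (P := P) hi
    have e3 : (-(P.lam (t + 1) : ℤ) - P.lft (t + 1) (P.Y (i + 1))) = P.Y (i + 1) := by
      unfold Par.lft
      rw [if_neg (by omega)]
      ring
    have hc := RowCert.rot hz (rowMain_border hP hz hQ h hi')
    rw [e1, e2, e3] at hc
    exact ⟨_, by omega, hc⟩
  · have e : P.N - 1 = t := by omega
    refine ⟨0, le_rfl, ?_⟩
    rw [← e]
    exact colLast_border hP hz hQ hi

/-- the main step: the vertical line through the left side or the interior of the cell -/
theorem core {t : ℕ} (ht : t < P.N) {a b : ℤ} (hE : P.InE t a b) (h : cell t a b) {x : ℤ}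
    (hx : (x = 2 * a ∧ cell t (a - 1) b) ∨ x = 2 * a + 1) :
    ∃ B₁ B₂ : ℤ, B₁ ≤ b ∧ b < B₂ ∧ ColCert P Q cell t x B₁ B₂ := by
  obtain ⟨hE1, hE2, hE3, hE4⟩ := hE
  have hDw : (P.D : ℤ) = 2 * P.w + 2 := Par.D_eq
  have hΔ := Par.Δ_eq (P := P)
  have hw3 : (3 : ℤ) ≤ P.w := by exact_mod_cast hP.w_ge
  have hB : (0 : ℤ) ≤ P.B := by positivity
  have hlam : (0 : ℤ) ≤ P.lam t := by positivity
  have hx2 : 2 * a ≤ x ∧ x ≤ 2 * a + 1 := by rcases hx with ⟨h1, -⟩ | h1 <;> omega
  rcases lt_or_ge a (P.D : ℤ) with hA | hA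
  · -- the arm and the in-pocket
    have hz1 := (hz.arm t ht a b hE1 hA hE3 hE4).mp h
    have hz2 : x = 2 * a → -(P.lam t : ℤ) ≤ a - 1 → ((P.D : ℤ) ≤ b ∧ b < P.D + P.B) ∨
        ((P.D : ℤ) + P.B ≤ b ∧ (b - (P.D + P.B)) + (P.D - 1 - (a - 1)) < P.w) := by
      intro hxa h3
      rcases hx with ⟨-, h2⟩ | h1
      · exact (hz.arm t ht (a - 1) b h3 (by omega) hE3 hE4).mp h2
      · omega
    rcases le_or_gt x (2 * ((P.D : ℤ) - P.w)) with h1 | h1
    · refine ⟨P.D, P.D + P.B, ?_, ?_, col_inLow hP hz hQ ht (by omega) h1⟩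
      · omega
      · rcases hx with ⟨h3, -⟩ | h3
        · rcases lt_or_ge (a - 1) (-(P.lam t : ℤ)) with h4 | h4
          · omega
          · have := hz2 h3 h4
            omega
        · omega
    · refine ⟨P.D, _, ?_, ?_, col_inHigh hP hz hQ ht h1 (by omega)⟩
      · omega
      · rcases hx with ⟨h3, -⟩ | h3
        · have := hz2 h3 (by omega)
          omega
        · omega
  · rcases lt_or_ge b (P.D : ℤ) with hb | hb
    · -- the out-arm and the out-pocket
      have hz1 := (hz.out t ht a b hA hE2 hE3 hb).mp h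
      rcases lt_or_ge a (P.D + P.B : ℤ) with h1 | h1
      · -- main columns
        have hne : x ≠ 2 * P.D := by
          intro hxD
          rcases hx with ⟨h3, h4⟩ | h3
          · have := (hz.arm t ht (a - 1) b (by omega) (by omega) hE3 hE4).mp h4
            omega
          · omega
        obtain ⟨i, hi, h3, h4⟩ := Par.exists_X' hA h1
        have hXi := Par.le_X (P := P) i
        rcases lt_or_ge (2 * (P.X i - P.D)) x with h5 | h5
        · obtain ⟨B₁, hB1, hc⟩ := mainCol hP hz hQ ht hi h5 (by omega)
          have := Par.le_Y (P := P) hi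
          exact ⟨B₁, _, by omega, by omega, hc⟩
        · have h6 : 1 ≤ i := by
            rcases Nat.eq_zero_or_pos i with h0 | h0
            · subst h0
              rw [Par.X_zero] at h5
              omega
            · exact h0
          obtain ⟨i', rfl⟩ := Nat.exists_eq_add_of_le' h6
          have h7 := Par.X_succ (P := P) i'
          obtain ⟨B₁, hB1, hc⟩ := mainBorder hP hz hQ ht hi
          have := Par.le_Y (P := P) hi
          have h8 : x = 2 * P.X i' := by omega
          rw [h8]
          exact ⟨B₁, _, by omega, by omega, hc⟩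
      · -- the out-pocket
        refine ⟨_, _, ?_, ?_, col_outPocket hP hz hQ ht (x := x) (by omega) (by omega)⟩
        · omega
        · omega
    · rcases lt_or_ge a (2 * P.D : ℤ) with h1 | h1
      · -- the first column
        have hz1 := (hz.first t ht a b hA h1 hb hE4).mp h
        rcases eq_or_ne x (2 * (P.D : ℤ)) with h3 | h3
        · refine ⟨_, _, hb, hz1, ?_⟩
          rw [h3]
          exact col_inTop hP hz hQ ht
        · have hi : 0 < P.m := hP.m_pos
          have hX0 := Par.X_zero (P := P)
          have hY0 := Par.Y_zero (P := P)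
          obtain ⟨B₁, hB1, hc⟩ := mainCol hP hz hQ ht hi (x := x) (by omega) (by omega)
          exact ⟨B₁, _, by omega, by omega, hc⟩
      · obtain ⟨i, hi, h3, h4⟩ := Par.exists_X h1 hE2
        have hz1 := (hz.fing t ht i hi a b h3 h4 hb hE4).mp h
        have hhw : (P.h t i : ℤ) + 1 ≤ P.w := by exact_mod_cast hP.h_lt t i
        have hYi := Par.le_Y (P := P) hi
        rcases hz1 with hz1 | hz1 | hz1
        · -- below the staircase
          have h5 : i + 1 < P.m := by
            by_contra hcon
            have : i = P.m - 1 := by omega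
            have h6 : P.Y i = P.X (P.m - 1 - i) := (Par.X_rev hi).symm
            rw [this] at h6
            have h7 : P.m - 1 - (P.m - 1) = 0 := by omega
            rw [h7, Par.X_zero] at h6
            rw [this] at hz1
            omega
          have h7 := Par.X_succ (P := P) i
          have h8 := Par.Y_succ (P := P) i
          rcases lt_or_ge (2 * P.X i) x with h9 | h9
          · obtain ⟨B₁, hB1, hc⟩ := mainCol hP hz hQ ht h5 (x := x) (by omega) (by omega)
            exact ⟨B₁, _, by omega, by omega, hc⟩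
          · obtain ⟨B₁, hB1, hc⟩ := mainBorder hP hz hQ ht h5
            have h10 : x = 2 * P.X i := by omega
            rw [h10]
            exact ⟨B₁, _, by omega, by omega, hc⟩
        · -- the finger
          obtain ⟨g1, g2, g3⟩ := hz1
          rcases lt_or_ge (2 * P.X i) x with h9 | h9
          · rcases le_or_gt x (2 * (P.X i + P.w)) with h10 | h10
            · refine ⟨_, _, ?_, ?_, col_fingWall hP hz hQ ht hi h9 h10⟩
              · exact g1
              · omega
            · refine ⟨_, _, ?_, ?_, col_fingEnd hP hz hQ ht hi h10 (by omega)⟩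
              · exact g1
              · omega
          · have h10 : x = 2 * P.X i := by omega
            refine ⟨_, _, g1, g2, ?_⟩
            rw [h10]
            exact col_fingLeft hP hz hQ ht hi
        · -- the pocket of the finger
          obtain ⟨g1, g2⟩ := hz1
          have h9 : 2 * P.X i < x := by
            by_contra hcon
            have hxa : x = 2 * a := by omega
            have haX : a = P.X i := by omega
            rcases hx with ⟨-, hcell⟩ | h3
            · rcases Nat.eq_zero_or_pos i with h0 | h0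
              · subst h0
                have hX0 := Par.X_zero (P := P)
                have hY0 := Par.Y_zero (P := P)
                have := (hz.first t ht (a - 1) b (by omega) (by omega) hb hE4).mp hcell
                omega
              · obtain ⟨i', rfl⟩ : ∃ i', i = i' + 1 := ⟨i - 1, by omega⟩
                have h7 := Par.X_succ (P := P) i'
                have h8 := Par.Y_succ (P := P) i'
                have hhw' : (P.h t i' : ℤ) + 1 ≤ P.w := by exact_mod_cast hP.h_lt t i'
                have := (hz.fing t ht i' (by omega) (a - 1) b (by omega) (by omega) hb hE4).mp hcell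
                omega
            · omega
          refine ⟨_, _, ?_, ?_, col_fingWall hP hz hQ ht hi h9 (by omega)⟩
          · omega
          · omega

end ColsAll

section certs

variable {P : Par} {κ : ℕ} (hP : P.Ok κ) {cell : ℕ → ℤ → ℤ → Prop} (hz : Zones P cell)
  {Q : Fill} (hQ : FillOk P κ Q)

include hP hz hQ

theorem cols {t : ℕ} (ht : t < P.N) {a b : ℤ} (hE : P.InE t a b) (h : cell t a b) :
    Cols P Q cell t a b := by
  intro x hx1 hx2 hcell
  have hE' := hE
  obtain ⟨hE1, hE2, hE3, hE4⟩ := hE'
  rcases eq_or_ne x (2 * a + 2) with h1 | h1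
  · -- replace `a` by `a + 1`
    have h2 : cell t (a + 1) b := hcell (a + 1) (by omega) (by omega)
    have h3 : a + 1 < P.Δ := by
      by_contra hcon
      have hDw : (P.D : ℤ) = 2 * P.w + 2 := Par.D_eq
      have hΔ := Par.Δ_eq (P := P)
      have hw3 : (3 : ℤ) ≤ P.w := by exact_mod_cast hP.w_ge
      have hB := Par.D_le_B hP.m_pos
      rcases lt_or_ge b (P.D : ℤ) with hb | hb
      · have := (hz.out t ht a b (by omega) hE2 hE3 hb).mp h
        omega
      · obtain ⟨i, hi, h3, h4⟩ := Par.exists_X (P := P) (a := a) (by omega) hE2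
        have hhw : (P.h t i : ℤ) + 1 ≤ P.w := by exact_mod_cast hP.h_lt t i
        have hXl := Par.X_le (P := P) hi
        have hXY := Par.X_add_Y (P := P) i
        have := (hz.fing t ht i hi a b h3 h4 hb hE4).mp h
        omega
    have hE2' : P.InE t (a + 1) b := ⟨by omega, h3, hE3, hE4⟩
    exact ColsAll.core hP hz hQ ht hE2' h2
      (Or.inl ⟨by omega, by rw [add_sub_cancel_right]; exact h⟩) |>.imp
        fun B₁ ⟨B₂, g1, g2, g3⟩ => ⟨B₂, g1, g2, g3⟩
  · rcases eq_or_ne x (2 * a) with h2 | h2
    · exact ColsAll.core hP hz hQ ht hE h (Or.inl ⟨h2, hcell (a - 1) (by omega) (by omega)⟩)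
    · exact ColsAll.core hP hz hQ ht hE h (Or.inr (by omega))

end certs

end Pool.Agent.Lib.MP_7d5495_lc
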