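import Pool.Agent.Lib.MP_7d5495_lc.RowMain
import Pool.Agent.Lib.MP_7d5495_lc.ColLast
import Pool.Agent.Lib.MP_7d5495_lc.RowLocal

set_option autoImplicit false

/-!
# All rows of the frames
-/

namespace Pool.Agent.Lib.MP_7d5495_lc

open Set

section rowsall

variable {P : Par} {κ : ℕ} (hP : P.Ok κ) {cell : ℕ → ℤ → ℤ → Prop} (hz : Zones P cell)
  {Q : Fill} (hQ : FillOk P κ Q)

private theorem RowsAll.lft_le {t : ℕ} {a : ℤ} (i : ℕ) (h : -(P.lam t : ℤ) ≤ a) :
    P.lft t (P.X i) ≤ a := by
  unfold Par.lft
  have h1 := Par.le_X (P := P) i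
  have h2 := Par.D_pos (P := P)
  split_ifs with h3
  · subst h3
    rw [Par.lam_zero] at h
    simpa using h
  · omega

include hP hz hQ

/-- the main rows -/
private theorem RowsAll.main {t : ℕ} (ht : t < P.N) {a b y : ℤ} (hl : -(P.lam t : ℤ) ≤ a)
    {i : ℕ} (hi : i < P.m) (hb1 : P.Y i - P.D ≤ b) (hb2 : b < P.Y i)
    (hy : y = 2 * b ∨ y = 2 * b + 1) (ha : a < P.X i) :
    (y = 2 * P.D ∧ b = P.D) ∨
      ∃ A₁ A₂ : ℤ, A₁ ≤ a ∧ a < A₂ ∧ RowCert P Q cell t y A₁ A₂ := by
  have hlft := RowsAll.lft_le (P := P) i hl
  rcases lt_or_ge (2 * (P.Y i - P.D)) y with h1 | h1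
  · right
    rcases le_or_gt y (2 * (P.Y i - P.h t i)) with h2 | h2
    · exact ⟨_, _, hlft, ha, rowMain_plain hP hz hQ ht hi h1 h2⟩
    · refine ⟨_, _, hlft, ?_, rowMain_finger hP hz hQ ht hi h2 (by omega)⟩
      have : y / 2 ≤ b := by omega
      have hw : (0 : ℤ) ≤ P.w := by positivity
      omega
  · have hb : b = P.Y i - P.D := by omega
    have hy2 : y = 2 * (P.Y i - P.D) := by omega
    rcases Nat.lt_or_ge (i + 1) P.m with h3 | h3
    · right
      have h4 := rowMain_border hP hz hQ ht h3
      have h5 := Par.Y_succ (P := P) i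
      rw [h5] at h4
      rw [hy2]
      exact ⟨_, _, hlft, ha, h4⟩
    · left
      have h4 : i = P.m - 1 := by omega
      have h5 : P.Y i = 2 * P.D := by
        have h6 := Par.Y_rev (P := P) (i := 0) (by omega)
        rw [Nat.sub_zero, ← h4, Par.X_zero] at h6
        exact h6
      constructor
      · rw [hy2, h5]; ring
      · rw [hb, h5]; ring

/-- the two lower levels of a cell -/
private theorem RowsAll.aux {t : ℕ} (ht : t < P.N) {a b y : ℤ} (hE : P.InE t a b)
    (h : cell t a b) (hy : (y = 2 * b ∧ cell t a (b - 1)) ∨ y = 2 * b + 1) :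
    ∃ A₁ A₂ : ℤ, A₁ ≤ a ∧ a < A₂ ∧ RowCert P Q cell t y A₁ A₂ := by
  obtain ⟨hE1, hE2, hE3, hE4⟩ := hE
  have hD := Par.D_eq (P := P)
  have hΔ := Par.Δ_eq (P := P)
  have hDB := Par.D_le_B hP.m_pos
  have hw := hP.w_ge
  have hw' : (3 : ℤ) ≤ P.w := by exact_mod_cast hw
  have hy' : y = 2 * b ∨ y = 2 * b + 1 := by
    rcases hy with h1 | h1
    · exact Or.inl h1.1
    · exact Or.inr h1
  rcases lt_or_ge a (P.D : ℤ) with ha | ha
  · -- the incoming arm
    rcases (hz.arm t ht a b hE1 ha hE3 hE4).1 h with ⟨h1, h2⟩ | ⟨h1, h2⟩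
    · obtain ⟨i, hi, h3, h4⟩ := Par.exists_Y h1 h2
      have haX : a < P.X i := by
        have := Par.le_X (P := P) i
        omega
      rcases RowsAll.main hP hz hQ ht hE1 hi h3 h4 hy' haX with ⟨h5, h6⟩ | h5
      · exfalso
        rcases hy with ⟨_, h7⟩ | h7
        · rw [h6] at h7
          rcases (hz.arm t ht a (P.D - 1) hE1 ha (by omega) (by omega)).1 h7 with h8 | h8
          · omega
          · omega
        · omega
      · exact h5
    · refine ⟨_, _, ?_, ha, row_inPocket hP hz hQ ht (y := y) (by omega) (by omega)⟩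
      have : y / 2 = b := by omega
      rw [this]; omega
  · rcases lt_or_ge b (P.D : ℤ) with hb | hb
    · -- the outgoing arm
      have hout := (hz.out t ht a b ha hE2 hE3 hb).1 h
      rcases le_or_gt y (2 * ((P.D : ℤ) - P.w)) with h1 | h1
      · refine ⟨_, _, ha, ?_, row_outLow hP hz hQ ht (y := y) (by omega) h1⟩
        rcases lt_or_ge a ((P.D : ℤ) + P.B) with h2' | h2'
        · exact h2'
        · exfalso
          have h2 : (a - ((P.D : ℤ) + P.B)) + (P.D - 1 - b) < P.w := by
            rcases hout with h2 | h2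
            · omega
            · exact h2
          rcases hy with ⟨h3, h4⟩ | h3
          · have hb' : b = P.D - P.w := by omega
            rcases (hz.out t ht a (b - 1) ha hE2 (by omega) (by omega)).1 h4 with h5 | h5
            · omega
            · omega
          · omega
      · refine ⟨_, _, ha, ?_, row_outHigh hP hz hQ ht (y := y) h1 (by omega)⟩
        rcases hy with ⟨h3, h4⟩ | h3
        · have h5 : (y - 1) / 2 = b - 1 := by omega
          rw [h5]
          rcases (hz.out t ht a (b - 1) ha hE2 (by omega) (by omega)).1 h4 with h6 | h6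
          · omega
          · omega
        · have h5 : (y - 1) / 2 = b := by omega
          rw [h5]
          rcases hout with h6 | h6
          · omega
          · omega
    · rcases lt_or_ge a (2 * (P.D : ℤ)) with ha2 | ha2
      · -- the first column of the corner
        have h1 := (hz.first t ht a b ha ha2 hb hE4).1 h
        obtain ⟨i, hi, h3, h4⟩ := Par.exists_Y hb h1
        have haX : a < P.X i := by
          have := Par.le_X (P := P) i
          omega
        rcases RowsAll.main hP hz hQ ht hE1 hi h3 h4 hy' haX with ⟨h5, h6⟩ | h5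
        · rw [h5]
          exact ⟨_, _, ha, by omega, row_outTop hP hz hQ ht⟩
        · exact h5
      · obtain ⟨j, hj, hj1, hj2⟩ := Par.exists_X ha2 hE2
        have hYj := Par.Y_le (P := P) j
        have hYj2 := Par.le_Y hj
        have hh := hP.h_lt t j
        have hh' : (P.h t j : ℤ) + 1 ≤ P.w := by exact_mod_cast hh
        rcases (hz.fing t ht j hj a b hj1 hj2 hb hE4).1 h with h1 | ⟨h1, h2, h3⟩ | ⟨h1, h2⟩
        · -- the corner
          obtain ⟨i, hi, h3, h4⟩ := Par.exists_Y hb (by omega)
          have hij : j < i := by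
            by_contra hcon
            push Not at hcon
            rcases Nat.eq_or_lt_of_le hcon with h5 | h5
            · subst h5; omega
            · have := Par.Y_mono (P := P) h5
              omega
          have hXX := Par.X_mono (P := P) hij
          have haX : a < P.X i := by omega
          rcases RowsAll.main hP hz hQ ht hE1 hi h3 h4 hy' haX with ⟨h5, h6⟩ | h5
          · rw [h5]
            have := Par.X_le hi
            exact ⟨_, _, ha, by omega, row_outTop hP hz hQ ht⟩
          · exact h5
        · -- the finger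
          rcases le_or_gt y (2 * (P.Y j - P.h t j)) with h5 | h5
          · exfalso
            rcases hy with ⟨h6, h7⟩ | h6
            · have hb' : b = P.Y j - P.h t j := by omega
              rcases (hz.fing t ht j hj a (b - 1) hj1 hj2 (by omega) (by omega)).1 h7 with
                h8 | ⟨h8, _, _⟩ | ⟨h8, _⟩
              · omega
              · omega
              · omega
            · omega
          · refine ⟨_, _, RowsAll.lft_le (P := P) j hE1, ?_,
              rowMain_finger hP hz hQ ht hj h5 (by omega)⟩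
            have h6 : y / 2 = b := by omega
            rw [h6]
            rcases h3 with h7 | h7
            · omega
            · omega
        · -- the pocket of the finger
          refine ⟨_, _, hj1, ?_, row_fingPocket hP hz hQ ht hj (y := y) (by omega) (by omega)⟩
          have h6 : y / 2 = b := by omega
          rw [h6]; omega

/-- **U10. All rows of the frames.** -/
theorem rows {t : ℕ} (ht : t < P.N) {a b : ℤ} (hE : P.InE t a b) (h : cell t a b) :
    Rows P Q cell t a b := by
  intro y hy1 hy2 hc
  have hcases : y = 2 * b ∨ y = 2 * b + 1 ∨ y = 2 * b + 2 := by omega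
  rcases hcases with h1 | h1 | h1
  · exact RowsAll.aux hP hz hQ ht hE h (Or.inl ⟨h1, hc (b - 1) (by omega) (by omega)⟩)
  · exact RowsAll.aux hP hz hQ ht hE h (Or.inr h1)
  · have h2 : cell t a (b + 1) := hc (b + 1) (by omega) (by omega)
    have h3 : cell t a (b + 1 - 1) := by rw [add_sub_cancel_right]; exact h
    refine RowsAll.aux hP hz hQ ht (b := b + 1) ?_ h2 (Or.inl ⟨by omega, h3⟩)
    obtain ⟨hE1, hE2, hE3, hE4⟩ := hE
    refine ⟨hE1, hE2, by omega, ?_⟩
    -- the polygon stays below the level `Δ`
    by_contra hcon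
    have hD := Par.D_eq (P := P)
    have hΔ := Par.Δ_eq (P := P)
    have hDB := Par.D_le_B hP.m_pos
    have hw := hP.w_ge
    have hw' : (3 : ℤ) ≤ P.w := by exact_mod_cast hw
    have hb : b = P.Δ - 1 := by omega
    rcases lt_or_ge a (P.D : ℤ) with ha | ha
    · rcases (hz.arm t ht a b hE1 ha hE3 hE4).1 h with ⟨h4, h5⟩ | ⟨h4, h5⟩
      · omega
      · omega
    · rcases lt_or_ge a (2 * (P.D : ℤ)) with ha2 | ha2
      · have h4 := (hz.first t ht a b ha ha2 (by omega) hE4).1 h
        omega
      · obtain ⟨j, hj, hj1, hj2⟩ := Par.exists_X ha2 hE2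
        have hYj := Par.Y_le (P := P) j
        rcases (hz.fing t ht j hj a b hj1 hj2 (by omega) hE4).1 h with h4 | ⟨h4, h5, _⟩ | ⟨h4, h5⟩
        · omega
        · omega
        · omega

end rowsall

end Pool.Agent.Lib.MP_7d5495_lc
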