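import Pool.Agent.Lib.MP_7d5495_lc.HomesDef
import Pool.Agent.Lib.MP_7d5495_lc.CertRot
import Pool.Agent.Lib.MP_7d5495_lc.RowsAll
import Pool.Agent.Lib.MP_7d5495_lc.ColsAll

/-!
# All rows and columns of the frame 0
-/

set_option autoImplicit false

namespace Pool.Agent.Lib.MP_7d5495_lc

private theorem certZero_step {P : Par} {cell : ℕ → ℤ → ℤ → Prop} (hz : Zones P cell) {Q : Fill}
    {t : ℕ} {a b : ℤ} (h : Rows P Q cell (t + 1) a b ∧ Cols P Q cell (t + 1) a b) :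
    Rows P Q cell t b (-(P.lam (t + 1) : ℤ) - a - 1) ∧
      Cols P Q cell t b (-(P.lam (t + 1) : ℤ) - a - 1) := by
  obtain ⟨hr, hc⟩ := h
  constructor
  · intro y h1 h2 h3
    obtain ⟨B₁, B₂, g1, g2, g3⟩ := hc (-2 * (P.lam (t + 1) : ℤ) - y) (by omega) (by omega)
      (fun a' k1 k2 => by rw [hz.rot]; exact h3 _ (by omega) (by omega))
    refine ⟨B₁, B₂, g1, g2, ?_⟩
    have := g3.rot hz
    have e : -2 * (P.lam (t + 1) : ℤ) - (-2 * (P.lam (t + 1) : ℤ) - y) = y := by ring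
    rw [e] at this
    exact this
  · intro x h1 h2 h3
    obtain ⟨A₁, A₂, g1, g2, g3⟩ := hr x h1 h2
      (fun b' k1 k2 => by rw [hz.rot]; exact h3 _ k1 k2)
    exact ⟨_, _, by omega, by omega, g3.rot hz⟩

private theorem certZero_conv {P : Par} {cell : ℕ → ℤ → ℤ → Prop} (hz : Zones P cell) {Q : Fill}
    (s : ℕ) {a b : ℤ} (h : Rows P Q cell s a b ∧ Cols P Q cell s a b) :
    Rows P Q cell 0 (P.conv s (a, b)).1 (P.conv s (a, b)).2 ∧
      Cols P Q cell 0 (P.conv s (a, b)).1 (P.conv s (a, b)).2 := by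
  induction s generalizing a b with
  | zero => exact h
  | succ t ih => exact ih (certZero_step hz h)

/-- **U11. All rows and columns of the frame 0.** -/
theorem rows_cols_zero {P : Par} {κ : ℕ} (hP : P.Ok κ) {cell : ℕ → ℤ → ℤ → Prop}
    (hz : Zones P cell) {Q : Fill} (hQ : FillOk P κ Q) (hH : Homes P cell) {a b : ℤ}
    (h : cell 0 a b) : Rows P Q cell 0 a b ∧ Cols P Q cell 0 a b := by
  obtain ⟨s, hs, a', b', hE, hc, he⟩ := hH a b h
  have := certZero_conv hz s ⟨rows hP hz hQ hs hE hc, cols hP hz hQ hs hE hc⟩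
  rw [he] at this
  exact this

end Pool.Agent.Lib.MP_7d5495_lc
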