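import Pool.Agent.Lib.MP_7d5495_lc.ChainSound

/-!
# Completeness of the chain instance: a satisfying assignment gives a solution
-/

namespace Pool.Agent.Lib.MP_7d5495_lc

namespace Chain

open CookLevin (Cnf)

/-- the complete tree of depth `e` over the leaves `c 2^e, …, (c+1) 2^e - 1` -/
def bld (leaf : ℕ → BT) : ℕ → ℕ → BT
  | 0, c => leaf c
  | e+1, c => BT.node (bld leaf e (2*c)) (bld leaf e (2*c+1))

/-- mode of the boundary `t` -/
def bt (D b t : ℕ) : ℕ := if t = 0 then 1 else if t = 2 ^ D then 0 else b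

theorem bt_le {D b t : ℕ} (hb : b ≤ 1) : bt D b t ≤ 1 := by unfold bt; split_ifs <;> omega

theorem bld_size {leaf : ℕ → BT} {D b : ℕ}
    (hl : ∀ g < 2 ^ D, (leaf g).size + 1 + bt D b g = 5 + bt D b (g+1)) (e : ℕ) :
    ∀ c, (c+1) * 2^e ≤ 2 ^ D →
    (bld leaf e c).size + 1 + bt D b (c * 2^e) = 5 * 2^e + bt D b ((c+1) * 2^e) := by
  induction e with
  | zero =>
    intro c hc
    have := hl c (by simpa using hc)
    simpa [bld] using this
  | succ e ih =>
    intro c hc
    have e1 : (c+1) * 2^(e+1) = (2*c+1+1) * 2^e := by ring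
    have e2 : c * 2^(e+1) = (2*c) * 2^e := by ring
    have e3 : (2*c+1+1) * 2^e = (2*c+1) * 2^e + 2^e := by ring
    have e4 : 0 < 2^e := by positivity
    have h1 := ih (2*c) (by omega)
    have h2 := ih (2*c+1) (by omega)
    rw [e1, e2]
    simp only [bld, BT.size_node]
    have e5 : 2^(e+1) = 2 * 2^e := by ring
    rw [e5]
    omega

theorem bld_sub {leaf : ℕ → BT} {D b : ℕ} (hb : b ≤ 1)
    (hl : ∀ g < 2 ^ D, (leaf g).size + 1 + bt D b g = 5 + bt D b (g+1)) (e : ℕ) (he : e ≤ D) :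
    ∀ c < 2 ^ (D - e), Sub (bld leaf D 0) (pc c) (D - e - pc c)
      (5 * (c * 2^e) + bt D b (c * 2^e) - 1) (bld leaf e c) := by
  induction he using Nat.decreasingInduction with
  | self =>
    intro c hc
    simp only [Nat.sub_self, pow_zero, Nat.lt_one_iff] at hc
    subst hc
    have := Sub.refl (bld leaf D 0)
    simpa [bt, pc_zero] using this
  | of_succ e he ih =>
    intro c' hc'
    obtain ⟨c, hc⟩ : ∃ c, c' = 2 * c ∨ c' = 2 * c + 1 := ⟨c' / 2, by omega⟩
    have hD : 2 ^ (D - e) = 2 * 2 ^ (D - (e+1)) := by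
      rw [← pow_succ']; congr 1; omega
    have hc2 : c < 2 ^ (D - (e+1)) := by omega
    obtain ⟨hm1, hm2, hm3⟩ := mid_lt he hc2
    have hp : pc c + (e+1) ≤ D := by have := pc_le hc2; omega
    have h := ih c hc2
    simp only [bld] at h
    have e2 : c * 2^(e+1) = (2*c) * 2^e := by ring
    rw [e2] at h
    rcases hc with rfl | rfl
    · rw [pc_two_mul]
      have := h.left
      rwa [show D - e - pc c = D - (e+1) - pc c + 1 by omega]
    · rw [pc_two_mul_add]
      have h1 := h.right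
      have h2 := bld_size hl e (2*c) (by omega)
      rw [show D - e - (pc c + 1) = D - (e+1) - pc c by omega]
      have b1 := bt_le (D := D) (t := 2*c*2^e) hb
      have e3 : (2*c+1) * 2^e = 2*c*2^e + 2^e := by ring
      have b0 : 2*c*2^e = 0 → bt D b (2*c*2^e) = 1 := by intro h; rw [h]; simp [bt]
      rw [show 5 * ((2*c+1) * 2^e) + bt D b ((2*c+1) * 2^e) - 1 =
        5 * (2*c*2^e) + bt D b (2*c*2^e) - 1 + (bld leaf e (2*c)).size + 1 by omega]
      exact h1

/-- the loads of the top of the boundary `t` -/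
theorem bld_top {leaf : ℕ → BT} {D b : ℕ} (hb : b ≤ 1)
    (hl : ∀ g < 2 ^ D, (leaf g).size + 1 + bt D b g = 5 + bt D b (g+1)) {t : ℕ}
    (h0 : 0 < t) (h : t < 2 ^ D) :
    (bld leaf D 0).U (5*t-2+b) = pc t - 1 ∧ (bld leaf D 0).L (5*t-2+b) = D - pc (t-1) - 1 := by
  obtain ⟨e, c, h1, h2, h3⟩ := exists_dyadic h0 h
  obtain ⟨hm1, hm2, hm3⟩ := mid_lt h1 h2
  have hs := bld_sub hb hl (e+1) h1 c h2
  have h4 := bld_size hl e (2*c) (by omega)
  have p1 : pc (t-1) = pc c + e := by rw [h3, pc_pred]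
  have p2 : pc t = pc c + 1 := by rw [h3, pc_mul_pow, pc_two_mul_add]
  have e2 : c * 2^(e+1) = (2*c) * 2^e := by ring
  rw [← h3] at h4 hm1
  have e3 : t = 2*c*2^e + 2^e := by rw [h3]; ring
  have b1 := bt_le (D := D) (t := 2*c*2^e) hb
  have b0 : 2*c*2^e = 0 → bt D b (2*c*2^e) = 1 := by intro h; rw [h]; simp [bt]
  have b2 : bt D b t = b := by unfold bt; rw [if_neg (by omega), if_neg (by omega)]
  rw [b2] at h4
  rw [e2] at hs
  simp only [bld] at hs
  have h5 := hs.U (bld leaf e (2*c)).size (by rw [BT.size_node]; omega)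
  have h6 := hs.L (bld leaf e (2*c)).size (by rw [BT.size_node]; omega)
  rw [BT.U_root] at h5
  rw [BT.L_root] at h6
  rw [show 5 * (2*c*2^e) + bt D b (2*c*2^e) - 1 + (bld leaf e (2*c)).size = 5*t-2+b by omega]
    at h5 h6
  omega

/-- the trees with three nodes -/
def tr (y : ℕ) : BT :=
  if y = 1 then .node .nil (.node .nil (.node .nil .nil))
  else if y = 2 then .node .nil (.node (.node .nil .nil) .nil)
  else if y = 5 then .node (.node (.node .nil .nil) .nil) .nil
  else .node (.node .nil .nil) (.node .nil .nil)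

/-- the special tree -/
def sp : BT := .node (.node .nil .nil) (.node (.node .nil .nil) .nil)

theorem tr_size (y : ℕ) : (tr y).size = 3 := by
  unfold tr; split_ifs <;> rfl

/-- the tree of the group `g` -/
def gt (D b y g : ℕ) : BT :=
  if b = 0 then (if g = 0 then tr y else .node .nil (tr y))
  else if g + 1 = 2 ^ D then tr y else if y = 6 then sp else .node (tr y) .nil

theorem gt_size {D b y g : ℕ} (hD : 2 ≤ D) (hb : b ≤ 1) (hg : g < 2 ^ D) :
    (gt D b y g).size + 1 + bt D b g = 5 + bt D b (g+1) := by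
  have h4 : 4 ≤ 2 ^ D := by
    calc 4 = 2 ^ 2 := rfl
      _ ≤ 2 ^ D := Nat.pow_le_pow_right (by norm_num) hD
  have h1 := tr_size y
  have h2 : sp.size = 4 := rfl
  have h3 : (BT.node .nil (tr y)).size = 4 := by rw [BT.size_node, BT.size_nil, h1]
  have h5 : (BT.node (tr y) .nil).size = 4 := by rw [BT.size_node, BT.size_nil, h1]
  unfold gt bt
  split_ifs <;> first | omega | contradiction

/-- relative loads of the wire -/
def uW (b y x : ℕ) : ℕ := if b = 0 then (tr y).U x + 1 else if y = 6 then sp.U x else (tr y).U x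

/-- relative loads of the wire -/
def lW (b y x : ℕ) : ℕ := if b = 0 then (tr y).L x else if y = 6 then sp.L x else (tr y).L x + 1

/-- one tree of the chain -/
def lay (D b : ℕ) (y : ℕ → ℕ) : BT := bld (fun g => gt D b (y g) g) D 0

theorem lay_size {D b : ℕ} {y : ℕ → ℕ} (hD : 2 ≤ D) (hb : b ≤ 1) :
    (lay D b y).size = 5 * 2 ^ D - 2 := by
  have h := bld_size (leaf := fun g => gt D b (y g) g) (fun g hg => gt_size hD hb hg) D 0
    (by simp)
  have hne : ¬ 2 ^ D = 0 := by positivity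
  simp only [zero_mul, zero_add, one_mul, bt, if_true, hne, if_false] at h
  unfold lay
  omega

theorem lay_grp {D b : ℕ} {y : ℕ → ℕ} (hD : 2 ≤ D) (hb : b ≤ 1) {g : ℕ} (hg : g < 2 ^ D) :
    Sub (lay D b y) (pc g) (D - pc g) (5 * g + bt D b g - 1) (gt D b (y g) g) := by
  have h := bld_sub hb (leaf := fun g => gt D b (y g) g) (fun g hg => gt_size hD hb hg) 0
    (by omega) g (by simpa using hg)
  simpa [bld, lay] using h

theorem lay_wire {D b : ℕ} {y : ℕ → ℕ} (hD : 2 ≤ D) (hb : b ≤ 1) (hy : ∀ g, y g = 6 → b = 1)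
    (hM : y (2 ^ D - 1) ≠ 6) {g x : ℕ} (hg : g < 2 ^ D) (hx : x < 3) :
    (lay D b y).U (5*g+x) ≤ pc g + uW b (y g) x ∧
    (lay D b y).L (5*g+x) ≤ D - pc g + lW b (y g) x := by
  have h := lay_grp (y := y) hD hb hg
  have ht := tr_size (y g)
  have h4 : 4 ≤ 2 ^ D := by
    calc 4 = 2 ^ 2 := rfl
      _ ≤ 2 ^ D := Nat.pow_le_pow_right (by norm_num) hD
  have hb' : b = 0 ∨ b = 1 := by omega
  rcases hb' with rfl | rfl
  · rcases Nat.eq_zero_or_pos g with rfl | h0
    · have e : gt D 0 (y 0) 0 = tr (y 0) := by simp [gt]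
      rw [e] at h
      have e2 : bt D 0 0 = 1 := by simp [bt]
      rw [e2] at h
      have h1 := h.U x (by omega)
      have h2 := h.L x (by omega)
      rw [show 5*0+1-1+x = 5*0+x by omega] at h1 h2
      simp only [uW, lW, if_true]
      omega
    · have e : gt D 0 (y g) g = .node .nil (tr (y g)) := by
        simp [gt, show g ≠ 0 by omega]
      rw [e] at h
      have e2 : bt D 0 g = 0 := by unfold bt; rw [if_neg (by omega)]; simp
      rw [e2] at h
      have h1 := h.right.U x (by omega)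
      have h2 := h.right.L x (by omega)
      rw [BT.size_nil, show 5*g+0-1+0+1+x = 5*g+x by omega] at h1 h2
      simp only [uW, lW, if_true]
      omega
  · have e2 : bt D 1 g = 1 := by unfold bt; rw [if_neg (show ¬ g = 2 ^ D by omega)]; simp
    rw [e2] at h
    by_cases hg' : g + 1 = 2 ^ D
    · have e : gt D 1 (y g) g = tr (y g) := by simp [gt, hg']
      rw [e] at h
      have hy6 : y g ≠ 6 := by
        rw [show g = 2 ^ D - 1 by omega]; exact hM
      have h1 := h.U x (by omega)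
      have h2 := h.L x (by omega)
      rw [show 5*g+1-1+x = 5*g+x by omega] at h1 h2
      simp only [uW, lW, one_ne_zero, if_false, hy6]
      omega
    · by_cases hy6 : y g = 6
      · have e : gt D 1 (y g) g = sp := by simp [gt, hg', hy6]
        rw [e] at h
        have hs : sp.size = 4 := rfl
        have h1 := h.U x (by omega)
        have h2 := h.L x (by omega)
        rw [show 5*g+1-1+x = 5*g+x by omega] at h1 h2
        simp only [uW, lW, one_ne_zero, if_false, hy6, if_true]
        omega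
      · have e : gt D 1 (y g) g = .node (tr (y g)) .nil := by simp [gt, hg', hy6]
        rw [e] at h
        have h1 := h.left.U x (by omega)
        have h2 := h.left.L x (by omega)
        rw [show 5*g+1-1+x = 5*g+x by omega] at h1 h2
        simp only [uW, lW, one_ne_zero, if_false, hy6]
        omega

theorem lay_zero {D : ℕ} {y : ℕ → ℕ} (hD : 2 ≤ D) {t : ℕ} (h0 : 0 < t) (h : t < 2 ^ D) :
    (lay D 0 y).U (5*t-2) = pc t - 1 ∧ (lay D 0 y).L (5*t-2) = D - pc (t-1) - 1 ∧
    (lay D 0 y).U (5*t-1) = pc t ∧ (lay D 0 y).L (5*t-1) = D - pc t := by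
  have h1 := bld_top (b := 0) (by omega) (leaf := fun g => gt D 0 (y g) g)
    (fun g hg => gt_size hD (by omega) hg) h0 h
  have h2 := lay_grp (y := y) (b := 0) hD (by omega) h
  have e : gt D 0 (y t) t = .node .nil (tr (y t)) := by simp [gt, show t ≠ 0 by omega]
  rw [e] at h2
  have e2 : bt D 0 t = 0 := by unfold bt; rw [if_neg (by omega)]; simp
  rw [e2] at h2
  have h3 := h2.U 0 (by rw [BT.size_node]; omega)
  have h4 := h2.L 0 (by rw [BT.size_node]; omega)
  rw [show 5*t+0-1+0 = 5*t-1 by omega] at h3 h4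
  refine ⟨h1.1, h1.2, h3.trans (by simp [BT.U]), h4.trans (by simp [BT.L])⟩

theorem lay_one {D : ℕ} {y : ℕ → ℕ} (hD : 2 ≤ D) {t : ℕ} (h0 : 0 < t) (h : t < 2 ^ D) :
    (lay D 1 y).U (5*t-2) ≤ pc (t-1) + (if y (t-1) = 6 then 1 else 0) ∧
    (lay D 1 y).L (5*t-2) = D - pc (t-1) ∧
    (lay D 1 y).U (5*t-1) = pc t - 1 ∧ (lay D 1 y).L (5*t-1) = D - pc (t-1) - 1 := by
  have h1 := bld_top (b := 1) (by omega) (leaf := fun g => gt D 1 (y g) g)
    (fun g hg => gt_size hD (by omega) hg) h0 h
  rw [show 5*t-2+1 = 5*t-1 by omega] at h1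
  have h2 := lay_grp (y := y) (b := 1) hD (by omega) (g := t-1) (by omega)
  have e2 : bt D 1 (t-1) = 1 := by
    unfold bt; rw [if_neg (show ¬ t - 1 = 2 ^ D by omega)]; simp
  rw [e2] at h2
  have ht := tr_size (y (t-1))
  by_cases hy : y (t-1) = 6
  · have e : gt D 1 (y (t-1)) (t-1) = sp := by
      simp [gt, show ¬ t - 1 + 1 = 2 ^ D by omega, hy]
    rw [e] at h2
    have hs : sp.size = 4 := rfl
    have h3 := h2.U 3 (by omega)
    have h4 := h2.L 3 (by omega)
    rw [show 5*(t-1)+1-1+3 = 5*t-2 by omega] at h3 h4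
    rw [if_pos hy]
    have s1 : sp.U 3 = 1 := by decide
    have s2 : sp.L 3 = 0 := by decide
    refine ⟨by omega, by omega, h1.1, h1.2⟩
  · have e : gt D 1 (y (t-1)) (t-1) = .node (tr (y (t-1))) .nil := by
      simp [gt, show ¬ t - 1 + 1 = 2 ^ D by omega, hy]
    rw [e] at h2
    have h3 := h2.U 3 (by rw [BT.size_node]; omega)
    have h4 := h2.L 3 (by rw [BT.size_node]; omega)
    rw [show 5*(t-1)+1-1+3 = 5*t-2 by omega] at h3 h4
    rw [if_neg hy]
    have s1 : (BT.node (tr (y (t-1))) .nil).U 3 = 0 := by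
      have := BT.U_root (l := tr (y (t-1))) (r := .nil); rwa [ht] at this
    have s2 : (BT.node (tr (y (t-1))) .nil).L 3 = 0 := by
      have := BT.L_root (l := tr (y (t-1))) (r := .nil); rwa [ht] at this
    refine ⟨by omega, by omega, h1.1, h1.2⟩

end Chain

end Pool.Agent.Lib.MP_7d5495_lc
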