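import Pool.Agent.Lib.MP_7d5495_lc.ChainTab

/-!
# The parameters of the chain instance of a formula
-/

namespace Pool.Agent.Lib.MP_7d5495_lc

namespace Chain

open CookLevin (Cnf)

/-- number of variables (an upper bound) -/
def Vv (φ : Cnf) : ℕ := (φ.map fun cl => (cl.map fun l => l.1 + 1).sum).sum + 1

/-- number of levels -/
def Dd (φ : Cnf) : ℕ := Nat.size (2 * φ.length + 3)

/-- number of trees -/
def Nn (φ : Cnf) : ℕ := 6 * (Vv φ + Dd φ + 1)

/-- number of keys -/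
def mm (φ : Cnf) : ℕ := 5 * 2 ^ Dd φ - 2

/-- bound for the capacities -/
def kap (φ : Cnf) : ℕ := 2 * Dd φ + 3

/-- the capacities -/
def Kk (φ : Cnf) (c j : ℕ) : ℕ := cap φ (Dd φ) (Vv φ) c j

theorem sum_mem_le {l : List ℕ} {a : ℕ} (h : a ∈ l) : a ≤ l.sum := List.le_sum_of_mem h

theorem fit (φ : Cnf) : Fit φ (Dd φ) (Vv φ) where
  var cl hcl l hl := by
    have h1 : l.1 + 1 ≤ (cl.map fun l => l.1 + 1).sum :=
      sum_mem_le (List.mem_map.2 ⟨l, hl, rfl⟩)
    have h2 : (cl.map fun l => l.1 + 1).sum ≤ (φ.map fun cl => (cl.map fun l => l.1 + 1).sum).sum :=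
      sum_mem_le (List.mem_map.2 ⟨cl, hcl, rfl⟩)
    unfold Vv
    omega
  clauses := by
    have := Nat.lt_size_self (2 * φ.length + 3)
    unfold Dd
    omega
  pos := by unfold Vv; omega
  two := by
    have h : Nat.size 3 ≤ Nat.size (2 * φ.length + 3) := Nat.size_le_size (by omega)
    have h3 : Nat.size 3 = 2 := by decide
    unfold Dd
    omega

theorem two_pow_Dd_le (φ : Cnf) : 2 ^ Dd φ ≤ 4 * φ.length + 6 := by
  have h : Nat.size (2 * φ.length + 3) ≤ Nat.size (2 * φ.length + 3) := le_rfl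
  by_contra hcon
  have h1 : ¬ Nat.size (2 * φ.length + 3) ≤ Dd φ - 1 := by
    have h2 : 2 ≤ Dd φ := (fit φ).two
    unfold Dd at h2 ⊢
    omega
  rw [Nat.size_le] at h1
  have h2 : 2 ≤ Dd φ := (fit φ).two
  have h3 : 2 ^ Dd φ = 2 * 2 ^ (Dd φ - 1) := by
    rw [← pow_succ']; congr 1; omega
  omega

theorem Nn_even (φ : Cnf) : Nn φ % 2 = 0 := by unfold Nn; omega
theorem Nn_pos (φ : Cnf) : 0 < Nn φ := by unfold Nn; omega
theorem mm_pos (φ : Cnf) : 0 < mm φ := by
  have : 0 < 2 ^ Dd φ := by positivity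
  unfold mm; omega

end Chain

end Pool.Agent.Lib.MP_7d5495_lc
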