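import Pool.Agent.Lib.MP_7d5495_lc.ChainBuild
import Pool.Agent.Lib.MP_7d5495_lc.ChainParam

/-!
# Completeness of the chain instance
-/

namespace Pool.Agent.Lib.MP_7d5495_lc

namespace Chain

open CookLevin (Cnf)

/-- the types of the wires in the phases `0` (pressure), `1` (relief), `2` (relieved),
`3` (additional windows) -/
def tbl : List (List ℕ) :=
  [[3, 5, 1, 5, 1, 5], [3, 3, 3, 3, 3, 5], [3, 5, 1, 5, 6, 3], [3, 6, 5, 1, 5, 3],
   [5, 3, 3, 3, 3, 3], [5, 1, 5, 1, 5, 3], [2, 3, 3, 3, 3, 5], [2, 3, 3, 3, 3, 5]]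

/-- type of the wire: phase `p`, value `h`, tree `o` of the window -/
def tb (p h o : ℕ) : ℕ := (tbl.getD (2 * p + h) []).getD o 3

theorem tabS : ∀ p < 4, ∀ h < 2, ∀ o < 3, ∀ x < 3, (p ≠ 3 ∨ h = 1) →
    uW (pv h (2*o)) (tb p h (2*o)) x + uW (pv h (2*o+1)) (tb p h (2*o+1)) x ≤
      if x = 2 then 3 else 2 := by
  intro p hp h hh o ho x hx hc
  interval_cases p <;> interval_cases h <;> interval_cases o <;> interval_cases x <;>
    revert hc <;> decide

theorem tabG : ∀ p < 4, ∀ h < 2, ∀ o < 2, ∀ x < 3, (p ≠ 3 ∨ h = 1) →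
    lW (pv h (2*o+1)) (tb p h (2*o+1)) x + lW (pv h (2*o+2)) (tb p h (2*o+2)) x ≤
      if x = 0 then 3 else 2 := by
  intro p hp h hh o ho x hx hc
  interval_cases p <;> interval_cases h <;> interval_cases o <;> interval_cases x <;>
    revert hc <;> decide

/-- possible phases of neighbouring windows -/
def Nxt (p p' : ℕ) : Prop :=
  (p = 0 ∧ (p' = 0 ∨ p' = 1)) ∨ ((p = 1 ∨ p = 2) ∧ p' = 2) ∨ p' = 3

instance (p p' : ℕ) : Decidable (Nxt p p') := by unfold Nxt; infer_instance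

theorem tabC : ∀ p < 4, ∀ h < 2, ∀ p' < 4, ∀ h' < 2, ∀ x < 3, Nxt p p' →
    lW 0 (tb p h 5) x + lW 0 (tb p' h' 0) x ≤ if x = 0 then 3 else 2 := by
  intro p hp h hh p' hp' h' hh' x hx hc
  interval_cases p <;> interval_cases h <;> interval_cases p' <;> interval_cases h' <;>
    interval_cases x <;> revert hc <;> decide

theorem tabT : ∀ h < 2, ∀ h' < 2, ∀ p < 3, p ≠ 0 →
    lW 0 (tb p h 5) 0 + lW 0 (tb 3 h' 0) 0 ≤ 1 := by decide

theorem tab0 : ∀ p < 2, ∀ h < 2, ∀ x < 3, lW 0 (tb p h 0) x ≤ 1 := by decide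

theorem tab6 : ∀ p < 4, ∀ h < 2, ∀ o < 6, tb p h o = 6 →
    p = 1 ∧ ((h = 1 ∧ o = 1) ∨ (h = 0 ∧ o = 4)) := by
  intro p hp h hh o ho hc
  interval_cases p <;> interval_cases h <;> interval_cases o <;> revert hc <;> decide

theorem tabL : ∀ p < 4, ∀ h < 2, ∀ o < 6, ∀ x < 3, lW (pv h o) (tb p h o) x ≤ 3 := by decide

variable {φ : Cnf} {D V : ℕ} {τ : ℕ → Bool}

/-- value of the window `w` -/
def hv (τ : ℕ → Bool) (V w : ℕ) : ℕ := if w < V then (if τ w then 1 else 0) else 1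

theorem hv_lt (w : ℕ) : hv τ V w < 2 := by unfold hv; split_ifs <;> omega

/-- the clause of the group `g` has a true literal with the variable `w` -/
def TL (φ : Cnf) (τ : ℕ → Bool) (w g : ℕ) : Prop :=
  (τ w = true ∧ rel φ w g true = 1) ∨ (τ w = false ∧ rel φ w g false = 1)

instance (φ : Cnf) (τ : ℕ → Bool) (w g : ℕ) : Decidable (TL φ τ w g) := by
  unfold TL; infer_instance

/-- the phase of the group `g` in the window `w` -/
def ph (φ : Cnf) (τ : ℕ → Bool) (V w g : ℕ) : ℕ :=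
  if V ≤ w then 3 else if ∃ w' < w, TL φ τ w' g then 2 else if TL φ τ w g then 1 else 0

theorem ph_lt (w g : ℕ) : ph φ τ V w g < 4 := by unfold ph; split_ifs <;> omega

theorem ph_nxt (w g : ℕ) : Nxt (ph φ τ V w g) (ph φ τ V (w+1) g) := by
  unfold Nxt ph
  by_cases h1 : V ≤ w + 1
  · simp [h1]
  · have h2 : ¬ V ≤ w := by omega
    simp only [h1, h2, if_false]
    by_cases h3 : ∃ w' < w, TL φ τ w' g
    · have h4 : ∃ w' < w + 1, TL φ τ w' g := by
        obtain ⟨w', h5, h6⟩ := h3; exact ⟨w', by omega, h6⟩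
      rw [if_pos h3, if_pos h4]; decide
    · by_cases h5 : TL φ τ w g
      · have h4 : ∃ w' < w + 1, TL φ τ w' g := ⟨w, by omega, h5⟩
        rw [if_neg h3, if_pos h5, if_pos h4]; decide
      · have h4 : ¬ ∃ w' < w + 1, TL φ τ w' g := by
          rintro ⟨w', h6, h7⟩
          rcases Nat.lt_succ_iff_lt_or_eq.1 h6 with h8 | rfl
          · exact h3 ⟨w', h8, h7⟩
          · exact h5 h7
        simp only [h3, h4, h5, if_false]
        split_ifs <;> simp

/-- the chain -/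
def tree (φ : Cnf) (D V : ℕ) (τ : ℕ → Bool) (i : ℕ) : BT :=
  lay D (pv (hv τ V (i/6)) (i%6)) fun g => tb (ph φ τ V (i/6) g) (hv τ V (i/6)) (i%6)

theorem pv_le {v i : ℕ} (h : v < 2) : pv v i ≤ 1 := by unfold pv; split_ifs <;> omega

theorem TL_group {w g : ℕ} (h : TL φ τ w g) :
    g % 2 = 1 ∧ 3 ≤ g ∧ (g - 3) / 2 < φ.length := by
  have key : ∀ s, rel φ w g s = 1 → g % 2 = 1 ∧ 3 ≤ g ∧ (g - 3) / 2 < φ.length := by
    intro s hs
    unfold rel at hs
    split_ifs at hs with h1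
    · refine ⟨h1.1, h1.2.1, ?_⟩
      by_contra h2
      have := h1.2.2
      rw [List.getD_eq_default _ _ (by omega)] at this
      simp at this
  rcases h with ⟨-, h⟩ | ⟨-, h⟩
  · exact key _ h
  · exact key _ h

theorem six {i g : ℕ} (h : tb (ph φ τ V (i/6) g) (hv τ V (i/6)) (i%6) = 6) :
    pv (hv τ V (i/6)) (i%6) = 1 ∧ TL φ τ (i/6) g ∧ i/6 < V ∧
      ((hv τ V (i/6) = 1 ∧ i%6 = 1) ∨ (hv τ V (i/6) = 0 ∧ i%6 = 4)) := by
  obtain ⟨h1, h2⟩ := tab6 _ (ph_lt _ _) _ (hv_lt _) _ (Nat.mod_lt _ (by norm_num)) h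
  have h3 : TL φ τ (i/6) g ∧ i/6 < V := by
    unfold ph at h1
    split_ifs at h1 with h4 h5 h6
    all_goals first | omega | exact ⟨h6, by omega⟩
  refine ⟨?_, h3.1, h3.2, h2⟩
  rcases h2 with ⟨h4, h5⟩ | ⟨h4, h5⟩ <;> rw [h4, h5] <;> rfl

theorem tree_wire (hF : Fit φ D V) {i g x : ℕ} (hg : g < 2 ^ D) (hx : x < 3) :
    (tree φ D V τ i).U (5*g+x) ≤ pc g + uW (pv (hv τ V (i/6)) (i%6))
      (tb (ph φ τ V (i/6) g) (hv τ V (i/6)) (i%6)) x ∧
    (tree φ D V τ i).L (5*g+x) ≤ D - pc g + lW (pv (hv τ V (i/6)) (i%6))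
      (tb (ph φ τ V (i/6) g) (hv τ V (i/6)) (i%6)) x := by
  refine lay_wire hF.two (pv_le (hv_lt _)) (fun g h => (six h).1) ?_ hg hx
  intro h
  obtain ⟨h1, h2, h3⟩ := TL_group (six h).2.1
  have := hF.clauses
  omega

theorem tree_a (hF : Fit φ D V) {i t : ℕ} (h0 : 0 < t) (h : t < 2 ^ D) :
    (pv (hv τ V (i/6)) (i%6) = 0 → (tree φ D V τ i).U (5*t-2) ≤ pc t - 1 ∧
      (tree φ D V τ i).L (5*t-2) ≤ D - pc (t-1) - 1 ∧
      (tree φ D V τ i).U (5*t-1) ≤ pc t ∧ (tree φ D V τ i).L (5*t-1) ≤ D - pc t) ∧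
    (pv (hv τ V (i/6)) (i%6) = 1 →
      (tree φ D V τ i).U (5*t-2) ≤ pc (t-1) + (if TL φ τ (i/6) (t-1) ∧ i/6 < V ∧
      ((hv τ V (i/6) = 1 ∧ i%6 = 1) ∨ (hv τ V (i/6) = 0 ∧ i%6 = 4)) then 1 else 0) ∧
      (tree φ D V τ i).L (5*t-2) ≤ D - pc (t-1) ∧
      (tree φ D V τ i).U (5*t-1) ≤ pc t - 1 ∧
      (tree φ D V τ i).L (5*t-1) ≤ D - pc (t-1) - 1) := by
  constructor
  · intro hb
    unfold tree
    rw [hb]
    obtain ⟨h1, h2, h3, h4⟩ := lay_zero (y := fun g => tb (ph φ τ V (i/6) g) (hv τ V (i/6))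
      (i%6)) hF.two h0 h
    exact ⟨h1.le, h2.le, h3.le, h4.le⟩
  · intro hb
    unfold tree
    rw [hb]
    obtain ⟨h1, h2, h3, h4⟩ := lay_one (y := fun g => tb (ph φ τ V (i/6) g) (hv τ V (i/6))
      (i%6)) hF.two h0 h
    refine ⟨h1.trans ?_, h2.le, h3.le, h4.le⟩
    by_cases h6 : tb (ph φ τ V (i/6) (t-1)) (hv τ V (i/6)) (i%6) = 6
    · have h7 := (six h6).2
      simp only [h6, if_true]
      rw [if_pos h7]
    · simp only [h6, if_false]
      omega

theorem key_cases {D j : ℕ} (hj : j < 5 * 2 ^ D - 2) :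
    (∃ g x, g < 2 ^ D ∧ x < 3 ∧ j = 5*g+x) ∨ (∃ t, 0 < t ∧ t < 2 ^ D ∧ j = 5*t-2) ∨
      (∃ t, 0 < t ∧ t < 2 ^ D ∧ j = 5*t-1) := by
  have h1 : j % 5 < 3 ∨ j % 5 = 3 ∨ j % 5 = 4 := by omega
  rcases h1 with h1 | h1 | h1
  · exact Or.inl ⟨j/5, j%5, by omega, h1, by omega⟩
  · exact Or.inr (Or.inl ⟨j/5+1, by omega, by omega, by omega⟩)
  · exact Or.inr (Or.inr ⟨j/5+1, by omega, by omega, by omega⟩)

theorem pc_le_pred {t : ℕ} (h0 : 0 < t) : pc t ≤ pc (t-1) + 1 ∧ 1 ≤ pc t := by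
  obtain ⟨e, c, h1, h2, rfl⟩ := exists_dyadic h0 (Nat.lt_two_pow_self (n := t))
  rw [pc_pred, pc_mul_pow, pc_two_mul_add]
  omega

theorem phase_cl (hsat : ∀ cl ∈ φ, CookLevin.ClauseSat τ cl) (hF : Fit φ D V) {g : ℕ}
    (hg : IsCl φ g) : ph φ τ V (V-1) g ≠ 0 := by
  obtain ⟨h1, h2, h3⟩ := hg
  obtain ⟨l, hl, hτ⟩ := hsat _ (List.getElem_mem h3)
  have hV := hF.var _ (List.getElem_mem h3) l hl
  have hTL : TL φ τ l.1 g := by
    have hr : ∀ s, l.2 = s → rel φ l.1 g s = 1 := by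
      intro s hs
      unfold rel
      rw [if_pos]
      refine ⟨h1, h2, ?_⟩
      rw [List.getD_eq_getElem _ _ h3, ← hs]
      exact hl
    unfold TL
    cases hs : l.2 with
    | true => exact Or.inl ⟨by rw [hτ, hs], hr _ hs⟩
    | false => exact Or.inr ⟨by rw [hτ, hs], hr _ hs⟩
  unfold ph
  rw [if_neg (by omega)]
  by_cases h4 : l.1 = V - 1
  · split_ifs with h5 h6
    · omega
    · omega
    · exact absurd (h4 ▸ hTL) h6
  · rw [if_pos ⟨l.1, by omega, hTL⟩]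
    omega

theorem hc_ok (w g : ℕ) : ph φ τ V w g ≠ 3 ∨ hv τ V w = 1 := by
  by_cases h : V ≤ w
  · right; unfold hv; rw [if_neg (by omega)]
  · left; unfold ph; rw [if_neg h]; split_ifs <;> omega

/-- odd corridors -/
theorem stepU_ok (hF : Fit φ D V) {i j : ℕ} (hi2 : i % 2 = 0)
    (hi : i + 1 < 6 * (V + D + 1)) (hj : j < 5 * 2 ^ D - 2) :
    (tree φ D V τ i).U j + (tree φ D V τ (i+1)).U j ≤ cap φ D V (i+1) j := by
  have hw : (i+1)/6 = i/6 := by omega
  have ho : (i+1)%6 = i%6+1 := by omega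
  have hh := hv_lt (τ := τ) (V := V) (i/6)
  have ho3 : i%6 = 0 ∨ i%6 = 2 ∨ i%6 = 4 := by omega
  rcases key_cases hj with ⟨g, x, hg, hx, rfl⟩ | ⟨t, h0, ht, rfl⟩ | ⟨t, h0, ht, rfl⟩
  · have h1 := (tree_wire hF (i := i) (τ := τ) hg hx).1
    have h2 := (tree_wire hF (i := i+1) (τ := τ) hg hx).1
    rw [hw, ho] at h2
    have h3 := tabS _ (ph_lt (φ := φ) (τ := τ) (V := V) (i/6) g) _ hh (i%6/2) (by omega) x hx
      (hc_ok _ _)
    rw [show 2*(i%6/2) = i%6 by omega] at h3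
    rw [cap_S_k hx (by omega) hi]
    omega
  · rw [cap_S_a h0 (by omega) hi, hw, ho]
    obtain ⟨a0, a1⟩ := tree_a hF (i := i) (τ := τ) h0 ht
    obtain ⟨b0, b1⟩ := tree_a hF (i := i+1) (τ := τ) h0 ht
    rw [hw, ho] at b0 b1
    have hpc := pc_le_pred h0
    have hrel : ∀ s, hv τ V (i/6) = (if s then 1 else 0) → i/6 < V →
        TL φ τ (i/6) (t-1) → rel φ (i/6) (t-1) s = 1 := by
      intro s h1 h2 h3
      unfold hv at h1
      rw [if_pos h2] at h1
      unfold TL at h3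
      cases s <;> cases hτ : τ (i/6) <;> simp_all
    have hh2 : hv τ V (i/6) = 0 ∨ hv τ V (i/6) = 1 := by omega
    rcases ho3 with ho3 | ho3 | ho3 <;> rcases hh2 with hh2 | hh2 <;>
      rw [ho3, hh2] at a0 a1 b0 b1 <;> rw [ho3]
    · have := (a0 rfl).1; have := (b0 rfl).1; omega
    · have h3 := (a0 rfl).1
      have h4 := (b1 rfl).1
      have h5 := hrel true (by simpa using hh2)
      norm_num at h4 ⊢
      split_ifs at h4 with h6
      · have := h5 h6.2 h6.1; omega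
      · omega
    · have h3 := (a1 rfl).1
      have h4 := (b0 rfl).1
      norm_num at h3 ⊢
      omega
    · have h3 := (a0 rfl).1
      have h4 := (b1 rfl).1
      norm_num at h4 ⊢
      omega
    · have h3 := (a1 rfl).1
      have h4 := (b0 rfl).1
      have h5 := hrel false (by simpa using hh2)
      norm_num at h3 ⊢
      split_ifs at h3 with h6
      · have := h5 h6.2 h6.1; omega
      · omega
    · have := (a0 rfl).1; have := (b0 rfl).1; omega
  · rw [cap_S_b h0 (by omega) hi, ho]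
    obtain ⟨a0, a1⟩ := tree_a hF (i := i) (τ := τ) h0 ht
    obtain ⟨b0, b1⟩ := tree_a hF (i := i+1) (τ := τ) h0 ht
    rw [hw, ho] at b0 b1
    have hpc := pc_le_pred h0
    have hh2 : hv τ V (i/6) = 0 ∨ hv τ V (i/6) = 1 := by omega
    rcases ho3 with ho3 | ho3 | ho3 <;> rcases hh2 with hh2 | hh2 <;>
      rw [ho3, hh2] at a0 a1 b0 b1 <;> rw [ho3]
    · have := (a0 rfl).2.2.1; have := (b0 rfl).2.2.1; norm_num; omega
    · have := (a0 rfl).2.2.1; have := (b1 rfl).2.2.1; norm_num; omega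
    · have := (a1 rfl).2.2.1; have := (b0 rfl).2.2.1; norm_num; omega
    · have := (a0 rfl).2.2.1; have := (b1 rfl).2.2.1; norm_num; omega
    · have := (a1 rfl).2.2.1; have := (b0 rfl).2.2.1; norm_num; omega
    · have := (a0 rfl).2.2.1; have := (b0 rfl).2.2.1; norm_num; omega

/-- even corridors inside a window -/
theorem stepL_ok (hF : Fit φ D V) {i j : ℕ} (hi2 : i % 6 = 1 ∨ i % 6 = 3)
    (hi : i + 1 < 6 * (V + D + 1)) (hj : j < 5 * 2 ^ D - 2) :
    (tree φ D V τ i).L j + (tree φ D V τ (i+1)).L j ≤ cap φ D V (i+1) j := by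
  have hw : (i+1)/6 = i/6 := by omega
  have ho : (i+1)%6 = i%6+1 := by omega
  have hh := hv_lt (τ := τ) (V := V) (i/6)
  rcases key_cases hj with ⟨g, x, hg, hx, rfl⟩ | ⟨t, h0, ht, rfl⟩ | ⟨t, h0, ht, rfl⟩
  · have h1 := (tree_wire hF (i := i) (τ := τ) hg hx).2
    have h2 := (tree_wire hF (i := i+1) (τ := τ) hg hx).2
    rw [hw, ho] at h2
    have h3 := tabG _ (ph_lt (φ := φ) (τ := τ) (V := V) (i/6) g) _ hh (i%6/2) (by omega) x hx
      (hc_ok _ _)
    rw [show 2*(i%6/2)+1 = i%6 by omega, show 2*(i%6/2)+2 = i%6+1 by omega] at h3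
    rw [cap_G_k hx (by omega) (by omega) hi]
    have h4 : ¬ (i+1 = 6*V ∧ IsCl φ g) := by rintro ⟨h5, -⟩; omega
    rw [if_neg h4]
    split_ifs at h3 ⊢ <;> omega
  · rw [cap_G_a h0 (by omega) (by omega) hi, ho]
    obtain ⟨a0, a1⟩ := tree_a hF (i := i) (τ := τ) h0 ht
    obtain ⟨b0, b1⟩ := tree_a hF (i := i+1) (τ := τ) h0 ht
    rw [hw, ho] at b0 b1
    have hpc := pc_pred_lt h0 ht
    have hh2 : hv τ V (i/6) = 0 ∨ hv τ V (i/6) = 1 := by omega
    rcases hi2 with ho3 | ho3 <;> rcases hh2 with hh2 | hh2 <;>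
      rw [ho3, hh2] at a0 a1 b0 b1 <;> rw [ho3]
    · have := (a0 rfl).2.1; have := (b1 rfl).2.1; norm_num; omega
    · have := (a1 rfl).2.1; have := (b0 rfl).2.1; norm_num; omega
    · have := (a0 rfl).2.1; have := (b1 rfl).2.1; norm_num; omega
    · have := (a1 rfl).2.1; have := (b0 rfl).2.1; norm_num; omega
  · rw [cap_G_b h0 (by omega) (by omega) hi, ho]
    obtain ⟨a0, a1⟩ := tree_a hF (i := i) (τ := τ) h0 ht
    obtain ⟨b0, b1⟩ := tree_a hF (i := i+1) (τ := τ) h0 ht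
    rw [hw, ho] at b0 b1
    have hh2 : hv τ V (i/6) = 0 ∨ hv τ V (i/6) = 1 := by omega
    rcases hi2 with ho3 | ho3 <;> rcases hh2 with hh2 | hh2 <;>
      rw [ho3, hh2] at a0 a1 b0 b1 <;> rw [ho3]
    · have := (a0 rfl).2.2.2; have := (b1 rfl).2.2.2; norm_num; omega
    · have := (a1 rfl).2.2.2; have := (b0 rfl).2.2.2; norm_num; omega
    · have := (a0 rfl).2.2.2; have := (b1 rfl).2.2.2; norm_num; omega
    · have := (a1 rfl).2.2.2; have := (b0 rfl).2.2.2; norm_num; omega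

/-- even corridors between two windows -/
theorem stepC_ok (hF : Fit φ D V) (hsat : ∀ cl ∈ φ, CookLevin.ClauseSat τ cl) {i j : ℕ}
    (hi2 : i % 6 = 5) (hi : i + 1 < 6 * (V + D + 1)) (hj : j < 5 * 2 ^ D - 2) :
    (tree φ D V τ i).L j + (tree φ D V τ (i+1)).L j ≤ cap φ D V (i+1) j := by
  have hw : (i+1)/6 = i/6+1 := by omega
  have ho : (i+1)%6 = 0 := by omega
  have p5 : ∀ v, pv v 5 = 0 := by intro v; simp [pv]
  have p0 : ∀ v, pv v 0 = 0 := by intro v; simp [pv]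
  rcases key_cases hj with ⟨g, x, hg, hx, rfl⟩ | ⟨t, h0, ht, rfl⟩ | ⟨t, h0, ht, rfl⟩
  · have h1 := (tree_wire hF (i := i) (τ := τ) hg hx).2
    have h2 := (tree_wire hF (i := i+1) (τ := τ) hg hx).2
    rw [hw, ho, p0] at h2
    rw [hi2, p5] at h1
    rw [cap_G_k hx (by omega) (by omega) hi]
    by_cases hT : x = 0 ∧ i+1 = 6*V ∧ IsCl φ g
    · obtain ⟨rfl, h3, h4⟩ := hT
      rw [if_pos rfl, if_pos ⟨h3, h4⟩]
      have h5 : i/6 = V-1 := by omega
      have h6 : ph φ τ V (i/6+1) g = 3 := by unfold ph; rw [if_pos (by omega)]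
      have h7 := phase_cl hsat hF h4
      rw [← h5] at h7
      have h8 : ph φ τ V (i/6) g < 3 := by
        have := hF.pos
        unfold ph; rw [if_neg (by omega)]; split_ifs <;> omega
      have h9 := tabT _ (hv_lt (τ := τ) (V := V) (i/6)) _ (hv_lt (τ := τ) (V := V) (i/6+1)) _
        h8 h7
      rw [h6] at h2
      omega
    · have h3 := tabC _ (ph_lt (φ := φ) (τ := τ) (V := V) (i/6) g) _
        (hv_lt (τ := τ) (V := V) (i/6)) _ (ph_lt (φ := φ) (τ := τ) (V := V) (i/6+1) g) _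
        (hv_lt (τ := τ) (V := V) (i/6+1)) x hx (ph_nxt _ _)
      by_cases hx0 : x = 0
      · rw [if_pos hx0, if_neg (fun h => hT ⟨hx0, h⟩)]
        rw [if_pos hx0] at h3
        omega
      · rw [if_neg hx0]
        rw [if_neg hx0] at h3
        omega
  · rw [cap_G_a h0 (by omega) (by omega) hi, if_pos ho]
    have h1 := ((tree_a hF (i := i) (τ := τ) h0 ht).1 (by rw [hi2, p5])).2.1
    have h2 := ((tree_a hF (i := i+1) (τ := τ) h0 ht).1 (by rw [ho, p0])).2.1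
    omega
  · rw [cap_G_b h0 (by omega) (by omega) hi, if_pos ho]
    have h1 := ((tree_a hF (i := i) (τ := τ) h0 ht).1 (by rw [hi2, p5])).2.2.2
    have h2 := ((tree_a hF (i := i+1) (τ := τ) h0 ht).1 (by rw [ho, p0])).2.2.2
    omega

theorem complete' (hF : Fit φ D V) (hsat : ∀ cl ∈ φ, CookLevin.ClauseSat τ cl) :
    ChainSol (6 * (V + D + 1)) (5 * 2 ^ D - 2) (cap φ D V) (tree φ D V τ) := by
  have hV := hF.pos
  refine ⟨⟨fun i _ => lay_size hF.two (pv_le (hv_lt _)), ?_, ?_⟩, ?_⟩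
  · -- corridor 0
    intro j hj
    have hp0 : ∀ g, ph φ τ V 0 g < 2 := by
      intro g; unfold ph
      rw [if_neg (by omega), if_neg (by rintro ⟨w', h, -⟩; omega)]
      split_ifs <;> omega
    rcases key_cases hj with ⟨g, x, hg, hx, rfl⟩ | ⟨t, h0, ht, rfl⟩ | ⟨t, h0, ht, rfl⟩
    · have h1 := (tree_wire hF (i := 0) (τ := τ) hg hx).2
      have h2 := tab0 _ (hp0 g) _ (hv_lt (τ := τ) (V := V) 0) x hx
      have h3 : cap φ D V 0 (5*g+x) = D - pc g + 1 := by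
        simp only [cap, if_true, show (5*g+x)%5 = x by omega, show (5*g+x)/5 = g by omega, hx]
      have h4 : pv (hv τ V (0/6)) (0%6) = 0 := by simp [pv]
      rw [h4] at h1
      rw [h3]
      refine h1.trans ?_
      have h5 : (0:ℕ)/6 = 0 := rfl
      have h6 : (0:ℕ)%6 = 0 := rfl
      rw [h5, h6]
      omega
    · rw [cap_zero_a h0]
      exact ((tree_a hF (i := 0) (τ := τ) h0 ht).1 (by simp [pv])).2.1
    · rw [cap_zero_b h0]
      exact ((tree_a hF (i := 0) (τ := τ) h0 ht).1 (by simp [pv])).2.2.2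
  · -- inner corridors
    intro i hi j hj
    split_ifs with h2
    · exact stepU_ok hF h2 hi hj
    · by_cases h5 : i % 6 = 5
      · exact stepC_ok hF hsat h5 hi hj
      · exact stepL_ok hF (by omega) hi hj
  · -- the last corridor
    intro j hj
    have hcap : cap φ D V (6 * (V + D + 1)) j = 2 * D + 3 := by
      unfold cap; rw [if_neg (by omega), if_pos le_rfl]
    rw [hcap]
    rcases key_cases hj with ⟨g, x, hg, hx, rfl⟩ | ⟨t, h0, ht, rfl⟩ | ⟨t, h0, ht, rfl⟩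
    · have h1 := (tree_wire hF (i := 6 * (V + D + 1) - 1) (τ := τ) hg hx).2
      refine h1.trans ?_
      have := tabL _ (ph_lt (φ := φ) (τ := τ) (V := V) ((6 * (V + D + 1) - 1)/6) g) _
        (hv_lt (τ := τ) (V := V) ((6 * (V + D + 1) - 1)/6)) ((6 * (V + D + 1) - 1)%6)
        (by omega) x hx
      omega
    · have hb := pv_le (v := hv τ V ((6 * (V + D + 1) - 1)/6)) (i := (6 * (V + D + 1) - 1)%6)
        (hv_lt _)
      obtain ⟨h1, h2⟩ := tree_a hF (i := 6 * (V + D + 1) - 1) (τ := τ) h0 ht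
      rcases Nat.eq_zero_or_pos (pv (hv τ V ((6 * (V + D + 1) - 1)/6))
        ((6 * (V + D + 1) - 1)%6)) with h3 | h3
      · have := (h1 h3).2.1; omega
      · have := (h2 (by omega)).2.1; omega
    · have hb := pv_le (v := hv τ V ((6 * (V + D + 1) - 1)/6)) (i := (6 * (V + D + 1) - 1)%6)
        (hv_lt _)
      obtain ⟨h1, h2⟩ := tree_a hF (i := 6 * (V + D + 1) - 1) (τ := τ) h0 ht
      rcases Nat.eq_zero_or_pos (pv (hv τ V ((6 * (V + D + 1) - 1)/6))
        ((6 * (V + D + 1) - 1)%6)) with h3 | h3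
      · have := (h1 h3).2.2.2; omega
      · have := (h2 (by omega)).2.2.2; omega

/-- **completeness** -/
theorem complete (hF : Fit φ D V) (h : CookLevin.Sat φ) :
    ∃ T, ChainSol (6 * (V + D + 1)) (5 * 2 ^ D - 2) (cap φ D V) T := by
  obtain ⟨τ, hτ⟩ := h
  exact ⟨_, complete' hF hτ⟩

/-! ### the statements used by the geometric part -/

theorem chain_complete (φ : Cnf) (h : CookLevin.Sat φ) : ∃ T, ChainSol (Nn φ) (mm φ) (Kk φ) T :=
  complete (fit φ) h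

theorem chain_sound (φ : Cnf) (h : ∃ T, ChainPre (Nn φ) (mm φ) (Kk φ) T) : CookLevin.Sat φ :=
  sound (fit φ) h

theorem rel_le (φ : Cnf) (w g : ℕ) (s : Bool) : rel φ w g s ≤ 1 := by
  unfold rel; split_ifs <;> omega

theorem cap_le {φ : Cnf} {D V c j : ℕ} (hj : j < 5 * 2 ^ D - 2) : cap φ D V c j ≤ 2 * D + 3 := by
  have hg : pc (j/5) ≤ D := pc_le (by omega)
  have hg' : 3 ≤ j % 5 → pc (j/5+1) ≤ D := fun h => pc_le (by omega)
  have h1 := rel_le φ (c/6) (j/5) true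
  have h2 := rel_le φ (c/6) (j/5) false
  have hs : capS φ c (j/5) (j%5) ≤ 2 * D + 3 := by
    unfold capS
    split_ifs <;> omega
  have hG : capG φ D V c (j/5) (j%5) ≤ 2 * D + 3 := by
    unfold capG
    split_ifs <;> omega
  unfold cap
  split_ifs <;> omega

theorem Kk_le (φ : Cnf) (c : ℕ) {j : ℕ} (hj : j < mm φ) : Kk φ c j ≤ kap φ := cap_le hj

end Chain

end Pool.Agent.Lib.MP_7d5495_lc
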