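import Pool.Agent.Lib.MP_7d5495_lc.Geo

/-!
# Parameters, frames and zones

The square number `t` (the bend number `t`) has standard coordinates `(p, q)`: the corridor enters
from the left in the rows `D ≤ q < D + B`, and leaves downwards in the columns `D ≤ p < D + B`.
The straight piece in front of the square is `-lam t ≤ p < 0`.  The frame `t + 1` is obtained from
the frame `t` by a rotation: the point `(p, q)` of the frame `t + 1` is the point
`(q, - lam (t + 1) - p)` of the frame `t`.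
-/

namespace Pool.Agent.Lib.MP_7d5495_lc

/-- the binomial coefficient `a + b - 2` over `a - 1` (`0` if `a = 0` or `b = 0`) -/
def beta (a b : ℕ) : ℕ := if a = 0 ∨ b = 0 then 0 else (a + b - 2).choose (a - 1)

theorem beta_one_left {b : ℕ} (hb : 1 ≤ b) : beta 1 b = 1 := by
  unfold beta; rw [if_neg (by omega)]; simp

theorem beta_one_right {a : ℕ} (ha : 1 ≤ a) : beta a 1 = 1 := by
  unfold beta; rw [if_neg (by omega)]
  have : a + 1 - 2 = a - 1 := by omega
  rw [this]; simp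

theorem beta_comm (a b : ℕ) : beta a b = beta b a := by
  unfold beta
  by_cases h : a = 0 ∨ b = 0
  · rw [if_pos h, if_pos (by tauto)]
  · rw [if_neg h, if_neg (by tauto)]
    have h1 : a + b - 2 = (a - 1) + (b - 1) := by omega
    have h2 : b + a - 2 = (a - 1) + (b - 1) := by omega
    rw [h1, h2]
    exact Nat.choose_symm_add

theorem beta_rec {a b : ℕ} (ha : 2 ≤ a) (hb : 2 ≤ b) :
    beta a b = beta (a - 1) b + beta a (b - 1) := by
  obtain ⟨a, rfl⟩ := Nat.exists_eq_add_of_le ha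
  obtain ⟨b, rfl⟩ := Nat.exists_eq_add_of_le hb
  unfold beta
  rw [if_neg (by omega), if_neg (by omega), if_neg (by omega)]
  have h1 : 2 + a + (2 + b) - 2 = (a + b + 1) + 1 := by omega
  have h2 : 2 + a - 1 = a + 1 := by omega
  have h3 : 2 + a - 1 + (2 + b) - 2 = a + b + 1 := by omega
  have h4 : 2 + a - 1 - 1 = a := by omega
  have h5 : 2 + a + (2 + b - 1) - 2 = a + b + 1 := by omega
  rw [h1, h3, h4, h5, h2, Nat.choose_succ_succ]

theorem beta_pos {a b : ℕ} (ha : 1 ≤ a) (hb : 1 ≤ b) : 1 ≤ beta a b := by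
  unfold beta; rw [if_neg (by omega)]
  exact Nat.choose_pos (by omega)

theorem beta_mono_left {a a' b : ℕ} (h : a ≤ a') : beta a b ≤ beta a' b := by
  induction a', h using Nat.le_induction with
  | base => exact le_rfl
  | succ n hn ih =>
    refine ih.trans ?_
    rcases Nat.eq_zero_or_pos b with hb | hb
    · simp [beta, hb]
    rcases Nat.eq_zero_or_pos n with h0 | h0
    · simp [beta, h0]
    rcases Nat.eq_or_lt_of_le (show 1 ≤ b from hb) with hb1 | hb1
    · rw [← hb1, beta_one_right h0, beta_one_right (by omega)]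
    · rw [beta_rec (a := n + 1) (by omega) hb1]
      have : n + 1 - 1 = n := by omega
      rw [this]; omega

theorem beta_mono_right {a b b' : ℕ} (h : b ≤ b') : beta a b ≤ beta a b' := by
  rw [beta_comm a b, beta_comm a b']; exact beta_mono_left h

/-- The parameters of the construction: `N` bends, `m` keys, the number `k`, and the numbers
`e t i` of tiles that the end pocket of the key `i` of the bend `t` forces. -/
structure Par where
  /-- number of bends -/
  N : ℕ
  /-- number of keys -/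
  m : ℕ
  /-- bound for the stabbing number -/
  k : ℕ
  /-- loads of the end pockets -/
  e : ℕ → ℕ → ℕ

namespace Par

variable (P : Par)

/-- size of the wall pockets -/
def w : ℕ := beta P.k (P.k - 1) + 1

/-- size of the steps -/
def D : ℕ := 2 * P.w + 2

/-- width of the corridor -/
def B : ℕ := P.m * P.D

/-- side of the squares -/
def Δ : ℕ := (P.m + 2) * P.D

/-- length of the straight piece in front of the square number `t` -/
def lam (t : ℕ) : ℕ := t * P.Δ

/-- size of the end pocket -/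
def h (t i : ℕ) : ℕ := beta (P.e t i) P.k

/-- the right side of the column `i` of the corner, where the finger of the key `i` begins -/
def X (i : ℕ) : ℤ := ((i : ℤ) + 2) * P.D

/-- the height of the column `i` of the corner -/
def Y (i : ℕ) : ℤ := ((P.m : ℤ) + 1 - i) * P.D

/-- all boxes -/
def rects : List (Bx × ℕ) := boxes P.N P.m P.w P.h

/-- the cyclic list of the vertices of the polygon -/
def poly : List (ℚ × ℚ) := vertices P.rects

/-- coordinate of the origin of the frame `0` -/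
def O : ℤ := ((P.N : ℤ) + 4) * P.Δ

/-- The unit cell with the lower left corner `(a, b)` belongs to the polygon. -/
def abs (a b : ℤ) : Prop :=
  ∃ Rs ∈ P.rects, ((Rs.1.1.1 : ℕ) : ℤ) ≤ a ∧ a < ((Rs.1.1.2 : ℕ) : ℤ) ∧
    ((Rs.1.2.1 : ℕ) : ℤ) ≤ b ∧ b < ((Rs.1.2.2 : ℕ) : ℤ)

/-- The cell `(a, b)` of the frame `t` belongs to the polygon. -/
def cell : ℕ → ℤ → ℤ → Prop
  | 0, a, b => P.abs (P.O + a) (P.O + b)
  | t + 1, a, b => cell t b (-(P.lam (t + 1) : ℤ) - a - 1)

/-- Conditions for the parameters; `κ` is a bound for the loads of the trees. -/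
structure Ok (κ : ℕ) : Prop where
  N_pos : 1 ≤ P.N
  m_pos : 1 ≤ P.m
  k_ge : 2 * κ + 8 ≤ P.k
  e_ge : ∀ t i, 2 ≤ P.e t i
  e_le : ∀ t i, P.e t i + 4 ≤ P.k

/-- The chain problem in the labels of the bends. -/
def GeoPre (S : ℕ → BT) : Prop :=
  (∀ t < P.N, (S t).size = P.m) ∧
  (∀ i < P.m, (S 0).U i + 4 + P.e 0 i ≤ P.k) ∧
  (∀ t, t + 1 < P.N → ∀ i < P.m,
    (S t).L (P.m - 1 - i) + (S (t + 1)).U i + 6 + P.e (t + 1) i ≤ P.k)

/-- The chain problem with bounds for the loads. -/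
def GeoSol (κ : ℕ) (S : ℕ → BT) : Prop :=
  P.GeoPre S ∧ ∀ t < P.N, ∀ i < P.m, (S t).L i ≤ κ ∧ (S t).U i ≤ κ

end Par

/-! ### arithmetic of the parameters -/

namespace Par

variable {P : Par}

theorem D_eq : (P.D : ℤ) = 2 * P.w + 2 := by unfold D; push_cast; ring

theorem Δ_eq : (P.Δ : ℤ) = P.B + 2 * P.D := by unfold Δ B; push_cast; ring

theorem B_eq : (P.B : ℤ) = P.m * P.D := by unfold B; push_cast; ring

theorem D_pos : (0 : ℤ) < P.D := by rw [D_eq]; omega

theorem D_le_B (hm : 1 ≤ P.m) : (P.D : ℤ) ≤ P.B := by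
  rw [B_eq]
  have h1 : (1 : ℤ) ≤ P.m := by exact_mod_cast hm
  nlinarith [D_pos (P := P)]

theorem lam_zero : P.lam 0 = 0 := by unfold lam; simp

theorem lam_succ (t : ℕ) : (P.lam (t + 1) : ℤ) = P.lam t + P.Δ := by unfold lam; push_cast; ring

theorem X_zero : P.X 0 = 2 * P.D := by unfold X; push_cast; ring

theorem X_succ (i : ℕ) : P.X (i + 1) = P.X i + P.D := by unfold X; push_cast; ring

theorem Y_zero : P.Y 0 = P.D + P.B := by unfold Y; rw [B_eq]; push_cast; ring

theorem Y_succ (i : ℕ) : P.Y (i + 1) = P.Y i - P.D := by unfold Y; push_cast; ring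

/-- the corner of the step `i` -/
theorem X_add_Y (i : ℕ) : P.X i + P.Y i = P.Δ + P.D := by
  unfold X Y Δ; push_cast; ring

theorem X_mono {i j : ℕ} (h : i < j) : P.X i + P.D ≤ P.X j := by
  unfold X
  have h1 : (i : ℤ) + 1 ≤ j := by exact_mod_cast h
  nlinarith [D_pos (P := P)]

theorem X_le {i : ℕ} (hi : i < P.m) : P.X i ≤ P.D + P.B := by
  unfold X; rw [B_eq]
  have h1 : (i : ℤ) + 1 ≤ P.m := by exact_mod_cast hi
  nlinarith [D_pos (P := P)]

theorem le_X (i : ℕ) : 2 * (P.D : ℤ) ≤ P.X i := by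
  unfold X
  have h1 : (0 : ℤ) ≤ i := by positivity
  nlinarith [D_pos (P := P)]

theorem Y_mono {i j : ℕ} (h : i < j) : P.Y j + P.D ≤ P.Y i := by
  have h1 := X_mono (P := P) h
  have h2 := X_add_Y (P := P) i
  have h3 := X_add_Y (P := P) j
  omega

theorem le_Y {i : ℕ} (hi : i < P.m) : 2 * (P.D : ℤ) ≤ P.Y i := by
  have h1 := X_le hi
  have h2 := X_add_Y (P := P) i
  have h3 := Δ_eq (P := P)
  omega

theorem Y_le (i : ℕ) : P.Y i ≤ P.D + P.B := by
  have h1 := le_X (P := P) i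
  have h2 := X_add_Y (P := P) i
  have h3 := Δ_eq (P := P)
  omega

theorem X_rev {i : ℕ} (hi : i < P.m) : P.X (P.m - 1 - i) = P.Y i := by
  unfold X Y
  have : ((P.m - 1 - i : ℕ) : ℤ) = P.m - 1 - i := by omega
  rw [this]; ring

theorem Y_rev {i : ℕ} (hi : i < P.m) : P.Y (P.m - 1 - i) = P.X i := by
  unfold X Y
  have : ((P.m - 1 - i : ℕ) : ℤ) = P.m - 1 - i := by omega
  rw [this]; ring

theorem X_last (hm : 1 ≤ P.m) : P.X (P.m - 1) = P.D + P.B := by
  have h := X_rev (P := P) (i := 0) (by omega)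
  rw [Nat.sub_zero] at h
  rw [h, Y_zero]

/-- every column to the right of the first one is a column `X i ≤ a < X i + D` -/
theorem exists_X {a : ℤ} (h1 : 2 * (P.D : ℤ) ≤ a) (h2 : a < P.Δ) :
    ∃ i < P.m, P.X i ≤ a ∧ a < P.X i + P.D := by
  have hD := D_pos (P := P)
  have h3 : 2 ≤ a / P.D := by
    rw [Int.le_ediv_iff_mul_le hD]; linarith
  have h4 : a / P.D < P.m + 2 := by
    rw [Int.ediv_lt_iff_lt_mul hD]
    have := Δ_eq (P := P)
    have := B_eq (P := P)
    nlinarith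
  have h5 := Int.emod_nonneg a hD.ne'
  have h6 := Int.emod_lt_of_pos a hD
  have h7 := Int.mul_ediv_add_emod a P.D
  refine ⟨(a / P.D - 2).toNat, by omega, ?_, ?_⟩
  · unfold X
    have : (((a / P.D - 2).toNat : ℕ) : ℤ) = a / P.D - 2 := by omega
    rw [this]; nlinarith
  · unfold X
    have : (((a / P.D - 2).toNat : ℕ) : ℤ) = a / P.D - 2 := by omega
    rw [this]; nlinarith

/-- every row of the arm is a row `Y i - D ≤ b < Y i` -/
theorem exists_Y {b : ℤ} (h1 : (P.D : ℤ) ≤ b) (h2 : b < P.D + P.B) :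
    ∃ i < P.m, P.Y i - P.D ≤ b ∧ b < P.Y i := by
  have hD := D_pos (P := P)
  have hΔ := Δ_eq (P := P)
  obtain ⟨i, hi, h3, h4⟩ := exists_X (P := P) (a := P.Δ + P.D - 1 - b) (by omega) (by omega)
  have h5 := X_add_Y (P := P) i
  exact ⟨i, hi, by omega, by omega⟩

/-- every column of the corner is a column `X i - D ≤ a < X i` -/
theorem exists_X' {a : ℤ} (h1 : (P.D : ℤ) ≤ a) (h2 : a < P.D + P.B) :
    ∃ i < P.m, P.X i - P.D ≤ a ∧ a < P.X i := by
  obtain ⟨i, hi, h3, h4⟩ := exists_Y h1 h2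
  exact ⟨P.m - 1 - i, by omega, by rw [X_rev hi]; exact h3, by rw [X_rev hi]; exact h4⟩

variable {κ : ℕ}

theorem Ok.w_ge (hP : P.Ok κ) : 3 ≤ P.w := by
  unfold w
  have h1 : 2 ≤ beta P.k (P.k - 1) := by
    have hk := hP.k_ge
    have h2 : beta 2 2 ≤ beta P.k (P.k - 1) :=
      (beta_mono_left (show 2 ≤ P.k by omega)).trans (beta_mono_right (show 2 ≤ P.k - 1 by omega))
    have h3 : beta 2 2 = 2 := by decide
    omega
  omega

theorem Ok.h_lt (hP : P.Ok κ) (t i : ℕ) : P.h t i + 1 ≤ P.w := by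
  unfold w h
  have h1 := hP.e_le t i
  have h2 : beta (P.e t i) P.k ≤ beta (P.k - 1) P.k := beta_mono_left (by omega)
  rw [beta_comm (P.k - 1) P.k] at h2
  omega

theorem Ok.h_pos (hP : P.Ok κ) (t i : ℕ) : 1 ≤ P.h t i := by
  unfold h
  have h1 := hP.e_ge t i
  have h2 := hP.k_ge
  exact beta_pos (by omega) (by omega)

end Par

/-- What we need to know about the cells of the polygon. -/
structure Zones (P : Par) (cell : ℕ → ℤ → ℤ → Prop) : Prop where
  /-- rotation from one frame to the next one -/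
  rot : ∀ t a b, cell (t + 1) a b ↔ cell t b (-(P.lam (t + 1) : ℤ) - a - 1)
  /-- the incoming arm and its pocket -/
  arm : ∀ t < P.N, ∀ a b : ℤ, -(P.lam t : ℤ) ≤ a → a < P.D → 0 ≤ b → b < P.Δ →
    (cell t a b ↔ ((P.D : ℤ) ≤ b ∧ b < P.D + P.B) ∨
      ((P.D : ℤ) + P.B ≤ b ∧ (b - (P.D + P.B)) + (P.D - 1 - a) < P.w))
  /-- the outgoing arm and its pocket -/
  out : ∀ t < P.N, ∀ a b : ℤ, (P.D : ℤ) ≤ a → a < P.Δ → 0 ≤ b → b < P.D →
    (cell t a b ↔ a < P.D + P.B ∨ (a - (P.D + P.B)) + (P.D - 1 - b) < P.w)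
  /-- the first column of the corner -/
  first : ∀ t < P.N, ∀ a b : ℤ, (P.D : ℤ) ≤ a → a < 2 * P.D → (P.D : ℤ) ≤ b → b < P.Δ →
    (cell t a b ↔ b < P.D + P.B)
  /-- the other columns of the corner and the fingers -/
  fing : ∀ t < P.N, ∀ i < P.m, ∀ a b : ℤ, P.X i ≤ a → a < P.X i + P.D → (P.D : ℤ) ≤ b →
    b < P.Δ → (cell t a b ↔ b < P.Y i - P.D ∨
      (P.Y i - P.h t i ≤ b ∧ b < P.Y i ∧
        (a < P.X i + P.w ∨ (a - (P.X i + P.w)) + (b - (P.Y i - P.h t i)) < P.h t i)) ∨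
      (P.Y i ≤ b ∧ (a - P.X i) + (b - P.Y i) < P.w))
  /-- nothing in front of the first arm -/
  start : ∀ b : ℤ, 0 ≤ b → b < P.Δ → ¬ cell 0 (-1) b
  /-- nothing behind the last arm -/
  stop : ∀ a : ℤ, 0 ≤ a → a < P.Δ → ¬ cell (P.N - 1) a (-1)

end Pool.Agent.Lib.MP_7d5495_lc
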