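import Pool.Agent.Lib.MP_7d5495_lc.Tree
import Pool.Agent.Lib.MP_7d5495_lc.Frames

set_option autoImplicit false

/-!
# From the chain problem to the parameters of the polygon
-/

namespace Pool.Agent.Lib.MP_7d5495_lc

/-- The parameters of the polygon of a chain problem with caps at most `κ`. -/
def parOf (N m κ : ℕ) (K : ℕ → ℕ → ℕ) : Par where
  N := N
  m := m
  k := 2 * κ + 9
  e t i := if t = 0 then 2 * κ + 5 - K 0 (m - 1 - i)
    else if t % 2 = 1 then 2 * κ + 3 - K t i else 2 * κ + 3 - K t (m - 1 - i)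

theorem ok_parOf {N m κ : ℕ} {K : ℕ → ℕ → ℕ} (hN : 1 ≤ N) (hm : 1 ≤ m)
    (hK : ∀ t j, K t j ≤ κ) : (parOf N m κ K).Ok κ where
  N_pos := hN
  m_pos := hm
  k_ge := by show 2 * κ + 8 ≤ 2 * κ + 9; omega
  e_ge t i := by
    show 2 ≤ if t = 0 then _ else if t % 2 = 1 then _ else _
    have h1 := hK 0 (m - 1 - i); have h2 := hK t i; have h3 := hK t (m - 1 - i)
    split_ifs <;> omega
  e_le t i := by
    show (if t = 0 then _ else if t % 2 = 1 then _ else _) + 4 ≤ 2 * κ + 9
    split_ifs <;> omega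

private theorem chainConv_e_zero (N m κ : ℕ) (K : ℕ → ℕ → ℕ) (i : ℕ) :
    (parOf N m κ K).e 0 i = 2 * κ + 5 - K 0 (m - 1 - i) := by
  simp [parOf]

private theorem chainConv_e_odd (N m κ : ℕ) (K : ℕ → ℕ → ℕ) {t : ℕ} (ht : t % 2 = 1) (i : ℕ) :
    (parOf N m κ K).e t i = 2 * κ + 3 - K t i := by
  have h0 : t ≠ 0 := by rintro rfl; simp at ht
  simp [parOf, h0, ht]

private theorem chainConv_e_even (N m κ : ℕ) (K : ℕ → ℕ → ℕ) {t : ℕ} (ht : t % 2 = 0)
    (h0 : t ≠ 0) (i : ℕ) :
    (parOf N m κ K).e t i = 2 * κ + 3 - K t (m - 1 - i) := by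
  simp [parOf, h0, ht]

private theorem chainConv_L {m : ℕ} {T : BT} (hT : T.size = m) {j : ℕ} (hj : j < m) :
    T.mirror.L j = T.U (m - 1 - j) := by
  have h := T.L_mirror (j := m - 1 - j) (by omega)
  rw [hT] at h
  rw [← h]
  congr 1
  omega

private theorem chainConv_U {m : ℕ} {T : BT} (hT : T.size = m) {j : ℕ} (hj : j < m) :
    T.mirror.U j = T.L (m - 1 - j) := by
  have h := T.U_mirror (j := m - 1 - j) (by omega)
  rw [hT] at h
  rw [← h]
  congr 1
  omega

theorem chainPre_of_geoPre {N m κ : ℕ} {K : ℕ → ℕ → ℕ} (hN : 1 ≤ N)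
    (hK : ∀ t j, K t j ≤ κ) {S : ℕ → BT} (h : (parOf N m κ K).GeoPre S) :
    ∃ T, ChainPre N m K T := by
  obtain ⟨h1, h2, h3⟩ := h
  change ∀ t < N, (S t).size = m at h1
  change ∀ i < m, (S 0).U i + 4 + (parOf N m κ K).e 0 i ≤ 2 * κ + 9 at h2
  change ∀ t, t + 1 < N → ∀ i < m,
    (S t).L (m - 1 - i) + (S (t + 1)).U i + 6 + (parOf N m κ K).e (t + 1) i ≤ 2 * κ + 9 at h3
  refine ⟨fun t => if t % 2 = 0 then (S t).mirror else S t, ?_, ?_, ?_⟩
  · intro t ht
    dsimp only
    split_ifs
    · rw [BT.size_mirror, h1 t ht]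
    · exact h1 t ht
  · intro j hj
    have ha := h2 (m - 1 - j) (by omega)
    rw [chainConv_e_zero] at ha
    have hb := hK 0 (m - 1 - (m - 1 - j))
    have hc : m - 1 - (m - 1 - j) = j := by omega
    rw [hc] at ha hb
    dsimp only
    rw [if_pos (by norm_num), chainConv_L (h1 0 (by omega)) hj]
    omega
  · intro t ht j hj
    dsimp only
    rcases Nat.mod_two_eq_zero_or_one t with h0 | h0
    · rw [if_pos h0, if_pos h0, if_neg (by omega), chainConv_U (h1 t (by omega)) hj]
      have ha := h3 t ht j hj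
      rw [chainConv_e_odd N m κ K (by omega)] at ha
      have hb := hK (t + 1) j
      omega
    · rw [if_neg (by omega), if_neg (by omega), if_pos (by omega), chainConv_L (h1 (t + 1) ht) hj]
      have ha := h3 t ht (m - 1 - j) (by omega)
      rw [chainConv_e_even N m κ K (by omega) (by omega)] at ha
      have hc : m - 1 - (m - 1 - j) = j := by omega
      rw [hc] at ha
      have hb := hK (t + 1) j
      omega

/-- **C1.** (`T t = (S t).mirror` for even `t`, `T t = S t` for odd `t`) -/
theorem geoSol_of_chainSol {N m κ : ℕ} {K : ℕ → ℕ → ℕ} (hN : 1 ≤ N) (hN2 : N % 2 = 0)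
    (hK : ∀ t j, K t j ≤ κ) {T : ℕ → BT} (h : ChainSol N m K T) :
    ∃ S, (parOf N m κ K).GeoSol κ S := by
  obtain ⟨⟨h1, h2, h3⟩, h4⟩ := h
  -- bounds for all loads
  have hE : ∀ t, t < N → t % 2 = 0 → ∀ j < m, (T t).L j ≤ κ ∧ (T t).U j ≤ κ := by
    intro t ht h0 j hj
    constructor
    · rcases Nat.eq_zero_or_pos t with rfl | hp
      · exact (h2 j hj).trans (hK _ _)
      · have ha := h3 (t - 1) (by omega) j hj
        rw [if_neg (by omega), Nat.sub_add_cancel hp] at ha
        have := hK t j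
        omega
    · have ha := h3 t (by omega) j hj
      rw [if_pos h0] at ha
      have := hK (t + 1) j
      omega
  have hO : ∀ t, t < N → t % 2 = 1 → ∀ j < m, (T t).L j ≤ κ ∧ (T t).U j ≤ κ := by
    intro t ht h0 j hj
    constructor
    · rcases Nat.lt_or_ge (t + 1) N with hp | hp
      · have ha := h3 t hp j hj
        rw [if_neg (by omega)] at ha
        have := hK (t + 1) j
        omega
      · have e : t = N - 1 := by omega
        rw [e]
        exact (h4 j hj).trans (hK _ _)
    · have ha := h3 (t - 1) (by omega) j hj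
      rw [if_pos (by omega), Nat.sub_add_cancel (by omega)] at ha
      have := hK t j
      omega
  refine ⟨fun t => if t % 2 = 0 then (T t).mirror else T t, ⟨?_, ?_, ?_⟩, ?_⟩
  · intro t ht
    change t < N at ht
    change (if t % 2 = 0 then (T t).mirror else T t).size = m
    split_ifs
    · rw [BT.size_mirror, h1 t ht]
    · exact h1 t ht
  · intro i hi
    change i < m at hi
    change (if 0 % 2 = 0 then (T 0).mirror else T 0).U i + 4 + (parOf N m κ K).e 0 i ≤ 2 * κ + 9
    rw [if_pos (by norm_num), chainConv_U (h1 0 (by omega)) hi, chainConv_e_zero]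
    have ha := h2 (m - 1 - i) (by omega)
    have hb := hK 0 (m - 1 - i)
    omega
  · intro t ht i hi
    change i < m at hi
    change t + 1 < N at ht
    change (if t % 2 = 0 then (T t).mirror else T t).L (m - 1 - i) +
      (if (t + 1) % 2 = 0 then (T (t + 1)).mirror else T (t + 1)).U i + 6 +
        (parOf N m κ K).e (t + 1) i ≤ 2 * κ + 9
    rcases Nat.mod_two_eq_zero_or_one t with h0 | h0
    · rw [if_pos h0, if_neg (by omega), chainConv_e_odd N m κ K (by omega),
        chainConv_L (h1 t (by omega)) (by omega)]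
      have hc : m - 1 - (m - 1 - i) = i := by omega
      rw [hc]
      have ha := h3 t ht i hi
      rw [if_pos h0] at ha
      have hb := hK (t + 1) i
      omega
    · rw [if_neg (by omega), if_pos (by omega), chainConv_e_even N m κ K (by omega) (by omega),
        chainConv_U (h1 (t + 1) ht) hi]
      have ha := h3 t ht (m - 1 - i) (by omega)
      rw [if_neg (by omega)] at ha
      have hb := hK (t + 1) (m - 1 - i)
      omega
  · intro t ht i hi
    change t < N at ht
    change i < m at hi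
    change (if t % 2 = 0 then (T t).mirror else T t).L i ≤ κ ∧
      (if t % 2 = 0 then (T t).mirror else T t).U i ≤ κ
    rcases Nat.mod_two_eq_zero_or_one t with h0 | h0
    · rw [if_pos h0, chainConv_L (h1 t ht) hi, chainConv_U (h1 t ht) hi]
      have := hE t ht h0 (m - 1 - i) (by omega)
      exact ⟨this.2, this.1⟩
    · rw [if_neg (by omega)]
      exact hO t ht h0 i hi

end Pool.Agent.Lib.MP_7d5495_lc
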