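import Pool.Agent.Lib.MP_7d5495_lc.ChainParam
import Pool.Agent.Lib.CookLevin.Main

/-!
# The chain instance of a formula is computable in polynomial time
-/

namespace Pool.Agent.Lib.MP_7d5495_lc

namespace Chain

open CookLevin (Cnf)
open HerCo Function

variable {α : Type} [Enc α] {m : Mode}

/-! ### division, sums -/

theorem length_filter_lt (n c : ℕ) (h : c ≤ n) :
    ((List.range n).filter fun i => decide (i < c)).length = c := by
  induction n with
  | zero => simp; omega
  | succ n ih =>
    rw [List.range_succ, List.filter_append, List.length_append]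
    rcases Nat.lt_or_ge n c with h1 | h1
    · have hc : c = n + 1 := by omega
      subst hc
      have e : (List.range n).filter (fun i => decide (i < n + 1)) = List.range n := by
        apply List.filter_eq_self.2
        intro a ha
        have := List.mem_range.1 ha
        simp only [decide_eq_true_eq]
        omega
      rw [e]
      simp
    · rw [ih h1]
      have : ¬ n < c := by omega
      simp [this]

theorem div_eq_filter (n k : ℕ) (hk : k ≠ 0) :
    n / k = ((List.range n).filter fun i => decide ((i + 1) * k ≤ n)).length := by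
  have e : ∀ i, decide ((i + 1) * k ≤ n) = decide (i < n / k) := by
    intro i
    rw [decide_eq_decide, ← Nat.le_div_iff_mul_le (Nat.pos_of_ne_zero hk)]
    omega
  simp only [e]
  rw [length_filter_lt _ _ (Nat.div_le_self n k)]

@[fun_prop]
theorem FP.natDiv {f g : α → ℕ} (hf : FP m f) (hg : FP m g) : FP m (fun a => f a / g a) := by
  have h : FP m (fun a => if g a = 0 then 0 else
      ((List.range (f a)).filter fun i => decide ((i + 1) * g a ≤ f a)).length) := by fun_prop
  refine h.congr fun a => ?_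
  by_cases h0 : g a = 0
  · simp [h0]
  · rw [if_neg h0, ← div_eq_filter _ _ h0]

@[fun_prop]
theorem FP.natMod {f g : α → ℕ} (hf : FP m f) (hg : FP m g) : FP m (fun a => f a % g a) := by
  have h : FP m (fun a => f a - g a * (f a / g a)) := by fun_prop
  exact h.congr fun a => (Nat.mod_eq_sub_mul_div).symm

theorem sum_le_sz (l : List ℕ) : l.sum ≤ sz l := by
  induction l with
  | nil => simp
  | cons a l ih => simp only [List.sum_cons, sz_cons, sz_nat]; omega

@[fun_prop]
theorem FP.listSum {l : α → List ℕ} (hl : FP m l) : FP m (fun a => (l a).sum) := by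
  have e : ∀ (l : List ℕ) (c : ℕ), l.foldl (fun c b => c + b) c = c + l.sum := by
    intro l
    induction l with
    | nil => intro c; simp
    | cons b l ih => intro c; simp [ih]; omega
  refine (FP.foldl (g := fun _ => 0) (h := fun _ c b => c + b) hl (by fun_prop)
    (by fun_prop) fun hm => ?_).congr fun a => ?_
  · subst hm
    refine ⟨fun a => sz (l a), hl.bd, fun a l' h => ?_⟩
    rw [e, sz_nat, Nat.zero_add]
    exact (sum_le_sz l').trans (sz_le_of_prefix h)
  · rw [e, Nat.zero_add]

/-! ### binary digits -/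

theorem pc_rec (n : ℕ) : pc n = n % 2 + pc (n / 2) := by
  unfold pc
  rcases Nat.eq_zero_or_pos n with h | h
  · subst h; simp
  · rw [Nat.digits_def' (by norm_num) h, List.sum_cons]

theorem pc_le_self (n : ℕ) : pc n ≤ n := Nat.digit_sum_le 2 n

/-- one step of the computation of the sum of the digits -/
def pcStep (s : ℕ × ℕ) : ℕ × ℕ := (s.1 / 2, s.2 + s.1 % 2)

theorem pcStep_iter (i : ℕ) (x c : ℕ) :
    (pcStep^[i] (x, c)).1 = x / 2 ^ i ∧
      (pcStep^[i] (x, c)).2 + pc (x / 2 ^ i) = c + pc x := by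
  induction i with
  | zero => simp
  | succ i ih =>
    rw [iterate_succ_apply']
    obtain ⟨h1, h2⟩ := ih
    have h3 : x / 2 ^ (i + 1) = x / 2 ^ i / 2 := by rw [pow_succ, Nat.div_div_eq_div_mul]
    refine ⟨?_, ?_⟩
    · show (pcStep^[i] (x, c)).1 / 2 = _
      rw [h1, h3]
    · show (pcStep^[i] (x, c)).2 + (pcStep^[i] (x, c)).1 % 2 + _ = _
      rw [h1, h3, ← h2, pc_rec (x / 2 ^ i)]
      omega

@[fun_prop]
theorem FP.pc {f : α → ℕ} (hf : FP m f) : FP m (fun a => pc (f a)) := by
  have h : FP m (fun a => (pcStep^[f a] (f a, 0)).2) := by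
    refine FP.snd (FP.nat_iterate (init := fun a => (f a, 0)) (h := fun _ s => pcStep s)
      (by fun_prop) ?_ hf fun hm => ?_)
    · unfold pcStep
      fun_prop
    · subst hm
      refine ⟨fun a => 2 * f a + 1 + f a, ?_, fun a i hi => ?_⟩
      · have h1 := hf.bd
        simp only [sz_nat] at h1
        exact (((Bd.const 2).mul h1).add (Bd.const 1)).add h1
      · obtain ⟨h1, h2⟩ := pcStep_iter i (f a) 0
        have h3 : ∀ s : ℕ × ℕ, sz s = 2 * s.1 + 1 + s.2 := by rintro ⟨a, b⟩; simp
        have h4 : (pcStep^[i] (f a, 0)).1 ≤ f a := by rw [h1]; exact Nat.div_le_self _ _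
        have h5 : (pcStep^[i] (f a, 0)).2 ≤ f a := by have := pc_le_self (f a); omega
        show sz (pcStep^[i] (f a, 0)) ≤ _
        rw [h3]
        beta_reduce
        omega
  refine h.congr fun a => ?_
  obtain ⟨h1, h2⟩ := pcStep_iter (f a) (f a) 0
  have h3 : f a / 2 ^ f a = 0 := Nat.div_eq_of_lt Nat.lt_two_pow_self
  rw [h3] at h2
  have h4 : Chain.pc 0 = 0 := by simp [Chain.pc]
  omega

theorem size_rec (n : ℕ) (h : n ≠ 0) : Nat.size n = Nat.size (n / 2) + 1 := by
  have h1 : Nat.bit n.bodd n.div2 = n := Nat.bit_bodd_div2 n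
  have h2 := Nat.size_bit (b := n.bodd) (n := n.div2) (by rw [h1]; exact h)
  rw [h1, Nat.div2_val] at h2
  exact h2

/-- one step of the computation of the length -/
def szStep (s : ℕ × ℕ) : ℕ × ℕ := if s.1 = 0 then s else (s.1 / 2, s.2 + 1)

theorem szStep_pos {s : ℕ × ℕ} (h : s.1 = 0) : szStep s = s := if_pos h

theorem szStep_neg {s : ℕ × ℕ} (h : s.1 ≠ 0) : szStep s = (s.1 / 2, s.2 + 1) := if_neg h

theorem szStep_iter (i : ℕ) (x c : ℕ) :
    (szStep^[i] (x, c)).1 = x / 2 ^ i ∧
      (szStep^[i] (x, c)).2 + Nat.size (x / 2 ^ i) = c + Nat.size x := by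
  induction i with
  | zero => simp
  | succ i ih =>
    rw [iterate_succ_apply']
    obtain ⟨h1, h2⟩ := ih
    have h3 : x / 2 ^ (i + 1) = x / 2 ^ i / 2 := by rw [pow_succ, Nat.div_div_eq_div_mul]
    by_cases h0 : (szStep^[i] (x, c)).1 = 0
    · have h4 := szStep_pos h0
      have h5 : x / 2 ^ i = 0 := by rw [← h1]; exact h0
      rw [h4, h3, h5]
      rw [h5] at h2
      refine ⟨by rw [h0], by simpa using h2⟩
    · have h4 := szStep_neg h0
      rw [h4, h3]
      refine ⟨by show _ / 2 = _; rw [h1], ?_⟩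
      show (szStep^[i] (x, c)).2 + 1 + _ = _
      rw [h1] at h0
      rw [← h2, size_rec _ h0]
      omega

theorem size_le (n : ℕ) : Nat.size n ≤ n := by
  rw [Nat.size_le]
  exact Nat.lt_two_pow_self

@[fun_prop]
theorem FP.size {f : α → ℕ} (hf : FP m f) : FP m (fun a => Nat.size (f a)) := by
  have h : FP m (fun a => (szStep^[f a] (f a, 0)).2) := by
    refine FP.snd (FP.nat_iterate (init := fun a => (f a, 0)) (h := fun _ s => szStep s)
      (by fun_prop) ?_ hf fun hm => ?_)
    · unfold szStep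
      fun_prop
    · subst hm
      refine ⟨fun a => 2 * f a + 1 + f a, ?_, fun a i hi => ?_⟩
      · have h1 := hf.bd
        simp only [sz_nat] at h1
        exact (((Bd.const 2).mul h1).add (Bd.const 1)).add h1
      · obtain ⟨h1, h2⟩ := szStep_iter i (f a) 0
        have h3 : ∀ s : ℕ × ℕ, sz s = 2 * s.1 + 1 + s.2 := by rintro ⟨a, b⟩; simp
        have h4 : (szStep^[i] (f a, 0)).1 ≤ f a := by rw [h1]; exact Nat.div_le_self _ _
        have h5 : (szStep^[i] (f a, 0)).2 ≤ f a := by have := size_le (f a); omega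
        show sz (szStep^[i] (f a, 0)) ≤ _
        rw [h3]
        beta_reduce
        omega
  refine h.congr fun a => ?_
  obtain ⟨h1, h2⟩ := szStep_iter (f a) (f a) 0
  have h3 : f a / 2 ^ f a = 0 := Nat.div_eq_of_lt Nat.lt_two_pow_self
  rw [h3] at h2
  have h4 : Nat.size 0 = 0 := Nat.size_zero
  omega

/-! ### the parameters -/

@[fun_prop]
theorem FP.Vv {f : α → Cnf} (hf : FP m f) : FP m (fun a => Vv (f a)) := by
  unfold Chain.Vv
  fun_prop

@[fun_prop]
theorem FP.Dd {f : α → Cnf} (hf : FP m f) : FP m (fun a => Dd (f a)) := by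
  unfold Chain.Dd
  fun_prop

theorem FP_Nn : FP .poly Nn := by
  show FP .poly (fun φ => Nn φ)
  unfold Nn
  fun_prop

theorem FP_pow : FP .poly (fun φ : Cnf => 2 ^ Dd φ) := by
  have e : ∀ n : ℕ, (fun s => s * 2)^[n] 1 = 2 ^ n := by
    intro n
    induction n with
    | zero => simp
    | succ n ih => rw [iterate_succ_apply', ih, pow_succ]
  refine (FP.nat_iterate (init := fun _ => 1) (h := fun _ s => s * 2) (n := fun φ => Dd φ)
    (by fun_prop) (by fun_prop) (by fun_prop) fun hm => ?_).congr fun a => by rw [e]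
  refine ⟨fun φ => 4 * φ.length + 6, ?_, fun φ i hi => ?_⟩
  · have h1 : FP .poly (fun φ : Cnf => 4 * φ.length + 6) := by fun_prop
    simpa only [sz_nat] using h1.bd
  · rw [e, sz_nat]
    exact (Nat.pow_le_pow_right (by norm_num) hi).trans (two_pow_Dd_le φ)

theorem FP_mm : FP .poly mm := by
  show FP .poly (fun φ => mm φ)
  unfold mm
  have := FP_pow
  fun_prop

theorem FP_kap : FP .poly kap := by
  show FP .poly (fun φ => kap φ)
  unfold kap
  fun_prop

theorem Bd_two_pow_kap : Bd .poly (fun φ => 2 ^ kap φ) := by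
  have h1 : FP .poly (fun φ : Cnf => 8 * (4 * φ.length + 6) ^ 2) := by fun_prop
  have h2 : Bd .poly (fun φ : Cnf => 8 * (4 * φ.length + 6) ^ 2) := by
    simpa only [sz_nat] using h1.bd
  refine Bd.mono h2 fun φ => ?_
  unfold kap
  have h3 := Nat.pow_le_pow_left (two_pow_Dd_le φ) 2
  have h4 : 2 ^ (2 * Dd φ + 3) = 8 * (2 ^ Dd φ) ^ 2 := by
    rw [pow_add, pow_mul, ← pow_mul, ← pow_mul, Nat.mul_comm (Dd φ) 2]
    ring
  rw [h4]
  omega

/-! ### the table -/

@[fun_prop]
theorem FP.rel {f : α → Cnf} {w g : α → ℕ} {s : α → Bool} (hf : FP m f) (hw : FP m w)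
    (hg : FP m g) (hs : FP m s) : FP m (fun a => rel (f a) (w a) (g a) (s a)) := by
  have hl : FP m (fun a => (f a).getD ((g a - 3) / 2) []) := by fun_prop
  have hm : FP m (fun a => decide ((w a, s a) ∈ (f a).getD ((g a - 3) / 2) [])) :=
    (FP.elem (hw.pair hs) hl).congr fun _ => decide_eq_decide.2 Iff.rfl
  have h : FP m (fun a => if (decide (g a % 2 = 1) && decide (3 ≤ g a) &&
      decide ((w a, s a) ∈ (f a).getD ((g a - 3) / 2) [])) = true then 1 else 0) := by
    fun_prop
  refine h.congr fun a => ?_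
  unfold Chain.rel
  simp only [Bool.and_eq_true, decide_eq_true_eq, and_assoc]

@[fun_prop]
theorem FP.isCl {f : α → Cnf} {g : α → ℕ} (hf : FP m f) (hg : FP m g) :
    FP m (fun a => decide (IsCl (f a) (g a))) := by
  have h : FP m (fun a => decide (g a % 2 = 1 ∧ 3 ≤ g a ∧ (g a - 3) / 2 < (f a).length)) := by
    fun_prop
  exact h.congr fun a => rfl

@[fun_prop]
theorem FP.capS {f : α → Cnf} {c g r : α → ℕ} (hf : FP m f) (hc : FP m c)
    (hg : FP m g) (hr : FP m r) : FP m (fun a => capS (f a) (c a) (g a) (r a)) := by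
  unfold Chain.capS
  fun_prop

@[fun_prop]
theorem FP.capG {f : α → Cnf} {D V c g r : α → ℕ} (hf : FP m f) (hD : FP m D) (hV : FP m V)
    (hc : FP m c) (hg : FP m g) (hr : FP m r) :
    FP m (fun a => capG (f a) (D a) (V a) (c a) (g a) (r a)) := by
  unfold Chain.capG
  fun_prop

theorem FP_Kk : FP .poly (fun p : Cnf × (ℕ × ℕ) => Kk p.1 p.2.1 p.2.2) := by
  unfold Kk cap
  fun_prop

end Chain

end Pool.Agent.Lib.MP_7d5495_lc
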