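import Pool.Agent.Lib.MP_7d5495_lc.ChainComp
import Pool.Agent.Lib.MP_7d5495_lc.ChainFP

/-!
# The chain instance of a formula: interface for the geometric part
-/

namespace Pool.Agent.Lib.MP_7d5495_lc

namespace Chain

open CookLevin (Cnf)
open HerCo

/-- the capacities, `0` outside the range of the keys -/
def Kc (φ : Cnf) (t j : ℕ) : ℕ := if j < mm φ then Kk φ t j else 0

theorem Kc_le (φ : Cnf) (t j : ℕ) : Kc φ t j ≤ kap φ := by
  unfold Kc
  split_ifs with h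
  · exact Kk_le φ t h
  · exact Nat.zero_le _

theorem chain_complete_c (φ : Cnf) (h : CookLevin.Sat φ) :
    ∃ T, ChainSol (Nn φ) (mm φ) (Kc φ) T := by
  obtain ⟨T, ⟨h1, h2, h3⟩, h4⟩ := chain_complete φ h
  refine ⟨T, ⟨h1, fun j hj => ?_, fun t ht j hj => ?_⟩, fun j hj => ?_⟩
  · unfold Kc; rw [if_pos hj]; exact h2 j hj
  · unfold Kc; rw [if_pos hj]; exact h3 t ht j hj
  · unfold Kc; rw [if_pos hj]; exact h4 j hj

theorem chain_sound_c (φ : Cnf) (h : ∃ T, ChainPre (Nn φ) (mm φ) (Kc φ) T) :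
    CookLevin.Sat φ := by
  obtain ⟨T, h1, h2, h3⟩ := h
  refine chain_sound φ ⟨T, h1, fun j hj => ?_, fun t ht j hj => ?_⟩
  · have := h2 j hj; unfold Kc at this; rwa [if_pos hj] at this
  · have := h3 t ht j hj; unfold Kc at this; rwa [if_pos hj] at this

theorem FP_Kc : FP .poly (fun p : Cnf × (ℕ × ℕ) => Kc p.1 p.2.1 p.2.2) := by
  have h1 := FP_Kk
  have h2 : FP .poly (fun p : Cnf × (ℕ × ℕ) => mm p.1) := FP_mm.comp (by fun_prop)
  have h3 : FP .poly (fun p : Cnf × (ℕ × ℕ) => decide (p.2.2 < mm p.1)) :=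
    FP.natLt (by fun_prop) h2
  have h4 : (fun p : Cnf × (ℕ × ℕ) => Kc p.1 p.2.1 p.2.2) =
      fun p => if decide (p.2.2 < mm p.1) then Kk p.1 p.2.1 p.2.2 else 0 := by
    funext p
    unfold Kc
    by_cases h : p.2.2 < mm p.1 <;> simp [h]
  rw [h4]
  exact FP.ite h3 h1 (by fun_prop)

end Chain

end Pool.Agent.Lib.MP_7d5495_lc
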