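import Mathlib
/-! The arithmetic core of the rigidity of a window. -/

namespace Pool.Agent.Lib.MP_7d5495_lc

structure Loc (x y p q z w : ℕ) : Prop where
  f1 : (y = x + 1 ∧ p ≤ q) ∨ (p = q + 1 ∧ y ≤ x)
  f2 : p = 0 → x + 1 ≤ z
  f3 : q = 0 → y + 1 ≤ z
  f4 : x = 0 → p + 1 ≤ w
  f5 : y = 0 → q + 1 ≤ w
  f6 : z = 0 → 1 ≤ q ∧ 1 ≤ p
  f7 : w = 0 → 1 ≤ x ∧ 1 ≤ y

namespace Win
variable {x0 y0 p0 q0 z0 w0 x1 y1 p1 q1 z1 w1 x2 y2 p2 q2 z2 w2 x3 y3 p3 q3 z3 w3 : ℕ}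

/-- stage 0: the first layer -/
theorem s0 (h0 : Loc x0 y0 0 q0 z0 w0) (h1 : Loc x1 y1 p1 q1 z1 w1)
    (y01 : y0 + y1 ≤ 2) (z01 : z0 + z1 ≤ 2) (p12 : p1 ≤ 1) : x0 = 0 ∧ y0 = 1 ∧ 1 ≤ z0 := by
  obtain ⟨a1, a2, -, -, -, -, -⟩ := h0
  obtain ⟨b1, -, -, -, -, b6, -⟩ := h1
  have := a2 rfl
  rcases Nat.eq_zero_or_pos x0 with h | h
  · omega
  · have : z1 = 0 := by omega
    have := b6 this
    omega

/-- stage 1 -/
theorem s1 (h1 : Loc x1 y1 p1 q1 z1 w1) (h2 : Loc x2 y2 p2 q2 z2 w2) 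
    (y1' : y1 ≤ 1) (z1' : z1 ≤ 1) (p12 : p1 + p2 ≤ 1) (w12 : w1 + w2 ≤ 2) (y23 : y2 ≤ 1) :
    (x1 = 0 ∧ p1 = 0) ∨ (y1 = 0 ∧ q1 = 0) := by
  obtain ⟨a1, a2, a3, a4, a5, a6, -⟩ := h1
  obtain ⟨b1, b2, b3, b4, -, -, -⟩ := h2
  rcases a1 with ⟨a1, a1'⟩ | ⟨a1, a1'⟩
  · have hx : x1 = 0 := by omega
    have := a4 hx
    rcases Nat.eq_zero_or_pos p1 with h | h
    · exact Or.inl ⟨hx, h⟩
    · have hp2 : p2 = 0 := by omega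
      have hx2 : x2 = 0 := by omega
      have := b4 hx2
      omega
  · have hq : q1 = 0 := by omega
    have := a3 hq
    right; omega

/-- stage 2 -/
theorem s2 (h2 : Loc x2 y2 p2 q2 z2 w2) (h3 : Loc x3 y3 p3 q3 z3 w3)
    (p2' : p2 ≤ 1) (w2' : w2 ≤ 1) (y23 : y2 + y3 ≤ 1) (z23 : z2 + z3 ≤ 2) (p34 : p3 ≤ 1) :
    (x2 = 0 ∧ p2 = 0) ∨ (y2 = 0 ∧ q2 = 0) := by
  obtain ⟨a1, a2, a3, a4, a5, a6, -⟩ := h2
  obtain ⟨b1, b2, b3, b4, -, b6, -⟩ := h3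
  rcases a1 with ⟨a1, a1'⟩ | ⟨a1, a1'⟩
  · have hx : x2 = 0 := by omega
    have := a4 hx
    left; omega
  · have hq : q2 = 0 := by omega
    have := a3 hq
    rcases Nat.eq_zero_or_pos y2 with h | h
    · exact Or.inr ⟨h, hq⟩
    · have : z3 = 0 := by omega
      have := b6 this
      omega

/-- the last layer -/
theorem s5 (h5 : Loc x1 y1 0 q1 z1 w1) : y1 = x1 + 1 ∧ x1 + 1 ≤ z1 := by
  obtain ⟨a1, a2, -, -, -, a6, -⟩ := h5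
  have := a2 rfl
  omega

/-- stage 3 (layers 3,4,5 are numbered 1,2,3) -/
theorem s3 (h3 : Loc x1 y1 p1 q1 z1 w1) (h4 : Loc x2 y2 p2 q2 z2 w2) (h5 : Loc x3 y3 0 q3 z3 w3)
    (y1' : y1 ≤ 1) (z1' : z1 ≤ 1) (p34 : p1 + p2 ≤ 1) (w34 : w1 + w2 ≤ 2)
    (y45 : y2 + y3 ≤ 2) (z45 : z2 + z3 ≤ 2) :
    (x1 = 0 ∧ p1 = 0) ∨ (y1 = 0 ∧ q1 = 0) := by
  obtain ⟨h51, h52⟩ := s5 h5
  obtain ⟨a1, a2, a3, a4, a5, a6, -⟩ := h3
  obtain ⟨b1, b2, b3, b4, -, b6, b7⟩ := h4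
  rcases a1 with ⟨a1, a1'⟩ | ⟨a1, a1'⟩
  · have hx : x1 = 0 := by omega
    have := a4 hx
    rcases Nat.eq_zero_or_pos p1 with h | h
    · exact Or.inl ⟨hx, h⟩
    · have hw : w2 = 0 := by omega
      have := b7 hw
      have hp2 : p2 = 0 := by omega
      omega
  · have hq : q1 = 0 := by omega
    have := a3 hq
    right; omega

/-- stage 4 (layers 4,5 are numbered 2,3) -/
theorem s4 (h4 : Loc x2 y2 p2 q2 z2 w2) (h5 : Loc x3 y3 0 q3 z3 w3)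
    (p2' : p2 ≤ 1) (w2' : w2 ≤ 1) (y45 : y2 + y3 ≤ 2) (z45 : z2 + z3 ≤ 2) :
    ((x2 = 0 ∧ p2 = 0) ∨ (y2 = 0 ∧ q2 = 0)) ∧ x3 = 0 := by
  obtain ⟨h51, h52⟩ := s5 h5
  obtain ⟨a1, a2, a3, a4, a5, a6, -⟩ := h4
  have h : (x2 = 0 ∧ p2 = 0) ∨ (y2 = 0 ∧ q2 = 0) := by
    rcases a1 with ⟨a1, a1'⟩ | ⟨a1, a1'⟩
    · have hx : x2 = 0 := by omega
      have := a4 hx
      left; omega
    · have hq : q2 = 0 := by omega
      have := a3 hq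
      right; omega
  refine ⟨h, ?_⟩
  rcases Nat.eq_zero_or_pos x3 with h3 | h3
  · exact h3
  · have : z2 = 0 := by omega
    have := a6 this
    omega

end Win

/-- arithmetic core: in a window of six layers the top of the interval is `a` or `b` -/
theorem window_even (x y p q z w : ℕ → ℕ) (f : ∀ i < 6, Loc (x i) (y i) (p i) (q i) (z i) (w i))
    (y01 : y 0 + y 1 ≤ 2) (z01 : z 0 + z 1 ≤ 2)
    (p12 : p 1 + p 2 ≤ 1) (w12 : w 1 + w 2 ≤ 2)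
    (y23 : y 2 + y 3 ≤ 1) (z23 : z 2 + z 3 ≤ 2)
    (p34 : p 3 + p 4 ≤ 1) (w34 : w 3 + w 4 ≤ 2)
    (y45 : y 4 + y 5 ≤ 2) (z45 : z 4 + z 5 ≤ 2)
    (p0 : p 0 = 0) (p5 : p 5 = 0) :
    ∀ i < 6, (x i = 0 ∧ p i = 0) ∨ (y i = 0 ∧ q i = 0) := by
  have f0 := f 0 (by norm_num)
  have f1 := f 1 (by norm_num)
  have f2 := f 2 (by norm_num)
  have f3 := f 3 (by norm_num)
  have f4 := f 4 (by norm_num)
  have f5 := f 5 (by norm_num)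
  rw [p0] at f0
  rw [p5] at f5
  have h0 := Win.s0 f0 f1 y01 z01 (by omega)
  have h1 := Win.s1 f1 f2 (by omega) (by omega) p12 w12 (by omega)
  have w1 : 1 ≤ w 1 := by
    rcases h1 with h | h
    · have := f1.f4 h.1; omega
    · have := f1.f5 h.1; omega
  have h2 := Win.s2 f2 f3 (by omega) (by omega) y23 z23 (by omega)
  have z2 : 1 ≤ z 2 := by
    rcases h2 with h | h
    · have := f2.f2 h.2; omega
    · have := f2.f3 h.2; omega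
  have h3 := Win.s3 f3 f4 f5 (by omega) (by omega) p34 w34 y45 z45
  have w3 : 1 ≤ w 3 := by
    rcases h3 with h | h
    · have := f3.f4 h.1; omega
    · have := f3.f5 h.1; omega
  have h4 := Win.s4 f4 f5 (by omega) (by omega) y45 z45
  intro i hi
  interval_cases i
  · exact Or.inl ⟨h0.1, p0⟩
  · exact h1
  · exact h2
  · exact h3
  · exact h4.1
  · exact Or.inl ⟨h4.2, p5⟩

end Pool.Agent.Lib.MP_7d5495_lc
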