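import Pool.Agent.Lib.MP_7d5495_lc.ChainTab
import Pool.Agent.Lib.MP_7d5495_lc.ChainWin

/-!
# Rigidity of the skeleton
-/

namespace Pool.Agent.Lib.MP_7d5495_lc

namespace BT

theorem U_zero (T : BT) : T.U 0 = 0 := by
  induction T with
  | nil => rfl
  | node l r ih _ =>
    simp only [U]
    split_ifs with h3 h4
    · exact ih
    · rfl
    · omega

theorem L_last (T : BT) (a : ℕ) (h : a + 1 = T.size) : T.L a = 0 := by
  induction T generalizing a with
  | nil => simp [size] at h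
  | node l r _ ih2 =>
    simp only [size] at h
    simp only [L, show ¬ a < l.size by omega, if_false]
    split_ifs with h3
    · rfl
    · exact ih2 _ (by omega)

/-- two neighbouring keys -/
theorem adj (T : BT) (a : ℕ) (h : a + 1 < T.size) :
    (T.U (a+1) = T.U a + 1 ∧ T.L a ≤ T.L (a+1)) ∨ (T.L a = T.L (a+1) + 1 ∧ T.U (a+1) ≤ T.U a) := by
  induction T generalizing a with
  | nil => simp [size] at h
  | node l r ihl ihr =>
    simp only [size] at h
    rcases lt_trichotomy (a+1) l.size with h1 | h1 | h1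
    · have := ihl a h1
      simp only [U, L, h1, show a < l.size by omega, if_true]
      omega
    · simp only [U, L, h1, show a < l.size by omega, if_true, lt_irrefl, if_false]
      right
      rw [L_last l a h1]; omega
    · rcases eq_or_ne a l.size with h2 | h2
      · subst h2
        simp only [U, L, show ¬ l.size + 1 < l.size by omega, if_false, lt_irrefl,
          show ¬ l.size + 1 = l.size by omega, if_true, show l.size + 1 - l.size - 1 = 0 by omega,
          U_zero]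
        left; simp
      · have := ihr (a - l.size - 1) (by omega)
        simp only [U, L, show ¬ a + 1 < l.size by omega, show ¬ a < l.size by omega, if_false,
          show ¬ a + 1 = l.size by omega, h2]
        rw [show a + 1 - l.size - 1 = a - l.size - 1 + 1 by omega]
        omega

/-- a key without larger ancestors is an ancestor of everything to the right -/
theorem top_right (T : BT) (a c : ℕ) (h : T.L a = 0) (hac : a < c) (hc : c < T.size) :
    T.U a + 1 ≤ T.U c := by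
  induction T generalizing a c with
  | nil => simp [size] at hc
  | node l r ihl ihr =>
    simp only [size] at hc
    simp only [U, L] at h ⊢
    by_cases h1 : a < l.size
    · rw [if_pos h1] at h; omega
    · rw [if_neg h1] at h ⊢
      rw [if_neg (show ¬ c < l.size by omega), if_neg (show ¬ c = l.size by omega)]
      by_cases h2 : a = l.size
      · rw [if_pos h2]; omega
      · rw [if_neg h2] at h ⊢
        have := ihr (a - l.size - 1) (c - l.size - 1) h (by omega) (by omega)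
        omega

/-- a key without smaller ancestors is an ancestor of everything to the left -/
theorem top_left (T : BT) (b d : ℕ) (h : T.U b = 0) (hdb : d < b) (hb : b < T.size) :
    T.L b + 1 ≤ T.L d := by
  induction T generalizing b d with
  | nil => simp [size] at hb
  | node l r ihl ihr =>
    simp only [size] at hb
    simp only [U, L] at h ⊢
    by_cases h1 : b < l.size
    · rw [if_pos h1] at h ⊢
      rw [if_pos (show d < l.size by omega)]
      have := ihl b d h hdb h1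
      omega
    · rw [if_neg h1] at h ⊢
      by_cases h2 : b = l.size
      · rw [if_pos h2, if_pos (show d < l.size by omega)]; omega
      · rw [if_neg h2] at h; omega

theorem root_of {l r : BT} {a : ℕ} (h : a < (node l r).size)
    (hU : (node l r).U a = 0) (hL : (node l r).L a = 0) : a = l.size := by
  simp only [U, L] at hU hL
  split_ifs at hU hL with h1 h2 <;> omega

end BT

/-- `T'` is the subtree of `T` with the keys `p, …, p + T'.size - 1`, below `s` smaller and `l`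
larger keys -/
structure Sub (T : BT) (s l p : ℕ) (T' : BT) : Prop where
  le : p + T'.size ≤ T.size
  U : ∀ x < T'.size, T.U (p + x) = s + T'.U x
  L : ∀ x < T'.size, T.L (p + x) = l + T'.L x

theorem Sub.refl (T : BT) : Sub T 0 0 0 T := ⟨by omega, by simp, by simp⟩

theorem Sub.left {T : BT} {s l p : ℕ} {A B : BT} (h : Sub T s l p (BT.node A B)) :
    Sub T s (l + 1) p A := by
  have h1 := h.le
  simp only [BT.size] at h1
  refine ⟨by omega, fun x hx => ?_, fun x hx => ?_⟩
  · have := h.U x (by simp only [BT.size]; omega)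
    rw [this]; simp [BT.U, hx]
  · have := h.L x (by simp only [BT.size]; omega)
    rw [this]; simp only [BT.L, hx, if_true]; omega

theorem Sub.right {T : BT} {s l p : ℕ} {A B : BT} (h : Sub T s l p (BT.node A B)) :
    Sub T (s + 1) l (p + A.size + 1) B := by
  have h1 := h.le
  simp only [BT.size] at h1
  refine ⟨by omega, fun x hx => ?_, fun x hx => ?_⟩
  · have := h.U (A.size + 1 + x) (by simp only [BT.size]; omega)
    rw [show p + A.size + 1 + x = p + (A.size + 1 + x) by omega, this]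
    simp only [BT.U, show ¬ A.size + 1 + x < A.size by omega, if_false,
      show ¬ A.size + 1 + x = A.size by omega]
    rw [show A.size + 1 + x - A.size - 1 = x by omega]; omega
  · have := h.L (A.size + 1 + x) (by simp only [BT.size]; omega)
    rw [show p + A.size + 1 + x = p + (A.size + 1 + x) by omega, this]
    simp only [BT.L, show ¬ A.size + 1 + x < A.size by omega, if_false,
      show ¬ A.size + 1 + x = A.size by omega]
    rw [show A.size + 1 + x - A.size - 1 = x by omega]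

/-- the arithmetic facts at a pair of neighbouring keys `a, b` inside a subtree -/
theorem Sub.loc {T : BT} {s l p : ℕ} {T' : BT} (h : Sub T s l p T') {a c d : ℕ}
    (hd : p ≤ d) (hda : d < a) (hac : a + 1 < c) (hc : c < p + T'.size) :
    Loc (T.U a - s) (T.U (a+1) - s) (T.L a - l) (T.L (a+1) - l) (T.U c - s) (T.L d - l) := by
  obtain ⟨a', rfl⟩ : ∃ a', a = p + a' := ⟨a - p, by omega⟩
  obtain ⟨c', rfl⟩ : ∃ a', c = p + a' := ⟨c - p, by omega⟩
  obtain ⟨d', rfl⟩ : ∃ a', d = p + a' := ⟨d - p, by omega⟩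
  rw [show p + a' + 1 = p + (a' + 1) by omega]
  rw [h.U a' (by omega), h.U (a'+1) (by omega), h.L a' (by omega), h.L (a'+1) (by omega),
    h.U c' (by omega), h.L d' (by omega)]
  simp only [Nat.add_sub_cancel_left]
  refine ⟨BT.adj T' a' (by omega), fun h0 => BT.top_right T' a' c' h0 (by omega) (by omega),
    fun h0 => BT.top_right T' (a'+1) c' h0 (by omega) (by omega),
    fun h0 => BT.top_left T' a' d' h0 (by omega) (by omega),
    fun h0 => BT.top_left T' (a'+1) d' h0 (by omega) (by omega), fun h0 => ?_, fun h0 => ?_⟩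
  · have h1 := BT.top_left T' c' (a'+1) h0 (by omega) (by omega)
    have h2 := BT.top_left T' c' a' h0 (by omega) (by omega)
    omega
  · have h1 := BT.top_right T' d' (a'+1) h0 (by omega) (by omega)
    have h2 := BT.top_right T' d' a' h0 (by omega) (by omega)
    omega

namespace Chain

/-- position of the top of the boundary `t`: `0` if the left key `5t-2` is above the right key
`5t-1`, `1` otherwise; boundary `0` counts as `1`, boundary `2 ^ D` as `0` -/
def beta (D : ℕ) (T : BT) (t : ℕ) : ℕ :=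
  if t = 0 then 1 else if t = 2 ^ D then 0 else if T.L (5*t-2) ≤ T.L (5*t-1) then 0 else 1

theorem beta_le (D : ℕ) (T : BT) (t : ℕ) : beta D T t ≤ 1 := by
  unfold beta; split_ifs <;> omega

theorem pc_zero : pc 0 = 0 := by simp [pc]
theorem pc_two_mul (n : ℕ) : pc (2 * n) = pc n := by
  unfold pc
  rcases Nat.eq_zero_or_pos n with h | h
  · subst h; rfl
  · rw [Nat.digits_def' (by norm_num) (by omega)]
    simp
theorem pc_two_mul_add (n : ℕ) : pc (2 * n + 1) = pc n + 1 := by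
  unfold pc
  rw [Nat.digits_def' (by norm_num) (by omega)]
  rw [show (2 * n + 1) % 2 = 1 by omega, show (2 * n + 1) / 2 = n by omega]
  simp; omega

/-- the dyadic interval number `c` of level `e` is a subtree -/
def Lev (D : ℕ) (T : BT) (e c : ℕ) : Prop :=
  ∃ T' : BT, T'.size + 1 + beta D T (c * 2 ^ e) = 5 * 2 ^ e + beta D T ((c + 1) * 2 ^ e) ∧
    Sub T (pc c) (D - e - pc c) (5 * (c * 2 ^ e) + beta D T (c * 2 ^ e) - 1) T'

theorem Lev.top {D : ℕ} {T : BT} (h : T.size = 5 * 2 ^ D - 2) : Lev D T D 0 := by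
  have h2 : 0 < 2 ^ D := by positivity
  have hne : ¬ 2 ^ D = 0 := by positivity
  refine ⟨T, ?_, ?_⟩
  · simp only [zero_mul, zero_add, one_mul, beta, if_true, hne, if_false]; omega
  · have := Sub.refl T
    simpa [beta, pc_zero] using this

/-- the root of the dyadic interval is one of the two keys of the middle boundary -/
def RootAt (D : ℕ) (T : BT) (e c : ℕ) : Prop :=
  (T.U (5 * ((2*c+1) * 2^e) - 2) = pc c ∧ T.L (5 * ((2*c+1) * 2^e) - 2) = D - (e+1) - pc c) ∨
  (T.U (5 * ((2*c+1) * 2^e) - 1) = pc c ∧ T.L (5 * ((2*c+1) * 2^e) - 1) = D - (e+1) - pc c)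

theorem mid_lt {D e c : ℕ} (he : e < D) (hc : c < 2 ^ (D - (e+1))) :
    (2*c+1) * 2^e < 2^D ∧ 0 < 2 ^ e ∧ (c+1) * 2^(e+1) ≤ 2 ^ D := by
  have h1 : (c+1) * 2^(e+1) ≤ 2 ^ D := by
    calc (c+1) * 2^(e+1) ≤ 2 ^ (D - (e+1)) * 2^(e+1) := Nat.mul_le_mul_right _ hc
      _ = 2 ^ D := by rw [← pow_add]; congr 1; omega
  have h2 : 0 < 2 ^ e := by positivity
  refine ⟨?_, h2, h1⟩
  have : (c+1) * 2^(e+1) = (2*c+1)*2^e + 2^e := by ring
  omega

theorem Lev.step {D : ℕ} {T : BT} {e c : ℕ} (he : e < D) (hc : c < 2 ^ (D - (e+1)))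
    (h : Lev D T (e+1) c) (hr : RootAt D T e c) (hp : pc c + (e+1) ≤ D) :
    Lev D T e (2*c) ∧ Lev D T e (2*c+1) := by
  obtain ⟨T', hs, hT⟩ := h
  obtain ⟨hm1, hm2, hm3⟩ := mid_lt he hc
  set t := (2*c+1) * 2^e with ht
  have e1 : c * 2^(e+1) = 2*c * 2^e := by ring
  have e2 : (c+1) * 2^(e+1) = t + 2^e := by rw [ht]; ring
  have e3 : t = 2*c*2^e + 2^e := by rw [ht]; ring
  have e4 : (2*c+1+1) * 2^e = t + 2^e := by rw [ht]; ring
  have e5 : 2^(e+1) = 2 * 2^e := by ring
  rw [e1, e2, e5] at hs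
  rw [e1] at hT
  set β₁ := beta D T (2*c*2^e) with hβ₁
  set β₂ := beta D T (t + 2^e) with hβ₂
  have hb1 : β₁ ≤ 1 := beta_le ..
  have hb2 : β₂ ≤ 1 := beta_le ..
  have hb0 : 2*c*2^e = 0 → β₁ = 1 := by
    intro h0; rw [hβ₁, h0]; simp [beta]
  have hpos : 1 ≤ 5 * (2*c*2^e) + β₁ := by
    rcases Nat.eq_zero_or_pos (2*c*2^e) with h0 | h0
    · rw [hb0 h0]; omega
    · omega
  cases T' with
  | nil => simp only [BT.size] at hs; omega
  | node A B =>
    -- position of the root
    have key : ∀ x, 5 * (2*c*2^e) + β₁ - 1 ≤ x → x < 5 * (2*c*2^e) + β₁ - 1 + (BT.node A B).size →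
        T.U x = pc c → T.L x = D - (e+1) - pc c → x = 5 * (2*c*2^e) + β₁ - 1 + A.size := by
      intro x h1 h2 h3 h4
      obtain ⟨x', rfl⟩ : ∃ x', x = 5 * (2*c*2^e) + β₁ - 1 + x' := ⟨x - (5 * (2*c*2^e) + β₁ - 1), by omega⟩
      have h5 := hT.U x' (by omega)
      have h6 := hT.L x' (by omega)
      have := BT.root_of (l := A) (r := B) (a := x') (by omega) (by omega) (by omega)
      omega
    have hsz : (BT.node A B).size = A.size + 1 + B.size := rfl
    have hroot : 5 * t - 2 + beta D T t = 5 * (2*c*2^e) + β₁ - 1 + A.size := by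
      have htne : t ≠ 0 := by omega
      have htne' : t ≠ 2^D := by omega
      rcases hr with ⟨h1, h2⟩ | ⟨h1, h2⟩
      · have h3 := key (5*t-2) (by omega) (by omega) h1 h2
        have : beta D T t = 0 := by
          unfold beta
          rw [if_neg htne, if_neg htne', if_pos]
          rw [h2, show 5*t-1 = 5 * (2*c*2^e) + β₁ - 1 + (A.size + 1) by omega,
            hT.L _ (by omega)]
          omega
        omega
      · have h3 := key (5*t-1) (by omega) (by omega) h1 h2
        have : beta D T t = 1 := by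
          unfold beta
          rw [if_neg htne, if_neg htne', if_neg]
          rw [h2, show 5*t-2 = 5 * (2*c*2^e) + β₁ - 1 + (A.size - 1) by omega,
            hT.L _ (by omega)]
          simp only [BT.L, show A.size - 1 < A.size by omega, if_true]
          omega
        omega
    constructor
    · refine ⟨A, ?_, ?_⟩
      · rw [← hβ₁, ← ht]; omega
      · have := hT.left
        rw [← hβ₁, pc_two_mul]
        rwa [show D - e - pc c = D - (e+1) - pc c + 1 by omega]
    · refine ⟨B, ?_, ?_⟩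
      · rw [← ht, e4, ← hβ₂]; omega
      · have := hT.right
        rw [← ht, pc_two_mul_add]
        rw [show D - e - (pc c + 1) = D - (e+1) - pc c by omega,
          show 5 * t + beta D T t - 1 = 5 * (2*c*2^e) + β₁ - 1 + A.size + 1 by omega]
        exact this

open CookLevin (Cnf)

theorem pc_mul_pow (n e : ℕ) : pc (n * 2 ^ e) = pc n := by
  induction e with
  | zero => simp
  | succ e ih => rw [show n * 2 ^ (e+1) = 2 * (n * 2 ^ e) by ring, pc_two_mul, ih]

theorem pc_pred (c e : ℕ) : pc ((2*c+1) * 2^e - 1) = pc c + e := by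
  induction e with
  | zero => simp [pc_two_mul]
  | succ e ih =>
    have : 0 < 2 ^ e := by positivity
    have h1 : 0 < (2*c+1) * 2^e := by positivity
    rw [show (2*c+1) * 2^(e+1) - 1 = 2 * ((2*c+1) * 2^e - 1) + 1 by
      rw [show (2*c+1) * 2^(e+1) = 2 * ((2*c+1) * 2^e) by ring]; omega, pc_two_mul_add, ih]
    omega

theorem pc_le {n k : ℕ} (h : n < 2 ^ k) : pc n ≤ k := by
  induction k generalizing n with
  | zero => have : n = 0 := by simpa using h
            subst this; simp [pc_zero]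
  | succ k ih =>
    rw [pow_succ] at h
    rcases Nat.even_or_odd' n with ⟨m, rfl | rfl⟩
    · rw [pc_two_mul]; have := @ih m (by omega); omega
    · rw [pc_two_mul_add]; have := @ih m (by omega); omega

variable {φ : Cnf} {D V : ℕ} {T : ℕ → BT}

/-- a solution of the chain problem, without the condition at the last corridor -/
structure Sol (φ : Cnf) (D V : ℕ) (T : ℕ → BT) : Prop where
  size : ∀ i < 6 * (V + D + 1), (T i).size = 5 * 2 ^ D - 2
  start : ∀ j < 5 * 2 ^ D - 2, (T 0).L j ≤ cap φ D V 0 j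
  stepU : ∀ i, i % 2 = 0 → i + 1 < 6 * (V + D + 1) → ∀ j < 5 * 2 ^ D - 2,
    (T i).U j + (T (i+1)).U j ≤ cap φ D V (i+1) j
  stepL : ∀ i, i % 2 = 1 → i + 1 < 6 * (V + D + 1) → ∀ j < 5 * 2 ^ D - 2,
    (T i).L j + (T (i+1)).L j ≤ cap φ D V (i+1) j

theorem cap_zero_a {t : ℕ} (ht : 0 < t) : cap φ D V 0 (5*t-2) = D - pc (t-1) - 1 := by
  simp only [cap, if_true, show (5*t-2)%5 = 3 by omega, show (5*t-2)/5 = t-1 by omega]
  norm_num

theorem cap_zero_b {t : ℕ} (ht : 0 < t) : cap φ D V 0 (5*t-1) = D - pc t := by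
  simp only [cap, if_true, show (5*t-1)%5 = 4 by omega, show (5*t-1)/5 = t-1 by omega,
    show t - 1 + 1 = t by omega]
  norm_num

theorem cap_S_a {c t : ℕ} (ht : 0 < t) (hc : c % 2 = 1) (hN : c < 6 * (V + D + 1)) :
    cap φ D V c (5*t-2) = (pc t - 1) + pc (t-1) +
    (if c % 6 = 1 then rel φ (c / 6) (t-1) true else
      if c % 6 = 5 then rel φ (c / 6) (t-1) false else 0) := by
  simp only [cap, capS, show ¬ c = 0 by omega, show ¬ 6 * (V + D + 1) ≤ c by omega, if_false, hc,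
    if_true, show (5*t-2)%5 = 3 by omega, show (5*t-2)/5 = t-1 by omega,
    show t - 1 + 1 = t by omega]
  norm_num

theorem cap_S_b {c t : ℕ} (ht : 0 < t) (hc : c % 2 = 1) (hN : c < 6 * (V + D + 1)) :
    cap φ D V c (5*t-1) = 2 * pc t - (if c % 6 = 3 then 1 else 0) := by
  simp only [cap, capS, show ¬ c = 0 by omega, show ¬ 6 * (V + D + 1) ≤ c by omega, if_false, hc,
    if_true, show (5*t-1)%5 = 4 by omega, show (5*t-1)/5 = t-1 by omega,
    show t - 1 + 1 = t by omega]
  norm_num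

theorem cap_G_a {c t : ℕ} (ht : 0 < t) (hc0 : c ≠ 0) (hc : c % 2 = 0)
    (hN : c < 6 * (V + D + 1)) :
    cap φ D V c (5*t-2) = 2 * (D - pc (t-1)) - (if c % 6 = 0 then 2 else 1) := by
  simp only [cap, capG, hc0, show ¬ 6 * (V + D + 1) ≤ c by omega, if_false, hc,
    show (5*t-2)%5 = 3 by omega, show (5*t-2)/5 = t-1 by omega]
  norm_num

theorem cap_G_b {c t : ℕ} (ht : 0 < t) (hc0 : c ≠ 0) (hc : c % 2 = 0)
    (hN : c < 6 * (V + D + 1)) :
    cap φ D V c (5*t-1) = if c % 6 = 0 then 2 * (D - pc t) else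
      (D - pc (t-1) - 1) + (D - pc t) := by
  simp only [cap, capG, hc0, show ¬ 6 * (V + D + 1) ≤ c by omega, if_false, hc,
    show (5*t-1)%5 = 4 by omega, show (5*t-1)/5 = t-1 by omega, show t - 1 + 1 = t by omega]
  norm_num

theorem Lev.ge {T : BT} {e c : ℕ} (h : Lev D T e c) {j : ℕ}
    (h1 : 5 * (c * 2^e) ≤ j) (h2 : j + 3 ≤ 5 * ((c+1) * 2^e)) :
    pc c ≤ T.U j ∧ D - e - pc c ≤ T.L j := by
  obtain ⟨T', hs, hT⟩ := h
  have hb1 := beta_le D T (c * 2^e)
  have hb2 := beta_le D T ((c+1) * 2^e)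
  have e2 : (c+1) * 2^e = c * 2^e + 2^e := by ring
  rw [e2] at h2
  have h3 := hT.U (j - (5 * (c * 2 ^ e) + beta D T (c * 2 ^ e) - 1)) (by omega)
  have h4 := hT.L (j - (5 * (c * 2 ^ e) + beta D T (c * 2 ^ e) - 1)) (by omega)
  rw [show 5 * (c * 2 ^ e) + beta D T (c * 2 ^ e) - 1 +
    (j - (5 * (c * 2 ^ e) + beta D T (c * 2 ^ e) - 1)) = j by omega] at h3 h4
  omega

theorem Lev.loc {T : BT} {e c : ℕ} (he : 1 ≤ e) (h : Lev D T (e+1) c) :
    Loc (T.U (5*((2*c+1)*2^e)-2) - pc c) (T.U (5*((2*c+1)*2^e)-1) - pc c)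
      (T.L (5*((2*c+1)*2^e)-2) - (D-(e+1)-pc c)) (T.L (5*((2*c+1)*2^e)-1) - (D-(e+1)-pc c))
      (T.U (5*((2*c+1)*2^e)+3) - pc c) (T.L (5*((2*c+1)*2^e)-6) - (D-(e+1)-pc c)) := by
  obtain ⟨T', hs, hT⟩ := h
  have hb1 := beta_le D T (c * 2^(e+1))
  have hb2 := beta_le D T ((c+1) * 2^(e+1))
  have e2 : (c+1) * 2^(e+1) = c * 2^(e+1) + 2 * 2^e := by ring
  have e1 : (2*c+1)*2^e = c * 2^(e+1) + 2^e := by ring
  have e5 : 2^(e+1) = 2 * 2^e := by ring
  have h2 : 2 ≤ 2^e := by
    calc 2 = 2^1 := rfl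
      _ ≤ 2^e := Nat.pow_le_pow_right (by norm_num) he
  rw [e1]
  have := hT.loc (a := 5 * (c * 2^(e+1) + 2^e) - 2) (c := 5 * (c * 2^(e+1) + 2^e) + 3)
    (d := 5 * (c * 2^(e+1) + 2^e) - 6) (by omega) (by omega) (by omega) (by omega)
  rwa [show 5 * (c * 2^(e+1) + 2^e) - 2 + 1 = 5 * (c * 2^(e+1) + 2^e) - 1 by omega] at this

theorem sub2 {a b s k : ℕ} (ha : s ≤ a) (hb : s ≤ b) (h : a + b ≤ 2 * s + k) :
    (a - s) + (b - s) ≤ k := by omega

theorem rel_even {w g : ℕ} {s : Bool} (h : g % 2 = 0) : rel φ w g s = 0 := by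
  unfold rel; rw [if_neg]; rintro ⟨h1, -⟩; omega

/-- the window lemma, even boundary -/
theorem root_even (hS : Sol φ D V T) {e c w : ℕ} (he : 1 ≤ e) (heD : e < D)
    (hc : c < 2 ^ (D - (e+1))) (hw : w < V + D)
    (h : ∀ i ≤ 6*w+6, Lev D (T i) (e+1) c) :
    ∀ i < 6, RootAt D (T (6*w+i)) e c := by
  obtain ⟨hm1, hm2, hm3⟩ := mid_lt heD hc
  have h2 : 2 ≤ 2^e := by
    calc 2 = 2^1 := rfl
      _ ≤ 2^e := Nat.pow_le_pow_right (by norm_num) he
  have e1 : (2*c+1) * 2^e = c * 2^(e+1) + 2^e := by ring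
  have e2 : (c+1) * 2^(e+1) = (2*c+1) * 2^e + 2^e := by ring
  have hteven : ((2*c+1) * 2^e) % 2 = 0 := by
    obtain ⟨e', rfl⟩ : ∃ e', e = e' + 1 := ⟨e-1, by omega⟩
    rw [show (2*c+1) * 2^(e'+1) = 2 * ((2*c+1) * 2^e') by ring]; omega
  have hpt : pc ((2*c+1) * 2^e) = pc c + 1 := by rw [pc_mul_pow, pc_two_mul_add]
  have hpt1 : pc ((2*c+1) * 2^e-1) = pc c + e := pc_pred c e
  have hpt2 : pc ((2*c+1) * 2^e+1) = pc c + 2 := by
    obtain ⟨t', ht'⟩ : ∃ t', (2*c+1) * 2^e = 2 * t' := ⟨((2*c+1) * 2^e)/2, by omega⟩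
    rw [ht', pc_two_mul_add, ← pc_two_mul, ← ht', hpt]
  have hpt3 : pc ((2*c+1) * 2^e-2) + 1 = pc c + e := by
    obtain ⟨t', ht'⟩ : ∃ t', (2*c+1) * 2^e = 2 * t' + 2 := ⟨((2*c+1) * 2^e-2)/2, by omega⟩
    rw [← hpt1, ht', show 2*t'+2-1 = 2*t'+1 by omega, show 2*t'+2-2 = 2*t' by omega,
      pc_two_mul_add, pc_two_mul]
  have hpc : pc c ≤ D - (e+1) := pc_le hc
  have hloc : ∀ i < 6, _ := fun i (hi : i < 6) => (h (6*w+i) (by omega)).loc he
  have hge : ∀ i ≤ 6*w+6, ∀ j, 5 * (c * 2^(e+1)) ≤ j → j + 3 ≤ 5 * ((c+1) * 2^(e+1)) →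
    pc c ≤ (T i).U j ∧ D-(e+1)-pc c ≤ (T i).L j := fun i hi j h1 h2 => (h i hi).ge h1 h2
  clear h
  unfold RootAt
  generalize (2*c+1) * 2^e = t at *
  have hj1 : 5*t-2 < 5*2^D-2 := by omega
  have hj2 : 5*t-1 < 5*2^D-2 := by omega
  have hj3 : 5*t+3 < 5*2^D-2 := by omega
  have hj4 : 5*t-6 < 5*2^D-2 := by omega
  have ge1 : ∀ i ≤ 6*w+6, pc c ≤ (T i).U (5*t-2) ∧ D-(e+1)-pc c ≤ (T i).L (5*t-2) :=
    fun i hi => hge i hi _ (by omega) (by omega)
  have ge2 : ∀ i ≤ 6*w+6, pc c ≤ (T i).U (5*t-1) ∧ D-(e+1)-pc c ≤ (T i).L (5*t-1) :=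
    fun i hi => hge i hi _ (by omega) (by omega)
  have ge3 : ∀ i ≤ 6*w+6, pc c ≤ (T i).U (5*t+3) :=
    fun i hi => (hge i hi (5*t+3) (by omega) (by omega)).1
  have ge4 : ∀ i ≤ 6*w+6, D-(e+1)-pc c ≤ (T i).L (5*t-6) :=
    fun i hi => (hge i hi (5*t-6) (by omega) (by omega)).2
  clear hge
  -- the capacities
  have yc : ∀ i, i % 2 = 0 → i ≤ 4 → (T (6*w+i)).U (5*t-1) + (T (6*w+(i+1))).U (5*t-1) ≤
      2 * pc c + 2 - (if i = 2 then 1 else 0) := by
    intro i h1 h2
    have h3 := hS.stepU (6*w+i) (by omega) (by omega) _ hj2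
    rw [cap_S_b (by omega) (by omega) (by omega), hpt] at h3
    refine h3.trans ?_
    have : (6*w+i+1) % 6 = 3 ↔ i = 2 := by omega
    simp only [this]
    omega
  have zc : ∀ i, i % 2 = 0 → i ≤ 4 → (T (6*w+i)).U (5*t+3) + (T (6*w+(i+1))).U (5*t+3) ≤
      2 * pc c + 2 := by
    intro i h1 h2
    have h3 := hS.stepU (6*w+i) (by omega) (by omega) _ hj3
    rw [show 5*t+3 = 5*(t+1)-2 by omega, cap_S_a (by omega) (by omega) (by omega), hpt2,
      show t + 1 - 1 = t by omega, hpt, rel_even hteven, rel_even hteven] at h3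
    rw [show 5*t+3 = 5*(t+1)-2 by omega]
    refine h3.trans ?_
    simp only [ite_self]
    omega
  have pcap : ∀ i, i % 2 = 1 → i ≤ 3 → (T (6*w+i)).L (5*t-2) + (T (6*w+(i+1))).L (5*t-2) ≤
      2 * (D - (e+1) - pc c) + 1 := by
    intro i h1 h2
    have h3 := hS.stepL (6*w+i) (by omega) (by omega) _ hj1
    rw [cap_G_a (by omega) (by omega) (by omega) (by omega), hpt1, if_neg (by omega)] at h3
    rw [show 6*w+(i+1) = 6*w+i+1 by omega]
    omega
  have wcap : ∀ i, i % 2 = 1 → i ≤ 3 → (T (6*w+i)).L (5*t-6) + (T (6*w+(i+1))).L (5*t-6) ≤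
      2 * (D - (e+1) - pc c) + 2 := by
    intro i h1 h2
    have h3 := hS.stepL (6*w+i) (by omega) (by omega) _ hj4
    rw [show 5*t-6 = 5*(t-1)-1 by omega, cap_G_b (by omega) (by omega) (by omega) (by omega),
      if_neg (by omega), hpt1, show t - 1 - 1 = t - 2 by omega] at h3
    rw [show 5*t-6 = 5*(t-1)-1 by omega, show 6*w+(i+1) = 6*w+i+1 by omega]
    omega
  have p5 : (T (6*w+5)).L (5*t-2) ≤ D - (e+1) - pc c := by
    have h3 := hS.stepL (6*w+5) (by omega) (by omega) _ hj1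
    rw [cap_G_a (by omega) (by omega) (by omega) (by omega), hpt1, if_pos (by omega)] at h3
    have := (ge1 (6*w+6) le_rfl).2
    rw [show 6*w+5+1 = 6*w+6 by omega] at h3
    omega
  have p0 : (T (6*w+0)).L (5*t-2) ≤ D - (e+1) - pc c := by
    rcases Nat.eq_zero_or_pos w with hw0 | hw0
    · subst hw0
      have := hS.start _ hj1
      rw [cap_zero_a (by omega), hpt1] at this
      rw [show 6 * 0 + 0 = 0 by norm_num]
      omega
    · have h3 := hS.stepL (6*w-1) (by omega) (by omega) _ hj1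
      rw [cap_G_a (by omega) (by omega) (by omega) (by omega), hpt1, if_pos (by omega)] at h3
      have := (ge1 (6*w-1) (by omega)).2
      rw [show 6*w-1+1 = 6*w by omega] at h3
      rw [Nat.add_zero]
      omega
  have yc0 : (T (6*w+0)).U (5*t-1) + (T (6*w+1)).U (5*t-1) ≤ 2 * pc c + 2 :=
    (yc 0 rfl (by norm_num)).trans (by simp)
  have yc2 : (T (6*w+2)).U (5*t-1) + (T (6*w+3)).U (5*t-1) ≤ 2 * pc c + 1 :=
    (yc 2 rfl (by norm_num)).trans (by simp)
  have yc4 : (T (6*w+4)).U (5*t-1) + (T (6*w+5)).U (5*t-1) ≤ 2 * pc c + 2 :=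
    (yc 4 rfl (by norm_num)).trans (by simp)
  have zc0 : (T (6*w+0)).U (5*t+3) + (T (6*w+1)).U (5*t+3) ≤ 2 * pc c + 2 :=
    zc 0 rfl (by norm_num)
  have zc2 : (T (6*w+2)).U (5*t+3) + (T (6*w+3)).U (5*t+3) ≤ 2 * pc c + 2 :=
    zc 2 rfl (by norm_num)
  have zc4 : (T (6*w+4)).U (5*t+3) + (T (6*w+5)).U (5*t+3) ≤ 2 * pc c + 2 :=
    zc 4 rfl (by norm_num)
  have pc1 : (T (6*w+1)).L (5*t-2) + (T (6*w+2)).L (5*t-2) ≤ 2 * (D - (e+1) - pc c) + 1 :=
    pcap 1 rfl (by norm_num)
  have pc3 : (T (6*w+3)).L (5*t-2) + (T (6*w+4)).L (5*t-2) ≤ 2 * (D - (e+1) - pc c) + 1 :=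
    pcap 3 rfl (by norm_num)
  have wc1 : (T (6*w+1)).L (5*t-6) + (T (6*w+2)).L (5*t-6) ≤ 2 * (D - (e+1) - pc c) + 2 :=
    wcap 1 rfl (by norm_num)
  have wc3 : (T (6*w+3)).L (5*t-6) + (T (6*w+4)).L (5*t-6) ≤ 2 * (D - (e+1) - pc c) + 2 :=
    wcap 3 rfl (by norm_num)
  have main := window_even (fun i => (T (6*w+i)).U (5*t-2) - pc c)
    (fun i => (T (6*w+i)).U (5*t-1) - pc c)
    (fun i => (T (6*w+i)).L (5*t-2) - (D-(e+1)-pc c))
    (fun i => (T (6*w+i)).L (5*t-1) - (D-(e+1)-pc c))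
    (fun i => (T (6*w+i)).U (5*t+3) - pc c)
    (fun i => (T (6*w+i)).L (5*t-6) - (D-(e+1)-pc c))
    (fun i hi => hloc i hi)
    (sub2 (ge2 _ (by omega)).1 (ge2 _ (by omega)).1 yc0)
    (sub2 (ge3 _ (by omega)) (ge3 _ (by omega)) zc0)
    (sub2 (ge1 _ (by omega)).2 (ge1 _ (by omega)).2 pc1)
    (sub2 (ge4 _ (by omega)) (ge4 _ (by omega)) wc1)
    (sub2 (ge2 _ (by omega)).1 (ge2 _ (by omega)).1 yc2)
    (sub2 (ge3 _ (by omega)) (ge3 _ (by omega)) zc2)
    (sub2 (ge1 _ (by omega)).2 (ge1 _ (by omega)).2 pc3)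
    (sub2 (ge4 _ (by omega)) (ge4 _ (by omega)) wc3)
    (sub2 (ge2 _ (by omega)).1 (ge2 _ (by omega)).1 yc4)
    (sub2 (ge3 _ (by omega)) (ge3 _ (by omega)) zc4)
    (Nat.sub_eq_zero_of_le p0) (Nat.sub_eq_zero_of_le p5)
  intro i hi
  have h1 := main i hi
  have h2 := ge1 (6*w+i) (by omega)
  have h3 := ge2 (6*w+i) (by omega)
  omega

/-- odd boundaries: the root is one of the two keys -/
theorem root_odd (hS : Sol φ D V T) {c i : ℕ} (hD : 0 < D)
    (hc : c < 2 ^ (D - 1)) (hi : i < 6 * (V + D))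
    (h : ∀ i' ≤ i + 1, Lev D (T i') 1 c) : RootAt D (T i) 0 c := by
  obtain ⟨hm1, hm2, hm3⟩ := mid_lt hD hc
  have hpt : pc (2*c+1) = pc c + 1 := pc_two_mul_add c
  have hpt1 : pc (2*c+1-1) = pc c := by rw [show 2*c+1-1 = 2*c by omega, pc_two_mul]
  have hpc : pc c ≤ D - 1 := pc_le hc
  have hge : ∀ i' ≤ i+1, ∀ j, 5 * (2*c) ≤ j → j + 3 ≤ 5 * (2*c+2) →
      pc c ≤ (T i').U j ∧ D-1-pc c ≤ (T i').L j := fun i' hi' j h1 h2 =>
    (h i' hi').ge (by rw [show c * 2^1 = 2 * c by ring]; exact h1)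
      (by rw [show (c+1) * 2^1 = 2 * c + 2 by ring]; exact h2)
  have hadj : ((T i).U (5*(2*c+1)-1) = (T i).U (5*(2*c+1)-2) + 1 ∧
      (T i).L (5*(2*c+1)-2) ≤ (T i).L (5*(2*c+1)-1)) ∨
      ((T i).L (5*(2*c+1)-2) = (T i).L (5*(2*c+1)-1) + 1 ∧
      (T i).U (5*(2*c+1)-1) ≤ (T i).U (5*(2*c+1)-2)) := by
    have h1 := BT.adj (T i) (5*(2*c+1)-2) (by
      rw [hS.size i (by omega)]
      simp only [pow_zero, mul_one] at hm1
      omega)
    rwa [show 5*(2*c+1)-2+1 = 5*(2*c+1)-1 by omega] at h1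
  clear h
  unfold RootAt
  simp only [pow_zero, mul_one, zero_add] at hm1 ⊢
  have hj1 : 5*(2*c+1)-2 < 5*2^D-2 := by omega
  have hj2 : 5*(2*c+1)-1 < 5*2^D-2 := by omega
  have ge1 : ∀ i' ≤ i+1, pc c ≤ (T i').U (5*(2*c+1)-2) ∧
      D-1-pc c ≤ (T i').L (5*(2*c+1)-2) := fun i' hi' => hge i' hi' _ (by omega) (by omega)
  have ge2 : ∀ i' ≤ i+1, pc c ≤ (T i').U (5*(2*c+1)-1) ∧
      D-1-pc c ≤ (T i').L (5*(2*c+1)-1) := fun i' hi' => hge i' hi' _ (by omega) (by omega)
  -- the smaller ancestors of the left key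
  have hU : (T i).U (5*(2*c+1)-2) = pc c := by
    have key : ∀ i' ≤ i, i' % 2 = 0 → i' + 1 < 6 * (V + D + 1) →
        (T i').U (5*(2*c+1)-2) + (T (i'+1)).U (5*(2*c+1)-2) ≤ 2 * pc c := by
      intro i' h1 h2 h3
      have h4 := hS.stepU i' h2 h3 _ hj1
      rw [cap_S_a (by omega) (by omega) (by omega), hpt, hpt1, rel_even (by omega),
        rel_even (by omega)] at h4
      refine h4.trans ?_
      simp only [ite_self]
      omega
    rcases Nat.mod_two_eq_zero_or_one i with h1 | h1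
    · have := key i le_rfl h1 (by omega)
      have := (ge1 i (by omega)).1
      have := (ge1 (i+1) le_rfl).1
      omega
    · have := key (i-1) (by omega) (by omega) (by omega)
      rw [show i - 1 + 1 = i by omega] at this
      have := (ge1 i (by omega)).1
      have := (ge1 (i-1) (by omega)).1
      omega
  -- the larger ancestors of the right key
  have hL : (T i).L (5*(2*c+1)-1) = D - 1 - pc c := by
    have key : ∀ i' ≤ i, i' % 2 = 1 → i' + 1 < 6 * (V + D + 1) →
        (T i').L (5*(2*c+1)-1) + (T (i'+1)).L (5*(2*c+1)-1) ≤ 2 * (D - 1 - pc c) := by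
      intro i' h1 h2 h3
      have h4 := hS.stepL i' h2 h3 _ hj2
      rw [cap_G_b (by omega) (by omega) (by omega) (by omega), hpt, hpt1] at h4
      refine h4.trans ?_
      split_ifs <;> omega
    rcases Nat.mod_two_eq_zero_or_one i with h1 | h1
    · rcases Nat.eq_zero_or_pos i with h0 | h0
      · subst h0
        have := hS.start _ hj2
        rw [cap_zero_b (by omega), hpt] at this
        have := (ge2 0 (by omega)).2
        omega
      · have := key (i-1) (by omega) (by omega) (by omega)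
        rw [show i - 1 + 1 = i by omega] at this
        have := (ge2 i (by omega)).2
        have := (ge2 (i-1) (by omega)).2
        omega
    · have := key i le_rfl h1 (by omega)
      have := (ge2 i (by omega)).2
      have := (ge2 (i+1) le_rfl).2
      omega
  have h1 := (ge1 i (by omega)).2
  have h2 := (ge2 i (by omega)).1
  omega

/-- **rigidity**: all dyadic intervals of level `e` are subtrees in the first `V + 1 + e`
windows -/
theorem rigid (hS : Sol φ D V T) (e : ℕ) (he : e ≤ D) :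
    ∀ i < 6 * (V + 1 + e), ∀ c < 2 ^ (D - e), Lev D (T i) e c := by
  induction he using Nat.decreasingInduction with
  | self =>
    intro i hi c hc
    simp only [Nat.sub_self, pow_zero, Nat.lt_one_iff] at hc
    subst hc
    exact Lev.top (hS.size i (by omega))
  | of_succ e he ih =>
    intro i hi c' hc'
    obtain ⟨c, hc⟩ : ∃ c, c' = 2 * c ∨ c' = 2 * c + 1 := ⟨c' / 2, by omega⟩
    have hD : 2 ^ (D - e) = 2 * 2 ^ (D - (e+1)) := by
      rw [← pow_succ']; congr 1; omega
    have hc2 : c < 2 ^ (D - (e+1)) := by omega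
    have hr : RootAt D (T i) e c := by
      rcases Nat.eq_zero_or_pos e with h0 | h0
      · subst h0
        exact root_odd hS (by omega) hc2 (by omega) fun i' hi' => ih i' (by omega) c hc2
      · have := root_even hS h0 (by omega) hc2 (w := i / 6) (by omega)
          (fun i' hi' => ih i' (by omega) c hc2) (i % 6) (Nat.mod_lt _ (by norm_num))
        rwa [Nat.div_add_mod] at this
    have hp : pc c + (e+1) ≤ D := by have := pc_le hc2; omega
    obtain ⟨h1, h2⟩ := (ih i (by omega) c hc2).step he hc2 hr hp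
    rcases hc with rfl | rfl
    · exact h1
    · exact h2

end Chain

end Pool.Agent.Lib.MP_7d5495_lc
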