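import Pool.Agent.Lib.MP_7d5495_lc.ChainRigid

/-!
# Soundness of the chain instance: a solution gives a satisfying assignment
-/

namespace Pool.Agent.Lib.MP_7d5495_lc

namespace Chain

open CookLevin (Cnf)

variable {φ : Cnf} {D V : ℕ} {T : ℕ → BT}

theorem Sol.of_pre (h : ChainPre (6 * (V + D + 1)) (5 * 2 ^ D - 2) (cap φ D V) T) :
    Sol φ D V T where
  size := h.1
  start := h.2.1
  stepU i h1 h2 j h3 := by have := h.2.2 i h2 j h3; rwa [if_pos h1] at this
  stepL i h1 h2 j h3 := by have := h.2.2 i h2 j h3; rwa [if_neg (by omega)] at this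

/-- every boundary is the middle of a dyadic interval -/
theorem exists_dyadic {D t : ℕ} (h0 : 0 < t) (h : t < 2 ^ D) :
    ∃ e c, e < D ∧ c < 2 ^ (D - (e+1)) ∧ t = (2*c+1) * 2^e := by
  induction D generalizing t with
  | zero => simp only [pow_zero] at h; omega
  | succ D ih =>
    rw [pow_succ] at h
    rcases Nat.even_or_odd' t with ⟨t', rfl | rfl⟩
    · obtain ⟨e, c, h1, h2, h3⟩ := @ih t' (by omega) (by omega)
      refine ⟨e+1, c, by omega, ?_, by rw [h3]; ring⟩
      rwa [show D + 1 - (e + 1 + 1) = D - (e+1) by omega]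
    · exact ⟨0, t', by omega, by simpa using by omega, by simp⟩

theorem pc_pred_lt {D t : ℕ} (h0 : 0 < t) (h : t < 2 ^ D) : pc (t-1) + 1 ≤ D := by
  obtain ⟨e, c, h1, h2, rfl⟩ := exists_dyadic h0 h
  rw [pc_pred]
  have := pc_le h2
  omega

theorem pc_even {t : ℕ} (h0 : 0 < t) (h : t % 2 = 0) : pc t ≤ pc (t-1) := by
  obtain ⟨e, c, h1, h2, rfl⟩ := exists_dyadic h0 (Nat.lt_two_pow_self (n := t))
  rw [pc_pred, pc_mul_pow, pc_two_mul_add]
  rcases Nat.eq_zero_or_pos e with rfl | he
  · simp at h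
  · omega

/-- lower bounds for the loads of a boundary -/
theorem bnd (hS : Sol φ D V T) {i t : ℕ} (hi : i < 6 * (V + 1)) (h0 : 0 < t) (h : t < 2 ^ D) :
    (D - pc (t-1) - 1 ≤ (T i).L (5*t-2) ∧ D - pc (t-1) - 1 ≤ (T i).L (5*t-1)) ∧
    (pc t - 1 ≤ (T i).U (5*t-2) ∧ pc t - 1 ≤ (T i).U (5*t-1)) := by
  obtain ⟨e, c, h1, h2, h3⟩ := exists_dyadic h0 h
  have hr := rigid hS (e+1) h1 i (by omega) c h2
  have e1 : t = c * 2^(e+1) + 2^e := by rw [h3]; ring
  have e2 : (c+1) * 2^(e+1) = t + 2^e := by rw [h3]; ring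
  have e3 : 0 < 2 ^ e := by positivity
  have g1 := hr.ge (j := 5*t-2) (by omega) (by omega)
  have g2 := hr.ge (j := 5*t-1) (by omega) (by omega)
  have p1 : pc (t-1) = pc c + e := by rw [h3, pc_pred]
  have p2 : pc t = pc c + 1 := by rw [h3, pc_mul_pow, pc_two_mul_add]
  omega

/-- the tree of a group -/
theorem grp (hS : Sol φ D V T) {i g : ℕ} (hi : i < 6 * (V + 1)) (hg : g < 2 ^ D) :
    ∃ T' : BT, T'.size + 1 + beta D (T i) g = 5 + beta D (T i) (g+1) ∧
      Sub (T i) (pc g) (D - pc g) (5*g + beta D (T i) g - 1) T' := by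
  obtain ⟨T', h1, h2⟩ := rigid hS 0 (by omega) i (by omega) g (by simpa using hg)
  simp only [pow_zero, mul_one, Nat.sub_zero] at h1 h2
  exact ⟨T', h1, h2⟩

theorem beta_one {T : BT} {t : ℕ} (h0 : 0 < t) (h : t < 2 ^ D) (hb : beta D T t = 1) :
    T.L (5*t-1) < T.L (5*t-2) := by
  unfold beta at hb
  rw [if_neg (by omega), if_neg (by omega)] at hb
  split_ifs at hb with h1
  omega

theorem beta_zero {T : BT} {t : ℕ} (h0 : 0 < t) (h : t < 2 ^ D) (hb : beta D T t = 0) :
    T.L (5*t-2) ≤ T.L (5*t-1) := by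
  unfold beta at hb
  rw [if_neg (by omega), if_neg (by omega)] at hb
  split_ifs at hb with h1
  exact h1

/-- a hosted right key -/
theorem host_b (hS : Sol φ D V T) {i t : ℕ} (hi : i < 6 * (V + 1)) (h0 : 0 < t) (h : t < 2 ^ D)
    (hb : beta D (T i) t = 0) : pc t ≤ (T i).U (5*t-1) ∧ D - pc t ≤ (T i).L (5*t-1) := by
  obtain ⟨T', h1, h2⟩ := grp hS hi h
  rw [hb] at h1 h2
  have := beta_le D (T i) (t+1)
  have h3 := h2.U 0 (by omega)
  have h4 := h2.L 0 (by omega)
  rw [show 5*t+0-1+0 = 5*t-1 by omega] at h3 h4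
  omega

/-- a hosted left key -/
theorem host_a (hS : Sol φ D V T) {i t : ℕ} (hi : i < 6 * (V + 1)) (h0 : 0 < t) (h : t < 2 ^ D)
    (hb : beta D (T i) t = 1) :
    pc (t-1) ≤ (T i).U (5*t-2) ∧ D - pc (t-1) ≤ (T i).L (5*t-2) := by
  obtain ⟨T', h1, h2⟩ := grp hS hi (g := t-1) (by omega)
  rw [show t - 1 + 1 = t by omega, hb] at h1
  have := beta_le D (T i) (t-1)
  have e : 5*(t-1) + beta D (T i) (t-1) - 1 + (T'.size - 1) = 5*t-2 := by
    have : t - 1 = 0 → beta D (T i) (t-1) = 1 := by intro h; rw [h]; simp [beta]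
    omega
  have h3 := h2.U (T'.size - 1) (by omega)
  have h4 := h2.L (T'.size - 1) (by omega)
  rw [e] at h3 h4
  omega

/-- at the ends of the windows the left key is the top -/
theorem beta_ends (hS : Sol φ D V T) {i t : ℕ} (hi : i ≤ 6 * V) (hi' : i % 6 = 0 ∨ i % 6 = 5)
    (h0 : 0 < t) (h : t < 2 ^ D) : beta D (T i) t = 0 := by
  by_contra hb
  have hb1 : beta D (T i) t = 1 := by have := beta_le D (T i) t; omega
  have h1 := (host_a hS (by omega) h0 h hb1).2
  have hpc := pc_pred_lt h0 h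
  have hj : 5*t-2 < 5*2^D-2 := by omega
  rcases Nat.eq_zero_or_pos i with hi0 | hi0
  · subst hi0
    have := hS.start _ hj
    rw [cap_zero_a h0] at this
    omega
  · rcases hi' with h6 | h6
    · have h3 := hS.stepL (i-1) (by omega) (by omega) _ hj
      rw [show i - 1 + 1 = i by omega, cap_G_a h0 (by omega) (by omega) (by omega),
        if_pos h6] at h3
      have := (bnd hS (i := i-1) (by omega) h0 h).1.1
      omega
    · have h3 := hS.stepL i (by omega) (by omega) _ hj
      rw [cap_G_a h0 (by omega) (by omega) (by omega), if_pos (by omega)] at h3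
      have := (bnd hS (i := i+1) (by omega) h0 h).1.1
      omega

/-- inner even corridors -/
theorem beta_G (hS : Sol φ D V T) {i t : ℕ} (hi : i < 6 * V) (hi' : i % 6 = 1 ∨ i % 6 = 3)
    (h0 : 0 < t) (h : t < 2 ^ D) : beta D (T i) t + beta D (T (i+1)) t ≤ 1 ∧
      (t % 2 = 0 → beta D (T i) t + beta D (T (i+1)) t = 1) := by
  have b1 := beta_le D (T i) t
  have b2 := beta_le D (T (i+1)) t
  have hpc := pc_pred_lt h0 h
  have hle : beta D (T i) t + beta D (T (i+1)) t ≤ 1 := by
    by_contra hb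
    have h1 := (host_a hS (i := i) (by omega) h0 h (by omega)).2
    have h2 := (host_a hS (i := i+1) (by omega) h0 h (by omega)).2
    have h3 := hS.stepL i (by omega) (by omega) (5*t-2) (by omega)
    rw [cap_G_a h0 (by omega) (by omega) (by omega), if_neg (by omega)] at h3
    omega
  refine ⟨hle, fun ht => ?_⟩
  by_contra hb
  have h1 := (host_b hS (i := i) (by omega) h0 h (by omega)).2
  have h2 := (host_b hS (i := i+1) (by omega) h0 h (by omega)).2
  have h3 := hS.stepL i (by omega) (by omega) (5*t-1) (by omega)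
  rw [cap_G_b h0 (by omega) (by omega) (by omega), if_neg (by omega)] at h3
  have := pc_even h0 ht
  omega

/-- the middle odd corridor -/
theorem beta_S (hS : Sol φ D V T) {i t : ℕ} (hi : i < 6 * V) (hi' : i % 6 = 2)
    (h0 : 0 < t) (h : t < 2 ^ D) : 1 ≤ beta D (T i) t + beta D (T (i+1)) t ∧
      (t % 2 = 0 → beta D (T i) t + beta D (T (i+1)) t = 1) := by
  have b1 := beta_le D (T i) t
  have b2 := beta_le D (T (i+1)) t
  have hpt : 1 ≤ pc t := by
    obtain ⟨e, c, h1, h2, rfl⟩ := exists_dyadic h0 h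
    rw [pc_mul_pow, pc_two_mul_add]; omega
  have hge : 1 ≤ beta D (T i) t + beta D (T (i+1)) t := by
    by_contra hb
    have h1 := (host_b hS (i := i) (by omega) h0 h (by omega)).1
    have h2 := (host_b hS (i := i+1) (by omega) h0 h (by omega)).1
    have h3 := hS.stepU i (by omega) (by omega) (5*t-1) (by omega)
    rw [cap_S_b h0 (by omega) (by omega), if_pos (by omega)] at h3
    omega
  refine ⟨hge, fun ht => ?_⟩
  by_contra hb
  have h1 := (host_a hS (i := i) (by omega) h0 h (by omega)).1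
  have h2 := (host_a hS (i := i+1) (by omega) h0 h (by omega)).1
  have h3 := hS.stepU i (by omega) (by omega) (5*t-2) (by omega)
  rw [cap_S_a h0 (by omega) (by omega), if_neg (by omega), if_neg (by omega)] at h3
  have := pc_even h0 ht
  omega

/-- a hosted right key is the root of its group -/
theorem root_b (hS : Sol φ D V T) {i t : ℕ} (hi : i ≤ 6 * V) (h0 : 0 < t) (h : t < 2 ^ D)
    (hb : beta D (T i) t = 0) : (T i).L (5*t-1) = D - pc t := by
  have h1 := (host_b hS (i := i) (by omega) h0 h hb).2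
  have hj : 5*t-1 < 5*2^D-2 := by omega
  refine le_antisymm ?_ h1
  rcases Nat.eq_zero_or_pos i with hi0 | hi0
  · subst hi0
    have := hS.start _ hj
    rwa [cap_zero_b h0] at this
  · by_cases h6 : i % 6 = 0
    · have h3 := hS.stepL (i-1) (by omega) (by omega) _ hj
      rw [show i - 1 + 1 = i by omega, cap_G_b h0 (by omega) (by omega) (by omega),
        if_pos h6] at h3
      have := (host_b hS (i := i-1) (by omega) h0 h
        (beta_ends hS (by omega) (by omega) h0 h)).2
      omega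
    · by_cases h5 : i % 6 = 5
      · have h3 := hS.stepL i (by omega) (by omega) _ hj
        rw [cap_G_b h0 (by omega) (by omega) (by omega), if_pos (by omega)] at h3
        have := (host_b hS (i := i+1) (by omega) h0 h
          (beta_ends hS (by omega) (by omega) h0 h)).2
        omega
      · rcases Nat.mod_two_eq_zero_or_one i with h2 | h2
        · have h3 := hS.stepL (i-1) (by omega) (by omega) _ hj
          rw [show i - 1 + 1 = i by omega, cap_G_b h0 (by omega) (by omega) (by omega),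
            if_neg h6] at h3
          have := (bnd hS (i := i-1) (by omega) h0 h).1.2
          omega
        · have h3 := hS.stepL i (by omega) (by omega) _ hj
          rw [cap_G_b h0 (by omega) (by omega) (by omega), if_neg (by omega)] at h3
          have := (bnd hS (i := i+1) (by omega) h0 h).1.2
          omega

/-- the relaxation at the odd corridor next to the tree `i` -/
def rl (φ : Cnf) (i g : ℕ) : ℕ :=
  if i % 6 = 0 ∨ i % 6 = 1 then rel φ (i / 6) g true
  else if i % 6 = 4 ∨ i % 6 = 5 then rel φ (i / 6) g false else 0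

theorem cap_a_le (hS : Sol φ D V T) {i t : ℕ} (hi : i ≤ 6 * V) (h0 : 0 < t) (h : t < 2 ^ D) :
    (T i).U (5*t-2) ≤ pc (t-1) + rl φ i (t-1) := by
  have hj : 5*t-2 < 5*2^D-2 := by omega
  rcases Nat.mod_two_eq_zero_or_one i with h2 | h2
  · have h3 := hS.stepU i (by omega) (by omega) _ hj
    rw [cap_S_a h0 (by omega) (by omega)] at h3
    have := (bnd hS (i := i+1) (by omega) h0 h).2.1
    have h4 : (if (i+1) % 6 = 1 then rel φ ((i+1) / 6) (t-1) true
        else if (i+1) % 6 = 5 then rel φ ((i+1) / 6) (t-1) false else 0) = rl φ i (t-1) := by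
      unfold rl
      rw [show (i+1)/6 = i/6 by omega]
      have e1 : (i+1) % 6 = 1 ↔ (i % 6 = 0 ∨ i % 6 = 1) := by omega
      have e2 : (i+1) % 6 = 5 ↔ (i % 6 = 4 ∨ i % 6 = 5) := by omega
      simp only [e1, e2]
    rw [h4] at h3
    omega
  · have h3 := hS.stepU (i-1) (by omega) (by omega) _ hj
    rw [show i - 1 + 1 = i by omega, cap_S_a h0 (by omega) (by omega)] at h3
    have := (bnd hS (i := i-1) (by omega) h0 h).2.1
    have h4 : (if i % 6 = 1 then rel φ (i / 6) (t-1) true
        else if i % 6 = 5 then rel φ (i / 6) (t-1) false else 0) = rl φ i (t-1) := by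
      unfold rl
      split_ifs <;> first | rfl | (exfalso; omega)
    rw [h4] at h3
    omega

theorem rl_even {i g : ℕ} (h : g % 2 = 0) : rl φ i g = 0 := by
  unfold rl; rw [rel_even h, rel_even h]; split_ifs <;> rfl

/-- **conduction** -/
theorem conduct (hS : Sol φ D V T) {i g : ℕ} (hi : i ≤ 6 * V) (h0 : 0 < g) (h : g + 1 < 2 ^ D)
    (hr : rl φ i g = 0) : beta D (T i) (g+1) ≤ beta D (T i) g := by
  by_contra hb
  have b1 := beta_le D (T i) g
  have b2 := beta_le D (T i) (g+1)
  have hb0 : beta D (T i) g = 0 := by omega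
  have hb1 : beta D (T i) (g+1) = 1 := by omega
  have h1 := root_b hS hi h0 (by omega) hb0
  have h2 := cap_a_le hS hi (t := g+1) (by omega) h
  rw [show g + 1 - 1 = g by omega, hr] at h2
  obtain ⟨T', h3, h4⟩ := grp hS (i := i) (by omega) (g := g) (by omega)
  rw [hb0, hb1] at h3
  rw [hb0] at h4
  have h5 := h4.L 0 (by omega)
  have h6 := h4.U 4 (by omega)
  rw [show 5*g+0-1+0 = 5*g-1 by omega] at h5
  rw [show 5*g+0-1+4 = 5*(g+1)-2 by omega] at h6
  have h7 := BT.top_right T' 0 4 (by omega) (by omega) (by omega)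
  omega

/-- the value of the variable `w` -/
def val (D : ℕ) (T : ℕ → BT) (w : ℕ) : ℕ := beta D (T (6*w+3)) 2

theorem val_le (w : ℕ) : val D T w ≤ 1 := beta_le ..

/-- the two middle trees of a window -/
theorem uniform (hS : Sol φ D V T) (hD : 2 ≤ D) {w t : ℕ} (hw : w < V) (h0 : 2 ≤ t)
    (h : t + 2 ≤ 2 ^ D) :
    beta D (T (6*w+2)) t = 1 - val D T w ∧ beta D (T (6*w+3)) t = val D T w := by
  have hmono : ∀ i, (i = 6*w+2 ∨ i = 6*w+3) → ∀ a b, 1 ≤ a → a ≤ b → b < 2 ^ D →
      beta D (T i) b ≤ beta D (T i) a := by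
    intro i hi a b h1 h2 h3
    obtain ⟨k, rfl⟩ := Nat.exists_eq_add_of_le h2
    induction k with
    | zero => exact le_rfl
    | succ k ih =>
      have := ih (by omega) (by omega)
      have h4 := conduct hS (i := i) (g := a + k) (by omega) (by omega) (by omega)
        (by unfold rl; rw [if_neg (by omega), if_neg (by omega)])
      exact h4.trans this
  have hev : 2 ^ D % 2 = 0 := by
    obtain ⟨D', rfl⟩ : ∃ D', D = D' + 1 := ⟨D-1, by omega⟩
    rw [pow_succ]; omega
  have h4 : 4 ≤ 2 ^ D := by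
    calc 4 = 2 ^ 2 := rfl
      _ ≤ 2 ^ D := Nat.pow_le_pow_right (by norm_num) hD
  have s2 := (beta_S hS (i := 6*w+2) (t := 2) (by omega) (by omega) (by omega) (by omega)).2 rfl
  have sE := (beta_S hS (i := 6*w+2) (t := 2^D-2) (by omega) (by omega) (by omega)
    (by omega)).2 (by omega)
  rw [show 6*w+2+1 = 6*w+3 by omega] at s2 sE
  have m1 := hmono (6*w+2) (Or.inl rfl) 2 t (by omega) h0 (by omega)
  have m2 := hmono (6*w+2) (Or.inl rfl) t (2^D-2) (by omega) (by omega) (by omega)
  have m3 := hmono (6*w+3) (Or.inr rfl) 2 t (by omega) h0 (by omega)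
  have m4 := hmono (6*w+3) (Or.inr rfl) t (2^D-2) (by omega) (by omega) (by omega)
  unfold val
  omega

/-- the pattern at an even boundary -/
theorem pattern_even (hS : Sol φ D V T) (hD : 2 ≤ D) {w t : ℕ} (hw : w < V) (h0 : 2 ≤ t)
    (h : t + 2 ≤ 2 ^ D) (ht : t % 2 = 0) :
    beta D (T (6*w+1)) t = val D T w ∧ beta D (T (6*w+4)) t = 1 - val D T w := by
  obtain ⟨h1, h2⟩ := uniform hS hD hw h0 h
  have h3 := (beta_G hS (i := 6*w+1) (t := t) (by omega) (by omega) (by omega) (by omega)).2 ht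
  have h4 := (beta_G hS (i := 6*w+3) (t := t) (by omega) (by omega) (by omega) (by omega)).2 ht
  rw [show 6*w+1+1 = 6*w+2 by omega] at h3
  rw [show 6*w+3+1 = 6*w+4 by omega] at h4
  have := val_le (D := D) (T := T) w
  omega

/-- no literal of the group `g` is true in the window `w` -/
def NoLit (φ : Cnf) (D : ℕ) (T : ℕ → BT) (w g : ℕ) : Prop :=
  (val D T w = 1 → rel φ w g true = 0) ∧ (val D T w = 0 → rel φ w g false = 0)

/-- the pattern of the window with value `v` -/
def pv (v i : ℕ) : ℕ := if i = 1 ∨ i = 3 then v else if i = 2 ∨ i = 4 then 1 - v else 0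

/-- the pattern of the group of a clause in a window without true literal -/
theorem pattern (hS : Sol φ D V T) (hD : 2 ≤ D) {w g : ℕ} (hw : w < V) (h0 : 3 ≤ g)
    (h : g + 3 ≤ 2 ^ D) (hg : g % 2 = 1) (hn : NoLit φ D T w g) (i : ℕ) (hi : i < 6) :
    beta D (T (6*w+i)) g = pv (val D T w) i ∧ beta D (T (6*w+i)) (g+1) = pv (val D T w) i := by
  have hv := val_le (D := D) (T := T) w
  obtain ⟨u1, u2⟩ := uniform hS hD hw (t := g) (by omega) (by omega)
  obtain ⟨v1, v2⟩ := uniform hS hD hw (t := g+1) (by omega) (by omega)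
  obtain ⟨p1, p2⟩ := pattern_even hS hD hw (t := g-1) (by omega) (by omega) (by omega)
  obtain ⟨q1, q2⟩ := pattern_even hS hD hw (t := g+1) (by omega) (by omega) (by omega)
  have b1 := beta_le D (T (6*w+1)) g
  have b4 := beta_le D (T (6*w+4)) g
  have c1 := conduct hS (i := 6*w+1) (g := g-1) (by omega) (by omega) (by omega)
    (rl_even (by omega))
  have c4 := conduct hS (i := 6*w+4) (g := g-1) (by omega) (by omega) (by omega)
    (rl_even (by omega))
  rw [show g - 1 + 1 = g by omega] at c1 c4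
  have d1 : val D T w = 1 → beta D (T (6*w+1)) (g+1) ≤ beta D (T (6*w+1)) g := by
    intro hv1
    refine conduct hS (by omega) (by omega) (by omega) ?_
    unfold rl
    rw [if_pos (by omega), show (6*w+1)/6 = w by omega]
    exact hn.1 hv1
  have d4 : val D T w = 0 → beta D (T (6*w+4)) (g+1) ≤ beta D (T (6*w+4)) g := by
    intro hv0
    refine conduct hS (by omega) (by omega) (by omega) ?_
    unfold rl
    rw [if_neg (by omega), if_pos (by omega), show (6*w+4)/6 = w by omega]
    exact hn.2 hv0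
  have e0 := beta_ends hS (i := 6*w+0) (t := g) (by omega) (by omega) (by omega) (by omega)
  have e0' := beta_ends hS (i := 6*w+0) (t := g+1) (by omega) (by omega) (by omega) (by omega)
  have e5 := beta_ends hS (i := 6*w+5) (t := g) (by omega) (by omega) (by omega) (by omega)
  have e5' := beta_ends hS (i := 6*w+5) (t := g+1) (by omega) (by omega) (by omega) (by omega)
  unfold pv
  interval_cases i
  · simp only [e0, e0']; norm_num
  · norm_num; omega
  · norm_num; omega
  · norm_num; omega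
  · norm_num; omega
  · simp only [e5, e5']; norm_num

/-- the five trees with three nodes -/
theorem three {R : BT} (h : R.size = 3) : R.U 0 = 0 ∧ R.L 2 = 0 ∧
    ((R.U 1 = 1 ∧ R.U 2 = 2 ∧ R.L 0 = 0 ∧ R.L 1 = 0) ∨
     (R.U 1 = 1 ∧ R.U 2 = 1 ∧ R.L 0 = 0 ∧ R.L 1 = 1) ∨
     (R.U 1 = 0 ∧ R.U 2 = 1 ∧ R.L 0 = 1 ∧ R.L 1 = 0) ∨
     (R.U 1 = 1 ∧ R.U 2 = 0 ∧ R.L 0 = 1 ∧ R.L 1 = 1) ∨
     (R.U 1 = 0 ∧ R.U 2 = 0 ∧ R.L 0 = 2 ∧ R.L 1 = 1)) := by
  have one : ∀ R : BT, R.size = 1 → R = BT.node BT.nil BT.nil := by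
    intro R h
    cases R with
    | nil => simp at h
    | node l r =>
      simp only [BT.size_node] at h
      cases l with
      | nil => cases r with
        | nil => rfl
        | node _ _ => simp only [BT.size_node, BT.size_nil] at h; omega
      | node _ _ => simp only [BT.size_node] at h; omega
  have zero : ∀ R : BT, R.size = 0 → R = BT.nil := by
    intro R h
    cases R with
    | nil => rfl
    | node _ _ => simp only [BT.size_node] at h; omega
  have two : ∀ R : BT, R.size = 2 → R = BT.node (BT.node BT.nil BT.nil) BT.nil ∨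
      R = BT.node BT.nil (BT.node BT.nil BT.nil) := by
    intro R h
    cases R with
    | nil => simp at h
    | node l r =>
      simp only [BT.size_node] at h
      rcases Nat.eq_zero_or_pos l.size with h1 | h1
      · right; rw [zero l h1, one r (by omega)]
      · left; rw [zero r (by omega), one l (by omega)]
  cases R with
  | nil => simp at h
  | node l r =>
    simp only [BT.size_node] at h
    have h1 : l.size = 0 ∨ l.size = 1 ∨ l.size = 2 := by omega
    rcases h1 with h1 | h1 | h1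
    · rw [zero l h1]
      rcases two r (by omega) with h2 | h2 <;> rw [h2] <;> decide
    · rw [one l h1, one r (by omega)]; decide
    · rw [zero r (by omega)]
      rcases two l h1 with h2 | h2 <;> rw [h2] <;> decide

/-- loads of the wire when the group hosts the right key of its left boundary -/
theorem wireA (hS : Sol φ D V T) {i g : ℕ} (hi : i ≤ 6 * V) (h0 : 0 < g) (h : g + 1 < 2 ^ D)
    (hb : beta D (T i) g = 0) (hb' : beta D (T i) (g+1) = 0) : ∃ R : BT, R.size = 3 ∧
    ∀ x < 3, (T i).U (5*g+x) = pc g + R.U x + 1 ∧ (T i).L (5*g+x) = D - pc g + R.L x := by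
  obtain ⟨T', h3, h4⟩ := grp hS (i := i) (by omega) (g := g) (by omega)
  have h1 := root_b hS hi h0 (by omega) hb
  rw [hb, hb'] at h3
  rw [hb] at h4
  have h5 := h4.L 0 (by omega)
  rw [show 5*g+0-1+0 = 5*g-1 by omega] at h5
  cases T' with
  | nil => simp at h3
  | node A B =>
    have h6 := BT.root_of (l := A) (r := B) (a := 0) (by rw [BT.size_node]; omega) (BT.U_zero _) (by omega)
    simp only [BT.size_node] at h3
    refine ⟨B, by omega, fun x hx => ?_⟩
    have h7 := h4.right.U x (by omega)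
    have h8 := h4.right.L x (by omega)
    rw [show 5*g+0-1+A.size+1+x = 5*g+x by omega] at h7 h8
    omega

/-- loads of the wire when the group hosts the left key of its right boundary -/
theorem wireB (hS : Sol φ D V T) {i g : ℕ} (hi : i ≤ 6 * V) (h : g + 1 < 2 ^ D)
    (hb : beta D (T i) g = 1) (hb' : beta D (T i) (g+1) = 1) (hr : rl φ i g = 0) :
    ∃ R : BT, R.size = 3 ∧
    ∀ x < 3, (T i).U (5*g+x) = pc g + R.U x ∧ (T i).L (5*g+x) = D - pc g + R.L x + 1 := by
  obtain ⟨T', h3, h4⟩ := grp hS (i := i) (by omega) (g := g) (by omega)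
  have h1 := cap_a_le hS hi (t := g+1) (by omega) h
  rw [show g + 1 - 1 = g by omega, hr] at h1
  rw [hb, hb'] at h3
  rw [hb] at h4
  have h5 := h4.U 3 (by omega)
  rw [show 5*g+1-1+3 = 5*(g+1)-2 by omega] at h5
  cases T' with
  | nil => simp at h3
  | node A B =>
    have h6 := BT.root_of (l := A) (r := B) (a := 3) (by omega) (by omega)
      (BT.L_last _ _ (by omega))
    simp only [BT.size_node] at h3
    refine ⟨A, by omega, fun x hx => ?_⟩
    have h7 := h4.left.U x (by omega)
    have h8 := h4.left.L x (by omega)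
    rw [show 5*g+1-1+x = 5*g+x by omega] at h7 h8
    omega

theorem cap_S_k {c g x : ℕ} (hx : x < 3) (hc : c % 2 = 1) (hN : c < 6 * (V + D + 1)) :
    cap φ D V c (5*g+x) = 2 * pc g + (if x = 2 then 3 else 2) := by
  simp only [cap, capS, show ¬ c = 0 by omega, show ¬ 6 * (V + D + 1) ≤ c by omega, if_false, hc,
    if_true, show (5*g+x)%5 = x by omega, show (5*g+x)/5 = g by omega]
  split_ifs <;> omega

theorem cap_G_k {c g x : ℕ} (hx : x < 3) (hc0 : c ≠ 0) (hc : c % 2 = 0)
    (hN : c < 6 * (V + D + 1)) :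
    cap φ D V c (5*g+x) = if x = 0 then (if c = 6 * V ∧ IsCl φ g then 2 * (D - pc g) + 1 else
      2 * (D - pc g) + 3) else 2 * (D - pc g) + 2 := by
  simp only [cap, capG, hc0, show ¬ 6 * (V + D + 1) ≤ c by omega, if_false, hc,
    show (5*g+x)%5 = x by omega, show (5*g+x)/5 = g by omega]
  norm_num [hx]

/-- one window without true literal keeps the pressure on the wire -/
theorem window_wire (hS : Sol φ D V T) (hD : 2 ≤ D) {w g : ℕ} (hw : w < V) (h0 : 3 ≤ g)
    (h : g + 3 ≤ 2 ^ D) (hg : g % 2 = 1) (hn : NoLit φ D T w g)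
    (hp : (T (6*w)).L (5*g) ≤ D - pc g + 1) : D - pc g + 2 ≤ (T (6*w+5)).L (5*g) := by
  have hpat := pattern hS hD hw h0 h hg hn
  have hv := val_le (D := D) (T := T) w
  have cS : ∀ i, i % 2 = 0 → i ≤ 4 → ∀ x < 3, (T (6*w+i)).U (5*g+x) +
      (T (6*w+(i+1))).U (5*g+x) ≤ 2 * pc g + (if x = 2 then 3 else 2) := by
    intro i h1 h2 x hx
    have h3 := hS.stepU (6*w+i) (by omega) (by omega) (5*g+x) (by omega)
    rwa [cap_S_k hx (by omega) (by omega)] at h3
  have cG : ∀ i, i % 2 = 1 → i ≤ 3 → ∀ x < 3, (T (6*w+i)).L (5*g+x) +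
      (T (6*w+(i+1))).L (5*g+x) ≤ 2 * (D - pc g) + (if x = 0 then 3 else 2) := by
    intro i h1 h2 x hx
    have h3 := hS.stepL (6*w+i) (by omega) (by omega) (5*g+x) (by omega)
    rw [cap_G_k hx (by omega) (by omega) (by omega)] at h3
    refine h3.trans ?_
    have : ¬ (6*w+i+1 = 6*V ∧ IsCl φ g) := by rintro ⟨h5, -⟩; omega
    simp only [this, if_false]
    split_ifs <;> omega
  -- the trees of the wire
  obtain ⟨R0, s0, r0⟩ := wireA hS (i := 6*w+0) (by omega) (g := g) (by omega) (by omega)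
    ((hpat 0 (by omega)).1.trans (by simp [pv])) ((hpat 0 (by omega)).2.trans (by simp [pv]))
  obtain ⟨R5, s5, r5⟩ := wireA hS (i := 6*w+5) (by omega) (g := g) (by omega) (by omega)
    ((hpat 5 (by omega)).1.trans (by simp [pv])) ((hpat 5 (by omega)).2.trans (by simp [pv]))
  have t0 := three s0
  have t5 := three s5
  have hp0 := (r0 0 (by omega)).2
  have hp5 := (r5 0 (by omega)).2
  simp only [Nat.add_zero] at hp0 hp5
  rw [hp0] at hp
  rw [hp5]
  have S01a : (T (6*w+0)).U (5*g+1) + (T (6*w+1)).U (5*g+1) ≤ 2 * pc g + 2 :=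
    cS 0 rfl (by omega) 1 (by omega)
  have S01b : (T (6*w+0)).U (5*g+2) + (T (6*w+1)).U (5*g+2) ≤ 2 * pc g + 3 :=
    cS 0 rfl (by omega) 2 (by omega)
  have S23a : (T (6*w+2)).U (5*g+1) + (T (6*w+3)).U (5*g+1) ≤ 2 * pc g + 2 :=
    cS 2 rfl (by omega) 1 (by omega)
  have S23b : (T (6*w+2)).U (5*g+2) + (T (6*w+3)).U (5*g+2) ≤ 2 * pc g + 3 :=
    cS 2 rfl (by omega) 2 (by omega)
  have S45a : (T (6*w+4)).U (5*g+1) + (T (6*w+5)).U (5*g+1) ≤ 2 * pc g + 2 :=
    cS 4 rfl (by omega) 1 (by omega)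
  have S45b : (T (6*w+4)).U (5*g+2) + (T (6*w+5)).U (5*g+2) ≤ 2 * pc g + 3 :=
    cS 4 rfl (by omega) 2 (by omega)
  have G12a : (T (6*w+1)).L (5*g+0) + (T (6*w+2)).L (5*g+0) ≤ 2 * (D - pc g) + 3 :=
    cG 1 rfl (by omega) 0 (by omega)
  have G12b : (T (6*w+1)).L (5*g+1) + (T (6*w+2)).L (5*g+1) ≤ 2 * (D - pc g) + 2 :=
    cG 1 rfl (by omega) 1 (by omega)
  have G34a : (T (6*w+3)).L (5*g+0) + (T (6*w+4)).L (5*g+0) ≤ 2 * (D - pc g) + 3 :=
    cG 3 rfl (by omega) 0 (by omega)
  have G34b : (T (6*w+3)).L (5*g+1) + (T (6*w+4)).L (5*g+1) ≤ 2 * (D - pc g) + 2 :=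
    cG 3 rfl (by omega) 1 (by omega)
  rcases Nat.eq_zero_or_pos (val D T w) with hv0 | hv1
  · -- value 0: A A B A B A
    rw [hv0] at hpat
    obtain ⟨R1, s1, r1⟩ := wireA hS (i := 6*w+1) (by omega) (g := g) (by omega) (by omega)
      ((hpat 1 (by omega)).1.trans (by simp [pv])) ((hpat 1 (by omega)).2.trans (by simp [pv]))
    obtain ⟨R2, s2, r2⟩ := wireB hS (i := 6*w+2) (by omega) (g := g) (by omega)
      ((hpat 2 (by omega)).1.trans (by simp [pv])) ((hpat 2 (by omega)).2.trans (by simp [pv]))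
      (by unfold rl; rw [if_neg (by omega), if_neg (by omega)])
    obtain ⟨R3, s3, r3⟩ := wireA hS (i := 6*w+3) (by omega) (g := g) (by omega) (by omega)
      ((hpat 3 (by omega)).1.trans (by simp [pv])) ((hpat 3 (by omega)).2.trans (by simp [pv]))
    obtain ⟨R4, s4, r4⟩ := wireB hS (i := 6*w+4) (by omega) (g := g) (by omega)
      ((hpat 4 (by omega)).1.trans (by simp [pv])) ((hpat 4 (by omega)).2.trans (by simp [pv]))
      (by unfold rl; rw [if_neg (by omega), if_pos (by omega), show (6*w+4)/6 = w by omega]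
          exact hn.2 hv0)
    have t1 := three s1
    have t2 := three s2
    have t3 := three s3
    have t4 := three s4
    have n1 : R1.L 0 = 2 ∧ R1.L 1 = 1 := by
      have a := (r0 1 (by omega)).1; have b := (r0 2 (by omega)).1
      have c := (r1 1 (by omega)).1; have d := (r1 2 (by omega)).1
      clear G12a G12b S23a S23b G34a G34b S45a S45b t2 t3 t4 t5
      omega
    have n2 : R2.U 1 = 1 ∧ R2.U 2 = 2 := by
      have a := (r1 0 (by omega)).2; have b := (r1 1 (by omega)).2
      have c := (r2 0 (by omega)).2; have d := (r2 1 (by omega)).2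
      clear S01a S01b S23a S23b G34a G34b S45a S45b t1 t3 t4 t5 t0
      omega
    have n3 : R3.L 0 = 2 ∧ R3.L 1 = 1 := by
      have a := (r2 1 (by omega)).1; have b := (r2 2 (by omega)).1
      have c := (r3 1 (by omega)).1; have d := (r3 2 (by omega)).1
      clear G12a G12b S01a S01b G34a G34b S45a S45b t2 t0 t4 t5 t1
      omega
    have n4 : R4.U 1 = 1 ∧ R4.U 2 = 2 := by
      have a := (r3 0 (by omega)).2; have b := (r3 1 (by omega)).2
      have c := (r4 0 (by omega)).2; have d := (r4 1 (by omega)).2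
      clear S01a S01b S23a S23b G12a G12b S45a S45b t1 t3 t2 t5 t0
      omega
    have a := (r4 1 (by omega)).1; have b := (r4 2 (by omega)).1
    have c := (r5 1 (by omega)).1; have d := (r5 2 (by omega)).1
    clear G12a G12b S23a S23b G34a G34b S01a S01b t2 t3 t4 t0 t1
    omega
  · -- value 1: A B A B A A
    have hv1 : val D T w = 1 := by omega
    rw [hv1] at hpat
    obtain ⟨R1, s1, r1⟩ := wireB hS (i := 6*w+1) (by omega) (g := g) (by omega)
      ((hpat 1 (by omega)).1.trans (by simp [pv])) ((hpat 1 (by omega)).2.trans (by simp [pv]))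
      (by unfold rl; rw [if_pos (by omega), show (6*w+1)/6 = w by omega]
          exact hn.1 hv1)
    obtain ⟨R2, s2, r2⟩ := wireA hS (i := 6*w+2) (by omega) (g := g) (by omega) (by omega)
      ((hpat 2 (by omega)).1.trans (by simp [pv])) ((hpat 2 (by omega)).2.trans (by simp [pv]))
    obtain ⟨R3, s3, r3⟩ := wireB hS (i := 6*w+3) (by omega) (g := g) (by omega)
      ((hpat 3 (by omega)).1.trans (by simp [pv])) ((hpat 3 (by omega)).2.trans (by simp [pv]))
      (by unfold rl; rw [if_neg (by omega), if_neg (by omega)])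
    obtain ⟨R4, s4, r4⟩ := wireA hS (i := 6*w+4) (by omega) (g := g) (by omega) (by omega)
      ((hpat 4 (by omega)).1.trans (by simp [pv])) ((hpat 4 (by omega)).2.trans (by simp [pv]))
    have t1 := three s1
    have t2 := three s2
    have t3 := three s3
    have t4 := three s4
    have n1 : R1.U 2 ≤ 1 := by
      have a := (r0 1 (by omega)).1; have b := (r0 2 (by omega)).1
      have c := (r1 1 (by omega)).1; have d := (r1 2 (by omega)).1
      clear G12a G12b S23a S23b G34a G34b S45a S45b t2 t3 t4 t5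
      omega
    have n2 : R2.L 0 ≤ 1 := by
      have a := (r1 0 (by omega)).2; have b := (r1 1 (by omega)).2
      have c := (r2 0 (by omega)).2; have d := (r2 1 (by omega)).2
      clear S01a S01b S23a S23b G34a G34b S45a S45b t3 t4 t5 t0
      omega
    have n3 : R3.U 2 ≤ 1 := by
      have a := (r2 1 (by omega)).1; have b := (r2 2 (by omega)).1
      have c := (r3 1 (by omega)).1; have d := (r3 2 (by omega)).1
      clear G12a G12b S01a S01b G34a G34b S45a S45b t0 t4 t5 t1
      omega
    have n4 : R4.L 0 ≤ 1 := by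
      have a := (r3 0 (by omega)).2; have b := (r3 1 (by omega)).2
      have c := (r4 0 (by omega)).2; have d := (r4 1 (by omega)).2
      clear S01a S01b S23a S23b G12a G12b S45a S45b t1 t2 t5 t0
      omega
    have a := (r4 1 (by omega)).1; have b := (r4 2 (by omega)).1
    have c := (r5 1 (by omega)).1; have d := (r5 2 (by omega)).1
    clear G12a G12b S23a S23b G34a G34b S01a S01b t2 t3 t0 t1
    omega

/-- every clause has a true literal -/
theorem exists_lit (hS : Sol φ D V T) (hF : Fit φ D V) {n : ℕ} (hn : n < φ.length) :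
    ∃ w < V, ¬ NoLit φ D T w (2*n+3) := by
  by_contra hcon
  push Not at hcon
  have hC := hF.clauses
  have hV := hF.pos
  have key : ∀ w < V, (T (6*w)).L (5*(2*n+3)) ≤ D - pc (2*n+3) + 1 ∧
      D - pc (2*n+3) + 2 ≤ (T (6*w+5)).L (5*(2*n+3)) := by
    intro w
    induction w with
    | zero =>
      intro hw
      have h1 : (T (6*0)).L (5*(2*n+3)) ≤ D - pc (2*n+3) + 1 := by
        have h2 := hS.start (5*(2*n+3)) (by omega)
        simp only [cap, if_true, show (5*(2*n+3))%5 = 0 by omega,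
          show (5*(2*n+3))/5 = 2*n+3 by omega, show (0:ℕ) < 3 by norm_num] at h2
        simpa using h2
      exact ⟨h1, window_wire hS hF.two hw (by omega) (by omega) (by omega) (hcon 0 hw) h1⟩
    | succ w ih =>
      intro hw
      have h2 := (ih (by omega)).2
      have h3 := hS.stepL (6*w+5) (by omega) (by omega) (5*(2*n+3)+0) (by omega)
      rw [cap_G_k (by omega) (by omega) (by omega) (by omega), if_pos rfl, if_neg (by
        rintro ⟨h5, -⟩; omega)] at h3
      have h1 : (T (6*(w+1))).L (5*(2*n+3)) ≤ D - pc (2*n+3) + 1 := by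
        rw [show 6*w+5+1 = 6*(w+1) by ring] at h3
        simp only [Nat.add_zero] at h3
        omega
      exact ⟨h1, window_wire hS hF.two hw (by omega) (by omega) (by omega) (hcon (w+1) hw) h1⟩
  obtain ⟨w, rfl⟩ : ∃ w, V = w + 1 := ⟨V - 1, by omega⟩
  have h2 := (key w (by omega)).2
  have h3 := hS.stepL (6*w+5) (by omega) (by omega) (5*(2*n+3)+0) (by omega)
  rw [cap_G_k (by omega) (by omega) (by omega) (by omega), if_pos rfl, if_pos (by
    refine ⟨by omega, by omega, by omega, ?_⟩
    rw [show (2*n+3-3)/2 = n by omega]; exact hn)] at h3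
  obtain ⟨T', h4, h5⟩ := grp hS (i := 6*w+5+1) (by omega) (g := 2*n+3) (by omega)
  have h6 := beta_ends hS (i := 6*w+5+1) (t := 2*n+3) (by omega) (by omega) (by omega) (by omega)
  rw [h6] at h4 h5
  have h7 := h5.L 1 (by omega)
  rw [show 5*(2*n+3)+0-1+1 = 5*(2*n+3) by omega] at h7
  simp only [Nat.add_zero] at h3
  omega

/-- **soundness** -/
theorem sound (hF : Fit φ D V)
    (h : ∃ T, ChainPre (6 * (V + D + 1)) (5 * 2 ^ D - 2) (cap φ D V) T) : CookLevin.Sat φ := by
  obtain ⟨T, hT⟩ := h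
  have hS := Sol.of_pre hT
  refine ⟨fun w => decide (val D T w = 1), fun cl hcl => ?_⟩
  obtain ⟨n, hn, rfl⟩ := List.getElem_of_mem hcl
  obtain ⟨w, hw, hlit⟩ := exists_lit hS hF hn
  have hv := val_le (D := D) (T := T) w
  have hrel : ∀ s, rel φ w (2*n+3) s ≠ 0 → (w, s) ∈ φ[n] := by
    intro s hs
    unfold rel at hs
    rw [show (2*n+3-3)/2 = n by omega] at hs
    split_ifs at hs with h1
    · have := h1.2.2
      rwa [List.getD_eq_getElem _ _ hn] at this
    · exact absurd rfl hs
  unfold NoLit at hlit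
  rcases Nat.eq_zero_or_pos (val D T w) with hv0 | hv1
  · refine ⟨(w, false), hrel false fun h0 => hlit ⟨fun h => by omega, fun _ => h0⟩, ?_⟩
    simp [hv0]
  · have hv1 : val D T w = 1 := by omega
    refine ⟨(w, true), hrel true fun h0 => hlit ⟨fun _ => h0, fun h => by omega⟩, ?_⟩
    simp [hv1]

end Chain

end Pool.Agent.Lib.MP_7d5495_lc
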