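import Pool.Agent.Lib.MP_7d5495_lc.Tree
import Pool.Agent.Lib.CookLevin.Cnf

/-!
# The chain instance of a formula: the table of capacities

`D` levels, `M = 2 ^ D - 1` boundaries; the boundary `t` consists of the two keys `5t-2`, `5t-1`;
the group `g` (between the boundaries `g` and `g+1`) consists of the three keys `5g, 5g+1, 5g+2`.
The window `w` (six trees `6w, …, 6w+5`) belongs to the variable `w`; `D + 1` further windows
follow.  The group `2i+3` belongs to the clause number `i`.
-/

namespace Pool.Agent.Lib.MP_7d5495_lc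

namespace Chain

open CookLevin (Cnf)

/-- number of ones in binary -/
def pc (n : ℕ) : ℕ := (Nat.digits 2 n).sum

/-- `1` if `g` is the group of a clause that contains the literal `(w, s)` -/
def rel (φ : Cnf) (w g : ℕ) (s : Bool) : ℕ :=
  if g % 2 = 1 ∧ 3 ≤ g ∧ (w, s) ∈ φ.getD ((g - 3) / 2) [] then 1 else 0

/-- group of a clause -/
def IsCl (φ : Cnf) (g : ℕ) : Prop := g % 2 = 1 ∧ 3 ≤ g ∧ (g - 3) / 2 < φ.length

instance (φ : Cnf) (g : ℕ) : Decidable (IsCl φ g) := by unfold IsCl; infer_instance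

/-- capacities in the odd corridors -/
def capS (φ : Cnf) (c g r : ℕ) : ℕ :=
  if r < 2 then 2 * pc g + 2
  else if r = 2 then 2 * pc g + 3
  else if r = 3 then (pc (g+1) - 1) + pc g +
    (if c % 6 = 1 then rel φ (c / 6) g true else if c % 6 = 5 then rel φ (c / 6) g false else 0)
  else 2 * pc (g+1) - (if c % 6 = 3 then 1 else 0)

/-- capacities in the even corridors -/
def capG (φ : Cnf) (D V c g r : ℕ) : ℕ :=
  if r = 0 then (if c = 6 * V ∧ IsCl φ g then 2 * (D - pc g) + 1 else 2 * (D - pc g) + 3)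
  else if r < 3 then 2 * (D - pc g) + 2
  else if r = 3 then 2 * (D - pc g) - (if c % 6 = 0 then 2 else 1)
  else if c % 6 = 0 then 2 * (D - pc (g+1)) else (D - pc g - 1) + (D - pc (g+1))

/-- the capacities: corridor `c`, key `j` -/
def cap (φ : Cnf) (D V : ℕ) (c j : ℕ) : ℕ :=
  if c = 0 then
    (if j % 5 < 3 then D - pc (j/5) + 1 else if j % 5 = 3 then D - pc (j/5) - 1
      else D - pc (j/5+1))
  else if 6 * (V + D + 1) ≤ c then 2 * D + 3
  else if c % 2 = 1 then capS φ c (j/5) (j%5)
  else capG φ D V c (j/5) (j%5)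

/-- parameters that fit the formula -/
structure Fit (φ : Cnf) (D V : ℕ) : Prop where
  var : ∀ cl ∈ φ, ∀ l ∈ cl, l.1 < V
  clauses : 2 * φ.length + 4 ≤ 2 ^ D
  pos : 0 < V
  two : 2 ≤ D

end Chain

end Pool.Agent.Lib.MP_7d5495_lc
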