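import Pool.Agent.Lib.MP_7d5495_lc.Tiles

/-!
# Every cell lies in one of the frames: definition (verbatim from the stubs file)
-/

namespace Pool.Agent.Lib.MP_7d5495_lc

/-- every cell lies in one of the frames -/
def Homes (P : Par) (cell : ℕ → ℤ → ℤ → Prop) : Prop :=
  ∀ a b, cell 0 a b → ∃ s < P.N, ∃ a' b', P.InE s a' b' ∧ cell s a' b' ∧
    P.conv s (a', b') = (a, b)

end Pool.Agent.Lib.MP_7d5495_lc
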