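import Pool.Agent.Lib.MP_7d5495_lc.Tiles
import Pool.Agent.Lib.MP_7d5495_lc.HomesDef

/-!
# The spiral: the frames are disjoint
-/

set_option autoImplicit false

namespace Pool.Agent.Lib.MP_7d5495_lc

namespace Conv

variable {P : Par}

theorem conv_injective (t : ℕ) {p q : ℤ × ℤ} (h : P.conv t p = P.conv t q) : p = q := by
  induction t generalizing p q with
  | zero => exact h
  | succ t ih =>
    obtain ⟨a, b⟩ := p
    obtain ⟨c, d⟩ := q
    have h1 := ih h
    simp only [Prod.mk.injEq] at h1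
    exact Prod.ext (by simp only []; omega) (by simp only []; omega)

theorem conv_surjective (t : ℕ) (q : ℤ × ℤ) : ∃ p, P.conv t p = q := by
  induction t generalizing q with
  | zero => exact ⟨q, rfl⟩
  | succ t ih =>
    obtain ⟨⟨a, b⟩, h⟩ := ih q
    refine ⟨(-(P.lam (t + 1) : ℤ) - b - 1, a), ?_⟩
    show P.conv t (a, -(P.lam (t + 1) : ℤ) - (-(P.lam (t + 1) : ℤ) - b - 1) - 1) = q
    rw [← h]
    congr 2
    ring

/-- coordinates in the frame `s + n` of the cell `p` of the frame `s` -/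
def fwd (P : Par) (s : ℕ) : ℕ → ℤ × ℤ → ℤ × ℤ
  | 0, p => p
  | n + 1, p => (-(P.lam (s + n + 1) : ℤ) - (fwd P s n p).2 - 1, (fwd P s n p).1)

theorem conv_fwd (s n : ℕ) (p : ℤ × ℤ) : P.conv (s + n) (fwd P s n p) = P.conv s p := by
  induction n with
  | zero => rfl
  | succ n ih =>
    rw [← ih]
    show P.conv (s + n) ((fwd P s n p).1, -(P.lam (s + n + 1) : ℤ) -
      (-(P.lam (s + n + 1) : ℤ) - (fwd P s n p).2 - 1) - 1) = _
    congr 1
    exact Prod.ext rfl (by simp only []; ring)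

theorem eq_fwd {s n : ℕ} {p q : ℤ × ℤ} (h : P.conv s p = P.conv (s + n) q) :
    q = fwd P s n p := by
  rw [← conv_fwd s n p] at h
  exact (conv_injective _ h).symm

theorem fwd_bounds (s n : ℕ) {a b : ℤ} (h : P.InE s a b) :
    -(P.lam (s + n + 1) : ℤ) - P.Δ ≤ (fwd P s (n + 1) (a, b)).1 ∧
    (fwd P s (n + 1) (a, b)).1 < 0 ∧
    -(P.lam (s + n) : ℤ) - P.Δ ≤ (fwd P s (n + 1) (a, b)).2 ∧
    (fwd P s (n + 1) (a, b)).2 < P.Δ ∧
    (n = 0 → (fwd P s (n + 1) (a, b)).1 < -(P.lam (s + n + 1) : ℤ)) ∧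
    (1 ≤ n → (fwd P s (n + 1) (a, b)).2 < 0) := by
  induction n with
  | zero =>
    obtain ⟨h1, h2, h3, h4⟩ := h
    have e := P.lam_succ s
    have e0 : (0 : ℤ) ≤ P.lam s := by positivity
    simp only [fwd, Nat.add_zero]
    refine ⟨by omega, by omega, by omega, by omega, fun _ => by omega, fun h => by omega⟩
  | succ n ih =>
    obtain ⟨h1, h2, h3, h4, h5, h6⟩ := ih
    have e := P.lam_succ (s + n)
    have e2 := P.lam_succ (s + n + 1)
    have e0 : (0 : ℤ) ≤ P.lam (s + n) := by positivity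
    have hΔ : (0 : ℤ) ≤ P.Δ := by positivity
    have a1 : (fwd P s (n + 1 + 1) (a, b)).1 =
        -(P.lam (s + n + 1 + 1) : ℤ) - (fwd P s (n + 1) (a, b)).2 - 1 := rfl
    have a2 : (fwd P s (n + 1 + 1) (a, b)).2 = (fwd P s (n + 1) (a, b)).1 := rfl
    rw [a1, a2]
    have e3 : s + (n + 1) = s + n + 1 := rfl
    rw [e3]
    refine ⟨by omega, by omega, by omega, by omega, fun h => by omega, fun _ => by omega⟩

end Conv

open Conv

/-- **A3.** The earlier frames lie to the left of and below the frame `t`. -/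
theorem conv_before {P : Par} {s t : ℕ} (hst : s < t) {a b a' b' : ℤ} (h : P.InE s a b)
    (e : P.conv s (a, b) = P.conv t (a', b')) :
    a' < 0 ∧ (s + 1 < t → b' < 0) ∧ (s + 1 = t → a' < -(P.lam t : ℤ)) := by
  obtain ⟨n, rfl⟩ := Nat.exists_eq_add_of_lt hst
  have e' : P.conv s (a, b) = P.conv (s + (n + 1)) (a', b') := e
  have h1 := eq_fwd e'
  obtain ⟨h2, h3, h4, h5, h6, h7⟩ := fwd_bounds (P := P) s n h
  rw [← h1] at h2 h3 h4 h5 h6 h7
  exact ⟨h3, fun h => h7 (by omega), fun h => h6 (by omega)⟩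

/-- **A1. The frames are disjoint.** -/
theorem conv_inj {P : Par} (hm : 1 ≤ P.m) {s t : ℕ} {a b a' b' : ℤ} (h : P.InE s a b)
    (h' : P.InE t a' b') (e : P.conv s (a, b) = P.conv t (a', b')) :
    s = t ∧ a = a' ∧ b = b' := by
  rcases lt_trichotomy s t with hst | rfl | hst
  · exfalso
    obtain ⟨h1, h2, h3⟩ := conv_before hst h e
    obtain ⟨g1, g2, g3, g4⟩ := h'
    rcases Nat.lt_or_ge (s + 1) t with h4 | h4
    · have := h2 h4; omega
    · have := h3 (by omega); omega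
  · have := conv_injective _ e
    simp only [Prod.mk.injEq] at this
    exact ⟨rfl, this⟩
  · exfalso
    obtain ⟨h1, h2, h3⟩ := conv_before hst h' e.symm
    obtain ⟨g1, g2, g3, g4⟩ := h
    rcases Nat.lt_or_ge (t + 1) s with h4 | h4
    · have := h2 h4; omega
    · have := h3 (by omega); omega

/-- **A2.** Nothing behind the last frame, nothing in front of the first frame. -/
theorem conv_stop {P : Par} {s t : ℕ} (hst : s ≤ t) {a b a' : ℤ} (h : P.InE s a b)
    (h' : 0 ≤ a') : P.conv s (a, b) ≠ P.conv t (a', -1) := by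
  intro e
  rcases Nat.eq_or_lt_of_le hst with rfl | hst
  · have := conv_injective _ e
    simp only [Prod.mk.injEq] at this
    obtain ⟨g1, g2, g3, g4⟩ := h
    omega
  · obtain ⟨h1, h2, h3⟩ := conv_before hst h e
    omega

theorem Conv.fwd_start {P : Par} (n : ℕ) {b' : ℤ} (h1 : 0 ≤ b') (h2 : b' < P.Δ) :
    -(P.lam (n + 1) : ℤ) - P.Δ ≤ (fwd P 0 (n + 1) (-1, b')).1 ∧
    (fwd P 0 (n + 1) (-1, b')).1 < 0 ∧
    -(P.lam (n + 1) : ℤ) ≤ (fwd P 0 (n + 1) (-1, b')).2 ∧
    (fwd P 0 (n + 1) (-1, b')).2 < 0 := by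
  induction n with
  | zero =>
    have e := P.lam_succ 0
    have e0 := P.lam_zero
    simp only [fwd, Nat.zero_add]
    rw [e0] at e
    simp only [Nat.zero_add] at e
    refine ⟨by omega, by omega, by omega, by omega⟩
  | succ n ih =>
    obtain ⟨g1, g2, g3, g4⟩ := ih
    have e := P.lam_succ n
    have e2 := P.lam_succ (n + 1)
    have a1 : (fwd P 0 (n + 1 + 1) (-1, b')).1 =
        -(P.lam (0 + (n + 1) + 1) : ℤ) - (fwd P 0 (n + 1) (-1, b')).2 - 1 := rfl
    have a2 : (fwd P 0 (n + 1 + 1) (-1, b')).2 = (fwd P 0 (n + 1) (-1, b')).1 := rfl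
    rw [a1, a2]
    have e3 : 0 + (n + 1) + 1 = n + 1 + 1 := by omega
    rw [e3]
    have e0 : (0 : ℤ) ≤ P.lam n := by positivity
    refine ⟨by omega, by omega, by omega, by omega⟩

theorem conv_start {P : Par} {s : ℕ} {a b b' : ℤ} (h : P.InE s a b) (h1 : 0 ≤ b')
    (h2 : b' < P.Δ) : P.conv s (a, b) ≠ (-1, b') := by
  intro e
  obtain ⟨g1, g2, g3, g4⟩ := h
  rcases s with _ | n
  · have e' : (a, b) = (-1, b') := e
    simp only [Prod.mk.injEq] at e'
    have := P.lam_zero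
    rw [this] at g1
    simp at g1
    omega
  · have e' : P.conv 0 (-1, b') = P.conv (0 + (n + 1)) (a, b) := by
      rw [Nat.zero_add]; exact e.symm
    have h3 := eq_fwd e'
    obtain ⟨k1, k2, k3, k4⟩ := Conv.fwd_start n h1 h2
    rw [← h3] at k1 k2 k3 k4
    simp only [] at k4
    omega

theorem toZero_has {P : Par} {t : ℕ} {R : ZR} {a b : ℤ} :
    (P.toZero t R).Has (P.conv t (a, b)).1 (P.conv t (a, b)).2 ↔ R.Has a b := by
  induction t generalizing R a b with
  | zero => rfl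
  | succ t ih =>
    show (P.toZero t (R.unrot (P.lam (t + 1)))).Has
      (P.conv t (b, -(P.lam (t + 1) : ℤ) - a - 1)).1
      (P.conv t (b, -(P.lam (t + 1) : ℤ) - a - 1)).2 ↔ _
    rw [ih]
    unfold ZR.Has ZR.unrot
    simp only []
    constructor
    · rintro ⟨h1, h2, h3, h4⟩; exact ⟨by omega, by omega, by omega, by omega⟩
    · rintro ⟨h1, h2, h3, h4⟩; exact ⟨by omega, by omega, by omega, by omega⟩

end Pool.Agent.Lib.MP_7d5495_lc
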