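import Mathlib
import Pool.Prelude.Def_H_3587d628

/-!
# Stabbing number of rectilinear polygons: definitions

Everything is stated as in the problem: closed rectangles with disjoint interiors, open
axis-parallel segments contained in the interior of the polygon, simple rectilinear polygons
given by the cyclic list of their vertices with rational coordinates.
-/

namespace Pool.Agent.Lib.MP_7d5495_lc

open Set

/-- An axis-parallel rectangle `[x₁, x₂] × [y₁, y₂]` with nonempty interior. -/
structure Rect where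
  x₁ : ℝ
  x₂ : ℝ
  y₁ : ℝ
  y₂ : ℝ
  hx : x₁ < x₂
  hy : y₁ < y₂

/-- The closed rectangle as a set of points of the plane. -/
def Rect.carrier (R : Rect) : Set (ℝ × ℝ) := Icc R.x₁ R.x₂ ×ˢ Icc R.y₁ R.y₂

/-- `𝒯` is a rectangular partition of `P`: finitely many closed axis-parallel rectangles with
pairwise disjoint interiors whose union is `P`. -/
structure IsPartition (P : Set (ℝ × ℝ)) (𝒯 : Finset Rect) : Prop where
  disj : ∀ R ∈ 𝒯, ∀ R' ∈ 𝒯, R ≠ R' → Disjoint (interior R.carrier) (interior R'.carrier)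
  union : ⋃ R ∈ 𝒯, R.carrier = P

/-- `s` is a stabbing segment of `P`: an open axis-parallel segment contained in the interior
of `P`. -/
def IsStabbing (P s : Set (ℝ × ℝ)) : Prop :=
  s ⊆ interior P ∧ ∃ a b c : ℝ, a < b ∧ (s = Ioo a b ×ˢ {c} ∨ s = {c} ×ˢ Ioo a b)

open scoped Classical in
/-- The number of rectangles of `𝒯` that `s` meets. -/
noncomputable def meets (𝒯 : Finset Rect) (s : Set (ℝ × ℝ)) : ℕ :=
  {R ∈ 𝒯 | (R.carrier ∩ s).Nonempty}.card

/-- The stabbing number of the partition `𝒯` of `P`: the maximum, over all stabbing segments, of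
the number of rectangles that the segment meets. -/
noncomputable def stabOf (P : Set (ℝ × ℝ)) (𝒯 : Finset Rect) : ℕ :=
  sSup {n | ∃ s, IsStabbing P s ∧ n = meets 𝒯 s}

/-- The (minimum) stabbing number of `P`. -/
noncomputable def stab (P : Set (ℝ × ℝ)) : ℕ :=
  sInf {n | ∃ 𝒯, IsPartition P 𝒯 ∧ n = stabOf P 𝒯}

/-- a rational point as a point of the plane -/
def toR (p : ℚ × ℚ) : ℝ × ℝ := ((p.1 : ℝ), (p.2 : ℝ))

/-- The `i`-th vertex of a cyclic list of vertices. -/
def vtx (vs : List (ℚ × ℚ)) (i : ℕ) : ℚ × ℚ := vs.getD (i % vs.length) (0, 0)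

/-- The `i`-th edge of a cyclic list of vertices. -/
def edge (vs : List (ℚ × ℚ)) (i : ℕ) : Set (ℝ × ℝ) :=
  segment ℝ (toR (vtx vs i)) (toR (vtx vs (i + 1)))

/-- the segment from `p` to `q` is horizontal and not a point -/
def Horiz (p q : ℚ × ℚ) : Prop := p.2 = q.2 ∧ p.1 ≠ q.1

/-- the segment from `p` to `q` is vertical and not a point -/
def Verti (p q : ℚ × ℚ) : Prop := p.1 = q.1 ∧ p.2 ≠ q.2

/-- The cyclic list `vs` is the list of the vertices of a simple rectilinear polygon: the edges
are alternately horizontal and vertical, two edges that are not consecutive are disjoint, and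
two consecutive edges meet only in their common vertex. -/
structure IsSimpleRectilinear (vs : List (ℚ × ℚ)) : Prop where
  len : 4 ≤ vs.length
  alt : ∀ i, (Horiz (vtx vs i) (vtx vs (i + 1)) ∧ Verti (vtx vs (i + 1)) (vtx vs (i + 2))) ∨
    (Verti (vtx vs i) (vtx vs (i + 1)) ∧ Horiz (vtx vs (i + 1)) (vtx vs (i + 2)))
  far : ∀ i j, i < j → j < vs.length → j ≠ i + 1 → ¬(i = 0 ∧ j + 1 = vs.length) →
    Disjoint (edge vs i) (edge vs j)
  near : ∀ i, edge vs i ∩ edge vs (i + 1) = {toR (vtx vs (i + 1))}

/-- The number of horizontal edges that the vertical ray from `p` upwards crosses (an edge from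
`(a, c)` to `(b, c)` is crossed if `min a b ≤ p.1 < max a b` and `p.2 < c`). -/
noncomputable def crossings (vs : List (ℚ × ℚ)) (p : ℝ × ℝ) : ℕ :=
  Nat.card {i : Fin vs.length // (vtx vs i).2 = (vtx vs (i + 1)).2 ∧
    min ((vtx vs i).1 : ℝ) (vtx vs (i + 1)).1 ≤ p.1 ∧
    p.1 < max ((vtx vs i).1 : ℝ) (vtx vs (i + 1)).1 ∧ p.2 < (vtx vs i).2}

/-- The closed region bounded by the polygon with the vertices `vs` (even-odd rule). -/
noncomputable def region (vs : List (ℚ × ℚ)) : Set (ℝ × ℝ) :=
  closure {p | Odd (crossings vs p)}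

/-- The decision problem: given a simple rectilinear polygon and an integer `k`, is the stabbing
number at most `k`? It is **NP-hard**: every problem in NP reduces to it by a polynomial-time
many-one reduction. -/
def MinStabNPHard : Prop :=
  ∀ L ∈ N68a2faeb.NP, ∃ f : List Bool → List (ℚ × ℚ) × ℕ, N68a2faeb.IsPolyTime f ∧
    ∀ x, IsSimpleRectilinear (f x).1 ∧ (L x = true ↔ stab (region (f x).1) ≤ (f x).2)

end Pool.Agent.Lib.MP_7d5495_lc
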