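import Pool.Agent.Lib.MP_7d5495_lc.Interior

/-!
# From a partition to a system of rotated families (piece L10)
-/

set_option autoImplicit false

namespace Pool.Agent.Lib.MP_7d5495_lc

open Set

namespace ExistsSys

/-- rotation of a family -/
def rotFam {ι : Type} (c : ℝ) (F : Fam ι) : Fam ι where
  x₁ i := -c - F.y₂ i
  x₂ i := -c - F.y₁ i
  y₁ := F.x₁
  y₂ := F.x₂
  hx i := by have := F.hy i; linarith
  hy := F.hx
  disj i j h := by
    rcases F.disj i j h with h | h | h | h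
    · right; right; left; exact h
    · right; right; right; exact h
    · right; left; linarith
    · left; linarith

theorem rotFam_H {ι : Type} (c : ℝ) (F : Fam ι) (α β η : ℝ) :
    (rotFam c F).H α β η = F.V (-c - β) (-c - α) η := by
  ext i
  simp only [Fam.H, Fam.V, rotFam, Set.mem_ofPred_eq]
  constructor
  · rintro ⟨h1, h2, h3, h4⟩; exact ⟨h1, h2, by linarith, by linarith⟩
  · rintro ⟨h1, h2, h3, h4⟩; exact ⟨h1, h2, by linarith, by linarith⟩

theorem rotFam_V {ι : Type} (c : ℝ) (F : Fam ι) (α β ξ : ℝ) :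
    (rotFam c F).V α β ξ = F.H α β (-c - ξ) := by
  ext i
  simp only [Fam.H, Fam.V, rotFam, Set.mem_ofPred_eq]
  constructor
  · rintro ⟨h1, h2, h3, h4⟩; exact ⟨by linarith, by linarith, h3, h4⟩
  · rintro ⟨h1, h2, h3, h4⟩; exact ⟨by linarith, by linarith, h3, h4⟩

theorem rot_mesh {ι : Type} {F : Fam ι} {C C' : ℤ → ℤ → Prop} {k : ℕ} (h : Mesh F C k) (c : ℕ)
    (hC : ∀ a b, C' a b ↔ C b (-(c : ℤ) - a - 1)) : Mesh (rotFam (c : ℝ) F) C' k where
  sub i a b h1 h2 h3 h4 := by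
    simp only [rotFam] at h1 h2 h3 h4
    rw [hC]
    refine h.sub i _ _ h3 h4 ?_ ?_ <;> push_cast <;> linarith
  cover a b hc x y h1 h2 h3 h4 := by
    rw [hC] at hc
    obtain ⟨i, p1, p2, p3, p4⟩ := h.cover _ _ hc y (-(c : ℝ) - x) h3 h4
      (by push_cast; linarith) (by push_cast; linarith)
    exact ⟨i, by simp only [rotFam]; linarith, by simp only [rotFam]; linarith, p1, p2⟩
  hor α β η hab hc := by
    rw [rotFam_H]
    refine h.ver _ _ _ (by linarith) fun a b h1 h2 h3 h4 => ?_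
    have := hc (-(c : ℤ) - b - 1) a (by push_cast; linarith) (by push_cast; linarith) h1 h2
    rw [hC] at this
    have e : -(c : ℤ) - (-(c : ℤ) - b - 1) - 1 = b := by ring
    rwa [e] at this
  ver α β ξ hab hc := by
    rw [rotFam_V]
    refine h.hor _ _ _ hab fun a b h1 h2 h3 h4 => ?_
    have := hc (-(c : ℤ) - b - 1) a (by push_cast; linarith) (by push_cast; linarith) h1 h2
    rw [hC] at this
    have e : -(c : ℤ) - (-(c : ℤ) - b - 1) - 1 = b := by ring
    rwa [e] at this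

theorem interior_carrier (R : Rect) :
    interior R.carrier = Ioo R.x₁ R.x₂ ×ˢ Ioo R.y₁ R.y₂ := by
  unfold Rect.carrier
  rw [interior_prod_eq, interior_Icc, interior_Icc]

theorem disj_rect {R R' : Rect} (h : Disjoint (interior R.carrier) (interior R'.carrier)) :
    R.x₂ ≤ R'.x₁ ∨ R'.x₂ ≤ R.x₁ ∨ R.y₂ ≤ R'.y₁ ∨ R'.y₂ ≤ R.y₁ := by
  by_contra hc
  push Not at hc
  obtain ⟨h1, h2, h3, h4⟩ := hc
  have hx := R.hx
  have hx' := R'.hx
  have hy := R.hy
  have hy' := R'.hy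
  obtain ⟨x, hx1, hx2⟩ := exists_between (show max R.x₁ R'.x₁ < min R.x₂ R'.x₂ from
    max_lt (lt_min hx h2) (lt_min h1 hx'))
  obtain ⟨y, hy1, hy2⟩ := exists_between (show max R.y₁ R'.y₁ < min R.y₂ R'.y₂ from
    max_lt (lt_min hy h4) (lt_min h3 hy'))
  rw [max_lt_iff] at hx1 hy1
  rw [lt_min_iff] at hx2 hy2
  rw [interior_carrier, interior_carrier, Set.disjoint_left] at h
  exact h (a := (x, y)) ⟨⟨hx1.1, hx2.1⟩, ⟨hy1.1, hy2.1⟩⟩ ⟨⟨hx1.2, hx2.2⟩, ⟨hy1.2, hy2.2⟩⟩

/-- the family of the frame 0 -/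
def fam0 {S : Set (ℝ × ℝ)} (O : ℤ) {𝒯 : Finset Rect} (h𝒯 : IsPartition S 𝒯) :
    Fam {R // R ∈ 𝒯} where
  x₁ R := R.1.x₁ - O
  x₂ R := R.1.x₂ - O
  y₁ R := R.1.y₁ - O
  y₂ R := R.1.y₂ - O
  hx R := by have := R.1.hx; linarith
  hy R := by have := R.1.hy; linarith
  disj R R' h := by
    have h1 := disj_rect (h𝒯.disj R.1 R.2 R'.1 R'.2 fun h' => h (Subtype.ext h'))
    rcases h1 with h1 | h1 | h1 | h1
    · left; linarith
    · right; left; linarith
    · right; right; left; linarith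
    · right; right; right; linarith

theorem ncard_le_meets {𝒯 : Finset Rect} {s : Set (ℝ × ℝ)} (A : Set {R // R ∈ 𝒯})
    (h : ∀ R ∈ A, (R.1.carrier ∩ s).Nonempty) : A.ncard ≤ meets 𝒯 s := by
  classical
  unfold meets
  rw [← Set.ncard_image_of_injective A Subtype.val_injective, ← Set.ncard_coe_finset]
  refine Set.ncard_le_ncard ?_ (Finset.finite_toSet _)
  rintro R ⟨R', hR', rfl⟩
  rw [Finset.mem_coe, Finset.mem_filter]
  exact ⟨R'.2, h R' hR'⟩

theorem exists_common {p q α β : ℝ} (h : p < q) (hab : α < β) (h1 : p < β) (h2 : α < q) :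
    ∃ x, p ≤ x ∧ x ≤ q ∧ α < x ∧ x < β := by
  obtain ⟨x, hx1, hx2⟩ := exists_between (show max p α < min q β from
    max_lt (lt_min h h1) (lt_min h2 hab))
  rw [max_lt_iff] at hx1
  rw [lt_min_iff] at hx2
  exact ⟨x, hx1.1.le, hx2.1.le, hx1.2, hx2.2⟩

theorem mesh0 {C : ℤ → ℤ → Prop} {k : ℕ} (O : ℤ) (𝒯 : Finset Rect)
    (h𝒯 : IsPartition (cells O C) 𝒯)
    (hk : ∀ s, IsStabbing (cells O C) s → meets 𝒯 s ≤ k) : Mesh (fam0 O h𝒯) C k where
  sub R a b h1 h2 h3 h4 := by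
    simp only [fam0] at h1 h2 h3 h4
    obtain ⟨x, hx1, hx2, hx3, hx4⟩ := exists_common (α := (O + a : ℝ)) (β := O + a + 1) R.1.hx
      (by linarith) (by linarith) (by linarith)
    obtain ⟨y, hy1, hy2, hy3, hy4⟩ := exists_common (α := (O + b : ℝ)) (β := O + b + 1) R.1.hy
      (by linarith) (by linarith) (by linarith)
    have hmem : (x, y) ∈ cells O C := by
      rw [← h𝒯.union]
      exact Set.mem_biUnion R.2 ⟨⟨hx1, hx2⟩, ⟨hy1, hy2⟩⟩
    obtain ⟨a', b', hC, q1, q2, q3, q4⟩ := hmem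
    simp only at q1 q2 q3 q4
    have ea : a' = a := by
      have h5 : (a' : ℝ) < a + 1 := by linarith
      have h6 : (a : ℝ) < a' + 1 := by linarith
      have h5' : a' < a + 1 := by exact_mod_cast h5
      have h6' : a < a' + 1 := by exact_mod_cast h6
      omega
    have eb : b' = b := by
      have h5 : (b' : ℝ) < b + 1 := by linarith
      have h6 : (b : ℝ) < b' + 1 := by linarith
      have h5' : b' < b + 1 := by exact_mod_cast h5
      have h6' : b < b' + 1 := by exact_mod_cast h6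
      omega
    rwa [ea, eb] at hC
  cover a b hc x y h1 h2 h3 h4 := by
    have hmem : ((O : ℝ) + x, (O : ℝ) + y) ∈ cells O C :=
      ⟨a, b, hc, by simp only; linarith, by simp only; linarith, by simp only; linarith,
        by simp only; linarith⟩
    rw [← h𝒯.union, Set.mem_iUnion₂] at hmem
    obtain ⟨R, hR, ⟨p1, p2⟩, ⟨p3, p4⟩⟩ := hmem
    simp only at p1 p2 p3 p4
    exact ⟨⟨R, hR⟩, by simp only [fam0]; linarith, by simp only [fam0]; linarith,
      by simp only [fam0]; linarith, by simp only [fam0]; linarith⟩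
  hor α β η hab hc := by
    have hs : IsStabbing (cells O C) (Ioo ((O : ℝ) + α) (O + β) ×ˢ {(O : ℝ) + η}) := by
      refine ⟨?_, O + α, O + β, O + η, by linarith, Or.inl rfl⟩
      rintro ⟨x, y⟩ ⟨⟨hx1, hx2⟩, hy⟩
      simp only at hx1 hx2
      rw [Set.mem_singleton_iff] at hy
      simp only at hy
      rw [mem_interior_cells]
      intro a b p1 p2 p3 p4
      simp only at p1 p2 p3 p4
      exact hc a b (by linarith) (by linarith) (by linarith) (by linarith)
    refine (ncard_le_meets _ fun R hR => ?_).trans (hk _ hs)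
    obtain ⟨h1, h2, h3, h4⟩ := hR
    simp only [fam0] at h1 h2 h3 h4
    obtain ⟨x, hx1, hx2, hx3, hx4⟩ := exists_common (α := (O + α : ℝ)) (β := O + β) R.1.hx
      (by linarith) (by linarith) (by linarith)
    exact ⟨(x, O + η), ⟨⟨hx1, hx2⟩, ⟨by simp only; linarith, by simp only; linarith⟩⟩,
      ⟨⟨hx3, hx4⟩, rfl⟩⟩
  ver α β ξ hab hc := by
    have hs : IsStabbing (cells O C) ({(O : ℝ) + ξ} ×ˢ Ioo ((O : ℝ) + α) (O + β)) := by
      refine ⟨?_, O + α, O + β, O + ξ, by linarith, Or.inr rfl⟩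
      rintro ⟨x, y⟩ ⟨hx, ⟨hy1, hy2⟩⟩
      simp only at hy1 hy2
      rw [Set.mem_singleton_iff] at hx
      simp only at hx
      rw [mem_interior_cells]
      intro a b p1 p2 p3 p4
      simp only at p1 p2 p3 p4
      exact hc a b (by linarith) (by linarith) (by linarith) (by linarith)
    refine (ncard_le_meets _ fun R hR => ?_).trans (hk _ hs)
    obtain ⟨h1, h2, h3, h4⟩ := hR
    simp only [fam0] at h1 h2 h3 h4
    obtain ⟨y, hy1, hy2, hy3, hy4⟩ := exists_common (α := (O + α : ℝ)) (β := O + β) R.1.hy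
      (by linarith) (by linarith) (by linarith)
    exact ⟨(O + ξ, y), ⟨⟨by simp only; linarith, by simp only; linarith⟩, ⟨hy1, hy2⟩⟩,
      ⟨rfl, ⟨hy3, hy4⟩⟩⟩

end ExistsSys

open ExistsSys

/-- **L10. From a partition to a system.** -/
theorem exists_sys {P : Par} {cell : ℕ → ℤ → ℤ → Prop} (hz : Zones P cell) (O : ℤ)
    (𝒯 : Finset Rect) (h𝒯 : IsPartition (cells O (cell 0)) 𝒯)
    (hk : ∀ s, IsStabbing (cells O (cell 0)) s → meets 𝒯 s ≤ P.k) :
    Nonempty (Sys P {R // R ∈ 𝒯}) := by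
  let F : ℕ → Fam {R // R ∈ 𝒯} := fun t =>
    Nat.rec (fam0 O h𝒯) (fun t G => rotFam (P.lam (t + 1) : ℝ) G) t
  have hF : ∀ t, F (t + 1) = rotFam (P.lam (t + 1) : ℝ) (F t) := fun t => rfl
  have hM : ∀ t, Mesh (F t) (cell t) P.k := by
    intro t
    induction t with
    | zero => exact mesh0 O 𝒯 h𝒯 hk
    | succ t ih =>
      rw [hF]
      exact rot_mesh ih (P.lam (t + 1)) fun a b => hz.rot t a b
  exact ⟨⟨F, cell, hz, hM, fun _ _ => rfl, fun _ _ => rfl, fun _ _ => rfl, fun _ _ => rfl⟩⟩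

end Pool.Agent.Lib.MP_7d5495_lc
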