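import Pool.Agent.Lib.MP_7d5495_lc.PathDefs
import Pool.Agent.Lib.CookLevin.Bin

/-!
# The vertices of the polygon are computable in polynomial time

The list `bdry rs` can have exponential length for arbitrary lists of boxes (`attach` replaces
every occurrence of a point), so the computation is only claimed for lists all of whose prefixes
have a boundary list without repetitions; see `good_prefix` for valid lists of boxes.
-/

namespace Pool.Agent.Lib.MP_7d5495_lc

open HerCo CookLevin

section fpbdry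

variable {α : Type} [Enc α] {m : Mode}

namespace FPBdry

theorem length_filter_lt (n c : ℕ) (h : c ≤ n) :
    ((List.range n).filter fun i => decide (i < c)).length = c := by
  induction n with
  | zero => simp; omega
  | succ n ih =>
    rw [List.range_succ, List.filter_append, List.length_append]
    rcases Nat.lt_or_ge n c with h1 | h1
    · have hc : c = n + 1 := by omega
      subst hc
      have e : (List.range n).filter (fun i => decide (i < n + 1)) = List.range n := by
        apply List.filter_eq_self.2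
        intro a ha
        have := List.mem_range.1 ha
        simp only [decide_eq_true_eq]
        omega
      rw [e]
      simp
    · rw [ih h1]
      have : ¬ n < c := by omega
      simp [this]

theorem div_eq_filter (n k : ℕ) (hk : k ≠ 0) :
    n / k = ((List.range n).filter fun i => decide ((i + 1) * k ≤ n)).length := by
  have e : ∀ i, decide ((i + 1) * k ≤ n) = decide (i < n / k) := by
    intro i
    rw [decide_eq_decide, ← Nat.le_div_iff_mul_le (Nat.pos_of_ne_zero hk)]
    omega
  simp only [e]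
  rw [length_filter_lt _ _ (Nat.div_le_self n k)]

theorem fp_div {f g : α → ℕ} (hf : FP m f) (hg : FP m g) : FP m (fun a => f a / g a) := by
  have h : FP m (fun a => if g a = 0 then 0 else
      ((List.range (f a)).filter fun i => decide ((i + 1) * g a ≤ f a)).length) := by fun_prop
  refine h.congr fun a => ?_
  by_cases h0 : g a = 0
  · simp [h0]
  · rw [if_neg h0, ← div_eq_filter _ _ h0]

theorem fp_mod {f g : α → ℕ} (hf : FP m f) (hg : FP m g) : FP m (fun a => f a % g a) := by
  have h0 := fp_div hf hg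
  have h : FP m (fun a => f a - g a * (f a / g a)) := by fun_prop
  exact h.congr fun a => (Nat.mod_eq_sub_mul_div).symm

theorem fp_cor {R : α → Bx} {s : α → ℕ} (hR : FP m R) (hs : FP m s) :
    FP m (fun a => cor (R a) (s a)) := by
  have h4 : FP m (fun a => s a % 4) := fp_mod hs (FP.const 4)
  unfold cor
  fun_prop

theorem fp_side {R : α → Bx} {s : α → ℕ} (hR : FP m R) (hs : FP m s) :
    FP m (fun a => side (R a) (s a)) := by
  have h4 : FP m (fun a => s a % 4) := fp_mod hs (FP.const 4)
  unfold side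
  fun_prop

theorem fp_attach {l : α → List (ℕ × ℕ)} {Rs : α → Bx × ℕ} (hl : FP m l) (hR : FP m Rs) :
    FP m (fun a => attach (l a) (Rs a)) := by
  unfold attach
  refine FP.flatMap hl ?_
  have e0 : FP m (fun p : α × (ℕ × ℕ) => cor (Rs p.1).1 ((Rs p.1).2 + 1)) :=
    fp_cor (by fun_prop) (by fun_prop)
  have e1 : FP m (fun p : α × (ℕ × ℕ) => side (Rs p.1).1 ((Rs p.1).2 + 1)) :=
    fp_side (by fun_prop) (by fun_prop)
  have e2 : FP m (fun p : α × (ℕ × ℕ) => side (Rs p.1).1 ((Rs p.1).2 + 2)) :=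
    fp_side (by fun_prop) (by fun_prop)
  have e3 : FP m (fun p : α × (ℕ × ℕ) => side (Rs p.1).1 ((Rs p.1).2 + 3)) :=
    fp_side (by fun_prop) (by fun_prop)
  have e4 : FP m (fun p : α × (ℕ × ℕ) => side (Rs p.1).1 (Rs p.1).2) :=
    fp_side (by fun_prop) (by fun_prop)
  have h1 : FP m (fun p : α × (ℕ × ℕ) => decide (p.2 = cor (Rs p.1).1 ((Rs p.1).2 + 1))) :=
    FP.decEq (by fun_prop) e0
  have h2 : FP m (fun p : α × (ℕ × ℕ) =>
      decide (p.2 ∈ (side (Rs p.1).1 (Rs p.1).2).tail)) :=
    (FP.elem (FP.snd FP.id) (FP.tail e4)).congr fun p => decide_eq_decide.2 Iff.rfl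
  have h3 : FP m (fun p : α × (ℕ × ℕ) => side (Rs p.1).1 ((Rs p.1).2 + 1) ++
      side (Rs p.1).1 ((Rs p.1).2 + 2) ++ side (Rs p.1).1 ((Rs p.1).2 + 3)) := by fun_prop
  have h4 : FP m (fun p : α × (ℕ × ℕ) => [p.2]) := by fun_prop
  exact FP.iteP h1 h3 (FP.iteP h2 (FP.const []) h4)

/-- the boundary of one box -/
def ring (R : Bx) : List (ℕ × ℕ) := side R 0 ++ side R 1 ++ side R 2 ++ side R 3

theorem fp_ring {R : α → Bx} (hR : FP m R) : FP m (fun a => ring (R a)) := by
  have e0 : FP m (fun a => side (R a) 0) := fp_side hR (FP.const 0)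
  have e1 : FP m (fun a => side (R a) 1) := fp_side hR (FP.const 1)
  have e2 : FP m (fun a => side (R a) 2) := fp_side hR (FP.const 2)
  have e3 : FP m (fun a => side (R a) 3) := fp_side hR (FP.const 3)
  unfold ring
  fun_prop

theorem bdry_eq (rs : List (Bx × ℕ)) :
    bdry rs = rs.tail.foldl attach (rs.head?.elim [] fun Rs => ring Rs.1) := by
  cases rs <;> rfl

/-- all coordinates of the box are at most `M` -/
def Sm (M : ℕ) (R : Bx) : Prop := R.1.1 ≤ M ∧ R.1.2 ≤ M ∧ R.2.1 ≤ M ∧ R.2.2 ≤ M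

theorem mem_side {M : ℕ} {R : Bx} (h : Sm M R) {s : ℕ} {p : ℕ × ℕ} (hp : p ∈ side R s) :
    p.1 ≤ M ∧ p.2 ≤ M := by
  obtain ⟨h1, h2, h3, h4⟩ := h
  unfold side at hp
  split_ifs at hp <;>
  · obtain ⟨i, hi, rfl⟩ := List.mem_map.1 hp
    have := List.mem_range.1 hi
    constructor <;> dsimp only <;> omega

theorem mem_attach {M : ℕ} {l : List (ℕ × ℕ)} (hl : ∀ p ∈ l, p.1 ≤ M ∧ p.2 ≤ M) {Rs : Bx × ℕ}
    (h : Sm M Rs.1) : ∀ p ∈ attach l Rs, p.1 ≤ M ∧ p.2 ≤ M := by
  intro p hp
  unfold attach at hp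
  obtain ⟨q, hq, hp⟩ := List.mem_flatMap.1 hp
  split_ifs at hp
  · rcases List.mem_append.1 hp with hp | hp
    · rcases List.mem_append.1 hp with hp | hp
      · exact mem_side h hp
      · exact mem_side h hp
    · exact mem_side h hp
  · cases hp
  · rw [List.mem_singleton.1 hp]
    exact hl q hq

theorem mem_foldl {M : ℕ} (rs : List (Bx × ℕ)) (hr : ∀ Rs ∈ rs, Sm M Rs.1) :
    ∀ l : List (ℕ × ℕ), (∀ p ∈ l, p.1 ≤ M ∧ p.2 ≤ M) →
      ∀ p ∈ rs.foldl attach l, p.1 ≤ M ∧ p.2 ≤ M := by
  induction rs with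
  | nil => intro l hl; exact hl
  | cons Rs rs ih =>
    intro l hl
    exact ih (fun Q hQ => hr Q (List.mem_cons_of_mem _ hQ)) _
      (mem_attach hl (hr Rs (List.mem_cons_self ..)))

theorem mem_bdry {M : ℕ} {rs : List (Bx × ℕ)} (hr : ∀ Rs ∈ rs, Sm M Rs.1) :
    ∀ p ∈ bdry rs, p.1 ≤ M ∧ p.2 ≤ M := by
  cases rs with
  | nil => intro p hp; cases hp
  | cons Rs rs =>
    refine mem_foldl rs (fun Q hQ => hr Q (List.mem_cons_of_mem _ hQ)) _ ?_
    intro p hp
    have h := hr Rs (List.mem_cons_self ..)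
    rcases List.mem_append.1 hp with hp | hp
    · rcases List.mem_append.1 hp with hp | hp
      · rcases List.mem_append.1 hp with hp | hp
        · exact mem_side h hp
        · exact mem_side h hp
      · exact mem_side h hp
    · exact mem_side h hp

theorem sm_of_mem {rs : List (Bx × ℕ)} {Rs : Bx × ℕ} (h : Rs ∈ rs) : Sm (sz rs) Rs.1 := by
  have h1 := sz_le_of_mem h
  obtain ⟨⟨⟨a, b⟩, ⟨c, d⟩⟩, s⟩ := Rs
  simp only [sz_prod, sz_nat] at h1
  refine ⟨?_, ?_, ?_, ?_⟩ <;> dsimp only <;> omega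

theorem sz_bdry_le {M : ℕ} {rs : List (Bx × ℕ)} (hr : ∀ Rs ∈ rs, Sm M Rs.1)
    (hn : (bdry rs).Nodup) : sz (bdry rs) ≤ (M + 1) * (M + 1) * (2 * (3 * M + 1) + 1) := by
  have h1 := mem_bdry hr
  have h2 : (bdry rs).length ≤ (M + 1) * (M + 1) := by
    rw [← List.toFinset_card_of_nodup hn]
    have h3 : (bdry rs).toFinset ⊆ Finset.range (M + 1) ×ˢ Finset.range (M + 1) := by
      intro p hp
      have := h1 p (List.mem_toFinset.1 hp)
      rw [Finset.mem_product, Finset.mem_range, Finset.mem_range]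
      omega
    have h4 := Finset.card_le_card h3
    rwa [Finset.card_product, Finset.card_range] at h4
  have h3 := sz_le_of_all (bdry rs) (3 * M + 1) (by
    rintro ⟨x, y⟩ hp
    have := h1 _ hp
    simp only [sz_prod, sz_nat]
    dsimp only at this
    omega)
  exact h3.trans (Nat.mul_le_mul_right _ h2)

end FPBdry

open FPBdry

/-- The boundary list is computable in polynomial time, if no boundary list of a prefix has a
repetition. -/
theorem FP.bdry {rs : α → List (Bx × ℕ)} (hr : FP .poly rs)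
    (hn : ∀ a l, l <+: rs a → (bdry l).Nodup) : FP .poly (fun a => bdry (rs a)) := by
  have h1 : FP .poly (fun a => (rs a).head?.elim [] fun Rs => ring Rs.1) :=
    FP.optElim (g := fun p : α × (Bx × ℕ) => ring p.2.1) (by fun_prop) (FP.const [])
      (fp_ring (by fun_prop))
  have h2 : FP .poly (fun p : α × List (ℕ × ℕ) × (Bx × ℕ) => attach p.2.1 p.2.2) :=
    fp_attach (by fun_prop) (by fun_prop)
  refine (FP.foldl (l := fun a => (rs a).tail) (h := fun _ l Rs => attach l Rs) (by fun_prop) h1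
    h2 fun _ => ?_).congr fun a => (bdry_eq (rs a)).symm
  have hb : Bd .poly (fun a => sz (rs a)) := hr.bd
  refine ⟨fun a => (sz (rs a) + 1) * (sz (rs a) + 1) * (2 * (3 * sz (rs a) + 1) + 1),
    ((hb.add (Bd.const 1)).mul (hb.add (Bd.const 1))).mul
      (((Bd.const 2).mul (((Bd.const 3).mul hb).add (Bd.const 1))).add (Bd.const 1)), ?_⟩
  intro a l' hl'
  cases h : rs a with
  | nil =>
    rw [h] at hl'
    have : l' = [] := List.prefix_nil.1 hl'
    subst this
    simp
  | cons Rs rest =>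
    rw [h] at hl'
    have h3 : (Rs :: l') <+: rs a := by
      rw [h]
      exact List.cons_prefix_cons.2 ⟨rfl, hl'⟩
    have h4 := sz_bdry_le (M := sz (rs a)) (rs := Rs :: l')
      (fun Q hQ => sm_of_mem (h3.subset hQ)) (hn a _ h3)
    rw [← h]
    have h5 : (rs a).head? = some Rs := by rw [h]; rfl
    rw [h5]
    exact h4

/-- The corners of a closed path are computable in polynomial time. -/
theorem FP.corners {l : α → List (ℕ × ℕ)} (hl : FP m l) : FP m (fun a => corners (l a)) := by
  unfold MP_7d5495_lc.corners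
  refine FP.flatMap (by fun_prop) ?_
  have e1 : FP m (fun p : α × ℕ => (p.2 + (l p.1).length - 1) % (l p.1).length) :=
    fp_mod (by fun_prop) (by fun_prop)
  have e2 : FP m (fun p : α × ℕ => (p.2 + 1) % (l p.1).length) :=
    fp_mod (by fun_prop) (by fun_prop)
  have e3 : FP m (fun p : α × ℕ => (l p.1).getD ((p.2 + (l p.1).length - 1) % (l p.1).length)
    (0, 0)) := by fun_prop
  have e4 : FP m (fun p : α × ℕ => (l p.1).getD p.2 (0, 0)) := by fun_prop
  have e5 : FP m (fun p : α × ℕ => (l p.1).getD ((p.2 + 1) % (l p.1).length) (0, 0)) := by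
    fun_prop
  dsimp only
  fun_prop

/-- The vertices of the polygon are computable in polynomial time, if no boundary list of a prefix
has a repetition. -/
theorem FP.corners_bdry {rs : α → List (Bx × ℕ)} (hr : FP .poly rs)
    (hn : ∀ a l, l <+: rs a → (MP_7d5495_lc.bdry l).Nodup) :
    FP .poly (fun a => MP_7d5495_lc.corners (MP_7d5495_lc.bdry (rs a))) :=
  FP.corners (FP.bdry hr hn)

end fpbdry

theorem good_prefix {rs l : List (Bx × ℕ)} (h : Good rs) (hl : l <+: rs) (hne : l ≠ []) :
    Good l := by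
  obtain ⟨t, rfl⟩ := hl
  cases l with
  | nil => exact absurd rfl hne
  | cons Rs l =>
    obtain ⟨h1, h2⟩ := h
    exact ⟨h1, ((goodFrom_append _ _ _).1 h2).1⟩

/-- a rational number, coded -/
def wrat (q : ℚ) : BZ × BN := (BZ.mk q.num, BN.mk q.den)

theorem enc_wrat (q : ℚ) : enc (wrat q) = N487b59b3.bitEncode q :=
  agree_pair (f := BZ.mk) (g := BN.mk) (fun _ => rfl) (fun _ => rfl) (q.num, q.den)

theorem enc_wratPair (q : ℚ × ℚ) : enc (wrat q.1, wrat q.2) = N487b59b3.bitEncode q :=
  agree_pair (f := wrat) (g := wrat) enc_wrat enc_wrat q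

theorem isPolyTime_out {f : List Bool → List (ℕ × ℕ)} {k : List Bool → ℕ} (hf : FP .poly f)
    (hk : FP .poly k) : N68a2faeb.IsPolyTime
      (fun x => ((f x).map (fun p => ((p.1 : ℚ), (p.2 : ℚ))), k x)) := by
  have h : FP .poly (fun x => ((f x).map (fun p =>
      ((BZ.mk (p.1 : ℤ), BN.mk 1), (BZ.mk (p.2 : ℤ), BN.mk 1))), BN.mk (k x))) := by fun_prop
  refine Cp.toTM2 (Cp.of_eq h (fun a => (encode_list a).symm) fun x => ?_)
  have e1 : (f x).map (fun p => ((BZ.mk (p.1 : ℤ), BN.mk 1), (BZ.mk (p.2 : ℤ), BN.mk 1))) =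
      ((f x).map (fun p => ((p.1 : ℚ), (p.2 : ℚ)))).map (fun q => (wrat q.1, wrat q.2)) := by
    rw [List.map_map]
    refine List.map_congr_left fun p _ => ?_
    simp only [Function.comp, wrat, Rat.num_natCast, Rat.den_natCast]
  beta_reduce
  rw [e1]
  exact agree_pair (f := fun l : List (ℚ × ℚ) => l.map fun q => (wrat q.1, wrat q.2))
    (g := BN.mk) (agree_list enc_wratPair) (fun _ => rfl)
    ((f x).map (fun p => ((p.1 : ℚ), (p.2 : ℚ))), k x)

end Pool.Agent.Lib.MP_7d5495_lc
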