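import Pool.Agent.Lib.MP_7d5495_lc.Frames
import Pool.Agent.Lib.MP_7d5495_lc.ChainFP

/-!
# The numbers `beta` and the boxes are computable in polynomial time
-/

namespace Pool.Agent.Lib.MP_7d5495_lc

open HerCo Function

namespace FPBeta

/-- one step of the computation of a row of Pascal's triangle -/
def step (n : ℕ) (s : ℕ × ℕ) : ℕ × ℕ := (s.1 + 1, s.2 * (n - s.1) / (s.1 + 1))

theorem step_iter (n i : ℕ) : (step n)^[i] (0, 1) = (i, n.choose i) := by
  induction i with
  | zero => simp
  | succ i ih =>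
    rw [iterate_succ_apply', ih]
    show (i + 1, n.choose i * (n - i) / (i + 1)) = _
    rw [← Nat.choose_succ_right_eq, Nat.mul_div_cancel _ (Nat.succ_pos i)]

end FPBeta

/-- **F1.** -/
theorem FP.beta {α : Type} [Enc α] {f g : α → ℕ} (hf : FP .poly f) (hg : FP .poly g)
    (hb : Bd .poly (fun a => 2 ^ (f a + g a))) : FP .poly (fun a => beta (f a) (g a)) := by
  have h1 : FP .poly (fun a => ((FPBeta.step (f a + g a - 2))^[f a - 1] (0, 1)).2) := by
    refine FP.snd (FP.nat_iterate (init := fun _ => ((0 : ℕ), (1 : ℕ)))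
      (h := fun a s => FPBeta.step (f a + g a - 2) s) (n := fun a => f a - 1)
      (by fun_prop) ?_ (by fun_prop) fun _ => ?_)
    · unfold FPBeta.step
      fun_prop
    · refine ⟨fun a => 2 * f a + 1 + 2 ^ (f a + g a), ?_, fun a i hi => ?_⟩
      · have h1 := hf.bd
        simp only [sz_nat] at h1
        exact (((Bd.const 2).mul h1).add (Bd.const 1)).add hb
      · show sz ((FPBeta.step (f a + g a - 2))^[i] (0, 1)) ≤ _
        rw [FPBeta.step_iter]
        have h3 : ∀ s : ℕ × ℕ, sz s = 2 * s.1 + 1 + s.2 := by rintro ⟨a, b⟩; simp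
        rw [h3]
        have h4 : (f a + g a - 2).choose i ≤ 2 ^ (f a + g a) :=
          (Nat.choose_le_two_pow _ _).trans (Nat.pow_le_pow_right (by norm_num) (by omega))
        beta_reduce
        omega
  have h2 : FP .poly (fun a => if f a = 0 ∨ g a = 0 then 0 else
      ((FPBeta.step (f a + g a - 2))^[f a - 1] (0, 1)).2) := by fun_prop
  refine h2.congr fun a => ?_
  unfold Pool.Agent.Lib.MP_7d5495_lc.beta
  rw [FPBeta.step_iter]

namespace FPBeta

variable {α : Type} [Enc α]

theorem fp_pocketL {x y w : α → ℕ} (hx : FP .poly x) (hy : FP .poly y) (hw : FP .poly w) :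
    FP .poly (fun a => pocketL (x a) (y a) (w a)) := by
  unfold pocketL bx
  fun_prop

theorem fp_pocketR {x y w : α → ℕ} (hx : FP .poly x) (hy : FP .poly y) (hw : FP .poly w) :
    FP .poly (fun a => pocketR (x a) (y a) (w a)) := by
  unfold pocketR bx
  fun_prop

theorem fp_pocketD {x y w : α → ℕ} (hx : FP .poly x) (hy : FP .poly y) (hw : FP .poly w) :
    FP .poly (fun a => pocketD (x a) (y a) (w a)) := by
  unfold pocketD bx
  fun_prop

theorem fp_pocketU {x y w : α → ℕ} (hx : FP .poly x) (hy : FP .poly y) (hw : FP .poly w) :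
    FP .poly (fun a => pocketU (x a) (y a) (w a)) := by
  unfold pocketU bx
  fun_prop

theorem fp_finger {L D m w h i : α → ℕ} (hL : FP .poly L) (hD : FP .poly D) (hm : FP .poly m)
    (hw : FP .poly w) (hh : FP .poly h) (hi : FP .poly i) :
    FP .poly (fun a => finger (L a) (D a) (m a) (w a) (h a) (i a)) := by
  unfold finger
  refine FP.append (FP.append ?_ ?_) ?_
  · unfold bx
    fun_prop
  · exact fp_pocketR (by fun_prop) (by fun_prop) (by fun_prop)
  · exact fp_pocketU (by fun_prop) (by fun_prop) (by fun_prop)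

theorem fp_bend {L D m w : α → ℕ} {h : α → ℕ → ℕ} (hL : FP .poly L) (hD : FP .poly D)
    (hm : FP .poly m) (hw : FP .poly w) (hh : FP .poly (fun p : α × ℕ => h p.1 p.2)) :
    FP .poly (fun a => bend (L a) (D a) (m a) (w a) (h a)) := by
  unfold bend
  refine FP.append (FP.append (FP.append (FP.append (FP.append ?_ ?_) ?_) ?_) ?_) ?_
  · unfold bx
    fun_prop
  · unfold bx
    fun_prop
  · exact fp_pocketL (by fun_prop) (by fun_prop) (by fun_prop)
  · unfold bx
    fun_prop
  · exact fp_pocketD (by fun_prop) (by fun_prop) (by fun_prop)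
  · refine FP.flatMap (g := fun a i => finger (L a) (D a) (m a) (w a) (h a i) i)
      (by fun_prop) ?_
    exact fp_finger (by fun_prop) (by fun_prop) (by fun_prop) (by fun_prop) hh (by fun_prop)

theorem fp_place {O Δ t : α → ℕ} {Rs : α → Bx × ℕ} (hO : FP .poly O) (hΔ : FP .poly Δ)
    (ht : FP .poly t) (hR : FP .poly Rs) :
    FP .poly (fun a => place (O a) (Δ a) (t a) (Rs a)) := by
  unfold place bx
  fun_prop

end FPBeta

/-- **F2.** -/
theorem FP.boxes {α : Type} [Enc α] {N m w : α → ℕ} {h : α → ℕ → ℕ → ℕ} (hN : FP .poly N)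
    (hm : FP .poly m) (hw : FP .poly w)
    (hh : FP .poly (fun p : α × ℕ × ℕ => h p.1 p.2.1 p.2.2)) :
    FP .poly (fun a => boxes (N a) (m a) (w a) (h a)) := by
  unfold Pool.Agent.Lib.MP_7d5495_lc.boxes
  refine FP.flatMap (g := fun a t => (bend (t * ((m a + 2) * (2 * w a + 2))) (2 * w a + 2) (m a)
    (w a) (h a t)).map (place ((N a + 4) * ((m a + 2) * (2 * w a + 2)))
      ((m a + 2) * (2 * w a + 2)) t)) (by fun_prop) ?_
  refine FP.map (g := fun (p : α × ℕ) R => place ((N p.1 + 4) * ((m p.1 + 2) * (2 * w p.1 + 2)))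
      ((m p.1 + 2) * (2 * w p.1 + 2)) p.2 R) ?_ ?_
  · refine FPBeta.fp_bend (h := fun (p : α × ℕ) i => h p.1 p.2 i) (by fun_prop) (by fun_prop)
      (by fun_prop) (by fun_prop) ?_
    exact hh.comp (f := fun p : (α × ℕ) × ℕ => (p.1.1, p.1.2, p.2)) (by fun_prop)
  · exact FPBeta.fp_place (by fun_prop) (by fun_prop) (by fun_prop) (by fun_prop)

end Pool.Agent.Lib.MP_7d5495_lc
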