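import Pool.Agent.Lib.MP_7d5495_lc.ChainIface
import Pool.Agent.Lib.MP_7d5495_lc.ChainConv
import Pool.Agent.Lib.MP_7d5495_lc.FPBeta

/-!
# The boxes of the polygon of a formula are computable in polynomial time
-/

namespace Pool.Agent.Lib.MP_7d5495_lc

namespace OfCnf

open HerCo CookLevin Chain

/-- the parameters of the polygon of a formula -/
def par (φ : Cnf) : Par := parOf (Nn φ) (mm φ) (kap φ) (Kc φ)

theorem ok_par (φ : Cnf) : (par φ).Ok (kap φ) :=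
  ok_parOf (Nn_pos φ) (mm_pos φ) (Kc_le φ)

theorem par_k (φ : Cnf) : (par φ).k = 2 * kap φ + 9 := rfl

theorem fp_k : FP .poly (fun φ : Cnf => (par φ).k) := by
  have h := FP_kap
  show FP .poly (fun φ : Cnf => 2 * kap φ + 9)
  fun_prop

theorem bd_k : Bd .poly (fun φ : Cnf => 2 ^ (2 * (par φ).k)) := by
  have h1 : Bd .poly (fun φ : Cnf => 2 ^ kap φ * 2 ^ kap φ) :=
    Bd_two_pow_kap.mul Bd_two_pow_kap
  have h2 : Bd .poly (fun φ : Cnf => (2 ^ kap φ * 2 ^ kap φ) * (2 ^ kap φ * 2 ^ kap φ) * 2 ^ 18) :=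
    (h1.mul h1).mul (Bd.const _)
  refine h2.mono fun φ => le_of_eq ?_
  rw [par_k, ← pow_add, ← pow_add, ← pow_add]
  congr 1
  ring

theorem fp_w : FP .poly (fun φ : Cnf => (par φ).w) := by
  have hk := fp_k
  have h : FP .poly (fun φ : Cnf => beta (par φ).k ((par φ).k - 1)) := by
    refine FP.beta (f := fun φ : Cnf => (par φ).k) (g := fun φ : Cnf => (par φ).k - 1) hk
      (by fun_prop) (bd_k.mono fun φ => ?_)
    exact Nat.pow_le_pow_right (by norm_num) (by omega)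
  exact FP.succ h

theorem fp_e : FP .poly (fun p : Cnf × ℕ × ℕ => (par p.1).e p.2.1 p.2.2) := by
  have hm : FP .poly (fun p : Cnf × ℕ × ℕ => mm p.1) := FP_mm.comp (by fun_prop)
  have hκ : FP .poly (fun p : Cnf × ℕ × ℕ => kap p.1) := FP_kap.comp (by fun_prop)
  have h1 : FP .poly (fun p : Cnf × ℕ × ℕ => Kc p.1 0 (mm p.1 - 1 - p.2.2)) :=
    FP_Kc.comp (f := fun p : Cnf × ℕ × ℕ => (p.1, (0 : ℕ), mm p.1 - 1 - p.2.2)) (by fun_prop)
  have h2 : FP .poly (fun p : Cnf × ℕ × ℕ => Kc p.1 p.2.1 p.2.2) := FP_Kc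
  have h3 : FP .poly (fun p : Cnf × ℕ × ℕ => Kc p.1 p.2.1 (mm p.1 - 1 - p.2.2)) :=
    FP_Kc.comp (f := fun p : Cnf × ℕ × ℕ => (p.1, p.2.1, mm p.1 - 1 - p.2.2)) (by fun_prop)
  show FP .poly (fun p : Cnf × ℕ × ℕ => if p.2.1 = 0 then 2 * kap p.1 + 5 -
      Kc p.1 0 (mm p.1 - 1 - p.2.2)
    else if p.2.1 % 2 = 1 then 2 * kap p.1 + 3 - Kc p.1 p.2.1 p.2.2
    else 2 * kap p.1 + 3 - Kc p.1 p.2.1 (mm p.1 - 1 - p.2.2))
  fun_prop

theorem fp_h : FP .poly (fun p : Cnf × ℕ × ℕ => (par p.1).h p.2.1 p.2.2) := by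
  have he := fp_e
  have hk : FP .poly (fun p : Cnf × ℕ × ℕ => (par p.1).k) := fp_k.comp (by fun_prop)
  refine FP.beta (f := fun p : Cnf × ℕ × ℕ => (par p.1).e p.2.1 p.2.2)
    (g := fun p : Cnf × ℕ × ℕ => (par p.1).k) he hk ?_
  have h1 : Bd .poly (fun p : Cnf × ℕ × ℕ => 2 ^ (2 * (par p.1).k)) :=
    bd_k.comp (f := fun p : Cnf × ℕ × ℕ => p.1) (by fun_prop)
  refine h1.mono fun p => Nat.pow_le_pow_right (by norm_num) ?_
  have := (ok_par p.1).e_le p.2.1 p.2.2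
  omega

theorem fp_rects : FP .poly (fun φ : Cnf => (par φ).rects) :=
  FP.boxes (N := Nn) (m := mm) (w := fun φ => (par φ).w) (h := fun φ => (par φ).h) FP_Nn FP_mm
    fp_w fp_h

end OfCnf

end Pool.Agent.Lib.MP_7d5495_lc
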