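import Pool.Agent.Lib.MP_7d5495_lc.Frames

/-!
# Families of tiles

A family of rectangles with pairwise disjoint interiors, the tiles met by an open horizontal or
vertical segment, and the relation to the unit cells of the polygon.
-/

namespace Pool.Agent.Lib.MP_7d5495_lc

/-- a family of rectangles with disjoint interiors -/
structure Fam (ι : Type) where
  /-- left side -/
  x₁ : ι → ℝ
  /-- right side -/
  x₂ : ι → ℝ
  /-- lower side -/
  y₁ : ι → ℝ
  /-- upper side -/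
  y₂ : ι → ℝ
  hx : ∀ i, x₁ i < x₂ i
  hy : ∀ i, y₁ i < y₂ i
  disj : ∀ i j, i ≠ j → x₂ i ≤ x₁ j ∨ x₂ j ≤ x₁ i ∨ y₂ i ≤ y₁ j ∨ y₂ j ≤ y₁ i

namespace Fam

variable {ι : Type} (F : Fam ι)

/-- the tiles met by the open segment from `(α, η)` to `(β, η)` (for `α < β`) -/
def H (α β η : ℝ) : Set ι := {i | F.y₁ i ≤ η ∧ η ≤ F.y₂ i ∧ F.x₁ i < β ∧ α < F.x₂ i}

/-- the tiles met by the open segment from `(ξ, α)` to `(ξ, β)` (for `α < β`) -/
def V (α β ξ : ℝ) : Set ι := {i | F.x₁ i ≤ ξ ∧ ξ ≤ F.x₂ i ∧ F.y₁ i < β ∧ α < F.y₂ i}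

/-- reflection `x ↦ -x` -/
def flipX : Fam ι where
  x₁ i := -F.x₂ i
  x₂ i := -F.x₁ i
  y₁ := F.y₁
  y₂ := F.y₂
  hx i := by have := F.hx i; linarith
  hy := F.hy
  disj i j h := by
    rcases F.disj i j h with h | h | h | h
    · right; left; linarith
    · left; linarith
    · right; right; left; exact h
    · right; right; right; exact h

/-- exchange of the coordinates -/
def swap : Fam ι where
  x₁ := F.y₁
  x₂ := F.y₂
  y₁ := F.x₁
  y₂ := F.x₂
  hx := F.hy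
  hy := F.hx
  disj i j h := by
    rcases F.disj i j h with h | h | h | h
    · right; right; left; exact h
    · right; right; right; exact h
    · left; exact h
    · right; left; exact h

theorem flipX_H (α β η : ℝ) : F.flipX.H α β η = F.H (-β) (-α) η := by
  ext i
  simp only [H, flipX, Set.mem_ofPred_eq]
  constructor
  · rintro ⟨h1, h2, h3, h4⟩; exact ⟨h1, h2, by linarith, by linarith⟩
  · rintro ⟨h1, h2, h3, h4⟩; exact ⟨h1, h2, by linarith, by linarith⟩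

theorem flipX_V (α β ξ : ℝ) : F.flipX.V α β ξ = F.V α β (-ξ) := by
  ext i
  simp only [V, flipX, Set.mem_ofPred_eq]
  constructor
  · rintro ⟨h1, h2, h3, h4⟩; exact ⟨by linarith, by linarith, h3, h4⟩
  · rintro ⟨h1, h2, h3, h4⟩; exact ⟨by linarith, by linarith, h3, h4⟩

theorem swap_H (α β η : ℝ) : F.swap.H α β η = F.V α β η := rfl

theorem swap_V (α β ξ : ℝ) : F.swap.V α β ξ = F.H α β ξ := rfl

end Fam

/-- The family `F` of tiles covers the cells `C`, is contained in their union, and every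
horizontal or vertical open segment in the interior of the union meets at most `k` tiles. -/
structure Mesh {ι : Type} (F : Fam ι) (C : ℤ → ℤ → Prop) (k : ℕ) : Prop where
  sub : ∀ i, ∀ a b : ℤ, F.x₁ i < a + 1 → (a : ℝ) < F.x₂ i → F.y₁ i < b + 1 → (b : ℝ) < F.y₂ i →
    C a b
  cover : ∀ a b : ℤ, C a b → ∀ x y : ℝ, (a : ℝ) ≤ x → x ≤ a + 1 → (b : ℝ) ≤ y → y ≤ b + 1 →
    ∃ i, F.x₁ i ≤ x ∧ x ≤ F.x₂ i ∧ F.y₁ i ≤ y ∧ y ≤ F.y₂ i
  hor : ∀ α β η : ℝ, α < β → (∀ a b : ℤ, α < a + 1 → (a : ℝ) < β → (b : ℝ) ≤ η → η ≤ b + 1 →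
    C a b) → (F.H α β η).ncard ≤ k
  ver : ∀ α β ξ : ℝ, α < β → (∀ a b : ℤ, (a : ℝ) ≤ ξ → ξ ≤ a + 1 → α < b + 1 → (b : ℝ) < β →
    C a b) → (F.V α β ξ).ncard ≤ k

theorem Mesh.flipX {ι : Type} {F : Fam ι} {C : ℤ → ℤ → Prop} {k : ℕ} (h : Mesh F C k) :
    Mesh F.flipX (fun a b => C (-a - 1) b) k where
  sub i a b h1 h2 h3 h4 := by
    simp only [Fam.flipX] at h1 h2
    refine h.sub i _ _ ?_ ?_ h3 h4 <;> push_cast <;> linarith
  cover a b hc x y h1 h2 h3 h4 := by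
    obtain ⟨i, hi⟩ := h.cover _ _ hc (-x) y (by push_cast; linarith) (by push_cast; linarith) h3 h4
    exact ⟨i, by simp only [Fam.flipX]; linarith [hi.2.1], by simp only [Fam.flipX]; linarith [hi.1],
      hi.2.2.1, hi.2.2.2⟩
  hor α β η hab hc := by
    rw [Fam.flipX_H]
    refine h.hor _ _ _ (by linarith) fun a b h1 h2 h3 h4 => ?_
    have := hc (-a - 1) b (by push_cast; linarith) (by push_cast; linarith) h3 h4
    simpa using this
  ver α β ξ hab hc := by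
    rw [Fam.flipX_V]
    refine h.ver _ _ _ hab fun a b h1 h2 h3 h4 => ?_
    have := hc (-a - 1) b (by push_cast; linarith) (by push_cast; linarith) h3 h4
    simpa using this

theorem Mesh.swap {ι : Type} {F : Fam ι} {C : ℤ → ℤ → Prop} {k : ℕ} (h : Mesh F C k) :
    Mesh F.swap (fun a b => C b a) k where
  sub i a b h1 h2 h3 h4 := h.sub i b a h3 h4 h1 h2
  cover a b hc x y h1 h2 h3 h4 := by
    obtain ⟨i, hi⟩ := h.cover _ _ hc y x h3 h4 h1 h2
    exact ⟨i, hi.2.2.1, hi.2.2.2, hi.1, hi.2.1⟩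
  hor α β η hab hc := by
    rw [Fam.swap_H]
    exact h.ver _ _ _ hab fun a b h1 h2 h3 h4 => hc b a h3 h4 h1 h2
  ver α β ξ hab hc := by
    rw [Fam.swap_V]
    exact h.hor _ _ _ hab fun a b h1 h2 h3 h4 => hc b a h3 h4 h1 h2

/-- A partition of the polygon with stabbing number at most `k`, seen in all frames. -/
structure Sys (P : Par) (ι : Type) where
  /-- the tiles in the frame `t` -/
  F : ℕ → Fam ι
  /-- the cells of the polygon in the frame `t` -/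
  cell : ℕ → ℤ → ℤ → Prop
  zones : Zones P cell
  mesh : ∀ t, Mesh (F t) (cell t) P.k
  rx₁ : ∀ t i, (F (t + 1)).x₁ i = -(P.lam (t + 1) : ℝ) - (F t).y₂ i
  rx₂ : ∀ t i, (F (t + 1)).x₂ i = -(P.lam (t + 1) : ℝ) - (F t).y₁ i
  ry₁ : ∀ t i, (F (t + 1)).y₁ i = (F t).x₁ i
  ry₂ : ∀ t i, (F (t + 1)).y₂ i = (F t).x₂ i

/-- The union of the unit cells `C`, shifted by `(O, O)`. -/
def cells (O : ℤ) (C : ℤ → ℤ → Prop) : Set (ℝ × ℝ) :=
  {p | ∃ a b : ℤ, C a b ∧ (O + a : ℝ) ≤ p.1 ∧ p.1 ≤ O + a + 1 ∧ (O + b : ℝ) ≤ p.2 ∧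
    p.2 ≤ O + b + 1}

end Pool.Agent.Lib.MP_7d5495_lc
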