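import Pool.Agent.Lib.MP_7d5495_lc.Geometry
import Pool.Agent.Lib.MP_7d5495_lc.FPRects
import Pool.Agent.Lib.MP_7d5495_lc.FPBdry

/-!
# The decision problem of the stabbing number is NP-hard
-/

namespace Pool.Agent.Lib.MP_7d5495_lc

namespace OfCnf

open HerCo CookLevin Chain

theorem nodup_prefix (φ : Cnf) (l : List (Bx × ℕ)) (hl : l <+: (par φ).rects) :
    (bdry l).Nodup := by
  by_cases h : l = []
  · subst h; exact List.nodup_nil
  · exact (pathOf_bdry (good_prefix (good_rects (ok_par φ)) hl h)).nodup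

/-- the vertices of the polygon of a formula -/
def cors (φ : Cnf) : List (ℕ × ℕ) := corners (bdry (par φ).rects)

theorem poly_eq (φ : Cnf) : (par φ).poly = (cors φ).map fun p => ((p.1 : ℚ), (p.2 : ℚ)) := rfl

theorem fp_cors : FP .poly (fun φ : Cnf => cors φ) :=
  FP.corners_bdry fp_rects nodup_prefix

theorem sat_iff (φ : Cnf) : Sat φ ↔ stab (region (par φ).poly) ≤ (par φ).k := by
  obtain ⟨-, h2, h3⟩ := stab_iff (κ := kap φ) (Nn_pos φ) (Nn_even φ) (mm_pos φ) (Kc_le φ)
  exact ⟨fun h => h2 (chain_complete_c φ h), fun h => chain_sound_c φ (h3 h)⟩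

end OfCnf

open HerCo in
/-- The size of the output of a polynomial time function is bounded by a polynomial. -/
theorem exists_bound {β : Type} [Enc β] {g : List Bool → β} (hg : FP .poly g) :
    ∃ p : Polynomial ℕ, ∀ x, sz (g x) ≤ p.eval x.length := by
  obtain ⟨k, hk⟩ := hg.bd
  refine ⟨(Polynomial.C 3 * Polynomial.X + Polynomial.C 2) ^ k, fun x => ?_⟩
  have h2 : (enc x : List Bool).length = 3 * x.length := by
    rw [CookLevin.enc_bools]
    induction x with
    | nil => rfl
    | cons b w ih => simp [ih]; ring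
  have h3 := hk x
  rw [h2] at h3
  simpa using h3

/-- **To decide whether the stabbing number of a simple rectilinear polygon is at most `k` is
strongly NP-hard.** -/
theorem minStab_stronglyNPHard : ∀ L ∈ N68a2faeb.NP,
    ∃ (f : List Bool → List (ℚ × ℚ) × ℕ) (p : Polynomial ℕ), N68a2faeb.IsPolyTime f ∧
      ∀ x, IsSimpleRectilinear (f x).1 ∧
        (∀ v ∈ (f x).1, ∃ a b : ℕ, v = ((a : ℚ), (b : ℚ)) ∧ a ≤ p.eval x.length ∧
          b ≤ p.eval x.length) ∧
        (f x).2 ≤ p.eval x.length ∧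
        (L x = true ↔ stab (region (f x).1) ≤ (f x).2) := by
  intro L hL
  obtain ⟨f, hf, -, -, hS⟩ := CookLevin.cook_levin hL
  have h1 : HerCo.FP .poly (fun x => OfCnf.cors (f x)) := OfCnf.fp_cors.comp hf
  have h2 : HerCo.FP .poly (fun x => (OfCnf.par (f x)).k) := OfCnf.fp_k.comp hf
  obtain ⟨p, hp⟩ := exists_bound h1
  obtain ⟨q, hq⟩ := exists_bound h2
  refine ⟨fun x => ((OfCnf.par (f x)).poly, (OfCnf.par (f x)).k), p + q,
    isPolyTime_out h1 h2, fun x => ⟨simple_poly (OfCnf.ok_par (f x)), ?_, ?_, ?_⟩⟩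
  · intro v hv
    obtain ⟨c, hc, rfl⟩ := List.mem_map.1 hv
    refine ⟨c.1, c.2, rfl, ?_, ?_⟩
    all_goals
      have h3 := hp x
      have h4 := HerCo.sz_le_of_mem hc
      have h5 : HerCo.sz c = 2 * c.1 + 1 + c.2 := by
        obtain ⟨a, b⟩ := c
        simp
      have h6 : HerCo.sz (OfCnf.cors (f x)) = HerCo.sz (corners (bdry (OfCnf.par (f x)).rects)) :=
        rfl
      rw [Polynomial.eval_add]
      omega
  · have h3 := hq x
    rw [HerCo.sz_nat] at h3
    rw [Polynomial.eval_add]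
    show (OfCnf.par (f x)).k ≤ _
    omega
  · rw [hS x]
    exact OfCnf.sat_iff (f x)

/-- **To decide whether the stabbing number of a simple rectilinear polygon is at most `k` is
NP-hard.** -/
theorem minStabNPHard : MinStabNPHard := by
  intro L hL
  obtain ⟨f, _, hf, h⟩ := minStab_stronglyNPHard L hL
  exact ⟨f, hf, fun x => ⟨(h x).1, (h x).2.2.2⟩⟩

end Pool.Agent.Lib.MP_7d5495_lc
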