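import Pool.Agent.Lib.MP_7d5495_lc.StairCells

/-!
# Every cell of a frame lies in a tile
-/

set_option autoImplicit false

namespace Pool.Agent.Lib.MP_7d5495_lc

theorem frameOwn_flipX {c : ℤ} {R : ZR} {a b : ℤ} :
    (R.flipX c).Has a b ↔ R.Has (c - 1 - a) b := by
  unfold ZR.Has ZR.flipX
  dsimp only
  constructor
  · rintro ⟨h1, h2, h3, h4⟩
    exact ⟨by omega, by omega, h3, h4⟩
  · rintro ⟨h1, h2, h3, h4⟩
    exact ⟨by omega, by omega, h3, h4⟩

theorem frameOwn_flipY {c : ℤ} {R : ZR} {a b : ℤ} :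
    (R.flipY c).Has a b ↔ R.Has a (c - 1 - b) := by
  unfold ZR.Has ZR.flipY
  dsimp only
  constructor
  · rintro ⟨h1, h2, h3, h4⟩
    exact ⟨h1, h2, by omega, by omega⟩
  · rintro ⟨h1, h2, h3, h4⟩
    exact ⟨h1, h2, by omega, by omega⟩

theorem frame_own {P : Par} {κ : ℕ} (hP : P.Ok κ) {cell : ℕ → ℤ → ℤ → Prop} (hz : Zones P cell)
    {Q : Fill} (hQ : FillOk P κ Q) {t : ℕ} (ht : t < P.N) {a b : ℤ} (hE : P.InE t a b)
    (h : cell t a b) : (∃ R ∈ P.frameTiles Q t, R.Has a b) ∨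
      (t + 1 < P.N ∧ (P.D : ℤ) ≤ a ∧ a < P.D + P.B ∧ 0 ≤ b ∧ b < P.D - P.w) := by
  obtain ⟨hE1, hE2, hE3, hE4⟩ := hE
  have hD := Par.D_pos (P := P)
  have hDe := Par.D_eq (P := P)
  have hΔ := Par.Δ_eq (P := P)
  have hB := Par.B_eq (P := P)
  have hW := hQ.W_size
  have hS := hQ.sol.1.1 t ht
  rcases lt_or_ge a (P.D : ℤ) with ha | ha
  · left
    rcases (hz.arm t ht a b hE1 ha hE3 hE4).1 h with ⟨h1, h2⟩ | ⟨h1, h2⟩
    · rcases lt_or_ge a (P.D - P.w : ℤ) with h3 | h3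
      · refine ⟨P.tM t, tM_mem, ?_, h3, h1, h2⟩
        show (if t = 0 then 0 else -(P.lam t : ℤ) - (P.D - P.w)) ≤ a
        split_ifs with h4
        · rw [h4, Par.lam_zero] at hE1
          push_cast at hE1
          omega
        · omega
      · exact ⟨P.tIW, tIW_mem, h3, ha, h1, by show b < P.D + P.B + 1; omega⟩
    · rcases lt_or_ge b (P.D + P.B + 1 : ℤ) with h3 | h3
      · exact ⟨P.tIW, tIW_mem, by show (P.D - P.w : ℤ) ≤ a; omega, ha,
          by show (P.D : ℤ) ≤ b; omega, h3⟩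
      · obtain ⟨R, hR, hR2⟩ := (stair_has Q.W 0 (P.D + P.B + 1) 1 one_pos (P.D - 1 - a) b).2
          ⟨by omega, h3, by rw [Int.ediv_one, Int.ediv_one]; omega⟩
        exact ⟨R.flipX P.D, sIT_mem (List.mem_map.2 ⟨R, hR, rfl⟩), frameOwn_flipX.2 hR2⟩
  rcases lt_or_ge b (P.D : ℤ) with hb | hb
  · rcases lt_or_ge a (P.D + P.B : ℤ) with ha' | ha'
    · rcases lt_or_ge b (P.D - P.w : ℤ) with h3 | h3
      · rcases Nat.lt_or_ge (t + 1) P.N with h4 | h4
        · exact Or.inr ⟨h4, ha, ha', hE3, h3⟩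
        · exact Or.inl ⟨P.tEnd, tEnd_mem (by omega), ha, ha', hE3, h3⟩
      · exact Or.inl ⟨P.tOW, tOW_mem, ha, by show a < P.D + P.B + 1; omega, h3, hb⟩
    · left
      rcases (hz.out t ht a b ha hE2 hE3 hb).1 h with h1 | h1
      · omega
      rcases lt_or_ge a (P.D + P.B + 1 : ℤ) with h3 | h3
      · exact ⟨P.tOW, tOW_mem, ha, h3, by show (P.D - P.w : ℤ) ≤ b; omega, hb⟩
      · obtain ⟨R, hR, hR2⟩ := (stair_has Q.W.mirror (P.D + P.B + 1) 0 1 one_pos a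
          (P.D - 1 - b)).2 ⟨h3, by omega, by
            rw [Int.ediv_one, Int.ediv_one, BT.size_mirror]; omega⟩
        exact ⟨R.flipY P.D, sOT_mem (List.mem_map.2 ⟨R, hR, rfl⟩), frameOwn_flipY.2 hR2⟩
  left
  rcases lt_or_ge a (2 * P.D : ℤ) with ha' | ha'
  · have h1 := (hz.first t ht a b ha ha' hb hE4).1 h
    obtain ⟨R, hR, hR2⟩ := (stair_has (Q.S t) P.D P.D P.D hD a b).2 ⟨ha, hb, by
      have h2 : (a - P.D) / (P.D : ℤ) = 0 := Int.ediv_eq_zero_of_lt (by omega) (by omega)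
      have h3 : (b - P.D) / (P.D : ℤ) < P.m := by
        rw [Int.ediv_lt_iff_lt_mul hD]
        omega
      rw [h2, hS]
      omega⟩
    exact ⟨R, sC_mem hR, hR2⟩
  obtain ⟨i, hi, h1, h2⟩ := Par.exists_X ha' hE2
  have hh := hP.h_lt t i
  have hX := Par.le_X (P := P) i
  have hY := Par.le_Y (P := P) hi
  rcases (hz.fing t ht i hi a b h1 h2 hb hE4).1 h with h3 | ⟨h3, h4, h5⟩ | ⟨h3, h4⟩
  · obtain ⟨R, hR, hR2⟩ := (stair_has (Q.S t) P.D P.D P.D hD a b).2 ⟨ha, hb, by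
      have hXd : P.X i = (i + 2) * (P.D : ℤ) := by unfold Par.X; rfl
      have hYd : P.Y i = (P.m + 1 - i) * (P.D : ℤ) := by unfold Par.Y; rfl
      have h4 : (a - P.D) / (P.D : ℤ) < i + 2 := by
        rw [Int.ediv_lt_iff_lt_mul hD]
        linarith
      have h5 : (b - P.D) / (P.D : ℤ) < P.m - 1 - i := by
        rw [Int.ediv_lt_iff_lt_mul hD]
        linarith
      rw [hS]
      omega⟩
    exact ⟨R, sC_mem hR, hR2⟩
  · rcases lt_or_ge a (P.X i + P.w) with h6 | h6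
    · exact ⟨P.tFW t i, tFW_mem hi, h1, h6, h3, by show b < P.Y i + 1; omega⟩
    · have h7 : (a - (P.X i + P.w)) + (b - (P.Y i - P.h t i)) < P.h t i := by
        rcases h5 with h5 | h5
        · omega
        · exact h5
      obtain ⟨R, hR, hR2⟩ := (stair_has (Q.E t i) (P.X i + P.w) (P.Y i - P.h t i) 1 one_pos a b).2
        ⟨h6, h3, by
          have h8 := hQ.E_size t i
          rw [Int.ediv_one, Int.ediv_one, h8]; exact h7⟩
      exact ⟨R, sFE_mem hi hR, hR2⟩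
  · rcases lt_or_ge b (P.Y i + 1) with h6 | h6
    · exact ⟨P.tFW t i, tFW_mem hi, h1, by show a < P.X i + P.w; omega,
        by show P.Y i - P.h t i ≤ b; omega, h6⟩
    · obtain ⟨R, hR, hR2⟩ := (stair_has Q.W (P.X i) (P.Y i + 1) 1 one_pos a b).2
        ⟨h1, h6, by rw [Int.ediv_one, Int.ediv_one]; omega⟩
      exact ⟨R, sFT_mem hi hR, hR2⟩

end Pool.Agent.Lib.MP_7d5495_lc
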