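import Pool.Agent.Lib.MP_7d5495_lc.StairCells

/-!
# The tiles of one frame consist of cells of the polygon
-/

namespace Pool.Agent.Lib.MP_7d5495_lc

private theorem has_of_stair1 {T : BT} {x y : ℤ} {R : ZR} (hR : R ∈ stair T x y 1) {a b : ℤ}
    (h : R.Has a b) : x ≤ a ∧ y ≤ b ∧ (a - x) + (b - y) < T.size := by
  have := (stair_has T x y 1 (by norm_num) a b).1 ⟨R, hR, h⟩
  simpa using this

private theorem has_sIT {P : Par} {W : BT} {R : ZR} (hR : R ∈ P.sIT W) {a b : ℤ}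
    (h : R.Has a b) : a < P.D ∧ (P.D : ℤ) + P.B + 1 ≤ b ∧
      ((P.D : ℤ) - 1 - a) + (b - (P.D + P.B + 1)) < W.size := by
  simp only [Par.sIT, List.mem_map] at hR
  obtain ⟨R', hR', rfl⟩ := hR
  have h' : R'.Has (P.D - 1 - a) b := by
    obtain ⟨h1, h2, h3, h4⟩ := h
    simp only [ZR.flipX] at h1 h2 h3 h4
    exact ⟨by omega, by omega, h3, h4⟩
  have := has_of_stair1 hR' h'
  omega

private theorem has_sOT {P : Par} {W : BT} {R : ZR} (hR : R ∈ P.sOT W) {a b : ℤ}
    (h : R.Has a b) : b < P.D ∧ (P.D : ℤ) + P.B + 1 ≤ a ∧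
      ((P.D : ℤ) - 1 - b) + (a - (P.D + P.B + 1)) < W.size := by
  simp only [Par.sOT, List.mem_map] at hR
  obtain ⟨R', hR', rfl⟩ := hR
  have h' : R'.Has a (P.D - 1 - b) := by
    obtain ⟨h1, h2, h3, h4⟩ := h
    simp only [ZR.flipY] at h1 h2 h3 h4
    exact ⟨h1, h2, by omega, by omega⟩
  have := has_of_stair1 hR' h'
  rw [BT.size_mirror] at this
  omega

private theorem has_sC {P : Par} {S : BT} (hS : S.size = P.m) {R : ZR}
    (hR : R ∈ P.sC S) {a b : ℤ} (h : R.Has a b) : (P.D : ℤ) ≤ a ∧ (P.D : ℤ) ≤ b ∧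
      ∃ i < P.m, P.X i - P.D ≤ a ∧ a < P.X i ∧ b < P.Y i := by
  have hD := Par.D_pos (P := P)
  obtain ⟨h1, h2, h3⟩ := (stair_has S P.D P.D P.D hD a b).1 ⟨R, hR, h⟩
  rw [hS] at h3
  have e1 := Int.mul_ediv_add_emod (a - P.D) P.D
  have e2 := Int.emod_nonneg (a - P.D) hD.ne'
  have e3 := Int.emod_lt_of_pos (a - P.D) hD
  have f1 := Int.mul_ediv_add_emod (b - P.D) P.D
  have f2 := Int.emod_nonneg (b - P.D) hD.ne'
  have f3 := Int.emod_lt_of_pos (b - P.D) hD
  have g1 : 0 ≤ (a - P.D) / (P.D : ℤ) := Int.ediv_nonneg (by omega) hD.le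
  have g2 : 0 ≤ (b - P.D) / (P.D : ℤ) := Int.ediv_nonneg (by omega) hD.le
  refine ⟨h1, h2, ((a - P.D) / (P.D : ℤ)).toNat, by omega, ?_, ?_, ?_⟩
  · unfold Par.X
    have : (((a - P.D) / (P.D : ℤ)).toNat : ℤ) = (a - P.D) / (P.D : ℤ) := Int.toNat_of_nonneg g1
    rw [this]; nlinarith
  · unfold Par.X
    have : (((a - P.D) / (P.D : ℤ)).toNat : ℤ) = (a - P.D) / (P.D : ℤ) := Int.toNat_of_nonneg g1
    rw [this]; nlinarith
  · unfold Par.Y
    have : (((a - P.D) / (P.D : ℤ)).toNat : ℤ) = (a - P.D) / (P.D : ℤ) := Int.toNat_of_nonneg g1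
    rw [this]; nlinarith

theorem frame_sub {P : Par} {κ : ℕ} (hP : P.Ok κ) {cell : ℕ → ℤ → ℤ → Prop} (hz : Zones P cell)
    {Q : Fill} (hQ : FillOk P κ Q) {t : ℕ} (ht : t < P.N) {R : ZR} (hR : R ∈ P.frameTiles Q t)
    {a b : ℤ} (h : R.Has a b) : cell t a b ∧
      ((P.InE t a b ∧ ¬ (t + 1 < P.N ∧ (P.D : ℤ) ≤ a ∧ b < P.D - P.w)) ∨
       (R = P.tM t ∧ 1 ≤ t ∧ -(P.lam t : ℤ) - (P.D - P.w) ≤ a ∧ a < -(P.lam t : ℤ) ∧
        (P.D : ℤ) ≤ b ∧ b < P.D + P.B)) := by
  have hD := Par.D_eq (P := P)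
  have hΔ := Par.Δ_eq (P := P)
  have hDB := Par.D_le_B (P := P) hP.m_pos
  have hw := hP.w_ge
  have hl : (0 : ℤ) ≤ P.lam t := by positivity
  have hW := hQ.W_size
  unfold Par.InE
  rcases mem_frameTiles.1 hR with rfl | rfl | rfl | hR | hR | hR | ⟨i, hi, hR⟩ | ⟨hN, rfl⟩
  · -- the tile tM
    obtain ⟨h1, h2, h3, h4⟩ := h
    simp only [Par.tM] at h1 h2 h3 h4
    by_cases ha : -(P.lam t : ℤ) ≤ a
    · refine ⟨(hz.arm t ht a b ha (by omega) (by omega) (by omega)).2 (Or.inl ⟨h3, h4⟩), ?_⟩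
      left
      refine ⟨⟨ha, by omega, by omega, by omega⟩, by omega⟩
    · rcases Nat.eq_zero_or_pos t with rfl | htp
      · rw [if_pos rfl] at h1
        omega
      · rw [if_neg (by omega)] at h1
        obtain ⟨s, rfl⟩ : ∃ s, t = s + 1 := ⟨t - 1, by omega⟩
        refine ⟨?_, Or.inr ⟨rfl, htp, h1, by omega, h3, h4⟩⟩
        rw [hz.rot s a b]
        exact (hz.out s (by omega) b _ h3 (by omega) (by omega) (by omega)).2 (Or.inl h4)
  · -- the tile tIW
    obtain ⟨h1, h2, h3, h4⟩ := h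
    simp only [Par.tIW] at h1 h2 h3 h4
    refine ⟨(hz.arm t ht a b (by omega) (by omega) (by omega) (by omega)).2 (by omega), ?_⟩
    left
    refine ⟨⟨by omega, by omega, by omega, by omega⟩, by omega⟩
  · -- the tile tOW
    obtain ⟨h1, h2, h3, h4⟩ := h
    simp only [Par.tOW] at h1 h2 h3 h4
    refine ⟨(hz.out t ht a b (by omega) (by omega) (by omega) (by omega)).2 (by omega), ?_⟩
    left
    refine ⟨⟨by omega, by omega, by omega, by omega⟩, by omega⟩
  · -- the incoming pocket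
    obtain ⟨h1, h2, h3⟩ := has_sIT hR h
    refine ⟨(hz.arm t ht a b (by omega) (by omega) (by omega) (by omega)).2 (by omega), ?_⟩
    left
    refine ⟨⟨by omega, by omega, by omega, by omega⟩, by omega⟩
  · -- the outgoing pocket
    obtain ⟨h1, h2, h3⟩ := has_sOT hR h
    refine ⟨(hz.out t ht a b (by omega) (by omega) (by omega) (by omega)).2 (by omega), ?_⟩
    left
    refine ⟨⟨by omega, by omega, by omega, by omega⟩, by omega⟩
  · -- the corner
    obtain ⟨h1, h2, i, hi, h3, h4, h5⟩ := has_sC (hQ.sol.1.1 t ht) hR h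
    have hXi := Par.X_le (P := P) hi
    have hYi := Par.Y_le (P := P) i
    refine ⟨?_, Or.inl ⟨⟨by omega, by omega, by omega, by omega⟩, by omega⟩⟩
    rcases Nat.eq_zero_or_pos i with rfl | hip
    · have hX0 := Par.X_zero (P := P)
      have hY0 := Par.Y_zero (P := P)
      exact (hz.first t ht a b h1 (by omega) h2 (by omega)).2 (by omega)
    · obtain ⟨j, rfl⟩ : ∃ j, i = j + 1 := ⟨i - 1, by omega⟩
      have hXs := Par.X_succ (P := P) j
      have hYs := Par.Y_succ (P := P) j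
      exact (hz.fing t ht j (by omega) a b (by omega) (by omega) h2 (by omega)).2 (by omega)
  · -- the fingers
    have hXi := Par.X_le (P := P) hi
    have hYi := Par.Y_le (P := P) i
    have hXi' := Par.le_X (P := P) i
    have hYi' := Par.le_Y (P := P) hi
    have hh := hP.h_lt t i
    have hh' := hP.h_pos t i
    rcases hR with rfl | hR | hR
    · obtain ⟨h1, h2, h3, h4⟩ := h
      simp only [Par.tFW] at h1 h2 h3 h4
      refine ⟨(hz.fing t ht i hi a b (by omega) (by omega) (by omega) (by omega)).2 (by omega), ?_⟩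
      left
      refine ⟨⟨by omega, by omega, by omega, by omega⟩, by omega⟩
    · obtain ⟨h1, h2, h3⟩ := has_of_stair1 hR h
      refine ⟨(hz.fing t ht i hi a b (by omega) (by omega) (by omega) (by omega)).2 (by omega), ?_⟩
      left
      refine ⟨⟨by omega, by omega, by omega, by omega⟩, by omega⟩
    · obtain ⟨h1, h2, h3⟩ := has_of_stair1 hR h
      rw [hQ.E_size] at h3
      refine ⟨(hz.fing t ht i hi a b (by omega) (by omega) (by omega) (by omega)).2 (by omega), ?_⟩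
      left
      refine ⟨⟨by omega, by omega, by omega, by omega⟩, by omega⟩
  · -- the last tile
    obtain ⟨h1, h2, h3, h4⟩ := h
    simp only [Par.tEnd] at h1 h2 h3 h4
    refine ⟨(hz.out t ht a b (by omega) (by omega) (by omega) (by omega)).2 (by omega), ?_⟩
    left
    refine ⟨⟨by omega, by omega, by omega, by omega⟩, by omega⟩

theorem frame_pos {P : Par} {κ : ℕ} (hP : P.Ok κ) {Q : Fill} (hQ : FillOk P κ Q) {t : ℕ}
    {R : ZR} (hR : R ∈ P.frameTiles Q t) : R.x₁ < R.x₂ ∧ R.y₁ < R.y₂ := by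
  have hD := Par.D_eq (P := P)
  have hDB := Par.D_le_B (P := P) hP.m_pos
  have hw := hP.w_ge
  have hl : (0 : ℤ) ≤ P.lam t := by positivity
  rcases mem_frameTiles.1 hR with rfl | rfl | rfl | hR | hR | hR | ⟨i, hi, hR⟩ | ⟨hN, rfl⟩
  · simp only [Par.tM]
    split_ifs <;> omega
  · simp only [Par.tIW]; omega
  · simp only [Par.tOW]; omega
  · simp only [Par.sIT, List.mem_map] at hR
    obtain ⟨R', hR', rfl⟩ := hR
    have := stair_pos _ _ _ _ (by norm_num) hR'
    simp only [ZR.flipX]; omega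
  · simp only [Par.sOT, List.mem_map] at hR
    obtain ⟨R', hR', rfl⟩ := hR
    have := stair_pos _ _ _ _ (by norm_num) hR'
    simp only [ZR.flipY]; omega
  · exact stair_pos _ _ _ _ Par.D_pos hR
  · have hh := hP.h_lt t i
    have hh' := hP.h_pos t i
    rcases hR with rfl | hR | hR
    · simp only [Par.tFW]; omega
    · exact stair_pos _ _ _ _ (by norm_num) hR
    · exact stair_pos _ _ _ _ (by norm_num) hR
  · simp only [Par.tEnd]; omega

end Pool.Agent.Lib.MP_7d5495_lc
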