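import Pool.Agent.Lib.MP_7d5495_lc.StairCells

/-!
# The tiles of one frame are disjoint
-/

set_option autoImplicit false

namespace Pool.Agent.Lib.MP_7d5495_lc

namespace FrameUniq

theorem has_flipX {c a b : ℤ} {R : ZR} (h : (R.flipX c).Has a b) : R.Has (c - 1 - a) b := by
  obtain ⟨h1, h2, h3, h4⟩ := h
  simp only [ZR.flipX] at h1 h2 h3 h4
  exact ⟨by omega, by omega, h3, h4⟩

theorem has_flipY {c a b : ℤ} {R : ZR} (h : (R.flipY c).Has a b) : R.Has a (c - 1 - b) := by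
  obtain ⟨h1, h2, h3, h4⟩ := h
  simp only [ZR.flipY] at h1 h2 h3 h4
  exact ⟨h1, h2, by omega, by omega⟩

variable {P : Par} {κ : ℕ} {Q : Fill} {t : ℕ} {R R' : ZR} {a b : ℤ}

theorem sIT_zone (h : R ∈ P.sIT Q.W) (hR : R.Has a b) : a < P.D ∧ (P.D : ℤ) + P.B + 1 ≤ b := by
  obtain ⟨R₀, h1, rfl⟩ := List.mem_map.mp h
  have h2 := (stair_has Q.W _ _ 1 one_pos _ _).mp ⟨R₀, h1, has_flipX hR⟩
  omega

theorem sIT_uniq (h : R ∈ P.sIT Q.W) (h' : R' ∈ P.sIT Q.W) (hR : R.Has a b)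
    (hR' : R'.Has a b) : R = R' := by
  obtain ⟨R₀, h1, rfl⟩ := List.mem_map.mp h
  obtain ⟨R₁, h2, rfl⟩ := List.mem_map.mp h'
  rw [stair_uniq Q.W _ _ 1 one_pos h1 h2 (has_flipX hR) (has_flipX hR')]

theorem sOT_zone (h : R ∈ P.sOT Q.W) (hR : R.Has a b) : b < P.D ∧ (P.D : ℤ) + P.B + 1 ≤ a := by
  obtain ⟨R₀, h1, rfl⟩ := List.mem_map.mp h
  have h2 := (stair_has Q.W.mirror _ _ 1 one_pos _ _).mp ⟨R₀, h1, has_flipY hR⟩
  omega

theorem sOT_uniq (h : R ∈ P.sOT Q.W) (h' : R' ∈ P.sOT Q.W) (hR : R.Has a b)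
    (hR' : R'.Has a b) : R = R' := by
  obtain ⟨R₀, h1, rfl⟩ := List.mem_map.mp h
  obtain ⟨R₁, h2, rfl⟩ := List.mem_map.mp h'
  rw [stair_uniq Q.W.mirror _ _ 1 one_pos h1 h2 (has_flipY hR) (has_flipY hR')]

theorem sFT_zone (hQ : FillOk P κ Q) {i : ℕ} (h : R ∈ P.sFT Q.W i) (hR : R.Has a b) :
    P.X i ≤ a ∧ a < P.X i + P.w ∧ P.Y i + 1 ≤ b := by
  have h2 := (stair_has Q.W _ _ 1 one_pos _ _).mp ⟨R, h, hR⟩
  have h3 := hQ.W_size
  simp only [Int.ediv_one] at h2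
  omega

theorem sFE_zone (hQ : FillOk P κ Q) {i : ℕ} (h : R ∈ P.sFE (Q.E t i) t i) (hR : R.Has a b) :
    P.X i + P.w ≤ a ∧ a < P.X i + P.w + P.h t i ∧ P.Y i - P.h t i ≤ b ∧ b < P.Y i := by
  have h2 := (stair_has (Q.E t i) _ _ 1 one_pos _ _).mp ⟨R, h, hR⟩
  have h3 := hQ.E_size t i
  simp only [Int.ediv_one] at h2
  omega

/-- membership in the finger `i` -/
def Fing (P : Par) (Q : Fill) (t i : ℕ) (R : ZR) : Prop :=
  R = P.tFW t i ∨ R ∈ P.sFT Q.W i ∨ R ∈ P.sFE (Q.E t i) t i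

theorem fing_uniq (hQ : FillOk P κ Q) {i : ℕ} (h : Fing P Q t i R) (h' : Fing P Q t i R')
    (hR : R.Has a b) (hR' : R'.Has a b) : R = R' := by
  rcases h with h | h | h
  · rcases h' with h' | h' | h'
    · rw [h, h']
    · have e1 := sFT_zone hQ h' hR'
      rw [h] at hR
      obtain ⟨a1, a2, a3, a4⟩ := hR
      simp only [Par.tFW] at a1 a2 a3 a4
      omega
    · have e1 := sFE_zone hQ h' hR'
      rw [h] at hR
      obtain ⟨a1, a2, a3, a4⟩ := hR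
      simp only [Par.tFW] at a1 a2 a3 a4
      omega
  · have e1 := sFT_zone hQ h hR
    rcases h' with h' | h' | h'
    · rw [h'] at hR'
      obtain ⟨a1, a2, a3, a4⟩ := hR'
      simp only [Par.tFW] at a1 a2 a3 a4
      omega
    · exact stair_uniq Q.W _ _ 1 one_pos h h' hR hR'
    · have e2 := sFE_zone hQ h' hR'
      omega
  · have e1 := sFE_zone hQ h hR
    rcases h' with h' | h' | h'
    · rw [h'] at hR'
      obtain ⟨a1, a2, a3, a4⟩ := hR'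
      simp only [Par.tFW] at a1 a2 a3 a4
      omega
    · have e2 := sFT_zone hQ h' hR'
      omega
    · exact stair_uniq _ _ _ 1 one_pos h h' hR hR'

theorem fing_zone (hP : P.Ok κ) (hQ : FillOk P κ Q) {i : ℕ} (hi : i < P.m)
    (h : Fing P Q t i R) (hR : R.Has a b) :
    P.X i ≤ a ∧ a < P.X i + P.D ∧ (P.D : ℤ) ≤ b ∧ (P.D : ℤ) ≤ a ∧
      (P.m : ℤ) ≤ (a - P.D) / P.D + (b - P.D) / P.D := by
  have hD := Par.D_pos (P := P)
  have hD2 := Par.D_eq (P := P)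
  have hh := hP.h_lt t i
  have hY := Par.le_Y (P := P) hi
  have hX := Par.le_X (P := P) i
  have key : P.X i ≤ a ∧ a < P.X i + P.D ∧ P.Y i - P.h t i ≤ b := by
    rcases h with h | h | h
    · rw [h] at hR
      obtain ⟨a1, a2, a3, a4⟩ := hR
      simp only [Par.tFW] at a1 a2 a3 a4
      omega
    · have e1 := sFT_zone hQ h hR
      omega
    · have e1 := sFE_zone hQ h hR
      omega
  obtain ⟨k1, k2, k3⟩ := key
  refine ⟨k1, k2, by omega, by omega, ?_⟩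
  have h1 : (i : ℤ) + 1 ≤ (a - P.D) / P.D := by
    rw [Int.le_ediv_iff_mul_le hD]
    have : P.X i = ((i : ℤ) + 2) * P.D := rfl
    nlinarith
  have h2 : (P.m : ℤ) - i - 1 ≤ (b - P.D) / P.D := by
    rw [Int.le_ediv_iff_mul_le hD]
    have : P.Y i = ((P.m : ℤ) + 1 - i) * P.D := rfl
    have h3 : P.Y i - P.D ≤ b := by omega
    nlinarith
  omega

/-- the zone of a tile -/
theorem classify (hP : P.Ok κ) (hQ : FillOk P κ Q) (ht : t < P.N) (hR : R ∈ P.frameTiles Q t)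
    (h : R.Has a b) :
    (a < P.D - P.w ∧ (P.D : ℤ) ≤ b ∧ b < P.D + P.B ∧ R = P.tM t) ∨
    ((P.D : ℤ) - P.w ≤ a ∧ a < P.D ∧ (P.D : ℤ) ≤ b ∧ b < P.D + P.B + 1 ∧ R = P.tIW) ∨
    ((P.D : ℤ) ≤ a ∧ a < P.D + P.B + 1 ∧ (P.D : ℤ) - P.w ≤ b ∧ b < P.D ∧ R = P.tOW) ∨
    (a < P.D ∧ (P.D : ℤ) + P.B + 1 ≤ b ∧ R ∈ P.sIT Q.W) ∨
    (b < P.D ∧ (P.D : ℤ) + P.B + 1 ≤ a ∧ R ∈ P.sOT Q.W) ∨
    ((P.D : ℤ) ≤ a ∧ (P.D : ℤ) ≤ b ∧ (a - P.D) / P.D + (b - P.D) / P.D < P.m ∧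
      R ∈ P.sC (Q.S t)) ∨
    (∃ i < P.m, P.X i ≤ a ∧ a < P.X i + P.D ∧ (P.D : ℤ) ≤ b ∧ (P.D : ℤ) ≤ a ∧
      (P.m : ℤ) ≤ (a - P.D) / P.D + (b - P.D) / P.D ∧ Fing P Q t i R) ∨
    ((P.D : ℤ) ≤ a ∧ a < P.D + P.B ∧ b < P.D - P.w ∧ R = P.tEnd) := by
  have hD := Par.D_pos (P := P)
  rcases mem_frameTiles.mp hR with e | e | e | e | e | e | ⟨i, hi, e⟩ | ⟨hN, e⟩
  · left
    rw [e] at h
    obtain ⟨a1, a2, a3, a4⟩ := h
    simp only [Par.tM] at a1 a2 a3 a4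
    exact ⟨a2, a3, a4, e⟩
  · right; left
    rw [e] at h
    obtain ⟨a1, a2, a3, a4⟩ := h
    simp only [Par.tIW] at a1 a2 a3 a4
    exact ⟨a1, a2, a3, a4, e⟩
  · right; right; left
    rw [e] at h
    obtain ⟨a1, a2, a3, a4⟩ := h
    simp only [Par.tOW] at a1 a2 a3 a4
    exact ⟨a1, a2, a3, a4, e⟩
  · right; right; right; left
    obtain ⟨h1, h2⟩ := sIT_zone e h
    exact ⟨h1, h2, e⟩
  · right; right; right; right; left
    obtain ⟨h1, h2⟩ := sOT_zone e h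
    exact ⟨h1, h2, e⟩
  · right; right; right; right; right; left
    have h2 := (stair_has (Q.S t) _ _ _ hD _ _).mp ⟨R, e, h⟩
    have h3 := hQ.sol.1.1 t ht
    rw [h3] at h2
    exact ⟨h2.1, h2.2.1, h2.2.2, e⟩
  · right; right; right; right; right; right; left
    obtain ⟨h1, h2, h3, h4, h5⟩ := fing_zone hP hQ hi e h
    exact ⟨i, hi, h1, h2, h3, h4, h5, e⟩
  · right; right; right; right; right; right; right
    rw [e] at h
    obtain ⟨a1, a2, a3, a4⟩ := h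
    simp only [Par.tEnd] at a1 a2 a3 a4
    exact ⟨a1, a2, a4, e⟩

end FrameUniq

open FrameUniq in
theorem frame_uniq {P : Par} {κ : ℕ} (hP : P.Ok κ) {Q : Fill} (hQ : FillOk P κ Q) {t : ℕ}
    (ht : t < P.N) {R R' : ZR} (hR : R ∈ P.frameTiles Q t) (hR' : R' ∈ P.frameTiles Q t)
    {a b : ℤ} (h : R.Has a b) (h' : R'.Has a b) : R = R' := by
  have hD := Par.D_pos (P := P)
  have hD2 := Par.D_eq (P := P)
  rcases classify hP hQ ht hR h with ⟨c1, c2, c3, e⟩ | ⟨c1, c2, c3, c4, e⟩ | ⟨c1, c2, c3, c4, e⟩ |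
    ⟨c1, c2, e⟩ | ⟨c1, c2, e⟩ | ⟨c1, c2, c3, e⟩ | ⟨i, hi, c1, c2, c3, c4, c5, e⟩ | ⟨c1, c2, c3, e⟩
  all_goals
    rcases classify hP hQ ht hR' h' with ⟨d1, d2, d3, e'⟩ | ⟨d1, d2, d3, d4, e'⟩ |
      ⟨d1, d2, d3, d4, e'⟩ | ⟨d1, d2, e'⟩ | ⟨d1, d2, e'⟩ | ⟨d1, d2, d3, e'⟩ |
      ⟨j, hj, d1, d2, d3, d4, d5, e'⟩ | ⟨d1, d2, d3, e'⟩
  all_goals first
    | (exfalso; omega)
    | (rw [e, e'])
    | exact sIT_uniq e e' h h'
    | exact sOT_uniq e e' h h'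
    | exact stair_uniq _ _ _ _ hD e e' h h'
    | (rcases lt_trichotomy i j with hij | hij | hij
       · have := Par.X_mono (P := P) hij
         exfalso; omega
       · subst hij
         exact fing_uniq hQ e e' h h'
       · have := Par.X_mono (P := P) hij
         exfalso; omega)

end Pool.Agent.Lib.MP_7d5495_lc
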