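import Mathlib

/-!
# Binary search trees and their loads

A tree with `n` nodes is regarded as a binary search tree on the keys `0, …, n - 1` (in-order).
`T.L j` is the number of ancestors of the key `j` that are larger than `j`, `T.U j` the number of
ancestors of `j` that are smaller than `j`.
-/

namespace Pool.Agent.Lib.MP_7d5495_lc

/-- binary trees -/
inductive BT : Type
  | nil : BT
  | node : BT → BT → BT
  deriving DecidableEq

namespace BT

/-- number of nodes -/
def size : BT → ℕ
  | nil => 0
  | node l r => l.size + 1 + r.size

/-- number of larger ancestors of the key `j` -/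
def L : BT → ℕ → ℕ
  | nil, _ => 0
  | node l r, j => if j < l.size then L l j + 1 else if j = l.size then 0
      else L r (j - l.size - 1)

/-- number of smaller ancestors of the key `j` -/
def U : BT → ℕ → ℕ
  | nil, _ => 0
  | node l r, j => if j < l.size then U l j else if j = l.size then 0
      else U r (j - l.size - 1) + 1

/-- the mirror image -/
def mirror : BT → BT
  | nil => nil
  | node l r => node r.mirror l.mirror

@[simp] theorem size_nil : nil.size = 0 := rfl
@[simp] theorem size_node (l r : BT) : (node l r).size = l.size + 1 + r.size := rfl

@[simp] theorem size_mirror (T : BT) : T.mirror.size = T.size := by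
  induction T with
  | nil => rfl
  | node l r ihl ihr => simp only [mirror, size_node, ihl, ihr]; omega

theorem L_left {l r : BT} {j : ℕ} (h : j < l.size) : (node l r).L j = l.L j + 1 := by
  simp [L, h]

theorem L_root {l r : BT} : (node l r).L l.size = 0 := by simp [L]

theorem L_right {l r : BT} {j : ℕ} (h : l.size < j) :
    (node l r).L j = r.L (j - l.size - 1) := by
  simp [L, show ¬ j < l.size by omega, show j ≠ l.size by omega]

theorem U_left {l r : BT} {j : ℕ} (h : j < l.size) : (node l r).U j = l.U j := by
  simp [U, h]

theorem U_root {l r : BT} : (node l r).U l.size = 0 := by simp [U]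

theorem U_right {l r : BT} {j : ℕ} (h : l.size < j) :
    (node l r).U j = r.U (j - l.size - 1) + 1 := by
  simp [U, show ¬ j < l.size by omega, show j ≠ l.size by omega]

theorem L_mirror (T : BT) {j : ℕ} (h : j < T.size) : T.mirror.L (T.size - 1 - j) = T.U j := by
  induction T generalizing j with
  | nil => simp at h
  | node l r ihl ihr =>
    simp only [size_node] at h
    rcases lt_trichotomy j l.size with h1 | h1 | h1
    · have e : (node l r).size - 1 - j = r.size + 1 + (l.size - 1 - j) := by
        simp only [size_node]; omega
      rw [e, U_left h1, ← ihl h1]
      simp only [mirror]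
      rw [L_right (by simp; omega)]
      congr 1
      simp; omega
    · subst h1
      have e : (node l r).size - 1 - l.size = r.mirror.size := by
        simp only [size_node, size_mirror]; omega
      rw [e, U_root]
      simp only [mirror]
      exact L_root
    · have e : (node l r).size - 1 - j = r.size - 1 - (j - l.size - 1) := by
        simp only [size_node]; omega
      rw [e, U_right h1, ← ihr (by omega)]
      simp only [mirror]
      rw [L_left (by simp; omega)]

theorem U_mirror (T : BT) {j : ℕ} (h : j < T.size) : T.mirror.U (T.size - 1 - j) = T.L j := by
  induction T generalizing j with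
  | nil => simp at h
  | node l r ihl ihr =>
    simp only [size_node] at h
    rcases lt_trichotomy j l.size with h1 | h1 | h1
    · have e : (node l r).size - 1 - j = r.size + 1 + (l.size - 1 - j) := by
        simp only [size_node]; omega
      rw [e, L_left h1, ← ihl h1]
      simp only [mirror]
      rw [U_right (by simp; omega)]
      congr 2
      simp; omega
    · subst h1
      have e : (node l r).size - 1 - l.size = r.mirror.size := by
        simp only [size_node, size_mirror]; omega
      rw [e, L_root]
      simp only [mirror]
      exact U_root
    · have e : (node l r).size - 1 - j = r.size - 1 - (j - l.size - 1) := by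
        simp only [size_node]; omega
      rw [e, L_right h1, ← ihr (by omega)]
      simp only [mirror]
      rw [U_left (by simp; omega)]

theorem mirror_mirror (T : BT) : T.mirror.mirror = T := by
  induction T with
  | nil => rfl
  | node l r ihl ihr => simp [mirror, ihl, ihr]

end BT

/-- The chain problem without the caps of the last corridor: `N` trees with `m` keys, neighbouring
trees are coupled alternately by the numbers of smaller and of larger ancestors. -/
def ChainPre (N m : ℕ) (K : ℕ → ℕ → ℕ) (T : ℕ → BT) : Prop :=
  (∀ t < N, (T t).size = m) ∧ (∀ j < m, (T 0).L j ≤ K 0 j) ∧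
  (∀ t, t + 1 < N → ∀ j < m, (if t % 2 = 0 then (T t).U j + (T (t + 1)).U j
    else (T t).L j + (T (t + 1)).L j) ≤ K (t + 1) j)

/-- The chain problem. -/
def ChainSol (N m : ℕ) (K : ℕ → ℕ → ℕ) (T : ℕ → BT) : Prop :=
  ChainPre N m K T ∧ ∀ j < m, (T (N - 1)).L j ≤ K N j

end Pool.Agent.Lib.MP_7d5495_lc
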