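import Pool.Agent.Lib.MP_7d5495_lc.Defs
import Pool.Agent.Lib.MP_7d5495_lc.Tree

/-!
# The polygon of a chain instance

A box is `((x₁, x₂), (y₁, y₂))` with natural numbers.  The polygon is described by a list of pairs
`(box, side)`; every box but the first is glued along one of its sides (`0` bottom, `1` right,
`2` top, `3` left) to the union of the earlier boxes.  The boundary is computed by `bdry`, the
list of vertices of the polygon is `vertices`.
-/

namespace Pool.Agent.Lib.MP_7d5495_lc

/-- a box `((x₁, x₂), (y₁, y₂))` -/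
abbrev Bx := (ℕ × ℕ) × (ℕ × ℕ)

/-- the box `[x₁, x₂] × [y₁, y₂]` -/
def bx (x₁ x₂ y₁ y₂ : ℕ) : Bx := ((x₁, x₂), (y₁, y₂))

/-! ### the boundary of a union of boxes -/

/-- The corners of a box, counterclockwise: `0` lower left, `1` lower right, `2` upper right,
`3` upper left. -/
def cor (R : Bx) (s : ℕ) : ℕ × ℕ :=
  if s % 4 = 0 then (R.1.1, R.2.1) else if s % 4 = 1 then (R.1.2, R.2.1)
  else if s % 4 = 2 then (R.1.2, R.2.2) else (R.1.1, R.2.2)

/-- The lattice points of the side `s` of a box, counterclockwise, with the first corner `cor R s`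
and without the last corner `cor R (s + 1)`. -/
def side (R : Bx) (s : ℕ) : List (ℕ × ℕ) :=
  if s % 4 = 0 then (List.range (R.1.2 - R.1.1)).map (fun i => (R.1.1 + i, R.2.1))
  else if s % 4 = 1 then (List.range (R.2.2 - R.2.1)).map (fun i => (R.1.2, R.2.1 + i))
  else if s % 4 = 2 then (List.range (R.1.2 - R.1.1)).map (fun i => (R.1.2 - i, R.2.2))
  else (List.range (R.2.2 - R.2.1)).map (fun i => (R.1.1, R.2.2 - i))

/-- glue the box `R` along its side `s` -/
def attach (l : List (ℕ × ℕ)) (Rs : Bx × ℕ) : List (ℕ × ℕ) :=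
  l.flatMap fun p =>
    if p = cor Rs.1 (Rs.2 + 1) then side Rs.1 (Rs.2 + 1) ++ side Rs.1 (Rs.2 + 2) ++
      side Rs.1 (Rs.2 + 3)
    else if p ∈ (side Rs.1 Rs.2).tail then [] else [p]

/-- the lattice points of the boundary of the union, counterclockwise -/
def bdry : List (Bx × ℕ) → List (ℕ × ℕ)
  | [] => []
  | Rs :: rs => rs.foldl attach (side Rs.1 0 ++ side Rs.1 1 ++ side Rs.1 2 ++ side Rs.1 3)

/-- the corners of a closed lattice path -/
def corners (l : List (ℕ × ℕ)) : List (ℕ × ℕ) :=
  (List.range l.length).flatMap fun i =>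
    let a := l.getD ((i + l.length - 1) % l.length) (0, 0)
    let b := l.getD i (0, 0)
    let c := l.getD ((i + 1) % l.length) (0, 0)
    if (a.1 = b.1 ∧ b.1 = c.1) ∨ (a.2 = b.2 ∧ b.2 = c.2) then [] else [b]

/-- the vertices of the union of the boxes -/
def vertices (rs : List (Bx × ℕ)) : List (ℚ × ℚ) :=
  (corners (bdry rs)).map fun p => ((p.1 : ℚ), (p.2 : ℚ))

/-! ### the boxes of one square

The corridor of the square enters from the left in the rows `D ≤ q < D + m * D`, ends at the
staircase with `m` steps of size `D`, and leaves downwards in the columns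
`L + D ≤ p < L + D + m * D`.  Here `L` is the length of the additional straight piece in front of
the square. -/

/-- a pocket on top of the segment from `(x - w, y)` to `(x, y)` with a vertical side at `x` -/
def pocketL (x y w : ℕ) : List (Bx × ℕ) :=
  (List.range w).map fun j => (bx (x - (w - j)) x (y + j) (y + j + 1), 0)

/-- a pocket on top of the segment from `(x, y)` to `(x + w, y)` with a vertical side at `x` -/
def pocketR (x y w : ℕ) : List (Bx × ℕ) :=
  (List.range w).map fun j => (bx x (x + (w - j)) (y + j) (y + j + 1), 0)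

/-- a pocket on the right of the segment from `(x, y - w)` to `(x, y)` with a horizontal side at
`y` -/
def pocketD (x y w : ℕ) : List (Bx × ℕ) :=
  (List.range w).map fun j => (bx (x + j) (x + j + 1) (y - (w - j)) y, 3)

/-- a pocket on the right of the segment from `(x, y - h)` to `(x, y)` with a horizontal side at
`y - h` -/
def pocketU (x y h : ℕ) : List (Bx × ℕ) :=
  (List.range h).map fun j => (bx (x + j) (x + j + 1) (y - h) (y - j), 3)

/-- the finger of the key `i` -/
def finger (L D m w h i : ℕ) : List (Bx × ℕ) :=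
  [(bx (L + (i + 2) * D) (L + (i + 2) * D + w) ((m + 1 - i) * D - h) ((m + 1 - i) * D), 3)] ++
    pocketR (L + (i + 2) * D) ((m + 1 - i) * D) w ++
    pocketU (L + (i + 2) * D + w) ((m + 1 - i) * D) h

/-- The boxes of one bend with `m` keys: `D` the size of the steps, `w` the size of the pockets,
`h i` the size of the end pocket of the key `i`. -/
def bend (L D m w : ℕ) (h : ℕ → ℕ) : List (Bx × ℕ) :=
  [(bx 0 (L + D) D (D + m * D), 3)] ++
  (List.range m).map (fun i => (bx (L + (i + 1) * D) (L + (i + 2) * D) D ((m + 1 - i) * D), 3)) ++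
  pocketL (L + D) (D + m * D) w ++
  [(bx (L + D) (L + D + m * D) 0 D, 2)] ++
  pocketD (L + D + m * D) D w ++
  (List.range m).flatMap (fun i => finger L D m w (h i) i)

/-! ### placing the squares -/

/-- Place a box of the square number `t` into the plane: `Δ` is the side of the squares, `O` the
coordinate of the origin of the first square. -/
def place (O Δ t : ℕ) (Rs : Bx × ℕ) : Bx × ℕ :=
  let r := t / 4
  let R := Rs.1
  (if t % 4 = 0 then
    bx (O + R.1.1 - 2 * r * Δ) (O + R.1.2 - 2 * r * Δ) (O + 2 * r * Δ + R.2.1)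
      (O + 2 * r * Δ + R.2.2)
  else if t % 4 = 1 then
    bx (O + 2 * r * Δ + R.2.1) (O + 2 * r * Δ + R.2.2) (O + 2 * r * Δ - R.1.2)
      (O + 2 * r * Δ - R.1.1)
  else if t % 4 = 2 then
    bx (O + 2 * r * Δ - R.1.2) (O + 2 * r * Δ - R.1.1) (O - (2 * r + 1) * Δ - R.2.2)
      (O - (2 * r + 1) * Δ - R.2.1)
  else
    bx (O - (2 * r + 2) * Δ - R.2.2) (O - (2 * r + 2) * Δ - R.2.1) (O + R.1.1 - (2 * r + 1) * Δ)
      (O + R.1.2 - (2 * r + 1) * Δ), Rs.2 + 3 * t)

/-- All boxes: `N` bends, `m` keys, pocket size `w`, end pockets of size `h t i`. -/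
def boxes (N m w : ℕ) (h : ℕ → ℕ → ℕ) : List (Bx × ℕ) :=
  let D := 2 * w + 2
  let Δ := (m + 2) * D
  (List.range N).flatMap fun t => (bend (t * Δ) D m w (h t)).map (place ((N + 4) * Δ) Δ t)

end Pool.Agent.Lib.MP_7d5495_lc
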