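import Pool.Agent.Lib.MP_7d5495_lc.BendDefs

/-!
# The boxes of one bend can be glued one after the other
-/

set_option autoImplicit false

namespace Pool.Agent.Lib.MP_7d5495_lc

namespace GoodBend

theorem goodFrom_map_range (prev : List (Bx × ℕ)) (f : ℕ → Bx × ℕ) (n : ℕ)
    (h : ∀ j < n, OkAtt (prev ++ (List.range j).map f) (f j)) :
    GoodFrom prev ((List.range n).map f) := by
  induction n with
  | zero => simp [GoodFrom]
  | succ n ih =>
    rw [List.range_succ, List.map_append, goodFrom_append]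
    refine ⟨ih (fun j hj => h j (by omega)), ?_⟩
    simpa [GoodFrom] using h n (by omega)

theorem goodFrom_flatMap_range (prev : List (Bx × ℕ)) (f : ℕ → List (Bx × ℕ)) (n : ℕ)
    (h : ∀ j < n, GoodFrom (prev ++ (List.range j).flatMap f) (f j)) :
    GoodFrom prev ((List.range n).flatMap f) := by
  induction n with
  | zero => simp [GoodFrom]
  | succ n ih =>
    rw [List.range_succ, List.flatMap_append, goodFrom_append]
    refine ⟨ih (fun j hj => h j (by omega)), ?_⟩
    simpa using h n (by omega)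

theorem X_mono' {D i j : ℕ} (h : i < j) : (i + 2) * D + D ≤ (j + 2) * D := by
  have h1 : (i + 3) * D ≤ (j + 2) * D := Nat.mul_le_mul_right D (by omega)
  have h2 : (i + 3) * D = (i + 2) * D + D := by ring
  omega

theorem X_pred (D i : ℕ) : (i + 1) * D + D = (i + 2) * D := by ring

theorem X_low (D i : ℕ) : 2 * D ≤ (i + 2) * D := Nat.mul_le_mul_right D (by omega)

theorem X_up {D i m : ℕ} (h : i < m) : (i + 2) * D ≤ D + m * D := by
  have h1 : (i + 2) * D ≤ (m + 1) * D := Nat.mul_le_mul_right D (by omega)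
  have h2 : (m + 1) * D = m * D + D := by ring
  omega

theorem Y_low {D i m : ℕ} (h : i < m) : 2 * D ≤ (m + 1 - i) * D :=
  Nat.mul_le_mul_right D (by omega)

theorem Y_up (D i m : ℕ) : (m + 1 - i) * D ≤ D + m * D := by
  have h1 : (m + 1 - i) * D ≤ (m + 1) * D := Nat.mul_le_mul_right D (by omega)
  have h2 : (m + 1) * D = m * D + D := by ring
  omega

theorem Y_mono' {D i j m : ℕ} (h : i < j) (hj : j < m) :
    (m + 1 - j) * D + D ≤ (m + 1 - i) * D := by
  have h1 : (m + 1 - j + 1) * D ≤ (m + 1 - i) * D := Nat.mul_le_mul_right D (by omega)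
  have h2 : (m + 1 - j + 1) * D = (m + 1 - j) * D + D := by ring
  omega

theorem B_low {D m : ℕ} (hm : 1 ≤ m) : D ≤ m * D := by
  have := Nat.mul_le_mul_right D hm
  omega

/-- the boxes before the fingers -/
def pre (L D m w : ℕ) : List (Bx × ℕ) :=
  [(bx 0 (L + D) D (D + m * D), 3)] ++
    ((List.range m).map (fun i => (bx (L + (i + 1) * D) (L + (i + 2) * D) D ((m + 1 - i) * D), 3))
      ++ pocketL (L + D) (D + m * D) w ++ [(bx (L + D) (L + D + m * D) 0 D, 2)] ++
      pocketD (L + D + m * D) D w)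

theorem old {L D m w : ℕ} {h : ℕ → ℕ} (hD : D = 2 * w + 2) (hh' : ∀ i, h i + 1 ≤ w) {i : ℕ}
    (hi : i < m) {Q : Bx × ℕ}
    (hQ : Q ∈ pre L D m w ++ (List.range i).flatMap (fun i => finger L D m w (h i) i)) :
    (Q.1.1.2 ≤ L + (i + 2) * D ∧ Q.1.2.2 ≤ (m + 1 - i) * D) ∨ Q.1.1.2 < L + (i + 2) * D ∨
      Q.1.2.2 < (m + 1 - i) * D - h i := by
  have hxi := X_low D i
  have hyi := Y_low (D := D) hi
  have hhi := hh' i
  simp only [pre, List.mem_append, List.mem_singleton, List.mem_map, List.mem_range, pocketL,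
    pocketD, List.mem_flatMap, finger, pocketR, pocketU] at hQ
  rcases hQ with (rfl | (((⟨j, hj, rfl⟩ | ⟨j, hj, rfl⟩) | rfl) | ⟨j, hj, rfl⟩)) |
    ⟨i', hi', (rfl | ⟨j, hj, rfl⟩) | ⟨j, hj, rfl⟩⟩
  · simp only [bx]
    omega
  · simp only [bx]
    rcases lt_trichotomy j i with h1 | h1 | h1
    · have := X_mono' (D := D) h1
      omega
    · subst h1
      omega
    · have := Y_mono' (D := D) h1 hj
      omega
  · simp only [bx]
    omega
  · simp only [bx]
    omega
  · simp only [bx]
    omega
  · simp only [bx]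
    have := X_mono' (D := D) hi'
    omega
  · simp only [bx]
    have := X_mono' (D := D) hi'
    omega
  · simp only [bx]
    have := X_mono' (D := D) hi'
    have := hh' i'
    omega

theorem beyond0 {R Q : Bx} (h : Q.2.2 ≤ R.2.1) : Beyond 0 R Q := Or.inl ⟨rfl, h⟩

theorem beyond2 {R Q : Bx} (h : R.2.2 ≤ Q.2.1) : Beyond 2 R Q := Or.inr (Or.inr (Or.inl ⟨rfl, h⟩))

theorem beyond3 {R Q : Bx} (h : Q.1.2 ≤ R.1.1) : Beyond 3 R Q :=
  Or.inr (Or.inr (Or.inr ⟨rfl, h⟩))

theorem backed0 {C : ℤ → ℤ → Prop} {R : Bx}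
    (h : ∀ a : ℤ, (R.1.1 : ℤ) ≤ a → a < R.1.2 → C a ((R.2.1 : ℤ) - 1)) : Backed C 0 R :=
  ⟨fun _ => h, fun h => absurd h (by decide), fun h => absurd h (by decide),
    fun h => absurd h (by decide)⟩

theorem backed2 {C : ℤ → ℤ → Prop} {R : Bx}
    (h : ∀ a : ℤ, (R.1.1 : ℤ) ≤ a → a < R.1.2 → C a R.2.2) : Backed C 2 R :=
  ⟨fun h => absurd h (by decide), fun h => absurd h (by decide), fun _ => h,
    fun h => absurd h (by decide)⟩

theorem backed3 {C : ℤ → ℤ → Prop} {R : Bx}
    (h : ∀ b : ℤ, (R.2.1 : ℤ) ≤ b → b < R.2.2 → C ((R.1.1 : ℤ) - 1) b) : Backed C 3 R :=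
  ⟨fun h => absurd h (by decide), fun h => absurd h (by decide), fun h => absurd h (by decide),
    fun _ => h⟩

theorem mem_cells {l : List (Bx × ℕ)} {x₁ x₂ y₁ y₂ s : ℕ} {a b : ℤ}
    (h : (bx x₁ x₂ y₁ y₂, s) ∈ l) (h1 : (x₁ : ℤ) ≤ a) (h2 : a < x₂) (h3 : (y₁ : ℤ) ≤ b)
    (h4 : b < y₂) : boxCells l a b := ⟨_, h, h1, h2, h3, h4⟩

/-- the columns of the corner -/
def cols (L D m i : ℕ) : List (Bx × ℕ) := (List.range i).map
  (fun i => (bx (L + (i + 1) * D) (L + (i + 2) * D) D ((m + 1 - i) * D), 3))

theorem mem_cols {L D m i j : ℕ} (h : j < i) :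
    (bx (L + (j + 1) * D) (L + (j + 2) * D) D ((m + 1 - j) * D), 3) ∈ cols L D m i :=
  List.mem_map.2 ⟨j, List.mem_range.2 h, rfl⟩

theorem col_ok {L D m w : ℕ} (hD : D = 2 * w + 2) {i : ℕ} (hi : i < m) :
    OkAtt ([(bx 0 (L + D) D (D + m * D), 3)] ++ cols L D m i)
      (bx (L + (i + 1) * D) (L + (i + 2) * D) D ((m + 1 - i) * D), 3) := by
  have hxi := X_low D i
  have hxp := X_pred D i
  have hyi := Y_low (D := D) hi
  have hyu := Y_up D i m
  refine ⟨?_, ?_, ?_⟩
  · simp only [NonE, bx]
    omega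
  · intro Q hQ
    left
    simp only [List.mem_append, List.mem_singleton, List.mem_map, List.mem_range, cols] at hQ
    apply beyond3
    rcases hQ with rfl | ⟨j, hj, rfl⟩
    · simp only [bx]
      omega
    · have := X_mono' (D := D) hj
      simp only [bx]
      omega
  · apply backed3
    simp only [bx]
    intro b hb1 hb2
    rcases Nat.eq_zero_or_pos i with h0 | h0
    · subst h0
      refine mem_cells (List.mem_append_left _ (List.mem_singleton_self _)) ?_ ?_ ?_ ?_
      · omega
      · omega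
      · omega
      · omega
    · refine mem_cells (List.mem_append_right _ (mem_cols (show i - 1 < i by omega))) ?_ ?_ ?_ ?_
      · have hp := X_pred D (i - 1)
        have e1 : i - 1 + 2 = i + 1 := by omega
        rw [e1] at hp
        omega
      · have e1 : i - 1 + 2 = i + 1 := by omega
        rw [e1]
        omega
      · omega
      · have hy := Y_mono' (D := D) (m := m) (show i - 1 < i by omega) hi
        omega

/-! ### pockets -/

theorem boxCells_left {l₁ l₂ : List (Bx × ℕ)} {a b : ℤ} (h : boxCells l₁ a b) :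
    boxCells (l₁ ++ l₂) a b := by
  obtain ⟨R, hR, h1⟩ := h
  exact ⟨R, List.mem_append_left _ hR, h1⟩

theorem boxCells_right {l₁ l₂ : List (Bx × ℕ)} {a b : ℤ} (h : boxCells l₂ a b) :
    boxCells (l₁ ++ l₂) a b := by
  obtain ⟨R, hR, h1⟩ := h
  exact ⟨R, List.mem_append_right _ hR, h1⟩

theorem pocketL_ok {prev : List (Bx × ℕ)} {x y w : ℕ} (hw : w ≤ x)
    (hp : ∀ Q ∈ prev, Q.1.2.2 ≤ y)
    (hb : ∀ a : ℤ, (x : ℤ) - w ≤ a → a < x → boxCells prev a ((y : ℤ) - 1)) :
    GoodFrom prev (pocketL x y w) := by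
  unfold pocketL
  refine goodFrom_map_range _ _ _ fun j hj => ⟨?_, ?_, ?_⟩
  · simp only [NonE, bx]
    omega
  · intro Q hQ
    left
    apply beyond0
    rw [List.mem_append] at hQ
    simp only [bx]
    rcases hQ with hQ | hQ
    · have := hp Q hQ
      omega
    · simp only [List.mem_map, List.mem_range] at hQ
      obtain ⟨i, hi, rfl⟩ := hQ
      simp only [bx]
      omega
  · apply backed0
    simp only [bx]
    intro a ha1 ha2
    rcases Nat.eq_zero_or_pos j with h0 | h0
    · subst h0
      have := boxCells_left (l₂ := (List.range 0).map (fun j =>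
        (bx (x - (w - j)) x (y + j) (y + j + 1), 0))) (hb a (by omega) (by omega))
      simpa using this
    · apply boxCells_right
      refine mem_cells (List.mem_map.2 ⟨j - 1, List.mem_range.2 (by omega), rfl⟩) ?_ ?_ ?_ ?_ <;>
        omega

theorem pocketR_ok {prev : List (Bx × ℕ)} {x y w : ℕ}
    (hp : ∀ Q ∈ prev, Q.1.2.2 ≤ y ∨ Q.1.1.2 < x)
    (hb : ∀ a : ℤ, (x : ℤ) ≤ a → a < x + w → boxCells prev a ((y : ℤ) - 1)) :
    GoodFrom prev (pocketR x y w) := by
  unfold pocketR
  refine goodFrom_map_range _ _ _ fun j hj => ⟨?_, ?_, ?_⟩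
  · simp only [NonE, bx]
    omega
  · intro Q hQ
    rw [List.mem_append] at hQ
    rcases hQ with hQ | hQ
    · rcases hp Q hQ with h | h
      · left
        apply beyond0
        simp only [bx]
        omega
      · right
        left
        simpa only [bx] using h
    · left
      apply beyond0
      simp only [List.mem_map, List.mem_range] at hQ
      obtain ⟨i, hi, rfl⟩ := hQ
      simp only [bx]
      omega
  · apply backed0
    simp only [bx]
    intro a ha1 ha2
    rcases Nat.eq_zero_or_pos j with h0 | h0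
    · subst h0
      have := boxCells_left (l₂ := (List.range 0).map (fun j =>
        (bx x (x + (w - j)) (y + j) (y + j + 1), 0))) (hb a (by omega) (by omega))
      simpa using this
    · apply boxCells_right
      refine mem_cells (List.mem_map.2 ⟨j - 1, List.mem_range.2 (by omega), rfl⟩) ?_ ?_ ?_ ?_ <;>
        omega

theorem pocketD_ok {prev : List (Bx × ℕ)} {x y w : ℕ} (hw : w ≤ y)
    (hp : ∀ Q ∈ prev, Q.1.1.2 ≤ x)
    (hb : ∀ b : ℤ, (y : ℤ) - w ≤ b → b < y → boxCells prev ((x : ℤ) - 1) b) :
    GoodFrom prev (pocketD x y w) := by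
  unfold pocketD
  refine goodFrom_map_range _ _ _ fun j hj => ⟨?_, ?_, ?_⟩
  · simp only [NonE, bx]
    omega
  · intro Q hQ
    left
    apply beyond3
    rw [List.mem_append] at hQ
    simp only [bx]
    rcases hQ with hQ | hQ
    · have := hp Q hQ
      omega
    · simp only [List.mem_map, List.mem_range] at hQ
      obtain ⟨i, hi, rfl⟩ := hQ
      simp only [bx]
      omega
  · apply backed3
    simp only [bx]
    intro b hb1 hb2
    rcases Nat.eq_zero_or_pos j with h0 | h0
    · subst h0
      have := boxCells_left (l₂ := (List.range 0).map (fun j =>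
        (bx (x + j) (x + j + 1) (y - (w - j)) y, 3))) (hb b (by omega) (by omega))
      simpa using this
    · apply boxCells_right
      refine mem_cells (List.mem_map.2 ⟨j - 1, List.mem_range.2 (by omega), rfl⟩) ?_ ?_ ?_ ?_ <;>
        omega

theorem pocketU_ok {prev : List (Bx × ℕ)} {x y h : ℕ} (hw : h ≤ y)
    (hp : ∀ Q ∈ prev, Q.1.1.2 ≤ x ∨ Q.1.2.2 < y - h)
    (hb : ∀ b : ℤ, (y : ℤ) - h ≤ b → b < y → boxCells prev ((x : ℤ) - 1) b) :
    GoodFrom prev (pocketU x y h) := by
  unfold pocketU
  refine goodFrom_map_range _ _ _ fun j hj => ⟨?_, ?_, ?_⟩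
  · simp only [NonE, bx]
    omega
  · intro Q hQ
    rw [List.mem_append] at hQ
    rcases hQ with hQ | hQ
    · rcases hp Q hQ with h | h
      · left
        apply beyond3
        simp only [bx]
        omega
      · right
        right
        right
        left
        simpa only [bx] using h
    · left
      apply beyond3
      simp only [List.mem_map, List.mem_range] at hQ
      obtain ⟨i, hi, rfl⟩ := hQ
      simp only [bx]
      omega
  · apply backed3
    simp only [bx]
    intro b hb1 hb2
    rcases Nat.eq_zero_or_pos j with h0 | h0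
    · subst h0
      have := boxCells_left (l₂ := (List.range 0).map (fun j =>
        (bx (x + j) (x + j + 1) (y - h) (y - j), 3))) (hb b (by omega) (by omega))
      simpa using this
    · apply boxCells_right
      refine mem_cells (List.mem_map.2 ⟨j - 1, List.mem_range.2 (by omega), rfl⟩) ?_ ?_ ?_ ?_ <;>
        omega

/-! ### one finger -/

theorem finger_ok {prev : List (Bx × ℕ)} {L D m w h i : ℕ} (hD : D = 2 * w + 2) (hw : 1 ≤ w)
    (hh : 1 ≤ h) (hh' : h + 1 ≤ w) (hi : i < m)
    (hp : ∀ Q ∈ prev, (Q.1.1.2 ≤ L + (i + 2) * D ∧ Q.1.2.2 ≤ (m + 1 - i) * D) ∨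
      Q.1.1.2 < L + (i + 2) * D ∨ Q.1.2.2 < (m + 1 - i) * D - h)
    (hb : (bx (L + (i + 1) * D) (L + (i + 2) * D) D ((m + 1 - i) * D), 3) ∈ prev) :
    GoodFrom prev (finger L D m w h i) := by
  have hxi := X_low D i
  have hxp := X_pred D i
  have hyi := Y_low (D := D) hi
  unfold finger
  rw [goodFrom_append, goodFrom_append]
  refine ⟨⟨⟨⟨?_, ?_, ?_⟩, trivial⟩, ?_⟩, ?_⟩
  · simp only [NonE, bx]
    omega
  · intro Q hQ
    rcases hp Q hQ with h1 | h1 | h1
    · left
      apply beyond3
      exact h1.1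
    · left
      apply beyond3
      exact h1.le
    · right
      right
      right
      left
      exact h1
  · apply backed3
    simp only [bx]
    intro b hb1 hb2
    refine mem_cells hb ?_ ?_ ?_ ?_ <;> omega
  · apply pocketR_ok
    · intro Q hQ
      rw [List.mem_append, List.mem_singleton] at hQ
      rcases hQ with hQ | rfl
      · have := hp Q hQ
        omega
      · simp only [bx]
        omega
    · intro a ha1 ha2
      apply boxCells_right
      refine mem_cells (List.mem_singleton_self _) ?_ ?_ ?_ ?_ <;> omega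
  · apply pocketU_ok
    · omega
    · intro Q hQ
      simp only [List.mem_append, List.mem_singleton, pocketR, List.mem_map, List.mem_range] at hQ
      rcases hQ with hQ | (rfl | ⟨j, hj, rfl⟩)
      · have := hp Q hQ
        omega
      · simp only [bx]
        omega
      · simp only [bx]
        omega
    · intro b hb1 hb2
      apply boxCells_right
      apply boxCells_left
      refine mem_cells (List.mem_singleton_self _) ?_ ?_ ?_ ?_ <;> omega

theorem exists_col {L D m : ℕ} (hD : 0 < D) {a : ℤ} (h1 : (L : ℤ) + D ≤ a)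
    (h2 : a < L + D + m * D) : ∃ i < m, ((L + (i + 1) * D : ℕ) : ℤ) ≤ a ∧
      a < ((L + (i + 2) * D : ℕ) : ℤ) := by
  obtain ⟨n, rfl⟩ : ∃ n : ℕ, a = L + D + n := ⟨(a - L - D).toNat, by omega⟩
  have h3 : n < m * D := by
    have : (n : ℤ) < m * D := by linarith
    exact_mod_cast this
  refine ⟨n / D, (Nat.div_lt_iff_lt_mul hD).2 h3, ?_, ?_⟩
  · have h4 := Nat.div_mul_le_self n D
    have h5 : (n / D + 1) * D = n / D * D + D := by ring
    rw [h5]
    push_cast
    have h6 : ((n / D * D : ℕ) : ℤ) ≤ n := by exact_mod_cast h4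
    push_cast at h6
    linarith
  · have h4 := Nat.lt_div_mul_add hD (a := n)
    have h5 : (n / D + 2) * D = n / D * D + D + D := by ring
    rw [h5]
    have h6 : ((n : ℕ) : ℤ) < ((n / D * D + D : ℕ) : ℤ) := by exact_mod_cast h4
    push_cast at h6 ⊢
    linarith

theorem bend_ok (L D m w : ℕ) (h : ℕ → ℕ) (hD : D = 2 * w + 2) (hw : 1 ≤ w) (hm : 1 ≤ m)
    (hh : ∀ i, 1 ≤ h i) (hh' : ∀ i, h i + 1 ≤ w) :
    GoodFrom [(bx 0 (L + D) D (D + m * D), 3)] (bend L D m w h).tail := by
  have hB := B_low (D := D) hm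
  have e : (bend L D m w h).tail = cols L D m m ++ pocketL (L + D) (D + m * D) w ++
      [(bx (L + D) (L + D + m * D) 0 D, 2)] ++ pocketD (L + D + m * D) D w ++
      (List.range m).flatMap (fun i => finger L D m w (h i) i) := rfl
  rw [e, goodFrom_append, goodFrom_append, goodFrom_append, goodFrom_append]
  refine ⟨⟨⟨⟨?_, ?_⟩, ⟨⟨?_, ?_, ?_⟩, trivial⟩⟩, ?_⟩, ?_⟩
  · exact goodFrom_map_range _ _ _ fun i hi => col_ok hD hi
  · apply pocketL_ok
    · omega
    · intro Q hQ
      simp only [List.mem_append, List.mem_singleton, List.mem_map, List.mem_range, cols] at hQ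
      rcases hQ with rfl | ⟨j, hj, rfl⟩
      · simp only [bx]
        omega
      · have := Y_up D j m
        simp only [bx]
        omega
    · intro a ha1 ha2
      apply boxCells_left
      refine mem_cells (List.mem_singleton_self _) ?_ ?_ ?_ ?_ <;> omega
  · simp only [NonE, bx]
    omega
  · intro Q hQ
    left
    apply beyond2
    simp only [List.mem_append, List.mem_singleton, List.mem_map, List.mem_range, cols,
      pocketL] at hQ
    rcases hQ with rfl | (⟨j, hj, rfl⟩ | ⟨j, hj, rfl⟩)
    · simp only [bx]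
      omega
    · simp only [bx]
      omega
    · simp only [bx]
      omega
  · apply backed2
    simp only [bx]
    intro a ha1 ha2
    obtain ⟨i, hi, h1, h2⟩ := exists_col (L := L) (D := D) (m := m) (by omega) (a := a)
      (by push_cast at ha1 ⊢; omega) (by push_cast at ha2 ⊢; omega)
    have hyi := Y_low (D := D) hi
    refine mem_cells (List.mem_append_right _ (List.mem_append_left _ (mem_cols hi))) h1 h2 ?_ ?_ <;>
      omega
  · apply pocketD_ok
    · omega
    · intro Q hQ
      simp only [List.mem_append, List.mem_singleton, List.mem_map, List.mem_range, cols,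
        pocketL] at hQ
      rcases hQ with rfl | ((⟨j, hj, rfl⟩ | ⟨j, hj, rfl⟩) | rfl)
      · simp only [bx]
        omega
      · have := X_up (D := D) hj
        simp only [bx]
        omega
      · simp only [bx]
        omega
      · simp only [bx]
        omega
    · intro b hb1 hb2
      apply boxCells_right
      apply boxCells_right
      refine mem_cells (List.mem_singleton_self _) ?_ ?_ ?_ ?_ <;> omega
  · refine goodFrom_flatMap_range _ _ _ fun i hi => ?_
    refine finger_ok hD hw (hh i) (hh' i) hi (fun Q hQ => ?_) ?_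
    · exact old (h := h) hD hh' hi hQ
    · exact List.mem_append_left _ (List.mem_append_right _ (List.mem_append_left _
        (List.mem_append_left _ (List.mem_append_left _ (mem_cols hi)))))

end GoodBend

/-- **D5. The list of boxes is valid.**  (a) within a bend -/
theorem goodFrom_bend {P : Par} {κ : ℕ} (hP : P.Ok κ) (t : ℕ) :
    GoodFrom [(bx 0 (P.lam t + P.D) P.D (P.D + P.B), 3)] (P.bendAt t).tail :=
  GoodBend.bend_ok _ _ _ _ _ rfl (by have := hP.w_ge; omega) hP.m_pos (hP.h_pos t) (hP.h_lt t)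

end Pool.Agent.Lib.MP_7d5495_lc
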