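import Pool.Agent.Lib.MP_7d5495_lc.Place
import Pool.Agent.Lib.MP_7d5495_lc.GoodBend

/-!
# The list of boxes is valid
-/

set_option autoImplicit false

namespace Pool.Agent.Lib.MP_7d5495_lc

namespace GoodRects

/-- integer version of `Apart` -/
def ZApart (R Q : ZR) : Prop := Q.x₂ < R.x₁ ∨ R.x₂ < Q.x₁ ∨ Q.y₂ < R.y₁ ∨ R.y₂ < Q.y₁

/-- integer version of `Beyond` -/
def ZBeyond (s : ℕ) (R Q : ZR) : Prop :=
  (s % 4 = 0 ∧ Q.y₂ ≤ R.y₁) ∨ (s % 4 = 1 ∧ R.x₂ ≤ Q.x₁) ∨ (s % 4 = 2 ∧ R.y₂ ≤ Q.y₁) ∨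
    (s % 4 = 3 ∧ Q.x₂ ≤ R.x₁)

/-- integer version of `Backed` -/
def ZBacked (C : ℤ → ℤ → Prop) (s : ℕ) (R : ZR) : Prop :=
  (s % 4 = 0 → ∀ a : ℤ, R.x₁ ≤ a → a < R.x₂ → C a (R.y₁ - 1)) ∧
  (s % 4 = 1 → ∀ b : ℤ, R.y₁ ≤ b → b < R.y₂ → C R.x₂ b) ∧
  (s % 4 = 2 → ∀ a : ℤ, R.x₁ ≤ a → a < R.x₂ → C a R.y₂) ∧
  (s % 4 = 3 → ∀ b : ℤ, R.y₁ ≤ b → b < R.y₂ → C (R.x₁ - 1) b)

theorem zapart_unrot (l : ℤ) (R Q : ZR) : ZApart (R.unrot l) (Q.unrot l) ↔ ZApart R Q := by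
  unfold ZApart ZR.unrot
  simp only []
  constructor
  · rintro (h | h | h | h)
    · right; right; left; omega
    · right; right; right; omega
    · right; left; omega
    · left; omega
  · rintro (h | h | h | h)
    · right; right; right; omega
    · right; right; left; omega
    · left; omega
    · right; left; omega

theorem zbeyond_unrot (l : ℤ) (s : ℕ) (R Q : ZR) :
    ZBeyond (s + 3) (R.unrot l) (Q.unrot l) ↔ ZBeyond s R Q := by
  unfold ZBeyond ZR.unrot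
  simp only []
  omega

theorem zbacked_unrot (l : ℤ) (s : ℕ) (R : ZR) (C C' : ℤ → ℤ → Prop)
    (h : ∀ a b, C a b → C' b (-l - a - 1)) (hR : ZBacked C s R) :
    ZBacked C' (s + 3) (R.unrot l) := by
  obtain ⟨h0, h1, h2, h3⟩ := hR
  unfold ZBacked ZR.unrot
  simp only []
  refine ⟨fun hs a ha ha' => ?_, fun hs b hb hb' => ?_, fun hs a ha ha' => ?_,
    fun hs b hb hb' => ?_⟩
  · have := h _ _ (h1 (by omega) a ha ha')
    rw [show -l - R.x₂ - 1 = -l - R.x₂ - 1 from rfl]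
    exact this
  · have := h _ _ (h2 (by omega) (-l - b - 1) (by omega) (by omega))
    rwa [show -l - (-l - b - 1) - 1 = b by ring] at this
  · have := h _ _ (h3 (by omega) a ha ha')
    rwa [show -l - (R.x₁ - 1) - 1 = -l - R.x₁ by ring] at this
  · have := h _ _ (h0 (by omega) (-l - b - 1) (by omega) (by omega))
    rwa [show -l - (-l - b - 1) - 1 = b by ring] at this

variable {P : Par} {κ : ℕ}

theorem zapart_toZero (t : ℕ) (R Q : ZR) :
    ZApart (P.toZero t R) (P.toZero t Q) ↔ ZApart R Q := by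
  induction t generalizing R Q with
  | zero => rfl
  | succ t ih =>
    show ZApart (P.toZero t (R.unrot _)) (P.toZero t (Q.unrot _)) ↔ _
    rw [ih, zapart_unrot]

theorem zbeyond_toZero (t s : ℕ) (R Q : ZR) :
    ZBeyond (s + 3 * t) (P.toZero t R) (P.toZero t Q) ↔ ZBeyond s R Q := by
  induction t generalizing R Q s with
  | zero => rfl
  | succ t ih =>
    show ZBeyond (s + 3 * (t + 1)) (P.toZero t (R.unrot _)) (P.toZero t (Q.unrot _)) ↔ _
    rw [show s + 3 * (t + 1) = (s + 3) + 3 * t by ring, ih, zbeyond_unrot]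

theorem zbacked_toZero (t s : ℕ) (R : ZR) (C C' : ℤ → ℤ → Prop)
    (h : ∀ a b, C a b → C' (P.conv t (a, b)).1 (P.conv t (a, b)).2) (hR : ZBacked C s R) :
    ZBacked C' (s + 3 * t) (P.toZero t R) := by
  induction t generalizing R s C with
  | zero =>
    have : ∀ a b, C a b → C' a b := h
    obtain ⟨h0, h1, h2, h3⟩ := hR
    exact ⟨fun hs a ha ha' => this _ _ (h0 hs a ha ha'), fun hs a ha ha' => this _ _ (h1 hs a ha ha'),
      fun hs a ha ha' => this _ _ (h2 hs a ha ha'), fun hs a ha ha' => this _ _ (h3 hs a ha ha')⟩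
  | succ t ih =>
    show ZBacked C' (s + 3 * (t + 1)) (P.toZero t (R.unrot _))
    rw [show s + 3 * (t + 1) = (s + 3) + 3 * t by ring]
    refine ih (s + 3) _ (fun a b => C' (P.conv t (a, b)).1 (P.conv t (a, b)).2) ?_ ?_
    · exact fun _ _ h => h
    · exact zbacked_unrot _ _ _ C _ (fun a b hab => h a b hab) hR

/-- a box as an integer rectangle, shifted -/
def zr (c d : ℤ) (R : Bx) : ZR := ⟨(R.1.1 : ℤ) - c, (R.1.2 : ℤ) - c, (R.2.1 : ℤ) - d,
  (R.2.2 : ℤ) - d⟩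

theorem apart_iff (c d : ℤ) (R Q : Bx) : Apart R Q ↔ ZApart (zr c d R) (zr c d Q) := by
  unfold Apart ZApart zr
  simp only []
  constructor <;> (rintro (h | h | h | h)) <;> omega

theorem beyond_iff (c d : ℤ) (s : ℕ) (R Q : Bx) :
    Beyond s R Q ↔ ZBeyond s (zr c d R) (zr c d Q) := by
  unfold Beyond ZBeyond zr
  simp only []
  omega

theorem backed_iff (c d : ℤ) (C : ℤ → ℤ → Prop) (s : ℕ) (R : Bx) :
    Backed C s R ↔ ZBacked (fun a b => C (a + c) (b + d)) s (zr c d R) := by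
  unfold Backed ZBacked zr
  simp only []
  constructor
  · rintro ⟨h0, h1, h2, h3⟩
    refine ⟨fun hs a ha ha' => ?_, fun hs a ha ha' => ?_, fun hs a ha ha' => ?_,
      fun hs a ha ha' => ?_⟩
    · have := h0 hs (a + c) (by omega) (by omega)
      rwa [show (R.2.1 : ℤ) - d - 1 + d = R.2.1 - 1 by ring]
    · have := h1 hs (a + d) (by omega) (by omega)
      rwa [show (R.1.2 : ℤ) - c + c = R.1.2 by ring]
    · have := h2 hs (a + c) (by omega) (by omega)
      rwa [show (R.2.2 : ℤ) - d + d = R.2.2 by ring]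
    · have := h3 hs (a + d) (by omega) (by omega)
      rwa [show (R.1.1 : ℤ) - c - 1 + c = R.1.1 - 1 by ring]
  · rintro ⟨h0, h1, h2, h3⟩
    refine ⟨fun hs a ha ha' => ?_, fun hs a ha ha' => ?_, fun hs a ha ha' => ?_,
      fun hs a ha ha' => ?_⟩
    · have := h0 hs (a - c) (by omega) (by omega)
      rwa [show (R.2.1 : ℤ) - d - 1 + d = R.2.1 - 1 by ring, sub_add_cancel] at this
    · have := h1 hs (a - d) (by omega) (by omega)
      rwa [show (R.1.2 : ℤ) - c + c = R.1.2 by ring, sub_add_cancel] at this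
    · have := h2 hs (a - c) (by omega) (by omega)
      rwa [show (R.2.2 : ℤ) - d + d = R.2.2 by ring, sub_add_cancel] at this
    · have := h3 hs (a - d) (by omega) (by omega)
      rwa [show (R.1.1 : ℤ) - c - 1 + c = R.1.1 - 1 by ring, sub_add_cancel] at this

theorem zbox_eq (t : ℕ) (R : Bx) : P.zbox t R = zr (P.lam t) 0 R := by
  simp [Par.zbox, zr]

theorem pl_snd (t : ℕ) (Rs : Bx × ℕ) : (P.pl t Rs).2 = Rs.2 + 3 * t := rfl

/-- the placed box -/
theorem pl_zr {t : ℕ} (ht : t < P.N) {Rs : Bx × ℕ} (h1 : NonE Rs.1)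
    (h2 : Rs.1.1.2 ≤ P.lam t + P.Δ) (h3 : Rs.1.2.2 ≤ P.Δ) :
    zr P.O P.O (P.pl t Rs).1 = P.toZero t (P.zbox t Rs.1) := (place_toZero ht h1 h2 h3).symm

theorem toZero_pos (t : ℕ) (R : ZR) : ((P.toZero t R).x₁ < (P.toZero t R).x₂ ∧
    (P.toZero t R).y₁ < (P.toZero t R).y₂) ↔ (R.x₁ < R.x₂ ∧ R.y₁ < R.y₂) := by
  induction t generalizing R with
  | zero => rfl
  | succ t ih =>
    show (P.toZero t (R.unrot _)).x₁ < (P.toZero t (R.unrot _)).x₂ ∧
      (P.toZero t (R.unrot _)).y₁ < (P.toZero t (R.unrot _)).y₂ ↔ _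
    rw [ih]
    simp only [ZR.unrot]
    omega

theorem boxCells_iff (prev : List (Bx × ℕ)) (c d : ℤ) (a b : ℤ) :
    boxCells prev (a + c) (b + d) ↔ ∃ Q ∈ prev, (zr c d Q.1).Has a b := by
  unfold boxCells zr ZR.Has
  simp only []
  constructor
  · rintro ⟨Q, hQ, h1, h2, h3, h4⟩
    exact ⟨Q, hQ, by omega, by omega, by omega, by omega⟩
  · rintro ⟨Q, hQ, h1, h2, h3, h4⟩
    exact ⟨Q, hQ, by omega, by omega, by omega, by omega⟩

end GoodRects

open GoodRects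

/-- (b) placing a bend -/
theorem okAtt_place {P : Par} {t : ℕ} (ht : t < P.N) {prev : List (Bx × ℕ)} {Rs : Bx × ℕ}
    (hp : ∀ Q ∈ prev, NonE Q.1 ∧ Q.1.1.2 ≤ P.lam t + P.Δ ∧ Q.1.2.2 ≤ P.Δ)
    (h2 : Rs.1.1.2 ≤ P.lam t + P.Δ) (h3 : Rs.1.2.2 ≤ P.Δ) (h : OkAtt prev Rs) :
    OkAtt (prev.map (P.pl t)) (P.pl t Rs) := by
  obtain ⟨hn, hb, hc⟩ := h
  have hz := pl_zr ht hn h2 h3
  refine ⟨?_, ?_, ?_⟩
  · have := (toZero_pos (P := P) t (P.zbox t Rs.1)).2
      ⟨by simp only [Par.zbox]; have := hn.1; omega, by simp only [Par.zbox]; have := hn.2; omega⟩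
    rw [← hz] at this
    simp only [zr] at this
    exact ⟨by omega, by omega⟩
  · intro Q' hQ'
    obtain ⟨Q, hQ, rfl⟩ := List.mem_map.1 hQ'
    obtain ⟨q1, q2, q3⟩ := hp Q hQ
    have hzQ := pl_zr ht q1 q2 q3
    rw [beyond_iff P.O P.O, apart_iff P.O P.O, hz, hzQ, pl_snd, zbeyond_toZero, zapart_toZero,
      zbox_eq, zbox_eq, ← beyond_iff, ← apart_iff]
    exact hb Q hQ
  · rw [backed_iff P.O P.O, hz, pl_snd]
    refine zbacked_toZero t _ _ (fun a b => boxCells prev (a + P.lam t) (b + 0)) _ ?_ ?_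
    · intro a b hab
      rw [boxCells_iff] at hab
      obtain ⟨Q, hQ, hh⟩ := hab
      obtain ⟨q1, q2, q3⟩ := hp Q hQ
      show boxCells _ _ _
      rw [boxCells_iff]
      refine ⟨P.pl t Q, List.mem_map.2 ⟨Q, hQ, rfl⟩, ?_⟩
      rw [pl_zr ht q1 q2 q3, toZero_has, zbox_eq]
      exact hh
    · rw [zbox_eq, ← backed_iff]
      exact hc

namespace GoodRects

variable {P : Par} {κ : ℕ}

/-- back from the frame `0` -/
theorem toZero_surj (t : ℕ) (R : ZR) : ∃ R', P.toZero t R' = R := by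
  induction t generalizing R with
  | zero => exact ⟨R, rfl⟩
  | succ t ih =>
    obtain ⟨R', h⟩ := ih R
    refine ⟨R'.rot (P.lam (t + 1)), ?_⟩
    show P.toZero t ((R'.rot _).unrot _) = R
    rw [ZR.unrot_rot, h]

/-- a box of an earlier bend in the coordinates of the frame `t` -/
theorem before (hP : P.Ok κ) {s t : ℕ} (hst : s < t) {Q : Bx × ℕ} (hQ : Q ∈ P.bendAt s)
    {Q' : ZR} (h : P.toZero t Q' = P.toZero s (P.zbox s Q.1)) :
    Q'.x₂ ≤ 0 ∧ (s + 1 < t → Q'.y₂ ≤ 0) ∧ (s + 1 = t → Q'.x₂ ≤ -(P.lam t : ℤ)) := by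
  have hpos : Q'.x₁ < Q'.x₂ ∧ Q'.y₁ < Q'.y₂ := by
    rw [← toZero_pos (P := P) t, h, toZero_pos]
    obtain ⟨h1, h2, _⟩ := Place.bend_bounds' hP s hQ
    exact ⟨h1, h2⟩
  have hh : Q'.Has (Q'.x₂ - 1) (Q'.y₂ - 1) := ⟨by omega, by omega, by omega, by omega⟩
  rw [← toZero_has (P := P) (t := t), h] at hh
  obtain ⟨⟨a, b⟩, hab⟩ := Conv.conv_surjective (P := P) s (P.conv t (Q'.x₂ - 1, Q'.y₂ - 1))
  rw [← hab, toZero_has] at hh
  have hE := Place.inE_of_has hP hQ hh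
  obtain ⟨h1, h2, h3⟩ := conv_before hst hE hab
  exact ⟨by omega, fun h => by have := h2 h; omega, fun h => by have := h3 h; omega⟩

theorem pl_facts (hP : P.Ok κ) {t : ℕ} (ht : t < P.N) {Rs : Bx × ℕ} (h : Rs ∈ P.bendAt t) :
    zr P.O P.O (P.pl t Rs).1 = P.toZero t (P.zbox t Rs.1) := by
  obtain ⟨h1, h2, h3⟩ := bend_bounds hP h
  exact pl_zr ht h1 h2.le h3.le

end GoodRects

/-- (c) different bends -/
theorem cross {P : Par} {κ : ℕ} (hP : P.Ok κ) {s t : ℕ} (hst : s < t) (ht : t < P.N)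
    {Q Rs : Bx × ℕ} (hQ : Q ∈ P.bendAt s) (hR : Rs ∈ P.bendAt t) :
    Beyond (P.pl t Rs).2 (P.pl t Rs).1 (P.pl s Q).1 ∨ Apart (P.pl t Rs).1 (P.pl s Q).1 := by
  rw [beyond_iff P.O P.O, apart_iff P.O P.O, pl_facts hP ht hR,
    pl_facts hP (hst.trans ht) hQ, pl_snd]
  obtain ⟨Q', hQ'⟩ := toZero_surj (P := P) t (P.toZero s (P.zbox s Q.1))
  rw [← hQ', zbeyond_toZero, zapart_toZero]
  obtain ⟨b1, b2, b3⟩ := before hP hst hQ hQ'
  have hw := hP.w_ge
  have hD := P.D_eq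
  have hB := P.D_le_B hP.m_pos
  have key : ∀ (R : ZR) (u : ℕ), 0 < R.x₁ → ZBeyond u R Q' ∨ ZApart R Q' := fun R u h =>
    Or.inr (Or.inl (by omega))
  refine (Place.bend_all hP t (fun R u => ZBeyond u R Q' ∨ ZApart R Q')).2 ?_ Rs hR
  refine ⟨?_, fun i hi => key _ _ ?_, fun j hj => key _ _ ?_, key _ _ ?_,
    fun j hj => key _ _ ?_, fun i hi => ⟨key _ _ ?_, fun j hj => key _ _ ?_,
    fun j hj => key _ _ ?_⟩⟩
  · rcases Nat.lt_or_ge (s + 1) t with h | h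
    · right; right; right; left
      have := b2 h
      show Q'.y₂ < (P.D : ℤ)
      omega
    · left; right; right; right
      exact ⟨rfl, b3 (by omega)⟩
  all_goals dsimp only
  · have := P.le_X i; omega
  · omega
  · omega
  · omega
  · have := P.le_X i; omega
  · have := P.le_X i; omega
  · have := P.le_X i; omega

theorem arm_backed {P : Par} {κ : ℕ} (hP : P.Ok κ) {t : ℕ} (ht : t + 1 < P.N) :
    Backed (boxCells ((P.bendAt t).map (P.pl t)))
      (P.pl (t + 1) (bx 0 (P.lam (t + 1) + P.D) P.D (P.D + P.B), 3)).2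
      (P.pl (t + 1) (bx 0 (P.lam (t + 1) + P.D) P.D (P.D + P.B), 3)).1 := by
  have harm : (bx 0 (P.lam (t + 1) + P.D) P.D (P.D + P.B), 3) ∈ P.bendAt (t + 1) := by
    unfold Par.bendAt
    rw [Place.mem_bend]
    exact Or.inl rfl
  rw [backed_iff P.O P.O, pl_facts hP ht harm, pl_snd]
  refine zbacked_toZero (t + 1) _ _
    (fun a b => ∃ Q ∈ P.bendAt t, (P.zbox t Q.1).Has b (-(P.lam (t + 1) : ℤ) - a - 1)) _ ?_ ?_
  · rintro a b ⟨Q, hQ, hh⟩
    show boxCells _ _ _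
    rw [boxCells_iff]
    refine ⟨P.pl t Q, List.mem_map.2 ⟨Q, hQ, rfl⟩, ?_⟩
    rw [pl_facts hP (by omega) hQ]
    show (P.toZero t (P.zbox t Q.1)).Has (P.conv t (b, -(P.lam (t + 1) : ℤ) - a - 1)).1
      (P.conv t (b, -(P.lam (t + 1) : ℤ) - a - 1)).2
    rw [toZero_has]
    exact hh
  · refine ⟨fun h => by omega, fun h => by omega, fun h => by omega, fun _ b h1 h2 => ?_⟩
    have e0 : (P.zbox (t + 1) (bx 0 (P.lam (t + 1) + P.D) P.D (P.D + P.B), 3).1).x₁ - 1 =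
        -(P.lam (t + 1) : ℤ) - 1 := by simp [Par.zbox, bx]
    have e1 : -(P.lam (t + 1) : ℤ) - (-(P.lam (t + 1) : ℤ) - 1) - 1 = 0 := by ring
    rw [e0]
    show ∃ Q ∈ P.bendAt t, (P.zbox t Q.1).Has b (-(P.lam (t + 1) : ℤ) -
      (-(P.lam (t + 1) : ℤ) - 1) - 1)
    rw [e1]
    refine (Place.bend_ex hP t (fun R _ => R.Has b 0)).2 ?_
    right; right; right; left
    simp only [Par.zbox, bx] at h1 h2
    have := P.D_pos
    push_cast at h1 h2
    exact ⟨by simp only []; omega, by simp only []; omega, le_rfl, by simp only []; omega⟩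

namespace GoodRects

variable {P : Par} {κ : ℕ}

theorem goodFrom_place {t : ℕ} (ht : t < P.N) (prev l : List (Bx × ℕ))
    (hp : ∀ Q ∈ prev ++ l, NonE Q.1 ∧ Q.1.1.2 ≤ P.lam t + P.Δ ∧ Q.1.2.2 ≤ P.Δ)
    (h : GoodFrom prev l) : GoodFrom (prev.map (P.pl t)) (l.map (P.pl t)) := by
  induction l generalizing prev with
  | nil => trivial
  | cons R l ih =>
    obtain ⟨h1, h2⟩ := h
    refine ⟨okAtt_place ht (fun Q hQ => hp Q (by simp [hQ])) ?_ ?_ h1, ?_⟩
    · exact (hp R (by simp)).2.1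
    · exact (hp R (by simp)).2.2
    · have := ih (prev ++ [R]) (fun Q hQ => hp Q (by simpa using hQ)) h2
      rwa [List.map_append] at this

theorem backed_mono {C C' : ℤ → ℤ → Prop} (h : ∀ a b, C a b → C' a b) {s : ℕ} {R : Bx}
    (hR : Backed C s R) : Backed C' s R :=
  ⟨fun hs a h1 h2 => h _ _ (hR.1 hs a h1 h2), fun hs a h1 h2 => h _ _ (hR.2.1 hs a h1 h2),
    fun hs a h1 h2 => h _ _ (hR.2.2.1 hs a h1 h2), fun hs a h1 h2 => h _ _ (hR.2.2.2 hs a h1 h2)⟩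

theorem boxCells_mono {l l' : List (Bx × ℕ)} (h : ∀ R ∈ l, R ∈ l') (a b : ℤ)
    (hc : boxCells l a b) : boxCells l' a b := by
  obtain ⟨Q, hQ, hh⟩ := hc
  exact ⟨Q, h Q hQ, hh⟩

theorem goodFrom_prefix (pre prev l : List (Bx × ℕ))
    (hp : ∀ R ∈ l, ∀ Q ∈ pre, Beyond R.2 R.1 Q.1 ∨ Apart R.1 Q.1)
    (h : GoodFrom prev l) : GoodFrom (pre ++ prev) l := by
  induction l generalizing prev with
  | nil => trivial
  | cons R l ih =>
    obtain ⟨⟨h1, h2, h3⟩, h4⟩ := h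
    refine ⟨⟨h1, fun Q hQ => ?_, backed_mono (boxCells_mono fun R hR => by simp [hR]) h3⟩, ?_⟩
    · rcases List.mem_append.1 hQ with hQ | hQ
      · exact hp R (by simp) Q hQ
      · exact h2 Q hQ
    · have := ih (prev ++ [R]) (fun R' hR' Q hQ => hp R' (by simp [hR']) Q hQ) h4
      rwa [← List.append_assoc] at this

theorem good_append {l l' : List (Bx × ℕ)} (h : Good l) (h' : GoodFrom l l') :
    Good (l ++ l') := by
  cases l with
  | nil => exact absurd h (by simp [Good])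
  | cons R l =>
    obtain ⟨h1, h2⟩ := h
    refine ⟨h1, ?_⟩
    exact (goodFrom_append _ _ _).2 ⟨h2, h'⟩

theorem bendAt_eq (t : ℕ) : P.bendAt t =
    (bx 0 (P.lam t + P.D) P.D (P.D + P.B), 3) :: (P.bendAt t).tail := rfl

theorem bend_placed (hP : P.Ok κ) {t : ℕ} (ht : t < P.N) :
    GoodFrom [P.pl t (bx 0 (P.lam t + P.D) P.D (P.D + P.B), 3)]
      ((P.bendAt t).tail.map (P.pl t)) := by
  have h := goodFrom_bend hP t
  have := goodFrom_place ht _ _ (fun Q hQ => ?_) h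
  · exact this
  · have hQ' : Q ∈ P.bendAt t := by rw [bendAt_eq]; exact hQ
    obtain ⟨h1, h2, h3⟩ := bend_bounds hP hQ'
    exact ⟨h1, h2.le, h3.le⟩

theorem nonE_placed (hP : P.Ok κ) {t : ℕ} (ht : t < P.N) {Rs : Bx × ℕ} (h : Rs ∈ P.bendAt t) :
    NonE (P.pl t Rs).1 := by
  have hz := pl_facts hP ht h
  obtain ⟨h1, h2, _⟩ := Place.bend_bounds' hP t h
  have := (toZero_pos (P := P) t (P.zbox t Rs.1)).2 ⟨h1, h2⟩
  rw [← hz] at this
  simp only [zr] at this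
  exact ⟨by omega, by omega⟩

/-- the boxes of the first `n` bends -/
def upTo (P : Par) (n : ℕ) : List (Bx × ℕ) :=
  (List.range n).flatMap fun t => (P.bendAt t).map (P.pl t)

theorem mem_upTo {n : ℕ} {R : Bx × ℕ} : R ∈ upTo P n ↔ ∃ t < n, ∃ Q ∈ P.bendAt t, P.pl t Q = R := by
  simp [upTo]

theorem good_upTo (hP : P.Ok κ) (n : ℕ) (hn : n + 1 ≤ P.N) : Good (upTo P (n + 1)) := by
  induction n with
  | zero =>
    have e : upTo P 1 = (P.bendAt 0).map (P.pl 0) := by simp [upTo]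
    rw [e, bendAt_eq]
    refine ⟨nonE_placed hP hn ?_, bend_placed hP hn⟩
    rw [bendAt_eq]
    exact List.mem_cons_self
  | succ n ih =>
    have e : upTo P (n + 1 + 1) = upTo P (n + 1) ++ (P.bendAt (n + 1)).map (P.pl (n + 1)) := by
      unfold upTo
      rw [List.range_succ, List.flatMap_append]
      simp
    rw [e]
    refine good_append (ih (by omega)) ?_
    rw [bendAt_eq, List.map_cons]
    have harm : (bx 0 (P.lam (n + 1) + P.D) P.D (P.D + P.B), 3) ∈ P.bendAt (n + 1) := by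
      rw [bendAt_eq]
      exact List.mem_cons_self
    refine ⟨⟨nonE_placed hP (by omega) harm, fun Q hQ => ?_, ?_⟩, ?_⟩
    · obtain ⟨s, hs, Q', hQ', rfl⟩ := mem_upTo.1 hQ
      exact cross hP hs (by omega) hQ' harm
    · refine backed_mono (boxCells_mono fun R hR => ?_) (arm_backed hP (t := n) (by omega))
      obtain ⟨Q, hQ, rfl⟩ := List.mem_map.1 hR
      exact mem_upTo.2 ⟨n, by omega, Q, hQ, rfl⟩
    · refine goodFrom_prefix _ _ _ (fun R hR Q hQ => ?_) (bend_placed hP (by omega))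
      obtain ⟨R', hR', rfl⟩ := List.mem_map.1 hR
      obtain ⟨s, hs, Q', hQ', rfl⟩ := mem_upTo.1 hQ
      exact cross hP hs (by omega) hQ' (by rw [bendAt_eq]; exact List.mem_cons_of_mem _ hR')

end GoodRects

theorem good_rects {P : Par} {κ : ℕ} (hP : P.Ok κ) : Good P.rects := by
  obtain ⟨n, hn⟩ : ∃ n, P.N = n + 1 := ⟨P.N - 1, by have := hP.N_pos; omega⟩
  have := good_upTo hP n (by omega)
  rw [rects_eq, hn]
  exact this

end Pool.Agent.Lib.MP_7d5495_lc
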