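import Pool.Agent.Lib.MP_7d5495_lc.PathDefs

/-!
# Even-odd rule: the region of the polygon of a lattice path is the union of its cells
-/

namespace Pool.Agent.Lib.MP_7d5495_lc

open Set

theorem boxCells_nonneg (rs : List (Bx × ℕ)) : ∀ a b, boxCells rs a b → 0 ≤ a ∧ 0 ≤ b := by
  rintro a b ⟨Rs, -, h1, -, h2, -⟩
  exact ⟨(Int.natCast_nonneg _).trans h1, (Int.natCast_nonneg _).trans h2⟩

namespace Region

/-- the cyclic list as a periodic sequence -/
def u (l : List (ℕ × ℕ)) (i : ℕ) : ℕ × ℕ := l.getD (i % l.length) (0, 0)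

/-- there is a corner at the index `i` -/
def isC (l : List (ℕ × ℕ)) (i : ℕ) : Prop :=
  ¬(((u l (i + l.length - 1)).1 = (u l i).1 ∧ (u l i).1 = (u l (i + 1)).1) ∨
    ((u l (i + l.length - 1)).2 = (u l i).2 ∧ (u l i).2 = (u l (i + 1)).2))

instance (l : List (ℕ × ℕ)) (i : ℕ) : Decidable (isC l i) := by
  unfold isC; infer_instance

theorem u_add (l : List (ℕ × ℕ)) (i : ℕ) : u l (i + l.length) = u l i := by
  simp [u]

theorem u_mod (l : List (ℕ × ℕ)) (i : ℕ) : u l (i % l.length) = u l i := by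
  simp [u]

theorem isC_add (l : List (ℕ × ℕ)) (i : ℕ) (h : 0 < l.length) :
    isC l (i + l.length) ↔ isC l i := by
  unfold isC
  have e1 : i + l.length + l.length - 1 = (i + l.length - 1) + l.length := by omega
  have e2 : i + l.length + 1 = (i + 1) + l.length := by omega
  rw [e1, e2, u_add, u_add, u_add]

theorem flatMap_ite {α β : Type*} (L : List α) (p : α → Prop) [DecidablePred p] (f : α → β) :
    (L.flatMap fun i => if p i then [] else [f i]) = (L.filter fun i => ¬ p i).map f := by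
  induction L with
  | nil => rfl
  | cons a L ih =>
    rw [List.flatMap_cons, ih]
    by_cases h : p a <;> simp [h]

/-- the indices of the corners -/
def idx (l : List (ℕ × ℕ)) : List ℕ := (List.range l.length).filter fun i => isC l i

theorem corners_eq (l : List (ℕ × ℕ)) : corners l = (idx l).map (u l) := by
  unfold corners idx
  rw [flatMap_ite]
  have : ∀ i ∈ List.range l.length, u l i = l.getD i (0, 0) := by
    intro i hi
    rw [List.mem_range] at hi
    simp [u, Nat.mod_eq_of_lt hi]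
  have e1 : (List.filter (fun i => decide ¬(
      ((l.getD ((i + l.length - 1) % l.length) (0, 0)).1 = (l.getD i (0, 0)).1 ∧
        (l.getD i (0, 0)).1 = (l.getD ((i + 1) % l.length) (0, 0)).1) ∨
      ((l.getD ((i + l.length - 1) % l.length) (0, 0)).2 = (l.getD i (0, 0)).2 ∧
        (l.getD i (0, 0)).2 = (l.getD ((i + 1) % l.length) (0, 0)).2))) (List.range l.length)) =
      (List.range l.length).filter fun i => isC l i := by
    refine List.filter_congr ?_
    intro i hi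
    rw [decide_eq_decide]
    unfold isC
    rw [this i hi]
    rfl
  rw [← e1]
  refine List.map_congr_left ?_
  intro i hi
  exact (this i (List.mem_of_mem_filter hi)).symm

theorem mem_cyc {l : List (ℕ × ℕ)} (hn : 0 < l.length) (p q : ℕ × ℕ) :
    (p, q) ∈ cyc l ↔ ∃ i < l.length, p = u l i ∧ q = u l (i + 1) := by
  unfold cyc
  rw [List.mem_iff_getElem]
  constructor
  · rintro ⟨i, hi, h⟩
    have hi' : i < l.length := by simpa using hi
    refine ⟨i, hi', ?_, ?_⟩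
    · rw [List.getElem_zip] at h
      have := (Prod.mk.inj h).1
      rw [← this]
      simp [u, Nat.mod_eq_of_lt hi', List.getElem?_eq_getElem hi']
    · rw [List.getElem_zip] at h
      have := (Prod.mk.inj h).2
      rw [← this, List.getElem_rotate]
      have h2 : (i + 1) % l.length < l.length := Nat.mod_lt _ hn
      simp [u, List.getElem?_eq_getElem h2]
  · rintro ⟨i, hi, rfl, rfl⟩
    refine ⟨i, by simpa using hi, ?_⟩
    rw [List.getElem_zip, List.getElem_rotate]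
    have h2 : (i + 1) % l.length < l.length := Nat.mod_lt _ hn
    simp [u, Nat.mod_eq_of_lt hi, List.getElem?_eq_getElem hi, List.getElem?_eq_getElem h2]

/-- the indicator of a crossing -/
noncomputable def N (x y : ℝ) (P Q : ℕ × ℕ) : ℤ := by
  classical
  exact if P.2 = Q.2 ∧ min (P.1 : ℝ) Q.1 ≤ x ∧ x < max (P.1 : ℝ) Q.1 ∧ y < (P.2 : ℝ) then 1 else 0

theorem N_self (x y : ℝ) (P : ℕ × ℕ) : N x y P P = 0 := by
  unfold N
  rw [if_neg]
  simp only [min_self, max_self]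
  rintro ⟨-, h1, h2, -⟩
  exact absurd h2 (not_lt.2 h1)

theorem N_vert (x y : ℝ) {P Q : ℕ × ℕ} (h : P.1 = Q.1) : N x y P Q = 0 := by
  unfold N
  rw [if_neg]
  rw [h]
  simp only [min_self, max_self]
  rintro ⟨-, h1, h2, -⟩
  exact absurd h2 (not_lt.2 h1)

theorem N_add_right (x y : ℝ) {P Q R : ℕ × ℕ} (h1 : P.2 = Q.2) (h2 : Q.2 = R.2)
    (h3 : P.1 ≤ Q.1) (h4 : Q.1 ≤ R.1) : N x y P R = N x y P Q + N x y Q R := by
  have h3' : (P.1 : ℝ) ≤ Q.1 := by exact_mod_cast h3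
  have h4' : (Q.1 : ℝ) ≤ R.1 := by exact_mod_cast h4
  unfold N
  rw [min_eq_left (h3'.trans h4'), max_eq_right (h3'.trans h4'), min_eq_left h3',
    max_eq_right h3', min_eq_left h4', max_eq_right h4']
  by_cases hx : x < Q.1
  · have : ¬ ((Q.1 : ℝ) ≤ x) := not_le.2 hx
    have h5 : x < R.1 := hx.trans_le h4'
    simp [h1, h2, hx, h5, this]
  · have h5 : (Q.1 : ℝ) ≤ x := not_lt.1 hx
    have h6 : (P.1 : ℝ) ≤ x := h3'.trans h5
    simp [h1, h2, hx, h5, h6]

theorem N_comm (x y : ℝ) (P Q : ℕ × ℕ) : N x y P Q = N x y Q P := by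
  unfold N
  by_cases h : P.2 = Q.2
  · rw [min_comm, max_comm]
    simp [h]
  · have h' : ¬ Q.2 = P.2 := fun h1 => h h1.symm
    simp [h, h']

theorem N_add_left (x y : ℝ) {P Q R : ℕ × ℕ} (h1 : P.2 = Q.2) (h2 : Q.2 = R.2)
    (h3 : Q.1 ≤ P.1) (h4 : R.1 ≤ Q.1) : N x y P R = N x y P Q + N x y Q R := by
  rw [N_comm x y P R, N_comm x y P Q, N_comm x y Q R,
    N_add_right x y h2.symm h1.symm h4 h3, add_comm]

/-- the partial sums of the crossings of unit steps -/
noncomputable def F (x y : ℝ) (l : List (ℕ × ℕ)) (i : ℕ) : ℤ :=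
  ∑ t ∈ Finset.range i, N x y (u l t) (u l (t + 1))

theorem F_succ (x y : ℝ) (l : List (ℕ × ℕ)) (i : ℕ) :
    F x y l (i + 1) = F x y l i + N x y (u l i) (u l (i + 1)) := by
  unfold F
  rw [Finset.sum_range_succ]

theorem F_add (x y : ℝ) (l : List (ℕ × ℕ)) (i : ℕ) :
    F x y l (i + l.length) = F x y l i + F x y l l.length := by
  induction i with
  | zero => simp [F]
  | succ i ih =>
    have e : i + 1 + l.length = (i + l.length) + 1 := by omega
    have e' : i + l.length + 1 = (i + 1) + l.length := by omega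
    rw [e, F_succ, ih, F_succ, u_add, e', u_add]
    ring

section path

variable {C : ℤ → ℤ → Prop} {l : List (ℕ × ℕ)}

theorem len_pos (hl : PathOf C l) : 0 < l.length := List.length_pos_iff.2 hl.ne

theorem bd_u (hl : PathOf C l) (i : ℕ) : IsBd C (u l i) (u l (i + 1)) := by
  have hn := len_pos hl
  have h1 : (u l (i % l.length), u l (i % l.length + 1)) ∈ cyc l :=
    (mem_cyc hn _ _).2 ⟨i % l.length, Nat.mod_lt _ hn, rfl, rfl⟩
  rw [hl.bd, u_mod] at h1
  have h2 : u l (i % l.length + 1) = u l (i + 1) := by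
    rw [← u_mod, ← u_mod l (i + 1)]
    congr 1
    simp
  rwa [h2] at h1

theorem u_inj (hl : PathOf C l) {i j : ℕ} (hi : i < l.length) (hj : j < l.length)
    (h : u l i = u l j) : i = j := by
  have h1 : u l i = l[i] := by simp [u, Nat.mod_eq_of_lt hi, List.getElem?_eq_getElem hi]
  have h2 : u l j = l[j] := by simp [u, Nat.mod_eq_of_lt hj, List.getElem?_eq_getElem hj]
  rw [h1, h2] at h
  exact (List.Nodup.getElem_inj_iff hl.nodup).1 h

/-- the step after a non-corner has the same direction -/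
theorem same_dir (hl : PathOf C l) {i : ℕ} (h : ¬ isC l (i + 1)) :
    ((u l (i + 1)).1 = (u l i).1 + 1 ∧ (u l (i + 1)).2 = (u l i).2 →
      (u l (i + 2)).1 = (u l (i + 1)).1 + 1 ∧ (u l (i + 2)).2 = (u l (i + 1)).2) ∧
    ((u l (i + 1)).1 = (u l i).1 ∧ (u l (i + 1)).2 = (u l i).2 + 1 →
      (u l (i + 2)).1 = (u l (i + 1)).1 ∧ (u l (i + 2)).2 = (u l (i + 1)).2 + 1) ∧
    ((u l i).1 = (u l (i + 1)).1 + 1 ∧ (u l (i + 1)).2 = (u l i).2 →
      (u l (i + 1)).1 = (u l (i + 2)).1 + 1 ∧ (u l (i + 2)).2 = (u l (i + 1)).2) ∧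
    ((u l (i + 1)).1 = (u l i).1 ∧ (u l i).2 = (u l (i + 1)).2 + 1 →
      (u l (i + 2)).1 = (u l (i + 1)).1 ∧ (u l (i + 1)).2 = (u l (i + 2)).2 + 1) := by
  have b1 := bd_u hl i
  have b2 := bd_u hl (i + 1)
  unfold isC at h
  have e : i + 1 + l.length - 1 = i + l.length := by omega
  rw [e, u_add, not_not] at h
  have e2 : i + 1 + 1 = i + 2 := rfl
  rw [e2] at b2 h
  generalize u l i = A at *
  generalize u l (i + 1) = B at *
  generalize u l (i + 2) = D at *
  obtain ⟨a1, a2⟩ := A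
  obtain ⟨b1', b2'⟩ := B
  obtain ⟨d1, d2⟩ := D
  simp only [IsBd] at *
  refine ⟨?_, ?_, ?_, ?_⟩
  · rintro ⟨rfl, rfl⟩
    rcases b2 with ⟨h1, h2, -⟩ | ⟨h1, h2, -⟩ | ⟨h1, h2, h3, h4⟩ | ⟨h1, h2, -⟩
    · omega
    · omega
    · have hd : d1 = a1 := by omega
      subst hd
      subst h2
      rcases b1 with ⟨k1, k2, k3, k4⟩ | ⟨k1, k2, -⟩ | ⟨k1, k2, -⟩ | ⟨k1, k2, -⟩
      · exact absurd h3 k4
      · omega
      · omega
      · omega
    · omega
  · rintro ⟨rfl, rfl⟩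
    rcases b2 with ⟨h1, h2, -⟩ | ⟨h1, h2, -⟩ | ⟨h1, h2, -⟩ | ⟨h1, h2, h3, h4⟩
    · omega
    · omega
    · omega
    · have hd : d2 = a2 := by omega
      subst hd
      subst h1
      rcases b1 with ⟨k1, k2, -⟩ | ⟨k1, k2, k3, k4⟩ | ⟨k1, k2, -⟩ | ⟨k1, k2, -⟩
      · omega
      · exact absurd h3 k4
      · omega
      · omega
  · rintro ⟨rfl, rfl⟩
    rcases b2 with ⟨h1, h2, h3, h4⟩ | ⟨h1, h2, -⟩ | ⟨h1, h2, -⟩ | ⟨h1, h2, -⟩
    · subst h1
      subst h2
      rcases b1 with ⟨k1, k2, -⟩ | ⟨k1, k2, -⟩ | ⟨k1, k2, k3, k4⟩ | ⟨k1, k2, -⟩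
      · omega
      · omega
      · exact absurd h3 k4
      · omega
    · omega
    · omega
    · omega
  · rintro ⟨rfl, rfl⟩
    rcases b2 with ⟨h1, h2, -⟩ | ⟨h1, h2, h3, h4⟩ | ⟨h1, h2, -⟩ | ⟨h1, h2, -⟩
    · omega
    · subst h1
      subst h2
      rcases b1 with ⟨k1, k2, -⟩ | ⟨k1, k2, -⟩ | ⟨k1, k2, -⟩ | ⟨k1, k2, k3, k4⟩
      · omega
      · omega
      · omega
      · exact absurd h3 k4
    · omega
    · omega

theorem straight (hl : PathOf C l) (i k : ℕ) (hk : 0 < k)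
    (h : ∀ t, i < t → t < i + k → ¬ isC l t) :
    ((u l (i + k)).1 = (u l i).1 + k ∧ (u l (i + k)).2 = (u l i).2 ∧
      (u l (i + k)).1 = (u l (i + k - 1)).1 + 1 ∧ (u l (i + k)).2 = (u l (i + k - 1)).2) ∨
    ((u l (i + k)).1 = (u l i).1 ∧ (u l (i + k)).2 = (u l i).2 + k ∧
      (u l (i + k)).1 = (u l (i + k - 1)).1 ∧ (u l (i + k)).2 = (u l (i + k - 1)).2 + 1) ∨
    ((u l i).1 = (u l (i + k)).1 + k ∧ (u l (i + k)).2 = (u l i).2 ∧
      (u l (i + k - 1)).1 = (u l (i + k)).1 + 1 ∧ (u l (i + k)).2 = (u l (i + k - 1)).2) ∨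
    ((u l (i + k)).1 = (u l i).1 ∧ (u l i).2 = (u l (i + k)).2 + k ∧
      (u l (i + k)).1 = (u l (i + k - 1)).1 ∧ (u l (i + k - 1)).2 = (u l (i + k)).2 + 1) := by
  induction k with
  | zero => exact absurd hk (lt_irrefl _)
  | succ k ih =>
    rcases Nat.eq_zero_or_pos k with rfl | hk0
    · have b1 := bd_u hl i
      simp only [IsBd] at b1
      simp only [zero_add, Nat.add_sub_cancel]
      rcases b1 with ⟨h1, h2, -⟩ | ⟨h1, h2, -⟩ | ⟨h1, h2, -⟩ | ⟨h1, h2, -⟩
      · left; exact ⟨h1, h2, h1, h2⟩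
      · right; left; exact ⟨h1, h2, h1, h2⟩
      · right; right; left; exact ⟨h1, h2, h1, h2⟩
      · right; right; right; exact ⟨h1, h2, h1, h2⟩
    · have ih' := ih hk0 (fun t h1 h2 => h t h1 (by omega))
      obtain ⟨k', rfl⟩ : ∃ k', k = k' + 1 := ⟨k - 1, by omega⟩
      have hnc : ¬ isC l (i + k' + 1) := h (i + k' + 1) (by omega) (by omega)
      obtain ⟨s1, s2, s3, s4⟩ := same_dir hl hnc
      have e1 : i + (k' + 1) - 1 = i + k' := by omega
      have e2 : i + (k' + 1 + 1) = i + k' + 2 := by omega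
      have e3 : i + k' + 2 - 1 = i + k' + 1 := by omega
      have e4 : i + (k' + 1) = i + k' + 1 := by omega
      rw [e1, e4] at ih'
      rw [e2, e3]
      rcases ih' with ⟨g1, g2, g3, g4⟩ | ⟨g1, g2, g3, g4⟩ | ⟨g1, g2, g3, g4⟩ | ⟨g1, g2, g3, g4⟩
      · obtain ⟨t1, t2⟩ := s1 ⟨g3, g4⟩
        left
        refine ⟨by omega, by omega, t1, t2⟩
      · obtain ⟨t1, t2⟩ := s2 ⟨g3, g4⟩
        right; left
        refine ⟨by omega, by omega, t1, t2⟩
      · obtain ⟨t1, t2⟩ := s3 ⟨g3, g4⟩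
        right; right; left
        refine ⟨by omega, by omega, t1, t2⟩
      · obtain ⟨t1, t2⟩ := s4 ⟨g3, g4⟩
        right; right; right
        refine ⟨by omega, by omega, t1, t2⟩

theorem N_eq_F (hl : PathOf C l) (x y : ℝ) (i k : ℕ)
    (h : ∀ t, i < t → t < i + k → ¬ isC l t) :
    N x y (u l i) (u l (i + k)) = F x y l (i + k) - F x y l i := by
  induction k with
  | zero => simp [N_self]
  | succ k ih =>
    rcases Nat.eq_zero_or_pos k with rfl | hk0
    · simp only [zero_add]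
      rw [F_succ]
      ring
    · have ih' := ih (fun t h1 h2 => h t h1 (by omega))
      have s1 := straight hl i k hk0 (fun t h1 h2 => h t h1 (by omega))
      have s2 := straight hl i (k + 1) (by omega) h
      have e : i + (k + 1) = i + k + 1 := by omega
      rw [e] at s2 ⊢
      rw [F_succ]
      have e3 : i + k + 1 - 1 = i + k := by omega
      rw [e3] at s2
      have key : N x y (u l i) (u l (i + k + 1)) =
          N x y (u l i) (u l (i + k)) + N x y (u l (i + k)) (u l (i + k + 1)) := by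
        rcases s2 with ⟨g1, g2, g3, g4⟩ | ⟨g1, g2, g3, g4⟩ | ⟨g1, g2, g3, g4⟩ | ⟨g1, g2, g3, g4⟩
        · refine N_add_right x y ?_ ?_ ?_ ?_ <;> omega
        · rw [N_vert x y, N_vert x y, N_vert x y]
          · rfl
          all_goals omega
        · refine N_add_left x y ?_ ?_ ?_ ?_ <;> omega
        · rw [N_vert x y, N_vert x y, N_vert x y]
          · rfl
          all_goals omega
      rw [key, ih']
      ring

/-! ### indices of the corners -/

theorem mem_idx {l : List (ℕ × ℕ)} {i : ℕ} : i ∈ idx l ↔ i < l.length ∧ isC l i := by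
  simp [idx]

theorem idx_pos (hl : PathOf C l) : 0 < (idx l).length := by
  rw [List.length_pos_iff]
  intro h0
  have hn := len_pos hl
  have hno : ∀ t, t < l.length → ¬ isC l t := by
    intro t ht hc
    have : t ∈ idx l := mem_idx.2 ⟨ht, hc⟩
    rw [h0] at this
    simp at this
  have s1 := straight hl 0 l.length hn (fun t _ h2 => hno t (by omega))
  have e : u l (0 + l.length) = u l 0 := u_add l 0
  rw [e] at s1
  omega

/-- the indices of the corners, continued by the first one in the next period -/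
def I (l : List (ℕ × ℕ)) (k : ℕ) : ℕ :=
  if k < (idx l).length then (idx l).getD k 0 else (idx l).getD 0 0 + l.length

theorem I_lt {k : ℕ} (hk : k < (idx l).length) : I l k = (idx l)[k] := by
  unfold I
  rw [if_pos hk, List.getD_eq_getElem _ _ hk]

theorem I_len (hl : PathOf C l) : I l (idx l).length = I l 0 + l.length := by
  unfold I
  rw [if_neg (lt_irrefl _), if_pos (idx_pos hl)]

theorem idx_mono {j k : ℕ} (hj : j < (idx l).length) (hk : k < (idx l).length) :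
    (idx l)[j] < (idx l)[k] ↔ j < k := by
  have hs : (idx l).Pairwise (· < ·) := List.pairwise_lt_range.filter _
  rw [List.pairwise_iff_getElem] at hs
  constructor
  · intro h
    rcases lt_trichotomy j k with h1 | h1 | h1
    · exact h1
    · subst h1
      exact absurd h (lt_irrefl _)
    · exact absurd (hs k j hk hj h1) (by omega)
  · intro h
    exact hs j k hj hk h

theorem I_mono (hl : PathOf C l) {k : ℕ} (hk : k < (idx l).length) : I l k < I l (k + 1) := by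
  rcases Nat.lt_or_ge (k + 1) (idx l).length with h | h
  · rw [I_lt hk, I_lt h, idx_mono]
    omega
  · have e : k + 1 = (idx l).length := by omega
    rw [e, I_len hl, I_lt hk]
    have : (idx l)[k] ∈ idx l := List.getElem_mem hk
    have := (mem_idx.1 this).1
    omega

theorem no_corner (hl : PathOf C l) {k : ℕ} (hk : k < (idx l).length) (t : ℕ)
    (h1 : I l k < t) (h2 : t < I l (k + 1)) : ¬ isC l t := by
  intro hc
  have hn := len_pos hl
  -- the case of an index below the length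
  have hcase : ∀ s, s < l.length → isC l s → ∃ j, ∃ hj : j < (idx l).length, (idx l)[j] = s := by
    intro s hs hcs
    have : s ∈ idx l := mem_idx.2 ⟨hs, hcs⟩
    rw [List.mem_iff_getElem] at this
    exact this
  rw [I_lt hk] at h1
  rcases Nat.lt_or_ge (k + 1) (idx l).length with h | h
  · rw [I_lt h] at h2
    have h3 : (idx l)[k + 1] < l.length := (mem_idx.1 (List.getElem_mem h)).1
    obtain ⟨j, hj, rfl⟩ := hcase t (by omega) hc
    rw [idx_mono] at h1 h2
    omega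
  · have e : k + 1 = (idx l).length := by omega
    rw [e, I_len hl] at h2
    rcases Nat.lt_or_ge t l.length with h3 | h3
    · obtain ⟨j, hj, rfl⟩ := hcase t h3 hc
      rw [idx_mono] at h1
      omega
    · have h0 := idx_pos hl
      rw [I_lt h0] at h2
      have h4 : (idx l)[0] < l.length := (mem_idx.1 (List.getElem_mem h0)).1
      have hc' : isC l (t - l.length) := by
        rw [← isC_add l _ hn]
        rwa [Nat.sub_add_cancel h3]
      obtain ⟨j, hj, h5⟩ := hcase (t - l.length) (by omega) hc'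
      have h6 : (idx l)[j] < (idx l)[0] := by omega
      rw [idx_mono] at h6
      omega

theorem sum_N (hl : PathOf C l) (x y : ℝ) :
    ∑ k ∈ Finset.range (idx l).length, N x y (u l (I l k)) (u l (I l (k + 1))) =
      F x y l l.length := by
  have h1 : ∀ k ∈ Finset.range (idx l).length, N x y (u l (I l k)) (u l (I l (k + 1))) =
      F x y l (I l (k + 1)) - F x y l (I l k) := by
    intro k hk
    rw [Finset.mem_range] at hk
    have hm := I_mono hl hk
    obtain ⟨d, hd⟩ : ∃ d, I l (k + 1) = I l k + d := ⟨I l (k + 1) - I l k, by omega⟩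
    rw [hd]
    refine N_eq_F hl x y _ _ (fun t h1 h2 => no_corner hl hk t h1 (by omega))
  rw [Finset.sum_congr rfl h1, Finset.sum_range_sub (fun k => F x y l (I l k)), I_len hl, F_add]
  ring

theorem vtx_eq (hl : PathOf C l) {k : ℕ} (hk : k ≤ (idx l).length) :
    vtx ((corners l).map fun p => ((p.1 : ℚ), (p.2 : ℚ))) k =
      (((u l (I l k)).1 : ℚ), ((u l (I l k)).2 : ℚ)) := by
  have h0 := idx_pos hl
  rw [corners_eq]
  unfold vtx
  have hlen : (((idx l).map (u l)).map fun p : ℕ × ℕ => ((p.1 : ℚ), (p.2 : ℚ))).length =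
      (idx l).length := by simp
  rw [hlen]
  rcases Nat.lt_or_ge k (idx l).length with h | h
  · rw [Nat.mod_eq_of_lt h, List.getD_eq_getElem _ _ (by rw [hlen]; exact h)]
    simp [I_lt h]
  · have e : k = (idx l).length := by omega
    subst e
    rw [Nat.mod_self, List.getD_eq_getElem _ _ (by rw [hlen]; exact h0), I_len hl, u_add]
    simp [I_lt h0]

theorem crossings_eq (hl : PathOf C l) (p : ℝ × ℝ) :
    (crossings ((corners l).map fun p => ((p.1 : ℚ), (p.2 : ℚ))) p : ℤ) =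
      F p.1 p.2 l l.length := by
  classical
  rw [← sum_N hl]
  unfold crossings
  have hlen : ((corners l).map fun p : ℕ × ℕ => ((p.1 : ℚ), (p.2 : ℚ))).length =
      (idx l).length := by simp [corners_eq]
  rw [Nat.card_eq_fintype_card, Fintype.card_subtype]
  rw [Finset.card_filter]
  rw [Finset.sum_fin_eq_sum_range]
  rw [hlen]
  push_cast
  refine Finset.sum_congr rfl ?_
  intro k hk
  rw [Finset.mem_range] at hk
  rw [dif_pos hk]
  unfold N
  simp only [vtx_eq hl hk.le, vtx_eq hl (Nat.succ_le_of_lt hk)]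
  push_cast
  have e : (((u l (I l k)).2 : ℚ) = ((u l (I l (k + 1))).2 : ℚ)) ↔
      ((u l (I l k)).2 = (u l (I l (k + 1))).2) := by
    exact Nat.cast_inj
  simp only [Nat.succ_eq_add_one, e]

/-! ### unit steps and changes of the column -/

/-- parity of the number of changes -/
theorem parity (Q : ℤ → Prop) [DecidablePred Q] (b : ℤ) (k : ℕ) :
    Odd ((Finset.Ioc b (b + k)).filter fun c => ¬(Q c ↔ Q (c - 1))).card ↔
      ¬(Q b ↔ Q (b + k)) := by
  induction k with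
  | zero => simp
  | succ k ih =>
    have e : Finset.Ioc b (b + (k + 1 : ℕ)) = insert (b + k + 1) (Finset.Ioc b (b + k)) := by
      ext c
      simp only [Finset.mem_Ioc, Finset.mem_insert]
      push_cast
      omega
    rw [e, Finset.filter_insert]
    have e1 : b + (k : ℤ) + 1 - 1 = b + k := by ring
    have e2 : b + ((k + 1 : ℕ) : ℤ) = b + k + 1 := by push_cast; ring
    rw [e1, e2]
    by_cases h : (Q (b + k + 1) ↔ Q (b + k))
    · rw [if_neg (not_not.2 h), ih]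
      tauto
    · rw [if_pos h, Finset.card_insert_of_notMem, Nat.odd_add_one, ih]
      · tauto
      · simp

theorem step_iff (hl : PathOf C l) (x y : ℝ) (t : ℕ) :
    N x y (u l t) (u l (t + 1)) = 1 ↔
      ⌊y⌋ < ((u l t).2 : ℤ) ∧ (((u l t).1 : ℤ) = ⌊x⌋ ∧ (u l (t + 1)).1 = (u l t).1 + 1 ∧
          (u l (t + 1)).2 = (u l t).2 ∧ C ⌊x⌋ (u l t).2 ∧ ¬ C ⌊x⌋ (((u l t).2 : ℤ) - 1) ∨
        ((u l (t + 1)).1 : ℤ) = ⌊x⌋ ∧ (u l t).1 = (u l (t + 1)).1 + 1 ∧
          (u l (t + 1)).2 = (u l t).2 ∧ C ⌊x⌋ (((u l t).2 : ℤ) - 1) ∧ ¬ C ⌊x⌋ (u l t).2) := by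
  have hb := bd_u hl t
  unfold N
  have hone : ∀ (P : Prop) [Decidable P], ((if P then (1 : ℤ) else 0) = 1) ↔ P := by
    intro P _
    by_cases h : P <;> simp [h]
  rw [hone]
  have hy : y < ((u l t).2 : ℝ) ↔ ⌊y⌋ < ((u l t).2 : ℤ) := by
    rw [Int.floor_lt]; push_cast; rfl
  rw [hy]
  generalize u l t = A at *
  generalize u l (t + 1) = B at *
  obtain ⟨a1, a2⟩ := A
  obtain ⟨b1, b2⟩ := B
  simp only [IsBd] at hb
  simp only
  rcases hb with ⟨h1, h2, h3, h4⟩ | ⟨h1, h2, h3, h4⟩ | ⟨h1, h2, h3, h4⟩ | ⟨h1, h2, h3, h4⟩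
  · subst h1
    subst h2
    have hle : (a1 : ℝ) ≤ ((a1 + 1 : ℕ) : ℝ) := by push_cast; linarith
    rw [min_eq_left hle, max_eq_right hle]
    have hx : ((a1 : ℝ) ≤ x ∧ x < ((a1 + 1 : ℕ) : ℝ)) ↔ ((a1 : ℤ) = ⌊x⌋) := by
      rw [eq_comm, Int.floor_eq_iff]
      push_cast
      rfl
    constructor
    · rintro ⟨-, k1, k2, k3⟩
      have hx' := hx.1 ⟨k1, k2⟩
      refine ⟨k3, Or.inl ⟨hx', rfl, rfl, ?_, ?_⟩⟩
      · rw [← hx']; exact h3
      · rw [← hx']; exact h4
    · rintro ⟨k3, (⟨k1, -⟩ | ⟨-, k2, -⟩)⟩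
      · have := hx.2 k1
        exact ⟨rfl, this.1, this.2, k3⟩
      · omega
  · constructor
    · rintro ⟨k1, -⟩; omega
    · rintro ⟨-, (⟨-, k1, -⟩ | ⟨-, k2, -⟩)⟩ <;> omega
  · subst h1
    subst h2
    have hle : (b1 : ℝ) ≤ ((b1 + 1 : ℕ) : ℝ) := by push_cast; linarith
    rw [min_eq_right hle, max_eq_left hle]
    have hx : ((b1 : ℝ) ≤ x ∧ x < ((b1 + 1 : ℕ) : ℝ)) ↔ ((b1 : ℤ) = ⌊x⌋) := by
      rw [eq_comm, Int.floor_eq_iff]
      push_cast
      rfl
    constructor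
    · rintro ⟨-, k1, k2, k3⟩
      have hx' := hx.1 ⟨k1, k2⟩
      refine ⟨k3, Or.inr ⟨hx', rfl, rfl, ?_, ?_⟩⟩
      · rw [← hx']; exact h3
      · rw [← hx']; exact h4
    · rintro ⟨k3, (⟨-, k1, -⟩ | ⟨k1, -⟩)⟩
      · omega
      · have := hx.2 k1
        exact ⟨rfl, this.1, this.2, k3⟩
  · constructor
    · rintro ⟨k1, -⟩; omega
    · rintro ⟨-, (⟨-, k1, -⟩ | ⟨-, k2, -⟩)⟩ <;> omega

theorem F_card (hl : PathOf C l) (x y : ℝ) [DecidablePred (C ⌊x⌋)]
    (h0 : ∀ a b, C a b → 0 ≤ a ∧ 0 ≤ b) (M : ℕ) (hM : ∀ c, C ⌊x⌋ c → c < ⌊y⌋ + M) :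
    F x y l l.length = (((Finset.Ioc ⌊y⌋ (⌊y⌋ + M)).filter
      fun c => ¬(C ⌊x⌋ c ↔ C ⌊x⌋ (c - 1))).card : ℤ) := by
  classical
  have h1 : F x y l l.length =
      (((Finset.range l.length).filter fun t => N x y (u l t) (u l (t + 1)) = 1).card : ℤ) := by
    unfold F
    rw [Finset.card_filter]
    push_cast
    refine Finset.sum_congr rfl fun t _ => ?_
    by_cases h : N x y (u l t) (u l (t + 1)) = 1
    · rw [if_pos h, h]
    · rw [if_neg h]
      unfold N at h ⊢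
      split_ifs at h ⊢ with h'
      · exact absurd rfl h
      · rfl
  rw [h1]
  congr 1
  refine Finset.card_bij (fun t _ => ((u l t).2 : ℤ)) ?_ ?_ ?_
  · intro t ht
    rw [Finset.mem_filter, step_iff hl] at ht
    rw [Finset.mem_filter, Finset.mem_Ioc]
    obtain ⟨-, hy, (⟨-, -, -, h4, h5⟩ | ⟨-, -, -, h4, h5⟩)⟩ := ht
    · have := hM _ h4
      refine ⟨⟨hy, by omega⟩, fun h => h5 (h.1 h4)⟩
    · have := hM _ h4
      refine ⟨⟨hy, by omega⟩, fun h => h5 (h.2 h4)⟩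
  · intro t ht s hs hts
    rw [Finset.mem_filter, step_iff hl, Finset.mem_range] at ht hs
    have hts' : (u l t).2 = (u l s).2 := by
      have : ((u l t).2 : ℤ) = ((u l s).2 : ℤ) := hts
      exact_mod_cast this
    obtain ⟨ht1, hy, ht2⟩ := ht
    obtain ⟨hs1, hy', hs2⟩ := hs
    apply u_inj hl ht1 hs1
    rw [← hts'] at hs2
    rcases ht2 with ⟨a1, a2, a3, a4, a5⟩ | ⟨a1, a2, a3, a4, a5⟩
    · rcases hs2 with ⟨b1, b2, b3, b4, b5⟩ | ⟨b1, b2, b3, b4, b5⟩
      · refine Prod.ext ?_ hts'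
        have : ((u l t).1 : ℤ) = ((u l s).1 : ℤ) := a1.trans b1.symm
        exact_mod_cast this
      · exact absurd a4 b5
    · rcases hs2 with ⟨b1, b2, b3, b4, b5⟩ | ⟨b1, b2, b3, b4, b5⟩
      · exact absurd b4 a5
      · refine Prod.ext ?_ hts'
        have : ((u l (t + 1)).1 : ℤ) = ((u l (s + 1)).1 : ℤ) := a1.trans b1.symm
        have : (u l (t + 1)).1 = (u l (s + 1)).1 := by exact_mod_cast this
        omega
  · intro c hc
    rw [Finset.mem_filter, Finset.mem_Ioc] at hc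
    obtain ⟨⟨hc1, hc2⟩, hc3⟩ := hc
    have hn := len_pos hl
    by_cases hCc : C ⌊x⌋ c
    · have hCc' : ¬ C ⌊x⌋ (c - 1) := fun h => hc3 ⟨fun _ => h, fun _ => hCc⟩
      obtain ⟨p0, p1⟩ := h0 _ _ hCc
      obtain ⟨a, ha⟩ := Int.eq_ofNat_of_zero_le p0
      obtain ⟨d, hd⟩ := Int.eq_ofNat_of_zero_le p1
      have hbd : IsBd C (a, d) (a + 1, d) := by
        left
        refine ⟨rfl, rfl, ?_, ?_⟩
        · simpa [← ha, ← hd] using hCc
        · simpa [← ha, ← hd] using hCc'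
      rw [← hl.bd, mem_cyc hn] at hbd
      obtain ⟨t, ht, e1, e2⟩ := hbd
      refine ⟨t, ?_, ?_⟩
      · rw [Finset.mem_filter, step_iff hl, Finset.mem_range]
        refine ⟨ht, ?_⟩
        rw [← e1, ← e2]
        simp only
        rw [← hd]
        exact ⟨hc1, Or.inl ⟨ha.symm, trivial, trivial, hCc, hCc'⟩⟩
      · rw [← e1, hd]
    · have hCc' : C ⌊x⌋ (c - 1) := by
        by_contra h
        exact hc3 ⟨fun h' => absurd h' hCc, fun h' => absurd h' h⟩
      obtain ⟨p0, p1⟩ := h0 _ _ hCc'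
      obtain ⟨a, ha⟩ := Int.eq_ofNat_of_zero_le p0
      obtain ⟨d, hd⟩ := Int.eq_ofNat_of_zero_le (show 0 ≤ c by omega)
      have hbd : IsBd C (a + 1, d) (a, d) := by
        right; right; left
        refine ⟨rfl, rfl, ?_, ?_⟩
        · simpa [← ha, ← hd] using hCc'
        · simpa [← ha, ← hd] using hCc
      rw [← hl.bd, mem_cyc hn] at hbd
      obtain ⟨t, ht, e1, e2⟩ := hbd
      refine ⟨t, ?_, ?_⟩
      · rw [Finset.mem_filter, step_iff hl, Finset.mem_range]
        refine ⟨ht, ?_⟩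
        rw [← e1, ← e2]
        simp only
        rw [← hd]
        exact ⟨hc1, Or.inr ⟨ha.symm, trivial, trivial, hCc', hCc⟩⟩
      · rw [← e1, hd]

theorem odd_iff (hC : {p : ℤ × ℤ | C p.1 p.2}.Finite) (h0 : ∀ a b, C a b → 0 ≤ a ∧ 0 ≤ b)
    (hl : PathOf C l) (p : ℝ × ℝ) :
    Odd (crossings ((corners l).map fun p => ((p.1 : ℚ), (p.2 : ℚ))) p) ↔
      C ⌊p.1⌋ ⌊p.2⌋ := by
  classical
  obtain ⟨M0, hM0⟩ : ∃ M0 : ℤ, ∀ a b, C a b → b < M0 := by
    obtain ⟨B, hB⟩ := (hC.image Prod.snd).bddAbove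
    refine ⟨B + 1, fun a b h => ?_⟩
    have : b ≤ B := hB ⟨(a, b), h, rfl⟩
    omega
  obtain ⟨M, hM⟩ : ∃ M : ℕ, M0 ≤ ⌊p.2⌋ + M := ⟨(M0 - ⌊p.2⌋).toNat, by
    have := Int.self_le_toNat (M0 - ⌊p.2⌋)
    omega⟩
  have hM' : ∀ c, C ⌊p.1⌋ c → c < ⌊p.2⌋ + M := fun c hc => by
    have := hM0 _ _ hc
    omega
  have h1 := crossings_eq hl p
  rw [F_card hl p.1 p.2 h0 M hM'] at h1
  have h2 : crossings ((corners l).map fun p => ((p.1 : ℚ), (p.2 : ℚ))) p =
      ((Finset.Ioc ⌊p.2⌋ (⌊p.2⌋ + M)).filter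
        fun c => ¬(C ⌊p.1⌋ c ↔ C ⌊p.1⌋ (c - 1))).card := by exact_mod_cast h1
  rw [h2, parity (C ⌊p.1⌋) ⌊p.2⌋ M]
  have h3 : ¬ C ⌊p.1⌋ (⌊p.2⌋ + M) := fun h => absurd (hM' _ h) (lt_irrefl _)
  tauto

end path

end Region

theorem region_of_path {C : ℤ → ℤ → Prop} (hC : {p : ℤ × ℤ | C p.1 p.2}.Finite)
    (h0 : ∀ a b, C a b → 0 ≤ a ∧ 0 ≤ b) {l : List (ℕ × ℕ)} (hl : PathOf C l) :
    region ((corners l).map fun p => ((p.1 : ℚ), (p.2 : ℚ))) = cells 0 C := by
  unfold region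
  have h1 : {p : ℝ × ℝ | Odd (crossings ((corners l).map fun p => ((p.1 : ℚ), (p.2 : ℚ))) p)} =
      ⋃ q ∈ {p : ℤ × ℤ | C p.1 p.2},
        (Ico (q.1 : ℝ) (q.1 + 1) ×ˢ Ico (q.2 : ℝ) (q.2 + 1) : Set (ℝ × ℝ)) := by
    ext p
    rw [mem_ofPred_eq, Region.odd_iff hC h0 hl]
    simp only [mem_iUnion, mem_prod, mem_Ico, mem_ofPred_eq, exists_prop, Prod.exists]
    constructor
    · intro h
      exact ⟨⌊p.1⌋, ⌊p.2⌋, h, ⟨Int.floor_le _, Int.lt_floor_add_one _⟩,
        Int.floor_le _, Int.lt_floor_add_one _⟩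
    · rintro ⟨a, b, h, ⟨h2, h3⟩, h4, h5⟩
      have e1 : ⌊p.1⌋ = a := Int.floor_eq_iff.2 ⟨h2, h3⟩
      have e2 : ⌊p.2⌋ = b := Int.floor_eq_iff.2 ⟨h4, h5⟩
      rwa [e1, e2]
  rw [h1, hC.closure_biUnion]
  ext p
  simp only [mem_iUnion, closure_prod_eq, mem_prod, exists_prop, cells, mem_ofPred_eq,
    Prod.exists]
  have hcl : ∀ a : ℤ, closure (Ico (a : ℝ) (a + 1)) = Icc (a : ℝ) (a + 1) := fun a =>
    closure_Ico (by linarith [] : (a : ℝ) ≠ a + 1)
  simp only [hcl, mem_Icc, Int.cast_zero, zero_add]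
  constructor
  · rintro ⟨a, b, h, ⟨h2, h3⟩, h4, h5⟩
    exact ⟨a, b, h, h2, h3, h4, h5⟩
  · rintro ⟨a, b, h, h2, h3, h4, h5⟩
    exact ⟨a, b, h, ⟨h2, h3⟩, h4, h5⟩

end Pool.Agent.Lib.MP_7d5495_lc
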