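import Pool.Agent.Lib.MP_7d5495_lc.PathDefs

/-!
# The corners of a closed lattice path are the vertices of a simple rectilinear polygon
-/

namespace Pool.Agent.Lib.MP_7d5495_lc

namespace Simple

/-- a closed lattice path as a periodic sequence -/
structure Per (C : ℤ → ℤ → Prop) (n : ℕ) (p : ℕ → ℕ × ℕ) : Prop where
  pos : 0 < n
  per : ∀ i, p (i + n) = p i
  inj : ∀ i j, i ≤ j → j < i + n → p i = p j → i = j
  bd : ∀ i, IsBd C (p i) (p (i + 1))

/-- the periodic sequence of a list -/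
def seq (l : List (ℕ × ℕ)) (i : ℕ) : ℕ × ℕ := l.getD (i % l.length) (0, 0)

lemma per_of_path {C : ℤ → ℤ → Prop} {l : List (ℕ × ℕ)} (hl : PathOf C l) :
    Per C l.length (seq l) := by
  have hn : 0 < l.length := List.length_pos_iff.2 hl.ne
  refine ⟨hn, fun i => by simp [seq], fun i j hij hj h => ?_, fun i => ?_⟩
  · have h1 := Nat.mod_lt i hn
    have h2 := Nat.mod_lt j hn
    unfold seq at h
    rw [List.getD_eq_getElem _ _ h1, List.getD_eq_getElem _ _ h2] at h
    have h3 : i % l.length = j % l.length := (hl.nodup.getElem_inj_iff).1 h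
    have h4 : l.length ∣ j - i := (Nat.modEq_iff_dvd' hij).1 h3
    have h5 : j - i = 0 := Nat.eq_zero_of_dvd_of_lt h4 (by omega)
    omega
  · rw [← hl.bd]
    have h1 := Nat.mod_lt i hn
    have h2 := Nat.mod_lt (i + 1) hn
    unfold seq cyc
    rw [List.getD_eq_getElem _ _ h1, List.getD_eq_getElem _ _ h2, List.mem_iff_getElem]
    refine ⟨i % l.length, by simpa using h1, ?_⟩
    rw [List.getElem_zip, List.getElem_rotate]
    simp

lemma isBd_asymm {C : ℤ → ℤ → Prop} {a b : ℕ × ℕ} (h : IsBd C a b) : ¬ IsBd C b a := by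
  obtain ⟨a1, a2⟩ := a
  obtain ⟨b1, b2⟩ := b
  intro h'
  unfold IsBd at h h'
  simp only at h h'
  rcases h with ⟨h1, h2, h3, h4⟩ | ⟨h1, h2, h3, h4⟩ | ⟨h1, h2, h3, h4⟩ | ⟨h1, h2, h3, h4⟩ <;>
  rcases h' with ⟨k1, k2, k3, k4⟩ | ⟨k1, k2, k3, k4⟩ | ⟨k1, k2, k3, k4⟩ | ⟨k1, k2, k3, k4⟩ <;>
  first
    | (exfalso; omega)
    | (subst h1; subst h2; exact h4 k3)

variable {C : ℤ → ℤ → Prop} {n : ℕ} {p : ℕ → ℕ × ℕ}

/-- the step, first coordinate -/
def dx (p : ℕ → ℕ × ℕ) (i : ℕ) : ℤ := ((p (i + 1)).1 : ℤ) - (p i).1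
/-- the step, second coordinate -/
def dy (p : ℕ → ℕ × ℕ) (i : ℕ) : ℤ := ((p (i + 1)).2 : ℤ) - (p i).2

/-- unit vectors -/
def Unit4 (x y : ℤ) : Prop :=
  (x = 1 ∧ y = 0) ∨ (x = 0 ∧ y = 1) ∨ (x = -1 ∧ y = 0) ∨ (x = 0 ∧ y = -1)

lemma step (h : Per C n p) (i : ℕ) : Unit4 (dx p i) (dy p i) := by
  have := h.bd i
  unfold IsBd at this
  unfold Unit4 dx dy
  omega

lemma no_rev (h : Per C n p) (i : ℕ) :
    ¬ (dx p (i + 1) = - dx p i ∧ dy p (i + 1) = - dy p i) := by
  rintro ⟨h1, h2⟩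
  have h3 : p (i + 1 + 1) = p i := by
    unfold dx at h1
    unfold dy at h2
    refine Prod.ext ?_ ?_ <;> omega
  have h4 := h.bd (i + 1)
  rw [h3] at h4
  exact isBd_asymm (h.bd i) h4

/-- the corners -/
def K (n : ℕ) (p : ℕ → ℕ × ℕ) (i : ℕ) : Prop :=
  ¬ (((p (i + n - 1)).1 = (p i).1 ∧ (p i).1 = (p (i + 1)).1) ∨
    ((p (i + n - 1)).2 = (p i).2 ∧ (p i).2 = (p (i + 1)).2))

lemma K_per (h : Per C n p) (i : ℕ) : K n p (n + i) ↔ K n p i := by
  have hn := h.pos
  have e1 : p (n + i + n - 1) = p (i + n - 1) := by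
    have : n + i + n - 1 = (i + n - 1) + n := by omega
    rw [this, h.per]
  have e2 : p (n + i) = p i := by rw [add_comm, h.per]
  have e3 : p (n + i + 1) = p (i + 1) := by
    have : n + i + 1 = (i + 1) + n := by omega
    rw [this, h.per]
  unfold K
  rw [e1, e2, e3]

lemma K_succ (h : Per C n p) (i : ℕ) : K n p (i + 1) ↔
    (dx p i = 0 ∧ dy p (i + 1) = 0) ∨ (dy p i = 0 ∧ dx p (i + 1) = 0) := by
  have e1 : p (i + 1 + n - 1) = p i := by
    have : i + 1 + n - 1 = i + n := by omega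
    rw [this, h.per]
  have h1 := step h i
  have h2 := step h (i + 1)
  unfold K
  rw [e1]
  unfold Unit4 dx dy at *
  omega

lemma notK_succ (h : Per C n p) {i : ℕ} (hi : ¬ K n p (i + 1)) :
    dx p (i + 1) = dx p i ∧ dy p (i + 1) = dy p i := by
  rw [K_succ h] at hi
  have h1 := step h i
  have h2 := step h (i + 1)
  have h3 := no_rev h i
  unfold Unit4 at *
  omega

lemma run (h : Per C n p) {a b : ℕ} (hab : ∀ i, a < i → i < b → ¬ K n p i) (s : ℕ)
    (hs : a + s < b) : dx p (a + s) = dx p a ∧ dy p (a + s) = dy p a := by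
  induction s with
  | zero => exact ⟨rfl, rfl⟩
  | succ s ih =>
    have h1 := ih (by omega)
    have h2 := notK_succ h (hab (a + s + 1) (by omega) (by omega))
    exact ⟨h2.1.trans h1.1, h2.2.trans h1.2⟩

lemma run_pos (h : Per C n p) {a b : ℕ} (hab : ∀ i, a < i → i < b → ¬ K n p i) (s : ℕ)
    (hs : a + s ≤ b) : ((p (a + s)).1 : ℤ) = (p a).1 + s * dx p a ∧
      ((p (a + s)).2 : ℤ) = (p a).2 + s * dy p a := by
  induction s with
  | zero => simp
  | succ s ih =>
    have h1 := ih (by omega)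
    have h2 := run h hab s (by omega)
    have h3 : ((p (a + (s + 1))).1 : ℤ) = (p (a + s)).1 + dx p (a + s) := by
      unfold dx
      rw [show a + (s + 1) = a + s + 1 by omega]
      ring
    have h4 : ((p (a + (s + 1))).2 : ℤ) = (p (a + s)).2 + dy p (a + s) := by
      unfold dy
      rw [show a + (s + 1) = a + s + 1 by omega]
      ring
    constructor
    · rw [h3, h1.1, h2.1]
      push_cast
      ring
    · rw [h4, h1.2, h2.2]
      push_cast
      ring

lemma inf (h : Per C n p) : {i | K n p i}.Infinite := by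
  intro hf
  obtain ⟨N, hN⟩ := hf.bddAbove
  have hab : ∀ i, N < i → i < N + n + 1 → ¬ K n p i := fun i h1 _ h2 =>
    absurd (hN h2) (not_le.2 h1)
  have h1 := run_pos h hab n (by omega)
  have h2 := step h N
  rw [h.per] at h1
  have hn := h.pos
  have h3 : (n : ℤ) * dx p N = 0 := by linarith [h1.1]
  have h4 : (n : ℤ) * dy p N = 0 := by linarith [h1.2]
  have hn' : (n : ℤ) ≠ 0 := by exact_mod_cast hn.ne'
  have h5 : dx p N = 0 := (mul_eq_zero.1 h3).resolve_left hn'
  have h6 : dy p N = 0 := (mul_eq_zero.1 h4).resolve_left hn'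
  unfold Unit4 at h2
  omega

open scoped Classical in
lemma c_add (h : Per C n p) (j : ℕ) :
    Nat.nth (K n p) (j + Nat.count (K n p) n) = Nat.nth (K n p) j + n := by
  have hK : K n p (Nat.nth (K n p) j + n) := by
    rw [add_comm, K_per h]
    exact Nat.nth_mem_of_infinite (inf h) j
  have h1 := Nat.nth_count hK
  rw [add_comm (Nat.nth (K n p) j) n, Nat.count_add] at h1
  have h2 : (Nat.count (fun k => K n p (n + k)) (Nat.nth (K n p) j)) = j := by
    have : (fun k => K n p (n + k)) = K n p := funext fun k => propext (K_per h k)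
    simp only [this]
    exact Nat.count_nth_of_infinite (inf h) j
  rw [h2] at h1
  rw [add_comm j, h1, add_comm]

lemma c_gap (h : Per C n p) {j i : ℕ} (h1 : Nat.nth (K n p) j < i)
    (h2 : i < Nat.nth (K n p) (j + 1)) : ¬ K n p i := by
  classical
  intro hi
  rw [← Nat.nth_count hi] at h1 h2
  have h3 := (Nat.nth_lt_nth (inf h)).1 h1
  have h4 := (Nat.nth_lt_nth (inf h)).1 h2
  omega

open scoped Classical in
lemma flat {β : Type} (Q : ℕ → Prop) [DecidablePred Q] (f : ℕ → β) (k : ℕ) :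
    ((List.range k).flatMap fun i => if Q i then [] else [f i]) =
      (List.range (Nat.count (fun i => ¬ Q i) k)).map fun j => f (Nat.nth (fun i => ¬ Q i) j) := by
  induction k with
  | zero => simp
  | succ k ih =>
    rw [List.range_succ, List.flatMap_append, ih]
    by_cases hk : Q k
    · rw [Nat.count_succ]
      simp [hk]
    · rw [Nat.count_succ]
      simp only [hk, not_false_eq_true, if_true, if_false, List.flatMap_cons, List.flatMap_nil,
        List.append_nil]
      rw [List.range_succ, List.map_append]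
      simp only [List.map_cons, List.map_nil]
      rw [Nat.nth_count (p := fun i => ¬ Q i) hk]

/-- cast of a lattice point -/
def cst (q : ℕ × ℕ) : ℚ × ℚ := ((q.1 : ℚ), (q.2 : ℚ))

/-- the position of the `j`-th corner -/
noncomputable def c (n : ℕ) (p : ℕ → ℕ × ℕ) (j : ℕ) : ℕ := Nat.nth (K n p) j

open scoped Classical in
/-- the number of corners -/
noncomputable def m (n : ℕ) (p : ℕ → ℕ × ℕ) : ℕ := Nat.count (K n p) n

lemma c_add' (h : Per C n p) (j : ℕ) : c n p (j + m n p) = c n p j + n := c_add h j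

lemma c_mono (h : Per C n p) : StrictMono (c n p) := Nat.nth_strictMono (inf h)

lemma m_pos (h : Per C n p) : 0 < m n p := by
  rcases Nat.eq_zero_or_pos (m n p) with h0 | h0
  · have h1 := c_add' h 0
    rw [h0, add_zero] at h1
    have := h.pos
    omega
  · exact h0

lemma c_mod (h : Per C n p) (j : ℕ) : c n p j = c n p (j % m n p) + n * (j / m n p) := by
  have h1 : ∀ q s, c n p (s + m n p * q) = c n p s + n * q := by
    intro q s
    induction q with
    | zero => simp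
    | succ q ih =>
      rw [show s + m n p * (q + 1) = (s + m n p * q) + m n p by ring, c_add' h, ih]
      ring
  rw [← h1, Nat.mod_add_div]

lemma p_add (h : Per C n p) (i q : ℕ) : p (i + n * q) = p i := by
  induction q with
  | zero => simp
  | succ q ih => rw [show i + n * (q + 1) = (i + n * q) + n by ring, h.per, ih]

open scoped Classical in
lemma corners_eq {l : List (ℕ × ℕ)} (h : Per C l.length (seq l)) :
    (corners l).map cst =
      (List.range (m l.length (seq l))).map fun j => cst (seq l (c l.length (seq l) j)) := by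
  have h1 : corners l = (List.range l.length).flatMap fun i =>
      if ((seq l (i + l.length - 1)).1 = (seq l i).1 ∧ (seq l i).1 = (seq l (i + 1)).1) ∨
        ((seq l (i + l.length - 1)).2 = (seq l i).2 ∧ (seq l i).2 = (seq l (i + 1)).2)
      then [] else [seq l i] := by
    unfold corners
    refine List.flatMap_congr fun i hi => ?_
    have hi' : i < l.length := List.mem_range.1 hi
    simp only [seq, Nat.mod_eq_of_lt hi']
  rw [h1, flat, List.map_map]
  have h2 : m l.length (seq l) = Nat.count (fun i =>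
      ¬((seq l (i + l.length - 1)).1 = (seq l i).1 ∧ (seq l i).1 = (seq l (i + 1)).1 ∨
        (seq l (i + l.length - 1)).2 = (seq l i).2 ∧ (seq l i).2 = (seq l (i + 1)).2))
      l.length := by
    unfold m
    rw [Nat.count_eq_card_filter_range, Nat.count_eq_card_filter_range]
    refine congrArg Finset.card (Finset.filter_congr fun i _ => Iff.rfl)
  rw [h2]
  rfl

lemma vtx_eq {l : List (ℕ × ℕ)} (h : Per C l.length (seq l)) (j : ℕ) :
    vtx ((corners l).map cst) j = cst (seq l (c l.length (seq l) j)) := by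
  rw [corners_eq h]
  unfold vtx
  have hm := m_pos h
  have h1 := Nat.mod_lt j hm
  rw [List.length_map, List.length_range, List.getD_eq_getElem _ _ (by simpa using h1)]
  simp only [List.getElem_map, List.getElem_range]
  rw [c_mod h j, p_add h]

lemma len_eq {l : List (ℕ × ℕ)} (h : Per C l.length (seq l)) :
    ((corners l).map cst).length = m l.length (seq l) := by
  rw [corners_eq h]
  simp

/-- the shape of the path between two consecutive corners -/
lemma seg (h : Per C n p) (j : ℕ) : ∀ s, c n p j + s ≤ c n p (j + 1) →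
    ((p (c n p j + s)).1 : ℤ) = (p (c n p j)).1 + s * dx p (c n p j) ∧
      ((p (c n p j + s)).2 : ℤ) = (p (c n p j)).2 + s * dy p (c n p j) :=
  run_pos h (fun _ h1 h2 => c_gap h h1 h2)

lemma turn (h : Per C n p) (j : ℕ) :
    (dx p (c n p j) = 0 ∧ dy p (c n p (j + 1)) = 0) ∨
      (dy p (c n p j) = 0 ∧ dx p (c n p (j + 1)) = 0) := by
  have h1 : c n p j < c n p (j + 1) := c_mono h (Nat.lt_succ_self j)
  obtain ⟨s, hs⟩ := Nat.exists_eq_add_of_lt h1
  have h2 := run h (fun i h1 h2 => c_gap h h1 h2 : ∀ i, c n p j < i → i < c n p (j + 1) →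
    ¬ K n p i) s (by omega)
  have h3 : K n p (c n p (j + 1)) := Nat.nth_mem_of_infinite (inf h) (j + 1)
  rw [hs, K_succ h, h2.1, h2.2, ← hs] at h3
  exact h3

lemma hv (h : Per C n p) (j : ℕ) :
    (dy p (c n p j) = 0 → Horiz (cst (p (c n p j))) (cst (p (c n p (j + 1))))) ∧
    (dx p (c n p j) = 0 → Verti (cst (p (c n p j))) (cst (p (c n p (j + 1))))) := by
  have h1 : c n p j < c n p (j + 1) := c_mono h (Nat.lt_succ_self j)
  obtain ⟨s, hs⟩ := Nat.exists_eq_add_of_le h1.le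
  have h2 := seg h j s (by omega)
  rw [← hs] at h2
  have h3 := step h (c n p j)
  have hs0 : 0 < s := by omega
  unfold Unit4 at h3
  unfold Horiz Verti cst
  constructor
  · intro h4
    rw [h4, mul_zero, add_zero] at h2
    have h5 : dx p (c n p j) = 1 ∨ dx p (c n p j) = -1 := by omega
    refine ⟨?_, ?_⟩
    · simp only
      exact_mod_cast h2.2.symm
    · simp only
      intro h6
      have h7 : (p (c n p j)).1 = (p (c n p (j + 1))).1 := by exact_mod_cast h6
      rcases h5 with h5 | h5 <;> rw [h5] at h2 <;> omega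
  · intro h4
    rw [h4, mul_zero, add_zero] at h2
    have h5 : dy p (c n p j) = 1 ∨ dy p (c n p j) = -1 := by omega
    refine ⟨?_, ?_⟩
    · simp only
      exact_mod_cast h2.1.symm
    · simp only
      intro h6
      have h7 : (p (c n p j)).2 = (p (c n p (j + 1))).2 := by exact_mod_cast h6
      rcases h5 with h5 | h5 <;> rw [h5] at h2 <;> omega

lemma alt (h : Per C n p) (j : ℕ) :
    (Horiz (cst (p (c n p j))) (cst (p (c n p (j + 1)))) ∧
      Verti (cst (p (c n p (j + 1)))) (cst (p (c n p (j + 2))))) ∨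
    (Verti (cst (p (c n p j))) (cst (p (c n p (j + 1)))) ∧
      Horiz (cst (p (c n p (j + 1)))) (cst (p (c n p (j + 2))))) := by
  rcases turn h j with ⟨h1, h2⟩ | ⟨h1, h2⟩
  · exact Or.inr ⟨(hv h j).2 h1, (hv h (j + 1)).1 h2⟩
  · exact Or.inl ⟨(hv h j).1 h1, (hv h (j + 1)).2 h2⟩

/-- the point `z` is on the unit segment from `q` with direction `(x, y)` -/
def On (z : ℝ × ℝ) (q : ℕ × ℕ) (x y : ℤ) : Prop :=
  ∃ t : ℝ, 0 ≤ t ∧ t ≤ 1 ∧ z.1 = q.1 + t * x ∧ z.2 = q.2 + t * y

lemma edge_on (h : Per C n p) (j : ℕ) {z : ℝ × ℝ}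
    (hz : z ∈ segment ℝ (toR (cst (p (c n p j)))) (toR (cst (p (c n p (j + 1)))))) :
    ∃ k, c n p j ≤ k ∧ k < c n p (j + 1) ∧ On z (p k) (dx p k) (dy p k) := by
  have h1 : c n p j < c n p (j + 1) := c_mono h (Nat.lt_succ_self j)
  obtain ⟨S, hS⟩ := Nat.exists_eq_add_of_le h1.le
  have hS0 : 0 < S := by omega
  have h2 := seg h j
  rw [segment_eq_image] at hz
  obtain ⟨θ, ⟨hθ0, hθ1⟩, rfl⟩ := hz
  have hS1 : (0 : ℝ) < S := by exact_mod_cast hS0
  set s : ℕ := min ⌊θ * S⌋₊ (S - 1) with hs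
  have hsS : s ≤ S - 1 := min_le_right _ _
  have ht0 : (s : ℝ) ≤ θ * S := by
    have h3 : (s : ℝ) ≤ (⌊θ * S⌋₊ : ℝ) := by exact_mod_cast min_le_left _ _
    exact h3.trans (Nat.floor_le (by positivity))
  have ht1 : θ * S ≤ s + 1 := by
    rcases le_total ⌊θ * S⌋₊ (S - 1) with h4 | h4
    · rw [hs, min_eq_left h4]
      exact (Nat.lt_floor_add_one _).le
    · rw [hs, min_eq_right h4]
      have h5 : (((S - 1 : ℕ) : ℝ)) + 1 = S := by
        have : S - 1 + 1 = S := by omega
        exact_mod_cast this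
      rw [h5]
      nlinarith
  have hr := run h (fun i h1 h2 => c_gap h h1 h2 : ∀ i, c n p j < i → i < c n p (j + 1) →
    ¬ K n p i) s (by omega)
  have e1 := h2 s (by omega)
  have e2 := h2 S (by omega)
  rw [← hS] at e2
  refine ⟨c n p j + s, by omega, by omega, θ * S - s, by linarith, by linarith, ?_, ?_⟩
  · have f1 : (((p (c n p j + s)).1 : ℕ) : ℝ) = (p (c n p j)).1 + s * dx p (c n p j) := by
      exact_mod_cast e1.1
    have f2 : (((p (c n p (j + 1))).1 : ℕ) : ℝ) = (p (c n p j)).1 + S * dx p (c n p j) := by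
      exact_mod_cast e2.1
    rw [f1, hr.1]
    simp only [toR, cst, Prod.smul_mk, Prod.mk_add_mk, smul_eq_mul, Rat.cast_natCast]
    rw [f2]
    ring
  · have f1 : (((p (c n p j + s)).2 : ℕ) : ℝ) = (p (c n p j)).2 + s * dy p (c n p j) := by
      exact_mod_cast e1.2
    have f2 : (((p (c n p (j + 1))).2 : ℕ) : ℝ) = (p (c n p j)).2 + S * dy p (c n p j) := by
      exact_mod_cast e2.2
    rw [f1, hr.2]
    simp only [toR, cst, Prod.smul_mk, Prod.mk_add_mk, smul_eq_mul, Rat.cast_natCast]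
    rw [f2]
    ring

lemma tbd {t : ℝ} (h0 : 0 ≤ t) (h1 : t ≤ 1) (e : ℤ) :
    t * e ≤ ((max 0 e : ℤ) : ℝ) ∧ -((max 0 (-e) : ℤ) : ℝ) ≤ t * e := by
  rcases le_total 0 e with he | he
  · have he' : (0 : ℝ) ≤ e := by exact_mod_cast he
    rw [max_eq_right he, max_eq_left (by omega : -e ≤ 0)]
    constructor
    · nlinarith
    · push_cast
      nlinarith
  · have he' : (e : ℝ) ≤ 0 := by exact_mod_cast he
    rw [max_eq_left he, max_eq_right (by omega : 0 ≤ -e)]
    constructor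
    · push_cast
      nlinarith
    · push_cast
      nlinarith

lemma cbd {t t' : ℝ} (h0 : 0 ≤ t) (h1 : t ≤ 1) (h0' : 0 ≤ t') (h1' : t' ≤ 1) (e e' : ℤ)
    (a b : ℕ) (h : (a : ℝ) + t * e = b + t' * e') :
    (a : ℤ) - b ≤ max 0 e' + max 0 (-e) ∧ -(max 0 (-e') + max 0 e) ≤ (a : ℤ) - b := by
  have h2 := tbd h0 h1 e
  have h3 := tbd h0' h1' e'
  constructor
  · have : (((a : ℤ) - b : ℤ) : ℝ) ≤ ((max 0 e' + max 0 (-e) : ℤ) : ℝ) := by
      push_cast at h2 h3 ⊢
      linarith [h2.2, h3.1]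
    exact_mod_cast this
  · have : ((-(max 0 (-e') + max 0 e) : ℤ) : ℝ) ≤ (((a : ℤ) - b : ℤ) : ℝ) := by
      push_cast at h2 h3 ⊢
      linarith [h2.1, h3.2]
    exact_mod_cast this

lemma meet {z : ℝ × ℝ} {q r : ℕ × ℕ} {x y x' y' : ℤ} (h : Unit4 x y) (h' : Unit4 x' y')
    (hz : On z q x y) (hz' : On z r x' y') :
    ((q.1 : ℤ) = r.1 ∧ (q.2 : ℤ) = r.2) ∨ ((q.1 : ℤ) = r.1 + x' ∧ (q.2 : ℤ) = r.2 + y') ∨
    ((q.1 : ℤ) + x = r.1 ∧ (q.2 : ℤ) + y = r.2) ∨
    ((q.1 : ℤ) + x = r.1 + x' ∧ (q.2 : ℤ) + y = r.2 + y') := by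
  obtain ⟨t, h0, h1, h2, h3⟩ := hz
  obtain ⟨t', h0', h1', h2', h3'⟩ := hz'
  have b1 := cbd h0 h1 h0' h1' x x' q.1 r.1 (h2.symm.trans h2')
  have b2 := cbd h0 h1 h0' h1' y y' q.2 r.2 (h3.symm.trans h3')
  unfold Unit4 at h h'
  rcases h with ⟨rfl, rfl⟩ | ⟨rfl, rfl⟩ | ⟨rfl, rfl⟩ | ⟨rfl, rfl⟩ <;>
  rcases h' with ⟨rfl, rfl⟩ | ⟨rfl, rfl⟩ | ⟨rfl, rfl⟩ | ⟨rfl, rfl⟩ <;>
  norm_num at b1 b2 <;> omega

lemma ne_of (h : Per C n p) {a b : ℕ} (h1 : a < b) (h2 : b < a + n) : p a ≠ p b := fun h3 =>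
  absurd (h.inj a b h1.le h2 h3) h1.ne

lemma far (h : Per C n p) {i j : ℕ} (hij : i < j) (hj : j < m n p) (h1 : j ≠ i + 1)
    (h2 : ¬ (i = 0 ∧ j + 1 = m n p)) :
    Disjoint (segment ℝ (toR (cst (p (c n p i)))) (toR (cst (p (c n p (i + 1))))))
      (segment ℝ (toR (cst (p (c n p j)))) (toR (cst (p (c n p (j + 1)))))) := by
  rw [Set.disjoint_left]
  intro z hz hz'
  obtain ⟨a, a1, a2, a3⟩ := edge_on h i hz
  obtain ⟨b, b1, b2, b3⟩ := edge_on h j hz'
  have g1 : c n p (i + 1) < c n p j := c_mono h (by omega)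
  have g2 : c n p (j + 1) ≤ c n p (0 + m n p) := (c_mono h).monotone (by omega)
  rw [c_add' h] at g2
  have g3 : c n p 0 ≤ c n p i := (c_mono h).monotone (by omega)
  have g4 : b + 1 < a + n := by
    rcases Nat.eq_zero_or_pos i with hi | hi
    · have : c n p (j + 1) < c n p (0 + m n p) := c_mono h (by omega)
      rw [c_add' h] at this
      omega
    · have : c n p 0 < c n p i := c_mono h hi
      omega
  have key := meet (step h a) (step h b) a3 b3
  have e1 : ((p (a + 1)).1 : ℤ) = (p a).1 + dx p a := by unfold dx; ring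
  have e2 : ((p (a + 1)).2 : ℤ) = (p a).2 + dy p a := by unfold dy; ring
  have e3 : ((p (b + 1)).1 : ℤ) = (p b).1 + dx p b := by unfold dx; ring
  have e4 : ((p (b + 1)).2 : ℤ) = (p b).2 + dy p b := by unfold dy; ring
  rw [← e1, ← e2, ← e3, ← e4] at key
  rcases key with k | k | k | k
  · exact ne_of h (a := a) (b := b) (by omega) (by omega)
      (Prod.ext (by exact_mod_cast k.1) (by exact_mod_cast k.2))
  · exact ne_of h (a := a) (b := b + 1) (by omega) (by omega)
      (Prod.ext (by exact_mod_cast k.1) (by exact_mod_cast k.2))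
  · exact ne_of h (a := a + 1) (b := b) (by omega) (by omega)
      (Prod.ext (by exact_mod_cast k.1) (by exact_mod_cast k.2))
  · exact ne_of h (a := a + 1) (b := b + 1) (by omega) (by omega)
      (Prod.ext (by exact_mod_cast k.1) (by exact_mod_cast k.2))

lemma horiz_snd {a b : ℚ × ℚ} (h : Horiz a b) {z : ℝ × ℝ}
    (hz : z ∈ segment ℝ (toR a) (toR b)) : z.2 = a.2 ∧ z.2 = b.2 := by
  rw [segment_eq_image] at hz
  obtain ⟨θ, -, rfl⟩ := hz
  have h1 : (a.2 : ℝ) = b.2 := by exact_mod_cast h.1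
  simp only [toR, Prod.smul_mk, Prod.mk_add_mk, smul_eq_mul]
  rw [h1]
  constructor <;> ring

lemma verti_fst {a b : ℚ × ℚ} (h : Verti a b) {z : ℝ × ℝ}
    (hz : z ∈ segment ℝ (toR a) (toR b)) : z.1 = a.1 ∧ z.1 = b.1 := by
  rw [segment_eq_image] at hz
  obtain ⟨θ, -, rfl⟩ := hz
  have h1 : (a.1 : ℝ) = b.1 := by exact_mod_cast h.1
  simp only [toR, Prod.smul_mk, Prod.mk_add_mk, smul_eq_mul]
  rw [h1]
  constructor <;> ring

lemma near {a b d : ℚ × ℚ} (h : (Horiz a b ∧ Verti b d) ∨ (Verti a b ∧ Horiz b d)) :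
    segment ℝ (toR a) (toR b) ∩ segment ℝ (toR b) (toR d) = {toR b} := by
  apply Set.Subset.antisymm
  · rintro z ⟨h1, h2⟩
    rw [Set.mem_singleton_iff]
    rcases h with ⟨k1, k2⟩ | ⟨k1, k2⟩
    · exact Prod.ext (verti_fst k2 h2).1 (horiz_snd k1 h1).2
    · exact Prod.ext (verti_fst k1 h1).2 (horiz_snd k2 h2).1
  · rintro z rfl
    exact ⟨right_mem_segment _ _ _, left_mem_segment _ _ _⟩

lemma four {m : ℕ} (hm : 0 < m) (v : ℕ → ℚ × ℚ) (hv : ∀ j, v (j + m) = v j)
    (h : ∀ i, (Horiz (v i) (v (i + 1)) ∧ Verti (v (i + 1)) (v (i + 2))) ∨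
    (Verti (v i) (v (i + 1)) ∧ Horiz (v (i + 1)) (v (i + 2)))) : 4 ≤ m := by
  by_contra hc
  have h0 := h 0
  have h1 := h 1
  have h2 := h 2
  have : m = 1 ∨ m = 2 ∨ m = 3 := by omega
  unfold Horiz Verti at *
  rcases this with rfl | rfl | rfl
  · have e := hv 0
    simp only [zero_add] at e h0
    rw [e] at h0
    simp at h0
  · have e := hv 0
    simp only [zero_add] at e h0
    rw [e] at h0
    rcases h0 with ⟨⟨a1, a2⟩, a3, a4⟩ | ⟨⟨a1, a2⟩, a3, a4⟩
    · exact a2 a3.symm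
    · exact a2 a3.symm
  · have e := hv 0
    have e' := hv 1
    simp only [zero_add, Nat.reduceAdd] at e e' h0 h1 h2
    rw [e] at h1 h2
    rw [e'] at h2
    tauto

end Simple

open Simple in
/-- **D3.** -/
theorem simple_of_path {C : ℤ → ℤ → Prop} (hC : {p : ℤ × ℤ | C p.1 p.2}.Finite)
    {l : List (ℕ × ℕ)} (hl : PathOf C l) :
    IsSimpleRectilinear ((corners l).map fun p => ((p.1 : ℚ), (p.2 : ℚ))) := by
  have h := per_of_path hl
  have halt : ∀ i, (Horiz (vtx ((corners l).map cst) i) (vtx ((corners l).map cst) (i + 1)) ∧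
      Verti (vtx ((corners l).map cst) (i + 1)) (vtx ((corners l).map cst) (i + 2))) ∨
      (Verti (vtx ((corners l).map cst) i) (vtx ((corners l).map cst) (i + 1)) ∧
      Horiz (vtx ((corners l).map cst) (i + 1)) (vtx ((corners l).map cst) (i + 2))) := by
    intro i
    rw [vtx_eq h, vtx_eq h, vtx_eq h]
    exact alt h i
  have hlen := len_eq h
  have hm := m_pos h
  show IsSimpleRectilinear ((corners l).map cst)
  refine ⟨?_, halt, ?_, fun i => near (halt i)⟩
  · rw [hlen]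
    refine four hm (vtx ((corners l).map cst)) (fun j => ?_) halt
    unfold vtx
    rw [hlen, Nat.add_mod_right]
  · intro i j h1 h2 h3 h4
    rw [hlen] at h2 h4
    unfold edge
    rw [vtx_eq h, vtx_eq h, vtx_eq h, vtx_eq h]
    exact far h h1 h2 h3 h4

end Pool.Agent.Lib.MP_7d5495_lc
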