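import Mathlib
import Pool.Agent.Lib.MP_7d5495_lc.Fam

/-!
# Unions of unit cells: interior points, partitions and the stabbing number
-/

namespace Pool.Agent.Lib.MP_7d5495_lc

open Set

/-- **I1. Interior points.** -/
theorem mem_interior_cells {O : ℤ} {C : ℤ → ℤ → Prop} {p : ℝ × ℝ} :
    p ∈ interior (cells O C) ↔ ∀ a b : ℤ, (O + a : ℝ) ≤ p.1 → p.1 ≤ O + a + 1 →
      (O + b : ℝ) ≤ p.2 → p.2 ≤ O + b + 1 → C a b := by
  constructor
  · intro hp a b h1 h2 h3 h4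
    have hcl : p ∈ closure (Ioo (O + a : ℝ) (O + a + 1) ×ˢ Ioo (O + b : ℝ) (O + b + 1)) := by
      rw [closure_prod_eq, closure_Ioo (by linarith), closure_Ioo (by linarith)]
      exact ⟨⟨h1, h2⟩, ⟨h3, h4⟩⟩
    obtain ⟨q, hq1, hq2⟩ := mem_closure_iff.mp hcl _ isOpen_interior hp
    obtain ⟨a', b', hC, k1, k2, k3, k4⟩ := interior_subset hq1
    obtain ⟨⟨l1, l2⟩, ⟨l3, l4⟩⟩ := hq2
    have e1 : a' = a := by
      have m1 : (a' : ℝ) < a + 1 := by linarith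
      have m2 : (a : ℝ) < a' + 1 := by linarith
      have n1 : a' < a + 1 := by exact_mod_cast m1
      have n2 : a < a' + 1 := by exact_mod_cast m2
      omega
    have e2 : b' = b := by
      have m1 : (b' : ℝ) < b + 1 := by linarith
      have m2 : (b : ℝ) < b' + 1 := by linarith
      have n1 : b' < b + 1 := by exact_mod_cast m1
      have n2 : b < b' + 1 := by exact_mod_cast m2
      omega
    rw [← e1, ← e2]
    exact hC
  · intro h
    rw [mem_interior_iff_mem_nhds]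
    have key : ∀ x : ℝ, (O + (⌈x - O⌉ : ℤ) - 1 : ℝ) < x ∧ x < O + (⌊x - O⌋ : ℤ) + 1 := by
      intro x
      constructor
      · have := Int.ceil_lt_add_one (x - O)
        linarith
      · have := Int.lt_floor_add_one (x - O)
        linarith
    have key2 : ∀ x y : ℝ, (O + (⌈x - O⌉ : ℤ) - 1 : ℝ) < y → y < O + (⌊x - O⌋ : ℤ) + 1 →
        (O + (⌊y - O⌋ : ℤ) : ℝ) ≤ x ∧ x ≤ O + (⌊y - O⌋ : ℤ) + 1 := by
      intro x y h1 h2
      have f1 := Int.floor_le (y - O)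
      have f2 := Int.lt_floor_add_one (y - O)
      have g1 := Int.floor_le (x - O)
      have g2 := Int.le_ceil (x - O)
      constructor
      · have m : ((⌊y - O⌋ : ℤ) : ℝ) < (⌊x - O⌋ : ℤ) + 1 := by linarith
        have m' : ⌊y - O⌋ < ⌊x - O⌋ + 1 := by exact_mod_cast m
        have m'' : ⌊y - O⌋ ≤ ⌊x - O⌋ := by omega
        have : ((⌊y - O⌋ : ℤ) : ℝ) ≤ (⌊x - O⌋ : ℤ) := by exact_mod_cast m''
        linarith
      · have m : ((⌈x - O⌉ : ℤ) : ℝ) < (⌊y - O⌋ : ℤ) + 1 + 1 := by linarith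
        have m' : ⌈x - O⌉ < ⌊y - O⌋ + 1 + 1 := by exact_mod_cast m
        have m'' : ⌈x - O⌉ ≤ ⌊y - O⌋ + 1 := by omega
        have : ((⌈x - O⌉ : ℤ) : ℝ) ≤ (⌊y - O⌋ : ℤ) + 1 := by exact_mod_cast m''
        linarith
    refine Filter.mem_of_superset (prod_mem_nhds
      (Ioo_mem_nhds (key p.1).1 (key p.1).2) (Ioo_mem_nhds (key p.2).1 (key p.2).2)) ?_
    rintro q ⟨⟨q1, q2⟩, ⟨q3, q4⟩⟩
    obtain ⟨r1, r2⟩ := key2 p.1 q.1 q1 q2
    obtain ⟨r3, r4⟩ := key2 p.2 q.2 q3 q4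
    refine ⟨⌊q.1 - O⌋, ⌊q.2 - O⌋, h _ _ r1 r2 r3 r4, ?_, ?_, ?_, ?_⟩
    · have := Int.floor_le (q.1 - O)
      linarith
    · have := Int.lt_floor_add_one (q.1 - O)
      linarith
    · have := Int.floor_le (q.2 - O)
      linarith
    · have := Int.lt_floor_add_one (q.2 - O)
      linarith

/-- a unit cell as a rectangle -/
noncomputable def interiorUnit (O : ℤ) (p : ℤ × ℤ) : Rect where
  x₁ := O + p.1
  x₂ := O + p.1 + 1
  y₁ := O + p.2
  y₂ := O + p.2 + 1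
  hx := by linarith
  hy := by linarith

theorem interior_isPartition {O : ℤ} {C : ℤ → ℤ → Prop}
    (hC : {p : ℤ × ℤ | C p.1 p.2}.Finite) :
    ∃ 𝒯 : Finset Rect, IsPartition (cells O C) 𝒯 := by
  classical
  refine ⟨hC.toFinset.image (interiorUnit O), ?_, ?_⟩
  · intro R hR R' hR' hne
    obtain ⟨p, hp, rfl⟩ := Finset.mem_image.mp hR
    obtain ⟨p', hp', rfl⟩ := Finset.mem_image.mp hR'
    rw [Set.disjoint_left]
    intro q hq hq'
    apply hne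
    unfold Rect.carrier at hq hq'
    rw [interior_prod_eq, interior_Icc, interior_Icc] at hq hq'
    obtain ⟨⟨l1, l2⟩, ⟨l3, l4⟩⟩ := hq
    obtain ⟨⟨k1, k2⟩, ⟨k3, k4⟩⟩ := hq'
    simp only [interiorUnit] at l1 l2 l3 l4 k1 k2 k3 k4
    have e1 : p.1 = p'.1 := by
      have m1 : (p.1 : ℝ) < p'.1 + 1 := by linarith
      have m2 : (p'.1 : ℝ) < p.1 + 1 := by linarith
      have n1 : p.1 < p'.1 + 1 := by exact_mod_cast m1
      have n2 : p'.1 < p.1 + 1 := by exact_mod_cast m2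
      omega
    have e2 : p.2 = p'.2 := by
      have m1 : (p.2 : ℝ) < p'.2 + 1 := by linarith
      have m2 : (p'.2 : ℝ) < p.2 + 1 := by linarith
      have n1 : p.2 < p'.2 + 1 := by exact_mod_cast m1
      have n2 : p'.2 < p.2 + 1 := by exact_mod_cast m2
      omega
    rw [Prod.ext e1 e2]
  · ext q
    simp only [Finset.mem_image, Set.Finite.mem_toFinset, Set.mem_ofPred_eq, Set.mem_iUnion,
      exists_prop]
    constructor
    · rintro ⟨R, ⟨p, hp, rfl⟩, ⟨h1, h2⟩, ⟨h3, h4⟩⟩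
      exact ⟨p.1, p.2, hp, h1, h2, h3, h4⟩
    · rintro ⟨a, b, h, h1, h2, h3, h4⟩
      exact ⟨interiorUnit O (a, b), ⟨(a, b), h, rfl⟩, ⟨h1, h2⟩, ⟨h3, h4⟩⟩

/-- **L11. Partitions exist, and the stabbing number is attained.** -/
theorem exists_partition {O : ℤ} {C : ℤ → ℤ → Prop} (hC : {p : ℤ × ℤ | C p.1 p.2}.Finite)
    {k : ℕ} (h : stab (cells O C) ≤ k) :
    ∃ 𝒯 : Finset Rect, IsPartition (cells O C) 𝒯 ∧ ∀ s, IsStabbing (cells O C) s →
      meets 𝒯 s ≤ k := by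
  classical
  obtain ⟨𝒯₀, h₀⟩ := interior_isPartition (O := O) hC
  have hne : {n | ∃ 𝒯, IsPartition (cells O C) 𝒯 ∧ n = stabOf (cells O C) 𝒯}.Nonempty :=
    ⟨_, 𝒯₀, h₀, rfl⟩
  obtain ⟨𝒯, h1, h2⟩ := Nat.sInf_mem hne
  refine ⟨𝒯, h1, fun s hs => ?_⟩
  refine le_trans ?_ h
  unfold stab
  rw [h2]
  unfold stabOf
  refine le_csSup ⟨𝒯.card, ?_⟩ ⟨s, hs, rfl⟩
  rintro n ⟨s', -, rfl⟩
  unfold meets
  exact Finset.card_filter_le _ _

theorem stab_le_of_partition {S : Set (ℝ × ℝ)} {k : ℕ} (𝒯 : Finset Rect)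
    (h𝒯 : IsPartition S 𝒯) (h : ∀ s, IsStabbing S s → meets 𝒯 s ≤ k) : stab S ≤ k := by
  have h1 : stab S ≤ stabOf S 𝒯 := Nat.sInf_le ⟨𝒯, h𝒯, rfl⟩
  refine h1.trans ?_
  unfold stabOf
  apply csSup_le'
  rintro n ⟨s, hs, rfl⟩
  exact h s hs

end Pool.Agent.Lib.MP_7d5495_lc
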