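import Pool.Agent.Lib.MP_7d5495_lc.Tiles
import Pool.Agent.Lib.MP_7d5495_lc.Interior

/-!
# From certificates to the stabbing number
-/

set_option autoImplicit false

namespace Pool.Agent.Lib.MP_7d5495_lc

open Set

namespace StabCerts

/-- an integer rectangle as a rectangle of the plane, shifted by `(O, O)` -/
noncomputable def toRect (O : ℤ) (R : ZR) : Rect :=
  if h : R.x₁ < R.x₂ ∧ R.y₁ < R.y₂ then
    { x₁ := O + R.x₁, x₂ := O + R.x₂, y₁ := O + R.y₁, y₂ := O + R.y₂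
      hx := by have : (R.x₁ : ℝ) < R.x₂ := by exact_mod_cast h.1
               linarith
      hy := by have : (R.y₁ : ℝ) < R.y₂ := by exact_mod_cast h.2
               linarith }
  else ⟨0, 1, 0, 1, by norm_num, by norm_num⟩

theorem mem_toRect {O : ℤ} {R : ZR} (h : R.x₁ < R.x₂ ∧ R.y₁ < R.y₂) {p : ℝ × ℝ} :
    p ∈ (toRect O R).carrier ↔ (O + R.x₁ : ℝ) ≤ p.1 ∧ p.1 ≤ O + R.x₂ ∧ (O + R.y₁ : ℝ) ≤ p.2 ∧
      p.2 ≤ O + R.y₂ := by
  unfold toRect Rect.carrier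
  rw [dif_pos h]
  simp only [Set.mem_prod, Set.mem_Icc]
  tauto

theorem mem_int_toRect {O : ℤ} {R : ZR} (h : R.x₁ < R.x₂ ∧ R.y₁ < R.y₂) {p : ℝ × ℝ} :
    p ∈ interior (toRect O R).carrier ↔ (O + R.x₁ : ℝ) < p.1 ∧ p.1 < O + R.x₂ ∧
      (O + R.y₁ : ℝ) < p.2 ∧ p.2 < O + R.y₂ := by
  unfold toRect Rect.carrier
  rw [dif_pos h, interior_prod_eq, interior_Icc, interior_Icc]
  simp only [Set.mem_prod, Set.mem_Ioo]
  tauto

/-- the tiles as a list -/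
def tl (P : Par) (Q : Fill) : List ZR :=
  (List.range P.N).flatMap fun s => (P.frameTiles Q s).map (P.toZero s)

theorem mem_tl {P : Par} {Q : Fill} {R : ZR} : R ∈ tl P Q ↔ P.tile Q 0 R := by
  unfold tl Par.tile
  simp only [List.mem_flatMap, List.mem_range, List.mem_map, Par.toZero]

/-- a real number in a closed integer interval lies in a unit interval of it -/
theorem exists_unit {u v : ℤ} (h : u < v) {x : ℝ} (h1 : (u : ℝ) ≤ x) (h2 : x ≤ v) :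
    ∃ a : ℤ, u ≤ a ∧ a < v ∧ (a : ℝ) ≤ x ∧ x ≤ a + 1 := by
  refine ⟨min ⌊x⌋ (v - 1), ?_, ?_, ?_, ?_⟩
  · have : u ≤ ⌊x⌋ := Int.le_floor.2 h1
    omega
  · omega
  · refine le_trans ?_ (Int.floor_le x)
    exact_mod_cast min_le_left _ _
  · rcases le_total ⌊x⌋ (v - 1) with h3 | h3
    · rw [min_eq_left h3]; exact (Int.lt_floor_add_one x).le
    · rw [min_eq_right h3]; push_cast; linarith

open scoped Classical in
theorem isPartition {P : Par} {cell : ℕ → ℤ → ℤ → Prop} {Q : Fill} (hT : Tiling P Q cell)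
    (O : ℤ) : IsPartition (cells O (cell 0)) ((tl P Q).toFinset.image (toRect O)) := by
  constructor
  · intro R hR R' hR' hne
    obtain ⟨r, hr, rfl⟩ := Finset.mem_image.1 hR
    obtain ⟨r', hr', rfl⟩ := Finset.mem_image.1 hR'
    rw [List.mem_toFinset, mem_tl] at hr hr'
    have hp := hT.pos 0 r hr
    have hp' := hT.pos 0 r' hr'
    rw [Set.disjoint_left]
    intro p h1 h2
    rw [mem_int_toRect hp] at h1
    rw [mem_int_toRect hp'] at h2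
    obtain ⟨a1, a2, a3, a4⟩ := h1
    obtain ⟨b1, b2, b3, b4⟩ := h2
    apply hne
    have key : ∀ (r : ZR), (O + r.x₁ : ℝ) < p.1 → p.1 < O + r.x₂ →
      (O + r.y₁ : ℝ) < p.2 → p.2 < O + r.y₂ → r.Has ⌊p.1 - O⌋ ⌊p.2 - O⌋ := by
      intro r h1 h2 h3 h4
      refine ⟨Int.le_floor.2 (by linarith), Int.floor_lt.2 (by linarith),
        Int.le_floor.2 (by linarith), Int.floor_lt.2 (by linarith)⟩
    rw [hT.uniq 0 r r' hr hr' _ _ (key r a1 a2 a3 a4) (key r' b1 b2 b3 b4)]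
  · ext p
    simp only [Set.mem_iUnion]
    constructor
    · rintro ⟨R, hR, hp⟩
      obtain ⟨r, hr, rfl⟩ := Finset.mem_image.1 hR
      rw [List.mem_toFinset, mem_tl] at hr
      have hpos := hT.pos 0 r hr
      rw [mem_toRect hpos] at hp
      obtain ⟨a1, a2, a3, a4⟩ := hp
      obtain ⟨a, c1, c2, c3, c4⟩ := exists_unit hpos.1 (x := p.1 - O) (by linarith) (by linarith)
      obtain ⟨b, d1, d2, d3, d4⟩ := exists_unit hpos.2 (x := p.2 - O) (by linarith) (by linarith)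
      exact ⟨a, b, hT.sub 0 r hr a b ⟨c1, c2, d1, d2⟩, by linarith, by linarith, by linarith,
        by linarith⟩
    · rintro ⟨a, b, hc, h1, h2, h3, h4⟩
      obtain ⟨r, hr, g1, g2, g3, g4⟩ := hT.own 0 a b hc
      refine ⟨toRect O r, Finset.mem_image.2 ⟨r, by rw [List.mem_toFinset, mem_tl]; exact hr, rfl⟩,
        ?_⟩
      rw [mem_toRect (hT.pos 0 r hr)]
      have e1 : (r.x₁ : ℝ) ≤ a := by exact_mod_cast g1
      have e2 : (a : ℝ) + 1 ≤ r.x₂ := by exact_mod_cast g2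
      have e3 : (r.y₁ : ℝ) ≤ b := by exact_mod_cast g3
      have e4 : (b : ℝ) + 1 ≤ r.y₂ := by exact_mod_cast g4
      exact ⟨by linarith, by linarith, by linarith, by linarith⟩

/-- the doubled level of a line -/
noncomputable def lev (c : ℝ) : ℤ := ⌊c⌋ + ⌈c⌉

theorem lev_iff (c : ℝ) (b : ℤ) : (2 * b ≤ lev c ∧ lev c ≤ 2 * b + 2) ↔
    ((b : ℝ) ≤ c ∧ c ≤ b + 1) := by
  unfold lev
  have h1 : ⌈c⌉ ≤ ⌊c⌋ + 1 := Int.ceil_le_floor_add_one c
  have h2 : ⌊c⌋ ≤ ⌈c⌉ := Int.floor_le_ceil c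
  have e1 : ((b : ℝ) ≤ c) ↔ b ≤ ⌊c⌋ := Int.le_floor.symm
  have e2 : (c ≤ (b : ℝ) + 1) ↔ ⌈c⌉ ≤ b + 1 := by
    rw [Int.ceil_le]; push_cast; rfl
  rw [e1, e2]
  omega

theorem lev_floor (c : ℝ) : 2 * ⌊c⌋ ≤ lev c ∧ lev c ≤ 2 * ⌊c⌋ + 2 := by
  rw [lev_iff]
  exact ⟨Int.floor_le c, (Int.lt_floor_add_one c).le⟩

open scoped Classical in
/-- counting the rectangles that the segment meets -/
theorem meets_le {P : Par} {Q : Fill} {O : ℤ} {s : Set (ℝ × ℝ)} (L : List ZR)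
    (hL : ∀ R, P.tile Q 0 R → ((toRect O R).carrier ∩ s).Nonempty → R ∈ L) :
    meets ((tl P Q).toFinset.image (toRect O)) s ≤ L.length := by
  unfold meets
  calc _ ≤ (L.toFinset.image (toRect O)).card := by
        refine Finset.card_le_card ?_
        intro R hR
        rw [Finset.mem_filter, Finset.mem_image] at hR
        obtain ⟨⟨r, hr, rfl⟩, h⟩ := hR
        rw [List.mem_toFinset, mem_tl] at hr
        exact Finset.mem_image.2 ⟨r, List.mem_toFinset.2 (hL r hr h), rfl⟩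
    _ ≤ L.toFinset.card := Finset.card_image_le
    _ ≤ L.length := List.toFinset_card_le L

/-- the one-dimensional part of the argument: the touched unit intervals stay between two
barriers -/
theorem between {α β : ℝ} {p₀ A₁ A₂ : ℤ} (h0 : α < p₀ + 1) (h0' : (p₀ : ℝ) < β)
    (h1 : A₁ ≤ p₀) (h2 : p₀ < A₂)
    (hA₁ : ¬ (α < (A₁ - 1 : ℤ) + 1 ∧ ((A₁ - 1 : ℤ) : ℝ) < β))
    (hA₂ : ¬ (α < (A₂ : ℤ) + 1 ∧ (A₂ : ℝ) < β)) {a : ℤ} (h3 : α < a + 1) (h4 : (a : ℝ) < β) :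
    A₁ ≤ a ∧ a < A₂ := by
  constructor
  · by_contra h
    apply hA₁
    have e1 : (a : ℝ) ≤ (A₁ : ℝ) - 1 := by
      have : a ≤ A₁ - 1 := by omega
      exact_mod_cast this
    have e2 : (A₁ : ℝ) ≤ p₀ := by exact_mod_cast h1
    push_cast
    constructor <;> linarith
  · by_contra h
    apply hA₂
    have e1 : (A₂ : ℝ) ≤ a := by
      have : A₂ ≤ a := by omega
      exact_mod_cast this
    have e2 : (p₀ : ℝ) + 1 ≤ A₂ := by exact_mod_cast h2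
    constructor <;> linarith

/-- an open segment that touches a closed unit interval contains a point of it -/
theorem exists_touch {α β : ℝ} (hab : α < β) {a : ℤ} (h1 : α < a + 1) (h2 : (a : ℝ) < β) :
    ∃ x, α < x ∧ x < β ∧ (a : ℝ) ≤ x ∧ x ≤ a + 1 := by
  refine ⟨(max α a + min β (a + 1)) / 2, ?_, ?_, ?_, ?_⟩ <;>
  rcases le_total α a with h3 | h3 <;> rcases le_total β (a + 1) with h4 | h4 <;>
  simp only [max_eq_right h3, max_eq_left h3, min_eq_left h4, min_eq_right h4] <;> linarith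

theorem row_case {P : Par} {cell : ℕ → ℤ → ℤ → Prop} {Q : Fill} (hT : Tiling P Q cell)
    (h : ∀ a b, cell 0 a b → Rows P Q cell 0 a b ∧ Cols P Q cell 0 a b)
    {α β c : ℝ} (hab : α < β)
    (hs : ∀ a b : ℤ, α < a + 1 → (a : ℝ) < β → (b : ℝ) ≤ c → c ≤ b + 1 → cell 0 a b) :
    ∃ L : List ZR, L.length ≤ P.k ∧ ∀ R, P.tile Q 0 R →
      (∃ x, α < x ∧ x < β ∧ (R.x₁ : ℝ) ≤ x ∧ x ≤ R.x₂ ∧ (R.y₁ : ℝ) ≤ c ∧ c ≤ R.y₂) → R ∈ L := by
  obtain ⟨m1, m2⟩ : α < (⌊(α + β) / 2⌋ : ℝ) + 1 ∧ (⌊(α + β) / 2⌋ : ℝ) < β := by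
    constructor
    · have := Int.lt_floor_add_one ((α + β) / 2); linarith
    · have := Int.floor_le ((α + β) / 2); linarith
  have hc0 := hs ⌊(α + β) / 2⌋ ⌊c⌋ m1 m2 (Int.floor_le c) (Int.lt_floor_add_one c).le
  obtain ⟨l1, l2⟩ := lev_floor c
  obtain ⟨A₁, A₂, hA₁, hA₂, L, hL, hLt, hLo, ⟨b1, hb1, hb1', hb1''⟩, b2, hb2, hb2', hb2''⟩ :=
    (h _ _ hc0).1 (lev c) l1 l2 fun b' h1 h2 => by
      obtain ⟨h3, h4⟩ := (lev_iff c b').1 ⟨h1, h2⟩
      exact hs _ _ m1 m2 h3 h4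
  obtain ⟨g1, g2⟩ := (lev_iff c b1).1 ⟨hb1, hb1'⟩
  obtain ⟨g3, g4⟩ := (lev_iff c b2).1 ⟨hb2, hb2'⟩
  refine ⟨L, hL, ?_⟩
  rintro R hR ⟨x, x1, x2, x3, x4, x5, x6⟩
  have hpos := hT.pos 0 R hR
  obtain ⟨a, c1, c2, c3, c4⟩ := exists_unit hpos.1 x3 x4
  obtain ⟨b, d1, d2, d3, d4⟩ := exists_unit hpos.2 x5 x6
  have ha1 : α < a + 1 := by linarith
  have ha2 : (a : ℝ) < β := by linarith
  obtain ⟨e1, e2⟩ := between m1 m2 hA₁ hA₂ (fun hh => hb1'' (hs _ _ hh.1 hh.2 g1 g2))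
    (fun hh => hb2'' (hs _ _ hh.1 hh.2 g3 g4)) ha1 ha2
  obtain ⟨f1, f2⟩ := (lev_iff c b).2 ⟨d3, d4⟩
  obtain ⟨R', hR', hh⟩ := hLo a b e1 e2 f1 f2 (hs a b ha1 ha2 d3 d4)
  rw [hT.uniq 0 R R' hR (hLt R' hR') a b ⟨c1, c2, d1, d2⟩ hh]
  exact hR'

theorem col_case {P : Par} {cell : ℕ → ℤ → ℤ → Prop} {Q : Fill} (hT : Tiling P Q cell)
    (h : ∀ a b, cell 0 a b → Rows P Q cell 0 a b ∧ Cols P Q cell 0 a b)
    {α β c : ℝ} (hab : α < β)
    (hs : ∀ a b : ℤ, α < b + 1 → (b : ℝ) < β → (a : ℝ) ≤ c → c ≤ a + 1 → cell 0 a b) :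
    ∃ L : List ZR, L.length ≤ P.k ∧ ∀ R, P.tile Q 0 R →
      (∃ x, α < x ∧ x < β ∧ (R.y₁ : ℝ) ≤ x ∧ x ≤ R.y₂ ∧ (R.x₁ : ℝ) ≤ c ∧ c ≤ R.x₂) → R ∈ L := by
  obtain ⟨m1, m2⟩ : α < (⌊(α + β) / 2⌋ : ℝ) + 1 ∧ (⌊(α + β) / 2⌋ : ℝ) < β := by
    constructor
    · have := Int.lt_floor_add_one ((α + β) / 2); linarith
    · have := Int.floor_le ((α + β) / 2); linarith
  have hc0 := hs ⌊c⌋ ⌊(α + β) / 2⌋ m1 m2 (Int.floor_le c) (Int.lt_floor_add_one c).le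
  obtain ⟨l1, l2⟩ := lev_floor c
  obtain ⟨A₁, A₂, hA₁, hA₂, L, hL, hLt, hLo, ⟨b1, hb1, hb1', hb1''⟩, b2, hb2, hb2', hb2''⟩ :=
    (h _ _ hc0).2 (lev c) l1 l2 fun b' h1 h2 => by
      obtain ⟨h3, h4⟩ := (lev_iff c b').1 ⟨h1, h2⟩
      exact hs _ _ m1 m2 h3 h4
  obtain ⟨g1, g2⟩ := (lev_iff c b1).1 ⟨hb1, hb1'⟩
  obtain ⟨g3, g4⟩ := (lev_iff c b2).1 ⟨hb2, hb2'⟩
  refine ⟨L, hL, ?_⟩
  rintro R hR ⟨x, x1, x2, x3, x4, x5, x6⟩
  have hpos := hT.pos 0 R hR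
  obtain ⟨b, c1, c2, c3, c4⟩ := exists_unit hpos.2 x3 x4
  obtain ⟨a, d1, d2, d3, d4⟩ := exists_unit hpos.1 x5 x6
  have ha1 : α < b + 1 := by linarith
  have ha2 : (b : ℝ) < β := by linarith
  obtain ⟨e1, e2⟩ := between m1 m2 hA₁ hA₂ (fun hh => hb1'' (hs _ _ hh.1 hh.2 g1 g2))
    (fun hh => hb2'' (hs _ _ hh.1 hh.2 g3 g4)) ha1 ha2
  obtain ⟨f1, f2⟩ := (lev_iff c a).2 ⟨d3, d4⟩
  obtain ⟨R', hR', hh⟩ := hLo a b e1 e2 f1 f2 (hs a b ha1 ha2 d3 d4)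
  rw [hT.uniq 0 R R' hR (hLt R' hR') a b ⟨d1, d2, c1, c2⟩ hh]
  exact hR'

end StabCerts

open StabCerts

/-- **U12. From certificates to the stabbing number.** -/
theorem stab_of_certs {P : Par} {cell : ℕ → ℤ → ℤ → Prop} {Q : Fill} (hT : Tiling P Q cell)
    (O : ℤ) (h : ∀ a b, cell 0 a b → Rows P Q cell 0 a b ∧ Cols P Q cell 0 a b) :
    stab (cells O (cell 0)) ≤ P.k := by
  classical
  refine stab_le_of_partition _ (isPartition hT O) ?_
  rintro s ⟨hs, α, β, c, hab, rfl | rfl⟩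
  · obtain ⟨L, hL, hL'⟩ := row_case hT h (α := α - O) (β := β - O) (c := c - O) (by linarith)
      (by
        intro a b h1 h2 h3 h4
        obtain ⟨x, x1, x2, x3, x4⟩ := exists_touch (by linarith) h1 h2
        have hm : ((O + x, c) : ℝ × ℝ) ∈ interior (cells O (cell 0)) :=
          hs ⟨⟨by linarith, by linarith⟩, rfl⟩
        rw [mem_interior_cells] at hm
        exact hm a b (by simp only []; linarith) (by simp only []; linarith)
          (by simp only []; linarith) (by simp only []; linarith))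
    refine (meets_le L ?_).trans hL
    rintro R hR ⟨⟨px, py⟩, hp, ⟨hp1, hp2⟩, hp3⟩
    rw [mem_toRect (hT.pos 0 R hR)] at hp
    obtain ⟨q1, q2, q3, q4⟩ := hp
    simp only [Set.mem_singleton_iff] at hp1 hp2 hp3 q1 q2 q3 q4
    subst hp3
    exact hL' R hR ⟨px - O, by linarith, by linarith, by linarith, by linarith, by linarith,
      by linarith⟩
  · obtain ⟨L, hL, hL'⟩ := col_case hT h (α := α - O) (β := β - O) (c := c - O) (by linarith)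
      (by
        intro a b h1 h2 h3 h4
        obtain ⟨x, x1, x2, x3, x4⟩ := exists_touch (by linarith) h1 h2
        have hm : ((c, O + x) : ℝ × ℝ) ∈ interior (cells O (cell 0)) :=
          hs ⟨rfl, ⟨by linarith, by linarith⟩⟩
        rw [mem_interior_cells] at hm
        exact hm a b (by simp only []; linarith) (by simp only []; linarith)
          (by simp only []; linarith) (by simp only []; linarith))
    refine (meets_le L ?_).trans hL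
    rintro R hR ⟨⟨px, py⟩, hp, hp3, ⟨hp1, hp2⟩⟩
    rw [mem_toRect (hT.pos 0 R hR)] at hp
    obtain ⟨q1, q2, q3, q4⟩ := hp
    simp only [Set.mem_singleton_iff] at hp1 hp2 hp3 q1 q2 q3 q4
    subst hp3
    exact hL' R hR ⟨py - O, by linarith, by linarith, by linarith, by linarith, by linarith,
      by linarith⟩

end Pool.Agent.Lib.MP_7d5495_lc
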