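import Pool.Agent.Lib.MP_7d5495_lc.Capacity

/-!
# Splitting a line at a wall, and the end pockets of a mesh
-/

set_option autoImplicit false

namespace Pool.Agent.Lib.MP_7d5495_lc

open Set

/-- **L4. Splitting a line at a wall.** -/
theorem Fam.H_split {ι : Type} [Finite ι] (F : Fam ι) {α c₁ c₂ β η : ℝ} (W : ι)
    (h1 : α ≤ c₁) (h2 : c₁ ≤ F.x₁ W) (h3 : F.x₂ W ≤ c₂) (h4 : c₂ ≤ β) (h5 : F.y₁ W < η)
    (h6 : η < F.y₂ W) :
    (F.H α c₁ η).ncard + 1 + (F.H c₂ β η).ncard ≤ (F.H α β η).ncard := by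
  have hW := F.hx W
  have hd1 : Disjoint (F.H α c₁ η) {W} := by
    rw [Set.disjoint_singleton_right]
    rintro ⟨-, -, h, -⟩
    linarith
  have hd2 : Disjoint (F.H α c₁ η ∪ {W}) (F.H c₂ β η) := by
    rw [Set.disjoint_left]
    rintro i (⟨a1, a2, a3, a4⟩ | hi) ⟨b1, b2, b3, b4⟩
    · have hne : i ≠ W := by
        rintro rfl
        linarith
      rcases F.disj i W hne with h | h | h | h
      · linarith
      · linarith
      · linarith
      · linarith
    · rw [Set.mem_singleton_iff] at hi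
      subst hi
      linarith
  have hsub : (F.H α c₁ η ∪ {W}) ∪ F.H c₂ β η ⊆ F.H α β η := by
    rintro i ((⟨a1, a2, a3, a4⟩ | hi) | ⟨b1, b2, b3, b4⟩)
    · exact ⟨a1, a2, by linarith, a4⟩
    · rw [Set.mem_singleton_iff] at hi
      subst hi
      exact ⟨h5.le, h6.le, by linarith, by linarith⟩
    · exact ⟨b1, b2, b3, by linarith⟩
  calc (F.H α c₁ η).ncard + 1 + (F.H c₂ β η).ncard
      = ((F.H α c₁ η ∪ {W}) ∪ F.H c₂ β η).ncard := by
        rw [Set.ncard_union_eq hd2 (Set.toFinite _) (Set.toFinite _),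
          Set.ncard_union_eq hd1 (Set.toFinite _) (Set.toFinite _), Set.ncard_singleton]
    _ ≤ _ := Set.ncard_le_ncard hsub (Set.toFinite _)

/-- **L6. An end pocket in a mesh.** -/
theorem Mesh.pocket {ι : Type} [Finite ι] {F : Fam ι} {C : ℤ → ℤ → Prop} {k : ℕ}
    (hM : Mesh F C k) (hk : 3 ≤ k) (e h : ℕ) (he : 2 ≤ e) (hh : h = beta e k) (x₀ y₀ : ℤ)
    (c1 : ∀ a b : ℤ, x₀ ≤ a → y₀ ≤ b → (a - x₀) + (b - y₀) < h → C a b)
    (c2 : ∀ a b : ℤ, x₀ < a → y₀ < b → (a - x₀) + (b - y₀) = h → ¬ C a b) :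
    ∃ η σ : ℝ, (y₀ : ℝ) < η ∧ η < y₀ + h - 1 ∧ (x₀ : ℝ) < σ ∧
      (∀ a b : ℤ, x₀ ≤ a → (a : ℝ) < σ → (b : ℝ) ≤ η → η ≤ b + 1 → C a b) ∧
      e ≤ (F.H x₀ σ η).ncard := by
  by_contra hcon
  push Not at hcon
  -- arithmetic of `beta`
  have hb1 : beta e k = beta (e - 1) k + beta e (k - 1) := beta_rec he (by omega)
  have hb2 : 2 ≤ beta e (k - 1) := by
    have h2 : beta 2 2 ≤ beta e (k - 1) :=
      (beta_mono_left he).trans (beta_mono_right (show 2 ≤ k - 1 by omega))
    have h3 : beta 2 2 = 2 := by decide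
    omega
  have hb3 := beta_pos (a := e - 1) (b := k) (by omega) (by omega)
  have hh3 : 3 ≤ h := by omega
  have hcast : ∀ j : ℕ, j < h - 1 → (j : ℝ) + 2 ≤ h := fun j hj => by
    have : j + 2 ≤ h := by omega
    exact_mod_cast this
  have key : h - 1 ≤ beta (e - 1) k := by
    refine F.capacity (e - 1) k (h - 1) (by omega) (by omega)
      (fun j => (x₀ : ℝ) + 1 + j) (fun j => (y₀ : ℝ) + h - 1 - j) x₀ y₀ (x₀ + h) (y₀ + h)
      ?_ ?_ ?_ ?_ ?_ ?_ ?_ ?_ ?_ ?_ ?_ ?_
    · intro i j hij _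
      have : (i : ℝ) < j := by exact_mod_cast hij
      linarith
    · intro i j hij _
      have : (i : ℝ) < j := by exact_mod_cast hij
      linarith
    · intro j _
      have : (0 : ℝ) ≤ j := Nat.cast_nonneg j
      linarith
    · intro j hj
      have := hcast j hj
      linarith
    · intro j hj
      have := hcast j hj
      linarith
    · intro j hj
      have : (0 : ℝ) ≤ j := Nat.cast_nonneg j
      linarith
    · rintro i j hj ⟨a1, a2, a3, a4⟩
      refine c2 (x₀ + 1 + j) (y₀ + h - 1 - j) (by omega) (by omega) (by omega) ?_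
      refine hM.sub i _ _ ?_ ?_ ?_ ?_
      · push_cast
        linarith
      · push_cast
        linarith
      · push_cast
        linarith
      · push_cast
        linarith
    · intro x y hx1 hx2 hy1 hy2 hob
      have fx1 : x₀ ≤ ⌊x⌋ := Int.le_floor.2 hx1.le
      have fy1 : y₀ ≤ ⌊y⌋ := Int.le_floor.2 hy1.le
      have fx2 : ⌊x⌋ < x₀ + h := Int.floor_lt.2 (by push_cast; exact hx2)
      have fy2 : ⌊y⌋ < y₀ + h := Int.floor_lt.2 (by push_cast; exact hy2)
      refine hM.cover ⌊x⌋ ⌊y⌋ (c1 _ _ fx1 fy1 ?_) x y (Int.floor_le x) (Int.lt_floor_add_one x).le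
        (Int.floor_le y) (Int.lt_floor_add_one y).le
      rcases eq_or_lt_of_le fx1 with h0 | h0
      · omega
      · obtain ⟨j, hj⟩ : ∃ j : ℕ, ⌊x⌋ = x₀ + 1 + j := ⟨(⌊x⌋ - x₀ - 1).toNat, by omega⟩
        have hjx : (⌊x⌋ : ℝ) = x₀ + 1 + j := by rw [hj]; push_cast; ring
        rcases hob j (by omega) with h' | h'
        · have := Int.floor_le x
          linarith
        · have : ⌊y⌋ < y₀ + h - 1 - j := Int.floor_lt.2 (by push_cast; linarith)
          omega
    · rintro x τ hx1 ⟨j', hj', hx2⟩ hτ1 hτ2 hob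
      refine hM.ver _ _ _ hτ1 fun a b g1 g2 g3 g4 => ?_
      have hb : y₀ ≤ b := by
        have : (y₀ : ℝ) < ((b + 1 : ℤ) : ℝ) := by push_cast; exact g3
        have := Int.cast_lt.1 this
        omega
      have ha : x₀ ≤ a := by
        have : (x₀ : ℝ) < ((a + 1 : ℤ) : ℝ) := by push_cast; linarith
        have := Int.cast_lt.1 this
        omega
      have ha2 : a < x₀ + 1 + j' := by
        have : (a : ℝ) < ((x₀ + 1 + j' : ℤ) : ℝ) := by push_cast; linarith
        exact Int.cast_lt.1 this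
      refine c1 a b ha hb ?_
      rcases eq_or_lt_of_le ha with h0 | h0
      · have : (b : ℝ) < ((y₀ + h : ℤ) : ℝ) := by push_cast; linarith
        have := Int.cast_lt.1 this
        omega
      · obtain ⟨j, hj⟩ : ∃ j : ℕ, a = x₀ + 1 + j := ⟨(a - x₀ - 1).toNat, by omega⟩
        have hjx : (a : ℝ) = x₀ + 1 + j := by rw [hj]; push_cast; ring
        rcases hob j (by omega) with h' | h'
        · linarith
        · have : (b : ℝ) < ((y₀ + h - 1 - j : ℤ) : ℝ) := by push_cast; linarith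
          have := Int.cast_lt.1 this
          omega
    · rintro y σ hy1 ⟨j', hj', hy2⟩ hσ1 hσ2 hob
      have hj0 : (0 : ℝ) ≤ j' := Nat.cast_nonneg j'
      have := hcon y σ hy1 (by linarith) hσ1 ?_
      · omega
      intro a b g1 g2 g3 g4
      have hb : y₀ ≤ b := by
        have : (y₀ : ℝ) < ((b + 1 : ℤ) : ℝ) := by push_cast; linarith
        have := Int.cast_lt.1 this
        omega
      have hb2 : b < y₀ + h - 1 := by
        have : (b : ℝ) < ((y₀ + h - 1 : ℤ) : ℝ) := by push_cast; linarith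
        exact Int.cast_lt.1 this
      refine c1 a b g1 hb ?_
      rcases eq_or_lt_of_le hb with h0 | h0
      · have : (a : ℝ) < ((x₀ + h : ℤ) : ℝ) := by push_cast; linarith
        have := Int.cast_lt.1 this
        omega
      · obtain ⟨j, hj⟩ : ∃ j : ℕ, b = y₀ + h - 1 - j := ⟨(y₀ + h - 1 - b).toNat, by omega⟩
        have hjx : (b : ℝ) = y₀ + h - 1 - j := by rw [hj]; push_cast; ring
        rcases hob j (by omega) with h' | h'
        · linarith
        · have : (a : ℝ) < ((x₀ + 1 + j : ℤ) : ℝ) := by push_cast; linarith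
          have := Int.cast_lt.1 this
          omega
    · intro _ h0
      simp only [Nat.cast_zero] at h0
      linarith
    · intro _ h0
      exfalso
      have h1 : h - 1 - 1 < h - 1 := by omega
      have := hcast _ h1
      linarith
  omega

end Pool.Agent.Lib.MP_7d5495_lc
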