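import Pool.Agent.Lib.MP_7d5495_lc.Bst

/-!
# The trees of the corners
-/

set_option autoImplicit false

namespace Pool.Agent.Lib.MP_7d5495_lc

/-- **L8. The trees of the corners.** -/
theorem Sys.corner {P : Par} {κ : ℕ} (hP : P.Ok κ) {ι : Type} [Finite ι] (S : Sys P ι) {t : ℕ}
    (ht : t < P.N) (ξ η : ℕ → ℝ)
    (hξ : ∀ i < P.m, (P.X i - P.D : ℝ) < ξ i ∧ ξ i < P.X i)
    (hη : ∀ i < P.m, (P.Y i - P.D : ℝ) < η i ∧ η i < P.Y i) :
    ∃ T : BT, T.size = P.m ∧ ∀ i < P.m, T.U i + 1 ≤ ((S.F t).H P.D (P.X i) (η i)).ncard ∧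
      T.L i + 1 ≤ ((S.F t).V P.D (P.Y i) (ξ i)).ncard := by
  have hm := hP.m_pos
  have hD := Par.D_pos (P := P)
  have hDe := Par.D_eq (P := P)
  have hΔ := Par.Δ_eq (P := P)
  have hXl := Par.X_last (P := P) hm
  have hY0 := Par.Y_zero (P := P)
  have hXs : ∀ j, (P.X (j + 1) : ℝ) = P.X j + P.D := fun j => by
    rw [Par.X_succ]; push_cast; ring
  have hYs : ∀ j, (P.Y (j + 1) : ℝ) = P.Y j - P.D := fun j => by
    rw [Par.Y_succ]; push_cast; ring
  have hXle : ∀ j < P.m, (P.X j : ℝ) ≤ P.X (P.m - 1) := fun j hj => by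
    rw [hXl]
    exact_mod_cast Par.X_le hj
  have hYle : ∀ j, (P.Y j : ℝ) ≤ P.Y 0 := fun j => by
    rw [hY0]
    exact_mod_cast Par.Y_le j
  have hX2 : ∀ j, 2 * (P.D : ℝ) ≤ P.X j := fun j => by exact_mod_cast Par.le_X j
  have hY2 : ∀ j < P.m, 2 * (P.D : ℝ) ≤ P.Y j := fun j hj => by exact_mod_cast Par.le_Y hj
  have hDr : (0 : ℝ) < P.D := by exact_mod_cast hD
  obtain ⟨T, hT1, hT2⟩ := (S.F t).bst P.m ξ η (fun j => (P.X j : ℝ)) (fun j => (P.Y (j + 1) : ℝ))
    P.D P.D (P.X (P.m - 1)) (P.Y 0)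
    (by
      intro j hj
      have h1 := hξ j (by omega)
      have h2 := hξ (j + 1) hj
      have h3 := hXs j
      exact ⟨h1.2, by linarith [h2.1]⟩)
    (by
      intro j hj
      have h1 := hη j (by omega)
      have h2 := hη (j + 1) hj
      have h3 := hYs j
      exact ⟨h2.2, by linarith [h1.1]⟩)
    (by
      intro j hj
      have h1 := hξ j hj
      have h2 := hη j hj
      have h3 := hX2 j
      have h4 := hY2 j hj
      have h5 := hXle j hj
      have h6 := hYle j
      exact ⟨by linarith [h1.1], by linarith [h1.2], by linarith [h2.1], by linarith [h2.2]⟩)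
    (by
      rintro i j hj ⟨h1, h2, h3, h4⟩
      have hc := (S.mesh t).sub i (P.X j) (P.Y (j + 1)) (by linarith) h2 (by linarith) h4
      have hY := Par.le_Y (P := P) hj
      have hYs' := Par.Y_succ (P := P) j
      have hYle' := Par.Y_le (P := P) j
      have hh := hP.h_lt t j
      have h5 := (S.zones.fing t ht j (by omega) (P.X j) (P.Y (j + 1)) le_rfl (by omega)
        (by omega) (by omega)).1 hc
      rcases h5 with h5 | ⟨h5, h6, h7⟩ | ⟨h5, h6⟩ <;> omega)
    (by
      intro x y hx1 hx2 hy1 hy2 hxy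
      have ha1 : (P.D : ℤ) ≤ ⌊x⌋ := Int.le_floor.2 (by exact_mod_cast hx1.le)
      have hb1 : (P.D : ℤ) ≤ ⌊y⌋ := Int.le_floor.2 (by exact_mod_cast hy1.le)
      have ha2 : ⌊x⌋ < P.D + P.B := by
        rw [← hXl]
        exact Int.floor_lt.2 hx2
      have hb2 : ⌊y⌋ < P.D + P.B := by
        rw [← hY0]
        exact Int.floor_lt.2 hy2
      have hc : S.cell t ⌊x⌋ ⌊y⌋ := by
        rcases lt_or_ge ⌊x⌋ (2 * (P.D : ℤ)) with h1 | h1
        · exact (S.zones.first t ht _ _ ha1 h1 hb1 (by omega)).2 hb2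
        · obtain ⟨i, hi, h2, h3⟩ := Par.exists_X (P := P) h1 (by omega)
          have hi' : i + 1 < P.m := by
            by_contra h4
            have h5 : i = P.m - 1 := by omega
            rw [h5, hXl] at h2
            omega
          refine (S.zones.fing t ht i hi _ _ h2 h3 hb1 (by omega)).2 (Or.inl ?_)
          rcases hxy i hi' with h4 | h4
          · exfalso
            have h5 := Int.floor_lt.2 h4
            omega
          · have h5 := Int.floor_lt.2 h4
            rw [Par.Y_succ] at h5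
            exact h5
      exact (S.mesh t).cover _ _ hc x y (Int.floor_le x) (Int.lt_floor_add_one x).le
        (Int.floor_le y) (Int.lt_floor_add_one y).le)
  refine ⟨T, hT1, fun i hi => ?_⟩
  obtain ⟨h1, h2⟩ := hT2 i hi
  constructor
  · have e : (if i + 1 < P.m then (P.X i : ℝ) else P.X (P.m - 1)) = P.X i := by
      split_ifs with h
      · rfl
      · rw [show i = P.m - 1 by omega]
    rw [e] at h1
    exact h1
  · have e : (if i = 0 then (P.Y 0 : ℝ) else P.Y (i - 1 + 1)) = P.Y i := by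
      split_ifs with h
      · rw [h]
      · rw [show i - 1 + 1 = i by omega]
    rw [e] at h2
    exact h2

end Pool.Agent.Lib.MP_7d5495_lc
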