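import Pool.Agent.Lib.MP_7d5495_lc.SysWalls
import Pool.Agent.Lib.MP_7d5495_lc.SysCorner
import Pool.Agent.Lib.MP_7d5495_lc.Pocket

/-!
# The trees of a partition

The lower bound: a partition with stabbing number at most `k` gives a solution of the chain
problem.  The main lines of the frame `t + 1` run through the out-arm of the frame `t`, both walls
of the arm, the corner, the finger and the end pocket.
-/

namespace Pool.Agent.Lib.MP_7d5495_lc

open Set

namespace SysTrees

variable {P : Par} {κ : ℕ} {cell : ℕ → ℤ → ℤ → Prop}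

theorem cell_arm (hz : Zones P cell) {t : ℕ} (ht : t < P.N) {a b : ℤ} (h1 : -(P.lam t : ℤ) ≤ a)
    (h2 : a < P.D) (h3 : (P.D : ℤ) ≤ b) (h4 : b < P.D + P.B) : cell t a b := by
  have hΔ := Par.Δ_eq (P := P)
  have hD := Par.D_pos (P := P)
  exact (hz.arm t ht a b h1 h2 (by omega) (by omega)).2 (Or.inl ⟨h3, h4⟩)

theorem cell_out (hz : Zones P cell) {t : ℕ} (ht : t < P.N) {a b : ℤ} (h1 : (P.D : ℤ) ≤ a)
    (h2 : a < P.D + P.B) (h3 : 0 ≤ b) (h4 : b < P.D) : cell t a b := by
  have hΔ := Par.Δ_eq (P := P)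
  have hD := Par.D_pos (P := P)
  exact (hz.out t ht a b h1 (by omega) h3 h4).2 (Or.inl h2)

theorem cell_corner (hz : Zones P cell) {t : ℕ} (ht : t < P.N) {i : ℕ} (hi : i < P.m) {a b : ℤ}
    (h1 : (P.D : ℤ) ≤ a) (h2 : a < P.X i) (h3 : (P.D : ℤ) ≤ b) (h4 : b < P.Y i) :
    cell t a b := by
  have hΔ := Par.Δ_eq (P := P)
  have hD := Par.D_pos (P := P)
  have hX := Par.X_le hi
  have hY := Par.Y_le (P := P) i
  rcases lt_or_ge a (2 * P.D) with h | h
  · exact (hz.first t ht a b h1 h h3 (by omega)).2 (by omega)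
  · obtain ⟨j, hj, h5, h6⟩ := Par.exists_X (P := P) h (by omega)
    refine (hz.fing t ht j hj a b h5 h6 h3 (by omega)).2 (Or.inl ?_)
    have hij : j < i := by
      by_contra hc
      rcases Nat.lt_or_ge i j with h7 | h7
      · have := Par.X_mono (P := P) h7; omega
      · have : i = j := by omega
        subst this; omega
    have := Par.Y_mono (P := P) hij
    omega

end SysTrees

open SysTrees

/-- **L9. Lower bound.** -/
theorem Sys.exists_trees {P : Par} {κ : ℕ} (hP : P.Ok κ) {ι : Type} [Finite ι] (S : Sys P ι) :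
    ∃ T, P.GeoPre T := by
  have hN := hP.N_pos
  have hm := hP.m_pos
  have hD := Par.D_eq (P := P)
  have hDpos := Par.D_pos (P := P)
  have hw := hP.w_ge
  have hz := S.zones
  have hΔ := Par.Δ_eq (P := P)
  -- the levels of the main lines
  have hex : ∀ t i : ℕ, ∃ q : ℝ × ℝ, (t < P.N ∧ i < P.m) → ((P.Y i - P.h t i : ℝ) < q.1 ∧
      q.1 < P.Y i - 1 ∧ (P.X i + P.w : ℝ) < q.2 ∧
      (∀ a b : ℤ, P.X i ≤ a → (a : ℝ) < q.2 → (b : ℝ) ≤ q.1 → q.1 ≤ b + 1 → S.cell t a b) ∧
      P.e t i ≤ ((S.F t).H (P.X i + P.w) q.2 q.1).ncard) := by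
    intro t i
    by_cases h : t < P.N ∧ i < P.m
    · obtain ⟨η, σ, h1⟩ := S.endPocket hP h.1 h.2
      exact ⟨(η, σ), fun _ => h1⟩
    · exact ⟨(0, 0), fun h' => absurd h' h⟩
  choose q hq using hex
  -- facts about the levels
  have hbd : ∀ t i, t < P.N → i < P.m → ∀ b : ℤ, (b : ℝ) ≤ (q t i).1 → (q t i).1 ≤ b + 1 →
      P.Y i - P.h t i ≤ b ∧ b < P.Y i := by
    intro t i ht hi b h1 h2
    obtain ⟨h3, h4, -⟩ := hq t i ⟨ht, hi⟩
    constructor
    · have : ((P.Y i - P.h t i : ℤ) : ℝ) < b + 1 := by push_cast; linarith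
      have : P.Y i - P.h t i < b + 1 := by exact_mod_cast this
      omega
    · have : (b : ℝ) < (P.Y i : ℤ) := by linarith
      exact_mod_cast this
  have hreal : ∀ t i, t < P.N → i < P.m → (P.Y i - P.D : ℝ) < (q t i).1 ∧
      (q t i).1 < P.Y i ∧ (P.D : ℝ) < (q t i).1 ∧ (q t i).1 < P.D + P.B := by
    intro t i ht hi
    obtain ⟨h3, h4, -⟩ := hq t i ⟨ht, hi⟩
    have hh := hP.h_lt t i
    have hY := Par.le_Y hi
    have hY' := Par.Y_le (P := P) i
    have h5 : (P.h t i : ℤ) ≤ P.D := by omega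
    have h5' : (P.h t i : ℝ) ≤ P.D := by exact_mod_cast h5
    have h6 : 2 * (P.D : ℝ) ≤ P.Y i := by exact_mod_cast hY
    have h7 : (P.Y i : ℝ) ≤ P.D + P.B := by exact_mod_cast hY'
    exact ⟨by linarith, by linarith, by linarith, by linarith⟩
  -- the trees
  have htree : ∀ t : ℕ, ∃ T : BT, t < P.N → T.size = P.m ∧ ∀ i < P.m,
      T.U i + 1 ≤ ((S.F t).H P.D (P.X i) (q t i).1).ncard ∧
      (t + 1 < P.N → T.L i + 1 ≤ ((S.F t).V P.D (P.Y i) (q (t + 1) (P.m - 1 - i)).1).ncard) := by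
    intro t
    by_cases ht : t < P.N
    · obtain ⟨T, h1, h2⟩ := S.corner hP ht
        (fun i => if t + 1 < P.N then (q (t + 1) (P.m - 1 - i)).1 else P.X i - P.D / 2)
        (fun i => (q t i).1)
        (by
          intro i hi
          by_cases h : t + 1 < P.N
          · simp only [if_pos h]
            have h3 := hreal (t + 1) (P.m - 1 - i) h (by omega)
            rw [Par.Y_rev hi] at h3
            exact ⟨h3.1, h3.2.1⟩
          · simp only [if_neg h]
            have h3 : (0 : ℝ) < P.D := by exact_mod_cast hDpos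
            exact ⟨by linarith, by linarith⟩)
        (by
          intro i hi
          have h3 := hreal t i ht hi
          exact ⟨h3.1, h3.2.1⟩)
      refine ⟨T, fun _ => ⟨h1, fun i hi => ⟨(h2 i hi).1, fun h => ?_⟩⟩⟩
      have h3 := (h2 i hi).2
      simp only [if_pos h] at h3
      exact h3
    · exact ⟨BT.nil, fun h => absurd h ht⟩
  choose T hT using htree
  -- the part of a main line in the square
  have hsq : ∀ t i, t < P.N → i < P.m → ∀ α : ℝ, α ≤ 0 →
      (T t).U i + 4 + P.e t i ≤ ((S.F t).H α (q t i).2 (q t i).1).ncard := by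
    intro t i ht hi α hα
    obtain ⟨h1, h2, h3, h4, h5⟩ := hq t i ⟨ht, hi⟩
    obtain ⟨h6, h7, h8, h9⟩ := hreal t i ht hi
    obtain ⟨W, a1, a2, a3, a4⟩ := S.inWall hP ht
    obtain ⟨W', b1, b2, b3, b4⟩ := S.fingWall hP ht hi
    have hX : ((P.D : ℝ)) ≤ P.X i := by
      have := Par.le_X (P := P) i
      have h' : (P.D : ℤ) ≤ P.X i := by omega
      exact_mod_cast h'
    have hDw : (1 : ℝ) < P.D - P.w := by
      have : (1 : ℤ) < P.D - P.w := by omega
      exact_mod_cast this
    have hw0 : (0 : ℝ) ≤ P.w := by positivity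
    have s1 := (S.F t).H_split (α := α) (c₁ := P.D - P.w) (c₂ := P.D) (β := (q t i).2)
      (η := (q t i).1) W (by linarith) a1 a2 (by linarith) (by linarith) (by linarith)
    have s2 := (S.F t).H_split (α := P.D) (c₁ := P.X i) (c₂ := P.X i + P.w) (β := (q t i).2)
      (η := (q t i).1) W' hX b1 b2 (by linarith) (by linarith) (by linarith)
    have s3 : 1 ≤ ((S.F t).H α (P.D - P.w) (q t i).1).ncard := by
      have hc : S.cell t 0 ⌊(q t i).1⌋ := by
        refine cell_arm hz ht (by omega) (by omega) ?_ ?_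
        · rw [Int.le_floor]; push_cast; linarith
        · rw [Int.floor_lt]; push_cast; linarith
      obtain ⟨j, j1, j2, j3, j4⟩ := (S.mesh t).cover _ _ hc (1 / 2) (q t i).1 (by norm_num)
        (by norm_num) (Int.floor_le _) (Int.lt_floor_add_one _).le
      rw [Nat.one_le_iff_ne_zero, ← Nat.pos_iff_ne_zero, Set.ncard_pos]
      exact ⟨j, j3, j4, by linarith, by linarith⟩
    have s4 := ((hT t ht).2 i hi).1
    omega
  -- the cells in the square
  have hcell : ∀ t i, t < P.N → i < P.m → ∀ a b : ℤ, -(P.lam t : ℤ) ≤ a → (a : ℝ) < (q t i).2 →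
      (b : ℝ) ≤ (q t i).1 → (q t i).1 ≤ b + 1 → S.cell t a b := by
    intro t i ht hi a b h1 h2 h3 h4
    obtain ⟨h5, h6⟩ := hbd t i ht hi b h3 h4
    have hh := hP.h_lt t i
    have hY := Par.le_Y hi
    have hY' := Par.Y_le (P := P) i
    have hX := Par.X_le hi
    rcases lt_or_ge a P.D with h | h
    · exact cell_arm hz ht h1 h (by omega) (by omega)
    rcases lt_or_ge a (P.X i) with h' | h'
    · exact cell_corner hz ht hi h h' (by omega) h6
    · exact (hq t i ⟨ht, hi⟩).2.2.2.1 a b h' h2 h3 h4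
  refine ⟨T, fun t ht => (hT t ht).1, ?_, ?_⟩
  · intro i hi
    have h1 := hsq 0 i hN hi 0 le_rfl
    have h0 : (0 : ℝ) < (q 0 i).2 := by
      have h3 := (hq 0 i ⟨hN, hi⟩).2.2.1
      have h4 : (0 : ℝ) < P.X i := by
        have := Par.le_X (P := P) i
        have h' : (0 : ℤ) < P.X i := by omega
        exact_mod_cast h'
      have : (0 : ℝ) ≤ P.w := by positivity
      linarith
    have h2 := (S.mesh 0).hor 0 (q 0 i).2 (q 0 i).1 h0 (by
      intro a b h3 h4 h5 h6
      refine hcell 0 i hN hi a b ?_ h4 h5 h6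
      rw [Par.lam_zero]
      have : (0 : ℤ) < a + 1 := by exact_mod_cast h3
      push_cast; omega)
    omega
  · intro t ht i hi
    have ht' : t < P.N := by omega
    set i' := P.m - 1 - i with hi'
    have hi'm : i' < P.m := by omega
    have hii : P.m - 1 - i' = i := by omega
    have hYX : P.Y i' = P.X i := Par.Y_rev hi
    have hXY : P.X i' = P.Y i := Par.X_rev hi
    obtain ⟨h1, h2, h3, h4, h5⟩ := hq (t + 1) i ⟨ht, hi⟩
    obtain ⟨h6, h7, h8, h9⟩ := hreal (t + 1) i ht hi
    have hlam : (0 : ℝ) ≤ P.lam (t + 1) := by positivity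
    have hXpos : (2 * P.D : ℝ) ≤ P.X i := by
      have := Par.le_X (P := P) i
      exact_mod_cast this
    have hDr : (P.D : ℝ) = 2 * P.w + 2 := by exact_mod_cast hD
    have hwr : (3 : ℝ) ≤ P.w := by exact_mod_cast hw
    have hDΔ : (P.lam (t + 1) : ℤ) = P.lam t + P.Δ := Par.lam_succ t
    have hlamΔ : (P.D : ℤ) < P.lam (t + 1) := by
      have : (0 : ℤ) ≤ P.lam t := by positivity
      have : (0 : ℤ) ≤ P.B := by positivity
      omega
    obtain ⟨W, a1, a2, a3, a4⟩ := S.outWall hP ht'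
    -- the whole line
    have hk : ((S.F (t + 1)).H (-(P.lam (t + 1) : ℝ) - P.X i) (q (t + 1) i).2
        (q (t + 1) i).1).ncard ≤ P.k := by
      refine (S.mesh (t + 1)).hor _ _ _ (by linarith) ?_
      intro a b e1 e2 e3 e4
      rcases le_or_gt (-(P.lam (t + 1) : ℤ)) a with h | h
      · exact hcell (t + 1) i ht hi a b h e2 e3 e4
      rw [hz.rot]
      obtain ⟨e5, e6⟩ := hbd (t + 1) i ht hi b e3 e4
      have e7 : -(P.lam (t + 1) : ℤ) - P.X i < a + 1 := by exact_mod_cast e1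
      have hh := hP.h_lt (t + 1) i
      have hY := Par.le_Y hi
      have hX' := Par.X_le hi'm
      rcases lt_or_ge (-(P.lam (t + 1) : ℤ) - a - 1) P.D with e8 | e8
      · exact cell_out hz ht' (by omega) (by omega) (by omega) e8
      · exact cell_corner hz ht' hi'm (by omega) (by omega) e8 (by omega)
    -- the part in the out-arm
    have hV : (S.F (t + 1)).H (-(P.lam (t + 1) : ℝ) - P.X i) (-(P.lam (t + 1) : ℝ) - P.D)
        (q (t + 1) i).1 = (S.F t).V P.D (P.Y i') (q (t + 1) i).1 := by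
      ext j
      simp only [Fam.H, Fam.V, Set.mem_ofPred_eq, S.rx₁, S.rx₂, S.ry₁, S.ry₂, hYX]
      constructor
      · rintro ⟨e1, e2, e3, e4⟩; exact ⟨e1, e2, by linarith, by linarith⟩
      · rintro ⟨e1, e2, e3, e4⟩; exact ⟨e1, e2, by linarith, by linarith⟩
    have hL := ((hT t ht').2 i' hi'm).2 ht
    rw [hii, ← hV] at hL
    have s1 := (S.F (t + 1)).H_split (α := -(P.lam (t + 1) : ℝ) - P.X i)
      (c₁ := -(P.lam (t + 1) : ℝ) - P.D) (c₂ := -(P.lam (t + 1) : ℝ) - P.D + P.w)
      (β := (q (t + 1) i).2) (η := (q (t + 1) i).1) W (by linarith)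
      (by rw [S.rx₁]; linarith) (by rw [S.rx₂]; linarith) (by linarith)
      (by rw [S.ry₁]; linarith) (by rw [S.ry₂]; linarith)
    have s2 := hsq (t + 1) i ht hi (-(P.lam (t + 1) : ℝ) - P.D + P.w) (by linarith)
    omega

end Pool.Agent.Lib.MP_7d5495_lc
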