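import Pool.Agent.Lib.MP_7d5495_lc.HomesDef
import Pool.Agent.Lib.MP_7d5495_lc.Conv
import Pool.Agent.Lib.MP_7d5495_lc.FrameSub
import Pool.Agent.Lib.MP_7d5495_lc.FrameOwn
import Pool.Agent.Lib.MP_7d5495_lc.FrameUniq

/-!
# The tiles form a partition of the polygon
-/

set_option autoImplicit false

namespace Pool.Agent.Lib.MP_7d5495_lc

namespace TilingProof

variable {P : Par}

theorem toZero_injective (t : ℕ) {R R' : ZR} (h : P.toZero t R = P.toZero t R') : R = R' := by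
  induction t generalizing R R' with
  | zero => exact h
  | succ t ih =>
    have h1 := ih h
    rw [← ZR.rot_unrot (P.lam (t + 1)) R, ← ZR.rot_unrot (P.lam (t + 1)) R', h1]

theorem toZero_surjective (t : ℕ) (R : ZR) : ∃ R', P.toZero t R' = R := by
  induction t generalizing R with
  | zero => exact ⟨R, rfl⟩
  | succ t ih =>
    obtain ⟨R', h⟩ := ih R
    refine ⟨R'.rot (P.lam (t + 1)), ?_⟩
    show P.toZero t ((R'.rot (P.lam (t + 1))).unrot (P.lam (t + 1))) = R
    rw [ZR.unrot_rot, h]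

theorem toZero_pos (t : ℕ) (R : ZR) : ((P.toZero t R).x₁ < (P.toZero t R).x₂ ∧
    (P.toZero t R).y₁ < (P.toZero t R).y₂) ↔ (R.x₁ < R.x₂ ∧ R.y₁ < R.y₂) := by
  induction t generalizing R with
  | zero => exact Iff.rfl
  | succ t ih =>
    refine (ih (R.unrot (P.lam (t + 1)))).trans ?_
    simp only [ZR.unrot]
    constructor
    · rintro ⟨h1, h2⟩; exact ⟨by omega, by omega⟩
    · rintro ⟨h1, h2⟩; exact ⟨by omega, by omega⟩

theorem cell_conv {cell : ℕ → ℤ → ℤ → Prop} (hz : Zones P cell) (t : ℕ) (p : ℤ × ℤ) :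
    cell t p.1 p.2 ↔ cell 0 (P.conv t p).1 (P.conv t p).2 := by
  induction t generalizing p with
  | zero => exact Iff.rfl
  | succ t ih =>
    rw [hz.rot]
    exact ih (p.2, -(P.lam (t + 1) : ℤ) - p.1 - 1)

/-- the home of a cell of a tile -/
theorem home {κ : ℕ} (hP : P.Ok κ) {cell : ℕ → ℤ → ℤ → Prop} (hz : Zones P cell)
    {Q : Fill} (hQ : FillOk P κ Q) {s : ℕ} (hs : s < P.N) {R : ZR} (hR : R ∈ P.frameTiles Q s)
    {a b : ℤ} (h : R.Has a b) : ∃ r < P.N, ∃ a' b', P.InE r a' b' ∧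
      P.conv r (a', b') = P.conv s (a, b) ∧
      ((r = s ∧ a' = a ∧ b' = b ∧ ¬ (s + 1 < P.N ∧ (P.D : ℤ) ≤ a ∧ b < P.D - P.w)) ∨
       (r + 1 = s ∧ R = P.tM s ∧ (P.D : ℤ) ≤ a' ∧ b' < P.D - P.w)) := by
  obtain ⟨h1, h2 | ⟨h3, h4, h5, h6, h7, h8⟩⟩ := frame_sub hP hz hQ hs hR h
  · exact ⟨s, hs, a, b, h2.1, rfl, Or.inl ⟨rfl, rfl, rfl, h2.2⟩⟩
  · obtain ⟨r, rfl⟩ : ∃ r, s = r + 1 := ⟨s - 1, by omega⟩
    refine ⟨r, by omega, b, -(P.lam (r + 1) : ℤ) - a - 1, ?_, rfl,
      Or.inr ⟨rfl, h3, h7, by omega⟩⟩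
    have e1 := P.Δ_eq
    have e2 := P.D_pos
    have e3 : (0 : ℤ) ≤ P.lam r := by positivity
    have e4 : (0 : ℤ) ≤ P.B := by positivity
    have e5 : (0 : ℤ) ≤ P.w := by positivity
    refine ⟨by omega, by omega, by omega, by omega⟩

end TilingProof

open TilingProof

/-- **U4. The tiles form a partition.** -/
theorem tiling {P : Par} {κ : ℕ} (hP : P.Ok κ) {cell : ℕ → ℤ → ℤ → Prop} (hz : Zones P cell)
    (hH : Homes P cell) {Q : Fill} (hQ : FillOk P κ Q) : Tiling P Q cell := by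
  constructor
  · rintro t R ⟨s, hs, R', hR', e⟩ a b h
    obtain ⟨⟨a', b'⟩, hp⟩ := Conv.conv_surjective (P := P) s (P.conv t (a, b))
    have h1 : R'.Has a' b' := by
      rw [← toZero_has (P := P) (t := s), hp, e]
      exact toZero_has.2 h
    have h2 := (frame_sub hP hz hQ hs hR' h1).1
    rw [cell_conv hz t (a, b), ← hp]
    exact (cell_conv hz s (a', b')).1 h2
  · rintro t R ⟨s, hs, R', hR', e⟩
    rw [← toZero_pos (P := P) t R, ← e, toZero_pos]
    exact frame_pos hP hQ hR'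
  · rintro t R R' ⟨s, hs, S, hS, e⟩ ⟨s', hs', S', hS', e'⟩ a b h h'
    obtain ⟨⟨c, d⟩, hp⟩ := Conv.conv_surjective (P := P) s (P.conv t (a, b))
    obtain ⟨⟨c', d'⟩, hp'⟩ := Conv.conv_surjective (P := P) s' (P.conv t (a, b))
    have h1 : S.Has c d := by
      rw [← toZero_has (P := P) (t := s), hp, e]
      exact toZero_has.2 h
    have h1' : S'.Has c' d' := by
      rw [← toZero_has (P := P) (t := s'), hp', e']
      exact toZero_has.2 h'
    obtain ⟨r, hr, a₁, b₁, hE, hc, hcase⟩ := home hP hz hQ hs hS h1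
    obtain ⟨r', hr', a₂, b₂, hE', hc', hcase'⟩ := home hP hz hQ hs' hS' h1'
    obtain ⟨hrr, ha, hb⟩ := conv_inj hP.m_pos hE hE' (by rw [hc, hc', hp, hp'])
    subst hrr ha hb
    have key : s = s' ∧ S = S' := by
      rcases hcase with ⟨k1, k2, k3, k4⟩ | ⟨k1, k2, k3, k4⟩ <;>
      rcases hcase' with ⟨k1', k2', k3', k4'⟩ | ⟨k1', k2', k3', k4'⟩
      · subst k1 k2 k3
        subst k1' k2' k3'
        exact ⟨rfl, frame_uniq hP hQ hs hS hS' h1 h1'⟩
      · exfalso
        subst k1 k2 k3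
        exact k4 ⟨by omega, k3', k4'⟩
      · exfalso
        subst k1' k2' k3'
        exact k4' ⟨by omega, k3, k4⟩
      · subst k1
        have : s' = r + 1 := k1'.symm
        subst this
        exact ⟨rfl, by rw [k2, k2']⟩
    obtain ⟨k1, k2⟩ := key
    subst k1 k2
    exact toZero_injective t (by rw [← e, ← e'])
  · intro t a b h
    have h0 := (cell_conv hz t (a, b)).1 h
    obtain ⟨s, hs, a', b', hE, hc, e⟩ := hH _ _ h0
    rcases frame_own hP hz hQ hs hE hc with ⟨R', hR', hh⟩ | ⟨h1, h2, h3, h4, h5⟩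
    · obtain ⟨R, hR⟩ := toZero_surjective (P := P) t (P.toZero s R')
      refine ⟨R, ⟨s, hs, R', hR', hR.symm⟩, ?_⟩
      rw [← toZero_has (P := P) (t := t), hR]
      have := (toZero_has (P := P) (t := s)).2 hh
      rwa [e] at this
    · obtain ⟨R, hR⟩ := toZero_surjective (P := P) t (P.toZero (s + 1) (P.tM (s + 1)))
      refine ⟨R, ⟨s + 1, h1, P.tM (s + 1), tM_mem, hR.symm⟩, ?_⟩
      rw [← toZero_has (P := P) (t := t), hR]
      have h6 : (P.tM (s + 1)).Has (-(P.lam (s + 1) : ℤ) - b' - 1) a' := by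
        have e2 := P.D_eq
        have e3 : (0 : ℤ) ≤ P.lam (s + 1) := by positivity
        unfold ZR.Has Par.tM
        simp only [Nat.add_eq_zero_iff, one_ne_zero, and_false, if_false]
        refine ⟨by omega, by omega, by omega, by omega⟩
      have h7 := (toZero_has (P := P) (t := s + 1)).2 h6
      have h8 : P.conv (s + 1) (-(P.lam (s + 1) : ℤ) - b' - 1, a') = P.conv s (a', b') := by
        show P.conv s (a', -(P.lam (s + 1) : ℤ) - (-(P.lam (s + 1) : ℤ) - b' - 1) - 1) = _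
        congr 2
        ring
      rw [h8, e] at h7
      exact h7

end Pool.Agent.Lib.MP_7d5495_lc
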