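import Pool.Agent.Lib.MP_7d5495_lc.ExistsSys
import Pool.Agent.Lib.MP_7d5495_lc.SysTrees
import Pool.Agent.Lib.MP_7d5495_lc.TilingProof
import Pool.Agent.Lib.MP_7d5495_lc.TreeStats
import Pool.Agent.Lib.MP_7d5495_lc.CertZero
import Pool.Agent.Lib.MP_7d5495_lc.StabCerts
import Pool.Agent.Lib.MP_7d5495_lc.Attach
import Pool.Agent.Lib.MP_7d5495_lc.Simple
import Pool.Agent.Lib.MP_7d5495_lc.Region
import Pool.Agent.Lib.MP_7d5495_lc.GoodRects
import Pool.Agent.Lib.MP_7d5495_lc.ZonesProof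
import Pool.Agent.Lib.MP_7d5495_lc.ChainConv

/-!
# The polygon of a chain problem: assembly
-/

namespace Pool.Agent.Lib.MP_7d5495_lc

open Set

theorem boxCells_finite (rs : List (Bx × ℕ)) : {p : ℤ × ℤ | boxCells rs p.1 p.2}.Finite := by
  induction rs with
  | nil => simp [boxCells]
  | cons R l ih =>
    have h1 : {p : ℤ × ℤ | boxCells (R :: l) p.1 p.2} ⊆
        {p | boxCells l p.1 p.2} ∪ (Set.Icc ((R.1.1.1 : ℕ) : ℤ) R.1.1.2 ×ˢ
          Set.Icc ((R.1.2.1 : ℕ) : ℤ) R.1.2.2) := by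
      rintro ⟨a, b⟩ ⟨S, hS, h1, h2, h3, h4⟩
      rcases List.mem_cons.1 hS with rfl | hS
      · right; exact ⟨⟨h1, h2.le⟩, ⟨h3, h4.le⟩⟩
      · left; exact ⟨S, hS, h1, h2, h3, h4⟩
    exact (ih.union ((Set.finite_Icc _ _).prod (Set.finite_Icc _ _))).subset h1

theorem simple_poly {P : Par} {κ : ℕ} (hP : P.Ok κ) : IsSimpleRectilinear P.poly :=
  simple_of_path (boxCells_finite _) (pathOf_bdry (good_rects hP))

theorem region_poly {P : Par} {κ : ℕ} (hP : P.Ok κ) : region P.poly = cells P.O (P.cell 0) := by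
  have h := region_of_path (boxCells_finite _) (boxCells_nonneg _) (pathOf_bdry (good_rects hP))
  refine h.trans ?_
  ext p
  simp only [cells, Set.mem_ofPred_eq, Int.cast_zero, zero_add]
  constructor
  · rintro ⟨a, b, h0, h1, h2, h3, h4⟩
    refine ⟨a - P.O, b - P.O, ?_, ?_, ?_, ?_, ?_⟩
    · show P.abs _ _
      have e1 : P.O + (a - P.O) = a := by ring
      have e2 : P.O + (b - P.O) = b := by ring
      rw [e1, e2]; exact h0
    all_goals push_cast; linarith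
  · rintro ⟨a, b, h0, h1, h2, h3, h4⟩
    refine ⟨P.O + a, P.O + b, h0, ?_, ?_, ?_, ?_⟩
    all_goals push_cast; linarith

theorem cell_finite (P : Par) : {p : ℤ × ℤ | P.cell 0 p.1 p.2}.Finite := by
  have h := boxCells_finite P.rects
  have h2 : {p : ℤ × ℤ | P.cell 0 p.1 p.2} =
      (fun p : ℤ × ℤ => (P.O + p.1, P.O + p.2)) ⁻¹' {p : ℤ × ℤ | boxCells P.rects p.1 p.2} := by
    ext p; rfl
  rw [h2]
  refine h.preimage ?_
  rintro ⟨a, b⟩ _ ⟨c, d⟩ _ h
  simp only [Prod.mk.injEq] at h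
  exact Prod.ext (by omega) (by omega)

theorem stab_poly_le {P : Par} {κ : ℕ} (hP : P.Ok κ) {S : ℕ → BT} (hS : P.GeoSol κ S) :
    stab (region P.poly) ≤ P.k := by
  rw [region_poly hP]
  obtain ⟨Q, hQ⟩ := exists_fill hP hS
  exact stab_of_certs (tiling hP (zones hP) (homes hP) hQ) _ fun a b h =>
    rows_cols_zero hP (zones hP) hQ (homes hP) h

theorem exists_of_stab_le {P : Par} {κ : ℕ} (hP : P.Ok κ) (h : stab (region P.poly) ≤ P.k) :
    ∃ S, P.GeoPre S := by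
  rw [region_poly hP] at h
  obtain ⟨𝒯, h1, h2⟩ := exists_partition (cell_finite P) h
  obtain ⟨S⟩ := exists_sys (zones hP) _ 𝒯 h1 h2
  exact S.exists_trees hP

theorem stab_iff {N m κ : ℕ} {K : ℕ → ℕ → ℕ} (hN : 1 ≤ N) (hN2 : N % 2 = 0) (hm : 1 ≤ m)
    (hK : ∀ t j, K t j ≤ κ) :
    IsSimpleRectilinear (parOf N m κ K).poly ∧
    ((∃ T, ChainSol N m K T) → stab (region (parOf N m κ K).poly) ≤ (parOf N m κ K).k) ∧
    (stab (region (parOf N m κ K).poly) ≤ (parOf N m κ K).k → ∃ T, ChainPre N m K T) := by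
  have hP := ok_parOf hN hm hK
  refine ⟨simple_poly hP, ?_, ?_⟩
  · rintro ⟨T, hT⟩
    obtain ⟨S, hS⟩ := geoSol_of_chainSol hN hN2 hK hT
    exact stab_poly_le hP hS
  · intro h
    obtain ⟨S, hS⟩ := exists_of_stab_le hP h
    exact chainPre_of_geoPre hN hK hS

end Pool.Agent.Lib.MP_7d5495_lc
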