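import Pool.Agent.Lib.MP_7d5495_lc.WallFam

/-!
# A wall pocket in a mesh
-/

namespace Pool.Agent.Lib.MP_7d5495_lc

open Set

/-- **L5. A wall pocket in a mesh**: the pocket `(a - x₀) + (b - y₁) < w` stands on the strip
`yb ≤ b < y₁`. -/
theorem Mesh.wall {ι : Type} [Finite ι] {F : Fam ι} {C : ℤ → ℤ → Prop} {k : ℕ}
    (hM : Mesh F C k) (hk : 3 ≤ k) (w : ℕ) (hw : w = beta k (k - 1) + 1) (x₀ yb y₁ : ℤ)
    (hy : yb < y₁)
    (c1 : ∀ a b : ℤ, x₀ ≤ a → a ≤ x₀ + w → yb ≤ b → b < y₁ → C a b)
    (c2 : ∀ a b : ℤ, x₀ ≤ a → y₁ ≤ b → (a - x₀) + (b - y₁) < w → C a b)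
    (c3 : ∀ a b : ℤ, x₀ ≤ a → y₁ ≤ b → (a - x₀) + (b - y₁) = w → ¬ C a b)
    (c4 : ¬ C (x₀ - 1) y₁) :
    ∃ i, (x₀ : ℝ) ≤ F.x₁ i ∧ F.x₂ i ≤ x₀ + w ∧ F.y₁ i ≤ yb ∧ (y₁ : ℝ) < F.y₂ i := by
  have hyr : (yb : ℝ) < y₁ := by exact_mod_cast hy
  have hw1 : 1 ≤ w := by omega
  -- natural numbers below `w`, read as integers
  have key : ∀ n : ℤ, 0 ≤ n → n < w → ∃ j : ℕ, j < w ∧ (j : ℤ) = n := fun n h1 h2 =>
    ⟨n.toNat, by omega, by omega⟩
  have hjr : ∀ j : ℕ, j < w → (j : ℝ) + 1 ≤ w := fun j hj => by exact_mod_cast hj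
  obtain ⟨i, h1, h2, h3, h4⟩ := F.wall k w (by omega) hw (fun j => (x₀ : ℝ) + 1 + j)
    (fun j => (y₁ : ℝ) + w - 1 - j) x₀ yb (x₀ + w + 1) (y₁ + w)
    (by
      intro i j hij _
      have : (i : ℝ) < j := by exact_mod_cast hij
      linarith)
    (by
      intro i j hij _
      have : (i : ℝ) < j := by exact_mod_cast hij
      linarith)
    (by
      intro j _
      have : (0 : ℝ) ≤ j := by positivity
      linarith)
    (by intro j hj; have := hjr j hj; linarith)
    (by intro j hj; have := hjr j hj; linarith)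
    (by
      intro j _
      have : (0 : ℝ) ≤ j := by positivity
      linarith)
    (by
      rintro i j hj ⟨e1, e2, e3, e4⟩
      refine c3 (x₀ + 1 + j) (y₁ + w - 1 - j) (by omega) (by omega) (by ring) ?_
      refine hM.sub i _ _ ?_ ?_ ?_ ?_ <;> push_cast <;> linarith)
    (by
      intro x y e1 e2 e3 e4 e5
      have f1 := Int.floor_le x
      have f2 := Int.lt_floor_add_one x
      have f3 := Int.floor_le y
      have f4 := Int.lt_floor_add_one y
      have g1 : x₀ ≤ ⌊x⌋ := Int.le_floor.2 e1.le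
      have g2 : ⌊x⌋ < x₀ + w + 1 := by rw [Int.floor_lt]; push_cast; exact e2
      have g3 : yb ≤ ⌊y⌋ := Int.le_floor.2 e3.le
      have g4 : ⌊y⌋ < y₁ + w := by rw [Int.floor_lt]; push_cast; exact e4
      refine hM.cover ⌊x⌋ ⌊y⌋ ?_ x y f1 f2.le f3 f4.le
      rcases lt_or_ge ⌊y⌋ y₁ with h | h
      · exact c1 _ _ g1 (by omega) g3 h
      · refine c2 _ _ g1 h ?_
        obtain ⟨j, hj, hj'⟩ := key (y₁ + w - 1 - ⌊y⌋) (by omega) (by omega)
        have hjr' : (j : ℝ) = y₁ + w - 1 - ⌊y⌋ := by exact_mod_cast hj'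
        rcases e5 j hj with h' | h'
        · have : ⌊x⌋ < x₀ + 1 + j := by rw [Int.floor_lt]; push_cast; exact h'
          omega
        · exfalso; linarith)
    (by
      rintro x τ e1 ⟨j₀, hj₀, e2⟩ e3 e4 e5
      refine hM.ver _ _ _ e3 ?_
      intro a b e6 e7 e8 e9
      have g1 : x₀ ≤ a := by
        have : (x₀ : ℝ) < a + 1 := by linarith
        have : x₀ < a + 1 := by exact_mod_cast this
        omega
      have g2 : a < x₀ + w := by
        have := hjr j₀ hj₀
        have : (a : ℝ) < x₀ + w := by linarith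
        exact_mod_cast this
      have g3 : yb ≤ b := by
        have : yb < b + 1 := by exact_mod_cast e8
        omega
      rcases lt_or_ge b y₁ with h | h
      · exact c1 _ _ g1 (by omega) g3 h
      · refine c2 _ _ g1 h ?_
        have g4 : b < y₁ + w := by
          have : (b : ℝ) < y₁ + w := by linarith
          exact_mod_cast this
        obtain ⟨j, hj, hj'⟩ := key (y₁ + w - 1 - b) (by omega) (by omega)
        have hjr' : (j : ℝ) = y₁ + w - 1 - b := by exact_mod_cast hj'
        rcases e5 j hj with h' | h'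
        · have : (a : ℝ) < x₀ + 1 + j := by linarith
          have : a < x₀ + 1 + j := by exact_mod_cast this
          omega
        · exfalso; linarith)
    (by
      rintro y σ e1 ⟨j₀, hj₀, e2⟩ e3 e4 e5
      refine hM.hor _ _ _ e3 ?_
      intro a b e6 e7 e8 e9
      have g1 : x₀ ≤ a := by
        have : x₀ < a + 1 := by exact_mod_cast e6
        omega
      have g2 : a < x₀ + w + 1 := by
        have : (a : ℝ) < x₀ + w + 1 := by linarith
        exact_mod_cast this
      have g3 : yb ≤ b := by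
        have : (yb : ℝ) < b + 1 := by linarith
        have : yb < b + 1 := by exact_mod_cast this
        omega
      rcases lt_or_ge b y₁ with h | h
      · exact c1 _ _ g1 (by omega) g3 h
      · refine c2 _ _ g1 h ?_
        rcases eq_or_lt_of_le g1 with h0 | h0
        · have : (b : ℝ) < y₁ + w := by
            have : (0 : ℝ) ≤ j₀ := by positivity
            linarith
          have : b < y₁ + w := by exact_mod_cast this
          omega
        · obtain ⟨j, hj, hj'⟩ := key (a - x₀ - 1) (by omega) (by omega)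
          have hjr' : (j : ℝ) = a - x₀ - 1 := by exact_mod_cast hj'
          rcases e5 j hj with h' | h'
          · have : (b : ℝ) < y₁ + w - (a - x₀) := by linarith
            have : b < y₁ + w - (a - x₀) := by exact_mod_cast this
            omega
          · exfalso; linarith)
  have hcast : ((w - 1 : ℕ) : ℝ) = w - 1 := by push_cast [Nat.cast_sub hw1]; ring
  simp only [hcast] at h2 h3
  have h2' : (y₁ : ℝ) < F.y₂ i := by linarith
  refine ⟨i, ?_, ?_, h1, h2'⟩
  · by_contra hc
    push Not at hc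
    refine c4 (hM.sub i _ _ ?_ ?_ ?_ h2')
    · push_cast; linarith
    · push_cast; linarith
    · linarith
  · by_contra hc
    push Not at hc
    refine c3 (x₀ + w) y₁ (by omega) le_rfl (by ring) (hM.sub i _ _ ?_ ?_ ?_ h2')
    · push_cast; linarith
    · push_cast; linarith
    · linarith

end Pool.Agent.Lib.MP_7d5495_lc
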