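import Pool.Agent.Lib.MP_7d5495_lc.Fam

/-!
# Boundaries of unions of boxes: definitions
-/

namespace Pool.Agent.Lib.MP_7d5495_lc

/-- the cells of a list of boxes -/
def boxCells (rs : List (Bx × ℕ)) (a b : ℤ) : Prop :=
  ∃ Rs ∈ rs, ((Rs.1.1.1 : ℕ) : ℤ) ≤ a ∧ a < ((Rs.1.1.2 : ℕ) : ℤ) ∧
    ((Rs.1.2.1 : ℕ) : ℤ) ≤ b ∧ b < ((Rs.1.2.2 : ℕ) : ℤ)

/-- the box is not degenerate -/
def NonE (R : Bx) : Prop := R.1.1 < R.1.2 ∧ R.2.1 < R.2.2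

/-- `Q` lies beyond the line of the side `s` of `R` (it may touch this line) -/
def Beyond (s : ℕ) (R Q : Bx) : Prop :=
  (s % 4 = 0 ∧ Q.2.2 ≤ R.2.1) ∨ (s % 4 = 1 ∧ R.1.2 ≤ Q.1.1) ∨ (s % 4 = 2 ∧ R.2.2 ≤ Q.2.1) ∨
    (s % 4 = 3 ∧ Q.1.2 ≤ R.1.1)

/-- the closed boxes are strictly separated by a horizontal or vertical line -/
def Apart (R Q : Bx) : Prop :=
  Q.1.2 < R.1.1 ∨ R.1.2 < Q.1.1 ∨ Q.2.2 < R.2.1 ∨ R.2.2 < Q.2.1

/-- every unit segment of the side `s` of `R` is a side of a cell of `C` beyond `R` -/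
def Backed (C : ℤ → ℤ → Prop) (s : ℕ) (R : Bx) : Prop :=
  (s % 4 = 0 → ∀ a : ℤ, (R.1.1 : ℤ) ≤ a → a < R.1.2 → C a ((R.2.1 : ℤ) - 1)) ∧
  (s % 4 = 1 → ∀ b : ℤ, (R.2.1 : ℤ) ≤ b → b < R.2.2 → C R.1.2 b) ∧
  (s % 4 = 2 → ∀ a : ℤ, (R.1.1 : ℤ) ≤ a → a < R.1.2 → C a R.2.2) ∧
  (s % 4 = 3 → ∀ b : ℤ, (R.2.1 : ℤ) ≤ b → b < R.2.2 → C ((R.1.1 : ℤ) - 1) b)

/-- The box `Rs.1` can be glued along its side `Rs.2` to the union of the boxes `prev`. -/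
def OkAtt (prev : List (Bx × ℕ)) (Rs : Bx × ℕ) : Prop :=
  NonE Rs.1 ∧ (∀ Q ∈ prev, Beyond Rs.2 Rs.1 Q.1 ∨ Apart Rs.1 Q.1) ∧
    Backed (boxCells prev) Rs.2 Rs.1

/-- All boxes of `rs` can be glued, one after the other, to the union of the boxes `prev`. -/
def GoodFrom : List (Bx × ℕ) → List (Bx × ℕ) → Prop
  | _, [] => True
  | prev, Rs :: rs => OkAtt prev Rs ∧ GoodFrom (prev ++ [Rs]) rs

/-- a valid list of boxes -/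
def Good : List (Bx × ℕ) → Prop
  | [] => False
  | Rs :: rs => NonE Rs.1 ∧ GoodFrom [Rs] rs

theorem goodFrom_append (prev l₁ l₂ : List (Bx × ℕ)) :
    GoodFrom prev (l₁ ++ l₂) ↔ GoodFrom prev l₁ ∧ GoodFrom (prev ++ l₁) l₂ := by
  induction l₁ generalizing prev with
  | nil => simp [GoodFrom]
  | cons a l ih =>
    simp only [List.cons_append, GoodFrom, ih, and_assoc]
    rw [List.append_assoc, List.singleton_append]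

/-- the pairs of cyclically consecutive elements -/
def cyc {α : Type} (l : List α) : List (α × α) := l.zip (l.rotate 1)

/-- The step from `p` to `q` is a unit step with a cell of `C` on the left and no cell of `C` on
the right. -/
def IsBd (C : ℤ → ℤ → Prop) (p q : ℕ × ℕ) : Prop :=
  (q.1 = p.1 + 1 ∧ q.2 = p.2 ∧ C p.1 p.2 ∧ ¬ C p.1 ((p.2 : ℤ) - 1)) ∨
  (q.1 = p.1 ∧ q.2 = p.2 + 1 ∧ C ((p.1 : ℤ) - 1) p.2 ∧ ¬ C p.1 p.2) ∨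
  (p.1 = q.1 + 1 ∧ q.2 = p.2 ∧ C q.1 ((p.2 : ℤ) - 1) ∧ ¬ C q.1 p.2) ∨
  (q.1 = p.1 ∧ p.2 = q.2 + 1 ∧ C p.1 q.2 ∧ ¬ C ((p.1 : ℤ) - 1) q.2)

/-- `l` is a closed lattice path without repetitions that is the whole boundary of the union of
the cells `C`, with `C` on the left. -/
structure PathOf (C : ℤ → ℤ → Prop) (l : List (ℕ × ℕ)) : Prop where
  nodup : l.Nodup
  ne : l ≠ []
  bd : ∀ p q, (p, q) ∈ cyc l ↔ IsBd C p q

end Pool.Agent.Lib.MP_7d5495_lc
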