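import Pool.Agent.Lib.MP_7d5495_lc.Tiles
import Pool.Agent.Lib.MP_7d5495_lc.BendDefs
import Pool.Agent.Lib.MP_7d5495_lc.Conv

/-!
# The boxes of the frames
-/

set_option autoImplicit false

namespace Pool.Agent.Lib.MP_7d5495_lc

namespace Place

theorem mem_bend {L D m w : ℕ} {h : ℕ → ℕ} {Rs : Bx × ℕ} : Rs ∈ bend L D m w h ↔
    Rs = (bx 0 (L + D) D (D + m * D), 3) ∨
    (∃ i < m, Rs = (bx (L + (i + 1) * D) (L + (i + 2) * D) D ((m + 1 - i) * D), 3)) ∨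
    (∃ j < w, Rs = (bx (L + D - (w - j)) (L + D) (D + m * D + j) (D + m * D + j + 1), 0)) ∨
    Rs = (bx (L + D) (L + D + m * D) 0 D, 2) ∨
    (∃ j < w, Rs = (bx (L + D + m * D + j) (L + D + m * D + j + 1) (D - (w - j)) D, 3)) ∨
    (∃ i < m, Rs = (bx (L + (i + 2) * D) (L + (i + 2) * D + w) ((m + 1 - i) * D - h i)
        ((m + 1 - i) * D), 3) ∨
      (∃ j < w, Rs = (bx (L + (i + 2) * D) (L + (i + 2) * D + (w - j)) ((m + 1 - i) * D + j)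
        ((m + 1 - i) * D + j + 1), 0)) ∨
      (∃ j < h i, Rs = (bx (L + (i + 2) * D + w + j) (L + (i + 2) * D + w + j + 1)
        ((m + 1 - i) * D - h i) ((m + 1 - i) * D - j), 3))) := by
  simp only [bend, pocketL, pocketD, finger, pocketR, pocketU, List.mem_append, List.mem_map,
    List.mem_range, List.mem_flatMap, List.mem_cons, List.not_mem_nil, or_false, or_assoc,
    List.cons_append, List.nil_append, eq_comm (a := Rs)]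

variable {P : Par} {κ : ℕ}

theorem Y_cast {i : ℕ} (hi : i < P.m) : (((P.m + 1 - i) * P.D : ℕ) : ℤ) = P.Y i := by
  unfold Par.Y
  push_cast
  rw [Nat.cast_sub (by omega)]
  push_cast
  ring

theorem X_cast (i : ℕ) : (((i + 2) * P.D : ℕ) : ℤ) = P.X i := by
  unfold Par.X
  push_cast
  ring

theorem e1 (t : ℕ) : P.zbox t (bx 0 (P.lam t + P.D) P.D (P.D + P.m * P.D)) =
    ⟨-(P.lam t : ℤ), P.D, P.D, P.D + P.B⟩ := by
  have := P.B_eq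
  simp only [Par.zbox, bx, ZR.mk.injEq]
  push_cast
  refine ⟨by ring, by ring, trivial, by rw [this]⟩

theorem e2 (t : ℕ) {i : ℕ} (hi : i < P.m) :
    P.zbox t (bx (P.lam t + (i + 1) * P.D) (P.lam t + (i + 2) * P.D) P.D
      ((P.m + 1 - i) * P.D)) = ⟨P.X i - P.D, P.X i, P.D, P.Y i⟩ := by
  have h1 := X_cast (P := P) i
  simp only [Par.zbox, bx, ZR.mk.injEq]
  refine ⟨?_, ?_, trivial, Y_cast hi⟩
  · rw [← h1]; push_cast; ring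
  · rw [← h1]; push_cast; ring

theorem e3 (t : ℕ) {j : ℕ} (hj : j < P.w) :
    P.zbox t (bx (P.lam t + P.D - (P.w - j)) (P.lam t + P.D) (P.D + P.m * P.D + j)
      (P.D + P.m * P.D + j + 1)) =
    ⟨P.D - (P.w - j), P.D, P.D + P.B + j, P.D + P.B + j + 1⟩ := by
  have h1 := P.B_eq
  have h2 := P.D_eq
  simp only [Par.zbox, bx, ZR.mk.injEq]
  refine ⟨?_, ?_, ?_, ?_⟩
  · omega
  · omega
  · push_cast; rw [h1]
  · push_cast; rw [h1]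

theorem e4 (t : ℕ) : P.zbox t (bx (P.lam t + P.D) (P.lam t + P.D + P.m * P.D) 0 P.D) =
    ⟨P.D, P.D + P.B, 0, P.D⟩ := by
  have := P.B_eq
  simp only [Par.zbox, bx, ZR.mk.injEq]
  push_cast
  refine ⟨by ring, by rw [this]; ring, trivial, trivial⟩

theorem e5 (t : ℕ) {j : ℕ} (hj : j < P.w) :
    P.zbox t (bx (P.lam t + P.D + P.m * P.D + j) (P.lam t + P.D + P.m * P.D + j + 1)
      (P.D - (P.w - j)) P.D) =
    ⟨P.D + P.B + j, P.D + P.B + j + 1, P.D - (P.w - j), P.D⟩ := by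
  have h1 := P.B_eq
  have h2 := P.D_eq
  simp only [Par.zbox, bx, ZR.mk.injEq]
  refine ⟨?_, ?_, ?_, trivial⟩
  · push_cast; rw [h1]; ring
  · push_cast; rw [h1]; ring
  · omega

theorem e6 (hP : P.Ok κ) (t : ℕ) {i : ℕ} (hi : i < P.m) :
    P.zbox t (bx (P.lam t + (i + 2) * P.D) (P.lam t + (i + 2) * P.D + P.w)
      ((P.m + 1 - i) * P.D - P.h t i) ((P.m + 1 - i) * P.D)) =
    ⟨P.X i, P.X i + P.w, P.Y i - P.h t i, P.Y i⟩ := by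
  have h1 := X_cast (P := P) i
  have h2 := Y_cast hi
  have h3 := P.le_Y hi
  have h4 := hP.h_lt t i
  have h5 := P.D_eq
  simp only [Par.zbox, bx, ZR.mk.injEq]
  refine ⟨?_, ?_, ?_, h2⟩
  · rw [← h1]; push_cast; ring
  · rw [← h1]; push_cast; ring
  · rw [← h2]
    rw [Nat.cast_sub]
    have : ((P.h t i : ℕ) : ℤ) ≤ (((P.m + 1 - i) * P.D : ℕ) : ℤ) := by rw [h2]; omega
    exact_mod_cast this

theorem e7 (t : ℕ) {i j : ℕ} (hi : i < P.m) (hj : j < P.w) :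
    P.zbox t (bx (P.lam t + (i + 2) * P.D) (P.lam t + (i + 2) * P.D + (P.w - j))
      ((P.m + 1 - i) * P.D + j) ((P.m + 1 - i) * P.D + j + 1)) =
    ⟨P.X i, P.X i + (P.w - j), P.Y i + j, P.Y i + j + 1⟩ := by
  have h1 := X_cast (P := P) i
  have h2 := Y_cast hi
  simp only [Par.zbox, bx, ZR.mk.injEq]
  refine ⟨?_, ?_, ?_, ?_⟩
  · rw [← h1]; push_cast; ring
  · rw [← h1]; push_cast; rw [Nat.cast_sub hj.le]; ring
  · rw [← h2]; push_cast; ring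
  · rw [← h2]; push_cast; ring

theorem e8 (hP : P.Ok κ) (t : ℕ) {i j : ℕ} (hi : i < P.m) (hj : j < P.h t i) :
    P.zbox t (bx (P.lam t + (i + 2) * P.D + P.w + j) (P.lam t + (i + 2) * P.D + P.w + j + 1)
      ((P.m + 1 - i) * P.D - P.h t i) ((P.m + 1 - i) * P.D - j)) =
    ⟨P.X i + P.w + j, P.X i + P.w + j + 1, P.Y i - P.h t i, P.Y i - j⟩ := by
  have h1 := X_cast (P := P) i
  have h2 := Y_cast hi
  have h3 := P.le_Y hi
  have h4 := hP.h_lt t i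
  have h5 := P.D_eq
  have h6 : ((P.h t i : ℕ) : ℤ) ≤ (((P.m + 1 - i) * P.D : ℕ) : ℤ) := by rw [h2]; omega
  have h7 : P.h t i ≤ (P.m + 1 - i) * P.D := by exact_mod_cast h6
  simp only [Par.zbox, bx, ZR.mk.injEq]
  refine ⟨?_, ?_, ?_, ?_⟩
  · rw [← h1]; push_cast; ring
  · rw [← h1]; push_cast; ring
  · rw [← h2, Nat.cast_sub h7]
  · rw [← h2, Nat.cast_sub (by omega)]

/-- the boxes of a bend in the coordinates of the frame, kind by kind -/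
theorem bend_ex (hP : P.Ok κ) (t : ℕ) (φ : ZR → ℕ → Prop) :
    (∃ Rs ∈ P.bendAt t, φ (P.zbox t Rs.1) Rs.2) ↔
      φ ⟨-(P.lam t : ℤ), P.D, P.D, P.D + P.B⟩ 3 ∨
      (∃ i < P.m, φ ⟨P.X i - P.D, P.X i, P.D, P.Y i⟩ 3) ∨
      (∃ j < P.w, φ ⟨P.D - (P.w - j), P.D, P.D + P.B + j, P.D + P.B + j + 1⟩ 0) ∨
      φ ⟨P.D, P.D + P.B, 0, P.D⟩ 2 ∨
      (∃ j < P.w, φ ⟨P.D + P.B + j, P.D + P.B + j + 1, P.D - (P.w - j), P.D⟩ 3) ∨
      (∃ i < P.m, φ ⟨P.X i, P.X i + P.w, P.Y i - P.h t i, P.Y i⟩ 3 ∨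
        (∃ j < P.w, φ ⟨P.X i, P.X i + (P.w - j), P.Y i + j, P.Y i + j + 1⟩ 0) ∨
        (∃ j < P.h t i,
          φ ⟨P.X i + P.w + j, P.X i + P.w + j + 1, P.Y i - P.h t i, P.Y i - j⟩ 3)) := by
  constructor
  · rintro ⟨Rs, hRs, h⟩
    rcases mem_bend.1 hRs with rfl | ⟨i, hi, rfl⟩ | ⟨j, hj, rfl⟩ | rfl | ⟨j, hj, rfl⟩ |
      ⟨i, hi, rfl | ⟨j, hj, rfl⟩ | ⟨j, hj, rfl⟩⟩
    · rw [e1] at h; exact Or.inl h
    · rw [e2 t hi] at h; exact Or.inr (Or.inl ⟨i, hi, h⟩)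
    · rw [e3 t hj] at h; exact Or.inr (Or.inr (Or.inl ⟨j, hj, h⟩))
    · rw [e4] at h; exact Or.inr (Or.inr (Or.inr (Or.inl h)))
    · rw [e5 t hj] at h; exact Or.inr (Or.inr (Or.inr (Or.inr (Or.inl ⟨j, hj, h⟩))))
    · rw [e6 hP t hi] at h
      exact Or.inr (Or.inr (Or.inr (Or.inr (Or.inr ⟨i, hi, Or.inl h⟩))))
    · rw [e7 t hi hj] at h
      exact Or.inr (Or.inr (Or.inr (Or.inr (Or.inr ⟨i, hi, Or.inr (Or.inl ⟨j, hj, h⟩)⟩))))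
    · rw [e8 hP t hi hj] at h
      exact Or.inr (Or.inr (Or.inr (Or.inr (Or.inr ⟨i, hi, Or.inr (Or.inr ⟨j, hj, h⟩)⟩))))
  · rintro (h | ⟨i, hi, h⟩ | ⟨j, hj, h⟩ | h | ⟨j, hj, h⟩ | ⟨i, hi, h | ⟨j, hj, h⟩ | ⟨j, hj, h⟩⟩)
    · exact ⟨_, mem_bend.2 (Or.inl rfl), by rw [e1]; exact h⟩
    · exact ⟨_, mem_bend.2 (Or.inr (Or.inl ⟨i, hi, rfl⟩)), by rw [e2 t hi]; exact h⟩
    · exact ⟨_, mem_bend.2 (Or.inr (Or.inr (Or.inl ⟨j, hj, rfl⟩))), by rw [e3 t hj]; exact h⟩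
    · exact ⟨_, mem_bend.2 (Or.inr (Or.inr (Or.inr (Or.inl rfl)))), by rw [e4]; exact h⟩
    · exact ⟨_, mem_bend.2 (Or.inr (Or.inr (Or.inr (Or.inr (Or.inl ⟨j, hj, rfl⟩))))), by
        rw [e5 t hj]; exact h⟩
    · exact ⟨_, mem_bend.2 (Or.inr (Or.inr (Or.inr (Or.inr (Or.inr ⟨i, hi, Or.inl rfl⟩))))), by
        rw [e6 hP t hi]; exact h⟩
    · exact ⟨_, mem_bend.2 (Or.inr (Or.inr (Or.inr (Or.inr (Or.inr
        ⟨i, hi, Or.inr (Or.inl ⟨j, hj, rfl⟩)⟩))))), by rw [e7 t hi hj]; exact h⟩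
    · exact ⟨_, mem_bend.2 (Or.inr (Or.inr (Or.inr (Or.inr (Or.inr
        ⟨i, hi, Or.inr (Or.inr ⟨j, hj, rfl⟩)⟩))))), by rw [e8 hP t hi hj]; exact h⟩

/-- the same for statements about all boxes -/
theorem bend_all (hP : P.Ok κ) (t : ℕ) (φ : ZR → ℕ → Prop) :
    (∀ Rs ∈ P.bendAt t, φ (P.zbox t Rs.1) Rs.2) ↔
      φ ⟨-(P.lam t : ℤ), P.D, P.D, P.D + P.B⟩ 3 ∧
      (∀ i < P.m, φ ⟨P.X i - P.D, P.X i, P.D, P.Y i⟩ 3) ∧
      (∀ j < P.w, φ ⟨P.D - (P.w - j), P.D, P.D + P.B + j, P.D + P.B + j + 1⟩ 0) ∧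
      φ ⟨P.D, P.D + P.B, 0, P.D⟩ 2 ∧
      (∀ j < P.w, φ ⟨P.D + P.B + j, P.D + P.B + j + 1, P.D - (P.w - j), P.D⟩ 3) ∧
      (∀ i < P.m, φ ⟨P.X i, P.X i + P.w, P.Y i - P.h t i, P.Y i⟩ 3 ∧
        (∀ j < P.w, φ ⟨P.X i, P.X i + (P.w - j), P.Y i + j, P.Y i + j + 1⟩ 0) ∧
        (∀ j < P.h t i,
          φ ⟨P.X i + P.w + j, P.X i + P.w + j + 1, P.Y i - P.h t i, P.Y i - j⟩ 3)) := by
  have h := bend_ex hP t (fun R s => ¬ φ R s)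
  have h0 := not_congr h
  simp only [not_exists, not_and, not_not, not_or] at h0
  exact h0

theorem bend_bounds' (hP : P.Ok κ) (t : ℕ) {Rs : Bx × ℕ} (h : Rs ∈ P.bendAt t) :
    (P.zbox t Rs.1).x₁ < (P.zbox t Rs.1).x₂ ∧ (P.zbox t Rs.1).y₁ < (P.zbox t Rs.1).y₂ ∧
    (P.zbox t Rs.1).x₂ < P.Δ ∧ (P.zbox t Rs.1).y₂ < P.Δ := by
  have hw := hP.w_ge
  have hD := P.D_eq
  have hΔ := P.Δ_eq
  have hB := P.D_le_B hP.m_pos
  refine (bend_all hP t (fun R _ => R.x₁ < R.x₂ ∧ R.y₁ < R.y₂ ∧ R.x₂ < P.Δ ∧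
    R.y₂ < P.Δ)).2 ?_ Rs h
  have hl : (0 : ℤ) ≤ P.lam t := by positivity
  refine ⟨⟨?_, ?_, ?_, ?_⟩, fun i hi => ?_, fun j hj => ⟨?_, ?_, ?_, ?_⟩, ⟨?_, ?_, ?_, ?_⟩,
    fun j hj => ⟨?_, ?_, ?_, ?_⟩, fun i hi => ?_⟩
  any_goals dsimp only
  any_goals omega
  · have h1 := P.X_le hi
    have h2 := P.le_Y hi
    have h3 := P.Y_le i
    refine ⟨?_, ?_, ?_, ?_⟩ <;> omega
  · have h1 := P.X_le hi
    have h2 := P.le_Y hi
    have h3 := P.Y_le i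
    have h4 := hP.h_lt t i
    have h5 := hP.h_pos t i
    refine ⟨?_, fun j hj => ?_, fun j hj => ?_⟩ <;>
      refine ⟨?_, ?_, ?_, ?_⟩ <;> omega

theorem lam_cast (t : ℕ) : (P.lam t : ℤ) = t * P.Δ := by unfold Par.lam; push_cast; ring

theorem toZero_four (r : ℕ) (R : ZR) : P.toZero (4 * r) R =
    ⟨R.x₁ + 2 * r * P.Δ, R.x₂ + 2 * r * P.Δ, R.y₁ + 2 * r * P.Δ, R.y₂ + 2 * r * P.Δ⟩ := by
  induction r generalizing R with
  | zero => cases R; simp [Par.toZero]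
  | succ r ih =>
    show P.toZero (4 * r) ((((R.unrot (P.lam (4 * r + 4))).unrot (P.lam (4 * r + 3))).unrot
      (P.lam (4 * r + 2))).unrot (P.lam (4 * r + 1))) = _
    rw [ih]
    simp only [ZR.unrot, lam_cast]
    push_cast
    simp only [ZR.mk.injEq]
    refine ⟨by ring, by ring, by ring, by ring⟩

end Place

open Place

/-- **A4.** -/
theorem bend_bounds {P : Par} {κ : ℕ} (hP : P.Ok κ) {t : ℕ} {Rs : Bx × ℕ}
    (h : Rs ∈ P.bendAt t) : NonE Rs.1 ∧ Rs.1.1.2 < P.lam t + P.Δ ∧ Rs.1.2.2 < P.Δ := by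
  obtain ⟨h1, h2, h3, h4⟩ := bend_bounds' hP t h
  simp only [Par.zbox] at h1 h2 h3 h4
  refine ⟨⟨?_, ?_⟩, ?_, ?_⟩ <;> omega

/-- **A5.** -/
theorem place_toZero {P : Par} {t : ℕ} (ht : t < P.N) {Rs : Bx × ℕ} (h1 : NonE Rs.1)
    (h2 : Rs.1.1.2 ≤ P.lam t + P.Δ) (h3 : Rs.1.2.2 ≤ P.Δ) :
    P.toZero t (P.zbox t Rs.1) =
      ⟨((P.pl t Rs).1.1.1 : ℤ) - P.O, ((P.pl t Rs).1.1.2 : ℤ) - P.O,
        ((P.pl t Rs).1.2.1 : ℤ) - P.O, ((P.pl t Rs).1.2.2 : ℤ) - P.O⟩ := by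
  obtain ⟨⟨⟨x1, x2⟩, y1, y2⟩, s⟩ := Rs
  obtain ⟨g1, g2⟩ := h1
  simp only [] at g1 g2 h2 h3
  obtain ⟨r, j, hj, rfl⟩ : ∃ r j, j < 4 ∧ t = 4 * r + j := ⟨t / 4, t % 4, by omega, by omega⟩
  obtain ⟨c, hc⟩ := Nat.exists_eq_add_of_lt ht
  obtain ⟨A, hA⟩ : ∃ A, r * P.Δ = A := ⟨_, rfl⟩
  obtain ⟨C, hC⟩ : ∃ C, c * P.Δ = C := ⟨_, rfl⟩
  obtain ⟨Δ, hΔ⟩ : ∃ Δ, P.Δ = Δ := ⟨_, rfl⟩
  have hO : (P.N + 4) * P.Δ = 4 * A + j * Δ + 5 * Δ + C := by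
    rw [hc, ← hA, ← hC, ← hΔ]; ring
  have hO' : P.O = (4 * A + j * Δ + 5 * Δ + C : ℕ) := by
    rw [← hO]; unfold Par.O; push_cast; ring
  have e1 : (4 * r + j) / 4 = r := by omega
  have e2 : (4 * r + j) % 4 = j := by omega
  have hl : P.lam (4 * r + j) = 4 * A + j * Δ := by unfold Par.lam; rw [← hA, ← hΔ]; ring
  have hlz : (P.lam (4 * r + j) : ℤ) = 4 * A + j * Δ := by exact_mod_cast hl
  have hl1 : (P.lam (4 * r + 1) : ℤ) = 4 * A + Δ := by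
    unfold Par.lam; rw [← hA, ← hΔ]; push_cast; ring
  have hl2 : (P.lam (4 * r + 2) : ℤ) = 4 * A + 2 * Δ := by
    unfold Par.lam; rw [← hA, ← hΔ]; push_cast; ring
  have hl3 : (P.lam (4 * r + 3) : ℤ) = 4 * A + 3 * Δ := by
    unfold Par.lam; rw [← hA, ← hΔ]; push_cast; ring
  have hr : (2 : ℤ) * r * P.Δ = 2 * A := by rw [← hA]; push_cast; ring
  have m1 : 2 * r * P.Δ = 2 * A := by rw [← hA]; ring
  have m2 : (2 * r + 1) * P.Δ = 2 * A + Δ := by rw [← hA, ← hΔ]; ring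
  have m3 : (2 * r + 2) * P.Δ = 2 * A + 2 * Δ := by rw [← hA, ← hΔ]; ring
  rw [hl, hΔ] at h2
  rw [hΔ] at h3
  rw [hO']
  unfold Par.pl place Par.zbox
  simp only [e1, e2]
  rw [hO, hlz, m1, m2, m3]
  clear hO hO' m1 m2 m3 hl hA hC ht hc
  interval_cases j
  · simp only [Nat.add_zero, toZero_four, hr, if_true, bx, ZR.mk.injEq]
    refine ⟨?_, ?_, ?_, ?_⟩ <;> omega
  · show P.toZero (4 * r) (ZR.unrot _ _) = _
    simp only [toZero_four, hl1, hr, if_true, bx, ZR.mk.injEq, ZR.unrot]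
    refine ⟨?_, ?_, ?_, ?_⟩ <;> simp <;> omega
  · show P.toZero (4 * r) (ZR.unrot _ (ZR.unrot _ _)) = _
    simp only [toZero_four, hl1, hl2, hr, if_true, bx, ZR.mk.injEq, ZR.unrot]
    refine ⟨?_, ?_, ?_, ?_⟩ <;> simp <;> omega
  · show P.toZero (4 * r) (ZR.unrot _ (ZR.unrot _ (ZR.unrot _ _))) = _
    simp only [toZero_four, hl1, hl2, hl3, hr, bx, ZR.mk.injEq, ZR.unrot]
    refine ⟨?_, ?_, ?_, ?_⟩ <;> simp <;> omega

namespace Place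

variable {P : Par} {κ : ℕ}

theorem cell_conv (t : ℕ) (a b : ℤ) :
    P.cell t a b ↔ P.abs (P.O + (P.conv t (a, b)).1) (P.O + (P.conv t (a, b)).2) := by
  induction t generalizing a b with
  | zero => rfl
  | succ t ih =>
    show P.cell t b (-(P.lam (t + 1) : ℤ) - a - 1) ↔ _
    rw [ih]
    rfl

theorem inE_of_has (hP : P.Ok κ) {t : ℕ} {Rs : Bx × ℕ} (h : Rs ∈ P.bendAt t) {a b : ℤ}
    (hh : (P.zbox t Rs.1).Has a b) : P.InE t a b := by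
  obtain ⟨h1, h2, h3, h4⟩ := bend_bounds' hP t h
  obtain ⟨g1, g2, g3, g4⟩ := hh
  have e1 : -(P.lam t : ℤ) ≤ (P.zbox t Rs.1).x₁ := by simp only [Par.zbox]; omega
  have e2 : (0 : ℤ) ≤ (P.zbox t Rs.1).y₁ := by simp only [Par.zbox]; omega
  exact ⟨by omega, by omega, by omega, by omega⟩

/-- a cell of the frame `0` is a cell of a box of some frame -/
theorem abs_iff (hP : P.Ok κ) (q : ℤ × ℤ) : P.abs (P.O + q.1) (P.O + q.2) ↔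
    ∃ s < P.N, ∃ Rs ∈ P.bendAt s, ∃ a b, (P.zbox s Rs.1).Has a b ∧ P.conv s (a, b) = q := by
  unfold Par.abs
  constructor
  · rintro ⟨R', hR', h1, h2, h3, h4⟩
    rw [rects_eq, List.mem_flatMap] at hR'
    obtain ⟨s, hs, hR'⟩ := hR'
    rw [List.mem_range] at hs
    obtain ⟨Rs, hRs, rfl⟩ := List.mem_map.1 hR'
    obtain ⟨b1, b2, b3⟩ := bend_bounds hP hRs
    have hz := place_toZero hs b1 b2.le b3.le
    obtain ⟨⟨a, b⟩, hab⟩ := Conv.conv_surjective (P := P) s q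
    refine ⟨s, hs, Rs, hRs, a, b, ?_, hab⟩
    rw [← toZero_has (P := P) (t := s), hz, hab]
    exact ⟨by simp only []; omega, by simp only []; omega, by simp only []; omega,
      by simp only []; omega⟩
  · rintro ⟨s, hs, Rs, hRs, a, b, hh, rfl⟩
    obtain ⟨b1, b2, b3⟩ := bend_bounds hP hRs
    have hz := place_toZero hs b1 b2.le b3.le
    rw [← toZero_has (P := P) (t := s), hz] at hh
    obtain ⟨h1, h2, h3, h4⟩ := hh
    simp only [] at h1 h2 h3 h4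
    refine ⟨P.pl s Rs, ?_, by omega, by omega, by omega, by omega⟩
    rw [rects_eq, List.mem_flatMap]
    exact ⟨s, List.mem_range.2 hs, List.mem_map.2 ⟨Rs, hRs, rfl⟩⟩

end Place

/-- **A6.** -/
theorem cell_frame {P : Par} {κ : ℕ} (hP : P.Ok κ) {t : ℕ} (ht : t < P.N) {a b : ℤ}
    (hE : P.InE t a b) : P.cell t a b ↔ ∃ Rs ∈ P.bendAt t, (P.zbox t Rs.1).Has a b := by
  rw [cell_conv, abs_iff hP]
  constructor
  · rintro ⟨s, hs, Rs, hRs, a', b', hh, e⟩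
    obtain ⟨rfl, rfl, rfl⟩ := conv_inj hP.m_pos (inE_of_has hP hRs hh) hE e
    exact ⟨Rs, hRs, hh⟩
  · rintro ⟨Rs, hRs, hh⟩
    exact ⟨t, ht, Rs, hRs, a, b, hh, rfl⟩

theorem homes {P : Par} {κ : ℕ} (hP : P.Ok κ) : Homes P P.cell := by
  intro a b h
  obtain ⟨s, hs, Rs, hRs, a', b', hh, e⟩ := (abs_iff hP (a, b)).1 h
  refine ⟨s, hs, a', b', inE_of_has hP hRs hh, ?_, e⟩
  rw [cell_conv, e]
  exact h

end Pool.Agent.Lib.MP_7d5495_lc
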