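import Pool.Agent.Lib.MP_7d5495_lc.PathDefs

/-!
# The boundary of one box
-/

set_option autoImplicit false

namespace Pool.Agent.Lib.MP_7d5495_lc

namespace RingBd

/-! ### cyclic lists -/

/-- consecutive pairs of `L ++ [b]` -/
def pairsTo {α : Type} (L : List α) (b : α) : List (α × α) := L.zip (L.tail ++ [b])

lemma cyc_cons {α : Type} (x : α) (xs : List α) : cyc (x :: xs) = pairsTo (x :: xs) x := by
  unfold cyc pairsTo
  rw [List.rotate_cons_succ, List.rotate_zero]
  rfl

lemma pairsTo_append {α : Type} (L₁ L₂ : List α) (c b : α) :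
    pairsTo (L₁ ++ c :: L₂) b = pairsTo L₁ c ++ pairsTo (c :: L₂) b := by
  cases L₁ with
  | nil => simp [pairsTo]
  | cons x xs =>
    unfold pairsTo
    simp only [List.cons_append, List.tail_cons, List.append_assoc]
    have h : xs ++ (c :: (L₂ ++ [b])) = (xs ++ [c]) ++ (L₂ ++ [b]) := by simp
    rw [h, ← List.cons_append, List.zip_append (by simp)]

lemma mem_pairsTo_left {α : Type} {L : List α} {b p q : α} (h : (p, q) ∈ pairsTo L b) : p ∈ L :=
  (List.of_mem_zip h).1

lemma mem_cyc_left {α : Type} {L : List α} {p q : α} (h : (p, q) ∈ cyc L) : p ∈ L :=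
  (List.of_mem_zip h).1

lemma exists_mem_cyc {α : Type} {L : List α} {p : α} (h : p ∈ L) : ∃ q, (p, q) ∈ cyc L := by
  obtain ⟨i, hi, rfl⟩ := List.mem_iff_getElem.1 h
  have h2 : i < (L.rotate 1).length := by simpa using hi
  refine ⟨(L.rotate 1)[i], ?_⟩
  unfold cyc
  have h3 : i < (L.zip (L.rotate 1)).length := by simp [hi]
  have h4 : (L.zip (L.rotate 1))[i] = (L[i], (L.rotate 1)[i]) := List.getElem_zip
  rw [← h4]
  exact List.getElem_mem h3

lemma cyc_rotate {α : Type} (L : List α) (n : ℕ) : cyc (L.rotate n) = (cyc L).rotate n := by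
  unfold cyc
  have h1 : (L.rotate n).rotate 1 = (L.rotate 1).rotate n := by
    rw [List.rotate_rotate, List.rotate_rotate, Nat.add_comm]
  rw [h1]
  unfold List.zip
  rw [List.zipWith_rotate_distrib Prod.mk L (L.rotate 1) n (by simp)]

lemma mem_cyc_of_isRotated {α : Type} {L L' : List α} (h : L ~r L') (p : α × α) :
    p ∈ cyc L ↔ p ∈ cyc L' := by
  obtain ⟨n, rfl⟩ := h
  rw [cyc_rotate, List.mem_rotate]

lemma cyc_unique {α : Type} {L : List α} (hL : L.Nodup) {a b c : α} (h1 : (a, b) ∈ cyc L)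
    (h2 : (a, c) ∈ cyc L) : b = c := by
  unfold cyc at h1 h2
  obtain ⟨i, hi, e1⟩ := List.mem_iff_getElem.1 h1
  obtain ⟨j, hj, e2⟩ := List.mem_iff_getElem.1 h2
  have hi' : i < L.length := by
    simp only [List.length_zip, List.length_rotate, min_self] at hi
    exact hi
  have hj' : j < L.length := by
    simp only [List.length_zip, List.length_rotate, min_self] at hj
    exact hj
  rw [List.getElem_zip] at e1 e2
  have a1 : L[i] = a := congrArg Prod.fst e1
  have a2 : L[j] = a := congrArg Prod.fst e2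
  have hij : i = j := (List.Nodup.getElem_inj_iff hL).1 (a1.trans a2.symm)
  subst hij
  exact (congrArg Prod.snd e1).symm.trans (congrArg Prod.snd e2)

lemma pairsTo_range {α : Type} (f : ℕ → α) (n : ℕ) :
    pairsTo ((List.range n).map f) (f n) = (List.range n).map fun i => (f i, f (i + 1)) := by
  cases n with
  | zero => simp [pairsTo]
  | succ m =>
    unfold pairsTo
    have h : ((List.range (m + 1)).map f).tail ++ [f (m + 1)] =
        (List.range (m + 1)).map fun i => f (i + 1) := by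
      rw [List.range_succ_eq_map, List.map_cons, List.tail_cons, List.map_map,
        ← List.range_succ_eq_map, List.range_succ, List.map_append]
      rfl
    rw [h, List.zip_map']

lemma mem_tail_range_map {α : Type} (f : ℕ → α) (n : ℕ) (p : α) :
    p ∈ ((List.range n).map f).tail ↔ ∃ j, 1 ≤ j ∧ j < n ∧ f j = p := by
  cases n with
  | zero => simp
  | succ m =>
    rw [List.range_succ_eq_map, List.map_cons, List.tail_cons, List.map_map, List.mem_map]
    constructor
    · rintro ⟨i, hi, rfl⟩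
      exact ⟨i + 1, by omega, by have := List.mem_range.1 hi; omega, rfl⟩
    · rintro ⟨j, h1, h2, rfl⟩
      exact ⟨j - 1, List.mem_range.2 (by omega), by simp [Nat.sub_add_cancel h1]⟩

/-- a nodup cyclic list containing a chain of steps starts (after rotation) with this chain -/
lemma rotate_to_chain {α : Type} {l : List α} (hl : l.Nodup) (f : ℕ → α) (n : ℕ) (hn : 1 ≤ n)
    (hf : ∀ i ≤ n, ∀ j ≤ n, f i = f j → i = j)
    (hc : ∀ i < n, (f i, f (i + 1)) ∈ cyc l) :
    ∃ E, l ~r ((List.range n).map f ++ f n :: E) := by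
  have h0 : f 0 ∈ l := mem_cyc_left (hc 0 (by omega))
  obtain ⟨l1, l2, rfl⟩ := List.append_of_mem h0
  have hrot : (l1 ++ f 0 :: l2) ~r (f 0 :: (l2 ++ l1)) := by
    have := List.isRotated_append (l := l1) (l' := f 0 :: l2)
    simpa using this
  set L : List α := f 0 :: (l2 ++ l1) with hL
  have hLn : L.Nodup := hrot.nodup_iff.1 hl
  have hcL : ∀ i < n, (f i, f (i + 1)) ∈ cyc L := fun i hi =>
    (mem_cyc_of_isRotated hrot _).1 (hc i hi)
  have key : ∀ k, k ≤ n → ∃ E, L = (List.range k).map f ++ f k :: E := by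
    intro k
    induction k with
    | zero => intro _; exact ⟨l2 ++ l1, by simp [hL]⟩
    | succ k ih =>
      intro hk
      obtain ⟨E, hE⟩ := ih (by omega)
      have hcyc : cyc L = pairsTo ((List.range k).map f ++ f k :: E) (f 0) := by
        rw [hL, cyc_cons, ← hL, hE]
      have hstep := hcL k (by omega)
      cases E with
      | nil =>
        exfalso
        have h1 : (f k, f 0) ∈ cyc L := by
          rw [hcyc, pairsTo_append, List.mem_append]
          right
          simp [pairsTo]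
        have h2 := cyc_unique hLn hstep h1
        have h3 := hf (k + 1) hk 0 (by omega) h2
        omega
      | cons c E' =>
        have h1 : (f k, c) ∈ cyc L := by
          rw [hcyc, pairsTo_append, List.mem_append]
          right
          simp [pairsTo]
        have h2 := cyc_unique hLn hstep h1
        refine ⟨E', ?_⟩
        rw [hE, List.range_succ, List.map_append, h2]
        simp
  obtain ⟨E, hE⟩ := key n (le_refl n)
  exact ⟨E, by rw [← hE]; exact hrot⟩

lemma flatMap_rotate {α β : Type} (g : α → List β) {l l' : List α} (h : l ~r l') :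
    l.flatMap g ~r l'.flatMap g := by
  obtain ⟨n, rfl⟩ := h
  rcases Nat.eq_zero_or_pos l.length with h0 | h0
  · have : l = [] := List.length_eq_zero_iff.1 h0
    subst this
    simp
  · rw [← List.rotate_mod, List.rotate_eq_drop_append_take (Nat.mod_lt _ h0).le]
    conv_lhs => rw [← List.take_append_drop (n % l.length) l]
    rw [List.flatMap_append, List.flatMap_append]
    exact List.isRotated_append

lemma pathOf_rotate {C : ℤ → ℤ → Prop} {l l' : List (ℕ × ℕ)} (h : l ~r l') (hl : PathOf C l) :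
    PathOf C l' :=
  ⟨h.nodup_iff.1 hl.nodup, fun h0 => hl.ne (by subst h0; exact List.isRotated_nil_iff.1 h),
    fun p q => ((mem_cyc_of_isRotated h _).symm).trans (hl.bd p q)⟩

/-! ### unit steps -/

/-- unit step -/
def isU (p q : ℕ × ℕ) : Prop :=
  (q.1 = p.1 + 1 ∧ q.2 = p.2) ∨ (q.1 = p.1 ∧ q.2 = p.2 + 1) ∨ (p.1 = q.1 + 1 ∧ q.2 = p.2) ∨
    (q.1 = p.1 ∧ p.2 = q.2 + 1)

/-- the cell on the left of a unit step -/
def lc (p q : ℕ × ℕ) : ℤ × ℤ :=
  if q.1 = p.1 + 1 then ((p.1 : ℤ), (p.2 : ℤ)) else if q.2 = p.2 + 1 then ((p.1 : ℤ) - 1, (p.2 : ℤ))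
  else if p.1 = q.1 + 1 then ((q.1 : ℤ), (p.2 : ℤ) - 1) else ((p.1 : ℤ), (q.2 : ℤ))

lemma isU_symm {p q : ℕ × ℕ} (h : isU p q) : isU q p := by
  unfold isU at *
  omega

lemma isBd_iff (X : ℤ → ℤ → Prop) (p q : ℕ × ℕ) :
    IsBd X p q ↔ isU p q ∧ X (lc p q).1 (lc p q).2 ∧ ¬ X (lc q p).1 (lc q p).2 := by
  obtain ⟨p1, p2⟩ := p
  obtain ⟨q1, q2⟩ := q
  unfold IsBd isU lc
  simp only
  constructor
  · rintro (⟨rfl, rfl, h3, h4⟩ | ⟨rfl, rfl, h3, h4⟩ | ⟨rfl, rfl, h3, h4⟩ | ⟨rfl, rfl, h3, h4⟩)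
    · refine ⟨by simp, ?_, ?_⟩
      · simpa using h3
      · have : ¬ (p1 = p1 + 1 + 1) := by omega
        simpa [this] using h4
    · refine ⟨by simp, ?_, ?_⟩
      · have : ¬ (q1 = q1 + 1) := by omega
        simpa [this] using h3
      · have h5 : ¬ (q1 = q1 + 1) := by omega
        have h6 : ¬ (p2 = p2 + 1 + 1) := by omega
        simpa [h5, h6] using h4
    · refine ⟨by simp, ?_, ?_⟩
      · have h5 : ¬ (q1 = q1 + 1 + 1) := by omega
        have h6 : ¬ (q2 = q2 + 1) := by omega
        simpa [h5, h6] using h3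
      · simpa using h4
    · refine ⟨by simp, ?_, ?_⟩
      · have h5 : ¬ (q1 = q1 + 1) := by omega
        have h6 : ¬ (q2 = q2 + 1 + 1) := by omega
        simpa [h5, h6] using h3
      · have h5 : ¬ (q1 = q1 + 1) := by omega
        simpa [h5] using h4
  · rintro ⟨(⟨rfl, rfl⟩ | ⟨rfl, rfl⟩ | ⟨rfl, rfl⟩ | ⟨rfl, rfl⟩), h3, h4⟩
    · left
      refine ⟨rfl, rfl, ?_, ?_⟩
      · simpa using h3
      · have : ¬ (p1 = p1 + 1 + 1) := by omega
        simpa [this] using h4
    · right; left
      refine ⟨rfl, rfl, ?_, ?_⟩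
      · have : ¬ (q1 = q1 + 1) := by omega
        simpa [this] using h3
      · have h5 : ¬ (q1 = q1 + 1) := by omega
        have h6 : ¬ (p2 = p2 + 1 + 1) := by omega
        simpa [h5, h6] using h4
    · right; right; left
      refine ⟨rfl, rfl, ?_, ?_⟩
      · have h5 : ¬ (q1 = q1 + 1 + 1) := by omega
        have h6 : ¬ (q2 = q2 + 1) := by omega
        simpa [h5, h6] using h3
      · simpa using h4
    · right; right; right
      refine ⟨rfl, rfl, ?_, ?_⟩
      · have h5 : ¬ (q1 = q1 + 1) := by omega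
        have h6 : ¬ (q2 = q2 + 1 + 1) := by omega
        simpa [h5, h6] using h3
      · have h5 : ¬ (q1 = q1 + 1) := by omega
        simpa [h5] using h4

/-! ### sides of a box -/

/-- length of a side -/
def len (R : Bx) (s : ℕ) : ℕ := if s % 4 = 0 ∨ s % 4 = 2 then R.1.2 - R.1.1 else R.2.2 - R.2.1

/-- points of a side -/
def pt (R : Bx) (s i : ℕ) : ℕ × ℕ :=
  if s % 4 = 0 then (R.1.1 + i, R.2.1) else if s % 4 = 1 then (R.1.2, R.2.1 + i)
  else if s % 4 = 2 then (R.1.2 - i, R.2.2) else (R.1.1, R.2.2 - i)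

lemma mod4 (s : ℕ) : s % 4 = 0 ∨ s % 4 = 1 ∨ s % 4 = 2 ∨ s % 4 = 3 := by omega

lemma side_eq (R : Bx) (s : ℕ) : side R s = (List.range (len R s)).map (pt R s) := by
  unfold side len
  rcases mod4 s with h | h | h | h <;> simp [h, pt]

lemma pt_zero (R : Bx) (s : ℕ) : pt R s 0 = cor R s := by
  unfold pt cor
  rcases mod4 s with h | h | h | h <;> simp [h]

lemma pt_len (R : Bx) (hR : NonE R) (s : ℕ) : pt R s (len R s) = cor R (s + 1) := by
  obtain ⟨h1, h2⟩ := hR
  unfold pt cor len
  rcases mod4 s with h | h | h | h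
  · have : (s + 1) % 4 = 1 := by omega
    simp only [h, this]
    simp
    omega
  · have : (s + 1) % 4 = 2 := by omega
    simp only [h, this]
    simp
    omega
  · have : (s + 1) % 4 = 3 := by omega
    simp only [h, this]
    simp
    omega
  · have : (s + 1) % 4 = 0 := by omega
    simp only [h, this]
    simp
    omega

lemma len_pos (R : Bx) (hR : NonE R) (s : ℕ) : 1 ≤ len R s := by
  obtain ⟨h1, h2⟩ := hR
  unfold len
  split_ifs <;> omega

lemma pt_inj (R : Bx) (hR : NonE R) (s : ℕ) : ∀ i ≤ len R s, ∀ j ≤ len R s,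
    pt R s i = pt R s j → i = j := by
  obtain ⟨h1, h2⟩ := hR
  intro i hi j hj h
  unfold len at hi hj
  unfold pt at h
  rcases mod4 s with hs | hs | hs | hs <;> simp [hs] at hi hj h <;> omega

lemma side_mod (R : Bx) (s : ℕ) : side R s = side R (s % 4) := by
  unfold side
  simp

lemma pt_closed (R : Bx) (hR : NonE R) (s i : ℕ) (hi : i ≤ len R s) :
    R.1.1 ≤ (pt R s i).1 ∧ (pt R s i).1 ≤ R.1.2 ∧ R.2.1 ≤ (pt R s i).2 ∧ (pt R s i).2 ≤ R.2.2 := by
  obtain ⟨h1, h2⟩ := hR
  unfold len at hi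
  unfold pt
  rcases mod4 s with hs | hs | hs | hs <;> simp [hs] at hi ⊢ <;> omega

/-- cells of one box -/
def InR (R : Bx) (a b : ℤ) : Prop :=
  (R.1.1 : ℤ) ≤ a ∧ a < R.1.2 ∧ (R.2.1 : ℤ) ≤ b ∧ b < R.2.2

lemma boxCells_single (R : Bx) (s : ℕ) : boxCells [(R, s)] = InR R := by
  funext a b
  simp [boxCells, InR]

/-! ### the ring -/

lemma side_cons (R : Bx) (hR : NonE R) (s : ℕ) : side R s = cor R s :: (side R s).tail := by
  rw [side_eq]
  have h := len_pos R hR s
  obtain ⟨m, hm⟩ : ∃ m, len R s = m + 1 := ⟨len R s - 1, by omega⟩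
  rw [hm, List.range_succ_eq_map, List.map_cons, pt_zero]
  rfl

lemma pairsTo_side (R : Bx) (hR : NonE R) (s : ℕ) :
    pairsTo (side R s) (cor R (s + 1)) =
      (List.range (len R s)).map fun i => (pt R s i, pt R s (i + 1)) := by
  rw [← pt_len R hR s, side_eq, pairsTo_range]

lemma mem_side (R : Bx) (s : ℕ) (p : ℕ × ℕ) : p ∈ side R s ↔ ∃ i < len R s, pt R s i = p := by
  rw [side_eq, List.mem_map]
  simp only [List.mem_range]

lemma side_nodup (R : Bx) (hR : NonE R) (s : ℕ) : (side R s).Nodup := by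
  rw [side_eq]
  refine List.Nodup.map_on ?_ List.nodup_range
  intro i hi j hj h
  exact pt_inj R hR s i (List.mem_range.1 hi).le j (List.mem_range.1 hj).le h

lemma cyc_ring (R : Bx) (hR : NonE R) (p q : ℕ × ℕ) :
    (p, q) ∈ cyc (side R 0 ++ side R 1 ++ side R 2 ++ side R 3) ↔
      ∃ s < 4, ∃ i < len R s, p = pt R s i ∧ q = pt R s (i + 1) := by
  have h4 : cor R 4 = cor R 0 := by simp [cor]
  have hc : cyc (side R 0 ++ side R 1 ++ side R 2 ++ side R 3) =
      pairsTo (side R 0) (cor R 1) ++ pairsTo (side R 1) (cor R 2) ++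
        pairsTo (side R 2) (cor R 3) ++ pairsTo (side R 3) (cor R 4) := by
    have e0 : side R 0 ++ side R 1 ++ side R 2 ++ side R 3 =
        cor R 0 :: ((side R 0).tail ++ (side R 1 ++ (side R 2 ++ side R 3))) := by
      conv_lhs => rw [side_cons R hR 0]
      simp [List.append_assoc]
    rw [e0, cyc_cons]
    have e1 : cor R 0 :: ((side R 0).tail ++ (side R 1 ++ (side R 2 ++ side R 3))) =
        side R 0 ++ cor R 1 :: ((side R 1).tail ++ (side R 2 ++ side R 3)) := by
      conv_rhs => rw [side_cons R hR 0]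
      conv_lhs => rw [side_cons R hR 1]
      simp
    have e2 : cor R 1 :: ((side R 1).tail ++ (side R 2 ++ side R 3)) =
        side R 1 ++ cor R 2 :: ((side R 2).tail ++ side R 3) := by
      conv_rhs => rw [side_cons R hR 1]
      conv_lhs => rw [side_cons R hR 2]
      simp
    have e3 : cor R 2 :: ((side R 2).tail ++ side R 3) =
        side R 2 ++ cor R 3 :: (side R 3).tail := by
      conv_rhs => rw [side_cons R hR 2]
      conv_lhs => rw [side_cons R hR 3]
      simp
    rw [e1, pairsTo_append, e2, pairsTo_append, e3, pairsTo_append, ← side_cons R hR 3, h4]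
    simp [List.append_assoc]
  rw [hc]
  have hp : ∀ s, (p, q) ∈ pairsTo (side R s) (cor R (s + 1)) ↔
      ∃ i < len R s, p = pt R s i ∧ q = pt R s (i + 1) := by
    intro s
    rw [pairsTo_side R hR s, List.mem_map]
    constructor
    · rintro ⟨i, hi, h⟩
      exact ⟨i, List.mem_range.1 hi, (congrArg Prod.fst h).symm, (congrArg Prod.snd h).symm⟩
    · rintro ⟨i, hi, rfl, rfl⟩
      exact ⟨i, List.mem_range.2 hi, rfl⟩
  have h0 := hp 0
  have h1 := hp 1
  have h2 := hp 2
  have h3 := hp 3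
  simp only [zero_add, Nat.reduceAdd] at h0 h1 h2 h3
  rw [List.mem_append, List.mem_append, List.mem_append, h0, h1, h2, h3]
  constructor
  · rintro (((h | h) | h) | h)
    · exact ⟨0, by omega, h⟩
    · exact ⟨1, by omega, h⟩
    · exact ⟨2, by omega, h⟩
    · exact ⟨3, by omega, h⟩
  · rintro ⟨s, hs, h⟩
    have : s = 0 ∨ s = 1 ∨ s = 2 ∨ s = 3 := by omega
    rcases this with rfl | rfl | rfl | rfl
    · exact Or.inl (Or.inl (Or.inl h))
    · exact Or.inl (Or.inl (Or.inr h))
    · exact Or.inl (Or.inr h)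
    · exact Or.inr h

lemma isBd_inR (R : Bx) (hR : NonE R) (p q : ℕ × ℕ) :
    IsBd (InR R) p q ↔ ∃ s < 4, ∃ i < len R s, p = pt R s i ∧ q = pt R s (i + 1) := by
  obtain ⟨p1, p2⟩ := p
  obtain ⟨q1, q2⟩ := q
  constructor
  · unfold IsBd InR
    dsimp only
    rintro (⟨rfl, rfl, ⟨a1, a2, a3, a4⟩, h⟩ | ⟨rfl, rfl, ⟨a1, a2, a3, a4⟩, h⟩ |
      ⟨rfl, rfl, ⟨a1, a2, a3, a4⟩, h⟩ | ⟨rfl, rfl, ⟨a1, a2, a3, a4⟩, h⟩)
    · refine ⟨0, by omega, p1 - R.1.1, ?_, ?_, ?_⟩
      · simp [len]; omega
      · simp [pt]; omega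
      · simp [pt]; omega
    · refine ⟨1, by omega, p2 - R.2.1, ?_, ?_, ?_⟩
      · simp [len]; omega
      · simp [pt]; omega
      · simp [pt]; omega
    · refine ⟨2, by omega, R.1.2 - (q1 + 1), ?_, ?_, ?_⟩
      · simp [len]; omega
      · simp [pt]; omega
      · simp [pt]; omega
    · refine ⟨3, by omega, R.2.2 - (q2 + 1), ?_, ?_, ?_⟩
      · simp [len]; omega
      · simp [pt]; omega
      · simp [pt]; omega
  · rintro ⟨s, hs, i, hi, h1, h2⟩
    obtain ⟨n1, n2⟩ := hR
    have : s = 0 ∨ s = 1 ∨ s = 2 ∨ s = 3 := by omega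
    unfold IsBd InR
    dsimp only
    rcases this with rfl | rfl | rfl | rfl
    · simp [len] at hi
      simp [pt] at h1 h2
      omega
    · simp [len] at hi
      simp [pt] at h1 h2
      omega
    · simp [len] at hi
      simp [pt] at h1 h2
      omega
    · simp [len] at hi
      simp [pt] at h1 h2
      omega

end RingBd

open RingBd in
/-- **D1.** -/
theorem pathOf_ring {R : Bx} (hR : NonE R) :
    PathOf (boxCells [(R, 0)]) (side R 0 ++ side R 1 ++ side R 2 ++ side R 3) := by
  refine ⟨?_, ?_, ?_⟩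
  · have hd : ∀ s s', s < s' → s' < 4 → ∀ p, p ∈ side R s → p ∈ side R s' → False := by
      intro s s' h1 h2 p hp hp'
      obtain ⟨i, hi, e1⟩ := (mem_side R s p).1 hp
      obtain ⟨j, hj, e2⟩ := (mem_side R s' p).1 hp'
      obtain ⟨n1, n2⟩ := hR
      have e3 : pt R s i = pt R s' j := e1.trans e2.symm
      have : (s = 0 ∧ s' = 1) ∨ (s = 0 ∧ s' = 2) ∨ (s = 0 ∧ s' = 3) ∨ (s = 1 ∧ s' = 2) ∨
        (s = 1 ∧ s' = 3) ∨ (s = 2 ∧ s' = 3) := by omega
      rcases this with ⟨rfl, rfl⟩ | ⟨rfl, rfl⟩ | ⟨rfl, rfl⟩ | ⟨rfl, rfl⟩ | ⟨rfl, rfl⟩ | ⟨rfl, rfl⟩ <;>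
        (simp [len] at hi hj; simp [pt] at e3; omega)
    rw [List.nodup_append, List.nodup_append, List.nodup_append]
    refine ⟨⟨⟨side_nodup R hR 0, side_nodup R hR 1, ?_⟩, side_nodup R hR 2, ?_⟩,
      side_nodup R hR 3, ?_⟩
    · intro p hp q hq hpq
      subst hpq
      exact hd 0 1 (by omega) (by omega) p hp hq
    · intro p hp q hq hpq
      subst hpq
      rcases List.mem_append.1 hp with h | h
      · exact hd 0 2 (by omega) (by omega) p h hq
      · exact hd 1 2 (by omega) (by omega) p h hq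
    · intro p hp q hq hpq
      subst hpq
      rcases List.mem_append.1 hp with h | h
      · rcases List.mem_append.1 h with h | h
        · exact hd 0 3 (by omega) (by omega) p h hq
        · exact hd 1 3 (by omega) (by omega) p h hq
      · exact hd 2 3 (by omega) (by omega) p h hq
  · intro h
    have h1 : cor R 0 ∈ side R 0 ++ side R 1 ++ side R 2 ++ side R 3 := by
      rw [side_cons R hR 0]
      simp
    rw [h] at h1
    simp at h1
  · intro p q
    rw [boxCells_single, cyc_ring R hR, isBd_inR R hR]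

end Pool.Agent.Lib.MP_7d5495_lc
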