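import Pool.Agent.Lib.MP_7d5495_lc.StairCells
import Pool.Agent.Lib.MP_7d5495_lc.StairLines
import Pool.Agent.Lib.MP_7d5495_lc.TreeStats

/-!
# The main rows
-/

set_option autoImplicit false

namespace Pool.Agent.Lib.MP_7d5495_lc

/-- the left end of the main row channel -/
def Par.lft (P : Par) (t : ℕ) (c : ℤ) : ℤ := if t = 0 then 0 else -(P.lam t : ℤ) - c

namespace RowMain

variable {P : Par} {κ : ℕ}

theorem X_def (i : ℕ) : P.X i = ((i : ℤ) + 2) * P.D := rfl

theorem Y_def (i : ℕ) : P.Y i = ((P.m : ℤ) + 1 - i) * P.D := rfl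

theorem has_rot {l : ℤ} {R : ZR} {a b : ℤ} (h : R.Has b (-l - a - 1)) : (R.rot l).Has a b := by
  obtain ⟨h1, h2, h3, h4⟩ := h
  refine ⟨?_, ?_, ?_, ?_⟩
  · show -l - R.y₂ ≤ a
    omega
  · show a < -l - R.y₁
    omega
  · exact h1
  · exact h2

theorem mem_onRow {l : List ZR} {R : ZR} {y a b : ℤ} (hR : R ∈ l) (h : R.Has a b)
    (h1 : 2 * b ≤ y) (h2 : y ≤ 2 * b + 2) : R ∈ onRow l y := by
  obtain ⟨-, -, h3, h4⟩ := h
  unfold onRow
  rw [List.mem_filter]
  refine ⟨hR, ?_⟩
  simp only [decide_eq_true_eq]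
  omega

theorem mem_onCol {l : List ZR} {R : ZR} {y a b : ℤ} (hR : R ∈ l) (h : R.Has a b)
    (h1 : 2 * a ≤ y) (h2 : y ≤ 2 * a + 2) : R ∈ onCol l y := by
  obtain ⟨h3, h4, -, -⟩ := h
  unfold onCol
  rw [List.mem_filter]
  refine ⟨hR, ?_⟩
  simp only [decide_eq_true_eq]
  omega

/-- the cells of the corner below the step `i` are owned by the tiles of the corner -/
theorem own_corner {S : BT} (hS : S.size = P.m) {i : ℕ} {a b : ℤ} (h1 : (P.D : ℤ) ≤ a)
    (h2 : a < P.X i) (h3 : (P.D : ℤ) ≤ b) (h4 : b < P.Y i) : ∃ R ∈ P.sC S, R.Has a b := by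
  have hD := Par.D_pos (P := P)
  unfold Par.sC
  rw [stair_has S _ _ _ hD]
  refine ⟨h1, h3, ?_⟩
  have e1 : (a - P.D) / P.D < (i : ℤ) + 1 := by
    rw [Int.ediv_lt_iff_lt_mul hD]
    rw [X_def] at h2
    linarith
  have e2 : (b - P.D) / P.D < (P.m : ℤ) - i := by
    rw [Int.ediv_lt_iff_lt_mul hD]
    rw [Y_def] at h4
    linarith
  rw [hS]
  omega

/-- the cell on top of the step `i` is not in the polygon -/
theorem top_not {cell : ℕ → ℤ → ℤ → Prop} (hP : P.Ok κ) (hz : Zones P cell) {t : ℕ}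
    (ht : t < P.N) {i : ℕ} (hi : i < P.m) {a : ℤ} (h1 : P.X i - P.D ≤ a) (h2 : a < P.X i) :
    ¬ cell t a (P.Y i) := by
  have hY1 := Par.le_Y hi
  have hY2 := Par.Y_le (P := P) i
  have hΔ := Par.Δ_eq (P := P)
  have hD := Par.D_eq (P := P)
  rcases Nat.eq_zero_or_pos i with h0 | h0
  · subst h0
    rw [Par.X_zero] at h1 h2
    rw [hz.first t ht a (P.Y 0) (by omega) (by omega) (by omega) (by omega), Par.Y_zero]
    omega
  · obtain ⟨j, rfl⟩ : ∃ j, i = j + 1 := ⟨i - 1, by omega⟩
    have hX := Par.X_succ (P := P) j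
    have hY := Par.Y_succ (P := P) j
    have hh := hP.h_lt t j
    rw [hz.fing t ht j (by omega) a (P.Y (j + 1)) (by omega) (by omega) (by omega) (by omega)]
    omega

/-- the tiles met by a main row to the left of the fingers -/
def core (P : Par) (Q : Fill) (t : ℕ) (y : ℤ) : List ZR :=
  (match t with
    | 0 => []
    | s + 1 => (onCol (P.sC (Q.S s)) y).map (ZR.rot (P.lam (s + 1))) ++
        [P.tOW.rot (P.lam (s + 1))]) ++
  ([P.tM t, P.tIW] ++ onRow (P.sC (Q.S t)) y)

theorem core_tile {Q : Fill} {t : ℕ} (ht : t < P.N) {y : ℤ} {R : ZR} (h : R ∈ core P Q t y) :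
    P.tile Q t R := by
  have main : ∀ {t : ℕ}, t < P.N → R ∈ [P.tM t, P.tIW] ++ onRow (P.sC (Q.S t)) y →
      P.tile Q t R := by
    intro t ht h
    rcases List.mem_append.1 h with h | h
    · simp only [List.mem_cons, List.not_mem_nil, or_false] at h
      rcases h with rfl | rfl
      · exact tile_of_frame ht tM_mem
      · exact tile_of_frame ht tIW_mem
    · exact tile_of_frame ht (sC_mem (List.mem_filter.1 h).1)
  rcases t with _ | s
  · exact main ht (by simpa [core] using h)
  · unfold core at h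
    rcases List.mem_append.1 h with h | h
    · simp only at h
      rcases List.mem_append.1 h with h | h
      · obtain ⟨R', hR', rfl⟩ := List.mem_map.1 h
        rw [tile_rot]
        exact tile_of_frame (by omega) (sC_mem (List.mem_filter.1 hR').1)
      · simp only [List.mem_cons, List.not_mem_nil, or_false] at h
        rw [h, tile_rot]
        exact tile_of_frame (by omega) tOW_mem
    · exact main ht h

theorem core_own {Q : Fill} (hQ : FillOk P κ Q) {t : ℕ} (ht : t < P.N) {i : ℕ}
    (hi : i < P.m) {y a b : ℤ} (h1 : P.lft t (P.X i) ≤ a) (h2 : a < P.X i) (h3 : 2 * b ≤ y)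
    (h4 : y ≤ 2 * b + 2) (h5 : (P.D : ℤ) ≤ b) (h6 : b < P.Y i) :
    ∃ R ∈ core P Q t y, R.Has a b := by
  have hY2 := Par.Y_le (P := P) i
  have hD := Par.D_eq (P := P)
  have hsol := hQ.sol.1.1
  -- the part in front of the walls
  have front : ∀ {t : ℕ} {l : List ZR}, t < P.N → (P.tM t).x₁ ≤ a →
      ∃ R ∈ l ++ ([P.tM t, P.tIW] ++ onRow (P.sC (Q.S t)) y), R.Has a b := by
    intro t l ht h
    rcases lt_or_ge a ((P.D : ℤ) - P.w) with g | g
    · exact ⟨P.tM t, by simp, h, g, h5, by show b < P.D + P.B; omega⟩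
    rcases lt_or_ge a (P.D : ℤ) with g' | g'
    · exact ⟨P.tIW, by simp, g, g', h5, by show b < P.D + P.B + 1; omega⟩
    · obtain ⟨R, hR, hR'⟩ := own_corner (hsol t ht) g' h2 h5 h6
      refine ⟨R, ?_, hR'⟩
      simp only [List.mem_append]
      right; right
      exact mem_onRow hR hR' h3 h4
  rcases t with _ | s
  · exact front ht (by simpa [Par.lft, Par.tM] using h1)
  · by_cases h : -(P.lam (s + 1) : ℤ) - (P.D - P.w) ≤ a
    · exact front ht (by simpa [Par.tM] using h)
    · push Not at h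
      have h1' : -(P.lam (s + 1) : ℤ) - P.X i ≤ a := by simpa [Par.lft] using h1
      by_cases g : -(P.lam (s + 1) : ℤ) - P.D ≤ a
      · refine ⟨P.tOW.rot (P.lam (s + 1)), by simp [core], has_rot ⟨h5, ?_, ?_, ?_⟩⟩
        · show b < P.D + P.B + 1
          omega
        · show (P.D : ℤ) - P.w ≤ -(P.lam (s + 1) : ℤ) - a - 1
          omega
        · show -(P.lam (s + 1) : ℤ) - a - 1 < P.D
          omega
      · push Not at g
        obtain ⟨R, hR, hR'⟩ := own_corner (hsol s (by omega)) (i := P.m - 1 - i) (a := b)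
          (b := -(P.lam (s + 1) : ℤ) - a - 1) h5 (by rw [Par.X_rev hi]; exact h6) (by omega)
          (by rw [Par.Y_rev hi]; omega)
        refine ⟨R.rot (P.lam (s + 1)), ?_, has_rot hR'⟩
        simp only [core, List.mem_append, List.mem_map]
        left; left
        exact ⟨R, mem_onCol hR hR' h3 h4, rfl⟩

theorem core_left {cell : ℕ → ℤ → ℤ → Prop} (hP : P.Ok κ) (hz : Zones P cell) {t : ℕ}
    (ht : t < P.N) {i : ℕ} (hi : i < P.m) {b : ℤ} (h1 : P.Y i - P.D ≤ b) (h2 : b < P.Y i) :
    ¬ cell t (P.lft t (P.X i) - 1) b := by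
  have hY1 := Par.le_Y hi
  have hY2 := Par.Y_le (P := P) i
  have hΔ := Par.Δ_eq (P := P)
  have hD := Par.D_eq (P := P)
  rcases t with _ | s
  · have e : P.lft 0 (P.X i) - 1 = -1 := by simp [Par.lft]
    rw [e]
    exact hz.start b (by omega) (by omega)
  · have e : -(P.lam (s + 1) : ℤ) - (P.lft (s + 1) (P.X i) - 1) - 1 = P.X i := by
      simp only [Par.lft, Nat.add_eq_zero_iff, one_ne_zero, and_false, if_false]
      ring
    rw [hz.rot, e, ← Par.Y_rev hi]
    exact top_not hP hz (by omega) (by omega) (by rw [Par.X_rev hi]; exact h1)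
      (by rw [Par.X_rev hi]; exact h2)

/-- the number of tiles of the core on a line through the interior of the step `i` -/
theorem core_length {Q : Fill} (hQ : FillOk P κ Q) {t : ℕ} (ht : t < P.N) {i : ℕ}
    (hi : i < P.m) {y : ℤ} (h1 : 2 * (P.Y i - P.D) < y) (h2 : y < 2 * P.Y i) :
    (core P Q t y).length ≤ (if t = 0 then 0 else (Q.S (t - 1)).L (P.m - 1 - i) + 2) + 2 +
      ((Q.S t).U i + 1) := by
  have hD := Par.D_pos (P := P)
  have hsol := hQ.sol.1.1
  have key : ∀ {t : ℕ}, t < P.N → (onRow (P.sC (Q.S t)) y).length ≤ (Q.S t).U i + 1 := by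
    intro t ht
    refine onRow_stair_key (Q.S t) _ _ _ hD y (by rw [hsol t ht]; exact hi) ?_ ?_
    · rw [hsol t ht]
      rw [Y_def] at h1
      linarith
    · rw [hsol t ht]
      rw [Y_def] at h2
      linarith
  rcases t with _ | s
  · have := key ht
    simp only [core, List.nil_append, List.length_append, List.length_cons, List.length_nil,
      if_true]
    omega
  · have k1 := key ht
    have k2 : (onCol (P.sC (Q.S s)) y).length ≤ (Q.S s).L (P.m - 1 - i) + 1 := by
      have e : ((P.m - 1 - i : ℕ) : ℤ) = P.m - 1 - i := by omega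
      refine onCol_stair_key (Q.S s) _ _ _ hD y (by rw [hsol s (by omega)]; omega) ?_ ?_
      · rw [e]
        rw [Y_def] at h1
        linarith
      · rw [e]
        rw [Y_def] at h2
        linarith
    simp only [core, List.length_append, List.length_cons, List.length_nil, List.length_map,
      Nat.add_eq_zero_iff, one_ne_zero, and_false, if_false, Nat.add_sub_cancel]
    omega

/-- the number of tiles of the core on any line -/
theorem core_length' {Q : Fill} (hQ : FillOk P κ Q) {t : ℕ} (ht : t < P.N) {y : ℤ} :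
    (core P Q t y).length ≤ 2 * κ + 7 := by
  have hD := Par.D_pos (P := P)
  have hsol := hQ.sol.1.1
  have hκ := hQ.sol.2
  have key : ∀ {t : ℕ}, t < P.N → (onRow (P.sC (Q.S t)) y).length ≤ κ + 2 := by
    intro t ht
    refine (onRow_stair (Q.S t) _ _ _ hD y).trans (BT.RH_le _ _ fun i hi => ?_)
    rw [hsol t ht] at hi
    exact (hκ t ht i hi).2
  have key' : ∀ {t : ℕ}, t < P.N → (onCol (P.sC (Q.S t)) y).length ≤ κ + 2 := by
    intro t ht
    refine (onCol_stair (Q.S t) _ _ _ hD y).trans (BT.RV_le _ _ fun i hi => ?_)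
    rw [hsol t ht] at hi
    exact (hκ t ht i hi).1
  rcases t with _ | s
  · have := key ht
    simp only [core, List.nil_append, List.length_append, List.length_cons, List.length_nil]
    omega
  · have k1 := key ht
    have k2 := key' (t := s) (by omega)
    simp only [core, List.length_append, List.length_cons, List.length_nil, List.length_map]
    omega

end RowMain

section certs

open RowMain

variable {P : Par} {κ : ℕ} (hP : P.Ok κ) {cell : ℕ → ℤ → ℤ → Prop} (hz : Zones P cell)
  {Q : Fill} (hQ : FillOk P κ Q)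

include hP hz hQ

/-- **U5. Main rows.** -/
theorem rowMain_finger {t : ℕ} (ht : t < P.N) {i : ℕ} (hi : i < P.m) {y : ℤ}
    (h1 : 2 * (P.Y i - P.h t i) < y) (h2 : y < 2 * P.Y i) :
    RowCert P Q cell t y (P.lft t (P.X i)) (P.X i + P.w + (P.Y i - y / 2)) := by
  have hh := hP.h_lt t i
  have hh1 := hP.h_pos t i
  have hY1 := Par.le_Y hi
  have hY2 := Par.Y_le (P := P) i
  have hX2 := Par.X_le hi
  have hΔ := Par.Δ_eq (P := P)
  have hD := Par.D_eq (P := P)
  have hk := hP.k_ge
  refine ⟨core P Q t y ++ P.tFW t i :: onRow (P.sFE (Q.E t i) t i) y, ?_, ?_, ?_, ?_, ?_⟩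
  · -- the number of tiles
    have l1 := core_length hQ ht hi (y := y) (by omega) h2
    have l2 : (onRow (P.sFE (Q.E t i) t i) y).length ≤ P.e t i :=
      (onRow_stair (Q.E t i) _ _ _ one_pos y).trans (hQ.E_RH t i)
    rw [List.length_append, List.length_cons]
    rcases t with _ | s
    · have g := hQ.sol.1.2.1 i hi
      simp only [if_true] at l1
      omega
    · have g := hQ.sol.1.2.2 s ht i hi
      simp only [Nat.add_eq_zero_iff, one_ne_zero, and_false, if_false, Nat.add_sub_cancel] at l1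
      omega
  · intro R hR
    rcases List.mem_append.1 hR with hR | hR
    · exact core_tile ht hR
    · rcases List.mem_cons.1 hR with rfl | hR
      · exact tile_of_frame ht (tFW_mem hi)
      · exact tile_of_frame ht (sFE_mem hi (List.mem_filter.1 hR).1)
  · intro a b ha1 ha2 hb1 hb2 hc
    rcases lt_or_ge a (P.X i) with g | g
    · obtain ⟨R, hR, hR'⟩ := core_own hQ ht hi ha1 g hb1 hb2 (by omega) (by omega)
      exact ⟨R, List.mem_append_left _ hR, hR'⟩
    rcases lt_or_ge a (P.X i + P.w) with g' | g'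
    · exact ⟨P.tFW t i, by simp, g, g', by show P.Y i - P.h t i ≤ b; omega,
        by show b < P.Y i + 1; omega⟩
    · rw [hz.fing t ht i hi a b g (by omega) (by omega) (by omega)] at hc
      have hc' : (a - (P.X i + P.w)) + (b - (P.Y i - P.h t i)) < P.h t i := by omega
      have hs := (stair_has (Q.E t i) (P.X i + P.w) (P.Y i - P.h t i) 1 one_pos a b).2
        ⟨g', by omega, by rw [hQ.E_size]; simpa using hc'⟩
      obtain ⟨R, hR, hR'⟩ := hs
      refine ⟨R, List.mem_append_right _ (List.mem_cons_of_mem _ ?_), hR'⟩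
      exact mem_onRow hR hR' hb1 hb2
  · exact ⟨y / 2, by omega, by omega, core_left hP hz ht hi (by omega) (by omega)⟩
  · refine ⟨y / 2, by omega, by omega, ?_⟩
    rw [hz.fing t ht i hi _ _ (by omega) (by omega) (by omega) (by omega)]
    omega

theorem rowMain_plain {t : ℕ} (ht : t < P.N) {i : ℕ} (hi : i < P.m) {y : ℤ}
    (h1 : 2 * (P.Y i - P.D) < y) (h2 : y ≤ 2 * (P.Y i - P.h t i)) :
    RowCert P Q cell t y (P.lft t (P.X i)) (P.X i) := by
  have hh := hP.h_lt t i
  have hh1 := hP.h_pos t i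
  have hY1 := Par.le_Y hi
  have hY2 := Par.Y_le (P := P) i
  have hX2 := Par.X_le hi
  have hΔ := Par.Δ_eq (P := P)
  have hD := Par.D_eq (P := P)
  have hk := hP.k_ge
  refine ⟨core P Q t y, (core_length' hQ ht).trans (by omega), fun R hR => core_tile ht hR,
    ?_, ?_, ?_⟩
  · intro a b ha1 ha2 hb1 hb2 hc
    exact core_own hQ ht hi ha1 ha2 hb1 hb2 (by omega) (by omega)
  · exact ⟨(y - 1) / 2, by omega, by omega, core_left hP hz ht hi (by omega) (by omega)⟩
  · refine ⟨(y - 1) / 2, by omega, by omega, ?_⟩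
    rw [hz.fing t ht i hi _ _ (by omega) (by omega) (by omega) (by omega)]
    omega

theorem rowMain_border {t : ℕ} (ht : t < P.N) {i : ℕ} (hi : i + 1 < P.m) :
    RowCert P Q cell t (2 * P.Y (i + 1)) (P.lft t (P.X i)) (P.X i) := by
  have hh := hP.h_lt t i
  have hY0 := Par.le_Y hi
  have hY1 := Par.Y_succ (P := P) i
  have hY2 := Par.Y_le (P := P) i
  have hX2 := Par.X_le (P := P) (i := i) (by omega)
  have hΔ := Par.Δ_eq (P := P)
  have hD := Par.D_eq (P := P)
  have hk := hP.k_ge
  refine ⟨core P Q t (2 * P.Y (i + 1)), (core_length' hQ ht).trans (by omega),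
    fun R hR => core_tile ht hR, ?_, ?_, ?_⟩
  · intro a b ha1 ha2 hb1 hb2 hc
    exact core_own hQ ht (by omega) ha1 ha2 hb1 hb2 (by omega) (by omega)
  · exact ⟨P.Y (i + 1), by omega, by omega,
      core_left hP hz ht (by omega) (by omega) (by omega)⟩
  · refine ⟨P.Y (i + 1), by omega, by omega, ?_⟩
    rw [hz.fing t ht i (by omega) _ _ (by omega) (by omega) (by omega) (by omega)]
    omega

end certs

end Pool.Agent.Lib.MP_7d5495_lc
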