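import Pool.Agent.Lib.MP_7d5495_lc.Tiles

/-!
# The cells of the tiles of a staircase
-/

namespace Pool.Agent.Lib.MP_7d5495_lc

namespace StairCells

theorem ediv_split {u g : ℤ} (hg : 0 < g) : g * (u / g) ≤ u ∧ u < g * (u / g) + g := by
  have h1 := Int.mul_ediv_add_emod u g
  have h2 := Int.emod_nonneg u hg.ne'
  have h3 := Int.emod_lt_of_pos u hg
  constructor <;> linarith

theorem ediv_lt {u g n : ℤ} (hg : 0 < g) : u / g < n ↔ u < n * g :=
  Int.ediv_lt_iff_lt_mul hg

theorem le_ediv {u g n : ℤ} (hg : 0 < g) : n ≤ u / g ↔ n * g ≤ u :=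
  Int.le_ediv_iff_mul_le hg

theorem sub_ediv {u g n : ℤ} (hg : 0 < g) : (u - n * g) / g = u / g - n := by
  rw [sub_eq_add_neg, ← neg_mul, Int.add_mul_ediv_right _ _ hg.ne']
  ring

end StairCells

open StairCells

theorem stair_has (T : BT) (x y g : ℤ) (hg : 0 < g) (a b : ℤ) :
    (∃ R ∈ stair T x y g, R.Has a b) ↔ x ≤ a ∧ y ≤ b ∧ (a - x) / g + (b - y) / g < T.size := by
  induction T generalizing x y with
  | nil =>
    simp only [stair, List.not_mem_nil, false_and, exists_false, BT.size_nil, Nat.cast_zero,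
      false_iff, not_and, not_lt]
    intro h1 h2
    have h3 : 0 ≤ (a - x) / g := Int.ediv_nonneg (by linarith) hg.le
    have h4 : 0 ≤ (b - y) / g := Int.ediv_nonneg (by linarith) hg.le
    linarith
  | node l r ihl ihr =>
    have e : (∃ R ∈ stair (.node l r) x y g, R.Has a b) ↔
        (ZR.Has ⟨x, x + (l.size + 1) * g, y, y + (r.size + 1) * g⟩ a b) ∨
        (∃ R ∈ stair l x (y + (r.size + 1) * g) g, R.Has a b) ∨
        (∃ R ∈ stair r (x + (l.size + 1) * g) y g, R.Has a b) := by
      simp only [stair, List.mem_cons, List.mem_append]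
      constructor
      · rintro ⟨R, rfl | h | h, h2⟩
        · exact Or.inl h2
        · exact Or.inr (Or.inl ⟨R, h, h2⟩)
        · exact Or.inr (Or.inr ⟨R, h, h2⟩)
      · rintro (h | ⟨R, h, h2⟩ | ⟨R, h, h2⟩)
        · exact ⟨_, Or.inl rfl, h⟩
        · exact ⟨R, Or.inr (Or.inl h), h2⟩
        · exact ⟨R, Or.inr (Or.inr h), h2⟩
    rw [e, ihl, ihr]
    have e1 : a - (x + ((l.size : ℤ) + 1) * g) = (a - x) - ((l.size : ℤ) + 1) * g := by ring
    have e2 : b - (y + ((r.size : ℤ) + 1) * g) = (b - y) - ((r.size : ℤ) + 1) * g := by ring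
    rw [e1, e2, sub_ediv hg, sub_ediv hg]
    have e3 : x + ((l.size : ℤ) + 1) * g ≤ a ↔ (l.size : ℤ) + 1 ≤ (a - x) / g := by
      rw [le_ediv hg]; constructor <;> intro h <;> linarith
    have e4 : y + ((r.size : ℤ) + 1) * g ≤ b ↔ (r.size : ℤ) + 1 ≤ (b - y) / g := by
      rw [le_ediv hg]; constructor <;> intro h <;> linarith
    have e5 : a < x + ((l.size : ℤ) + 1) * g ↔ (a - x) / g < (l.size : ℤ) + 1 := by
      rw [ediv_lt hg]; constructor <;> intro h <;> linarith
    have e6 : b < y + ((r.size : ℤ) + 1) * g ↔ (b - y) / g < (r.size : ℤ) + 1 := by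
      rw [ediv_lt hg]; constructor <;> intro h <;> linarith
    have e7 : x ≤ a ↔ 0 ≤ (a - x) / g := by
      rw [le_ediv hg]; constructor <;> intro h <;> linarith
    have e8 : y ≤ b ↔ 0 ≤ (b - y) / g := by
      rw [le_ediv hg]; constructor <;> intro h <;> linarith
    simp only [ZR.Has, e3, e4, e5, e6, e7, e8, BT.size_node, Nat.cast_add, Nat.cast_one]
    generalize (a - x) / g = u
    generalize (b - y) / g = v
    omega

theorem stair_pos (T : BT) (x y g : ℤ) (hg : 0 < g) {R : ZR} (hR : R ∈ stair T x y g) :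
    R.x₁ < R.x₂ ∧ R.y₁ < R.y₂ := by
  induction T generalizing x y with
  | nil => simp [stair] at hR
  | node l r ihl ihr =>
    simp only [stair, List.mem_cons, List.mem_append] at hR
    rcases hR with rfl | h | h
    · have h1 : (0 : ℤ) ≤ l.size := by positivity
      have h2 : (0 : ℤ) ≤ r.size := by positivity
      constructor
      · show x < x + (l.size + 1) * g; nlinarith
      · show y < y + (r.size + 1) * g; nlinarith
    · exact ihl _ _ h
    · exact ihr _ _ h

theorem stair_uniq (T : BT) (x y g : ℤ) (hg : 0 < g) {R R' : ZR} (hR : R ∈ stair T x y g)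
    (hR' : R' ∈ stair T x y g) {a b : ℤ} (h : R.Has a b) (h' : R'.Has a b) : R = R' := by
  induction T generalizing x y with
  | nil => simp [stair] at hR
  | node l r ihl ihr =>
    have key : ∀ S : ZR, S ∈ stair (.node l r) x y g → S.Has a b →
        (S = ⟨x, x + (l.size + 1) * g, y, y + (r.size + 1) * g⟩ ∧
          a < x + (l.size + 1) * g ∧ b < y + (r.size + 1) * g) ∨
        (S ∈ stair l x (y + (r.size + 1) * g) g ∧ a < x + l.size * g ∧
          y + (r.size + 1) * g ≤ b) ∨
        (S ∈ stair r (x + (l.size + 1) * g) y g ∧ x + (l.size + 1) * g ≤ a) := by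
      intro S hS hSh
      simp only [stair, List.mem_cons, List.mem_append] at hS
      rcases hS with rfl | hS | hS
      · exact Or.inl ⟨rfl, hSh.2.1, hSh.2.2.2⟩
      · right; left
        obtain ⟨h1, h2, h3⟩ := (stair_has l x _ g hg a b).1 ⟨S, hS, hSh⟩
        refine ⟨hS, ?_, h2⟩
        have h4 : 0 ≤ (b - (y + ((r.size : ℤ) + 1) * g)) / g :=
          Int.ediv_nonneg (by linarith) hg.le
        have h5 : (a - x) / g < (l.size : ℤ) := by linarith
        rw [ediv_lt hg] at h5
        linarith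
      · right; right
        exact ⟨hS, ((stair_has r _ y g hg a b).1 ⟨S, hS, hSh⟩).1⟩
    have hl : (0 : ℤ) ≤ l.size := by positivity
    rcases key R hR h with ⟨e, h1, h2⟩ | ⟨h0, h1, h2⟩ | ⟨h0, h1⟩ <;>
    rcases key R' hR' h' with ⟨e', h1', h2'⟩ | ⟨h0', h1', h2'⟩ | ⟨h0', h1'⟩
    · rw [e, e']
    · linarith
    · linarith
    · linarith
    · exact ihl _ _ h0 h0'
    · nlinarith
    · linarith
    · nlinarith
    · exact ihr _ _ h0 h0'

end Pool.Agent.Lib.MP_7d5495_lc
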