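import Pool.Agent.Lib.MP_7d5495_lc.MeshWall
import Pool.Agent.Lib.MP_7d5495_lc.Pocket

/-!
# The walls and the end pockets in the frames
-/

set_option autoImplicit false

namespace Pool.Agent.Lib.MP_7d5495_lc

theorem Sys.inWall {P : Par} {κ : ℕ} (hP : P.Ok κ) {ι : Type} [Finite ι] (S : Sys P ι) {t : ℕ}
    (ht : t < P.N) : ∃ W, (P.D - P.w : ℝ) ≤ (S.F t).x₁ W ∧ (S.F t).x₂ W ≤ P.D ∧
      (S.F t).y₁ W ≤ P.D ∧ (P.D + P.B : ℝ) < (S.F t).y₂ W := by
  have hD := Par.D_eq (P := P)
  have hΔ := Par.Δ_eq (P := P)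
  have hB := Par.D_le_B (P := P) hP.m_pos
  have hw := hP.w_ge
  have hk := hP.k_ge
  have hl : (0 : ℤ) ≤ P.lam t := Int.natCast_nonneg _
  obtain ⟨W, h1, h2, h3, h4⟩ := (S.mesh t).flipX.wall (by omega) P.w rfl (-(P.D : ℤ)) P.D
    (P.D + P.B) (by omega)
    (fun a b ha ha' hb hb' => (S.zones.arm t ht (-a - 1) b (by omega) (by omega) (by omega)
      (by omega)).2 (Or.inl ⟨hb, hb'⟩))
    (fun a b ha hb hs => (S.zones.arm t ht (-a - 1) b (by omega) (by omega) (by omega)
      (by omega)).2 (Or.inr ⟨hb, by omega⟩))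
    (fun a b ha hb hs => by
      rw [S.zones.arm t ht (-a - 1) b (by omega) (by omega) (by omega) (by omega)]
      omega)
    (by
      have e : -(-(P.D : ℤ) - 1) - 1 = P.D := by ring
      rw [e, S.zones.first t ht P.D (P.D + P.B) (by omega) (by omega) (by omega) (by omega)]
      omega)
  refine ⟨W, ?_, ?_, ?_, ?_⟩
  · simp only [Fam.flipX] at h2
    push_cast at h2
    linarith
  · simp only [Fam.flipX] at h1
    push_cast at h1
    linarith
  · simp only [Fam.flipX] at h3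
    push_cast at h3
    exact h3
  · simp only [Fam.flipX] at h4
    push_cast at h4
    exact h4

theorem Sys.outWall {P : Par} {κ : ℕ} (hP : P.Ok κ) {ι : Type} [Finite ι] (S : Sys P ι) {t : ℕ}
    (ht : t < P.N) : ∃ W, (P.D - P.w : ℝ) ≤ (S.F t).y₁ W ∧ (S.F t).y₂ W ≤ P.D ∧
      (S.F t).x₁ W ≤ P.D ∧ (P.D + P.B : ℝ) < (S.F t).x₂ W := by
  have hD := Par.D_eq (P := P)
  have hΔ := Par.Δ_eq (P := P)
  have hB := Par.D_le_B (P := P) hP.m_pos
  have hw := hP.w_ge
  have hk := hP.k_ge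
  have hm := hP.m_pos
  have hX := Par.X_last (P := P) hP.m_pos
  have hXY := Par.X_add_Y (P := P) (P.m - 1)
  have hh := hP.h_lt t (P.m - 1)
  obtain ⟨W, h1, h2, h3, h4⟩ := (S.mesh t).swap.flipX.wall (by omega) P.w rfl (-(P.D : ℤ)) P.D
    (P.D + P.B) (by omega)
    (fun a b ha ha' hb hb' => (S.zones.out t ht b (-a - 1) (by omega) (by omega) (by omega)
      (by omega)).2 (Or.inl hb'))
    (fun a b ha hb hs => (S.zones.out t ht b (-a - 1) (by omega) (by omega) (by omega)
      (by omega)).2 (Or.inr (by omega)))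
    (fun a b ha hb hs => by
      rw [S.zones.out t ht b (-a - 1) (by omega) (by omega) (by omega) (by omega)]
      omega)
    (by
      have e : -(-(P.D : ℤ) - 1) - 1 = P.D := by ring
      rw [e, S.zones.fing t ht (P.m - 1) (by omega) (P.D + P.B) P.D (by omega) (by omega)
        (by omega) (by omega)]
      omega)
  refine ⟨W, ?_, ?_, ?_, ?_⟩
  · simp only [Fam.flipX, Fam.swap] at h2
    push_cast at h2
    linarith
  · simp only [Fam.flipX, Fam.swap] at h1
    push_cast at h1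
    linarith
  · simp only [Fam.flipX, Fam.swap] at h3
    push_cast at h3
    exact h3
  · simp only [Fam.flipX, Fam.swap] at h4
    push_cast at h4
    exact h4

theorem Sys.fingWall {P : Par} {κ : ℕ} (hP : P.Ok κ) {ι : Type} [Finite ι] (S : Sys P ι) {t : ℕ}
    (ht : t < P.N) {i : ℕ} (hi : i < P.m) : ∃ W, (P.X i : ℝ) ≤ (S.F t).x₁ W ∧
      (S.F t).x₂ W ≤ P.X i + P.w ∧ (S.F t).y₁ W ≤ P.Y i - P.h t i ∧
      (P.Y i : ℝ) < (S.F t).y₂ W := by
  have hD := Par.D_eq (P := P)
  have hΔ := Par.Δ_eq (P := P)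
  have hw := hP.w_ge
  have hk := hP.k_ge
  have hYl := Par.le_Y (P := P) hi
  have hYu := Par.Y_le (P := P) i
  have hh := hP.h_lt t i
  have hh1 := hP.h_pos t i
  obtain ⟨W, h1, h2, h3, h4⟩ := (S.mesh t).wall (by omega) P.w rfl (P.X i) (P.Y i - P.h t i)
    (P.Y i) (by omega)
    (fun a b ha ha' hb hb' => (S.zones.fing t ht i hi a b ha (by omega) (by omega)
      (by omega)).2 (Or.inr (Or.inl ⟨hb, hb', by omega⟩)))
    (fun a b ha hb hs => (S.zones.fing t ht i hi a b ha (by omega) (by omega)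
      (by omega)).2 (Or.inr (Or.inr ⟨hb, hs⟩)))
    (fun a b ha hb hs => by
      rw [S.zones.fing t ht i hi a b ha (by omega) (by omega) (by omega)]
      omega)
    (by
      rcases Nat.eq_zero_or_pos i with h0 | h0
      · subst h0
        have hX0 := Par.X_zero (P := P)
        have hY0 := Par.Y_zero (P := P)
        rw [S.zones.first t ht (P.X 0 - 1) (P.Y 0) (by omega) (by omega) (by omega) (by omega)]
        omega
      · obtain ⟨j, rfl⟩ := Nat.exists_eq_succ_of_ne_zero (Nat.pos_iff_ne_zero.1 h0)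
        have hXs := Par.X_succ (P := P) j
        have hYs := Par.Y_succ (P := P) j
        have hhj := hP.h_lt t j
        have e1 : P.X j.succ = P.X (j + 1) := rfl
        have e2 : P.Y j.succ = P.Y (j + 1) := rfl
        rw [S.zones.fing t ht j (by omega) (P.X j.succ - 1) (P.Y j.succ) (by omega) (by omega)
          (by omega) (by omega)]
        omega)
  refine ⟨W, h1, h2, ?_, h4⟩
  push_cast at h3
  exact h3

theorem Sys.endPocket {P : Par} {κ : ℕ} (hP : P.Ok κ) {ι : Type} [Finite ι] (S : Sys P ι)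
    {t : ℕ} (ht : t < P.N) {i : ℕ} (hi : i < P.m) : ∃ η σ : ℝ, (P.Y i - P.h t i : ℝ) < η ∧
      η < P.Y i - 1 ∧ (P.X i + P.w : ℝ) < σ ∧
      (∀ a b : ℤ, P.X i ≤ a → (a : ℝ) < σ → (b : ℝ) ≤ η → η ≤ b + 1 → S.cell t a b) ∧
      P.e t i ≤ ((S.F t).H (P.X i + P.w) σ η).ncard := by
  have hD := Par.D_eq (P := P)
  have hΔ := Par.Δ_eq (P := P)
  have hw := hP.w_ge
  have hk := hP.k_ge
  have hYl := Par.le_Y (P := P) hi
  have hYu := Par.Y_le (P := P) i
  have hh := hP.h_lt t i
  have hh1 := hP.h_pos t i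
  obtain ⟨η, σ, h1, h2, h3, h4, h5⟩ := (S.mesh t).pocket (by omega) (P.e t i) (P.h t i)
    (hP.e_ge t i) rfl (P.X i + P.w) (P.Y i - P.h t i)
    (fun a b ha hb hs => (S.zones.fing t ht i hi a b (by omega) (by omega) (by omega)
      (by omega)).2 (Or.inr (Or.inl ⟨hb, by omega, Or.inr hs⟩)))
    (fun a b ha hb hs => by
      rw [S.zones.fing t ht i hi a b (by omega) (by omega) (by omega) (by omega)]
      omega)
  push_cast at h1 h2 h3 h5
  have h2' : η < P.Y i - 1 := by linarith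
  refine ⟨η, σ, h1, h2', h3, ?_, h5⟩
  intro a b ha ha' hb hb'
  by_cases hc : P.X i + P.w ≤ a
  · exact h4 a b hc ha' hb hb'
  · have hb1 : P.Y i - P.h t i ≤ b := by
      have : (P.Y i - P.h t i : ℝ) < b + 1 := lt_of_lt_of_le h1 hb'
      have h6 : P.Y i - P.h t i < b + 1 := by exact_mod_cast this
      omega
    have hb2 : b < P.Y i := by
      have : (b : ℝ) < P.Y i := by linarith
      exact_mod_cast this
    refine (S.zones.fing t ht i hi a b ha (by omega) (by omega) (by omega)).2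
      (Or.inr (Or.inl ⟨hb1, hb2, Or.inl (by omega)⟩))

end Pool.Agent.Lib.MP_7d5495_lc
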