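import Pool.Agent.Lib.MP_7d5495_lc.Capacity

/-!
# Wall lemma

Deduced from the capacity lemma.
-/

set_option autoImplicit false

namespace Pool.Agent.Lib.MP_7d5495_lc

open Set

/-- **Germ tile.** If the points `(x, y + ε)` are covered for small `ε > 0`, one tile contains `x` in its
closed range and `y` in its range closed below and open above. -/
private theorem wallFam_germ {ι : Type} [Finite ι] (F : Fam ι) (x yb c : ℝ) (hc : yb < c)
    (cover : ∀ y, yb < y → y < c → ∃ i, F.x₁ i ≤ x ∧ x ≤ F.x₂ i ∧ F.y₁ i ≤ y ∧ y ≤ F.y₂ i) :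
    ∃ i, F.x₁ i ≤ x ∧ x ≤ F.x₂ i ∧ F.y₁ i ≤ yb ∧ yb < F.y₂ i := by
  by_contra hcon
  push Not at hcon
  -- a level below all `y₁ i > yb`
  have hlev : ∃ y, yb < y ∧ y < c ∧ ∀ i, yb < F.y₁ i → y < F.y₁ i := by
    have : ∀ᶠ y in nhdsWithin yb (Set.Ioi yb), ∀ i, yb < F.y₁ i → y < F.y₁ i := by
      rw [Filter.eventually_all]
      intro i
      by_cases h : yb < F.y₁ i
      · filter_upwards [Ioo_mem_nhdsGT h] with y hy _
        exact hy.2
      · exact Filter.Eventually.of_forall fun y h' => absurd h' h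
    obtain ⟨y, hy1, hy2⟩ := (this.and (Ioo_mem_nhdsGT hc)).exists
    exact ⟨y, hy2.1, hy2.2, hy1⟩
  obtain ⟨y, h1, h2, h3⟩ := hlev
  obtain ⟨i, a1, a2, a3, a4⟩ := cover y h1 h2
  have h4 : F.y₁ i ≤ yb := by
    by_contra h
    push Not at h
    exact absurd (h3 i h) (not_lt.mpr a3)
  have h5 := hcon i a1 a2 h4
  linarith

/-- **L2. Wall lemma.** -/
theorem Fam.wall {ι : Type} [Finite ι] (F : Fam ι) (k q : ℕ) (hk : 2 ≤ k)
    (hq : q = beta k (k - 1) + 1)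
    (ox oy : ℕ → ℝ) (x₀ yb X Y : ℝ)
    (hox : ∀ i j, i < j → j < q → ox i < ox j) (hoy : ∀ i j, i < j → j < q → oy j < oy i)
    (hx₀ : ∀ j < q, x₀ < ox j) (hyb : ∀ j < q, yb < oy j)
    (hX : ∀ j < q, ox j < X) (hY : ∀ j < q, oy j < Y)
    (obst : ∀ i, ∀ j < q, ¬ (F.x₁ i ≤ ox j ∧ ox j < F.x₂ i ∧ F.y₁ i ≤ oy j ∧ oy j < F.y₂ i))
    (cover : ∀ x y, x₀ < x → x < X → yb < y → y < Y → (∀ j < q, x < ox j ∨ y < oy j) →
      ∃ i, F.x₁ i ≤ x ∧ x ≤ F.x₂ i ∧ F.y₁ i ≤ y ∧ y ≤ F.y₂ i)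
    (ver : ∀ x τ, x₀ < x → (∃ j < q, x < ox j) → yb < τ → τ ≤ Y →
      (∀ j < q, x < ox j ∨ τ ≤ oy j) → (F.V yb τ x).ncard ≤ k)
    (hor : ∀ y σ, yb < y → (∃ j < q, y < oy j) → x₀ < σ → σ ≤ X →
      (∀ j < q, y < oy j ∨ σ ≤ ox j) → (F.H x₀ σ y).ncard ≤ k) :
    ∃ i, F.y₁ i ≤ yb ∧ oy (q - 1) < F.y₂ i ∧ F.x₁ i < ox (q - 1) ∧ x₀ < F.x₂ i := by
  by_contra hcon
  push Not at hcon
  have hb1 : 1 ≤ beta k (k - 1) := beta_pos (by omega) (by omega)
  have hq2 : 2 ≤ q := by omega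
  have hlast : ∀ j < q, oy (q - 1) ≤ oy j := by
    intro j hj
    rcases Nat.lt_or_ge j (q - 1) with h | h
    · exact (hoy j (q - 1) h (by omega)).le
    · have : j = q - 1 := by omega
      rw [this]
  have hlastx : ∀ j < q, ox j ≤ ox (q - 1) := by
    intro j hj
    rcases Nat.lt_or_ge j (q - 1) with h | h
    · exact (hox j (q - 1) h (by omega)).le
    · have : j = q - 1 := by omega
      rw [this]
  have hq1 : q - 1 < q := by omega
  -- the germ tiles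
  have germ : ∀ x, x₀ < x → x < ox (q - 1) →
      ∃ i, F.x₁ i ≤ x ∧ x ≤ F.x₂ i ∧ F.y₁ i ≤ yb ∧ yb < F.y₂ i := by
    intro x hx1 hx2
    refine wallFam_germ F x yb (oy (q - 1)) (hyb _ hq1) fun y hy1 hy2 => ?_
    exact cover x y hx1 (hx2.trans (hX _ hq1)) hy1 (hy2.trans (hY _ hq1))
      fun j hj => Or.inr (lt_of_lt_of_le hy2 (hlast j hj))
  set T : Set ι := {i | F.y₁ i ≤ yb ∧ yb < F.y₂ i ∧ F.x₁ i < ox (q - 1) ∧ x₀ < F.x₂ i} with hT
  have hTne : T.Nonempty := by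
    have h0 := hx₀ _ hq1
    obtain ⟨i, a1, a2, a3, a4⟩ := germ ((x₀ + ox (q - 1)) / 2) (by linarith) (by linarith)
    exact ⟨i, a3, a4, by linarith, by linarith⟩
  obtain ⟨i₀, hi₀, hmax⟩ := Set.exists_max_image T F.y₂ (Set.toFinite T) hTne
  set d : ℝ := F.y₂ i₀ with hd
  have hd1 : yb < d := hi₀.2.1
  have hd2 : d ≤ oy (q - 1) := by
    by_contra h
    push Not at h
    exact absurd hi₀.2.2.2 (not_lt.mpr (hcon i₀ hi₀.1 h hi₀.2.2.1))
  have hd3 : ∀ j < q, d ≤ oy j := fun j hj => hd2.trans (hlast j hj)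
  have key := F.capacity k (k - 1) q (by omega) (by omega) ox oy x₀ d X Y hox hoy
    (fun j hj => (hx₀ j hj).le) hd3 hX hY obst
    (fun x y h1 h2 h3 h4 h5 => cover x y h1 h2 (hd1.trans h3) h4 h5) ?_ ?_ ?_ ?_
  · omega
  · intro x τ h1 h2 h3 h4 h5
    have h6 := ver x τ h1 h2 (hd1.trans h3) h4 h5
    obtain ⟨j, hj, hxj⟩ := h2
    have h7 : x < ox (q - 1) := lt_of_lt_of_le hxj (hlastx j hj)
    obtain ⟨i, a1, a2, a3, a4⟩ := germ x h1 h7
    have hiT : i ∈ T := ⟨a3, a4, lt_of_le_of_lt a1 h7, lt_of_lt_of_le h1 a2⟩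
    have h8 : i ∉ F.V d τ x := fun h => absurd h.2.2.2 (not_lt.mpr (hmax i hiT))
    have h9 : insert i (F.V d τ x) ⊆ F.V yb τ x := by
      intro l hl
      rcases Set.mem_insert_iff.mp hl with h | h
      · subst h
        exact ⟨a1, a2, by linarith, a4⟩
      · exact ⟨h.1, h.2.1, h.2.2.1, hd1.trans h.2.2.2⟩
    have h10 := Set.ncard_le_ncard h9 (Set.toFinite _)
    rw [Set.ncard_insert_of_notMem h8 (Set.toFinite _)] at h10
    omega
  · intro y σ h1 h2 h3 h4 h5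
    exact hor y σ (hd1.trans h1) h2 h3 h4 h5
  · intro _ h
    exact absurd h (hx₀ 0 (by omega)).ne
  · intro _ hdq σ h1 h2
    have h3 : d < oy 0 := by
      rw [hdq]
      exact hoy 0 (q - 1) (by omega) hq1
    have h4 := hor d (ox (q - 1)) hd1 ⟨0, by omega, h3⟩ (hx₀ _ hq1) (hX _ hq1).le (fun j hj => by
      rcases Nat.lt_or_ge j (q - 1) with h | h
      · left
        rw [hdq]
        exact hoy j (q - 1) h hq1
      · right
        have : j = q - 1 := by omega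
        rw [this])
    have h5 : i₀ ∉ {i | i ∈ F.H x₀ σ d ∧ d < F.y₂ i} := fun h => absurd h.2 (lt_irrefl _)
    have h6 : insert i₀ {i | i ∈ F.H x₀ σ d ∧ d < F.y₂ i} ⊆ F.H x₀ (ox (q - 1)) d := by
      intro l hl
      rcases Set.mem_insert_iff.mp hl with h | h
      · subst h
        exact ⟨hi₀.1.trans hd1.le, le_rfl, hi₀.2.2.1, hi₀.2.2.2⟩
      · exact ⟨h.1.1, h.1.2.1, lt_of_lt_of_le h.1.2.2.1 h2, h.1.2.2.2⟩
    have h7 := Set.ncard_le_ncard h6 (Set.toFinite _)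
    rw [Set.ncard_insert_of_notMem h5 (Set.toFinite _)] at h7
    omega

end Pool.Agent.Lib.MP_7d5495_lc
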