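import Pool.Agent.Lib.MP_7d5495_lc.Place
import Pool.Agent.Lib.MP_7d5495_lc.Conv

/-!
# The explicit shape of the polygon in each frame
-/

set_option autoImplicit false

namespace Pool.Agent.Lib.MP_7d5495_lc

namespace ZonesProof

variable {P : Par} {κ : ℕ}

theorem mem_bend {P : Par} {t : ℕ} {Rs : Bx × ℕ} : Rs ∈ P.bendAt t ↔
    Rs = (bx 0 (P.lam t + P.D) P.D (P.D + P.m * P.D), 3) ∨
    (∃ i < P.m, (bx (P.lam t + (i + 1) * P.D) (P.lam t + (i + 2) * P.D) P.D
      ((P.m + 1 - i) * P.D), 3) = Rs) ∨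
    (∃ j < P.w, (bx (P.lam t + P.D - (P.w - j)) (P.lam t + P.D) (P.D + P.m * P.D + j)
      (P.D + P.m * P.D + j + 1), 0) = Rs) ∨
    Rs = (bx (P.lam t + P.D) (P.lam t + P.D + P.m * P.D) 0 P.D, 2) ∨
    (∃ j < P.w, (bx (P.lam t + P.D + P.m * P.D + j) (P.lam t + P.D + P.m * P.D + j + 1)
      (P.D - (P.w - j)) P.D, 3) = Rs) ∨
    (∃ i < P.m,
      Rs = (bx (P.lam t + (i + 2) * P.D) (P.lam t + (i + 2) * P.D + P.w)
        ((P.m + 1 - i) * P.D - P.h t i) ((P.m + 1 - i) * P.D), 3) ∨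
      (∃ j < P.w, (bx (P.lam t + (i + 2) * P.D) (P.lam t + (i + 2) * P.D + (P.w - j))
        ((P.m + 1 - i) * P.D + j) ((P.m + 1 - i) * P.D + j + 1), 0) = Rs) ∨
      (∃ j < P.h t i, (bx (P.lam t + (i + 2) * P.D + P.w + j)
        (P.lam t + (i + 2) * P.D + P.w + j + 1)
        ((P.m + 1 - i) * P.D - P.h t i) ((P.m + 1 - i) * P.D - j), 3) = Rs)) := by
  simp only [Par.bendAt, bend, List.mem_append, List.mem_singleton, List.mem_map, List.mem_range,
    pocketL, pocketD, List.mem_flatMap, finger, pocketR, pocketU, or_assoc]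

theorem castX {P : Par} (i : ℕ) : (((i + 2) * P.D : ℕ) : ℤ) = P.X i := by
  unfold Par.X
  push_cast
  ring

theorem castX' {P : Par} (i : ℕ) : (((i + 1) * P.D : ℕ) : ℤ) = P.X i - P.D := by
  unfold Par.X
  push_cast
  ring

theorem castY {P : Par} {i : ℕ} (hi : i < P.m) : (((P.m + 1 - i) * P.D : ℕ) : ℤ) = P.Y i := by
  unfold Par.Y
  rw [Nat.cast_mul, Nat.cast_sub (by omega)]
  push_cast
  ring

theorem castB {P : Par} : ((P.m * P.D : ℕ) : ℤ) = P.B := rfl

/-- the cells of the boxes of one bend -/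
theorem frame_iff (hP : P.Ok κ) (t : ℕ) (a b : ℤ) :
    (∃ Rs ∈ P.bendAt t, (P.zbox t Rs.1).Has a b) ↔
      (-(P.lam t : ℤ) ≤ a ∧ a < P.D ∧ (P.D : ℤ) ≤ b ∧ b < P.D + P.B) ∨
      (∃ i < P.m, P.X i - P.D ≤ a ∧ a < P.X i ∧ (P.D : ℤ) ≤ b ∧ b < P.Y i) ∨
      (a < P.D ∧ (P.D : ℤ) + P.B ≤ b ∧ (b - (P.D + P.B)) + (P.D - 1 - a) < P.w) ∨
      ((P.D : ℤ) ≤ a ∧ a < P.D + P.B ∧ 0 ≤ b ∧ b < P.D) ∨
      ((P.D : ℤ) + P.B ≤ a ∧ b < P.D ∧ (a - (P.D + P.B)) + (P.D - 1 - b) < P.w) ∨
      (∃ i < P.m, (P.X i ≤ a ∧ a < P.X i + P.w ∧ P.Y i - P.h t i ≤ b ∧ b < P.Y i) ∨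
        (P.X i ≤ a ∧ P.Y i ≤ b ∧ (a - P.X i) + (b - P.Y i) < P.w) ∨
        (P.X i + P.w ≤ a ∧ P.Y i - P.h t i ≤ b ∧
          (a - (P.X i + P.w)) + (b - (P.Y i - P.h t i)) < P.h t i)) := by
  have hw := hP.w_ge
  have hD := Par.D_eq (P := P)
  have hB := castB (P := P)
  constructor
  · rintro ⟨Rs, hR, h1, h2, h3, h4⟩
    simp only [Par.zbox] at h1 h2 h3 h4
    rw [mem_bend] at hR
    rcases hR with rfl | ⟨i, hi, rfl⟩ | ⟨j, hj, rfl⟩ | rfl | ⟨j, hj, rfl⟩ | ⟨i, hi, hR⟩
    · left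
      simp only [bx] at h1 h2 h3 h4
      omega
    · right; left
      have e1 := castX (P := P) i
      have e2 := castX' (P := P) i
      have e3 := castY hi
      simp only [bx] at h1 h2 h3 h4
      exact ⟨i, hi, by omega, by omega, by omega, by omega⟩
    · right; right; left
      simp only [bx] at h1 h2 h3 h4
      omega
    · right; right; right; left
      simp only [bx] at h1 h2 h3 h4
      omega
    · right; right; right; right; left
      simp only [bx] at h1 h2 h3 h4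
      omega
    · right; right; right; right; right
      have e1 := castX (P := P) i
      have e3 := castY hi
      have hh := hP.h_lt t i
      have hYi := Par.le_Y (P := P) hi
      refine ⟨i, hi, ?_⟩
      rcases hR with rfl | ⟨j, hj, rfl⟩ | ⟨j, hj, rfl⟩
      · left
        simp only [bx] at h1 h2 h3 h4
        omega
      · right; left
        simp only [bx] at h1 h2 h3 h4
        omega
      · right; right
        simp only [bx] at h1 h2 h3 h4
        omega
  · rintro (h | ⟨i, hi, h⟩ | h | h | h | ⟨i, hi, h⟩)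
    · refine ⟨_, mem_bend.2 (Or.inl rfl), ?_⟩
      simp only [Par.zbox, bx, ZR.Has]
      omega
    · have e1 := castX (P := P) i
      have e2 := castX' (P := P) i
      have e3 := castY hi
      refine ⟨_, mem_bend.2 (Or.inr (Or.inl ⟨i, hi, rfl⟩)), ?_⟩
      simp only [Par.zbox, bx, ZR.Has]
      omega
    · refine ⟨_, mem_bend.2 (Or.inr (Or.inr (Or.inl ⟨(b - (P.D + P.B)).toNat, ?_, rfl⟩))), ?_⟩
      · omega
      · simp only [Par.zbox, bx, ZR.Has]
        omega
    · refine ⟨_, mem_bend.2 (Or.inr (Or.inr (Or.inr (Or.inl rfl)))), ?_⟩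
      simp only [Par.zbox, bx, ZR.Has]
      omega
    · refine ⟨_, mem_bend.2 (Or.inr (Or.inr (Or.inr (Or.inr (Or.inl
        ⟨(a - (P.D + P.B)).toNat, ?_, rfl⟩))))), ?_⟩
      · omega
      · simp only [Par.zbox, bx, ZR.Has]
        omega
    · have e1 := castX (P := P) i
      have e3 := castY hi
      have hh := hP.h_lt t i
      have hYi := Par.le_Y (P := P) hi
      rcases h with h | h | h
      · refine ⟨_, mem_bend.2 (Or.inr (Or.inr (Or.inr (Or.inr (Or.inr ⟨i, hi, Or.inl rfl⟩))))), ?_⟩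
        simp only [Par.zbox, bx, ZR.Has]
        omega
      · refine ⟨_, mem_bend.2 (Or.inr (Or.inr (Or.inr (Or.inr (Or.inr
          ⟨i, hi, Or.inr (Or.inl ⟨(b - P.Y i).toNat, ?_, rfl⟩)⟩))))), ?_⟩
        · omega
        · simp only [Par.zbox, bx, ZR.Has]
          omega
      · refine ⟨_, mem_bend.2 (Or.inr (Or.inr (Or.inr (Or.inr (Or.inr
          ⟨i, hi, Or.inr (Or.inr ⟨(a - (P.X i + P.w)).toNat, ?_, rfl⟩)⟩))))), ?_⟩
        · omega
        · simp only [Par.zbox, bx, ZR.Has]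
          omega

theorem cell_iff (hP : P.Ok κ) {t : ℕ} (ht : t < P.N) {a b : ℤ} (hE : P.InE t a b) :
    P.cell t a b ↔
      (-(P.lam t : ℤ) ≤ a ∧ a < P.D ∧ (P.D : ℤ) ≤ b ∧ b < P.D + P.B) ∨
      (∃ i < P.m, P.X i - P.D ≤ a ∧ a < P.X i ∧ (P.D : ℤ) ≤ b ∧ b < P.Y i) ∨
      (a < P.D ∧ (P.D : ℤ) + P.B ≤ b ∧ (b - (P.D + P.B)) + (P.D - 1 - a) < P.w) ∨
      ((P.D : ℤ) ≤ a ∧ a < P.D + P.B ∧ 0 ≤ b ∧ b < P.D) ∨
      ((P.D : ℤ) + P.B ≤ a ∧ b < P.D ∧ (a - (P.D + P.B)) + (P.D - 1 - b) < P.w) ∨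
      (∃ i < P.m, (P.X i ≤ a ∧ a < P.X i + P.w ∧ P.Y i - P.h t i ≤ b ∧ b < P.Y i) ∨
        (P.X i ≤ a ∧ P.Y i ≤ b ∧ (a - P.X i) + (b - P.Y i) < P.w) ∨
        (P.X i + P.w ≤ a ∧ P.Y i - P.h t i ≤ b ∧
          (a - (P.X i + P.w)) + (b - (P.Y i - P.h t i)) < P.h t i)) :=
  (cell_frame hP ht hE).trans (frame_iff hP t a b)

/-! ### the cells outside the frames -/

theorem conv_surj (P : Par) (s : ℕ) : ∀ q : ℤ × ℤ, ∃ p : ℤ × ℤ, P.conv s p = q := by
  induction s with
  | zero => exact fun q => ⟨q, rfl⟩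
  | succ s ih =>
    intro q
    obtain ⟨p, hp⟩ := ih q
    refine ⟨(-(P.lam (s + 1) : ℤ) - p.2 - 1, p.1), ?_⟩
    show P.conv s (p.1, -(P.lam (s + 1) : ℤ) - (-(P.lam (s + 1) : ℤ) - p.2 - 1) - 1) = q
    rw [← hp]
    congr 1
    ext
    · rfl
    · simp only
      ring

theorem cell_conv (P : Par) (t : ℕ) : ∀ a b : ℤ,
    P.cell t a b ↔ P.cell 0 (P.conv t (a, b)).1 (P.conv t (a, b)).2 := by
  induction t with
  | zero => exact fun a b => Iff.rfl
  | succ t ih => exact fun a b => ih b (-(P.lam (t + 1) : ℤ) - a - 1)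

theorem exists_frame (hP : P.Ok κ) {x y : ℤ} (h : P.cell 0 x y) :
    ∃ s < P.N, ∃ a b : ℤ, P.InE s a b ∧ P.conv s (a, b) = (x, y) := by
  obtain ⟨Rs, hR, h1, h2, h3, h4⟩ := h
  rw [rects_eq, List.mem_flatMap] at hR
  obtain ⟨s, hs, hR⟩ := hR
  rw [List.mem_range] at hs
  rw [List.mem_map] at hR
  obtain ⟨R', hR', rfl⟩ := hR
  obtain ⟨b1, b2, b3⟩ := bend_bounds hP hR'
  have e := place_toZero hs b1 b2.le b3.le
  obtain ⟨⟨a, b⟩, hab⟩ := conv_surj P s (x, y)
  have hHas : (P.toZero s (P.zbox s R'.1)).Has (P.conv s (a, b)).1 (P.conv s (a, b)).2 := by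
    rw [hab, e]
    exact ⟨by simp only; omega, by simp only; omega, by simp only; omega, by simp only; omega⟩
  rw [toZero_has] at hHas
  obtain ⟨c1, c2, c3, c4⟩ := hHas
  simp only [Par.zbox] at c1 c2 c3 c4
  exact ⟨s, hs, a, b, ⟨by omega, by omega, by omega, by omega⟩, hab⟩

end ZonesProof

open ZonesProof in
/-- **D6. The cells of the polygon.** -/
theorem zones {P : Par} {κ : ℕ} (hP : P.Ok κ) : Zones P P.cell := by
  have hw := hP.w_ge
  have hD := Par.D_eq (P := P)
  have hΔ := Par.Δ_eq (P := P)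
  have hB := Par.D_le_B hP.m_pos
  refine ⟨fun t a b => Iff.rfl, ?_, ?_, ?_, ?_, ?_, ?_⟩
  · intro t ht a b h1 h2 h3 h4
    rw [cell_iff hP ht ⟨h1, by omega, h3, h4⟩]
    constructor
    · rintro (h | ⟨i, hi, h⟩ | h | h | h | ⟨i, hi, h⟩)
      · omega
      · have := Par.le_X (P := P) i
        omega
      · omega
      · omega
      · omega
      · have := Par.le_X (P := P) i
        omega
    · intro h
      omega
  · intro t ht a b h1 h2 h3 h4
    rw [cell_iff hP ht ⟨by omega, h2, h3, by omega⟩]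
    constructor
    · rintro (h | ⟨i, hi, h⟩ | h | h | h | ⟨i, hi, h⟩)
      · omega
      · omega
      · omega
      · omega
      · omega
      · have := Par.le_Y (P := P) hi
        have := hP.h_lt t i
        omega
    · intro h
      omega
  · intro t ht a b h1 h2 h3 h4
    rw [cell_iff hP ht ⟨by omega, by omega, by omega, h4⟩]
    constructor
    · rintro (h | ⟨i, hi, h⟩ | h | h | h | ⟨i, hi, h⟩)
      · omega
      · have := Par.Y_le (P := P) i
        omega
      · omega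
      · omega
      · omega
      · have := Par.le_X (P := P) i
        omega
    · intro h
      right; left
      refine ⟨0, hP.m_pos, ?_⟩
      rw [Par.X_zero, Par.Y_zero]
      omega
  · intro t ht i hi a b h1 h2 h3 h4
    have x1 := Par.le_X (P := P) i
    have x2 := Par.X_le (P := P) hi
    have y1 := Par.le_Y (P := P) hi
    have y2 := Par.Y_le (P := P) i
    have h5 := hP.h_lt t i
    rw [cell_iff hP ht ⟨by omega, by omega, by omega, h4⟩]
    constructor
    · rintro (h | ⟨j, hj, h⟩ | h | h | h | ⟨j, hj, h⟩)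
      · omega
      · rcases lt_trichotomy i j with h6 | h6 | h6
        · have := Par.Y_mono (P := P) h6
          omega
        · subst h6
          omega
        · have := Par.X_mono (P := P) h6
          omega
      · omega
      · omega
      · omega
      · rcases lt_trichotomy i j with h6 | h6 | h6
        · have := Par.X_mono (P := P) h6
          omega
        · subst h6
          omega
        · have := Par.X_mono (P := P) h6
          have := hP.h_lt t j
          omega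
    · rintro (h | h | h)
      · right; left
        rcases Nat.lt_or_ge (i + 1) P.m with h6 | h6
        · refine ⟨i + 1, h6, ?_⟩
          rw [Par.X_succ, Par.Y_succ]
          omega
        · exfalso
          have h7 : i = P.m - 1 := by omega
          have h8 := Par.X_last (P := P) hP.m_pos
          have h9 := Par.X_add_Y (P := P) i
          rw [← h7] at h8
          omega
      · right; right; right; right; right
        refine ⟨i, hi, ?_⟩
        omega
      · right; right; right; right; right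
        refine ⟨i, hi, ?_⟩
        omega
  · intro b h1 h2 h
    obtain ⟨s, hs, a', b', hE, e⟩ := exists_frame hP h
    exact conv_start hE h1 h2 e
  · intro a h1 h2 h
    rw [cell_conv] at h
    obtain ⟨s, hs, a', b', hE, e⟩ := exists_frame hP h
    exact conv_stop (show s ≤ P.N - 1 by omega) hE h1 e

end Pool.Agent.Lib.MP_7d5495_lc
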